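import Pool.Agent.Work.MP_609cce_lc.SymDefs

/-!
# Definable OR-distillation: circuit satisfiability is hard for NP

The satisfiability problem for Boolean circuits with unbounded fan-in is `NPHard` in the sense of
`SymDefs` (a well-known fact, compare Lovász and Gács); so the hypothesis of the main theorem is
satisfied by natural classes.
-/

set_option autoImplicit false

open Classical

namespace Pool.MP_609cce_lc.Sym

/-- The relation symbols for circuits: `wire g h` (`h` is an input of the gate `g`), the types of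
gates `and`, `or`, `nor`, and `out` (the gate must have the value true). -/
inductive CRel
  | wire | and | or | nor | out

instance : Finite CRel := by
  refine Finite.of_injective (fun r : CRel => (match r with
    | .wire => 0 | .and => 1 | .or => 2 | .nor => 3 | .out => 4 : Fin 5)) ?_
  intro r s h
  cases r <;> cases s <;> first | rfl | (exact absurd h (by decide))

/-- The vocabulary of circuits. -/
def cVoc : Voc where
  Rel := CRel
  fin := inferInstance
  ar
    | .wire => 2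
    | .and => 1
    | .or => 1
    | .nor => 1
    | .out => 1

/-- Satisfiable circuits: the gates that are not of type `and`, `or`, `nor` are the inputs. -/
def CircuitSat : Set (FinStr cVoc) :=
  {A | ∃ S : A.V → Prop, ∀ g,
    (A.rel .and (fun _ => g) → (S g ↔ ∀ h, A.rel .wire ![g, h] → S h)) ∧
    (A.rel .or (fun _ => g) → (S g ↔ ∃ h, A.rel .wire ![g, h] ∧ S h)) ∧
    (A.rel .nor (fun _ => g) → (S g ↔ ¬ ∃ h, A.rel .wire ![g, h] ∧ S h)) ∧
    (A.rel .out (fun _ => g) → S g)}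

/-- Subformulas. -/
def FO.subs {σ : Voc} : {n : ℕ} → FO σ n → Set (Σ n, FO σ n)
  | n, .rel r x => {⟨n, .rel r x⟩}
  | n, .eq x y => {⟨n, .eq x y⟩}
  | n, .neg φ => insert ⟨n, .neg φ⟩ φ.subs
  | n, .and φ ψ => insert ⟨n, .and φ ψ⟩ (φ.subs ∪ ψ.subs)
  | n, .ex φ => insert ⟨n, .ex φ⟩ φ.subs

lemma FO.self_mem {σ : Voc} {n : ℕ} (φ : FO σ n) : (⟨n, φ⟩ : Σ n, FO σ n) ∈ φ.subs := by
  cases φ <;> simp [FO.subs]

lemma FO.subs_finite {σ : Voc} {n : ℕ} (φ : FO σ n) : φ.subs.Finite := by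
  induction φ with
  | rel r x => exact Set.finite_singleton _
  | eq x y => exact Set.finite_singleton _
  | neg φ ih => exact ih.insert _
  | and φ ψ ih1 ih2 => exact (ih1.union ih2).insert _
  | ex φ ih => exact ih.insert _

lemma FO.subs_trans {σ : Voc} {n : ℕ} (φ : FO σ n) :
    ∀ χ : Σ n, FO σ n, χ ∈ φ.subs → χ.2.subs ⊆ φ.subs := by
  induction φ with
  | rel r x =>
    intro χ h
    rw [FO.subs, Set.mem_singleton_iff] at h
    rw [h]
  | eq x y =>
    intro χ h
    rw [FO.subs, Set.mem_singleton_iff] at h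
    rw [h]
  | neg φ ih =>
    intro χ h
    rw [FO.subs, Set.mem_insert_iff] at h
    rcases h with h | h
    · rw [h]
    · exact (ih χ h).trans (Set.subset_insert _ _)
  | and φ ψ ih1 ih2 =>
    intro χ h
    rw [FO.subs, Set.mem_insert_iff, Set.mem_union] at h
    rcases h with h | h | h
    · rw [h]
    · exact (ih1 χ h).trans (Set.subset_union_left.trans (Set.subset_insert _ _))
    · exact (ih2 χ h).trans (Set.subset_union_right.trans (Set.subset_insert _ _))
  | ex φ ih =>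
    intro χ h
    rw [FO.subs, Set.mem_insert_iff] at h
    rcases h with h | h
    · rw [h]
    · exact (ih χ h).trans (Set.subset_insert _ _)

section red

variable {ρ ρ' : Voc} (ψ : FO (ρ.sum ρ') 0) (d : ℕ)

/-- The labels: the constant gate, the subformulas and the second-order variables. -/
abbrev SL : Type := Option (ψ.subs ⊕ ρ'.Rel)

/-- Conditions for wires. -/
inductive Cd (ρ : Voc) (d : ℕ) : Type
  | same (E : ℕ → ℕ → Prop)
  | rel (r : ρ.Rel) (x : Fin (ρ.ar r) → Fin d)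
  | eq (i j : Fin d)

/-- The meaning of the conditions. -/
def Cd.sem {d : ℕ} (A : FinStr ρ) (a a' : Fin d → A.V) : Cd ρ d → Prop
  | .same E => ∀ i j : Fin d, E i.1 j.1 → a i = a' j
  | .rel r x => A.rel r (fun j => a (x j))
  | .eq i j => a i = a j

/-- The formula for a condition. -/
def Cd.fml {d : ℕ} : Cd ρ d → CFml ρ 1 ((Fin 2 × Fin d) ⊕ Fin 0)
  | .same E => .conj (ι := {p : Fin d × Fin d // E p.1.1 p.2.1}) fun p =>
      .eq (.inl (0, p.1.1)) (.inl (1, p.1.2))
  | .rel r x => .rel 0 r (fun j => .inl (0, x j))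
  | .eq i j => .eq (.inl (0, i)) (.inl (0, j))

/-- The wires between labels. -/
inductive Wire : SL ψ → SL ψ → Cd ρ d → Prop
  | neg {k : ℕ} {φ : FO (ρ.sum ρ') k} (h : (⟨k, .neg φ⟩ : Σ n, FO (ρ.sum ρ') n) ∈ ψ.subs)
      (h' : (⟨k, φ⟩ : Σ n, FO (ρ.sum ρ') n) ∈ ψ.subs) :
      Wire (some (.inl ⟨_, h⟩)) (some (.inl ⟨_, h'⟩)) (.same fun i j => i = j ∧ i < k)
  | andl {k : ℕ} {φ φ' : FO (ρ.sum ρ') k}
      (h : (⟨k, .and φ φ'⟩ : Σ n, FO (ρ.sum ρ') n) ∈ ψ.subs)
      (h' : (⟨k, φ⟩ : Σ n, FO (ρ.sum ρ') n) ∈ ψ.subs) :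
      Wire (some (.inl ⟨_, h⟩)) (some (.inl ⟨_, h'⟩)) (.same fun i j => i = j ∧ i < k)
  | andr {k : ℕ} {φ φ' : FO (ρ.sum ρ') k}
      (h : (⟨k, .and φ φ'⟩ : Σ n, FO (ρ.sum ρ') n) ∈ ψ.subs)
      (h' : (⟨k, φ'⟩ : Σ n, FO (ρ.sum ρ') n) ∈ ψ.subs) :
      Wire (some (.inl ⟨_, h⟩)) (some (.inl ⟨_, h'⟩)) (.same fun i j => i = j ∧ i < k)
  | ex {k : ℕ} {φ : FO (ρ.sum ρ') (k + 1)}
      (h : (⟨k, .ex φ⟩ : Σ n, FO (ρ.sum ρ') n) ∈ ψ.subs)
      (h' : (⟨k + 1, φ⟩ : Σ n, FO (ρ.sum ρ') n) ∈ ψ.subs) :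
      Wire (some (.inl ⟨_, h⟩)) (some (.inl ⟨_, h'⟩)) (.same fun i j => i = j ∧ i < k)
  | so {k : ℕ} {r : ρ'.Rel} {x : Fin (ρ'.ar r) → Fin k}
      (h : (⟨k, .rel (σ := ρ.sum ρ') (.inr r) x⟩ : Σ n, FO (ρ.sum ρ') n) ∈ ψ.subs) :
      Wire (some (.inl ⟨_, h⟩)) (some (.inr r)) (.same fun i j => ∃ j', j = j'.1 ∧ i = (x j').1)
  | atom {k : ℕ} {r : ρ.Rel} {x : Fin (ρ.ar r) → Fin k} {x' : Fin (ρ.ar r) → Fin d}
      (h : (⟨k, .rel (σ := ρ.sum ρ') (.inl r) x⟩ : Σ n, FO (ρ.sum ρ') n) ∈ ψ.subs)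
      (hx : ∀ j, (x' j).1 = (x j).1) :
      Wire (some (.inl ⟨_, h⟩)) none (.rel r x')
  | eq {k : ℕ} {x y : Fin k} {x' y' : Fin d}
      (h : (⟨k, .eq x y⟩ : Σ n, FO (ρ.sum ρ') n) ∈ ψ.subs)
      (hx : x'.1 = x.1) (hy : y'.1 = y.1) :
      Wire (some (.inl ⟨_, h⟩)) none (.eq x' y')

/-- Labels of gates of type `and`. -/
inductive LAnd : SL ψ → Prop
  | tt : LAnd none
  | and {k : ℕ} {φ φ' : FO (ρ.sum ρ') k}
      (h : (⟨k, .and φ φ'⟩ : Σ n, FO (ρ.sum ρ') n) ∈ ψ.subs) : LAnd (some (.inl ⟨_, h⟩))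

/-- Labels of gates of type `or`. -/
inductive LOr : SL ψ → Prop
  | rel {k : ℕ} {r : (ρ.sum ρ').Rel} {x : Fin ((ρ.sum ρ').ar r) → Fin k}
      (h : (⟨k, .rel r x⟩ : Σ n, FO (ρ.sum ρ') n) ∈ ψ.subs) : LOr (some (.inl ⟨_, h⟩))
  | eq {k : ℕ} {x y : Fin k}
      (h : (⟨k, .eq x y⟩ : Σ n, FO (ρ.sum ρ') n) ∈ ψ.subs) : LOr (some (.inl ⟨_, h⟩))
  | ex {k : ℕ} {φ : FO (ρ.sum ρ') (k + 1)}
      (h : (⟨k, .ex φ⟩ : Σ n, FO (ρ.sum ρ') n) ∈ ψ.subs) : LOr (some (.inl ⟨_, h⟩))

/-- Labels of gates of type `nor`. -/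
inductive LNor : SL ψ → Prop
  | neg {k : ℕ} {φ : FO (ρ.sum ρ') k}
      (h : (⟨k, .neg φ⟩ : Σ n, FO (ρ.sum ρ') n) ∈ ψ.subs) : LNor (some (.inl ⟨_, h⟩))

/-- The label of the output. -/
def LOut (l : SL ψ) : Prop := l = some (.inl ⟨⟨0, ψ⟩, ψ.self_mem⟩)

/-- The circuit. -/
def circ (A : FinStr ρ) : FinStr cVoc where
  V := SL ψ × (Fin d → A.V)
  fin := by
    have := A.fin
    have := ψ.subs_finite.to_subtype
    have := ρ'.fin
    infer_instance
  nonempty := by
    have := A.nonempty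
    infer_instance
  rel
    | .wire => fun x : Fin 2 → SL ψ × (Fin d → A.V) =>
        ∃ c : Cd ρ d, Wire ψ d (x 0).1 (x 1).1 c ∧ c.sem A (x 0).2 (x 1).2
    | .and => fun x : Fin 1 → SL ψ × (Fin d → A.V) => LAnd ψ (x 0).1
    | .or => fun x : Fin 1 → SL ψ × (Fin d → A.V) => LOr ψ (x 0).1
    | .nor => fun x : Fin 1 → SL ψ × (Fin d → A.V) => LNor ψ (x 0).1
    | .out => fun x : Fin 1 → SL ψ × (Fin d → A.V) => LOut ψ (x 0).1

variable {ψ d}

/-- The value of a gate, for given values of the second-order variables. -/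
def gval (A : FinStr ρ) (P : (r : ρ'.Rel) → (Fin (ρ'.ar r) → A.V) → Prop)
    (hd : ∀ χ ∈ ψ.subs, χ.1 ≤ d) (hd' : ∀ r, ρ'.ar r ≤ d) : SL ψ × (Fin d → A.V) → Prop
  | (none, _) => True
  | (some (.inl χ), a) => χ.1.2.Sat (A.expand P) (fun j => a (Fin.castLE (hd χ.1 χ.2) j))
  | (some (.inr r), a) => P r (fun j => a (Fin.castLE (hd' r) j))

lemma Cd.same_self {A : FinStr ρ} (k : ℕ) (a : Fin d → A.V) :
    (Cd.same (ρ := ρ) (d := d) fun i j => i = j ∧ i < k).sem A a a :=
  fun _ _ h => congrArg a (Fin.ext h.1)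

lemma Cd.same_le {A : FinStr ρ} {k : ℕ} {a a' : Fin d → A.V}
    (h : (Cd.same (ρ := ρ) (d := d) fun i j => i = j ∧ i < k).sem A a a') (hk hk' : k ≤ d) :
    (fun j : Fin k => a' (Fin.castLE hk' j)) = fun j => a (Fin.castLE hk j) := by
  funext j
  exact (h (Fin.castLE hk j) (Fin.castLE hk j) ⟨rfl, j.2⟩).symm

lemma snoc_of_same {A : FinStr ρ} {k : ℕ} {a a' : Fin d → A.V}
    (h : (Cd.same (ρ := ρ) (d := d) fun i j => i = j ∧ i < k).sem A a a') (hk : k ≤ d)
    (hk' : k + 1 ≤ d) : (fun j : Fin (k + 1) => a' (Fin.castLE hk' j)) =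
      Fin.snoc (α := fun _ => A.V) (fun j => a (Fin.castLE hk j)) (a' ⟨k, hk'⟩) := by
  funext j
  refine Fin.lastCases ?_ (fun j => ?_) j
  · rw [Fin.snoc_last]
    rfl
  · rw [Fin.snoc_castSucc]
    exact (h (Fin.castLE hk j) (Fin.castLE hk j) ⟨rfl, j.2⟩).symm

lemma exists_snoc {A : FinStr ρ} {k : ℕ} (a : Fin d → A.V) (v : A.V) (hk' : k + 1 ≤ d) :
    ∃ a' : Fin d → A.V, (Cd.same (ρ := ρ) (d := d) fun i j => i = j ∧ i < k).sem A a a' ∧
      a' ⟨k, hk'⟩ = v := by
  refine ⟨Function.update a ⟨k, hk'⟩ v, fun i j h => ?_, Function.update_self _ _ _⟩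
  rw [Function.update_of_ne]
  · exact congrArg a (Fin.ext h.1)
  · intro h2
    have h3 : j.1 = k := congrArg Fin.val h2
    have h4 := h.2
    have h5 := h.1
    omega

theorem circ_of (hd : ∀ χ ∈ ψ.subs, χ.1 ≤ d) (hd' : ∀ r, ρ'.ar r ≤ d) (A : FinStr ρ)
    (P : (r : ρ'.Rel) → (Fin (ρ'.ar r) → A.V) → Prop)
    (hP : ψ.Sat (A.expand P) (fun i => i.elim0)) : circ ψ d A ∈ CircuitSat := by
  refine ⟨gval A P hd hd', ?_⟩
  rintro ⟨l, a⟩
  refine ⟨fun hg => ?_, fun hg => ?_, fun hg => ?_, fun hg => ?_⟩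
  · change LAnd ψ l at hg
    cases hg with
    | tt =>
      refine ⟨fun _ h hw => ?_, fun _ => trivial⟩
      obtain ⟨c, hc, _⟩ := hw
      change Wire ψ d none h.1 c at hc
      cases hc
    | @and k φ φ' hm =>
      constructor
      · intro hS h hw
        obtain ⟨l', a'⟩ := h
        obtain ⟨c, hc, hc'⟩ := hw
        change Wire ψ d _ l' c at hc
        change c.sem A a a' at hc'
        change (FO.and φ φ').Sat (A.expand P) (fun j => a (Fin.castLE (hd _ hm) j)) at hS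
        cases hc with
        | andl _ h' =>
          show φ.Sat (A.expand P) (fun j => a' (Fin.castLE (hd _ h') j))
          rw [Cd.same_le hc' (hd _ hm) (hd _ h')]
          exact hS.1
        | andr _ h' =>
          show φ'.Sat (A.expand P) (fun j => a' (Fin.castLE (hd _ h') j))
          rw [Cd.same_le hc' (hd _ hm) (hd _ h')]
          exact hS.2
      · intro hS
        have h1 : (⟨k, φ⟩ : Σ n, FO (ρ.sum ρ') n) ∈ ψ.subs :=
          ψ.subs_trans _ hm (Or.inr (Or.inl φ.self_mem))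
        have h2 : (⟨k, φ'⟩ : Σ n, FO (ρ.sum ρ') n) ∈ ψ.subs :=
          ψ.subs_trans _ hm (Or.inr (Or.inr φ'.self_mem))
        exact ⟨hS (some (.inl ⟨_, h1⟩), a) ⟨_, Wire.andl hm h1, Cd.same_self k a⟩,
          hS (some (.inl ⟨_, h2⟩), a) ⟨_, Wire.andr hm h2, Cd.same_self k a⟩⟩
  · change LOr ψ l at hg
    cases hg with
    | @rel k r x hm =>
      obtain r | r := r
      · change Fin (ρ.ar r) → Fin k at x
        constructor
        · intro hS
          exact ⟨(none, a), ⟨Cd.rel r (fun j => Fin.castLE (hd _ hm) (x j)),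
            Wire.atom (k := k) (r := r) (x := x) (x' := fun j => Fin.castLE (hd _ hm) (x j)) hm
            (fun _ => rfl), hS⟩, trivial⟩
        · rintro ⟨⟨l', a'⟩, ⟨c, hc, hc'⟩, _⟩
          change Wire ψ d _ l' c at hc
          change c.sem A a a' at hc'
          cases hc with
          | @atom _ _ _ x' _ hx =>
            change A.rel r (fun j => a (x' j)) at hc'
            show A.rel r (fun j => a (Fin.castLE (hd _ hm) (x j)))
            have e : (fun j => a (Fin.castLE (hd _ hm) (x j))) = fun j => a (x' j) := by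
              funext j
              exact congrArg a (Fin.ext (hx j).symm)
            rw [e]
            exact hc'
      · change Fin (ρ'.ar r) → Fin k at x
        constructor
        · intro hS
          change P r (fun j => a (Fin.castLE (hd _ hm) (x j))) at hS
          let a' : Fin d → A.V := fun i => if h : i.1 < ρ'.ar r then
            a (Fin.castLE (hd _ hm) (x ⟨i.1, h⟩)) else a i
          have ha' : ∀ j : Fin (ρ'.ar r), a' (Fin.castLE (hd' r) j) =
              a (Fin.castLE (hd _ hm) (x j)) := by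
            intro j
            exact dif_pos j.2
          refine ⟨(some (.inr r), a'), ⟨_, Wire.so (k := k) (r := r) (x := x) hm, ?_⟩, ?_⟩
          · rintro i j ⟨j', h1, h2⟩
            have e1 : j = Fin.castLE (hd' r) j' := Fin.ext h1
            have e2 : i = Fin.castLE (hd _ hm) (x j') := Fin.ext h2
            show a i = a' j
            rw [e1, e2, ha']
          · show P r (fun j => a' (Fin.castLE (hd' r) j))
            simp only [ha']
            exact hS
        · rintro ⟨⟨l', a'⟩, ⟨c, hc, hc'⟩, hS⟩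
          change Wire ψ d _ l' c at hc
          change c.sem A a a' at hc'
          cases hc with
          | so _ =>
            change P r (fun j => a' (Fin.castLE (hd' r) j)) at hS
            show P r (fun j => a (Fin.castLE (hd _ hm) (x j)))
            have e : (fun j => a (Fin.castLE (hd _ hm) (x j))) =
                fun j => a' (Fin.castLE (hd' r) j) := by
              funext j
              exact hc' _ _ ⟨j, rfl, rfl⟩
            rw [e]
            exact hS
    | @eq k x y hm =>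
      constructor
      · intro hS
        change a (Fin.castLE (hd _ hm) x) = a (Fin.castLE (hd _ hm) y) at hS
        exact ⟨(none, a), ⟨_, Wire.eq (x' := Fin.castLE (hd _ hm) x)
          (y' := Fin.castLE (hd _ hm) y) hm rfl rfl, hS⟩, trivial⟩
      · rintro ⟨⟨l', a'⟩, ⟨c, hc, hc'⟩, _⟩
        change Wire ψ d _ l' c at hc
        change c.sem A a a' at hc'
        cases hc with
        | @eq _ _ _ x' y' _ hx hy =>
          change a x' = a y' at hc'
          show a (Fin.castLE (hd _ hm) x) = a (Fin.castLE (hd _ hm) y)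
          have e1 : x' = Fin.castLE (hd _ hm) x := Fin.ext hx
          have e2 : y' = Fin.castLE (hd _ hm) y := Fin.ext hy
          rw [← e1, ← e2]
          exact hc'
    | @ex k φ hm =>
      have h1 : (⟨k + 1, φ⟩ : Σ n, FO (ρ.sum ρ') n) ∈ ψ.subs :=
        ψ.subs_trans _ hm (Or.inr φ.self_mem)
      constructor
      · rintro ⟨v, hv⟩
        obtain ⟨a', ha1, ha2⟩ := exists_snoc (ρ := ρ) (A := A) a v (hd _ h1)
        refine ⟨(some (.inl ⟨_, h1⟩), a'), ⟨_, Wire.ex hm h1, ha1⟩, ?_⟩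
        show φ.Sat (A.expand P) (fun j => a' (Fin.castLE (hd _ h1) j))
        rw [snoc_of_same ha1 (hd _ hm) (hd _ h1), ha2]
        exact hv
      · rintro ⟨⟨l', a'⟩, ⟨c, hc, hc'⟩, hS⟩
        change Wire ψ d _ l' c at hc
        change c.sem A a a' at hc'
        cases hc with
        | ex _ _ =>
          change φ.Sat (A.expand P) (fun j => a' (Fin.castLE (hd _ h1) j)) at hS
          rw [snoc_of_same hc' (hd _ hm) (hd _ h1)] at hS
          exact ⟨_, hS⟩
  · change LNor ψ l at hg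
    cases hg with
    | @neg k φ hm =>
      have h1 : (⟨k, φ⟩ : Σ n, FO (ρ.sum ρ') n) ∈ ψ.subs :=
        ψ.subs_trans _ hm (Or.inr φ.self_mem)
      constructor
      · rintro hS ⟨⟨l', a'⟩, ⟨c, hc, hc'⟩, hS'⟩
        change Wire ψ d _ l' c at hc
        change c.sem A a a' at hc'
        cases hc with
        | neg _ _ =>
          change φ.Sat (A.expand P) (fun j => a' (Fin.castLE (hd _ h1) j)) at hS'
          rw [Cd.same_le hc' (hd _ hm) (hd _ h1)] at hS'
          exact hS hS'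
      · intro hS hS'
        exact hS ⟨(some (.inl ⟨_, h1⟩), a), ⟨_, Wire.neg hm h1, Cd.same_self k a⟩, hS'⟩
  · change l = _ at hg
    subst hg
    have e : (fun j : Fin 0 => a (Fin.castLE (hd _ ψ.self_mem) j)) = fun i => i.elim0 := by
      funext j
      exact j.elim0
    show ψ.Sat (A.expand P) (fun j => a (Fin.castLE (hd _ ψ.self_mem) j))
    rw [e]
    exact hP

theorem of_circ (hd : ∀ χ ∈ ψ.subs, χ.1 ≤ d) (hd' : ∀ r, ρ'.ar r ≤ d) (A : FinStr ρ)
    (hA : circ ψ d A ∈ CircuitSat) : ∃ P : (r : ρ'.Rel) → (Fin (ρ'.ar r) → A.V) → Prop,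
      ψ.Sat (A.expand P) (fun i => i.elim0) := by
  obtain ⟨S, hS⟩ := hA
  change SL ψ × (Fin d → A.V) → Prop at S
  let P : (r : ρ'.Rel) → (Fin (ρ'.ar r) → A.V) → Prop := fun r c =>
    ∃ a : Fin d → A.V, (fun j => a (Fin.castLE (hd' r) j)) = c ∧ S (some (.inr r), a)
  refine ⟨P, ?_⟩
  have hand : ∀ g : SL ψ × (Fin d → A.V), LAnd ψ g.1 → (S g ↔ ∀ h : SL ψ × (Fin d → A.V),
      (∃ c : Cd ρ d, Wire ψ d g.1 h.1 c ∧ c.sem A g.2 h.2) → S h) := fun g => (hS g).1
  have hor : ∀ g : SL ψ × (Fin d → A.V), LOr ψ g.1 → (S g ↔ ∃ h : SL ψ × (Fin d → A.V),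
      (∃ c : Cd ρ d, Wire ψ d g.1 h.1 c ∧ c.sem A g.2 h.2) ∧ S h) := fun g => (hS g).2.1
  have hnor : ∀ g : SL ψ × (Fin d → A.V), LNor ψ g.1 → (S g ↔ ¬ ∃ h : SL ψ × (Fin d → A.V),
      (∃ c : Cd ρ d, Wire ψ d g.1 h.1 c ∧ c.sem A g.2 h.2) ∧ S h) := fun g => (hS g).2.2.1
  have hout : ∀ g : SL ψ × (Fin d → A.V), LOut ψ g.1 → S g := fun g => (hS g).2.2.2
  have htt : ∀ a, S (none, a) := by
    intro a
    refine (hand (none, a) LAnd.tt).2 ?_
    rintro h ⟨c, hc, _⟩
    cases hc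
  have key : ∀ (k : ℕ) (χ : FO (ρ.sum ρ') k) (hm : (⟨k, χ⟩ : Σ n, FO (ρ.sum ρ') n) ∈ ψ.subs)
      (a : Fin d → A.V), S (some (.inl ⟨_, hm⟩), a) ↔
        χ.Sat (A.expand P) (fun j => a (Fin.castLE (hd _ hm) j)) := by
    intro k χ
    induction χ with
    | @rel k r x =>
      intro hm a
      rw [hor _ (LOr.rel hm)]
      obtain r | r := r
      · change Fin (ρ.ar r) → Fin k at x
        constructor
        · rintro ⟨⟨l', a'⟩, ⟨c, hc, hc'⟩, _⟩
          change c.sem A a a' at hc'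
          cases hc with
          | @atom _ _ _ x' _ hx =>
            change A.rel r (fun j => a (x' j)) at hc'
            show A.rel r (fun j => a (Fin.castLE (hd _ hm) (x j)))
            have e : (fun j => a (Fin.castLE (hd _ hm) (x j))) = fun j => a (x' j) := by
              funext j
              exact congrArg a (Fin.ext (hx j).symm)
            rw [e]
            exact hc'
        · intro h
          exact ⟨(none, a), ⟨Cd.rel r (fun j => Fin.castLE (hd _ hm) (x j)),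
            Wire.atom (k := k) (r := r) (x := x) (x' := fun j => Fin.castLE (hd _ hm) (x j)) hm
            (fun _ => rfl), h⟩, htt a⟩
      · change Fin (ρ'.ar r) → Fin k at x
        constructor
        · rintro ⟨⟨l', a'⟩, ⟨c, hc, hc'⟩, hS'⟩
          change c.sem A a a' at hc'
          cases hc with
          | so _ =>
            refine ⟨a', ?_, hS'⟩
            funext j
            exact (hc' _ _ ⟨j, rfl, rfl⟩).symm
        · rintro ⟨a', h1, h2⟩
          refine ⟨(some (.inr r), a'), ⟨_, Wire.so (k := k) (r := r) (x := x) hm, ?_⟩, h2⟩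
          rintro i j ⟨j', h3, h4⟩
          have e1 : j = Fin.castLE (hd' r) j' := Fin.ext h3
          have e2 : i = Fin.castLE (hd _ hm) (x j') := Fin.ext h4
          show a i = a' j
          rw [e1, e2]
          exact (congrFun h1 j').symm
    | @eq k x y =>
      intro hm a
      rw [hor _ (LOr.eq hm)]
      constructor
      · rintro ⟨⟨l', a'⟩, ⟨c, hc, hc'⟩, _⟩
        change c.sem A a a' at hc'
        cases hc with
        | @eq _ _ _ x' y' _ hx hy =>
          change a x' = a y' at hc'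
          show a (Fin.castLE (hd _ hm) x) = a (Fin.castLE (hd _ hm) y)
          have e1 : x' = Fin.castLE (hd _ hm) x := Fin.ext hx
          have e2 : y' = Fin.castLE (hd _ hm) y := Fin.ext hy
          rw [← e1, ← e2]
          exact hc'
      · intro h
        exact ⟨(none, a), ⟨_, Wire.eq (x' := Fin.castLE (hd _ hm) x)
          (y' := Fin.castLE (hd _ hm) y) hm rfl rfl, h⟩, htt a⟩
    | @neg k φ ih =>
      intro hm a
      have h1 : (⟨k, φ⟩ : Σ n, FO (ρ.sum ρ') n) ∈ ψ.subs :=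
        ψ.subs_trans _ hm (Or.inr φ.self_mem)
      rw [hnor _ (LNor.neg hm)]
      constructor
      · intro h hφ
        exact h ⟨(some (.inl ⟨_, h1⟩), a), ⟨_, Wire.neg hm h1, Cd.same_self k a⟩,
          (ih h1 a).2 hφ⟩
      · rintro h ⟨⟨l', a'⟩, ⟨c, hc, hc'⟩, hS'⟩
        change c.sem A a a' at hc'
        cases hc with
        | neg _ _ =>
          have h2 := (ih h1 a').1 hS'
          rw [Cd.same_le hc' (hd _ hm) (hd _ h1)] at h2
          exact h h2
    | @and k φ φ' ih1 ih2 =>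
      intro hm a
      have h1 : (⟨k, φ⟩ : Σ n, FO (ρ.sum ρ') n) ∈ ψ.subs :=
        ψ.subs_trans _ hm (Or.inr (Or.inl φ.self_mem))
      have h2 : (⟨k, φ'⟩ : Σ n, FO (ρ.sum ρ') n) ∈ ψ.subs :=
        ψ.subs_trans _ hm (Or.inr (Or.inr φ'.self_mem))
      rw [hand _ (LAnd.and hm)]
      constructor
      · intro h
        exact ⟨(ih1 h1 a).1 (h (some (.inl ⟨_, h1⟩), a)
            ⟨_, Wire.andl hm h1, Cd.same_self k a⟩),
          (ih2 h2 a).1 (h (some (.inl ⟨_, h2⟩), a) ⟨_, Wire.andr hm h2, Cd.same_self k a⟩)⟩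
      · rintro ⟨h3, h4⟩ ⟨l', a'⟩ ⟨c, hc, hc'⟩
        change c.sem A a a' at hc'
        cases hc with
        | andl _ _ =>
          refine (ih1 h1 a').2 ?_
          rw [Cd.same_le hc' (hd _ hm) (hd _ h1)]
          exact h3
        | andr _ _ =>
          refine (ih2 h2 a').2 ?_
          rw [Cd.same_le hc' (hd _ hm) (hd _ h2)]
          exact h4
    | @ex k φ ih =>
      intro hm a
      have h1 : (⟨k + 1, φ⟩ : Σ n, FO (ρ.sum ρ') n) ∈ ψ.subs :=
        ψ.subs_trans _ hm (Or.inr φ.self_mem)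
      rw [hor _ (LOr.ex hm)]
      constructor
      · rintro ⟨⟨l', a'⟩, ⟨c, hc, hc'⟩, hS'⟩
        change c.sem A a a' at hc'
        cases hc with
        | ex _ _ =>
          have h2 := (ih h1 a').1 hS'
          rw [snoc_of_same hc' (hd _ hm) (hd _ h1)] at h2
          exact ⟨_, h2⟩
      · rintro ⟨v, hv⟩
        obtain ⟨a', ha1, ha2⟩ := exists_snoc (ρ := ρ) (A := A) a v (hd _ h1)
        refine ⟨(some (.inl ⟨_, h1⟩), a'), ⟨_, Wire.ex hm h1, ha1⟩, (ih h1 a').2 ?_⟩
        rw [snoc_of_same ha1 (hd _ hm) (hd _ h1), ha2]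
        exact hv
  obtain ⟨v⟩ := A.nonempty
  have h1 := (key 0 ψ ψ.self_mem (fun _ => v)).1 (hout (some (.inl ⟨_, ψ.self_mem⟩), fun _ => v) rfl)
  have e : (fun j : Fin 0 => (fun _ : Fin d => v) (Fin.castLE (hd _ ψ.self_mem) j)) =
      fun i => i.elim0 := by
    funext j
    exact j.elim0
  rw [e] at h1
  exact h1

/-! ### The interpretation -/

lemma univ1 {A : FinStr ρ} (v : Univ (fun _ : Fin 1 => A)) : v = ⟨0, v.2⟩ := by
  obtain ⟨i, v⟩ := v
  have hi : i = 0 := Subsingleton.elim _ _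
  subst hi
  rfl

lemma univ1_eq {A : FinStr ρ} (v v' : Univ (fun _ : Fin 1 => A)) :
    v = v' ↔ (v.2 : A.V) = v'.2 := by
  constructor
  · intro h
    rw [h]
  · intro h
    rw [univ1 v, univ1 v']
    exact congrArg (fun u => (⟨0, u⟩ : Univ (fun _ : Fin 1 => A))) h

lemma holds0 {σ : Voc} {m : ℕ} {Y : Type} {A : Fin m → FinStr σ} (φ : CFml σ m (Y ⊕ Fin 0))
    (a : Y → Univ A) : Holds A φ a ↔ Sat A φ (Sum.elim a fun i => i.elim0) := by
  constructor
  · rintro ⟨z, hz⟩
    have e : z = fun i => i.elim0 := funext fun i => i.elim0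
    rw [← e]
    exact hz
  · intro h
    exact ⟨_, h⟩

lemma Cd.sat_fml {A : FinStr ρ} (c : Cd ρ d) (s : Fin 2 × Fin d → Univ (fun _ : Fin 1 => A)) :
    Sat (fun _ : Fin 1 => A) c.fml (Sum.elim s fun i => i.elim0) ↔
      c.sem A (fun j => (s (0, j)).2) (fun j => (s (1, j)).2) := by
  cases c with
  | same E =>
    constructor
    · intro h i j hE
      exact (univ1_eq _ _).1 (h ⟨(i, j), hE⟩)
    · rintro h ⟨⟨i, j⟩, hE⟩
      exact (univ1_eq _ _).2 (h i j hE)
  | rel r x =>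
    constructor
    · rintro ⟨v, hv, h⟩
      have e : v = fun j => (s (0, x j)).2 := by
        funext j
        exact ((univ1_eq _ _).1 (hv j)).symm
      rw [e] at h
      exact h
    · intro h
      exact ⟨_, fun j => univ1 _, h⟩
  | eq i j => exact univ1_eq _ _

variable (ψ d)

open Classical in
/-- The formula that is true if `p` holds. -/
noncomputable def ofProp {σ : Voc} {m : ℕ} {X : Type} (p : Prop) : CFml σ m X :=
  if p then .conj (ι := Empty) (fun i => i.elim) else .neg (.conj (ι := Empty) (fun i => i.elim))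

lemma sat_ofProp {σ : Voc} {m : ℕ} {X : Type} (A : Fin m → FinStr σ) (p : Prop)
    (s : X → Univ A) : Sat A (ofProp p) s ↔ p := by
  by_cases h : p
  · rw [ofProp, if_pos h]
    exact ⟨fun _ => h, fun _ i => i.elim⟩
  · rw [ofProp, if_neg h]
    exact ⟨fun h' => absurd (fun i : Empty => i.elim) h', fun h' => absurd h' h⟩

/-- The interpretation of the circuit. -/
noncomputable def satInterp (w : ℕ) (hw : 2 * d ≤ w) : Interp ρ cVoc 1 w where
  L := SL ψ
  fin := by
    have := ψ.subs_finite.to_subtype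
    have := ρ'.fin
    infer_instance
  d := d
  k := 0
  dom _ := ofProp True
  eqv l := .conj (ι := Option (Fin d)) fun
    | none => ofProp (l 0 = l 1)
    | some j => .eq (.inl (0, j)) (.inl (1, j))
  rel
    | .wire => fun l : Fin 2 → SL ψ =>
        .neg (.conj (ι := {c : Cd ρ d // Wire ψ d (l 0) (l 1) c}) fun c => .neg c.1.fml)
    | .and => fun l : Fin 1 → SL ψ => ofProp (LAnd ψ (l 0))
    | .or => fun l : Fin 1 → SL ψ => ofProp (LOr ψ (l 0))
    | .nor => fun l : Fin 1 → SL ψ => ofProp (LNor ψ (l 0))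
    | .out => fun l : Fin 1 → SL ψ => ofProp (LOut ψ (l 0))
  le_w := by
    refine ⟨hw, fun r => ?_⟩
    cases r
    · exact hw
    all_goals
      show 1 * d + 0 ≤ w
      omega

theorem satInterp_out (w : ℕ) (hw : 2 * d ≤ w) (A : FinStr ρ) :
    (satInterp ψ d w hw).Out (fun _ => A) (circ ψ d A) := by
  refine ⟨fun a => (a.1.1, fun j => (a.1.2 j).2), ?_, ?_, ?_⟩
  · rintro ⟨l, a⟩
    exact ⟨⟨(l, fun j => ⟨0, a j⟩), (holds0 _ _).2 ((sat_ofProp _ _ _).2 trivial)⟩, rfl⟩
  · intro a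
    refine Iff.trans ?_ (holds0 _ _).symm
    constructor
    · intro h
      have h1 : (a 0).1.1 = (a 1).1.1 := congrArg (Prod.fst (β := Fin d → A.V)) h
      rintro (_ | j)
      · exact (sat_ofProp _ _ _).2 h1
      · exact (univ1_eq _ _).2 (congrFun (congrArg (Prod.snd (α := SL ψ)) h) j)
    · intro h
      refine Prod.ext ((sat_ofProp _ _ _).1 (h none)) (funext fun j => ?_)
      exact (univ1_eq _ _).1 (h (some j))
  · intro r a
    refine Iff.trans ?_ (holds0 _ _).symm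
    cases r with
    | wire =>
      constructor
      · rintro ⟨c, hc, hc'⟩ h
        exact h ⟨c, hc⟩ ((Cd.sat_fml c _).2 hc')
      · intro h
        by_contra h2
        refine h fun c h3 => h2 ⟨c.1, c.2, (Cd.sat_fml c.1 _).1 h3⟩
    | and => exact (sat_ofProp _ _ _).symm
    | or => exact (sat_ofProp _ _ _).symm
    | nor => exact (sat_ofProp _ _ _).symm
    | out => exact (sat_ofProp _ _ _).symm

end red

/-- Circuit satisfiability is hard for NP. -/
theorem circuitSat_hard : NPHard CircuitSat := by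
  rintro ρ K ⟨ρ', ψ, hψ⟩
  obtain ⟨d₁, hd₁⟩ := (ψ.subs_finite.image Sigma.fst).bddAbove
  have := ρ'.fin
  obtain ⟨d₂, hd₂⟩ := (Set.finite_range ρ'.ar).bddAbove
  have hd : ∀ χ ∈ ψ.subs, χ.1 ≤ max d₁ d₂ := fun χ h =>
    (hd₁ ⟨χ, h, rfl⟩).trans (le_max_left _ _)
  have hd' : ∀ r, ρ'.ar r ≤ max d₁ d₂ := fun r => (hd₂ ⟨r, rfl⟩).trans (le_max_right _ _)
  refine ⟨2 * max d₁ d₂ + Nat.card (SL ψ) + 1, fun n hn => ?_⟩
  refine ⟨satInterp ψ (max d₁ d₂) _ (by omega), ?_, fun A _ => ?_⟩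
  · show Nat.card (SL ψ) ≤ _
    calc Nat.card (SL ψ) ≤ n := by omega
      _ = n ^ 1 := (pow_one n).symm
      _ ≤ n ^ (2 * max d₁ d₂ + Nat.card (SL ψ) + 1) := Nat.pow_le_pow_right (by omega) (by omega)
  · refine ⟨circ ψ (max d₁ d₂) A, satInterp_out ψ _ _ _ A, ?_⟩
    rw [hψ A]
    exact ⟨of_circ hd hd' A, fun ⟨P, hP⟩ => circ_of hd hd' A P hP⟩

end Pool.MP_609cce_lc.Sym
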