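import Mathlib

/-!
# Boosting: from separation on average to separation in the worst case
-/

namespace Pool.Agent.Work.MP_609cce_lc

open Finset

section Boost

variable {Y Z A : Type}

/-- `1` for `true`, and `0` for `false`. -/
def bit (b : Bool) : ℝ := if b then 1 else 0

/-- The weight that the multiplicative weights method gives to a pair. -/
noncomputable def mw (a : A → Y → Bool) (b : A → Z → Bool) (η : ℝ) (cs : List A) (y : Y) (z : Z) :
    ℝ := (cs.map fun c => 1 - η * (bit (b c z) - bit (a c y))).prod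

theorem mw_pos (a : A → Y → Bool) (b : A → Z → Bool) {η : ℝ} (h0 : 0 ≤ η) (h1 : η < 1)
    (cs : List A) (y : Y) (z : Z) : 0 < mw a b η cs y z := by
  induction cs with
  | nil => simp [mw]
  | cons c cs ih =>
    simp only [mw, List.map_cons, List.prod_cons] at ih ⊢
    refine mul_pos ?_ ih
    cases a c y <;> cases b c z <;> simp [bit] <;> linarith

theorem mw_ge (a : A → Y → Bool) (b : A → Z → Bool) {η : ℝ} (h0 : 0 ≤ η) (h1 : η < 1)
    (cs : List A) (y : Y) (z : Z) :
    (1 - η) ^ (cs.countP fun c => b c z) * (1 - η ^ 2) ^ cs.length ≤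
      mw a b η cs y z * (1 - η) ^ (cs.countP fun c => a c y) := by
  induction cs with
  | nil => simp [mw]
  | cons c cs ih =>
    have hpos := mw_pos a b h0 h1 cs y z
    simp only [mw, List.map_cons, List.prod_cons, List.countP_cons, List.length_cons] at ih hpos ⊢
    obtain ⟨w, hw⟩ : ∃ w, w = (cs.map fun c => 1 - η * (bit (b c z) - bit (a c y))).prod :=
      ⟨_, rfl⟩
    rw [← hw] at ih hpos ⊢
    obtain ⟨p, hp⟩ : ∃ p, p = cs.countP fun c => b c z := ⟨_, rfl⟩
    obtain ⟨q, hq⟩ : ∃ q, q = cs.countP fun c => a c y := ⟨_, rfl⟩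
    rw [← hp, ← hq] at ih ⊢
    have hη : 0 < 1 - η := by linarith
    have hη2 : 0 ≤ 1 - η ^ 2 := by nlinarith
    have hη3 : 1 - η ^ 2 ≤ 1 := by nlinarith
    have hL0 : 0 ≤ (1 - η) ^ p * (1 - η ^ 2) ^ cs.length := by positivity
    have hR0 : 0 ≤ w * (1 - η) ^ q := by positivity
    rw [pow_succ (1 - η ^ 2)]
    cases a c y <;> cases b c z <;> simp only [bit, if_true, if_false, Bool.false_eq_true,
      sub_zero, zero_sub, sub_self, mul_zero, mul_one, mul_neg, sub_neg_eq_add, one_mul, add_zero,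
      pow_succ]
    · calc (1 - η) ^ p * ((1 - η ^ 2) ^ cs.length * (1 - η ^ 2))
          = ((1 - η) ^ p * (1 - η ^ 2) ^ cs.length) * (1 - η ^ 2) := by ring
        _ ≤ ((1 - η) ^ p * (1 - η ^ 2) ^ cs.length) * 1 := mul_le_mul_of_nonneg_left hη3 hL0
        _ ≤ _ := by rw [mul_one]; exact ih
    · calc (1 - η) ^ p * (1 - η) * ((1 - η ^ 2) ^ cs.length * (1 - η ^ 2))
          = (1 - η) * (((1 - η) ^ p * (1 - η ^ 2) ^ cs.length) * (1 - η ^ 2)) := by ring
        _ ≤ (1 - η) * (((1 - η) ^ p * (1 - η ^ 2) ^ cs.length) * 1) :=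
            mul_le_mul_of_nonneg_left (mul_le_mul_of_nonneg_left hη3 hL0) hη.le
        _ ≤ (1 - η) * (w * (1 - η) ^ q) := by
            rw [mul_one]; exact mul_le_mul_of_nonneg_left ih hη.le
        _ = _ := by ring
    · calc (1 - η) ^ p * ((1 - η ^ 2) ^ cs.length * (1 - η ^ 2))
          = ((1 - η) ^ p * (1 - η ^ 2) ^ cs.length) * (1 - η ^ 2) := by ring
        _ ≤ (w * (1 - η) ^ q) * (1 - η ^ 2) := mul_le_mul_of_nonneg_right ih hη2
        _ = _ := by ring
    · calc (1 - η) ^ p * (1 - η) * ((1 - η ^ 2) ^ cs.length * (1 - η ^ 2))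
          = (1 - η) * (((1 - η) ^ p * (1 - η ^ 2) ^ cs.length) * (1 - η ^ 2)) := by ring
        _ ≤ (1 - η) * (((1 - η) ^ p * (1 - η ^ 2) ^ cs.length) * 1) :=
            mul_le_mul_of_nonneg_left (mul_le_mul_of_nonneg_left hη3 hL0) hη.le
        _ ≤ (1 - η) * (w * (1 - η) ^ q) := by
            rw [mul_one]; exact mul_le_mul_of_nonneg_left ih hη.le
        _ = _ := by ring

/-- **Boosting.** If for all distributions on `Y` and on `Z` some classifier accepts a random
element of `Z` with probability larger by `δ` than a random element of `Y`, then there are `k`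
classifiers such that every element of `Z` is accepted by more of them than every element of
`Y`. -/
theorem boost [Fintype Y] [Fintype Z] [Nonempty Y] [Nonempty Z] (a : A → Y → Bool)
    (b : A → Z → Bool) {δ : ℝ} (h0 : 0 < δ) (h1 : δ ≤ 1)
    (hweak : ∀ (μ : Y → ℝ) (ν : Z → ℝ), (∀ y, 0 ≤ μ y) → ∑ y, μ y = 1 → (∀ z, 0 ≤ ν z) →
      ∑ z, ν z = 1 → ∃ c : A, δ ≤ ∑ z, ν z * bit (b c z) - ∑ y, μ y * bit (a c y))
    (k : ℕ) (hk : (Fintype.card Y : ℝ) * Fintype.card Z * (1 - δ ^ 2 / 4) ^ k < 1) :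
    ∃ cs : List A, cs.length = k ∧
      ∀ y z, (cs.countP fun c => a c y) < (cs.countP fun c => b c z) := by
  obtain ⟨η, hη⟩ : ∃ η, η = δ / 2 := ⟨_, rfl⟩
  have hη0 : 0 < η := by rw [hη]; positivity
  have hη1 : η < 1 := by linarith
  have hstep : ∀ k : ℕ, ∃ cs : List A, cs.length = k ∧
      ∑ y, ∑ z, mw a b η cs y z ≤
        (Fintype.card Y : ℝ) * Fintype.card Z * (1 - η * δ) ^ k := by
    intro k
    induction k with
    | zero =>
      refine ⟨[], rfl, ?_⟩
      simp [mw, Finset.sum_const, Finset.card_univ]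
    | succ k ih =>
      obtain ⟨cs, hcs, hΦ⟩ := ih
      obtain ⟨Φ, hΦdef⟩ : ∃ Φ, Φ = ∑ y, ∑ z, mw a b η cs y z := ⟨_, rfl⟩
      have hΦpos : 0 < Φ := by
        rw [hΦdef]
        exact sum_pos (fun y _ => sum_pos (fun z _ => mw_pos a b hη0.le hη1 cs y z)
          univ_nonempty) univ_nonempty
      have hΦcomm : ∑ z, ∑ y, mw a b η cs y z = Φ := by rw [hΦdef, sum_comm]
      obtain ⟨c, hc⟩ := hweak (fun y => (∑ z, mw a b η cs y z) / Φ)
        (fun z => (∑ y, mw a b η cs y z) / Φ)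
        (fun y => div_nonneg (sum_nonneg fun z _ => (mw_pos a b hη0.le hη1 cs y z).le) hΦpos.le)
        (by rw [← sum_div, ← hΦdef, div_self hΦpos.ne'])
        (fun z => div_nonneg (sum_nonneg fun y _ => (mw_pos a b hη0.le hη1 cs y z).le) hΦpos.le)
        (by rw [← sum_div, hΦcomm, div_self hΦpos.ne'])
      refine ⟨c :: cs, by simp [hcs], ?_⟩
      have e1 : ∑ y, ∑ z, mw a b η (c :: cs) y z =
          Φ - η * (∑ z, (∑ y, mw a b η cs y z) * bit (b c z) -
            ∑ y, (∑ z, mw a b η cs y z) * bit (a c y)) := by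
        have e2 : ∀ y z, mw a b η (c :: cs) y z = mw a b η cs y z -
            η * (mw a b η cs y z * bit (b c z) - mw a b η cs y z * bit (a c y)) := by
          intro y z
          simp only [mw, List.map_cons, List.prod_cons]
          ring
        simp only [e2, sum_sub_distrib, ← mul_sum]
        rw [← hΦdef]
        congr 2
        congr 1
        · rw [sum_comm]
          refine sum_congr rfl fun z _ => ?_
          rw [sum_mul]
        · refine sum_congr rfl fun y _ => ?_
          rw [sum_mul]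
      have e3 : ∑ z, (∑ y, mw a b η cs y z) * bit (b c z) -
            ∑ y, (∑ z, mw a b η cs y z) * bit (a c y) =
          Φ * (∑ z, (∑ y, mw a b η cs y z) / Φ * bit (b c z) -
            ∑ y, (∑ z, mw a b η cs y z) / Φ * bit (a c y)) := by
        rw [mul_sub, mul_sum, mul_sum]
        congr 1
        · refine sum_congr rfl fun z _ => ?_
          field_simp
        · refine sum_congr rfl fun y _ => ?_
          field_simp
      rw [e1, e3]
      have h2 : Φ * δ ≤ Φ * (∑ z, (∑ y, mw a b η cs y z) / Φ * bit (b c z) -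
            ∑ y, (∑ z, mw a b η cs y z) / Φ * bit (a c y)) :=
        mul_le_mul_of_nonneg_left hc hΦpos.le
      have h3 : 0 ≤ 1 - η * δ := by nlinarith
      calc Φ - η * (Φ * (∑ z, (∑ y, mw a b η cs y z) / Φ * bit (b c z) -
            ∑ y, (∑ z, mw a b η cs y z) / Φ * bit (a c y)))
          ≤ Φ - η * (Φ * δ) := by
            have := mul_le_mul_of_nonneg_left h2 hη0.le
            linarith
        _ = Φ * (1 - η * δ) := by ring
        _ ≤ ((Fintype.card Y : ℝ) * Fintype.card Z * (1 - η * δ) ^ k) * (1 - η * δ) :=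
            mul_le_mul_of_nonneg_right (by rw [hΦdef]; exact hΦ) h3
        _ = _ := by rw [pow_succ]; ring
  obtain ⟨cs, hcs, hΦ⟩ := hstep k
  refine ⟨cs, hcs, fun y z => ?_⟩
  by_contra hcon
  push Not at hcon
  have h2 := mw_ge a b hη0.le hη1 cs y z
  have hη' : 0 < 1 - η := by linarith
  have h3 : (1 - η) ^ (cs.countP fun c => a c y) ≤ (1 - η) ^ (cs.countP fun c => b c z) :=
    pow_le_pow_of_le_one hη'.le (by linarith) hcon
  have h4 : (1 - η ^ 2) ^ k ≤ mw a b η cs y z := by
    rw [hcs] at h2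
    have h5 : (1 - η) ^ (cs.countP fun c => a c y) * (1 - η ^ 2) ^ k ≤
        (1 - η) ^ (cs.countP fun c => a c y) * mw a b η cs y z := by
      calc _ ≤ (1 - η) ^ (cs.countP fun c => b c z) * (1 - η ^ 2) ^ k :=
            mul_le_mul_of_nonneg_right h3 (pow_nonneg (by nlinarith) _)
        _ ≤ _ := by rw [mul_comm ((1 - η) ^ _) (mw a b η cs y z)]; exact h2
    exact le_of_mul_le_mul_left h5 (pow_pos hη' _)
  have h5 : mw a b η cs y z ≤ ∑ y, ∑ z, mw a b η cs y z := by
    calc mw a b η cs y z ≤ ∑ z, mw a b η cs y z :=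
          single_le_sum (f := fun z => mw a b η cs y z)
            (fun z _ => (mw_pos a b hη0.le hη1 cs y z).le) (mem_univ z)
      _ ≤ _ := single_le_sum (f := fun y => ∑ z, mw a b η cs y z)
            (fun y _ => sum_nonneg fun z _ => (mw_pos a b hη0.le hη1 cs y z).le) (mem_univ y)
  have h6 : (1 - η * δ) ^ k ≤ (1 - δ ^ 2 / 4) ^ k * (1 - δ ^ 2 / 4) ^ k := by
    rw [← mul_pow]
    refine pow_le_pow_left₀ (by nlinarith) ?_ k
    rw [hη]
    nlinarith [sq_nonneg (δ ^ 2)]
  have h7 : (1 - η ^ 2) = 1 - δ ^ 2 / 4 := by rw [hη]; ring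
  rw [h7] at h4
  have h8 : 0 < (1 - δ ^ 2 / 4) ^ k := pow_pos (by nlinarith) _
  have h9 : (1 - δ ^ 2 / 4) ^ k ≤
      ((Fintype.card Y : ℝ) * Fintype.card Z * (1 - δ ^ 2 / 4) ^ k) * (1 - δ ^ 2 / 4) ^ k := by
    calc (1 - δ ^ 2 / 4) ^ k ≤ (Fintype.card Y : ℝ) * Fintype.card Z * (1 - η * δ) ^ k :=
          h4.trans (h5.trans hΦ)
      _ ≤ (Fintype.card Y : ℝ) * Fintype.card Z * ((1 - δ ^ 2 / 4) ^ k * (1 - δ ^ 2 / 4) ^ k) :=
          mul_le_mul_of_nonneg_left h6 (by positivity)
      _ = _ := by ring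
  nlinarith

end Boost

end Pool.Agent.Work.MP_609cce_lc
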