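import Pool.Agent.Work.MP_609cce_lc.Razborov

/-!
# Small monotone circuits do not approximate the clique function
-/

namespace Pool.Agent.Work.MP_609cce_lc

open Finset


/-- The complete graph on the vertex set `K`. -/
def cliqueGraph {n : ℕ} (K : Finset (Fin n)) : SimpleGraph (Fin n) where
  Adj u v := u ≠ v ∧ u ∈ K ∧ v ∈ K
  symm := ⟨fun _ _ h => ⟨h.1.symm, h.2.2, h.2.1⟩⟩
  loopless := ⟨fun _ h => h.1 rfl⟩

/-- The complete multipartite graph given by a colouring. -/
def colGraph {n r : ℕ} (f : Fin n → Fin r) : SimpleGraph (Fin n) where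
  Adj u v := f u ≠ f v
  symm := ⟨fun _ _ h => h.symm⟩
  loopless := ⟨fun _ h => h rfl⟩

theorem adjBits_cliqueGraph {n : ℕ} (K : Finset (Fin n)) : adjBits (cliqueGraph K) = bP K := by
  funext e
  simp only [adjBits, bP, cliqueGraph]
  congr

theorem adjBits_colGraph {n r : ℕ} (f : Fin n → Fin r) : adjBits (colGraph f) = bN f := by
  funext e
  simp only [adjBits, bN, colGraph]
  congr

theorem not_cliqueFree_cliqueGraph {n k : ℕ} {K : Finset (Fin n)} (hK : K.card = k) :
    ¬ (cliqueGraph K).CliqueFree k := by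
  intro h
  apply h K
  refine ⟨?_, hK⟩
  intro u hu v hv huv
  exact ⟨huv, hu, hv⟩

theorem cliqueFree_colGraph {n r k : ℕ} (hrk : r < k) (f : Fin n → Fin r) :
    (colGraph f).CliqueFree k := by
  intro K hK
  have hinj : Set.InjOn f (K : Set (Fin n)) := by
    intro u hu v hv huv
    by_contra hne
    exact hK.1 hu hv hne huv
  have h1 := Finset.card_image_of_injOn hinj
  have h2 := (K.image f).card_le_univ
  rw [Fintype.card_fin, h1, hK.2] at h2
  omega

theorem choose_bound {n k : ℕ} (hkn : k * k ≤ n) : ∀ j, j ≤ k →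
    (n - j).choose (k - j) * k ^ j ≤ n.choose k := by
  intro j
  induction j with
  | zero => intro _; simp
  | succ j ih =>
    intro hj
    have h1 := ih (by omega)
    -- choose (n-j) (k-j) * (k-j) = (n-j) * choose (n-j-1) (k-j-1)
    have hn : n - j = (n - (j + 1)) + 1 := by
      have : k ≤ n := (Nat.le_mul_self k).trans hkn
      omega
    have hk : k - j = (k - (j + 1)) + 1 := by omega
    have h2 := Nat.add_one_mul_choose_eq (n - (j + 1)) (k - (j + 1))
    rw [← hn, ← hk] at h2
    -- (n-j) * C' = C * (k-j)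
    have h3 : k * (k - j) ≤ n - j := by
      rcases Nat.eq_zero_or_pos j with h0 | h0
      · subst h0; simpa using hkn
      · have : k * (k - j) + k * j ≤ n := by
          rw [← Nat.mul_add, Nat.sub_add_cancel (by omega)]; exact hkn
        have : j ≤ k * j := Nat.le_mul_of_pos_left j (by omega)
        omega
    have h4 : (n - (j + 1)).choose (k - (j + 1)) * k * (k - j) ≤
        (n - j).choose (k - j) * (k - j) := by
      rw [← h2, mul_assoc, mul_comm ((n - (j + 1)).choose (k - (j + 1)))]
      exact Nat.mul_le_mul_right _ h3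
    have h5 : (n - (j + 1)).choose (k - (j + 1)) * k ≤ (n - j).choose (k - j) :=
      Nat.le_of_mul_le_mul_right h4 (by omega)
    calc (n - (j + 1)).choose (k - (j + 1)) * k ^ (j + 1)
        = (n - (j + 1)).choose (k - (j + 1)) * k * k ^ j := by ring
      _ ≤ (n - j).choose (k - j) * k ^ j := Nat.mul_le_mul_right _ h5
      _ ≤ n.choose k := h1

theorem sun_le (p l : ℕ) (hp : 1 ≤ p) : sun p l ≤ (p * l) ^ l := by
  induction l with
  | zero => simp [sun]
  | succ l ih =>
    have h1 := sun_pos p l
    obtain ⟨r, rfl⟩ : ∃ r, p = r + 1 := ⟨p - 1, by omega⟩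
    simp only [sun, Nat.add_sub_cancel]
    have h2 : 1 + r * (l + 1) * sun (r + 1) l ≤ (r + 1) * (l + 1) * sun (r + 1) l := by
      nlinarith
    calc 1 + r * (l + 1) * sun (r + 1) l ≤ (r + 1) * (l + 1) * sun (r + 1) l := h2
      _ ≤ (r + 1) * (l + 1) * ((r + 1) * l) ^ l := Nat.mul_le_mul_left _ ih
      _ ≤ (r + 1) * (l + 1) * ((r + 1) * (l + 1)) ^ l :=
          Nat.mul_le_mul_left _ (Nat.pow_le_pow_left (Nat.mul_le_mul_left _ (by omega)) _)
      _ = ((r + 1) * (l + 1)) ^ (l + 1) := by rw [pow_succ]; ring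

/-- The block of input bits obtained from the output bits of a circuit: each of its bits is an
output bit or a constant. -/
def blockOf {N : ℕ} {κ : Type} (φ : κ → Fin N ⊕ Bool) (y : Fin N → Bool) (e : κ) : Bool :=
  Sum.elim y id (φ e)

/-- The approximation of the composition of two monotone circuits. -/
theorem approx_comp {n p l r k N : ℕ} (hp : 2 ≤ p) (hl2 : 2 ≤ l) {κ : Type}
    (E : MonoCircuit (Fin n × Fin n) N) (φ : κ → Fin N ⊕ Bool) (F : List (MonoGate κ)) {s : ℕ}
    (hs : E.gates.countP MonoGate.isAndOr + F.countP MonoGate.isAndOr ≤ s) :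
    ∃ A : List (Finset (Finset (Fin n))), (∀ i, ∀ X ∈ A.getD i ∅, X.card ≤ l) ∧
      ∃ (BP : Finset (Finset (Fin n))) (BN : Finset (Fin n → Fin r)),
        BP.card ≤ s * (sun p l * sun p l * (n - (l + 1)).choose (k - (l + 1))) ∧
        BN.card ≤ s * ((sun p l * sun p l + 2 * sun p l) * errN n p l r) ∧
        (∀ K ∈ powersetCard k univ, K ∉ BP → ∀ i,
          (gateVals (blockOf φ (E.eval (bP K))) F).getD i false = true → accP (A.getD i ∅) K) ∧
        (∀ f, f ∉ BN → ∀ i, accN (A.getD i ∅) f →
          (gateVals (blockOf φ (E.eval (bN f))) F).getD i false = true) := by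
  classical
  obtain ⟨A1, hA1len, hA1, BP1, BN1, hBP1, hBN1, hPos1, hNeg1⟩ :=
    approx (p := p) (l := l) (r := r) (k := k) hp (κ := Fin n × Fin n) bP bN
      (fun e => if e.1 = e.2 then ∅ else {{e.1, e.2}}) (by
        intro e
        by_cases h : e.1 = e.2
        · simp [h]
        · rw [if_neg h]
          refine ⟨by rw [card_singleton]; exact sun_pos p l, fun X hX => ?_⟩
          rw [mem_singleton.1 hX]
          exact (card_insert_le _ _).trans (by simpa using hl2))
      Set.univ Set.univ (by
        intro K _ e h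
        simp only [bP, decide_eq_true_eq] at h
        rw [if_neg h.1]
        refine ⟨{e.1, e.2}, mem_singleton_self _, ?_⟩
        intro w hw
        rcases mem_insert.1 hw with h1 | h1
        · rw [h1]; exact h.2.1
        · rw [mem_singleton.1 h1]; exact h.2.2) (by
        intro f _ e h
        obtain ⟨X, hX, hinj⟩ := h
        by_cases he : e.1 = e.2
        · rw [if_pos he] at hX
          simp at hX
        · rw [if_neg he, mem_singleton] at hX
          rw [hX] at hinj
          simp only [bN, decide_eq_true_eq]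
          intro hf
          exact he (hinj (by simp) (by simp) hf)) E.gates
  obtain ⟨A2, hA2len, hA2, BP2, BN2, hBP2, hBN2, hPos2, hNeg2⟩ :=
    approx (p := p) (l := l) (r := r) (k := k) hp (κ := κ)
      (fun K => blockOf φ (E.eval (bP K))) (fun f => blockOf φ (E.eval (bN f)))
      (fun e => Sum.elim (fun j => A1.getD (E.out j) ∅) (fun b => if b then {∅} else ∅) (φ e)) (by
        intro e
        cases φ e with
        | inl j => exact hA1 _
        | inr b =>
          cases b with
          | false => simp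
          | true =>
            refine ⟨?_, fun X hX => ?_⟩
            · simpa using sun_pos p l
            · simp only [Sum.elim_inr, if_true, mem_singleton] at hX
              rw [hX]; simp)
      {K | K ∈ powersetCard k univ ∧ K ∉ BP1} {f | f ∉ BN1} (by
        rintro K ⟨hK, hKB⟩ e h
        simp only [blockOf] at h
        cases hφ : φ e with
        | inl j =>
          rw [hφ] at h
          exact hPos1 K hK trivial hKB _ h
        | inr b =>
          rw [hφ] at h
          simp only [Sum.elim_inr, id] at h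
          rw [h]
          exact ⟨∅, by simp, empty_subset _⟩) (by
        intro f hf e h
        simp only [blockOf]
        cases hφ : φ e with
        | inl j =>
          rw [hφ] at h
          exact hNeg1 f trivial hf _ h
        | inr b =>
          rw [hφ] at h
          cases b with
          | false =>
            obtain ⟨X, hX, -⟩ := h
            simp at hX
          | true => rfl) F
  refine ⟨A2, fun i => (hA2 i).2, BP1 ∪ BP2, BN1 ∪ BN2, ?_, ?_, ?_, ?_⟩
  · refine (card_union_le _ _).trans ((Nat.add_le_add hBP1 hBP2).trans ?_)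
    rw [← Nat.add_mul]
    exact Nat.mul_le_mul_right _ hs
  · refine (card_union_le _ _).trans ((Nat.add_le_add hBN1 hBN2).trans ?_)
    rw [← Nat.add_mul]
    exact Nat.mul_le_mul_right _ hs
  · intro K hK hKB i hi
    rw [mem_union, not_or] at hKB
    exact hPos2 K hK ⟨hK, hKB.1⟩ hKB.2 i hi
  · intro f hf i hi
    rw [mem_union, not_or] at hf
    exact hNeg2 f hf.1 hf.2 i hi

/-- The combinatorial heart: a monotone circuit with fewer than `2 ^ l` AND and OR gates does not
even approximately separate cliques of size `q` from complete `(q-1)`-partite graphs, if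
`q ≥ 32 l ^ 4` and there are at least `q ^ 2` vertices: it accepts almost all of the latter, or
rejects almost all of the former. -/
theorem avg_lower {n q r l N : ℕ} (hr : q = r + 1) (hl : 2 ≤ l) (hq : 32 * l ^ 4 ≤ q)
    (hqn : q * q ≤ n) {κ : Type}
    (E : MonoCircuit (Fin n × Fin n) N) (φ : κ → Fin N ⊕ Bool) (F : List (MonoGate κ))
    (hs : E.gates.countP MonoGate.isAndOr + F.countP MonoGate.isAndOr < 2 ^ l) (J : Set ℕ)
    (accN : Finset (Fin n → Fin r)) (rejP : Finset (Finset (Fin n)))
    (hacc : ∀ f, (∃ j ∈ J, (gateVals (blockOf φ (E.eval (bN f))) F).getD j false = true) →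
      f ∈ accN)
    (hrej : ∀ K ∈ powersetCard q (univ : Finset (Fin n)),
      (∀ j ∈ J, (gateVals (blockOf φ (E.eval (bP K))) F).getD j false = false) → K ∈ rejP) :
    8 * l ^ 2 * r ^ n ≤ r ^ n + 8 * l ^ 2 * accN.card ∨
      8 * l ^ 2 * n.choose q ≤ n.choose q + 8 * l ^ 2 * rejP.card := by
  classical
  obtain ⟨s, hs0⟩ : ∃ s, s = E.gates.countP MonoGate.isAndOr + F.countP MonoGate.isAndOr :=
    ⟨_, rfl⟩
  rw [← hs0] at hs
  obtain ⟨p, hp⟩ : ∃ p, p = 4 * l := ⟨_, rfl⟩
  obtain ⟨m0, hm0⟩ : ∃ m0, m0 = sun p l := ⟨_, rfl⟩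
  have hm0pos : 1 ≤ m0 := by rw [hm0]; exact sun_pos _ _
  have hm0le : m0 * m0 ≤ 16 ^ l * l ^ (4 * l) := by
    have h1 : m0 ≤ (4 * l ^ 2) ^ l := by
      rw [hm0]
      refine (sun_le p l (by omega)).trans (le_of_eq ?_)
      rw [hp]
      congr 1
      ring
    calc m0 * m0 ≤ (4 * l ^ 2) ^ l * (4 * l ^ 2) ^ l := Nat.mul_le_mul h1 h1
      _ = 16 ^ l * l ^ (4 * l) := by
        rw [← mul_pow]
        have h2 : 4 * l ^ 2 * (4 * l ^ 2) = 16 * l ^ 4 := by ring
        rw [h2, mul_pow, ← pow_mul]
  have hl4 : 16 ≤ l ^ 4 := by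
    calc 16 = 2 ^ 4 := by norm_num
      _ ≤ l ^ 4 := Nat.pow_le_pow_left hl 4
  have hr16 : 16 * l ^ 4 ≤ r := by omega
  have hrpos : 0 < r := by omega
  have hlq : l ≤ l ^ 4 := Nat.le_self_pow (by norm_num) l
  have hl24 : l ^ 2 ≤ l ^ 4 := Nat.pow_le_pow_right (by omega) (by norm_num)
  have hqq : q ≤ q * q := Nat.le_mul_self q
  obtain ⟨A, hA, BP, BN, hBP, hBN, hPos, hNeg⟩ :=
    approx_comp (p := p) (l := l) (r := r) (k := q) (by omega) hl E φ F hs0.ge
  rw [← hm0] at hBP hBN
  by_cases hne : ∃ i ∈ J, (A.getD i ∅).Nonempty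
  · -- some approximator is nonempty: almost all colourings are accepted
    left
    obtain ⟨i, hiJ, X, hX⟩ := hne
    have hXl : X.card ≤ l := hA i X hX
    have hcov : (univ : Finset (Fin n → Fin r)) ⊆
        accN ∪ (BN ∪ univ.filter fun f => Set.InjOn f ((∅ : Finset (Fin n)) : Set (Fin n)) ∧
          ∀ Y ∈ ({X} : Finset (Finset (Fin n))), ¬ Set.InjOn f (Y : Set (Fin n))) := by
      intro f _
      rw [mem_union, mem_union]
      by_cases hf : f ∈ BN
      · exact Or.inr (Or.inl hf)
      · by_cases hinj : Set.InjOn f (X : Set (Fin n))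
        · exact Or.inl (hacc f ⟨i, hiJ, hNeg f hf i ⟨X, hX, hinj⟩⟩)
        · refine Or.inr (Or.inr (mem_filter.2 ⟨mem_univ _, by simp, ?_⟩))
          intro Y hY
          rw [mem_singleton.1 hY]
          exact hinj
    have hsun : IsSunflower ({X} : Finset (Finset (Fin n))) ∅ := by
      intro Y hY Y' hY' hYY
      rw [mem_singleton.1 hY, mem_singleton.1 hY'] at hYY
      exact absurd rfl hYY
    have h2 := card_noninj (r := r) hsun (l := l) (by intro Y hY; rw [mem_singleton.1 hY]; exact hXl)
    have h3 := (card_le_card hcov).trans ((card_union_le _ _).trans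
      (Nat.add_le_add_left (card_union_le _ _) _))
    rw [card_univ, Fintype.card_fun, Fintype.card_fin, Fintype.card_fin] at h3
    rw [card_singleton, pow_one] at h2
    have h4 : r ^ n ≤ accN.card + (s * ((m0 * m0 + 2 * m0) * errN n p l r) +
        l * l * r ^ (n - 1)) :=
      h3.trans (Nat.add_le_add_left (Nat.add_le_add hBN h2) _)
    have hpn : p ≤ n := by omega
    have e1 : r ^ n = r ^ (n - p) * r ^ p := by
      rw [← pow_add]
      congr 1
      omega
    have e2 : r ^ n = r * r ^ (n - 1) := by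
      rw [← pow_succ']
      congr 1
      omega
    -- the two error terms
    have h5 : 16 * l ^ 2 * (l * l * r ^ (n - 1)) ≤ r ^ n := by
      rw [e2]
      calc 16 * l ^ 2 * (l * l * r ^ (n - 1)) = 16 * l ^ 4 * r ^ (n - 1) := by ring
        _ ≤ r * r ^ (n - 1) := Nat.mul_le_mul_right _ hr16
    have h9 : s * (m0 * m0) * (l * l) ^ p ≤ 32 ^ l * l ^ (12 * l) := by
      calc s * (m0 * m0) * (l * l) ^ p
          ≤ 2 ^ l * (16 ^ l * l ^ (4 * l)) * (l * l) ^ p :=
            Nat.mul_le_mul_right _ (Nat.mul_le_mul hs.le hm0le)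
        _ = (2 ^ l * 16 ^ l) * (l ^ (4 * l) * l ^ (8 * l)) := by
            rw [hp, ← pow_two, ← pow_mul]
            have : 2 * (4 * l) = 8 * l := by ring
            rw [this]
            ring
        _ = 32 ^ l * l ^ (12 * l) := by
            rw [← mul_pow, ← pow_add]
            have : 4 * l + 8 * l = 12 * l := by ring
            rw [this]
            norm_num
    have h10 : 65536 ^ l * l ^ (16 * l) ≤ r ^ p := by
      calc 65536 ^ l * l ^ (16 * l) = (16 * l ^ 4) ^ (4 * l) := by
            rw [mul_pow, ← pow_mul, pow_mul 16 4 l]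
            have : 4 * (4 * l) = 16 * l := by ring
            rw [this]
            norm_num
        _ ≤ r ^ (4 * l) := Nat.pow_le_pow_left hr16 _
        _ = r ^ p := by rw [hp]
    have h13 : 48 * 32 ^ l ≤ 65536 ^ l := by
      calc 48 * 32 ^ l ≤ 2048 * 32 ^ l := Nat.mul_le_mul_right _ (by norm_num)
        _ ≤ 2048 ^ l * 32 ^ l := Nat.mul_le_mul_right _ (Nat.le_self_pow (by omega) _)
        _ = 65536 ^ l := by
            rw [← mul_pow]
            norm_num
    have h12 : l ^ 2 * l ^ (12 * l) ≤ l ^ (16 * l) := by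
      rw [← pow_add]
      exact Nat.pow_le_pow_right (by omega) (by omega)
    have h6 : 16 * l ^ 2 * (s * ((m0 * m0 + 2 * m0) * errN n p l r)) ≤ r ^ n := by
      have h7 : m0 * m0 + 2 * m0 ≤ 3 * (m0 * m0) := by nlinarith
      calc 16 * l ^ 2 * (s * ((m0 * m0 + 2 * m0) * errN n p l r))
          ≤ 16 * l ^ 2 * (s * (3 * (m0 * m0) * errN n p l r)) :=
            Nat.mul_le_mul_left _ (Nat.mul_le_mul_left _ (Nat.mul_le_mul_right _ h7))
        _ = 48 * l ^ 2 * (s * (m0 * m0) * (l * l) ^ p) * r ^ (n - p) := by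
            simp only [errN]; ring
        _ ≤ 48 * l ^ 2 * (32 ^ l * l ^ (12 * l)) * r ^ (n - p) :=
            Nat.mul_le_mul_right _ (Nat.mul_le_mul_left _ h9)
        _ = (48 * 32 ^ l) * (l ^ 2 * l ^ (12 * l)) * r ^ (n - p) := by ring
        _ ≤ 65536 ^ l * l ^ (16 * l) * r ^ (n - p) :=
            Nat.mul_le_mul_right _ (Nat.mul_le_mul h13 h12)
        _ ≤ r ^ p * r ^ (n - p) := Nat.mul_le_mul_right _ h10
        _ = r ^ n := by rw [e1, mul_comm]
    have h14 := Nat.mul_le_mul_left (16 * l ^ 2) h4
    rw [Nat.mul_add, Nat.mul_add] at h14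
    have h15 : 16 * l ^ 2 * r ^ n = 2 * (8 * l ^ 2 * r ^ n) := by ring
    have h16 : 16 * l ^ 2 * accN.card = 2 * (8 * l ^ 2 * accN.card) := by ring
    omega
  · -- all approximators are empty: almost all cliques are rejected
    right
    push Not at hne
    have hcov : powersetCard q (univ : Finset (Fin n)) ⊆ rejP ∪ BP := by
      intro K hK
      rw [mem_union]
      by_contra hcon
      rw [not_or] at hcon
      apply hcon.1
      refine hrej K hK fun j hj => ?_
      by_contra hne'
      rw [Bool.not_eq_false] at hne'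
      obtain ⟨X, hX, -⟩ := hPos K hK hcon.2 j hne'
      rw [hne j hj] at hX
      simp at hX
    have h1 := (card_le_card hcov).trans (card_union_le _ _)
    rw [card_powersetCard, card_univ, Fintype.card_fin] at h1
    have h2 := choose_bound hqn (l + 1) (by omega)
    have hsq : s * (m0 * m0) ≤ q ^ l := by
      calc s * (m0 * m0) ≤ 2 ^ l * (16 ^ l * l ^ (4 * l)) := Nat.mul_le_mul hs.le hm0le
        _ = (32 * l ^ 4) ^ l := by
            rw [mul_pow, ← pow_mul, ← mul_assoc, ← mul_pow]
            norm_num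
        _ ≤ q ^ l := Nat.pow_le_pow_left hq _
    have h3 : q ^ l * (q * BP.card) ≤ q ^ l * n.choose q := by
      calc q ^ l * (q * BP.card) = BP.card * q ^ (l + 1) := by ring
        _ ≤ s * (m0 * m0 * (n - (l + 1)).choose (q - (l + 1))) * q ^ (l + 1) :=
            Nat.mul_le_mul_right _ hBP
        _ = s * (m0 * m0) * ((n - (l + 1)).choose (q - (l + 1)) * q ^ (l + 1)) := by ring
        _ ≤ q ^ l * n.choose q := Nat.mul_le_mul hsq h2
    have h4 := Nat.le_of_mul_le_mul_left h3 (Nat.pow_pos (by omega))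
    have h5 : 8 * l ^ 2 * BP.card ≤ n.choose q :=
      (Nat.mul_le_mul_right _ (by omega)).trans h4
    have h6 := Nat.mul_le_mul_left (8 * l ^ 2) h1
    rw [Nat.mul_add] at h6
    omega

end Pool.Agent.Work.MP_609cce_lc
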