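import Pool.Agent.Work.MP_609cce_lc.QueryDefs

/-!
# Building monotone circuits
-/

namespace Pool.Agent.Work.MP_609cce_lc

section Build

variable {ι : Type}

/-- One of the gates computes `f`. -/
def Computes (G : List (MonoGate ι)) (f : (ι → Bool) → Bool) : Prop :=
  ∃ j < G.length, ∀ x, (gateVals x G).getD j false = f x

/-- Number of AND and OR gates. -/
def ops (G : List (MonoGate ι)) : ℕ := G.countP MonoGate.isAndOr

theorem ops_append (G H : List (MonoGate ι)) : ops (G ++ H) = ops G + ops H :=
  List.countP_append

theorem gateVals_prefix (x : ι → Bool) (G H : List (MonoGate ι)) {j : ℕ} (hj : j < G.length) :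
    (gateVals x (G ++ H)).getD j false = (gateVals x G).getD j false := by
  induction H using List.reverseRecOn with
  | nil => simp
  | append_singleton H h ih =>
    rw [← List.append_assoc, gateVals_append_singleton,
      getD_append_singleton_of_lt _ _ _ (by simp; omega), ih]

theorem Computes.append {G : List (MonoGate ι)} {f : (ι → Bool) → Bool} (h : Computes G f)
    (H : List (MonoGate ι)) : Computes (G ++ H) f := by
  obtain ⟨j, hj, hf⟩ := h
  exact ⟨j, by rw [List.length_append]; omega, fun x => by rw [gateVals_prefix x G H hj, hf]⟩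

theorem computes_snoc (G : List (MonoGate ι)) (g : MonoGate ι) :
    Computes (G ++ [g]) fun x => g.val x (gateVals x G) := by
  refine ⟨G.length, by simp, fun x => ?_⟩
  rw [gateVals_append_singleton]
  have h : G.length = (gateVals x G).length := by simp
  rw [h, getD_append_singleton_length]

theorem Computes.congr {G : List (MonoGate ι)} {f g : (ι → Bool) → Bool} (h : Computes G f)
    (hfg : ∀ x, f x = g x) : Computes G g := by
  obtain ⟨j, hj, hf⟩ := h
  exact ⟨j, hj, fun x => (hf x).trans (hfg x)⟩

theorem Computes.and {G : List (MonoGate ι)} {f g : (ι → Bool) → Bool} (hf : Computes G f)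
    (hg : Computes G g) : ∃ H : List (MonoGate ι), ops H ≤ 1 ∧
      Computes (G ++ H) fun x => f x && g x := by
  obtain ⟨j, hj, hf⟩ := hf
  obtain ⟨k, hk, hg⟩ := hg
  refine ⟨[.and j k], by simp [ops, MonoGate.isAndOr], ?_⟩
  refine (computes_snoc G (.and j k)).congr fun x => ?_
  simp only [MonoGate.val]
  rw [hf, hg]

theorem Computes.or {G : List (MonoGate ι)} {f g : (ι → Bool) → Bool} (hf : Computes G f)
    (hg : Computes G g) : ∃ H : List (MonoGate ι), ops H ≤ 1 ∧
      Computes (G ++ H) fun x => f x || g x := by
  obtain ⟨j, hj, hf⟩ := hf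
  obtain ⟨k, hk, hg⟩ := hg
  refine ⟨[.or j k], by simp [ops, MonoGate.isAndOr], ?_⟩
  refine (computes_snoc G (.or j k)).congr fun x => ?_
  simp only [MonoGate.val]
  rw [hf, hg]

theorem computes_const (G : List (MonoGate ι)) (b : Bool) :
    ∃ H : List (MonoGate ι), ops H = 0 ∧ Computes (G ++ H) fun _ => b :=
  ⟨[.const b], rfl, (computes_snoc G (.const b)).congr fun _ => rfl⟩

/-- Shift the references of a gate. -/
def MonoGate.shiftBy (d : ℕ) : MonoGate ι → MonoGate ι
  | .input i => .input i
  | .const b => .const b
  | .and j k => .and (d + j) (d + k)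
  | .or j k => .or (d + j) (d + k)

theorem gateVals_append_shiftBy (x : ι → Bool) (A B : List (MonoGate ι)) :
    gateVals x (A ++ B.map (MonoGate.shiftBy A.length)) = gateVals x A ++ gateVals x B := by
  induction B using List.reverseRecOn with
  | nil => simp
  | append_singleton B g ih =>
    rw [List.map_append, List.map_singleton, ← List.append_assoc, gateVals_append_singleton, ih,
      gateVals_append_singleton, List.append_assoc]
    congr 2
    have h : ∀ j, (gateVals x A ++ gateVals x B).getD (A.length + j) false =
        (gateVals x B).getD j false := by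
      intro j
      rw [List.getD_append_right _ _ _ _ (by simp)]
      simp
    cases g with
    | input i => rfl
    | const b => rfl
    | and j k => simp only [MonoGate.shiftBy, MonoGate.val, h]
    | or j k => simp only [MonoGate.shiftBy, MonoGate.val, h]

theorem ops_shiftBy (d : ℕ) (B : List (MonoGate ι)) : ops (B.map (MonoGate.shiftBy d)) = ops B := by
  rw [ops, ops, List.countP_map]
  congr 1
  funext g
  cases g <;> rfl

/-- Add a whole circuit. -/
theorem computes_circuit (G B : List (MonoGate ι)) : ∃ H : List (MonoGate ι), ops H ≤ ops B ∧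
    ∀ j, Computes (G ++ H) fun x => (gateVals x B).getD j false := by
  refine ⟨B.map (MonoGate.shiftBy G.length) ++ [.const false], ?_, fun j => ?_⟩
  · rw [ops_append, ops_shiftBy]
    exact le_refl _
  · by_cases hj : j < B.length
    · refine ⟨G.length + j, by simp; omega, fun x => ?_⟩
      rw [← List.append_assoc, gateVals_prefix x _ _ (by simp; omega), gateVals_append_shiftBy,
        List.getD_append_right _ _ _ _ (by simp)]
      simp
    · rw [← List.append_assoc]
      refine (computes_snoc _ (.const false)).congr fun x => ?_
      rw [List.getD_eq_default _ _ (by simpa using hj)]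
      rfl

/-- The OR of a list of functions. -/
theorem computes_any (G : List (MonoGate ι)) (fs : List ((ι → Bool) → Bool))
    (h : ∀ f ∈ fs, Computes G f) : ∃ H : List (MonoGate ι), ops H ≤ fs.length ∧
      Computes (G ++ H) fun x => fs.any fun f => f x := by
  induction fs with
  | nil =>
    obtain ⟨H, hH, hc⟩ := computes_const G false
    exact ⟨H, by rw [hH]; simp, hc.congr fun x => by simp⟩
  | cons f fs ih =>
    obtain ⟨H, hH, hc⟩ := ih fun g hg => h g (List.mem_cons_of_mem _ hg)
    obtain ⟨H', hH', hc'⟩ := ((h f List.mem_cons_self).append H).or hc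
    refine ⟨H ++ H', ?_, ?_⟩
    · rw [ops_append, List.length_cons]
      omega
    · rw [← List.append_assoc]
      exact hc'.congr fun x => by rw [List.any_cons]

/-- Update the threshold functions. -/
theorem computes_thresholds (G : List (MonoGate ι)) (c : (ι → Bool) → ℕ) (f : (ι → Bool) → Bool)
    (hf : Computes G f) (K : ℕ) (hc : ∀ j ≤ K, Computes G fun x => decide (j ≤ c x)) :
    ∃ H : List (MonoGate ι), ops H ≤ 2 * K ∧
      ∀ j ≤ K, Computes (G ++ H) fun x => decide (j ≤ c x + if f x then 1 else 0) := by
  induction K with
  | zero =>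
    refine ⟨[], by simp [ops], fun j hj => ?_⟩
    rw [List.append_nil]
    obtain rfl : j = 0 := by omega
    exact (hc 0 (le_refl _)).congr fun x => by simp
  | succ K ih =>
    obtain ⟨H, hH, hcH⟩ := ih fun j hj => hc j (by omega)
    obtain ⟨H1, hH1, hc1⟩ := ((hc K (by omega)).append H).and (hf.append H)
    obtain ⟨H2, hH2, hc2⟩ := (((hc (K + 1) (le_refl _)).append H).append H1).or hc1
    refine ⟨H ++ (H1 ++ H2), ?_, fun j hj => ?_⟩
    · rw [ops_append, ops_append]
      omega
    · rw [← List.append_assoc, ← List.append_assoc]
      by_cases hjK : j ≤ K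
      · exact ((hcH j hjK).append H1).append H2
      · obtain rfl : j = K + 1 := by omega
        refine hc2.congr fun x => ?_
        cases f x with
        | true =>
          simp only [Bool.and_true, if_true]
          rw [Bool.eq_iff_iff]
          simp only [Bool.or_eq_true, decide_eq_true_eq]
          omega
        | false => simp

/-- A threshold function of a list of circuits with OR gates on top. -/
theorem computes_count (K s w : ℕ) (cs : List (List (MonoGate ι) × List ℕ))
    (hs : ∀ c ∈ cs, ops c.1 ≤ s ∧ c.2.length ≤ w) :
    ∃ G : List (MonoGate ι), ops G ≤ cs.length * (s + w + 2 * K) ∧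
      ∀ j ≤ K, Computes G fun x => decide (j ≤ cs.countP fun c =>
        decide (∃ i ∈ c.2, (gateVals x c.1).getD i false = true)) := by
  induction cs with
  | nil =>
    refine ⟨[.const true, .const false], by simp [ops, MonoGate.isAndOr], fun j _ => ?_⟩
    rcases Nat.eq_zero_or_pos j with h | h
    · subst h
      exact ⟨0, by simp, fun x => by simp [gateVals, MonoGate.val]⟩
    · refine ⟨1, by simp, fun x => ?_⟩
      simp only [gateVals, MonoGate.val, List.countP_nil, List.foldl_cons, List.foldl_nil,
        List.nil_append, List.cons_append]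
      have : ¬ j ≤ 0 := by omega
      simp [this]
  | cons c cs ih =>
    obtain ⟨G, hG, hcG⟩ := ih fun c' hc' => hs c' (List.mem_cons_of_mem _ hc')
    obtain ⟨hs1, hw1⟩ := hs c List.mem_cons_self
    obtain ⟨H1, hH1, hc1⟩ := computes_circuit G c.1
    obtain ⟨H2, hH2, hc2⟩ := computes_any (G ++ H1)
      (c.2.map fun i x => (gateVals x c.1).getD i false) (by
        intro f hf
        obtain ⟨i, -, rfl⟩ := List.mem_map.1 hf
        exact hc1 i)
    obtain ⟨H3, hH3, hc3⟩ := computes_thresholds (G ++ H1 ++ H2) _ _ hc2 K
      fun j hj => ((hcG j hj).append H1).append H2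
    refine ⟨G ++ H1 ++ H2 ++ H3, ?_, fun j hj => ?_⟩
    · rw [ops_append, ops_append, ops_append, List.length_cons, Nat.add_mul]
      rw [List.length_map] at hH2
      omega
    · refine (hc3 j hj).congr fun x => ?_
      rw [List.countP_cons]
      congr 3
      have h1 : ((c.2.map fun i x => (gateVals x c.1).getD i false).any fun f => f x) =
          decide (∃ i ∈ c.2, (gateVals x c.1).getD i false = true) := by
        rw [Bool.eq_iff_iff]
        simp
      rw [h1]

end Build

end Pool.Agent.Work.MP_609cce_lc
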