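import Pool.Agent.Work.MP_609cce_lc.QueryFinal
import Pool.Agent.Work.MP_609cce_lc.Boost
import Pool.Agent.Work.MP_609cce_lc.MonoBuild

/-!
# OR-distillation of monotone languages by circuits with few arbitrary gates
-/

namespace Pool.Agent.Work.MP_609cce_lc

open Finset

theorem small_pow {n P : ℕ} (hn : 1 ≤ n) {δ : ℝ} (h0 : 0 < δ) (h1 : δ ≤ 1)
    (hP : 1 / δ ≤ P) {a b : ℕ} (ha : a ≤ 2 ^ n) (hb : b ≤ 2 ^ n) :
    (a : ℝ) * b * (1 - δ ^ 2 / 4) ^ (8 * n * P ^ 2) < 1 := by
  have h2 : (1 : ℝ) ≤ P ^ 2 * δ ^ 2 := by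
    rw [div_le_iff₀ h0] at hP
    rw [← mul_pow]
    exact one_le_pow₀ hP
  have h3 : (1 - δ ^ 2 / 4) ^ (8 * n * P ^ 2) ≤ Real.exp (-(2 * n)) := by
    have h4 : 1 - δ ^ 2 / 4 ≤ Real.exp (-(δ ^ 2 / 4)) := by
      have := Real.add_one_le_exp (-(δ ^ 2 / 4))
      linarith
    calc (1 - δ ^ 2 / 4) ^ (8 * n * P ^ 2) ≤ (Real.exp (-(δ ^ 2 / 4))) ^ (8 * n * P ^ 2) :=
          pow_le_pow_left₀ (by nlinarith) h4 _
      _ = Real.exp ((8 * n * P ^ 2 : ℕ) * (-(δ ^ 2 / 4))) := by rw [Real.exp_nat_mul]
      _ ≤ Real.exp (-(2 * n)) := by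
          rw [Real.exp_le_exp]
          push_cast
          have hnR : (0 : ℝ) ≤ n := by positivity
          nlinarith
  have h5 : Real.exp (-(2 * n)) = (Real.exp (-2)) ^ n := by
    rw [← Real.exp_nat_mul]
    congr 1
    ring
  have h6 : 4 * Real.exp (-2) < 1 := by
    have h7 : Real.exp (-2) = (Real.exp 2)⁻¹ := Real.exp_neg 2
    have h8 : (2 : ℝ) < Real.exp 1 := by
      have := Real.exp_one_gt_d9
      linarith
    have h9 : Real.exp 2 = Real.exp 1 * Real.exp 1 := by
      rw [← Real.exp_add]
      norm_num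
    rw [h7, ← div_eq_mul_inv, div_lt_one (Real.exp_pos 2), h9]
    nlinarith
  have hA : (a : ℝ) * b ≤ 4 ^ n := by
    have h7 : (a : ℝ) ≤ 2 ^ n := by exact_mod_cast ha
    have h8 : (b : ℝ) ≤ 2 ^ n := by exact_mod_cast hb
    calc (a : ℝ) * b ≤ 2 ^ n * 2 ^ n := mul_le_mul h7 h8 (by positivity) (by positivity)
      _ = 4 ^ n := by rw [← mul_pow]; norm_num
  calc (a : ℝ) * b * (1 - δ ^ 2 / 4) ^ (8 * n * P ^ 2)
      ≤ 4 ^ n * Real.exp (-(2 * n)) :=
        mul_le_mul hA h3 (pow_nonneg (by nlinarith) _) (by positivity)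
    _ = (4 * Real.exp (-2)) ^ n := by rw [h5, mul_pow]
    _ < 1 := pow_lt_one₀ (by positivity) h6 (by omega)

open Classical in
/-- **The quantitative form.** From a random circuit of small weight that compresses the OR of `m`
instances of `R` one obtains a monotone circuit for `R`. -/
theorem exists_mono {n m M s P : ℕ} {R : Set (Fin n → Bool)} (hR0 : (fun _ => false) ∉ R)
    {Ω : Type} [Fintype Ω] [Nonempty Ω] (D : Ω → QCircuit (Fin m × Fin n) M)
    (T : Ω → Set (Fin M → Bool)) {δ : ℝ} (h0 : 0 < δ) (hP : 1 / δ ≤ P)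
    (hs : ∀ ω, (D ω).size ≤ s) (hW : ∀ ω, ((M : ℝ) + 1) * (D ω).weight ≤ δ * m)
    (hD : ∀ x : Fin m → Fin n → Bool, (1 / 2 + δ) * Fintype.card Ω ≤
      ({ω | (D ω).eval (joinBlocks x) ∈ T ω ↔ ∃ i, x i ∈ R} : Set Ω).ncard) :
    ∃ C : MonoCircuit (Fin n) 1,
      C.gates.countP MonoGate.isAndOr ≤ (8 * n * P ^ 2) * (s + m + 2 * (8 * n * P ^ 2)) ∧
      ∀ x, C.eval x 0 = true ↔ x ∈ R := by
  by_cases hRne : ∃ z, z ∈ R
  swap
  · push Not at hRne
    refine ⟨⟨[.const false], fun _ => 0⟩, by simp [MonoGate.isAndOr], fun x => ?_⟩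
    have h1 : x ∉ R := hRne x
    simp only [h1, iff_false]
    simp [MonoCircuit.eval, gateVals, MonoGate.val]
  obtain ⟨z₀, hz₀⟩ := hRne
  have hn : 1 ≤ n := by
    by_contra hn
    obtain rfl : n = 0 := by omega
    apply hR0
    have h1 : z₀ = fun _ => false := by
      funext i
      exact i.elim0
    rwa [h1] at hz₀
  have hΩpos : (0 : ℝ) < Fintype.card Ω := by exact_mod_cast Fintype.card_pos
  have hδ1 : δ ≤ 1 := by
    have h1 := hD fun _ _ => false
    have h2 : (({ω | (D ω).eval (joinBlocks fun _ _ => false) ∈ T ω ↔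
        ∃ i : Fin m, (fun _ => false : Fin n → Bool) ∈ R} : Set Ω).ncard : ℝ) ≤
        Fintype.card Ω := by
      have h3 := Set.ncard_le_ncard (Set.subset_univ ({ω | (D ω).eval (joinBlocks fun _ _ => false)
        ∈ T ω ↔ ∃ i : Fin m, (fun _ => false : Fin n → Bool) ∈ R} : Set Ω)) Set.finite_univ
      rw [Set.ncard_univ, Nat.card_eq_fintype_card] at h3
      exact_mod_cast h3
    have h3 : (1 / 2 + δ) * (Fintype.card Ω : ℝ) ≤ 1 * Fintype.card Ω := by
      rw [one_mul]
      exact h1.trans h2
    have h4 := le_of_mul_le_mul_right h3 hΩpos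
    linarith
  -- the number of circuits that err
  have hbad : ∀ x : Fin m → Fin n → Bool,
      ((univ.filter fun ω => ¬ ((D ω).eval (joinBlocks x) ∈ T ω ↔ ∃ i, x i ∈ R)).card : ℝ) ≤
        (1 / 2 - δ) * Fintype.card Ω := by
    intro x
    have h1 := hD x
    rw [Set.ncard_eq_toFinset_card'] at h1
    have h2 := Finset.card_filter_add_card_filter_not (s := (univ : Finset Ω))
      (fun ω => (D ω).eval (joinBlocks x) ∈ T ω ↔ ∃ i, x i ∈ R)
    rw [card_univ] at h2
    have h3 : (((univ.filter fun ω => ((D ω).eval (joinBlocks x) ∈ T ω ↔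
        ∃ i, x i ∈ R)).card : ℕ) : ℝ) +
        ((univ.filter fun ω => ¬ ((D ω).eval (joinBlocks x) ∈ T ω ↔ ∃ i, x i ∈ R)).card : ℕ) =
        Fintype.card Ω := by exact_mod_cast h2
    have h4 : ({ω | (D ω).eval (joinBlocks x) ∈ T ω ↔ ∃ i, x i ∈ R} : Set Ω).toFinset =
        univ.filter fun ω => ((D ω).eval (joinBlocks x) ∈ T ω ↔ ∃ i, x i ∈ R) := by
      ext ω
      simp
    rw [h4] at h1
    linarith
  -- the classifiers
  let A : Type := {c : List (MonoGate (Fin n)) × List ℕ // ops c.1 ≤ s ∧ c.2.length ≤ m}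
  let cl : A → (Fin n → Bool) → Bool := fun c x =>
    decide (∃ i ∈ c.1.2, (gateVals x c.1.1).getD i false = true)
  have hY : Nonempty {y : Fin n → Bool // y ∉ R} := ⟨⟨_, hR0⟩⟩
  have hZ : Nonempty {z : Fin n → Bool // z ∈ R} := ⟨⟨_, hz₀⟩⟩
  have hcardY : Fintype.card {y : Fin n → Bool // y ∉ R} ≤ 2 ^ n := by
    refine (Fintype.card_subtype_le _).trans ?_
    simp
  have hcardZ : Fintype.card {z : Fin n → Bool // z ∈ R} ≤ 2 ^ n := by
    refine (Fintype.card_subtype_le _).trans ?_
    simp
  obtain ⟨cs, hcs, hboost⟩ := boost (Y := {y : Fin n → Bool // y ∉ R})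
    (Z := {z : Fin n → Bool // z ∈ R}) (A := A) (fun c y => cl c y.1) (fun c z => cl c z.1)
    h0 hδ1 (by
      intro μ ν hμ0 hμ1 hν0 hν1
      by_contra hcon
      push Not at hcon
      have hmain := average (m := m) (κ := Fin n) (Y := {y : Fin n → Bool // y ∉ R})
        (Z := {z : Fin n → Bool // z ∈ R}) (Ω := Ω) (fun _ => false) Subtype.val Subtype.val
        (fun y e h => absurd h (by simp)) (fun z e h => absurd h (by simp))
        μ hμ0 hμ1 ν hν0 hν1
        (fun ω => withTarget (D ω) (T ω)) (fun ω => lastBit (D ω)) ⌊δ * m⌋₊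
        (fun ω => by
          rw [withTarget_weight]
          refine Nat.le_floor ?_
          push_cast
          exact hW ω)
        δ (1 / 2 - δ) (1 / 2 - δ)
        (fun ω F J hF hJ => by
          rw [withTarget_size] at hF
          have hJm : J.length ≤ m := by
            refine hJ.trans ?_
            refine Nat.floor_le_of_le ?_
            calc δ * m ≤ 1 * m := mul_le_mul_of_nonneg_right hδ1 (by positivity)
              _ = m := one_mul _
          have h1 := hcon ⟨(F, J), by rw [ops, hF]; exact hs ω, hJm⟩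
          have e1 : ∑ y : {y : Fin n → Bool // y ∉ R}, μ y * bit (cl ⟨(F, J), by
              rw [ops, hF]; exact hs ω, hJm⟩ y.1) =
              ∑ y : {y : Fin n → Bool // y ∉ R},
                μ y * (if ∃ j ∈ J, (gateVals y.1 F).getD j false = true then 1 else 0) := by
            refine sum_congr rfl fun y _ => ?_
            congr 1
            by_cases h : ∃ j ∈ J, (gateVals y.1 F).getD j false = true
            · simp [bit, cl, h]
            · simp [bit, cl, h]
          have e2 : ∑ z : {z : Fin n → Bool // z ∈ R},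
                ν z * (if ∃ j ∈ J, (gateVals z.1 F).getD j false = true then 0 else 1) =
              ∑ z, ν z - ∑ z : {z : Fin n → Bool // z ∈ R}, ν z * bit (cl ⟨(F, J), by
              rw [ops, hF]; exact hs ω, hJm⟩ z.1) := by
            rw [← sum_sub_distrib]
            refine sum_congr rfl fun z _ => ?_
            by_cases h : ∃ j ∈ J, (gateVals z.1 F).getD j false = true
            · have h5 : cl ⟨(F, J), by rw [ops, hF]; exact hs ω, hJm⟩ z.1 = true := by
                simp only [cl, decide_eq_true_eq]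
                exact h
              rw [if_pos h, h5]
              simp [bit]
            · have h5 : cl ⟨(F, J), by rw [ops, hF]; exact hs ω, hJm⟩ z.1 = false := by
                simp only [cl, decide_eq_false_iff_not]
                exact h
              rw [if_neg h, h5]
              simp [bit]
          rw [e1] at h1
          rw [e2, hν1]
          linarith)
        (fun x hx => by
          refine le_trans ?_ (hbad x)
          norm_cast
          refine card_le_card fun ω hω => ?_
          rw [mem_filter] at hω ⊢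
          refine ⟨mem_univ _, fun hiff => ?_⟩
          have h3 := hω.2
          rw [withTarget_val, decide_eq_true_eq] at h3
          obtain ⟨i, hi⟩ := hiff.1 h3
          rcases hx i with h | ⟨y, h⟩
          · rw [h] at hi
            exact hR0 hi
          · rw [h] at hi
            exact y.2 hi)
        (fun x i z hx => by
          refine le_trans ?_ (hbad (Function.update x i z.1))
          norm_cast
          refine card_le_card fun ω hω => ?_
          rw [mem_filter] at hω ⊢
          refine ⟨mem_univ _, fun hiff => ?_⟩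
          have h3 := hω.2
          rw [withTarget_val, decide_eq_false_iff_not] at h3
          exact h3 (hiff.2 ⟨i, by rw [Function.update_self]; exact z.2⟩))
      have hfl : ((⌊δ * m⌋₊ : ℕ) : ℝ) ≤ δ * m := Nat.floor_le (by positivity)
      have h1 : (m : ℝ) * δ = m * (1 - δ - (1 / 2 - δ) - (1 / 2 - δ)) := by ring
      linarith)
    (8 * n * P ^ 2) (small_pow hn h0 hδ1 hP hcardY hcardZ)
  -- the threshold
  let cnt : (Fin n → Bool) → ℕ := fun x => cs.countP fun c => cl c x
  obtain ⟨y₁, -, hy₁⟩ := exists_max_image (univ : Finset {y : Fin n → Bool // y ∉ R})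
    (fun y => cnt y.1) univ_nonempty
  have hR : ∀ x, x ∈ R ↔ cnt y₁.1 + 1 ≤ cnt x := by
    intro x
    constructor
    · intro hx
      exact hboost y₁ ⟨x, hx⟩
    · intro hx
      by_contra hxR
      have := hy₁ ⟨x, hxR⟩ (mem_univ _)
      simp only at this
      omega
  have hθ : cnt y₁.1 + 1 ≤ 8 * n * P ^ 2 := by
    have h1 := (hR z₀).1 hz₀
    have h2 : cnt z₀ ≤ cs.length := List.countP_le_length
    omega
  obtain ⟨G, hG1, hG2⟩ := computes_count (8 * n * P ^ 2) s m (cs.map Subtype.val) (by
    intro c hc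
    obtain ⟨c', -, rfl⟩ := List.mem_map.1 hc
    exact c'.2)
  obtain ⟨o, -, ho⟩ := hG2 _ hθ
  refine ⟨⟨G, fun _ => o⟩, ?_, fun x => ?_⟩
  · rw [List.length_map, hcs] at hG1
    exact hG1
  · change (gateVals x G).getD o false = true ↔ _
    rw [ho, decide_eq_true_eq, hR x, List.countP_map]
    rfl

/-- A monotone gate as a gate of a general circuit. -/
def MonoGate.toQ {ι : Type} : MonoGate ι → QGate ι
  | .input i => .input i
  | .const b => .const b
  | .and j k => .and j k
  | .or j k => .or j k

theorem qVals_toQ {ι : Type} (x : ι → Bool) (G : List (MonoGate ι)) :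
    qVals x (G.map MonoGate.toQ) = gateVals x G := by
  induction G using List.reverseRecOn with
  | nil => rfl
  | append_singleton G g ih =>
    rw [List.map_append, List.map_singleton, qVals_append_singleton, gateVals_append_singleton, ih]
    cases g <;> rfl

theorem countP_toQ {ι : Type} (G : List (MonoGate ι)) :
    (G.map MonoGate.toQ).countP QGate.isAndOr = G.countP MonoGate.isAndOr := by
  rw [List.countP_map]
  congr 1
  funext g
  cases g <;> rfl

theorem weight_toQ {ι : Type} (G : List (MonoGate ι)) :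
    ((G.map MonoGate.toQ).map QGate.weight).prod = 1 := by
  rw [List.map_map]
  apply List.prod_eq_one
  intro w hw
  obtain ⟨g, -, rfl⟩ := List.mem_map.1 hw
  cases g <;> rfl

/-- The OR of many copies. -/
theorem exists_copies {n m s : ℕ} {R : Set (Fin n → Bool)} (C : MonoCircuit (Fin n) 1)
    (hs : C.gates.countP MonoGate.isAndOr ≤ s) (hC : ∀ x, C.eval x 0 = true ↔ x ∈ R) :
    ∃ G : MonoCircuit (Fin m × Fin n) 1, G.gates.countP MonoGate.isAndOr ≤ m * (s + 1) ∧
      ∀ x : Fin m → Fin n → Bool, G.eval (joinBlocks x) 0 = true ↔ ∃ i, x i ∈ R := by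
  classical
  have key : ∀ L : List (Fin m), ∃ G : List (MonoGate (Fin m × Fin n)),
      ops G ≤ L.length * (s + 1) ∧ Computes G fun x => L.any fun i =>
        C.eval (fun e => x (i, e)) 0 := by
    intro L
    induction L with
    | nil =>
      obtain ⟨H, hH, hc⟩ := computes_const ([] : List (MonoGate (Fin m × Fin n))) false
      exact ⟨[] ++ H, by rw [List.nil_append, hH]; simp, hc.congr fun x => by simp⟩
    | cons i L ih =>
      obtain ⟨G, hG, hc⟩ := ih
      obtain ⟨H, hH, hcH⟩ := computes_circuit G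
        (C.gates.map (MonoGate.subst fun e => .inl (i, e)))
      obtain ⟨H', hH', hc'⟩ := (hcH (C.out 0)).or (hc.append H)
      refine ⟨G ++ H ++ H', ?_, hc'.congr fun x => ?_⟩
      · rw [ops_append, ops_append, List.length_cons, Nat.add_mul]
        rw [ops, ops, countP_subst] at hH
        have : ops H ≤ s := hH.trans hs
        omega
      · rw [List.any_cons, gateVals_subst]
        rfl
  obtain ⟨G, hG, o, -, ho⟩ := key (List.finRange m)
  refine ⟨⟨G, fun _ => o⟩, by rw [List.length_finRange] at hG; exact hG, fun x => ?_⟩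
  change (gateVals (joinBlocks x) G).getD o false = true ↔ _
  rw [ho, List.any_eq_true]
  constructor
  · rintro ⟨i, -, hi⟩
    exact ⟨i, (hC _).1 hi⟩
  · rintro ⟨i, hi⟩
    exact ⟨i, List.mem_finRange i, (hC _).2 hi⟩

theorem eval_le_eval (P : Polynomial ℕ) {a b : ℕ} (h : a ≤ b) : P.eval a ≤ P.eval b := by
  rw [Polynomial.eval_eq_sum, Polynomial.eval_eq_sum]
  exact Finset.sum_le_sum fun i _ => Nat.mul_le_mul_left _ (Nat.pow_le_pow_left h i)

end Pool.Agent.Work.MP_609cce_lc
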