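import Pool.Agent.Work.MP_609cce_lc.QueryDefs

/-!
# Formulas of AND gates, OR gates and few arbitrary gates

Definitions only.
-/

namespace Pool.Agent.Work.MP_609cce_lc

/-- A formula whose inputs are indexed by `ι`: an input, a constant, the conjunction or disjunction
of two formulas, or a query, which applies an arbitrary function `f` to the values of `k`
formulas. -/
inductive QForm (ι : Type) : Type
  | input (i : ι) : QForm ι
  | const (b : Bool) : QForm ι
  | and (F G : QForm ι) : QForm ι
  | or (F G : QForm ι) : QForm ι
  | query (k : ℕ) (Fs : Fin k → QForm ι) (f : (Fin k → Bool) → Bool) : QForm ι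

/-- The negation of a formula is a query with one input. -/
def QForm.not {ι : Type} (F : QForm ι) : QForm ι := .query 1 (fun _ => F) fun v => !(v 0)

/-- The value of a formula on the input `x`. -/
def QForm.eval {ι : Type} (x : ι → Bool) : QForm ι → Bool
  | .input i => x i
  | .const b => b
  | .and F G => F.eval x && G.eval x
  | .or F G => F.eval x || G.eval x
  | .query _ Fs f => f fun i => (Fs i).eval x

/-- The size of a formula is its number of AND gates and OR gates. -/
def QForm.size {ι : Type} : QForm ι → ℕ
  | .input _ => 0
  | .const _ => 0
  | .and F G => F.size + G.size + 1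
  | .or F G => F.size + G.size + 1
  | .query _ Fs _ => ∑ i, (Fs i).size

/-- The total number of inputs of all queries of a formula. If all queries are NOT gates, then this
is the number of NOT gates. -/
def QForm.wires {ι : Type} : QForm ι → ℕ
  | .input _ => 0
  | .const _ => 0
  | .and F G => F.wires + G.wires
  | .or F G => F.wires + G.wires
  | .query k Fs _ => k + ∑ i, (Fs i).wires

end Pool.Agent.Work.MP_609cce_lc
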