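import Pool.Agent.Work.MP_609cce_lc.QueryFinal

/-!
# OR-distillation by circuits with few arbitrary gates: asymptotic form
-/

namespace Pool.Agent.Work.MP_609cce_lc

open Finset

theorem poly_le_pow (P : Polynomial ℕ) : ∃ a : ℕ, 1 ≤ a ∧ ∀ x, P.eval x ≤ (x + 2) ^ a := by
  induction P using Polynomial.induction_on' with
  | add p q hp hq =>
    obtain ⟨a, ha, h1⟩ := hp
    obtain ⟨b, hb, h2⟩ := hq
    refine ⟨a + b, by omega, fun x => ?_⟩
    rw [Polynomial.eval_add]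
    have h3 : 2 ≤ (x + 2) ^ a := by
      calc 2 ≤ x + 2 := by omega
        _ ≤ (x + 2) ^ a := Nat.le_self_pow (by omega) _
    have h4 : 2 ≤ (x + 2) ^ b := by
      calc 2 ≤ x + 2 := by omega
        _ ≤ (x + 2) ^ b := Nat.le_self_pow (by omega) _
    rw [pow_add]
    have h5 := h1 x
    have h6 := h2 x
    nlinarith
  | monomial k c =>
    refine ⟨k + c + 1, by omega, fun x => ?_⟩
    rw [Polynomial.eval_monomial]
    have h1 : c ≤ (x + 2) ^ c := (Nat.lt_pow_self (by omega : 1 < x + 2)).le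
    have h2 : x ^ k ≤ (x + 2) ^ k := Nat.pow_le_pow_left (by omega) k
    calc c * x ^ k ≤ (x + 2) ^ c * (x + 2) ^ k := Nat.mul_le_mul h1 h2
      _ = (x + 2) ^ (k + c) := by rw [← pow_add]; congr 1; omega
      _ ≤ (x + 2) ^ (k + c + 1) := Nat.pow_le_pow_right (by omega) (by omega)

theorem exists_nat_root (c n : ℕ) (hc : 1 ≤ c) : ∃ h, h ^ c ≤ n ∧ n < (h + 1) ^ c := by
  have h1 : ∃ h, n < (h + 1) ^ c := ⟨n, by
    calc n < n + 1 := Nat.lt_succ_self n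
      _ ≤ (n + 1) ^ c := Nat.le_self_pow (by omega) _⟩
  classical
  refine ⟨Nat.find h1, ?_, Nat.find_spec h1⟩
  rcases Nat.eq_zero_or_pos (Nat.find h1) with h0 | h0
  · rw [h0, zero_pow (by omega)]
    exact Nat.zero_le _
  · have h2 := Nat.find_min h1 (m := Nat.find h1 - 1) (by omega)
    rw [Nat.sub_add_cancel h0] at h2
    omega

theorem exists_small_poly (b : ℕ) : ∃ l₀ : ℕ, ∀ l ≥ l₀, 2 * (l + 2) ^ b ≤ 2 ^ l := by
  have h1 := tendsto_pow_const_div_const_pow_of_one_lt b (by norm_num : (1 : ℝ) < 2)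
  have h2 : ∀ᶠ n : ℕ in Filter.atTop, (n : ℝ) ^ b / 2 ^ n < 1 / 8 :=
    h1.eventually_lt_const (by norm_num)
  obtain ⟨n₀, hn₀⟩ := Filter.eventually_atTop.1 h2
  refine ⟨n₀, fun l hl => ?_⟩
  have h3 := hn₀ (l + 2) (by omega)
  rw [div_lt_iff₀ (by positivity)] at h3
  have h4 : (2 : ℝ) ^ (l + 2) = 4 * 2 ^ l := by rw [pow_add]; ring
  rw [h4] at h3
  have h5 : (2 : ℝ) * (l + 2 : ℕ) ^ b ≤ 2 ^ l := by
    push_cast at h3 ⊢
    linarith
  exact_mod_cast h5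

/-- **The main theorem on circuits with few arbitrary gates.** -/
theorem few_queries {R : Set (List Bool)} (hR : CliqueReducesTo R) :
    ∃ ε > (0 : ℝ), ∃ n₀ : ℕ, ∀ n ≥ n₀, ∀ (m M : ℕ) (Ω : Type) [Fintype Ω] [Nonempty Ω]
      (D : Ω → QCircuit (Fin m × Fin (n + 1)) M) (T : Ω → Set (Fin M → Bool)) (δ : ℝ),
      (n : ℝ) ^ (-ε) ≤ δ →
      (∀ ω, ((M : ℝ) + 1) * (D ω).weight ≤ δ * m) →
      (∀ w : Fin m → List Bool, (∀ i, (w i).length ≤ n) → (1 / 2 + δ) * Fintype.card Ω ≤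
        ({ω | (D ω).eval (codes n w) ∈ T ω ↔ ∃ i, w i ∈ R} : Set Ω).ncard) →
      ∃ ω, (2 : ℝ) ^ ((n : ℝ) ^ ε) ≤ (D ω).size := by
  obtain ⟨N, s, hNs⟩ := hR
  let V : Polynomial ℕ := 1024 * Polynomial.X ^ 8
  have hV : ∀ l, V.eval l = 1024 * l ^ 8 := by
    intro l
    simp [V]
  obtain ⟨a, ha, hNa⟩ := poly_le_pow (N.comp V)
  obtain ⟨b, hb, hsb⟩ := poly_le_pow (s.comp V)
  obtain ⟨l₀, hl₀⟩ := exists_small_poly b
  let c : ℕ := 2 * a
  have hc : 1 ≤ c := by omega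
  have hcR : (0 : ℝ) < c := by exact_mod_cast hc
  refine ⟨1 / (2 * c), by positivity, (l₀ + 4) ^ c, ?_⟩
  intro n hn m M Ω _ _ D T δ hδ hW hD
  obtain ⟨l, hl1, hl2⟩ := exists_nat_root c n hc
  have hll : l₀ + 4 ≤ l := by
    by_contra hcon
    have h1 : (l + 1) ^ c ≤ (l₀ + 4) ^ c := Nat.pow_le_pow_left (by omega) c
    omega
  have hNn : N.eval (1024 * l ^ 8) ≤ n := by
    have h1 := hNa l
    rw [Polynomial.eval_comp, hV] at h1
    refine h1.trans (le_trans ?_ hl1)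
    calc (l + 2) ^ a ≤ (l * l) ^ a := Nat.pow_le_pow_left (by nlinarith) a
      _ = l ^ c := by rw [← pow_two, ← pow_mul]
  have hsn : 2 * s.eval (1024 * l ^ 8) ≤ 2 ^ l := by
    have h1 := hsb l
    rw [Polynomial.eval_comp, hV] at h1
    exact (Nat.mul_le_mul_left 2 h1).trans (hl₀ l (by omega))
  obtain ⟨E, hE1, hE2⟩ := hNs (1024 * l ^ 8)
  have hsq : 1024 * l ^ 8 = (32 * l ^ 4) * (32 * l ^ 4) := by ring
  have hsqrt : Nat.sqrt (1024 * l ^ 8) = 32 * l ^ 4 := by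
    rw [hsq, Nat.sqrt_eq]
  -- comparison of `n ^ ε` with `l`
  have hroot : (n : ℝ) ^ (1 / (2 * c : ℝ)) ≤ l - 1 := by
    have h1 : (n : ℝ) ≤ ((l + 1 : ℕ) : ℝ) ^ c := by exact_mod_cast hl2.le
    have h2 : (n : ℝ) ^ (1 / (2 * c : ℝ)) ≤ (((l + 1 : ℕ) : ℝ) ^ c) ^ (1 / (2 * c : ℝ)) :=
      Real.rpow_le_rpow (by positivity) h1 (by positivity)
    have h3 : (((l + 1 : ℕ) : ℝ) ^ c) ^ (1 / (2 * c : ℝ)) = Real.sqrt ((l + 1 : ℕ) : ℝ) := by
      rw [← Real.rpow_natCast, ← Real.rpow_mul (by positivity), Real.sqrt_eq_rpow]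
      congr 1
      field_simp
    rw [h3] at h2
    refine h2.trans ?_
    have h4 : (4 : ℝ) ≤ l := by exact_mod_cast (by omega : 4 ≤ l)
    rw [Real.sqrt_le_left (by linarith)]
    push_cast
    nlinarith
  have hpos : (0 : ℝ) < (n : ℝ) ^ (1 / (2 * c : ℝ)) := by
    have h1 : 0 < n := by
      have : 0 < (l₀ + 4) ^ c := by positivity
      omega
    positivity
  have hδ' : 1 / (8 * (l : ℝ) ^ 2) ≤ δ := by
    refine le_trans ?_ hδ
    rw [Real.rpow_neg (by positivity), ← one_div]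
    apply one_div_le_one_div_of_le hpos
    refine hroot.trans ?_
    have h4 : (4 : ℝ) ≤ l := by exact_mod_cast (by omega : 4 ≤ l)
    nlinarith
  obtain ⟨ω, hω⟩ := core (by omega : 2 ≤ l) (le_refl _) (le_of_eq hsq.symm) hNn E
    (by
      intro G
      rw [hE2 G, hsqrt]) D T hδ' (by
        intro ω
        push_cast
        exact hW ω) hD
  refine ⟨ω, ?_⟩
  have h1 : 2 ^ (l - 1) ≤ (D ω).size := by
    have h2 : 2 ^ l = 2 * 2 ^ (l - 1) := by
      rw [← pow_succ']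
      congr 1
      omega
    omega
  calc (2 : ℝ) ^ ((n : ℝ) ^ (1 / (2 * c : ℝ))) ≤ (2 : ℝ) ^ ((l - 1 : ℕ) : ℝ) := by
        apply Real.rpow_le_rpow_of_exponent_le (by norm_num)
        rw [Nat.cast_sub (by omega)]
        push_cast
        exact hroot
    _ = ((2 ^ (l - 1) : ℕ) : ℝ) := by
        rw [Real.rpow_natCast]
        push_cast
        rfl
    _ ≤ (D ω).size := by exact_mod_cast h1

end Pool.Agent.Work.MP_609cce_lc
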