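import Pool.Agent.Work.MP_609cce_lc.FormDefs
import Pool.Agent.Work.MP_609cce_lc.QueryMain
import Pool.Agent.Work.MP_609cce_lc.FewEquiv

/-!
# OR-distillation by formulas with few arbitrary gates
-/

namespace Pool.Agent.Work.MP_609cce_lc

open Finset

section Decompose

variable {ι : Type}

/-- Monotone formulas. -/
inductive MForm (ι : Type) : Type
  | input (i : ι) : MForm ι
  | const (b : Bool) : MForm ι
  | and (F G : MForm ι) : MForm ι
  | or (F G : MForm ι) : MForm ι

/-- The value of a monotone formula. -/
def MForm.eval (x : ι → Bool) : MForm ι → Bool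
  | .input i => x i
  | .const b => b
  | .and F G => F.eval x && G.eval x
  | .or F G => F.eval x || G.eval x

/-- The number of AND and OR gates. -/
def MForm.size : MForm ι → ℕ
  | .input _ => 0
  | .const _ => 0
  | .and F G => F.size + G.size + 1
  | .or F G => F.size + G.size + 1

/-- Total size of a list of monotone formulas. -/
def sizes (L : List (MForm ι)) : ℕ := (L.map MForm.size).sum

theorem sizes_append (L L' : List (MForm ι)) : sizes (L ++ L') = sizes L + sizes L' := by
  simp [sizes]

/-- The function `c` is determined by the values of the formulas in the list `L`. -/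
def DetBy {β : Type} (c : (ι → Bool) → β) (L : List (MForm ι)) : Prop :=
  ∀ x y, (∀ F ∈ L, F.eval x = F.eval y) → c x = c y

/-- The structure of formulas with queries. -/
theorem QForm.decompose (F : QForm ι) : ∃ (A B : MForm ι) (c : (ι → Bool) → Bool)
    (L : List (MForm ι)), DetBy c L ∧ (∀ x, F.eval x = (A.eval x || (B.eval x && c x))) ∧
      A.size + B.size + sizes L ≤ 2 * F.size ∧
      ((F.wires = 0 ∧ L = [] ∧ B = .const false ∧ A.size ≤ F.size) ∨
        L.length + 4 ≤ 6 * F.wires) := by
  classical
  induction F with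
  | input i =>
    refine ⟨.input i, .const false, fun _ => false, [], fun _ _ _ => rfl, fun x => ?_, ?_, ?_⟩
    · simp [QForm.eval, MForm.eval]
    · simp [MForm.size, sizes, QForm.size]
    · left; simp [QForm.wires, MForm.size]
  | const b =>
    refine ⟨.const b, .const false, fun _ => false, [], fun _ _ _ => rfl, fun x => ?_, ?_, ?_⟩
    · simp [QForm.eval, MForm.eval]
    · simp [MForm.size, sizes, QForm.size]
    · left; simp [QForm.wires, MForm.size]
  | and F G ihF ihG =>
    obtain ⟨A1, B1, c1, L1, hc1, hF, hs1, hw1⟩ := ihF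
    obtain ⟨A2, B2, c2, L2, hc2, hG, hs2, hw2⟩ := ihG
    rcases hw1 with ⟨hw1, rfl, rfl, hA1⟩ | hw1
    · refine ⟨.and A1 A2, if L2 = [] ∧ B2 = .const false then .const false else .and A1 B2, c2, L2,
        hc2, fun x => ?_, ?_, ?_⟩
      · simp only [QForm.eval, hF, hG, MForm.eval, Bool.false_and, Bool.or_false]
        split_ifs with h
        · rw [h.2]
          simp [MForm.eval]
        · simp only [MForm.eval]
          cases A1.eval x <;> cases A2.eval x <;> cases B2.eval x <;> rfl
      · split_ifs with h
        · simp only [MForm.size, QForm.size, sizes, List.map_nil, List.sum_nil] at hs1 hs2 ⊢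
          omega
        · simp only [MForm.size, QForm.size, sizes, List.map_nil, List.sum_nil] at hs1 hs2 ⊢
          omega
      · rcases hw2 with ⟨hw2, rfl, rfl, hA2⟩ | hw2
        · left
          refine ⟨by simp [QForm.wires, hw1, hw2], rfl, by simp, ?_⟩
          simp only [MForm.size, QForm.size]
          omega
        · right
          simp only [QForm.wires]
          omega
    · rcases hw2 with ⟨hw2, rfl, rfl, hA2⟩ | hw2
      · refine ⟨.and A1 A2, .and B1 A2, c1, L1, hc1, fun x => ?_, ?_, ?_⟩
        · simp only [QForm.eval, hF, hG, MForm.eval, Bool.false_and, Bool.or_false]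
          cases A1.eval x <;> cases A2.eval x <;> cases B1.eval x <;> cases c1 x <;> rfl
        · simp only [MForm.size, QForm.size, sizes, List.map_nil, List.sum_nil] at hs1 hs2 ⊢
          omega
        · right
          simp only [QForm.wires]
          omega
      · refine ⟨.const false, .const true, fun x => F.eval x && G.eval x,
          (L1 ++ [A1, B1]) ++ (L2 ++ [A2, B2]), ?_, fun x => ?_, ?_, ?_⟩
        · intro x y h
          have h1 : F.eval x = F.eval y := by
            rw [hF, hF, h A1 (by simp), h B1 (by simp), hc1 x y fun K hK => h K (by simp [hK])]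
          have h2 : G.eval x = G.eval y := by
            rw [hG, hG, h A2 (by simp), h B2 (by simp), hc2 x y fun K hK => h K (by simp [hK])]
          simp only [h1, h2]
        · simp [MForm.eval, QForm.eval]
        · simp only [sizes_append]
          simp only [MForm.size, QForm.size, sizes, List.map_cons, List.map_nil, List.sum_nil,
            List.sum_cons] at hs1 hs2 ⊢
          omega
        · right
          simp only [QForm.wires, List.length_append, List.length_cons, List.length_nil]
          omega
  | or F G ihF ihG =>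
    obtain ⟨A1, B1, c1, L1, hc1, hF, hs1, hw1⟩ := ihF
    obtain ⟨A2, B2, c2, L2, hc2, hG, hs2, hw2⟩ := ihG
    rcases hw1 with ⟨hw1, rfl, rfl, hA1⟩ | hw1
    · refine ⟨.or A1 A2, B2, c2, L2, hc2, fun x => ?_, ?_, ?_⟩
      · simp only [QForm.eval, hF, hG, MForm.eval, Bool.false_and, Bool.or_false]
        rw [Bool.or_assoc]
      · simp only [MForm.size, QForm.size, sizes, List.map_nil, List.sum_nil] at hs1 hs2 ⊢
        omega
      · rcases hw2 with ⟨hw2, rfl, rfl, hA2⟩ | hw2
        · left
          refine ⟨by simp [QForm.wires, hw1, hw2], rfl, by simp, ?_⟩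
          simp only [MForm.size, QForm.size]
          omega
        · right
          simp only [QForm.wires]
          omega
    · rcases hw2 with ⟨hw2, rfl, rfl, hA2⟩ | hw2
      · refine ⟨.or A1 A2, B1, c1, L1, hc1, fun x => ?_, ?_, ?_⟩
        · simp only [QForm.eval, hF, hG, MForm.eval, Bool.false_and, Bool.or_false]
          cases A1.eval x <;> cases A2.eval x <;> cases B1.eval x <;> cases c1 x <;> rfl
        · simp only [MForm.size, QForm.size, sizes, List.map_nil, List.sum_nil] at hs1 hs2 ⊢
          omega
        · right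
          simp only [QForm.wires]
          omega
      · refine ⟨.const false, .const true, fun x => F.eval x || G.eval x,
          (L1 ++ [A1, B1]) ++ (L2 ++ [A2, B2]), ?_, fun x => ?_, ?_, ?_⟩
        · intro x y h
          have h1 : F.eval x = F.eval y := by
            rw [hF, hF, h A1 (by simp), h B1 (by simp), hc1 x y fun K hK => h K (by simp [hK])]
          have h2 : G.eval x = G.eval y := by
            rw [hG, hG, h A2 (by simp), h B2 (by simp), hc2 x y fun K hK => h K (by simp [hK])]
          simp only [h1, h2]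
        · simp [MForm.eval, QForm.eval]
        · simp only [sizes_append]
          simp only [MForm.size, QForm.size, sizes, List.map_cons, List.map_nil, List.sum_nil,
            List.sum_cons] at hs1 hs2 ⊢
          omega
        · right
          simp only [QForm.wires, List.length_append, List.length_cons, List.length_nil]
          omega
  | query k Fs f ih =>
    choose A B c L hc hF hs hw using ih
    let L' : List (MForm ι) := (List.ofFn fun i => L i ++ [A i, B i]).flatten
    have hmem : ∀ i, ∀ K, K ∈ L i ++ [A i, B i] → K ∈ L' := by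
      intro i K hK
      exact List.mem_flatten.2 ⟨_, List.mem_ofFn.2 ⟨i, rfl⟩, hK⟩
    rcases Nat.eq_zero_or_pos k with hk | hk
    · subst hk
      refine ⟨.const (f fun i => i.elim0), .const false, fun _ => false, [], fun _ _ _ => rfl,
        fun x => ?_, ?_, ?_⟩
      · simp only [QForm.eval, MForm.eval, Bool.false_and, Bool.or_false]
        congr 1
        funext i
        exact i.elim0
      · simp [MForm.size, sizes, QForm.size]
      · left; simp [QForm.wires, MForm.size]
    · refine ⟨.const false, .const true, fun x => f fun i => (Fs i).eval x, L', ?_, fun x => ?_,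
        ?_, ?_⟩
      · intro x y h
        have h1 : ∀ i, (Fs i).eval x = (Fs i).eval y := by
          intro i
          rw [hF i, hF i, h (A i) (hmem i _ (by simp)), h (B i) (hmem i _ (by simp)),
            hc i x y fun K hK => h K (hmem i K (by simp [hK]))]
        simp only [h1]
      · simp [MForm.eval, QForm.eval]
      · have h1 : sizes L' = ∑ i, sizes (L i ++ [A i, B i]) := by
          simp only [sizes, L', List.map_flatten, List.map_ofFn, List.sum_flatten]
          rw [List.sum_ofFn]
          rfl
        have h2 : ∑ i, sizes (L i ++ [A i, B i]) ≤ ∑ i, 2 * (Fs i).size := by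
          refine sum_le_sum fun i _ => ?_
          have h3 := hs i
          rw [sizes_append]
          simp only [sizes, List.map_cons, List.map_nil, List.sum_cons, List.sum_nil] at h3 ⊢
          omega
        rw [← mul_sum] at h2
        simp only [MForm.size, QForm.size]
        omega
      · right
        have h1 : L'.length = ∑ i, ((L i).length + 2) := by
          simp only [L', List.length_flatten, List.map_ofFn]
          rw [List.sum_ofFn]
          refine sum_congr rfl fun i _ => ?_
          simp
        have h2 : ∑ i, ((L i).length + 2) ≤ ∑ i : Fin k, (6 * (Fs i).wires + 2) := by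
          refine sum_le_sum fun i _ => ?_
          rcases hw i with ⟨h3, h4, -, -⟩ | h3
          · rw [h4]; simp
          · omega
        have h3 : ∑ i : Fin k, (6 * (Fs i).wires + 2) = 6 * ∑ i, (Fs i).wires + 2 * k := by
          rw [sum_add_distrib, ← mul_sum]
          simp [mul_comm]
        simp only [QForm.wires]
        omega

/-- All values of several formulas with queries are determined by few monotone formulas. -/
theorem decompose_all {M : ℕ} (D : Fin M → QForm ι) : ∃ L : List (MForm ι),
    DetBy (fun x j => (D j).eval x) L ∧ sizes L ≤ 2 * ∑ j, (D j).size ∧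
      L.length ≤ M + 6 * ∑ j, (D j).wires := by
  classical
  have hone : ∀ F : QForm ι, ∃ L : List (MForm ι), DetBy (fun x => F.eval x) L ∧
      sizes L ≤ 2 * F.size ∧ L.length ≤ 1 + 6 * F.wires := by
    intro F
    obtain ⟨A, B, c, L, hc, hF, hs, hw⟩ := F.decompose
    rcases hw with ⟨hw, rfl, rfl, -⟩ | hw
    · refine ⟨[A], fun x y h => ?_, ?_, by simp⟩
      · simp only [hF]
        rw [h A (by simp)]
        simp [MForm.eval]
      · simp only [sizes, List.map_cons, List.map_nil, List.sum_cons, List.sum_nil] at hs ⊢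
        omega
    · refine ⟨L ++ [A, B], fun x y h => ?_, ?_, ?_⟩
      · simp only [hF]
        rw [h A (by simp), h B (by simp), hc x y fun K hK => h K (by simp [hK])]
      · rw [sizes_append]
        simp only [sizes, List.map_cons, List.map_nil, List.sum_cons, List.sum_nil] at hs ⊢
        omega
      · simp only [List.length_append, List.length_cons, List.length_nil]
        omega
  choose L hL hs hw using fun j => hone (D j)
  refine ⟨(List.ofFn L).flatten, fun x y h => ?_, ?_, ?_⟩
  · funext j
    refine hL j x y fun K hK => h K ?_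
    exact List.mem_flatten.2 ⟨_, List.mem_ofFn.2 ⟨j, rfl⟩, hK⟩
  · have h1 : sizes (List.ofFn L).flatten = ∑ j, sizes (L j) := by
      simp only [sizes, List.map_flatten, List.map_ofFn, List.sum_flatten]
      rw [List.sum_ofFn]
      rfl
    rw [h1, mul_sum]
    exact sum_le_sum fun j _ => hs j
  · have h1 : (List.ofFn L).flatten.length = ∑ j, (L j).length := by
      simp only [List.length_flatten, List.map_ofFn]
      rw [List.sum_ofFn]
      rfl
    rw [h1]
    calc ∑ j, (L j).length ≤ ∑ j : Fin M, (1 + 6 * (D j).wires) := sum_le_sum fun j _ => hw j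
      _ = M + 6 * ∑ j, (D j).wires := by
        rw [sum_add_distrib, ← mul_sum]
        simp

theorem MForm.compile (F : MForm ι) (G : List (MonoGate ι)) : ∃ H : List (MonoGate ι),
    ops H ≤ F.size ∧ Computes (G ++ H) fun x => F.eval x := by
  induction F generalizing G with
  | input i => exact ⟨[.input i], by simp [ops, MonoGate.isAndOr],
      (computes_snoc G (.input i)).congr fun _ => rfl⟩
  | const b => exact ⟨[.const b], by simp [ops, MonoGate.isAndOr],
      (computes_snoc G (.const b)).congr fun _ => rfl⟩
  | and F F' ih ih' =>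
    obtain ⟨H, hH, hc⟩ := ih G
    obtain ⟨H', hH', hc'⟩ := ih' (G ++ H)
    obtain ⟨H'', hH'', hc''⟩ := (hc.append H').and hc'
    refine ⟨H ++ H' ++ H'', ?_, ?_⟩
    · rw [ops_append, ops_append]
      simp only [MForm.size]
      omega
    · rw [← List.append_assoc, ← List.append_assoc]
      exact hc''
  | or F F' ih ih' =>
    obtain ⟨H, hH, hc⟩ := ih G
    obtain ⟨H', hH', hc'⟩ := ih' (G ++ H)
    obtain ⟨H'', hH'', hc''⟩ := (hc.append H').or hc'
    refine ⟨H ++ H' ++ H'', ?_, ?_⟩
    · rw [ops_append, ops_append]
      simp only [MForm.size]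
      omega
    · rw [← List.append_assoc, ← List.append_assoc]
      exact hc''

theorem compile_all (L : List (MForm ι)) : ∃ G : List (MonoGate ι), ops G ≤ sizes L ∧
    ∀ F ∈ L, Computes G fun x => F.eval x := by
  induction L with
  | nil => exact ⟨[], by simp [ops, sizes], by simp⟩
  | cons F L ih =>
    obtain ⟨G, hG, hc⟩ := ih
    obtain ⟨H, hH, hcH⟩ := F.compile G
    refine ⟨G ++ H, ?_, fun F' hF' => ?_⟩
    · rw [ops_append]
      simp only [sizes, List.map_cons, List.sum_cons] at hG ⊢
      omega
    · rcases List.mem_cons.1 hF' with h | h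
      · rw [h]; exact hcH
      · exact (hc F' h).append H

/-- Formulas with few queries as monotone circuits with more output bits. -/
theorem to_circuit {M M' : ℕ} (D : Fin M → QForm ι) (T : Set (Fin M → Bool))
    (hM : M + 6 * ∑ j, (D j).wires ≤ M') :
    ∃ (C : QCircuit ι M') (T' : Set (Fin M' → Bool)), C.weight = 1 ∧
      C.size ≤ 2 * ∑ j, (D j).size ∧
      ∀ x, C.eval x ∈ T' ↔ (fun j => (D j).eval x) ∈ T := by
  classical
  obtain ⟨L, hL, hs, hw⟩ := decompose_all D
  obtain ⟨G, hG, hc⟩ := compile_all L
  choose! o ho hoL using hc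
  let C : QCircuit ι M' := ⟨G.map MonoGate.toQ, fun j => (L.map o).getD j G.length⟩
  have hC : ∀ x (i : ℕ) (hi : i < L.length), ∃ j : Fin M', C.eval x j = (L[i]).eval x ∧
      ∀ y, C.eval y j = (L[i]).eval y := by
    intro x i hi
    have h1 : ∀ y, C.eval y ⟨i, by omega⟩ = (L[i]).eval y := by
      intro y
      simp only [C, QCircuit.eval, qVals_toQ]
      have h2 : (L.map o).getD i G.length = o L[i] := by
        rw [List.getD_eq_getElem _ _ (by simpa using hi)]
        simp
      rw [h2]
      exact hoL _ (List.getElem_mem hi) y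
    exact ⟨⟨i, by omega⟩, h1 x, h1⟩
  refine ⟨C, {u | ∃ x, u = C.eval x ∧ (fun j => (D j).eval x) ∈ T}, ?_, ?_, fun x => ?_⟩
  · exact weight_toQ G
  · change (G.map MonoGate.toQ).countP QGate.isAndOr ≤ _
    rw [countP_toQ]
    exact hG.trans hs
  · constructor
    · rintro ⟨y, hy, hT⟩
      have h1 := hL x y fun K hK => by
        obtain ⟨i, hi, rfl⟩ := List.mem_iff_getElem.1 hK
        obtain ⟨j, hj1, hj2⟩ := hC x i hi
        rw [← hj1, ← hj2 y, hy]
      simp only at h1
      rw [h1]
      exact hT
    · intro hT
      exact ⟨x, rfl, hT⟩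

end Decompose

/-- **The main theorem on formulas with few arbitrary gates.** -/
theorem few_queries_form {R : Set (List Bool)} (hR : CliqueReducesTo R) :
    ∃ ε > (0 : ℝ), ∃ n₀ : ℕ, ∀ n ≥ n₀, ∀ (m M : ℕ) (Ω : Type) [Fintype Ω] [Nonempty Ω]
      (D : Ω → Fin M → QForm (Fin m × Fin (n + 1))) (T : Ω → Set (Fin M → Bool)) (δ : ℝ),
      (n : ℝ) ^ (-ε) ≤ δ →
      (∀ ω, (M : ℝ) + 6 * (∑ j, (D ω j).wires : ℕ) + 1 ≤ δ * m) →
      (∀ w : Fin m → List Bool, (∀ i, (w i).length ≤ n) → (1 / 2 + δ) * Fintype.card Ω ≤
        ({ω | (fun j => (D ω j).eval (codes n w)) ∈ T ω ↔ ∃ i, w i ∈ R} : Set Ω).ncard) →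
      ∃ ω, (2 : ℝ) ^ ((n : ℝ) ^ ε) ≤ (∑ j, (D ω j).size : ℕ) := by
  obtain ⟨ε, hε, n₀, h⟩ := few_queries hR
  refine ⟨ε / 2, by positivity, max n₀ ⌈(2 : ℝ) ^ (2 / ε)⌉₊, ?_⟩
  intro n hn m M Ω _ _ D T δ hδ hM hD
  have hn0 : n₀ ≤ n := (le_max_left _ _).trans hn
  have hn2 : (2 : ℝ) ^ (2 / ε) ≤ n :=
    (Nat.le_ceil _).trans (by exact_mod_cast (le_max_right _ _).trans hn)
  have hpos : (0 : ℝ) < n := lt_of_lt_of_le (by positivity) hn2
  have hroot : 2 ≤ (n : ℝ) ^ (ε / 2) := by
    calc (2 : ℝ) = ((2 : ℝ) ^ (2 / ε)) ^ (ε / 2) := by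
          rw [← Real.rpow_mul (by norm_num)]
          have : 2 / ε * (ε / 2) = 1 := by field_simp
          rw [this, Real.rpow_one]
      _ ≤ (n : ℝ) ^ (ε / 2) := Real.rpow_le_rpow (by positivity) hn2 (by positivity)
  have hsq : (n : ℝ) ^ ε = (n : ℝ) ^ (ε / 2) * (n : ℝ) ^ (ε / 2) := by
    rw [← Real.rpow_add hpos]
    congr 1
    ring
  have hδpos : 0 < δ := lt_of_lt_of_le (by positivity) hδ
  -- the number of output bits
  have hone : 1 ≤ ⌊δ * m⌋₊ := by
    obtain ⟨ω⟩ := (inferInstance : Nonempty Ω)
    rw [Nat.one_le_floor_iff]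
    have h1 := hM ω
    have h2 : (0 : ℝ) ≤ (M : ℝ) + 6 * (∑ j, (D ω j).wires : ℕ) := by positivity
    linarith
  have hM' : ∀ ω, M + 6 * ∑ j, (D ω j).wires ≤ ⌊δ * m⌋₊ - 1 := by
    intro ω
    have h1 : M + 6 * ∑ j, (D ω j).wires + 1 ≤ ⌊δ * m⌋₊ := by
      apply Nat.le_floor
      have h2 := hM ω
      push_cast at h2 ⊢
      exact h2
    omega
  choose C T' hC1 hC2 hC3 using fun ω => to_circuit (D ω) (T ω) (hM' ω)
  obtain ⟨ω, hω⟩ := h n hn0 m (⌊δ * m⌋₊ - 1) Ω C T' δ (by
      refine le_trans ?_ hδ
      rw [Real.rpow_neg hpos.le, Real.rpow_neg hpos.le]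
      apply inv_anti₀ (by positivity)
      rw [hsq]
      nlinarith) (by
      intro ω
      rw [hC1, Nat.cast_one, mul_one, Nat.cast_sub hone]
      push_cast
      have := Nat.floor_le (by positivity : 0 ≤ δ * m)
      linarith) (by
      intro w hw
      refine (hD w hw).trans (le_of_eq ?_)
      congr 2
      ext ω
      simp only [Set.mem_ofPred_eq]
      rw [hC3])
  refine ⟨ω, ?_⟩
  have h1 : (2 : ℝ) ^ ((n : ℝ) ^ ε) ≤ 2 * (∑ j, (D ω j).size : ℕ) := by
    refine hω.trans ?_
    exact_mod_cast hC2 ω
  have h2 : (2 : ℝ) ^ ((n : ℝ) ^ (ε / 2)) * 2 ≤ (2 : ℝ) ^ ((n : ℝ) ^ ε) := by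
    rw [← Real.rpow_add_one (by norm_num)]
    apply Real.rpow_le_rpow_of_exponent_le (by norm_num)
    rw [hsq]
    nlinarith
  linarith

end Pool.Agent.Work.MP_609cce_lc
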