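import Mathlib

/-!
# Functions of low degree on the Boolean cube
-/

namespace Pool.Agent.Work.MP_609cce_lc

section Poly

variable {ι : Type}

/-- The monomial with center `a` and support `S`. -/
noncomputable def mono (F : Type) [Field F] (a : ι → Bool) (S : Finset ι) : (ι → Bool) → F :=
  open Classical in fun x => if ∀ i ∈ S, x i ≠ a i then 1 else 0

/-- Functions of degree at most `D`. -/
noncomputable def degLE (F : Type) [Field F] (a : ι → Bool) (D : ℕ) :
    Submodule F ((ι → Bool) → F) :=
  Submodule.span F (Set.range fun S : {S : Finset ι // S.card ≤ D} => mono F a S.1)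

variable {F : Type} [Field F]

theorem mono_mem (a : ι → Bool) (S : Finset ι) {D : ℕ} (h : S.card ≤ D) :
    mono F a S ∈ degLE F a D :=
  Submodule.subset_span ⟨⟨S, h⟩, rfl⟩

theorem degLE_le {a : ι → Bool} {D D' : ℕ} (h : D ≤ D') : degLE F a D ≤ degLE F a D' := by
  refine Submodule.span_le.2 ?_
  rintro _ ⟨⟨S, hS⟩, rfl⟩
  exact mono_mem a S (hS.trans h)

theorem mono_empty (a : ι → Bool) : mono F a ∅ = 1 := by
  funext x
  simp [mono]

theorem one_mem_degLE (a : ι → Bool) (D : ℕ) : (1 : (ι → Bool) → F) ∈ degLE F a D := by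
  rw [← mono_empty a]
  exact mono_mem a ∅ (by simp)

theorem mono_mul [DecidableEq ι] (a : ι → Bool) (S T : Finset ι) :
    mono F a S * mono F a T = mono F a (S ∪ T) := by
  funext x
  simp only [mono, Pi.mul_apply]
  by_cases h1 : ∀ i ∈ S, x i ≠ a i
  · by_cases h2 : ∀ i ∈ T, x i ≠ a i
    · rw [if_pos h1, if_pos h2, if_pos]
      · ring
      · intro i hi
        rcases Finset.mem_union.1 hi with hi | hi
        · exact h1 i hi
        · exact h2 i hi
    · rw [if_neg h2, mul_zero, if_neg fun h => h2 fun i hi => h i (Finset.mem_union_right _ hi)]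
  · rw [if_neg h1, zero_mul, if_neg fun h => h1 fun i hi => h i (Finset.mem_union_left _ hi)]

theorem mul_mem_degLE {a : ι → Bool} {D E : ℕ} {f g : (ι → Bool) → F}
    (hf : f ∈ degLE F a D) (hg : g ∈ degLE F a E) : f * g ∈ degLE F a (D + E) := by
  classical
  have h : degLE F a D * degLE F a E ≤ degLE F a (D + E) := by
    rw [degLE, degLE, Submodule.span_mul_span]
    refine Submodule.span_le.2 ?_
    rintro _ ⟨_, ⟨⟨S, hS⟩, rfl⟩, _, ⟨⟨T, hT⟩, rfl⟩, rfl⟩
    beta_reduce
    rw [mono_mul]
    exact mono_mem _ _ ((Finset.card_union_le _ _).trans (Nat.add_le_add hS hT))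
  exact h (Submodule.mul_mem_mul hf hg)

theorem pow_mem_degLE {a : ι → Bool} {D : ℕ} {f : (ι → Bool) → F}
    (hf : f ∈ degLE F a D) (k : ℕ) : f ^ k ∈ degLE F a (k * D) := by
  induction k with
  | zero => rw [pow_zero]; exact one_mem_degLE _ _
  | succ k ih =>
    rw [pow_succ, Nat.succ_mul]
    exact mul_mem_degLE ih hf

theorem prod_mem_degLE {a : ι → Bool} {D : ℕ} {κ : Type} (s : Finset κ)
    {f : κ → (ι → Bool) → F} (hf : ∀ k ∈ s, f k ∈ degLE F a D) :
    (fun x => ∏ k ∈ s, f k x) ∈ degLE F a (s.card * D) := by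
  classical
  induction s using Finset.induction_on with
  | empty =>
    have h1 : (fun x => ∏ k ∈ (∅ : Finset κ), f k x) = (1 : (ι → Bool) → F) := by
      funext x
      simp
    rw [h1]
    exact one_mem_degLE _ _
  | insert k s hk ih =>
    have h1 := mul_mem_degLE (hf k (Finset.mem_insert_self _ _))
      (ih fun j hj => hf j (Finset.mem_insert_of_mem hj))
    have h2 : (fun x => ∏ j ∈ insert k s, f j x) = f k * fun x => ∏ j ∈ s, f j x := by
      funext x
      rw [Finset.prod_insert hk]
      rfl
    rw [h2, Finset.card_insert_of_notMem hk]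
    have h3 : (s.card + 1) * D = D + s.card * D := by ring
    rw [h3]
    exact h1

theorem mono_singleton_mem (a b : ι → Bool) (i : ι) : mono F a {i} ∈ degLE F b 1 := by
  by_cases h : a i = b i
  · have h1 : mono F a {i} = mono F b {i} := by
      funext x
      simp [mono, h]
    rw [h1]
    exact mono_mem _ _ (by simp)
  · have h1 : mono F a {i} = 1 - mono F b {i} := by
      funext x
      simp only [mono, Finset.mem_singleton, forall_eq, Pi.sub_apply, Pi.one_apply]
      have h2 : (x i ≠ a i) ↔ ¬ (x i ≠ b i) := by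
        cases hx : x i <;> cases ha : a i <;> cases hb : b i <;> simp_all
      by_cases h3 : x i ≠ b i
      · rw [if_pos h3, if_neg (by rw [h2]; exact fun h => h h3)]
        ring
      · rw [if_neg h3, if_pos (h2.2 h3)]
        ring
    rw [h1]
    exact Submodule.sub_mem _ (one_mem_degLE _ _) (mono_mem _ _ (by simp))

theorem mono_mem_center [DecidableEq ι] (a b : ι → Bool) (S : Finset ι) :
    mono F a S ∈ degLE F b S.card := by
  induction S using Finset.induction_on with
  | empty => rw [mono_empty]; exact one_mem_degLE _ _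
  | insert i S hi ih =>
    have h1 : mono F a (insert i S) = mono F a {i} * mono F a S := by
      rw [mono_mul]
      rfl
    rw [h1, Finset.card_insert_of_notMem hi, add_comm]
    exact mul_mem_degLE (mono_singleton_mem a b i) ih

theorem degLE_center [DecidableEq ι] (a b : ι → Bool) (D : ℕ) : degLE F a D ≤ degLE F b D := by
  refine Submodule.span_le.2 ?_
  rintro _ ⟨⟨S, hS⟩, rfl⟩
  exact degLE_le hS (mono_mem_center a b S)

variable [DecidableEq ι]

/-- The point that differs from `a` exactly on `T`. -/
def pt (a : ι → Bool) (T : Finset ι) : ι → Bool := fun i => if i ∈ T then !(a i) else a i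

theorem mono_pt (a : ι → Bool) (S T : Finset ι) :
    mono F a S (pt a T) = if S ⊆ T then 1 else 0 := by
  simp only [mono]
  by_cases h : S ⊆ T
  · rw [if_pos h, if_pos]
    intro i hi
    simp [pt, h hi]
  · rw [if_neg h, if_neg]
    intro hcon
    apply h
    intro i hi
    by_contra hiT
    exact hcon i hi (by simp [pt, hiT])

variable [Fintype ι]

/-- The set of coordinates on which `x` and `a` differ. -/
def dif (a x : ι → Bool) : Finset ι := Finset.univ.filter fun i => x i ≠ a i

theorem dif_pt (a : ι → Bool) (T : Finset ι) : dif a (pt a T) = T := by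
  ext i
  by_cases h : i ∈ T
  · simp [dif, pt, h]
  · simp [dif, pt, h]

theorem pt_dif (a x : ι → Bool) : pt a (dif a x) = x := by
  funext i
  simp only [pt, dif, Finset.mem_filter, Finset.mem_univ, true_and]
  by_cases h : x i = a i
  · simp [h]
  · rw [if_pos h]
    cases hx : x i <;> cases ha : a i <;> simp_all

/-- The inclusion matrix. -/
noncomputable def incl (F : Type) [Field F] (ι : Type) [DecidableEq ι] [Fintype ι] (D : ℕ) :
    ({S : Finset ι // S.card ≤ D} → F) →ₗ[F] ({S : Finset ι // S.card ≤ D} → F) where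
  toFun c := fun T => ∑ S, c S * (if S.1 ⊆ T.1 then 1 else 0)
  map_add' c c' := by
    funext T
    simp only [Pi.add_apply, add_mul, Finset.sum_add_distrib]
  map_smul' r c := by
    funext T
    simp only [Pi.smul_apply, smul_eq_mul, RingHom.id_apply, Finset.mul_sum, mul_assoc]

theorem incl_injective (D : ℕ) : Function.Injective (incl F ι D) := by
  rw [← LinearMap.ker_eq_bot, LinearMap.ker_eq_bot']
  intro c hc
  have key : ∀ k, ∀ T : {S : Finset ι // S.card ≤ D}, T.1.card = k → c T = 0 := by
    intro k
    induction k using Nat.strong_induction_on with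
    | _ k ih =>
      intro T hT
      have h1 := congrFun hc T
      simp only [incl, LinearMap.coe_mk, AddHom.coe_mk, Pi.zero_apply] at h1
      rw [Finset.sum_eq_single T] at h1
      · simpa using h1
      · intro S _ hS
        by_cases hST : S.1 ⊆ T.1
        · have h2 : S.1 ⊂ T.1 := Finset.ssubset_iff_subset_ne.2
            ⟨hST, fun h => hS (Subtype.ext h)⟩
          rw [ih S.1.card (by rw [← hT]; exact Finset.card_lt_card h2) S rfl]
          ring
        · rw [if_neg hST]; ring
      · intro h; exact absurd (Finset.mem_univ _) h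
  funext T
  exact key _ T rfl

theorem incl_surjective (D : ℕ) : Function.Surjective (incl F ι D) :=
  LinearMap.injective_iff_surjective.1 (incl_injective D)

/-- A function of degree at most `D` that vanishes on a Hamming ball of radius `D` is zero. -/
theorem eq_zero_of_vanish {a : ι → Bool} {D : ℕ} {g : (ι → Bool) → F} (hg : g ∈ degLE F a D)
    (h : ∀ x, (dif a x).card ≤ D → g x = 0) : g = 0 := by
  obtain ⟨c, hc⟩ := (Submodule.mem_span_range_iff_exists_fun F).1 hg
  have h0 : c = 0 := by
    apply incl_injective (F := F) (ι := ι) D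
    rw [map_zero]
    funext T
    have h1 := h (pt a T.1) (by rw [dif_pt]; exact T.2)
    rw [← hc, Finset.sum_apply] at h1
    rw [Pi.zero_apply, ← h1]
    change ∑ S, c S * (if S.1 ⊆ T.1 then 1 else 0) = _
    refine Finset.sum_congr rfl fun S _ => ?_
    rw [Pi.smul_apply, smul_eq_mul, mono_pt]
  rw [← hc, h0]
  simp

/-- Interpolation on a Hamming ball. -/
theorem exists_interp (a : ι → Bool) (D : ℕ) (u : (ι → Bool) → F) :
    ∃ Q ∈ degLE F a D, ∀ x, (dif a x).card ≤ D → Q x = u x := by
  obtain ⟨c, hc⟩ := incl_surjective (F := F) (ι := ι) D fun T => u (pt a T.1)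
  refine ⟨∑ S, c S • mono F a S.1, ?_, fun x hx => ?_⟩
  · exact Submodule.sum_mem _ fun S _ => Submodule.smul_mem _ _ (mono_mem a S.1 S.2)
  · have h1 := congrFun hc ⟨dif a x, hx⟩
    simp only [incl, LinearMap.coe_mk, AddHom.coe_mk, pt_dif] at h1
    rw [← h1, Finset.sum_apply]
    refine Finset.sum_congr rfl fun S _ => ?_
    rw [Pi.smul_apply, smul_eq_mul]
    congr 1
    have h2 := mono_pt (F := F) a S.1 (dif a x)
    rwa [pt_dif] at h2

/-- If `E` has fewer points than `Y`, and `Y` is contained in a Hamming ball of radius `D`, then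
some function of degree at most `D` vanishes on `E` but not on `Y`. -/
theorem exists_separator (a : ι → Bool) (D : ℕ) (E Y : Finset (ι → Bool))
    (hY : ∀ y ∈ Y, (dif a y).card ≤ D) (hlt : E.card < Y.card) :
    ∃ Q ∈ degLE F a D, (∀ x ∈ E, Q x = 0) ∧ ∃ y ∈ Y, Q y ≠ 0 := by
  classical
  let rY : degLE F a D →ₗ[F] (Y → F) :=
    (LinearMap.funLeft F F (fun y : Y => (y : ι → Bool))).comp (degLE F a D).subtype
  let rE : degLE F a D →ₗ[F] (E → F) :=
    (LinearMap.funLeft F F (fun y : E => (y : ι → Bool))).comp (degLE F a D).subtype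
  have hsurj : Function.Surjective rY := by
    intro u
    obtain ⟨Q, hQ, h⟩ := exists_interp (F := F) a D
      (fun x => if hx : x ∈ Y then u ⟨x, hx⟩ else 0)
    refine ⟨⟨Q, hQ⟩, ?_⟩
    funext y
    change Q y = u y
    rw [h y (hY y y.2)]
    simp
  obtain ⟨σ, hσ⟩ := LinearMap.exists_rightInverse_of_surjective rY (LinearMap.range_eq_top.2 hsurj)
  have hker : LinearMap.ker (rE.comp σ) ≠ ⊥ := by
    apply LinearMap.ker_ne_bot_of_finrank_lt
    simpa using hlt
  obtain ⟨u, hu, hu0⟩ := Submodule.exists_mem_ne_zero_of_ne_bot hker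
  refine ⟨(σ u : (ι → Bool) → F), (σ u).2, fun x hx => ?_, ?_⟩
  · have h1 : rE (σ u) = 0 := by
      rw [LinearMap.mem_ker] at hu
      exact hu
    exact congrFun h1 ⟨x, hx⟩
  · have h1 : rY (σ u) = u := by
      have := LinearMap.congr_fun hσ u
      simpa using this
    obtain ⟨y, hy⟩ := Function.ne_iff.1 hu0
    refine ⟨y, y.2, ?_⟩
    have h2 : (σ u : (ι → Bool) → F) y = rY (σ u) y := rfl
    rw [h2, h1]
    exact hy

/-- The number of sets with at most `D` elements. -/
def ballCard (ι : Type) [DecidableEq ι] [Fintype ι] (D : ℕ) : ℕ :=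
  ((Finset.univ : Finset (Finset ι)).filter fun S => S.card ≤ D).card

theorem card_ball (x : ι → Bool) (D : ℕ) :
    ((Finset.univ : Finset (ι → Bool)).filter fun a => (dif a x).card ≤ D).card =
      ballCard ι D := by
  have hsymm : ∀ a b : ι → Bool, dif a b = dif b a := by
    intro a b
    ext i
    simp [dif, eq_comm]
  refine Finset.card_bij' (fun a _ => dif a x) (fun S _ => pt x S) ?_ ?_ ?_ ?_
  · intro a ha
    simpa using ha
  · intro S hS
    simp only [Finset.mem_filter, Finset.mem_univ, true_and] at hS ⊢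
    rw [hsymm, dif_pt]
    exact hS
  · intro a _
    rw [hsymm, pt_dif]
  · intro S _
    rw [hsymm, dif_pt]

theorem exists_center (X : Finset (ι → Bool)) (D : ℕ) :
    ∃ a : ι → Bool, X.card * ballCard ι D ≤
      2 ^ Fintype.card ι * (X.filter fun x => (dif a x).card ≤ D).card := by
  by_contra hcon
  push Not at hcon
  have h1 : ∑ a : ι → Bool, (2 ^ Fintype.card ι * (X.filter fun x => (dif a x).card ≤ D).card) <
      ∑ _a : ι → Bool, X.card * ballCard ι D :=
    Finset.sum_lt_sum_of_nonempty Finset.univ_nonempty fun a _ => hcon a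
  have h2 : ∑ a : ι → Bool, (X.filter fun x => (dif a x).card ≤ D).card =
      X.card * ballCard ι D := by
    simp only [Finset.card_filter]
    rw [Finset.sum_comm]
    simp only [← Finset.card_filter, card_ball]
    simp
  rw [← Finset.mul_sum, h2, Finset.sum_const, Finset.card_univ, smul_eq_mul] at h1
  simp at h1

end Poly

end Pool.Agent.Work.MP_609cce_lc
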