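import Mathlib

/-!
# Bounded depth circuits with counting gates, and distillations that they compute

Definitions only.
-/

namespace Pool.Agent.Work.MP_609cce_lc

/-- A gate of a circuit whose inputs are indexed by `ι`: an input, a constant, the negation of an
earlier gate, the conjunction or disjunction of any list of earlier gates, or a counting gate on
any list of earlier gates. Earlier gates are referred to by their number in the list of gates. -/
inductive PGate (ι : Type) : Type
  | input (i : ι) : PGate ι
  | const (b : Bool) : PGate ι
  | not (j : ℕ) : PGate ι
  | and (js : List ℕ) : PGate ι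
  | or (js : List ℕ) : PGate ι
  | mod (js : List ℕ) : PGate ι

/-- The value of a gate, given the input bits and the list of the values of all earlier gates (a
reference beyond the end of that list reads as `false`). A counting gate outputs `true` if and only
if the number of its inputs that are `true` is divisible by `p`. -/
def PGate.val {ι : Type} (p : ℕ) (x : ι → Bool) (prev : List Bool) : PGate ι → Bool
  | .input i => x i
  | .const b => b
  | .not j => !(prev.getD j false)
  | .and js => js.all fun j => prev.getD j false
  | .or js => js.any fun j => prev.getD j false
  | .mod js => decide (p ∣ js.countP fun j => prev.getD j false)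

/-- The depth of a gate, given the list of the depths of all earlier gates: inputs and constants
have depth `0`, every other gate is one deeper than the deepest gate that it refers to. -/
def PGate.dep {ι : Type} (prev : List ℕ) : PGate ι → ℕ
  | .input _ => 0
  | .const _ => 0
  | .not j => prev.getD j 0 + 1
  | .and js => (js.map fun j => prev.getD j 0).foldr max 0 + 1
  | .or js => (js.map fun j => prev.getD j 0).foldr max 0 + 1
  | .mod js => (js.map fun j => prev.getD j 0).foldr max 0 + 1

/-- The list of the values of the gates, in order. -/
def pVals {ι : Type} (p : ℕ) (x : ι → Bool) (gates : List (PGate ι)) : List Bool :=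
  gates.foldl (fun prev g => prev ++ [g.val p x prev]) []

/-- The list of the depths of the gates, in order. -/
def pDeps {ι : Type} (gates : List (PGate ι)) : List ℕ :=
  gates.foldl (fun prev g => prev ++ [g.dep prev]) []

/-- A circuit with inputs indexed by `ι` and `M` output bits: a list of gates, and for each output
bit the number of the gate that produces it. -/
structure PCircuit (ι : Type) (M : ℕ) : Type where
  /-- the gates, in order of evaluation -/
  gates : List (PGate ι)
  /-- the numbers of the output gates -/
  out : Fin M → ℕ

/-- The size of a circuit is its number of gates. -/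
def PCircuit.size {ι : Type} {M : ℕ} (C : PCircuit ι M) : ℕ := C.gates.length

/-- The depth of a circuit is the largest depth of a gate. -/
def PCircuit.depth {ι : Type} {M : ℕ} (C : PCircuit ι M) : ℕ := (pDeps C.gates).foldr max 0

/-- The output bits of a circuit on the input `x`, when counting gates count modulo `p`. -/
def PCircuit.eval {ι : Type} {M : ℕ} (p : ℕ) (C : PCircuit ι M) (x : ι → Bool) : Fin M → Bool :=
  fun j => (pVals p x C.gates).getD (C.out j) false

/-- The code of a bit string `w` of length at most `n`, as `n + 1` bits: first `w`, then one
`true`, then only `false`. -/
def code (n : ℕ) (w : List Bool) : Fin (n + 1) → Bool := fun j => (w ++ [true]).getD j false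

/-- The language MAJORITY: more than half of the bits are `true`. -/
def majority : Set (List Bool) := {w | w.length < 2 * w.count true}

/-- `L` reduces to `R` by a many-one reduction `f` that is computed by a (nonuniform) family of
polynomial size constant depth circuits with NOT gates and unbounded fan-in AND, OR and MOD `p`
gates. -/
def ReducesTo (p : ℕ) (L R : Set (List Bool)) : Prop :=
  ∃ (f : List Bool → List Bool) (r s : Polynomial ℕ) (d : ℕ),
    (∀ w, w ∈ L ↔ f w ∈ R) ∧
    ∀ n : ℕ, ∃ C : PCircuit (Fin n) (r.eval n + 1), C.size ≤ s.eval n ∧ C.depth ≤ d ∧
      ∀ x : Fin n → Bool, (f (List.ofFn x)).length ≤ r.eval n ∧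
        C.eval p x = code (r.eval n) (f (List.ofFn x))

/-- The circuit `D` reads (the codes of) `m` bit strings of length at most `n`, and `k` random
bits, and outputs `M` bits. It *distils* the OR of `m` instances of `R`, with target `A`, if
* whenever some string `w i` is in `R`, the output is in `A` for all values of the random bits;
* whenever no string `w i` is in `R`, the output is outside of `A` for at least half of the values
  of the random bits. -/
def Distils (p : ℕ) (R : Set (List Bool)) {m n k M : ℕ}
    (D : PCircuit ((Fin m × Fin (n + 1)) ⊕ Fin k) M) (A : Set (Fin M → Bool)) : Prop :=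
  ∀ w : Fin m → List Bool, (∀ i, (w i).length ≤ n) →
    ((∃ i, w i ∈ R) → ∀ ρ : Fin k → Bool,
      D.eval p (Sum.elim (fun ij => code n (w ij.1) ij.2) ρ) ∈ A) ∧
    ((∀ i, w i ∉ R) → 2 ^ k ≤ 2 * Set.ncard {ρ : Fin k → Bool |
      D.eval p (Sum.elim (fun ij => code n (w ij.1) ij.2) ρ) ∉ A})

/-- `R` has a (randomised, nonuniform) OR-distillation, into arbitrary targets, that is computed by
polynomial size constant depth circuits with NOT gates and unbounded fan-in AND, OR and MOD `p`
gates. The number of output bits is bounded by a polynomial in the length bound `n` alone, and does
not grow with the number `m` of instances. -/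
def HasDistillation (p : ℕ) (R : Set (List Bool)) : Prop :=
  ∃ (q s : Polynomial ℕ) (d : ℕ), ∀ m n : ℕ, 1 ≤ m → ∃ (k M : ℕ)
    (D : PCircuit ((Fin m × Fin (n + 1)) ⊕ Fin k) M) (A : Set (Fin M → Bool)),
    M ≤ q.eval n ∧ D.size ≤ s.eval (m + n) ∧ D.depth ≤ d ∧ Distils p R D A

/-- The first `t` bits that Alice sends on the input `x` if, having sent the bits `a` so far, she
next sends the output bit of the circuit `next a` on the input `x`. (The circuit `next a` may depend
arbitrarily on `a`, and hence on everything that a computationally unbounded partner, who sees
only the bits sent by Alice, has replied so far.) -/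
def transcript {ι : Type} (p : ℕ) (next : List Bool → PCircuit ι 1) (x : ι → Bool) : ℕ → List Bool
  | 0 => []
  | t + 1 => transcript p next x t ++ [(next (transcript p next x t)).eval p x 0]

/-- Alice holds (the codes of) `m` bit strings of length at most `n`, and `k` random bits; she sends
`M` bits as described by `next`, after which the partner accepts if these bits are in `A`. The
protocol *decides* the OR of `m` instances of `R`, with one-sided error, if
* whenever some string `w i` is in `R`, the partner accepts for all values of the random bits;
* whenever no string `w i` is in `R`, the partner rejects for a fraction of at least `2 ^ (-g)` of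
  the values of the random bits. -/
def Decides (p : ℕ) (R : Set (List Bool)) {m n k : ℕ}
    (next : List Bool → PCircuit ((Fin m × Fin (n + 1)) ⊕ Fin k) 1) (M g : ℕ)
    (A : Set (List Bool)) : Prop :=
  ∀ w : Fin m → List Bool, (∀ i, (w i).length ≤ n) →
    ((∃ i, w i ∈ R) → ∀ ρ : Fin k → Bool,
      transcript p next (Sum.elim (fun ij => code n (w ij.1) ij.2) ρ) M ∈ A) ∧
    ((∀ i, w i ∉ R) → 2 ^ k ≤ 2 ^ g * Set.ncard {ρ : Fin k → Bool |
      transcript p next (Sum.elim (fun ij => code n (w ij.1) ij.2) ρ) M ∉ A})

end Pool.Agent.Work.MP_609cce_lc
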