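import Pool.Agent.Work.MP_609cce_lc.RandPoly
import Pool.Agent.Work.MP_609cce_lc.ModDefs

/-!
# Approximating bounded depth circuits with counting gates by low degree polynomials
-/

namespace Pool.Agent.Work.MP_609cce_lc

section Basic

variable {ι : Type} (p : ℕ)

theorem pVals_append_singleton (x : ι → Bool) (gates : List (PGate ι)) (g : PGate ι) :
    pVals p x (gates ++ [g]) = pVals p x gates ++ [g.val p x (pVals p x gates)] := by
  simp [pVals]

theorem pDeps_append_singleton (gates : List (PGate ι)) (g : PGate ι) :
    pDeps (gates ++ [g]) = pDeps gates ++ [g.dep (pDeps gates)] := by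
  simp [pDeps]

@[simp] theorem pVals_nil (x : ι → Bool) : pVals p x [] = [] := rfl

@[simp] theorem pDeps_nil : pDeps ([] : List (PGate ι)) = [] := rfl

@[simp] theorem pVals_length (x : ι → Bool) (gates : List (PGate ι)) :
    (pVals p x gates).length = gates.length := by
  induction gates using List.reverseRecOn with
  | nil => rfl
  | append_singleton gates g ih => rw [pVals_append_singleton]; simp [ih]

@[simp] theorem pDeps_length (gates : List (PGate ι)) :
    (pDeps gates).length = gates.length := by
  induction gates using List.reverseRecOn with
  | nil => rfl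
  | append_singleton gates g ih => rw [pDeps_append_singleton]; simp [ih]

theorem le_foldr_max' {l : List ℕ} {a : ℕ} (h : a ∈ l) : a ≤ l.foldr max 0 := by
  induction l with
  | nil => simp at h
  | cons b l ih =>
    rcases List.mem_cons.1 h with h | h
    · simp [h]
    · simp [ih h]

theorem getD_snoc_ne {α : Type} (l : List α) (a d : α) {j : ℕ} (hj : j ≠ l.length) :
    (l ++ [a]).getD j d = l.getD j d := by
  rcases lt_or_gt_of_ne hj with h | h
  · rw [List.getD_append _ _ _ _ h]
  · rw [List.getD_eq_default _ _ (by simp; omega), List.getD_eq_default _ _ (by omega)]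

theorem getD_snoc_self {α : Type} (l : List α) (a d : α) {j : ℕ} (hj : j = l.length) :
    (l ++ [a]).getD j d = a := by
  rw [hj, List.getD_append_right _ _ _ _ (le_refl _)]
  simp

theorem getD_le_foldr_max (l : List ℕ) (j : ℕ) : l.getD j 0 ≤ l.foldr max 0 := by
  by_cases hj : j < l.length
  · apply le_foldr_max'
    rw [List.getD_eq_getElem _ _ hj]
    exact List.getElem_mem hj
  · rw [List.getD_eq_default _ _ (by omega)]
    exact Nat.zero_le _

end Basic

section Approx

variable {p : ℕ} [hp : Fact p.Prime] {ι κ : Type}

theorem BDeg.count {E : ℕ} {B : ℕ → (ι → Bool) → Bool} (js : List ℕ)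
    (h : ∀ j ∈ js, BDeg p E (B j)) :
    (fun x => ((js.countP fun j => B j x : ℕ) : ZMod p)) ∈
      degLE (ZMod p) (fun _ : ι => false) E := by
  induction js with
  | nil =>
    have h1 : (fun x : ι → Bool => (((([] : List ℕ).countP fun j => B j x : ℕ)) : ZMod p)) = 0 := by
      funext x
      simp
    rw [h1]
    exact Submodule.zero_mem _
  | cons j js ih =>
    have h1 : (fun x : ι → Bool => ((((j :: js).countP fun j => B j x : ℕ)) : ZMod p)) =
        (fun x => ((js.countP fun j => B j x : ℕ) : ZMod p)) + fun x => bf p (B j x) := by
      funext x
      rw [Pi.add_apply, List.countP_cons]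
      cases hx : B j x <;> simp [bf]
    rw [h1]
    exact Submodule.add_mem _ (ih fun k hk => h k (List.mem_cons_of_mem _ hk))
      (h j List.mem_cons_self)

theorem BDeg.mod {E : ℕ} {B : ℕ → (ι → Bool) → Bool} (js : List ℕ)
    (h : ∀ j ∈ js, BDeg p E (B j)) :
    BDeg p ((p - 1) * E) (fun x => decide (p ∣ js.countP fun j => B j x)) := by
  have h1 := (BDeg.test (BDeg.count js h)).xor true
  convert h1 using 2 with x
  rw [Bool.eq_iff_iff]
  simp [ZMod.natCast_eq_zero_iff]

/-- The values of the gates of a circuit are jointly approximated by random low degree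
polynomials. -/
theorem Japprox.circuit {u : κ → (ι → Bool) → Bool} {E s ℓ : ℕ}
    (h : Japprox p u (fun _ => E) s ℓ) (hℓ : 1 ≤ ℓ) (gates : List (PGate κ)) :
    Japprox p (fun (o : κ ⊕ ℕ) x => o.elim (fun k => u k x)
        fun j => (pVals p (fun k => u k x) gates).getD j false)
      (fun o => o.elim (fun _ => E) fun j => E * (ℓ * (p - 1)) ^ ((pDeps gates).getD j 0))
      (s + gates.length) ℓ := by
  have hp2 := hp.out.two_le
  have hbase : 1 ≤ ℓ * (p - 1) := Nat.mul_pos hℓ (by omega)
  induction gates using List.reverseRecOn with
  | nil =>
    have h1 := h.ext_det (fun _ => false) E fun B _ => BDeg.const false E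
    refine h1.reindex _ _ (fun o => o.elim (fun k => some k) fun _ => none) (fun _ => false)
      ?_ ?_ (by simp)
    · rintro (k | j) x <;> simp
    · rintro (k | j) <;> simp
  | append_singleton gates g ih =>
    have hne : ∀ (x : ι → Bool) (j : ℕ), j ≠ gates.length →
        (pVals p (fun k => u k x) (gates ++ [g])).getD j false =
          (pVals p (fun k => u k x) gates).getD j false := by
      intro x j hj
      rw [pVals_append_singleton, getD_snoc_ne _ _ _ (by simpa using hj)]
    have heq : ∀ (x : ι → Bool), (pVals p (fun k => u k x) (gates ++ [g])).getD gates.length false =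
        g.val p (fun k => u k x) (pVals p (fun k => u k x) gates) := by
      intro x
      rw [pVals_append_singleton, getD_snoc_self _ _ _ (by simp)]
    have hdne : ∀ j : ℕ, j ≠ gates.length →
        (pDeps (gates ++ [g])).getD j 0 = (pDeps gates).getD j 0 := by
      intro j hj
      rw [pDeps_append_singleton, getD_snoc_ne _ _ _ (by simpa using hj)]
    have hdeq : (pDeps (gates ++ [g])).getD gates.length 0 = g.dep (pDeps gates) := by
      rw [pDeps_append_singleton, getD_snoc_self _ _ _ (by simp)]
    -- the two ways of using the induction hypothesis
    have direct : ∀ (o₀ : κ ⊕ ℕ) (c₀ : Bool),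
        (∀ x, g.val p (fun k => u k x) (pVals p (fun k => u k x) gates) =
          Bool.xor c₀ (o₀.elim (fun k => u k x)
            fun j => (pVals p (fun k => u k x) gates).getD j false)) →
        (o₀.elim (fun _ => E) fun j => E * (ℓ * (p - 1)) ^ ((pDeps gates).getD j 0)) ≤
          E * (ℓ * (p - 1)) ^ (g.dep (pDeps gates)) →
        Japprox p (fun (o : κ ⊕ ℕ) x => o.elim (fun k => u k x)
            fun j => (pVals p (fun k => u k x) (gates ++ [g])).getD j false)
          (fun o => o.elim (fun _ => E)
            fun j => E * (ℓ * (p - 1)) ^ ((pDeps (gates ++ [g])).getD j 0))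
          (s + (gates ++ [g]).length) ℓ := by
      intro o₀ c₀ h1 h2
      refine ih.reindex _ _
        (fun o => o.elim (fun k => Sum.inl k) fun j => if j = gates.length then o₀ else Sum.inr j)
        (fun o => o.elim (fun _ => false) fun j => if j = gates.length then c₀ else false)
        ?_ ?_ (by simp)
      · rintro (k | j) x
        · simp
        · by_cases hj : j = gates.length
          · subst hj
            simp only [Sum.elim_inr, if_true]
            rw [heq, h1]
          · simp only [Sum.elim_inr, if_neg hj, Bool.false_xor]
            exact hne x j hj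
      · rintro (k | j)
        · simp
        · by_cases hj : j = gates.length
          · subst hj
            simp only [Sum.elim_inr, if_true]
            rw [hdeq]
            exact h2
          · simp only [Sum.elim_inr, if_neg hj]
            rw [hdne j hj]
    have extend : ∀ (w : (ι → Bool) → Bool) (E' s' : ℕ) (c₀ : Bool),
        Japprox p (fun o : Option (κ ⊕ ℕ) => o.elim w
            (fun (o : κ ⊕ ℕ) x => o.elim (fun k => u k x)
              fun j => (pVals p (fun k => u k x) gates).getD j false))
          (fun o => o.elim E' (fun o => o.elim (fun _ => E)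
            fun j => E * (ℓ * (p - 1)) ^ ((pDeps gates).getD j 0))) s' ℓ →
        s' ≤ s + gates.length + 1 →
        (∀ x, g.val p (fun k => u k x) (pVals p (fun k => u k x) gates) = Bool.xor c₀ (w x)) →
        E' ≤ E * (ℓ * (p - 1)) ^ (g.dep (pDeps gates)) →
        Japprox p (fun (o : κ ⊕ ℕ) x => o.elim (fun k => u k x)
            fun j => (pVals p (fun k => u k x) (gates ++ [g])).getD j false)
          (fun o => o.elim (fun _ => E)
            fun j => E * (ℓ * (p - 1)) ^ ((pDeps (gates ++ [g])).getD j 0))
          (s + (gates ++ [g]).length) ℓ := by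
      intro w E' s' c₀ h0 hs' h1 h2
      refine h0.reindex _ _
        (fun o => o.elim (fun k => some (Sum.inl k))
          fun j => if j = gates.length then none else some (Sum.inr j))
        (fun o => o.elim (fun _ => false) fun j => if j = gates.length then c₀ else false)
        ?_ ?_ (by simp only [List.length_append, List.length_singleton]; omega)
      · rintro (k | j) x
        · simp
        · by_cases hj : j = gates.length
          · subst hj
            simp only [Sum.elim_inr, if_true, Option.elim_none]
            rw [heq, h1]
          · simp only [Sum.elim_inr, if_neg hj, Bool.false_xor, Option.elim_some]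
            exact hne x j hj
      · rintro (k | j)
        · simp
        · by_cases hj : j = gates.length
          · subst hj
            simp only [Sum.elim_inr, if_true, Option.elim_none]
            rw [hdeq]
            exact h2
          · simp only [Sum.elim_inr, if_neg hj, Option.elim_some]
            rw [hdne j hj]
    have hdect : ∀ (P : Prop) (i : Decidable P), Bool.xor true (@decide P i) = true ↔ ¬ P := by
      intro P _
      by_cases h : P <;> simp [h]
    have hdecf : ∀ (P : Prop) (i : Decidable P), Bool.xor false (@decide P i) = true ↔ P := by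
      intro P _
      by_cases h : P <;> simp [h]
    -- the degrees of the gates in a list
    have hlist : ∀ (js : List ℕ) (j : ℕ), j ∈ js →
        E * (ℓ * (p - 1)) ^ ((pDeps gates).getD j 0) ≤
          E * (ℓ * (p - 1)) ^ ((js.map fun j => (pDeps gates).getD j 0).foldr max 0) := by
      intro js j hj
      exact Nat.mul_le_mul_left _ (Nat.pow_le_pow_right hbase
        (le_foldr_max' (List.mem_map.2 ⟨j, hj, rfl⟩)))
    cases g with
    | input i =>
      refine direct (Sum.inl i) false (fun x => by simp [PGate.val]) ?_
      simp [PGate.dep]
    | const b =>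
      refine extend (fun _ => b) 0 _ false
        (ih.ext_det (fun _ => b) 0 fun B _ => BDeg.const b 0) (by omega)
        (fun x => by simp [PGate.val]) (Nat.zero_le _)
    | not j =>
      refine direct (Sum.inr j) true (fun x => by simp [PGate.val]) ?_
      simp only [Sum.elim_inr, PGate.dep]
      exact Nat.mul_le_mul_left _ (Nat.pow_le_pow_right hbase (Nat.le_succ _))
    | and js =>
      refine extend _ _ _ true (ih.ext_or (fun i : Fin js.length => Sum.inr (js.get i))
        (fun _ => true) (E * (ℓ * (p - 1)) ^ ((js.map fun j => (pDeps gates).getD j 0).foldr max 0))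
        fun i => hlist js _ (List.get_mem _ _)) (by omega) ?_ ?_
      · intro x
        rw [Bool.eq_iff_iff]
        refine Iff.trans ?_ (hdect _ _).symm
        simp only [PGate.val, List.all_eq_true, Sum.elim_inr]
        constructor
        · rintro h ⟨i, hi⟩
          exact hi (h _ (List.get_mem _ _))
        · intro h j hj
          obtain ⟨i, hi⟩ := List.get_of_mem hj
          rw [← hi]
          by_contra hcon
          exact h ⟨i, hcon⟩
      · simp only [PGate.dep]
        rw [pow_succ]
        apply le_of_eq
        ring
    | or js =>
      refine extend _ _ _ false (ih.ext_or (fun i : Fin js.length => Sum.inr (js.get i))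
        (fun _ => false) (E * (ℓ * (p - 1)) ^ ((js.map fun j => (pDeps gates).getD j 0).foldr max 0))
        fun i => hlist js _ (List.get_mem _ _)) (by omega) ?_ ?_
      · intro x
        rw [Bool.eq_iff_iff]
        refine Iff.trans ?_ (hdecf _ _).symm
        simp only [PGate.val, List.any_eq_true, Sum.elim_inr, ne_eq, Bool.not_eq_false]
        constructor
        · rintro ⟨j, hj, h⟩
          obtain ⟨i, hi⟩ := List.get_of_mem hj
          exact ⟨i, by rw [hi]; exact h⟩
        · rintro ⟨i, h⟩
          exact ⟨_, List.get_mem _ _, h⟩
      · simp only [PGate.dep]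
        rw [pow_succ]
        apply le_of_eq
        ring
    | mod js =>
      refine extend _ _ _ false (ih.ext_det
        (fun y => decide (p ∣ js.countP fun j => y (Sum.inr j)))
        ((p - 1) * (E * (ℓ * (p - 1)) ^ ((js.map fun j => (pDeps gates).getD j 0).foldr max 0)))
        ?_) (by omega) ?_ ?_
      · intro B hB
        exact BDeg.mod js fun j hj => (hB (Sum.inr j)).weaken (hlist js j hj)
      · intro x
        rw [Bool.eq_iff_iff]
        refine Iff.trans ?_ (hdecf _ _).symm
        simp only [PGate.val, Sum.elim_inr, decide_eq_true_eq]
      · simp only [PGate.dep]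
        rw [pow_succ]
        calc (p - 1) * (E * (ℓ * (p - 1)) ^ ((js.map fun j => (pDeps gates).getD j 0).foldr max 0))
            ≤ ℓ * ((p - 1) *
              (E * (ℓ * (p - 1)) ^ ((js.map fun j => (pDeps gates).getD j 0).foldr max 0))) :=
              Nat.le_mul_of_pos_left _ hℓ
          _ = _ := by ring

end Approx

end Pool.Agent.Work.MP_609cce_lc
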