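import Pool.Agent.Work.MP_609cce_lc.ModFinite

/-!
# Distillations computed by bounded depth circuits with counting gates
-/

namespace Pool.Agent.Work.MP_609cce_lc

section Compose

variable {p : ℕ} [hp : Fact p.Prime]

theorem Japprox.compose {N r m n k M ℓ : ℕ} (hℓ : 1 ≤ ℓ) (C : PCircuit (Fin N) (r + 1))
    (D : PCircuit ((Fin m × Fin (n + 1)) ⊕ Fin k) M) (ρ : Fin k → Bool) :
    Japprox p (fun (o : Fin M) (x : Fin m × Fin N → Bool) =>
      D.eval p (Sum.elim (fun ij => if h : ij.2.1 < r + 1 then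
        C.eval p (fun l => x (ij.1, l)) ⟨ij.2.1, h⟩ else false) ρ) o)
      (fun _ => (ℓ * (p - 1)) ^ (C.depth + D.depth)) (m * C.size + D.size) ℓ := by
  have hp2 := hp.out.two_le
  have hbase : 1 ≤ ℓ * (p - 1) := Nat.mul_pos hℓ (by omega)
  have J0 : Japprox p (fun (i : Fin N) (y : Fin N → Bool) => y i) (fun _ => 1) 0 ℓ :=
    Japprox.exact _ _ _ fun i => BDeg.input i
  have J1 := J0.circuit hℓ C.gates
  have J2 : Japprox p (fun (o : Fin (r + 1)) (y : Fin N → Bool) => C.eval p y o)
      (fun _ => (ℓ * (p - 1)) ^ C.depth) C.size ℓ := by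
    refine J1.reindex _ _ (fun o => Sum.inr (C.out o)) (fun _ => false) ?_ ?_ ?_
    · intro o y
      simp [PCircuit.eval]
    · intro o
      simp only [Sum.elim_inr, one_mul]
      exact Nat.pow_le_pow_right hbase (getD_le_foldr_max _ _)
    · simp [PCircuit.size]
  have J3 := J2.copies m (fun i l => ((i, l) : Fin m × Fin N))
  have J4 := J3.ext_det (fun _ => false) 0 fun B _ => BDeg.const false 0
  have J5 : Japprox p (fun (o : (Fin m × Fin (n + 1)) ⊕ Fin k) (x : Fin m × Fin N → Bool) =>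
      (Sum.elim (fun ij => if h : ij.2.1 < r + 1 then
        C.eval p (fun l => x (ij.1, l)) ⟨ij.2.1, h⟩ else false) ρ :
          (Fin m × Fin (n + 1)) ⊕ Fin k → Bool) o)
      (fun _ => (ℓ * (p - 1)) ^ C.depth) (m * C.size) ℓ := by
    refine J4.reindex _ _
      (Sum.elim (fun ij => if h : ij.2.1 < r + 1 then some (ij.1, ⟨ij.2.1, h⟩) else none)
        fun _ => none) (Sum.elim (fun _ => false) ρ) ?_ ?_ (le_refl _)
    · rintro (ij | l) x
      · by_cases h : ij.2.1 < r + 1
        · simp only [Sum.elim_inl, dif_pos h, Option.elim_some, Bool.false_xor]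
        · simp only [Sum.elim_inl, dif_neg h, Option.elim_none, Bool.false_xor]
      · simp only [Sum.elim_inr, Option.elim_none, Bool.xor_false]
    · rintro (ij | l)
      · by_cases h : ij.2.1 < r + 1
        · simp only [Sum.elim_inl, dif_pos h, Option.elim_some]
          exact le_refl _
        · simp only [Sum.elim_inl, dif_neg h, Option.elim_none]
          exact Nat.zero_le _
      · simp only [Sum.elim_inr, Option.elim_none]
        exact Nat.zero_le _
  have J6 := J5.circuit hℓ D.gates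
  refine J6.reindex _ _ (fun o => Sum.inr (D.out o)) (fun _ => false) ?_ ?_ (le_refl _)
  · intro o x
    simp [PCircuit.eval]
  · intro o
    simp only [Sum.elim_inr]
    rw [pow_add]
    exact Nat.mul_le_mul_left _ (Nat.pow_le_pow_right hbase (getD_le_foldr_max _ _))

end Compose

section Arithmetic

theorem poly_le (r : Polynomial ℕ) : ∃ a : ℕ, 1 ≤ a ∧ ∀ x, r.eval x ≤ (x + 2) ^ a := by
  induction r using Polynomial.induction_on' with
  | add f g hf hg =>
    obtain ⟨a, ha, h1⟩ := hf
    obtain ⟨b, hb, h2⟩ := hg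
    refine ⟨a + b + 1, by omega, fun x => ?_⟩
    rw [Polynomial.eval_add, pow_succ]
    have h3 : (x + 2) ^ a ≤ (x + 2) ^ (a + b) := Nat.pow_le_pow_right (by omega) (by omega)
    have h4 : (x + 2) ^ b ≤ (x + 2) ^ (a + b) := Nat.pow_le_pow_right (by omega) (by omega)
    have h5 : (x + 2) ^ (a + b) * 2 ≤ (x + 2) ^ (a + b) * (x + 2) :=
      Nat.mul_le_mul_left _ (by omega)
    have h6 := h1 x
    have h7 := h2 x
    omega
  | monomial n c =>
    refine ⟨c + n + 1, by omega, fun x => ?_⟩
    rw [Polynomial.eval_monomial]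
    calc c * x ^ n ≤ 2 ^ c * (x + 2) ^ n :=
          Nat.mul_le_mul Nat.lt_two_pow_self.le (Nat.pow_le_pow_left (by omega) _)
      _ ≤ (x + 2) ^ c * (x + 2) ^ n :=
          Nat.mul_le_mul_right _ (Nat.pow_le_pow_left (by omega) _)
      _ = (x + 2) ^ (c + n) := by rw [pow_add]
      _ ≤ (x + 2) ^ (c + n + 1) := Nat.pow_le_pow_right (by omega) (by omega)

theorem exists_root (c n : ℕ) (hc : 1 ≤ c) : ∃ h, h ^ c ≤ n ∧ n < (h + 1) ^ c := by
  have hex : ∃ h, n < (h + 1) ^ c := by
    refine ⟨n, ?_⟩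
    calc n < n + 1 := Nat.lt_succ_self _
      _ = (n + 1) ^ 1 := (pow_one _).symm
      _ ≤ (n + 1) ^ c := Nat.pow_le_pow_right (by omega) hc
  refine ⟨Nat.find hex, ?_, Nat.find_spec hex⟩
  by_contra hcon
  push Not at hcon
  have hpos : 0 < Nat.find hex := by
    by_contra h
    have h0 : Nat.find hex = 0 := by omega
    rw [h0, Nat.zero_pow (by omega)] at hcon
    omega
  have h1 := Nat.find_min hex (m := Nat.find hex - 1) (by omega)
  apply h1
  have h2 : Nat.find hex - 1 + 1 = Nat.find hex := by omega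
  rw [h2]
  exact hcon

end Arithmetic

section Main

variable {p : ℕ} [hp : Fact p.Prime]

theorem code_extend {r n : ℕ} (w : List Bool) (hw : w.length ≤ r) (j : Fin (n + 1)) :
    code n w j = if h : j.1 < r + 1 then code r w ⟨j.1, h⟩ else false := by
  by_cases h : j.1 < r + 1
  · rw [dif_pos h]
    rfl
  · rw [dif_neg h, code, List.getD_eq_default]
    simp
    omega

theorem mem_majority {n : ℕ} (x : Fin n → Bool) :
    List.ofFn x ∈ majority ↔ n < 2 * (Finset.univ.filter fun j => x j = true).card := by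
  have h1 : (List.ofFn x).count true = (Finset.univ.filter fun j => x j = true).card := by
    rw [List.count, List.countP_eq_length_filter, Finset.card_filter]
    induction n with
    | zero => simp
    | succ n ih =>
      rw [List.ofFn_succ, List.filter_cons, Fin.sum_univ_succ, ← ih (fun i => x i.succ)]
      cases hx : x 0 <;> simp [add_comm]
  simp [majority, h1]

open Classical in
/-- The number of inputs without a majority. -/
theorem card_light (m k : ℕ) : 2 ^ (m * (2 * k + 1)) ≤ 2 ^ m *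
    ((Finset.univ : Finset (Fin m × Fin (2 * k + 1) → Bool)).filter
      fun x => ∀ i, ones x i ≤ k).card := by
  have h1 : (Fintype.piFinset fun _ : Fin m =>
      (Finset.univ : Finset (Finset (Fin (2 * k + 1)))).filter fun S => S.card ≤ k).card =
      (4 ^ k) ^ m := by
    rw [Fintype.card_piFinset, Finset.prod_const, Finset.card_univ, Fintype.card_fin]
    congr 1
    exact ballCard_half k
  have h2 : (4 ^ k) ^ m ≤ ((Finset.univ : Finset (Fin m × Fin (2 * k + 1) → Bool)).filter
      fun x => ∀ i, ones x i ≤ k).card := by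
    rw [← h1]
    refine Finset.card_le_card_of_injOn (fun S ij => decide (ij.2 ∈ S ij.1)) ?_ ?_
    · intro S hS
      rw [Finset.mem_coe, Fintype.mem_piFinset] at hS
      rw [Finset.mem_coe, Finset.mem_filter]
      refine ⟨Finset.mem_univ _, fun i => ?_⟩
      have h3 := (Finset.mem_filter.1 (hS i)).2
      refine le_trans (le_of_eq ?_) h3
      rw [ones]
      congr 1
      ext j
      simp
    · intro S _ T _ h
      funext i
      ext j
      have h3 := congrFun h (i, j)
      simpa using h3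
  calc 2 ^ (m * (2 * k + 1)) = 2 ^ m * (4 ^ k) ^ m := by
        rw [mul_add, pow_add, mul_one, mul_comm, ← pow_mul, mul_comm m, pow_mul, pow_mul 2 2 k]
        norm_num
        rw [pow_mul]
    _ ≤ _ := Nat.mul_le_mul_left _ h2

omit hp in
@[simp] theorem transcript_length {ι : Type} (next : List Bool → PCircuit ι 1) (x : ι → Bool)
    (t : ℕ) : (transcript p next x t).length = t := by
  induction t with
  | zero => rfl
  | succ t ih => simp [transcript, ih]

theorem ofFn_getD {M : ℕ} (l : List Bool) (hl : l.length = M) :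
    List.ofFn (fun j : Fin M => l.getD j false) = l := by
  apply List.ext_getElem
  · simp [hl]
  · intro i h1 h2
    simp [h2]

omit hp in
theorem transcript_eq_take {ι : Type} (next : List Bool → PCircuit ι 1) (x : ι → Bool) {M : ℕ}
    (z : Fin M → Bool) (t : ℕ) (ht : t ≤ M) :
    transcript p next x t = (List.ofFn z).take t ↔
      ∀ j : Fin M, j.1 < t → (next ((List.ofFn z).take j)).eval p x 0 = z j := by
  induction t with
  | zero => simp [transcript]
  | succ t ih =>
    have h1 : (List.ofFn z).take (t + 1) = (List.ofFn z).take t ++ [z ⟨t, ht⟩] := by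
      rw [List.take_succ_eq_append_getElem (by simpa using ht)]
      simp
    have h2 : transcript p next x (t + 1) = (List.ofFn z).take (t + 1) ↔
        transcript p next x t = (List.ofFn z).take t ∧
          (next (transcript p next x t)).eval p x 0 = z ⟨t, ht⟩ := by
      rw [h1, transcript, List.append_singleton_inj]
    rw [h2]
    constructor
    · rintro ⟨h3, h4⟩ j hj
      rcases Nat.lt_succ_iff_lt_or_eq.1 hj with h5 | h5
      · exact (ih (by omega)).1 h3 j h5
      · have h6 : j = ⟨t, ht⟩ := Fin.ext h5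
        rw [h3] at h4
        rw [h6]
        exact h4
    · intro h3
      have h4 := (ih (by omega)).2 fun j hj => h3 j (by omega)
      refine ⟨h4, ?_⟩
      rw [h4]
      exact h3 ⟨t, ht⟩ (Nat.lt_succ_self t)

omit hp in
theorem transcript_getD_eq {ι : Type} (next : List Bool → PCircuit ι 1) (x : ι → Bool) {M : ℕ}
    (z : Fin M → Bool) :
    (fun j : Fin M => (transcript p next x M).getD j false) = z ↔
      ∀ j : Fin M, (next ((List.ofFn z).take j)).eval p x 0 = z j := by
  have h1 := transcript_eq_take (p := p) next x z M (le_refl _)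
  have h2 : (List.ofFn z).take M = List.ofFn z := List.take_of_length_le (by simp)
  rw [h2] at h1
  constructor
  · intro h j
    refine h1.1 ?_ j j.2
    rw [← h]
    exact (ofFn_getD _ (transcript_length _ _ _)).symm
  · intro h
    have h3 := h1.2 fun j _ => h j
    apply List.ofFn_injective
    rw [ofFn_getD _ (transcript_length _ _ _)]
    exact h3

open Classical in
/-- The main quantitative theorem. -/
theorem quantitative {R : Set (List Bool)} (hR : ReducesTo p majority R) (d : ℕ) :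
    ∃ c n₀ : ℕ, ∀ n ≥ n₀, ∀ (m k M g s : ℕ)
      (next : List Bool → PCircuit ((Fin m × Fin (n + 1)) ⊕ Fin k) 1) (A : Set (List Bool)),
      1 ≤ m → (∀ a, (next a).depth ≤ d ∧ (next a).size ≤ s) → Decides p R next M g A →
      n ≤ Nat.log 2 (m + s) ^ c ∨ m ^ c * n ≤ (M + g) ^ c := by
  obtain ⟨f, r, s₁, d₁, hf, hC⟩ := hR
  obtain ⟨a, ha, hr⟩ := poly_le r
  obtain ⟨a₂, ha₂, hs⟩ := poly_le s₁
  have hp2 := hp.out.two_le
  obtain ⟨w, hw⟩ : ∃ w, w = d₁ + d + 3 := ⟨_, rfl⟩
  obtain ⟨c, hc⟩ : ∃ c, c = a * (2 * w + 1) := ⟨_, rfl⟩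
  obtain ⟨G, hG⟩ : ∃ G, G = (4 + c * a₂) * (p - 1) := ⟨_, rfl⟩
  obtain ⟨H, hH⟩ : ∃ H, H = 6 * G ^ (d₁ + d + 1) + 17 := ⟨_, rfl⟩
  have hcpos : 1 ≤ c := by
    rw [hc]
    exact Nat.mul_pos ha (by omega)
  refine ⟨c, H ^ c, fun n hn m k M g s next A hm hnext hD => ?_⟩
  by_contra hcon
  push Not at hcon
  obtain ⟨hcon1, hcon2⟩ := hcon
  obtain ⟨h, hh1, hh2⟩ := exists_root c n hcpos
  have hhH : H ≤ h := by
    have h1 : H ^ c < (h + 1) ^ c := lt_of_le_of_lt hn hh2
    have h2 := lt_of_pow_lt_pow_left₀ c (Nat.zero_le _) h1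
    omega
  have hh17 : 17 ≤ h := by omega
  -- consequences of the negation of the conclusion
  have hΛ : Nat.log 2 (m + s) ≤ h := by
    have h1 := lt_of_pow_lt_pow_left₀ c (Nat.zero_le _) (hcon1.trans hh2)
    omega
  have hM : M + g < m * (h + 1) := by
    have h1 : (M + g) ^ c < (m * (h + 1)) ^ c := by
      rw [mul_pow]
      exact hcon2.trans (Nat.mul_lt_mul_of_pos_left hh2 (Nat.pow_pos hm))
    exact lt_of_pow_lt_pow_left₀ c (Nat.zero_le _) h1
  -- the parameters
  obtain ⟨t, ht⟩ : ∃ t, t = h ^ w := ⟨_, rfl⟩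
  have htpos : 1 ≤ t := by
    rw [ht]
    exact Nat.pow_pos (by omega)
  obtain ⟨K, hK⟩ : ∃ K, K = 8 * t ^ 2 - 1 := ⟨_, rfl⟩
  have hK1 : 2 * K + 3 = 16 * t ^ 2 + 1 := by
    have : 1 ≤ t ^ 2 := Nat.pow_pos htpos
    omega
  have hK2 : 2 * K + 3 ≤ h ^ (2 * w + 1) := by
    have h1 : h ^ (2 * w + 1) = t ^ 2 * h := by
      rw [ht, ← pow_mul, pow_succ, mul_comm w 2]
    rw [hK1, h1]
    have : 1 ≤ t ^ 2 := Nat.pow_pos htpos
    nlinarith
  have hKn : (2 * K + 3) ^ a ≤ n := by
    calc (2 * K + 3) ^ a ≤ (h ^ (2 * w + 1)) ^ a := Nat.pow_le_pow_left hK2 _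
      _ = h ^ c := by rw [← pow_mul, hc, mul_comm]
      _ ≤ n := hh1
  have hr'n : r.eval (2 * K + 1) ≤ n := (hr _).trans hKn
  have hC' := hC (2 * K + 1)
  generalize r.eval (2 * K + 1) = r' at hC' hr'n
  obtain ⟨C, hC1, hC2, hC3⟩ := hC'
  obtain ⟨ℓ, hℓ⟩ : ∃ ℓ, ℓ = h * (4 + c * a₂) := ⟨_, rfl⟩
  have hℓ1 : 1 ≤ ℓ := by
    rw [hℓ]
    exact Nat.mul_pos (by omega) (by omega)
  -- the instances
  set U : (Fin m × Fin (2 * K + 1) → Bool) → (Fin k → Bool) →
      ((Fin m × Fin (n + 1)) ⊕ Fin k → Bool) := fun x ρ =>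
    Sum.elim (fun ij : Fin m × Fin (n + 1) => if h : ij.2.1 < r' + 1 then
        C.eval p (fun l => x (ij.1, l)) ⟨ij.2.1, h⟩ else false) ρ with hU
  have hinst : ∀ (x : Fin m × Fin (2 * K + 1) → Bool) (ρ : Fin k → Bool), U x ρ =
      Sum.elim (fun ij => code n (f (List.ofFn fun l => x (ij.1, l))) ij.2) ρ := by
    intro x ρ
    rw [hU]
    beta_reduce
    congr 1
    funext ij
    obtain ⟨h1, h2⟩ := hC3 fun l => x (ij.1, l)
    rw [code_extend _ h1, h2]
  have hmaj : ∀ (x : Fin m × Fin (2 * K + 1) → Bool) (i : Fin m),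
      f (List.ofFn fun l => x (i, l)) ∈ R ↔ K < ones x i := by
    intro x i
    rw [← hf, mem_majority, ones]
    omega
  have hlen : ∀ (x : Fin m × Fin (2 * K + 1) → Bool) (i : Fin m),
      (f (List.ofFn fun l => x (i, l))).length ≤ n := by
    intro x i
    exact (hC3 fun l => x (i, l)).1.trans hr'n
  have hyes : ∀ ρ x, (∃ i, K < ones x i) → transcript p next (U x ρ) M ∈ A := by
    rintro ρ x ⟨i, hi⟩
    rw [hinst]
    exact (hD (fun i => f (List.ofFn fun l => x (i, l))) (hlen x)).1 ⟨i, (hmaj x i).2 hi⟩ ρ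
  have hno : ∀ x, (∀ i, ones x i ≤ K) → 2 ^ k ≤ 2 ^ g *
      ((Finset.univ : Finset (Fin k → Bool)).filter
        fun ρ => transcript p next (U x ρ) M ∉ A).card := by
    intro x hx
    have h1 := (hD (fun i => f (List.ofFn fun l => x (i, l))) (hlen x)).2
      fun i hi => absurd ((hmaj x i).1 hi) (by have := hx i; omega)
    have h2 : {ρ : Fin k → Bool | transcript p next (Sum.elim (fun ij => code n
        (f (List.ofFn fun l => x (ij.1, l))) ij.2) ρ) M ∉ A} =
        ((Finset.univ : Finset (Fin k → Bool)).filter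
          fun ρ => transcript p next (U x ρ) M ∉ A) := by
      ext ρ
      simp only [Set.mem_ofPred_eq, Finset.coe_filter, Finset.mem_univ, true_and]
      rw [← hinst]
    rw [h2, Set.ncard_coe_finset] at h1
    exact h1
  -- fix the random bits
  set X := (Finset.univ : Finset (Fin m × Fin (2 * K + 1) → Bool)).filter
      fun x => ∀ i, ones x i ≤ K with hX
  obtain ⟨ρ, hρ⟩ : ∃ ρ : Fin k → Bool, X.card ≤ 2 ^ g *
      ((Finset.univ : Finset (Fin m × Fin (2 * K + 1) → Bool)).filter
        fun x => transcript p next (U x ρ) M ∉ A).card := by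
    by_contra hcon
    push Not at hcon
    have h1 : ∑ ρ : Fin k → Bool, 2 ^ g *
        ((Finset.univ : Finset (Fin m × Fin (2 * K + 1) → Bool)).filter
        fun x => transcript p next (U x ρ) M ∉ A).card < ∑ _ρ : Fin k → Bool, X.card :=
      Finset.sum_lt_sum_of_nonempty Finset.univ_nonempty fun ρ _ => hcon ρ
    have h2 : ∑ x ∈ X, 2 ^ k ≤ ∑ x ∈ X, 2 ^ g * ((Finset.univ : Finset (Fin k → Bool)).filter
        fun ρ => transcript p next (U x ρ) M ∉ A).card :=
      Finset.sum_le_sum fun x hx => hno x (by simpa [hX] using hx)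
    have h3 : ∑ x ∈ X, 2 ^ g * ((Finset.univ : Finset (Fin k → Bool)).filter
        fun ρ => transcript p next (U x ρ) M ∉ A).card ≤
        ∑ x, 2 ^ g * ((Finset.univ : Finset (Fin k → Bool)).filter
        fun ρ => transcript p next (U x ρ) M ∉ A).card :=
      Finset.sum_le_sum_of_subset (Finset.subset_univ _)
    have h4 : ∑ x, 2 ^ g * ((Finset.univ : Finset (Fin k → Bool)).filter
        fun ρ => transcript p next (U x ρ) M ∉ A).card =
        ∑ ρ : Fin k → Bool, 2 ^ g *
          ((Finset.univ : Finset (Fin m × Fin (2 * K + 1) → Bool)).filter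
        fun x => transcript p next (U x ρ) M ∉ A).card := by
      rw [← Finset.mul_sum, ← Finset.mul_sum]
      congr 1
      simp only [Finset.card_filter]
      exact Finset.sum_comm
    rw [Finset.sum_const, smul_eq_mul, mul_comm X.card] at h2
    rw [Finset.sum_const, smul_eq_mul, Finset.card_univ, Fintype.card_fun, Fintype.card_bool,
      Fintype.card_fin] at h1
    omega
  -- apply the finite theorem
  have hJ1 : ∀ a, Japprox p (fun (o : Fin 1) (x : Fin m × Fin (2 * K + 1) → Bool) =>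
      (next a).eval p (U x ρ) o) (fun _ => (ℓ * (p - 1)) ^ (d₁ + d)) (m * C.size + s) ℓ := by
    intro a
    refine (Japprox.compose hℓ1 C (next a) ρ).reindex _ _ id (fun _ => false) ?_ ?_
      (Nat.add_le_add_left (hnext a).2 _)
    · intro o x
      simp [hU]
    · intro o
      exact Nat.pow_le_pow_right (Nat.mul_pos hℓ1 (by omega)) (Nat.add_le_add hC2 (hnext a).1)
  have hJ : ∀ z : Fin M → Bool, Japprox p
      (fun (j : Fin M) (x : Fin m × Fin (2 * K + 1) → Bool) =>
        (next ((List.ofFn z).take j)).eval p (U x ρ) 0)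
      (fun _ => (ℓ * (p - 1)) ^ (d₁ + d)) (M * (m * C.size + s)) ℓ := by
    intro z
    refine (Japprox.pi fun j : Fin M => hJ1 ((List.ofFn z).take j)).reindex _ _
      (fun j => (j, 0)) (fun _ => false) ?_ ?_ (le_refl _)
    · intro o x
      simp
    · intro o
      exact le_refl _
  refine no_compress (b := m + g) (r := t)
    (fun x => fun j : Fin M => (transcript p next (U x ρ) M).getD j false) _ hJ ?_ ?_
    {z | List.ofFn z ∈ A} ?_ ?_ hm ?_ (by omega)
  · intro z x
    rw [transcript_getD_eq]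
  · -- the error
    have h1 : m + s < 2 ^ (h + 1) := by
      have h2 := Nat.lt_pow_succ_log_self (b := 2) (by norm_num) (m + s)
      exact h2.trans_le (Nat.pow_le_pow_right (by norm_num) (by omega))
    have h2 : C.size ≤ 2 ^ (h * c * a₂) := by
      have h3 : 2 * K + 3 ≤ n := by
        refine le_trans ?_ hKn
        exact Nat.le_self_pow (by omega) _
      calc C.size ≤ (2 * K + 1 + 2) ^ a₂ := hC1.trans (hs _)
        _ ≤ n ^ a₂ := Nat.pow_le_pow_left (by omega) _
        _ ≤ ((h + 1) ^ c) ^ a₂ := Nat.pow_le_pow_left hh2.le _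
        _ ≤ ((2 ^ h) ^ c) ^ a₂ := Nat.pow_le_pow_left (Nat.pow_le_pow_left Nat.lt_two_pow_self _) _
        _ = 2 ^ (h * c * a₂) := by rw [← pow_mul, ← pow_mul, mul_assoc]
    have h3 : m * C.size + s + 1 ≤ 2 ^ (h + 1) * 2 ^ (h * c * a₂) := by
      calc m * C.size + s + 1 ≤ m * 2 ^ (h * c * a₂) + (s + 1) * 2 ^ (h * c * a₂) := by
            have h4 := Nat.mul_le_mul_left m h2
            have h5 : (s + 1) * 1 ≤ (s + 1) * 2 ^ (h * c * a₂) :=
              Nat.mul_le_mul_left _ Nat.one_le_two_pow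
            omega
        _ = (m + s + 1) * 2 ^ (h * c * a₂) := by ring
        _ ≤ _ := Nat.mul_le_mul_right _ h1
    have h4 : M * (m * C.size + s) + 1 ≤ 2 ^ (h + 1) * 2 ^ h * (2 ^ (h + 1) * 2 ^ (h * c * a₂)) := by
      have h5 : M + 1 ≤ 2 ^ (h + 1) * 2 ^ h := by
        calc M + 1 ≤ m * (h + 1) := by omega
          _ ≤ 2 ^ (h + 1) * 2 ^ h := Nat.mul_le_mul (by omega) Nat.lt_two_pow_self
      calc M * (m * C.size + s) + 1 ≤ (M + 1) * (m * C.size + s + 1) := by nlinarith
        _ ≤ _ := Nat.mul_le_mul h5 h3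
    calc 4 * (M * (m * C.size + s) + 1)
        ≤ 4 * (2 ^ (h + 1) * 2 ^ h * (2 ^ (h + 1) * 2 ^ (h * c * a₂))) := Nat.mul_le_mul_left _ h4
      _ = 2 ^ (2 + (h + 1) + h + (h + 1) + h * c * a₂) := by
          rw [pow_add 2 (2 + (h + 1) + h + (h + 1)) (h * c * a₂),
            pow_add 2 (2 + (h + 1) + h) (h + 1), pow_add 2 (2 + (h + 1)) h, pow_add 2 2 (h + 1)]
          norm_num
          ring
      _ ≤ 2 ^ ℓ := by
          refine Nat.pow_le_pow_right (by norm_num) ?_
          have h5 : h * (4 + c * a₂) = 4 * h + h * c * a₂ := by ring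
          rw [hℓ, h5]
          omega
  · intro x hx
    rw [Set.mem_ofPred_eq, ofFn_getD _ (transcript_length _ _ _)]
    exact hyes ρ x hx
  · -- the count
    refine (card_light m K).trans ?_
    rw [pow_add, mul_assoc]
    refine Nat.mul_le_mul_left _ (hρ.trans (le_of_eq ?_))
    congr 3
    ext x
    simp only [Set.mem_ofPred_eq, ofFn_getD _ (transcript_length _ _ _)]
  · -- the degree
    have h1 : ℓ * (p - 1) = h * G := by
      rw [hℓ, hG]
      ring
    have h2 : ℓ * ((p - 1) * (ℓ * (p - 1)) ^ (d₁ + d)) = (h * G) ^ (d₁ + d + 1) := by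
      rw [← mul_assoc, h1, pow_succ']
    rw [h2]
    calc (2 * m + (m + g) + M) * (h * G) ^ (d₁ + d + 1)
        ≤ (6 * m * h) * (h * G) ^ (d₁ + d + 1) := by
          refine Nat.mul_le_mul_right _ ?_
          nlinarith
      _ = m * (h ^ (d₁ + d + 2) * (6 * G ^ (d₁ + d + 1))) := by
          rw [mul_pow, pow_succ h (d₁ + d + 1)]
          ring
      _ ≤ m * (h ^ (d₁ + d + 2) * h) := by
          refine Nat.mul_le_mul_left _ (Nat.mul_le_mul_left _ ?_)
          omega
      _ = m * t := by
          rw [ht, hw, ← pow_succ]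
      _ < m * (t + 1) := Nat.mul_lt_mul_of_pos_left (Nat.lt_succ_self _) hm

theorem exists_large (e c n₀ : ℕ) : ∃ y : ℕ, n₀ + 2 ≤ y ∧ (y * e) ^ c + 2 < 2 ^ y := by
  have h1 := (tendsto_pow_const_div_const_pow_of_one_lt c (r := (2 : ℝ)) (by norm_num)).const_mul
    ((e : ℝ) ^ c)
  rw [mul_zero] at h1
  have h2 := h1.eventually (gt_mem_nhds (show (0 : ℝ) < 1 / 2 by norm_num))
  obtain ⟨Y, hY⟩ := Filter.eventually_atTop.1 h2
  refine ⟨max Y (n₀ + 3), by have := le_max_right Y (n₀ + 3); omega, ?_⟩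
  set y := max Y (n₀ + 3) with hy
  have h3 := hY y (le_max_left _ _)
  have h4 : (0 : ℝ) < 2 ^ y := by positivity
  have h5 : ((e : ℝ) ^ c) * (y : ℝ) ^ c < 2 ^ y / 2 := by
    rw [← mul_div_assoc, div_lt_iff₀ h4] at h3
    linarith
  have h6 : (2 * (y * e) ^ c : ℕ) < 2 ^ y := by
    have h7 : (2 * ((y : ℝ) * e) ^ c) < 2 ^ y := by
      rw [mul_pow]
      linarith
    exact_mod_cast h7
  have h7 : 2 ^ 3 ≤ 2 ^ y := Nat.pow_le_pow_right (by norm_num)
    (by have := le_max_right Y (n₀ + 3); omega)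
  omega

theorem decides_of_distils {R : Set (List Bool)} {m n k M : ℕ}
    {D : PCircuit ((Fin m × Fin (n + 1)) ⊕ Fin k) M} {A : Set (Fin M → Bool)}
    (h : Distils p R D A) :
    Decides p R (fun a => ⟨D.gates, fun _ => if h : a.length < M then D.out ⟨a.length, h⟩ else 0⟩)
      M 1 {l | (fun j : Fin M => l.getD j false) ∈ A} := by
  set next : List Bool → PCircuit ((Fin m × Fin (n + 1)) ⊕ Fin k) 1 :=
    fun a => ⟨D.gates, fun _ => if h : a.length < M then D.out ⟨a.length, h⟩ else 0⟩ with hnext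
  have key : ∀ x : (Fin m × Fin (n + 1)) ⊕ Fin k → Bool,
      (fun j : Fin M => (transcript p next x M).getD j false) = D.eval p x := by
    intro x
    have h1 : ∀ t, transcript p next x t = (List.range t).map fun i =>
        (pVals p x D.gates).getD (if h : i < M then D.out ⟨i, h⟩ else 0) false := by
      intro t
      induction t with
      | zero => rfl
      | succ t ih =>
        rw [List.range_succ, List.map_append, ← ih]
        simp only [transcript, List.map_cons, List.map_nil]
        congr 2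
        simp only [hnext, PCircuit.eval, transcript_length]
    funext j
    rw [h1, List.getD_eq_getElem _ _ (by simp)]
    simp [PCircuit.eval]
  intro w hw
  obtain ⟨h1, h2⟩ := h w hw
  constructor
  · intro hi ρ
    rw [Set.mem_ofPred_eq, key]
    exact h1 hi ρ
  · intro hi
    rw [pow_one]
    refine (h2 hi).trans (le_of_eq ?_)
    congr 2
    ext ρ
    simp only [Set.mem_ofPred_eq, key]

/-- The main theorem. -/
theorem not_hasDistillation {R : Set (List Bool)} (hR : ReducesTo p majority R) :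
    ¬ HasDistillation p R := by
  rintro ⟨q, s, d, h⟩
  obtain ⟨c, n₀, hq⟩ := quantitative hR d
  obtain ⟨e, he, hT⟩ := poly_le (q + 1 + s.comp (q + 1 + Polynomial.X))
  obtain ⟨y, hy1, hy2⟩ := exists_large e c n₀
  have hy3 : y < 2 ^ y := Nat.lt_two_pow_self
  obtain ⟨n, hn⟩ : ∃ n, n = 2 ^ y - 2 := ⟨_, rfl⟩
  obtain ⟨k, M, D, A, hM, hs, hd, hD⟩ := h (q.eval n + 1) n (by omega)
  have hn0 : n ≥ n₀ := by omega
  rcases hq n hn0 _ _ _ _ D.size _ _ (by omega) (fun _ => ⟨hd, le_refl _⟩)
    (decides_of_distils hD) with h1 | h1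
  · have h2 : q.eval n + 1 + D.size ≤ 2 ^ (y * e) := by
      have h3 := hT n
      simp only [Polynomial.eval_add, Polynomial.eval_comp, Polynomial.eval_one,
        Polynomial.eval_X] at h3
      have h4 : n + 2 = 2 ^ y := by omega
      rw [h4, ← pow_mul] at h3
      omega
    have h3 : Nat.log 2 (q.eval n + 1 + D.size) ≤ y * e := by
      have h4 := Nat.log_mono_right (b := 2) h2
      rwa [Nat.log_pow (by norm_num)] at h4
    have h4 := h1.trans (Nat.pow_le_pow_left h3 c)
    omega
  · have h2 : (M + 1) ^ c ≤ (q.eval n + 1) ^ c := Nat.pow_le_pow_left (by omega) _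
    have h3 : (q.eval n + 1) ^ c * n ≤ (q.eval n + 1) ^ c * 1 := by
      rw [mul_one]
      exact h1.trans h2
    have h4 := Nat.le_of_mul_le_mul_left h3 (Nat.pow_pos (by omega))
    have h5 : 2 ^ 2 ≤ 2 ^ y := Nat.pow_le_pow_right (by norm_num) (by omega)
    have h6 : 2 ^ 3 ≤ 2 ^ y ∨ y = 2 := by
      rcases Nat.lt_or_ge 2 y with h7 | h7
      · exact Or.inl (Nat.pow_le_pow_right (by norm_num) h7)
      · exact Or.inr (by omega)
    omega

end Main

end Pool.Agent.Work.MP_609cce_lc
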