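import Pool.Agent.Work.MP_609cce_lc.ModKey
import Pool.Agent.Work.MP_609cce_lc.ModCircuit

/-!
# The OR of many majorities cannot be compressed
-/

namespace Pool.Agent.Work.MP_609cce_lc

section Finite

variable {p : ℕ} [hp : Fact p.Prime]

/-- The number of ones in a block. -/
def ones {m n : ℕ} (x : Fin m × Fin n → Bool) (i : Fin m) : ℕ :=
  (Finset.univ.filter fun j : Fin n => x (i, j) = true).card

open Classical in
/-- The OR of `m` majorities of `2 * k + 1` bits cannot be compressed: `tr x` is the compressed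
form of the input `x`, and every fibre of `tr` is defined by a family of functions that are jointly
approximated by low degree polynomials. -/
theorem no_compress {m k r M s ℓ E b : ℕ} (tr : (Fin m × Fin (2 * k + 1) → Bool) → Fin M → Bool)
    (out : (Fin M → Bool) → Fin M → (Fin m × Fin (2 * k + 1) → Bool) → Bool)
    (hout : ∀ z, Japprox p (out z) (fun _ => E) s ℓ)
    (htr : ∀ z x, tr x = z ↔ ∀ o, out z o x = z o) (hs : 4 * (s + 1) ≤ 2 ^ ℓ)
    (A : Set (Fin M → Bool)) (hA : ∀ x, (∃ i, k < ones x i) → tr x ∈ A)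
    (hcount : 2 ^ (m * (2 * k + 1)) ≤ 2 ^ b *
      ((Finset.univ : Finset (Fin m × Fin (2 * k + 1) → Bool)).filter fun x => tr x ∉ A).card)
    (hm : 1 ≤ m) (hL : (2 * m + b + M) * (ℓ * ((p - 1) * E)) < m * (r + 1))
    (hr : 16 * r ^ 2 ≤ 2 * k + 3) : False := by
  set S := (Finset.univ : Finset (Fin m × Fin (2 * k + 1) → Bool)).filter
        fun x => tr x ∉ A with hS
  have hSpos : 0 < S.card := by
    by_contra h
    have h0 : S.card = 0 := by omega
    rw [h0, mul_zero] at hcount
    have : 0 < 2 ^ (m * (2 * k + 1)) := by positivity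
    omega
  -- the pigeonhole principle
  obtain ⟨z, hz⟩ : ∃ z : Fin M → Bool, S.card ≤ 2 ^ M * (S.filter fun x => tr x = z).card := by
    by_contra hcon
    push Not at hcon
    have h1 : ∑ z : Fin M → Bool, 2 ^ M * (S.filter fun x => tr x = z).card <
        ∑ _z : Fin M → Bool, S.card :=
      Finset.sum_lt_sum_of_nonempty Finset.univ_nonempty fun z _ => hcon z
    rw [← Finset.mul_sum, ← Finset.card_eq_sum_card_fiberwise (fun x _ => by simp),
      Finset.sum_const, Finset.card_univ, Fintype.card_fun, Fintype.card_bool, Fintype.card_fin,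
      smul_eq_mul] at h1
    exact lt_irrefl _ h1
  have hzA : z ∉ A := by
    intro hzA
    have h1 : (S.filter fun x => tr x = z) = ∅ := by
      rw [Finset.filter_eq_empty_iff]
      intro x hx hxz
      rw [hS, Finset.mem_filter] at hx
      exact hx.2 (hxz ▸ hzA)
    rw [h1, Finset.card_empty, mul_zero] at hz
    omega
  -- the test
  let T : (Fin m × Fin (2 * k + 1) → Bool) → Bool :=
    fun x => Bool.xor true (decide (∃ o, out z o x ≠ z o))
  have hT : ∀ x, T x = true ↔ tr x = z := by
    intro x
    have h1 : T x = true ↔ ¬ ∃ o, out z o x ≠ z o := by simp [T]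
    rw [h1, htr]
    push Not
    exact Iff.rfl
  have hJ : Japprox p (fun _ : Unit => T) (fun _ => ℓ * ((p - 1) * E)) (s + 1) ℓ := by
    refine ((hout z).ext_or (fun o : Fin M => o) z E fun _ => le_refl _).reindex _ _
      (fun _ => none) (fun _ => true) ?_ ?_ (le_refl _)
    · intro _ x
      simp only [T, Option.elim_none]
      congr
    · intro _
      simp
  obtain ⟨Ω, _, _, B, hB1, hB2⟩ := hJ
  set L := ℓ * ((p - 1) * E) with hLdef
  have herr : ∀ x, 4 * ((Finset.univ : Finset Ω).filter fun ω => B ω () x ≠ T x).card ≤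
      Fintype.card Ω := by
    intro x
    have h1 : ((Finset.univ : Finset Ω).filter fun ω => B ω () x ≠ T x) =
        ((Finset.univ : Finset Ω).filter fun ω => ∃ k, B ω k x ≠ T x) := by
      refine Finset.filter_congr fun ω _ => ?_
      exact ⟨fun h => ⟨(), h⟩, fun ⟨_, h⟩ => h⟩
    have h2 : 2 ^ ℓ * ((Finset.univ : Finset Ω).filter fun ω => ∃ k, B ω k x ≠ T x).card ≤
        (s + 1) * Fintype.card Ω := by convert hB2 x
    rw [← h1] at h2
    have h3 : (s + 1) * (4 * ((Finset.univ : Finset Ω).filter fun ω => B ω () x ≠ T x).card) ≤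
        (s + 1) * Fintype.card Ω := by
      calc (s + 1) * (4 * ((Finset.univ : Finset Ω).filter fun ω => B ω () x ≠ T x).card)
          = 4 * (s + 1) * ((Finset.univ : Finset Ω).filter fun ω => B ω () x ≠ T x).card := by ring
        _ ≤ 2 ^ ℓ * _ := Nat.mul_le_mul_right _ hs
        _ ≤ _ := h2
    exact Nat.le_of_mul_le_mul_left h3 (Nat.succ_pos _)
  have hrk : r ≤ k := by
    rcases Nat.eq_zero_or_pos r with h0 | h0
    · omega
    · nlinarith
  have hkey := key (L := L) (fun ω => B ω ()) (fun ω => hB1 ω ()) herr (2 * m + b + M) (m * (k - r))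
    (fun _ => true) (by
      intro x hx
      rw [hT] at hx
      have h1 : ∀ i, ones x i ≤ k := by
        intro i
        by_contra hcon
        push Not at hcon
        exact hzA (hx ▸ hA x ⟨i, hcon⟩)
      have h2 : dif (fun _ => true) x = glue fun i : Fin m =>
          Finset.univ.filter fun j : Fin (2 * k + 1) => ¬ x (i, j) = true := by
        ext ij
        simp [dif, glue]
      rw [h2, card_glue]
      have h3 : ∑ _i : Fin m, (k + 1) ≤ ∑ i : Fin m,
          (Finset.univ.filter fun j : Fin (2 * k + 1) => ¬ x (i, j) = true).card := by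
        refine Finset.sum_le_sum fun i _ => ?_
        have h4 := Finset.card_filter_add_card_filter_not (s := (Finset.univ : Finset (Fin (2 * k + 1))))
          (fun j => x (i, j) = true)
        rw [Finset.card_univ, Fintype.card_fin] at h4
        have h5 := h1 i
        rw [ones] at h5
        omega
      rw [Finset.sum_const, Finset.card_univ, Fintype.card_fin, smul_eq_mul] at h3
      have h6 : m * (k + 1) = m * (k - r) + m * (r + 1) := by
        rw [← mul_add]
        congr 1
        omega
      omega)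
  -- the final computation
  have hN : Fintype.card (Fin m × Fin (2 * k + 1)) = m * (2 * k + 1) := by
    simp
  rw [hN] at hkey
  set N := m * (2 * k + 1) with hNdef
  set cT := ((Finset.univ : Finset (Fin m × Fin (2 * k + 1) → Bool)).filter
    fun x => T x = true).card with hcT
  have h1 : S.card ≤ 2 ^ M * cT := by
    refine hz.trans (Nat.mul_le_mul_left _ (Finset.card_le_card ?_))
    intro x hx
    rw [Finset.mem_filter] at hx ⊢
    exact ⟨Finset.mem_univ _, (hT x).2 hx.2⟩
  have h2 : 2 ^ N ≤ 2 ^ b * (2 ^ M * cT) := hcount.trans (Nat.mul_le_mul_left _ h1)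
  have h3 : 2 ^ N ≤ 4 ^ m * ballCard (Fin m × Fin (2 * k + 1)) (m * (k - r)) := by
    have h4 := Nat.pow_le_pow_left (ballCard_quarter hr) m
    rw [mul_pow, ← pow_mul] at h4
    rw [hNdef, mul_comm m]
    exact h4.trans (Nat.mul_le_mul_left _ (ballCard_blocks _ _ _))
  have h5 : 2 ^ N * 2 ^ N * 3 ^ (2 * m + b + M) ≤ 2 ^ N * 2 ^ N * 2 ^ (2 * m + b + M) := by
    calc 2 ^ N * 2 ^ N * 3 ^ (2 * m + b + M)
        ≤ (4 ^ m * ballCard (Fin m × Fin (2 * k + 1)) (m * (k - r))) * (2 ^ b * (2 ^ M * cT)) *
          3 ^ (2 * m + b + M) := Nat.mul_le_mul_right _ (Nat.mul_le_mul h3 h2)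
      _ = (ballCard (Fin m × Fin (2 * k + 1)) (m * (k - r)) * cT * 3 ^ (2 * m + b + M)) *
          2 ^ (2 * m + b + M) := by
          rw [pow_add 2 (2 * m + b) M, pow_add 2 (2 * m) b, pow_mul 2 2 m]
          norm_num
          ring
      _ ≤ _ := Nat.mul_le_mul_right _ hkey
  have h6 : 3 ^ (2 * m + b + M) ≤ 2 ^ (2 * m + b + M) :=
    Nat.le_of_mul_le_mul_left h5 (by positivity)
  have h7 : 2 ^ (2 * m + b + M) < 3 ^ (2 * m + b + M) :=
    Nat.pow_lt_pow_left (by norm_num) (by omega)
  omega

end Finite

end Pool.Agent.Work.MP_609cce_lc
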