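import Pool.Agent.Work.MP_609cce_lc.RandPoly

/-!
# The counting argument
-/

namespace Pool.Agent.Work.MP_609cce_lc

section Key

variable {p : ℕ} [hp : Fact p.Prime] {ι : Type} [DecidableEq ι] [Fintype ι]

/-- A set of points that are all far from `c` and that is approximated by random functions of low
degree is small. -/
theorem key {T : (ι → Bool) → Bool} {L : ℕ} {Ω : Type} [Fintype Ω] [Nonempty Ω]
    (A : Ω → (ι → Bool) → Bool) (hA : ∀ ω, BDeg p L (A ω))
    (herr : ∀ x, 4 * ((Finset.univ : Finset Ω).filter fun ω => A ω x ≠ T x).card ≤ Fintype.card Ω)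
    (e D : ℕ) (c : ι → Bool) (hT : ∀ x, T x = true → D + e * L < (dif c x).card) :
    ballCard ι D * ((Finset.univ : Finset (ι → Bool)).filter fun x => T x = true).card * 3 ^ e ≤
      2 ^ Fintype.card ι * 2 ^ Fintype.card ι := by
  classical
  set K := Fintype.card Ω with hK
  have hKpos : 0 < K := Fintype.card_pos
  -- for each choice of `e` approximators
  have h1 : ∀ ω : Fin e → Ω,
      ((Finset.univ : Finset (ι → Bool)).filter fun x => T x = true ∧
        ∀ k, A (ω k) x = true).card * ballCard ι D ≤
      2 ^ Fintype.card ι * ((Finset.univ : Finset (ι → Bool)).filter fun x => T x = false ∧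
        ∀ k, A (ω k) x = true).card := by
    intro ω
    set X := (Finset.univ : Finset (ι → Bool)).filter fun x => T x = true ∧
        ∀ k, A (ω k) x = true with hX
    set E := (Finset.univ : Finset (ι → Bool)).filter fun x => T x = false ∧
        ∀ k, A (ω k) x = true with hE
    by_contra hcon
    push Not at hcon
    obtain ⟨a, ha⟩ := exists_center X D
    have hlt : E.card < (X.filter fun x => (dif a x).card ≤ D).card := by
      by_contra h
      push Not at h
      have := Nat.mul_le_mul_left (2 ^ Fintype.card ι) h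
      omega
    obtain ⟨Q, hQ, hQE, y, hy, hQy⟩ := exists_separator (F := ZMod p) a D E _
      (fun y hy => (Finset.mem_filter.1 hy).2) hlt
    have hP := BDeg.all (p := p) (Finset.univ : Finset (Fin e)) fun k _ => hA (ω k)
    rw [Finset.card_univ, Fintype.card_fin] at hP
    have hg := mul_mem_degLE (degLE_center a c D hQ) (degLE_center _ c _ hP)
    have h0 := eq_zero_of_vanish hg (by
      intro x hx
      have hTx : T x = false := by
        by_contra h
        have := hT x (by simpa using h)
        omega
      rw [Pi.mul_apply]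
      by_cases hall : ∀ k ∈ (Finset.univ : Finset (Fin e)), A (ω k) x = true
      · rw [hQE x, zero_mul]
        rw [hE, Finset.mem_filter]
        exact ⟨Finset.mem_univ _, hTx, fun k => hall k (Finset.mem_univ _)⟩
      · rw [bf, if_neg (by simpa using hall), mul_zero])
    have h2 := congrFun h0 y
    have hyX : y ∈ X := (Finset.mem_filter.1 hy).1
    rw [hX, Finset.mem_filter] at hyX
    rw [Pi.mul_apply, bf, if_pos (by simpa using hyX.2.2), mul_one] at h2
    exact hQy h2
  -- sum over all choices
  have h2 := Finset.sum_le_sum fun (ω : Fin e → Ω) (_ : ω ∈ Finset.univ) => h1 ω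
  rw [← Finset.sum_mul, ← Finset.mul_sum] at h2
  have hsum : ∀ t : Bool, ∑ ω : Fin e → Ω, ((Finset.univ : Finset (ι → Bool)).filter fun x =>
      T x = t ∧ ∀ k, A (ω k) x = true).card =
      ∑ x ∈ (Finset.univ : Finset (ι → Bool)).filter fun x => T x = t,
        ((Finset.univ : Finset Ω).filter fun ω => A ω x = true).card ^ e := by
    intro t
    have h3 : ∀ ω : Fin e → Ω, ((Finset.univ : Finset (ι → Bool)).filter fun x =>
        T x = t ∧ ∀ k, A (ω k) x = true).card =
        ∑ x ∈ (Finset.univ : Finset (ι → Bool)).filter fun x => T x = t,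
          if ∀ k, A (ω k) x = true then 1 else 0 := by
      intro ω
      rw [← Finset.filter_filter, Finset.card_filter]
    rw [Finset.sum_congr rfl fun ω _ => h3 ω, Finset.sum_comm]
    refine Finset.sum_congr rfl fun x _ => ?_
    rw [← Finset.card_filter]
    have h4 : ((Finset.univ : Finset (Fin e → Ω)).filter fun ω => ∀ k, A (ω k) x = true) =
        Fintype.piFinset fun _ : Fin e => (Finset.univ : Finset Ω).filter fun ω => A ω x = true := by
      ext ω
      simp [Fintype.mem_piFinset]
    rw [h4, Fintype.card_piFinset, Finset.prod_const, Finset.card_univ, Fintype.card_fin]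
  rw [hsum true, hsum false] at h2
  -- lower bound
  have hlow : ((Finset.univ : Finset (ι → Bool)).filter fun x => T x = true).card *
      (3 ^ e * K ^ e) ≤ 4 ^ e * ∑ x ∈ (Finset.univ : Finset (ι → Bool)).filter fun x => T x = true,
        ((Finset.univ : Finset Ω).filter fun ω => A ω x = true).card ^ e := by
    rw [Finset.mul_sum, ← smul_eq_mul (Finset.card _)]
    refine Finset.card_nsmul_le_sum _ _ _ fun x hx => ?_
    rw [← mul_pow, ← mul_pow]
    refine Nat.pow_le_pow_left ?_ _
    have hTx : T x = true := (Finset.mem_filter.1 hx).2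
    have h3 := herr x
    have h4 : ((Finset.univ : Finset Ω).filter fun ω => A ω x = true).card +
        ((Finset.univ : Finset Ω).filter fun ω => A ω x ≠ T x).card = K := by
      rw [hTx]
      have h5 := Finset.card_filter_add_card_filter_not (s := (Finset.univ : Finset Ω))
        (fun ω => A ω x = true)
      rw [Finset.card_univ] at h5
      exact h5
    omega
  have hhigh : 4 ^ e * ∑ x ∈ (Finset.univ : Finset (ι → Bool)).filter fun x => T x = false,
        ((Finset.univ : Finset Ω).filter fun ω => A ω x = true).card ^ e ≤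
      2 ^ Fintype.card ι * K ^ e := by
    rw [Finset.mul_sum]
    refine (Finset.sum_le_card_nsmul _ _ (K ^ e) fun x hx => ?_).trans ?_
    · rw [← mul_pow]
      refine Nat.pow_le_pow_left ?_ _
      have hTx : T x = false := (Finset.mem_filter.1 hx).2
      have h3 := herr x
      rw [hTx] at h3
      have h4 : ((Finset.univ : Finset Ω).filter fun ω => A ω x ≠ false) =
          ((Finset.univ : Finset Ω).filter fun ω => A ω x = true) := by
        refine Finset.filter_congr fun ω _ => ?_
        cases A ω x <;> simp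
      rw [h4] at h3
      exact h3
    · rw [smul_eq_mul]
      refine Nat.mul_le_mul_right _ ((Finset.card_le_univ _).trans ?_)
      rw [Fintype.card_fun, Fintype.card_bool]
  have hfin : (ballCard ι D * ((Finset.univ : Finset (ι → Bool)).filter
      fun x => T x = true).card * 3 ^ e) * K ^ e ≤
      (2 ^ Fintype.card ι * 2 ^ Fintype.card ι) * K ^ e := by
    calc (ballCard ι D * ((Finset.univ : Finset (ι → Bool)).filter
          fun x => T x = true).card * 3 ^ e) * K ^ e
        = (((Finset.univ : Finset (ι → Bool)).filter fun x => T x = true).card *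
            (3 ^ e * K ^ e)) * ballCard ι D := by ring
      _ ≤ _ := Nat.mul_le_mul_right _ hlow
      _ = 4 ^ e * ((∑ x ∈ (Finset.univ : Finset (ι → Bool)).filter fun x => T x = true,
          ((Finset.univ : Finset Ω).filter fun ω => A ω x = true).card ^ e) * ballCard ι D) := by
          ring
      _ ≤ _ := Nat.mul_le_mul_left _ h2
      _ = 2 ^ Fintype.card ι * (4 ^ e *
          ∑ x ∈ (Finset.univ : Finset (ι → Bool)).filter fun x => T x = false,
          ((Finset.univ : Finset Ω).filter fun ω => A ω x = true).card ^ e) := by ring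
      _ ≤ _ := Nat.mul_le_mul_left _ hhigh
      _ = _ := by ring
  exact Nat.le_of_mul_le_mul_right hfin (Nat.pow_pos hKpos)

end Key

section Binomial

theorem centralBinom_sq_le (j : ℕ) : Nat.centralBinom j ^ 2 * (2 * j + 1) ≤ 16 ^ j := by
  induction j with
  | zero => simp
  | succ j ih =>
    have h1 := Nat.succ_mul_centralBinom_succ j
    have h2 : (j + 1) ^ 2 * (Nat.centralBinom (j + 1) ^ 2 * (2 * (j + 1) + 1)) ≤
        (j + 1) ^ 2 * 16 ^ (j + 1) := by
      calc (j + 1) ^ 2 * (Nat.centralBinom (j + 1) ^ 2 * (2 * (j + 1) + 1))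
          = ((j + 1) * Nat.centralBinom (j + 1)) ^ 2 * (2 * j + 3) := by ring
        _ = (2 * (2 * j + 1) * Nat.centralBinom j) ^ 2 * (2 * j + 3) := by rw [h1]
        _ = (Nat.centralBinom j ^ 2 * (2 * j + 1)) * (4 * (2 * j + 1) * (2 * j + 3)) := by ring
        _ ≤ 16 ^ j * (4 * (2 * j + 1) * (2 * j + 3)) := Nat.mul_le_mul_right _ ih
        _ ≤ 16 ^ j * (16 * (j + 1) ^ 2) := Nat.mul_le_mul_left _ (by nlinarith)
        _ = (j + 1) ^ 2 * 16 ^ (j + 1) := by ring
    exact Nat.le_of_mul_le_mul_left h2 (by positivity)

theorem choose_middle_sq (k : ℕ) : (2 * k + 1).choose k ^ 2 * (2 * k + 3) ≤ 4 * 16 ^ k := by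
  have h1 := centralBinom_sq_le (k + 1)
  have h2 : Nat.centralBinom (k + 1) = 2 * (2 * k + 1).choose k := by
    rw [Nat.centralBinom_eq_two_mul_choose]
    have h3 : 2 * (k + 1) = (2 * k + 1) + 1 := by ring
    rw [h3, Nat.choose_succ_succ]
    have h4 : (2 * k + 1).choose (k + 1) = (2 * k + 1).choose k := by
      rw [← Nat.choose_symm_half]
    rw [h4]
    ring
  rw [h2] at h1
  have h5 : (2 * (2 * k + 1).choose k) ^ 2 * (2 * (k + 1) + 1) =
      4 * ((2 * k + 1).choose k ^ 2 * (2 * k + 3)) := by ring
  have h6 : 16 ^ (k + 1) = 16 * 16 ^ k := by ring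
  rw [h5, h6] at h1
  omega

theorem ballCard_eq_sum (n c : ℕ) :
    ballCard (Fin n) c = ∑ i ∈ Finset.range (c + 1), n.choose i := by
  rw [ballCard, Finset.card_eq_sum_card_fiberwise (f := Finset.card) (t := Finset.range (c + 1))]
  · refine Finset.sum_congr rfl fun i hi => ?_
    have h1 : (((Finset.univ : Finset (Finset (Fin n))).filter fun S => S.card ≤ c).filter
        fun S => S.card = i) = Finset.powersetCard i Finset.univ := by
      ext S
      simp only [Finset.mem_filter, Finset.mem_univ, true_and, Finset.mem_powersetCard,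
        Finset.subset_univ]
      have := Finset.mem_range.1 hi
      omega
    rw [h1, Finset.card_powersetCard, Finset.card_univ, Fintype.card_fin]
  · intro S hS
    simp only [Finset.coe_filter, Finset.mem_univ, true_and, Set.mem_ofPred_eq] at hS
    simp only [Finset.coe_range, Set.mem_Iio]
    omega

theorem ballCard_half (k : ℕ) : ballCard (Fin (2 * k + 1)) k = 4 ^ k := by
  rw [ballCard_eq_sum, Nat.sum_range_choose_halfway]

theorem ballCard_quarter {k r : ℕ} (h : 16 * r ^ 2 ≤ 2 * k + 3) :
    2 ^ (2 * k + 1) ≤ 4 * ballCard (Fin (2 * k + 1)) (k - r) := by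
  have hrk : r ≤ k := by
    rcases Nat.eq_zero_or_pos r with h0 | h0
    · omega
    · nlinarith
  have h1 := Nat.sum_range_choose_halfway k
  have h2 : ∑ i ∈ Finset.range (k + 1), (2 * k + 1).choose i =
      ∑ i ∈ Finset.range (k - r + 1), (2 * k + 1).choose i +
      ∑ i ∈ Finset.Ico (k - r + 1) (k + 1), (2 * k + 1).choose i := by
    rw [Finset.range_eq_Ico, Finset.range_eq_Ico,
      Finset.sum_Ico_consecutive _ (Nat.zero_le _) (by omega)]
  have h3 : ∑ i ∈ Finset.Ico (k - r + 1) (k + 1), (2 * k + 1).choose i ≤
      r * (2 * k + 1).choose k := by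
    have h4 := Finset.sum_le_card_nsmul (Finset.Ico (k - r + 1) (k + 1))
      (fun i => (2 * k + 1).choose i) ((2 * k + 1).choose k) (fun i _ => by
        have := Nat.choose_le_middle i (2 * k + 1)
        have h5 : (2 * k + 1) / 2 = k := by omega
        rwa [h5] at this)
    rw [Nat.card_Ico, smul_eq_mul] at h4
    have h5 : k + 1 - (k - r + 1) = r := by omega
    rwa [h5] at h4
  have h4 := choose_middle_sq k
  have h5 : 2 * (r * (2 * k + 1).choose k) ≤ 4 ^ k := by
    have h6 : (2 * (r * (2 * k + 1).choose k)) ^ 2 ≤ (4 ^ k) ^ 2 := by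
      have h7 : 4 * (2 * (r * (2 * k + 1).choose k)) ^ 2 ≤ 4 * (4 ^ k) ^ 2 := by
        calc 4 * (2 * (r * (2 * k + 1).choose k)) ^ 2
            = (16 * r ^ 2) * (2 * k + 1).choose k ^ 2 := by ring
          _ ≤ (2 * k + 3) * (2 * k + 1).choose k ^ 2 := Nat.mul_le_mul_right _ h
          _ = (2 * k + 1).choose k ^ 2 * (2 * k + 3) := by ring
          _ ≤ 4 * 16 ^ k := h4
          _ = 4 * (4 ^ k) ^ 2 := by
            rw [← pow_mul, mul_comm k 2, pow_mul]
            norm_num
      omega
    exact (Nat.pow_le_pow_iff_left (by norm_num)).1 h6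
  rw [ballCard_eq_sum]
  have h6 : 2 ^ (2 * k + 1) = 2 * 4 ^ k := by
    rw [pow_succ, pow_mul]
    norm_num
    ring
  omega

/-- The set of pairs determined by a family of sets. -/
def glue {m n : ℕ} (S : Fin m → Finset (Fin n)) : Finset (Fin m × Fin n) :=
  Finset.univ.filter fun ij => ij.2 ∈ S ij.1

theorem glue_injective {m n : ℕ} : Function.Injective (glue (m := m) (n := n)) := by
  intro S T h
  funext i
  ext j
  have h1 : (i, j) ∈ glue S ↔ (i, j) ∈ glue T := by rw [h]
  simpa [glue] using h1

theorem card_glue {m n : ℕ} (S : Fin m → Finset (Fin n)) : (glue S).card = ∑ i, (S i).card := by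
  rw [glue, Finset.card_filter, Fintype.sum_prod_type]
  refine Finset.sum_congr rfl fun i _ => ?_
  rw [← Finset.card_filter]
  congr 1
  ext j
  simp

theorem ballCard_blocks (m n c : ℕ) :
    ballCard (Fin n) c ^ m ≤ ballCard (Fin m × Fin n) (m * c) := by
  have h1 : (Fintype.piFinset fun _ : Fin m =>
      (Finset.univ : Finset (Finset (Fin n))).filter fun S => S.card ≤ c).card =
      ballCard (Fin n) c ^ m := by
    rw [Fintype.card_piFinset, Finset.prod_const, Finset.card_univ, Fintype.card_fin]
    rfl
  rw [← h1, ballCard]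
  refine Finset.card_le_card_of_injOn glue ?_ glue_injective.injOn
  intro S hS
  rw [Finset.mem_coe, Fintype.mem_piFinset] at hS
  simp only [Finset.coe_filter, Finset.mem_univ, true_and, Set.mem_ofPred_eq]
  rw [card_glue]
  refine (Finset.sum_le_card_nsmul _ _ c fun i _ => (Finset.mem_filter.1 (hS i)).2).trans ?_
  rw [Finset.card_univ, Fintype.card_fin, smul_eq_mul]

end Binomial

end Pool.Agent.Work.MP_609cce_lc
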