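import Mathlib

/-!
# Monotone Boolean circuits
-/

namespace Pool.Agent.Work.MP_609cce_lc

/-- A gate of a monotone circuit whose inputs are indexed by `ι`. It is an input, a constant, or
the conjunction or disjunction of two earlier gates, which are referred to by their number in the
list of gates. -/
inductive MonoGate (ι : Type) : Type
  | input (i : ι) : MonoGate ι
  | const (b : Bool) : MonoGate ι
  | and (j k : ℕ) : MonoGate ι
  | or (j k : ℕ) : MonoGate ι

/-- The value of a gate, given the input bits and the list of the values of all earlier gates (a
reference beyond the end of that list reads as `false`). -/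
def MonoGate.val {ι : Type} (x : ι → Bool) (prev : List Bool) : MonoGate ι → Bool
  | .input i => x i
  | .const b => b
  | .and j k => prev.getD j false && prev.getD k false
  | .or j k => prev.getD j false || prev.getD k false

/-- The list of the values of the gates, in order. -/
def gateVals {ι : Type} (x : ι → Bool) (gates : List (MonoGate ι)) : List Bool :=
  gates.foldl (fun prev g => prev ++ [g.val x prev]) []

/-- A monotone circuit with inputs indexed by `ι` and `M` output bits: a list of gates, and for
each output bit the number of the gate that produces it. -/
structure MonoCircuit (ι : Type) (M : ℕ) : Type where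
  /-- the gates, in order of evaluation -/
  gates : List (MonoGate ι)
  /-- the numbers of the output gates -/
  out : Fin M → ℕ

/-- The size of a circuit is its number of gates. -/
def MonoCircuit.size {ι : Type} {M : ℕ} (C : MonoCircuit ι M) : ℕ := C.gates.length

/-- The output bits of a circuit on the input `x`. -/
def MonoCircuit.eval {ι : Type} {M : ℕ} (C : MonoCircuit ι M) (x : ι → Bool) (j : Fin M) : Bool :=
  (gateVals x C.gates).getD (C.out j) false

theorem gateVals_append_singleton {ι : Type} (x : ι → Bool) (gates : List (MonoGate ι))
    (g : MonoGate ι) :
    gateVals x (gates ++ [g]) = gateVals x gates ++ [g.val x (gateVals x gates)] := by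
  simp [gateVals]

@[simp] theorem gateVals_nil {ι : Type} (x : ι → Bool) : gateVals x [] = [] := rfl

@[simp] theorem gateVals_length {ι : Type} (x : ι → Bool) (gates : List (MonoGate ι)) :
    (gateVals x gates).length = gates.length := by
  induction gates using List.reverseRecOn with
  | nil => rfl
  | append_singleton gates g ih => rw [gateVals_append_singleton]; simp [ih]

theorem getD_append_singleton_of_lt {α : Type*} (l : List α) (a d : α) {i : ℕ}
    (hi : i < l.length) : (l ++ [a]).getD i d = l.getD i d := by
  rw [List.getD_append _ _ _ _ hi]

theorem getD_append_singleton_length {α : Type*} (l : List α) (a d : α) :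
    (l ++ [a]).getD l.length d = a := by
  rw [List.getD_append_right _ _ _ _ (le_refl _)]
  simp

/-- Monotone circuits compute monotone functions. -/
theorem gateVals_mono {ι : Type} {x y : ι → Bool} (h : ∀ i, x i = true → y i = true)
    (gates : List (MonoGate ι)) :
    ∀ i, (gateVals x gates).getD i false = true → (gateVals y gates).getD i false = true := by
  induction gates using List.reverseRecOn with
  | nil => intro i hi; simpa using hi
  | append_singleton gates g ih =>
    intro i hi
    rw [gateVals_append_singleton] at hi ⊢
    rcases lt_trichotomy i gates.length with hlt | heq | hgt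
    · rw [getD_append_singleton_of_lt _ _ _ (by simpa using hlt)] at hi ⊢
      exact ih i hi
    · have h1 : i = (gateVals x gates).length := by simpa using heq
      have h2 : i = (gateVals y gates).length := by simpa using heq
      rw [h1, getD_append_singleton_length] at hi
      rw [h2, getD_append_singleton_length]
      cases g with
      | input i => exact h i hi
      | const b => exact hi
      | and j k =>
        simp only [MonoGate.val, Bool.and_eq_true] at hi ⊢
        exact ⟨ih j hi.1, ih k hi.2⟩
      | or j k =>
        simp only [MonoGate.val, Bool.or_eq_true] at hi ⊢
        exact hi.imp (ih j) (ih k)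
    · rw [List.getD_eq_default] at hi
      · exact absurd hi (by simp)
      · simp; omega

theorem MonoCircuit.eval_mono {ι : Type} {M : ℕ} (C : MonoCircuit ι M) {x y : ι → Bool}
    (h : ∀ i, x i = true → y i = true) (j : Fin M) (hj : C.eval x j = true) :
    C.eval y j = true := gateVals_mono h _ _ hj

/-- Replace the inputs of a gate: an input is renamed or fixed to a constant. -/
def MonoGate.subst {ι κ : Type} (f : ι → κ ⊕ Bool) : MonoGate ι → MonoGate κ
  | .input i => match f i with
    | .inl k => .input k
    | .inr b => .const b
  | .const b => .const b
  | .and j k => .and j k
  | .or j k => .or j k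

/-- Replace the inputs of a circuit. -/
def MonoCircuit.subst {ι κ : Type} {M : ℕ} (f : ι → κ ⊕ Bool) (C : MonoCircuit ι M) :
    MonoCircuit κ M := ⟨C.gates.map (MonoGate.subst f), C.out⟩

theorem gateVals_subst {ι κ : Type} (f : ι → κ ⊕ Bool) (y : κ → Bool) (gates : List (MonoGate ι)) :
    gateVals y (gates.map (MonoGate.subst f)) = gateVals (fun i => Sum.elim y id (f i)) gates := by
  induction gates using List.reverseRecOn with
  | nil => rfl
  | append_singleton gates g ih =>
    rw [List.map_append, List.map_singleton, gateVals_append_singleton, gateVals_append_singleton,
      ih]
    congr 2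
    cases g with
    | input i =>
      simp only [MonoGate.subst]
      cases h : f i with
      | inl k => simp [MonoGate.val, h]
      | inr b => simp [MonoGate.val, h]
    | const b => rfl
    | and j k => rfl
    | or j k => rfl

theorem MonoCircuit.eval_subst {ι κ : Type} {M : ℕ} (f : ι → κ ⊕ Bool) (C : MonoCircuit ι M)
    (y : κ → Bool) : (C.subst f).eval y = C.eval fun i => Sum.elim y id (f i) := by
  funext j
  simp only [MonoCircuit.eval, MonoCircuit.subst, gateVals_subst]

theorem MonoCircuit.size_subst {ι κ : Type} {M : ℕ} (f : ι → κ ⊕ Bool) (C : MonoCircuit ι M) :
    (C.subst f).size = C.size := by simp [MonoCircuit.size, MonoCircuit.subst]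

/-- The chain argument. Let `D` map `m` instances to `M < m` bits, and let replacing the trivial
instance `bot` by any instance only increase the output. Then there are no-instances `x_j` and a
position `i` with `x_i = bot` such that every no-instance `y`, put at position `i`, gives the same
output as `bot`. -/
theorem chain {X : Type*} {m M : ℕ} (hMm : M < m) (No : X → Prop) (bot : X) (hbot : No bot)
    (D : (Fin m → X) → Fin M → Bool)
    (hD : ∀ x i y, x i = bot → ∀ j, D x j = true → D (Function.update x i y) j = true) :
    ∃ (x : Fin m → X) (i : Fin m), (∀ j, No (x j)) ∧ x i = bot ∧
      ∀ y, No y → D (Function.update x i y) = D x := by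
  classical
  by_contra hcon
  push Not at hcon
  have key : ∀ t : ℕ, t ≤ m → ∃ x : Fin m → X, (∀ j, No (x j)) ∧
      (∀ j : Fin m, t ≤ (j : ℕ) → x j = bot) ∧
      t ≤ (Finset.univ.filter fun j => D x j = true).card := by
    intro t
    induction t with
    | zero => intro _; exact ⟨fun _ => bot, fun _ => hbot, fun _ _ => rfl, Nat.zero_le _⟩
    | succ t ih =>
      intro ht
      obtain ⟨x, h1, h2, h3⟩ := ih (by omega)
      obtain ⟨y, hy, hne⟩ := hcon x ⟨t, by omega⟩ h1 (h2 ⟨t, by omega⟩ (le_refl _))
      refine ⟨Function.update x ⟨t, by omega⟩ y, ?_, ?_, ?_⟩
      · intro j
        by_cases hj : j = ⟨t, by omega⟩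
        · subst hj; simpa using hy
        · rw [Function.update_of_ne hj]; exact h1 j
      · intro j hj
        have hj' : j ≠ ⟨t, by omega⟩ := by
          intro h
          rw [h] at hj
          simp at hj
        rw [Function.update_of_ne hj']
        exact h2 j (by omega)
      · have hsub : (Finset.univ.filter fun j => D x j = true) ⊂
            (Finset.univ.filter fun j => D (Function.update x ⟨t, by omega⟩ y) j = true) := by
          rw [Finset.ssubset_iff_subset_ne]
          constructor
          · intro j hj
            simp only [Finset.mem_filter, Finset.mem_univ, true_and] at hj ⊢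
            exact hD x _ y (h2 _ (le_refl _)) j hj
          · intro heq
            apply hne
            funext j
            have hj : j ∈ (Finset.univ.filter fun j => D x j = true) ↔
                j ∈ (Finset.univ.filter fun j => D (Function.update x ⟨t, by omega⟩ y) j = true) := by
              rw [heq]
            simp only [Finset.mem_filter, Finset.mem_univ, true_and] at hj
            rw [Bool.eq_iff_iff]
            exact hj.symm
        have := Finset.card_lt_card hsub
        omega
  obtain ⟨x, -, -, h3⟩ := key m (le_refl _)
  have h4 := (Finset.univ.filter fun j => D x j = true).card_le_univ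
  rw [Fintype.card_fin] at h4
  omega

end Pool.Agent.Work.MP_609cce_lc
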