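import Mathlib

/-!
# OR-distillation: definitions

Polynomial time means: computed by one of Mathlib's polynomial time multi-stack machines
(`Turing.TM2ComputableInPolyTime`).
-/

open Turing

namespace ORDist

/-- the function `f` is computed in polynomial time, inputs being coded by `ea`, outputs by `eb` -/
def PolyTime {α β A B : Type} (ea : α → List A) (eb : β → List B) (f : α → β) : Prop :=
  Nonempty (TM2ComputableInPolyTime ea eb f)

/-- the pair `(x, y)` as one bit string: every bit of `x` preceded by `1`, then `0`, then `y` -/
def pairStr (z : List Bool × List Bool) : List Bool :=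
  z.1.flatMap (fun b => [true, b]) ++ false :: z.2

/-- the class NP of languages of bit strings: there are a polynomial time verifier `V` and a
polynomial `p` such that `x ∈ L` iff `V (x, y) = true` for some `y` of length at most `p (|x|)` -/
def InNP (L : Set (List Bool)) : Prop :=
  ∃ (V : List Bool × List Bool → Bool) (p : Polynomial ℕ),
    PolyTime pairStr (fun b : Bool => [b]) V ∧
    ∀ x : List Bool, x ∈ L ↔ ∃ y : List Bool, y.length ≤ p.eval x.length ∧ V (x, y) = true

/-- the language `R` over the alphabet `S` is NP-hard: every language in NP is polynomial time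
many-one reducible to `R` -/
def NPHard {S : Type} (R : Set (List S)) : Prop :=
  ∀ L : Set (List Bool), InNP L → ∃ f : List Bool → List S,
    PolyTime (fun x => x) (fun x => x) f ∧ ∀ x, x ∈ L ↔ f x ∈ R

/-- the sequence `x₁, …, x_m` of strings over `S` as the string `x₁#…x_m#` over `S ∪ {#}` -/
def seqStr {S : Type} (xs : List (List S)) : List (Option S) :=
  xs.flatMap fun x => x.map some ++ [none]

/-- `D` is an OR-distillation algorithm of `R` into the target language `R'`
(`R' = R` in the question) -/
structure ORDistillation {S : Type} (R R' : Set (List S)) (D : List (List S) → List S) :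
    Prop where
  /-- `D` is computed in time polynomial in the number and the lengths of the strings -/
  polyTime : PolyTime seqStr (fun x => x) D
  /-- the length of the output is bounded by a polynomial in the maximal length only -/
  short : ∃ q : Polynomial ℕ, ∀ (n : ℕ) (xs : List (List S)), xs ≠ [] →
    (∀ x ∈ xs, x.length ≤ n) → (D xs).length ≤ q.eval n
  /-- the output computes the OR -/
  correct : ∀ xs : List (List S), xs ≠ [] → (D xs ∈ R' ↔ ∃ x ∈ xs, x ∈ R)

/-- `D` is a polynomial time OR-compression of `R` into `R'`: for some polynomially bounded
`m (n) ≥ 1`, sequences of exactly `m (n)` strings of length at most `n` are mapped to strings of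
length at most `c · m (n) · log (m (n))` -/
structure ORCompression {S : Type} (R R' : Set (List S)) (D : List (List S) → List S) :
    Prop where
  /-- `D` is computed in time polynomial in the number and the lengths of the strings -/
  polyTime : PolyTime seqStr (fun x => x) D
  /-- a length bound for the output on `m (n)` strings of length at most `n` -/
  short : ∃ (c : ℕ) (m : ℕ → ℕ) (p : Polynomial ℕ), ∀ n : ℕ, 1 ≤ m n ∧ m n ≤ p.eval n ∧
    ∀ xs : List (List S), xs.length = m n → (∀ x ∈ xs, x.length ≤ n) →
      (D xs).length ≤ c * m n * (Nat.log 2 (m n) + 1)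
  /-- the output computes the OR -/
  correct : ∀ xs : List (List S), xs ≠ [] → (D xs ∈ R' ↔ ∃ x ∈ xs, x ∈ R)

/-- an OR-distillation is an OR-compression -/
theorem ORDistillation.compression {S : Type} {R R' : Set (List S)}
    {D : List (List S) → List S} (h : ORDistillation R R' D) : ORCompression R R' D := by
  obtain ⟨q, hq⟩ := h.short
  refine ⟨h.polyTime, ⟨1, fun n => q.eval n + 1, q + 1, fun n => ⟨Nat.le_add_left _ _, ?_, ?_⟩⟩, h.correct⟩
  · simp
  · intro xs hxs hx
    have h1 : xs ≠ [] := by rintro rfl; simp at hxs
    refine (hq n xs h1 hx).trans ?_
    rw [one_mul]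
    exact (Nat.le_succ _).trans (Nat.le_mul_of_pos_right _ (Nat.succ_pos _))

/-- NP = coNP -/
def NPeqCoNP : Prop := ∀ L : Set (List Bool), InNP L → InNP Lᶜ

end ORDist
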