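import Pool.Agent.Work.MP_2f1fa1_lc.PNP
import Pool.Agent.Work.MP_609cce_lc.ODefs

/-!
# Decoding of structured certificates inside the calculus `PT`
-/

open Turing

namespace PTime

variable {α β γ : Type} [Code α] [Code β] [Code γ]

/-! ### binary trees -/

/-- the list of left subtrees on the right spine -/
def T.spine : T → List T
  | .nil => []
  | .node a b => a :: b.spine

theorem T.toT_spine (t : T) : Code.toT t.spine = t := by
  induction t with
  | nil => rfl
  | node a b _ ihb =>
    show T.node a (Code.toT b.spine) = _
    rw [ihb]

theorem T.spine_toT (l : List γ) : (Code.toT l).spine = l.map Code.toT := by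
  induction l with
  | nil => rfl
  | cons a l ih =>
    show T.spine (.node (Code.toT a) (Code.toT l)) = _
    rw [T.spine, ih, List.map_cons]

theorem PT.spine {f : α → T} (hf : PT f) : PT (fun a => (f a).spine) := by
  have h : PT (fun t : T => t.spine) := PT.recode T.toT_spine
  exact h.comp hf

theorem PT.toT {f : α → β} (hf : PT f) : PT (fun a => Code.toT (f a)) := by
  have h : PT (fun b : β => (Code.toT b : T)) := PT.recode fun _ => rfl
  exact h.comp hf

/-- left subtree -/
def T.left : T → T
  | .nil => .nil
  | .node a _ => a

/-- right subtree -/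
def T.right : T → T
  | .nil => .nil
  | .node _ b => b

theorem PT.left {f : α → T} (hf : PT f) : PT (fun a => (f a).left) :=
  (PT.headD hf.spine (PT.const T.nil)).congr fun a => by cases f a <;> rfl

theorem PT.right {f : α → T} (hf : PT f) : PT (fun a => (f a).right) := by
  refine (PT.toT hf.spine.tail).congr fun a => ?_
  cases f a with
  | nil => rfl
  | node a b => exact T.toT_spine b

theorem PT.node {f g : α → T} (hf : PT f) (hg : PT g) : PT (fun a => T.node (f a) (g a)) := by
  have h : PT (fun x : T × T => T.node x.1 x.2) := PT.recode fun _ => rfl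
  exact h.comp2 hf hg

/-- one step of the shift-reduce parser -/
def parseStep (s : List T) (b : Bool) : List T :=
  match b, s with
  | false, s => .nil :: s
  | true, a :: c :: r => .node a c :: r
  | true, s => s

theorem parse_bits (t : T) : ∀ s : List T, t.bits.reverse.foldl parseStep s = t :: s := by
  induction t with
  | nil => intro s; rfl
  | node a b iha ihb =>
    intro s
    show (true :: (a.bits ++ b.bits)).reverse.foldl parseStep s = _
    rw [List.reverse_cons, List.reverse_append, List.foldl_append, List.foldl_append, ihb, iha]
    rfl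

/-- the parser -/
def parseT (y : List Bool) : T := (y.reverse.foldl parseStep []).headD .nil

theorem parse_enc (c : γ) : parseT (enc c) = Code.toT c := by
  unfold parseT enc
  rw [parse_bits]
  rfl

theorem parseStep_sz (s : List T) (b : Bool) : sz (parseStep s b) ≤ sz s + 2 := by
  cases b with
  | false =>
    show sz (T.nil :: s) ≤ _
    rw [sz_cons, show sz T.nil = 1 from rfl]
    omega
  | true =>
    match s with
    | [] => show sz ([] : List T) ≤ _; omega
    | [a] => show sz [a] ≤ _; omega
    | a :: c :: r =>
      show sz (T.node a c :: r) ≤ _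
      have h : sz (T.node a c) = sz a + sz c + 1 := by
        show (true :: (a.bits ++ c.bits)).length = a.bits.length + c.bits.length + 1
        simp
      rw [sz_cons, sz_cons, sz_cons, h]
      omega

theorem parse_sz (l : List Bool) : ∀ s : List T, sz (l.foldl parseStep s) ≤ sz s + 2 * l.length := by
  induction l with
  | nil => intro s; simp
  | cons b l ih =>
    intro s
    rw [List.foldl_cons, List.length_cons]
    have := ih (parseStep s b)
    have := parseStep_sz s b
    omega

theorem PT.parseT {f : α → List Bool} (hf : PT f) : PT (fun a => parseT (f a)) := by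
  have hstep : PT (fun x : List T × Bool => parseStep x.1 x.2) := by
    have h1 : PT (fun x : (List T × Bool) × T × T × List T => T.node x.2.1 x.2.2.1 :: x.2.2.2) :=
      ((PT.fst.comp PT.snd).node (PT.fst.comp (PT.snd.comp PT.snd))).cons
        (PT.snd.comp (PT.snd.comp PT.snd))
    have h2 : PT (fun x : (List T × Bool) × T × List T => match x.2.2 with
        | [] => x.1.1
        | c :: r => T.node x.2.1 c :: r) := by
      refine (PT.listCases (l := fun x : (List T × Bool) × T × List T => x.2.2)
        (f := fun x => x.1.1) (g := fun x => T.node x.1.2.1 x.2.1 :: x.2.2)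
        (PT.snd.comp PT.snd) (PT.fst.comp PT.fst) ?_).congr fun x => ?_
      · exact ((PT.fst.comp (PT.snd.comp PT.fst)).node (PT.fst.comp PT.snd)).cons
          (PT.snd.comp PT.snd)
      · obtain ⟨a, t, l⟩ := x
        cases l <;> rfl
    have h3 : PT (fun x : List T × Bool => match x.1 with
        | [] => x.1
        | a :: l => match l with
          | [] => x.1
          | c :: r => T.node a c :: r) := by
      refine (PT.listCases (l := fun x : List T × Bool => x.1)
        (f := fun x => x.1) (g := fun x => match x.2.2 with
          | [] => x.1.1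
          | c :: r => T.node x.2.1 c :: r) PT.fst PT.fst h2).congr fun x => ?_
      obtain ⟨l, b⟩ := x
      cases l <;> rfl
    refine (PT.cond (c := fun x : List T × Bool => x.2) PT.snd h3
      ((PT.const T.nil).cons PT.fst)).congr fun x => ?_
    obtain ⟨l, b⟩ := x
    cases b with
    | false => rfl
    | true =>
      match l with
      | [] => rfl
      | [a] => rfl
      | a :: c :: r => rfl
  have h : PT (fun y : List Bool => y.reverse.foldl parseStep []) := by
    refine PT.foldl (l := fun y : List Bool => y.reverse) (s := fun _ => ([] : List T))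
      (g := fun x : List Bool × List T × Bool => parseStep x.2.1 x.2.2) PT.id.reverse
      (PT.const []) (hstep.comp PT.snd) (2 * Polynomial.X + 1) ?_
    intro y l' hl'
    refine (parse_sz l' []).trans ?_
    have h1 := hl'.length_le
    rw [List.length_reverse] at h1
    have h2 := length_le_sz y
    simp only [Polynomial.eval_add, Polynomial.eval_mul, Polynomial.eval_X,
      Polynomial.eval_ofNat, Polynomial.eval_one, sz_nil]
    omega
  exact (PT.headD (h.comp hf) (PT.const T.nil))

/-! ### types of certificates -/

/-- coded types with a total decoder in the calculus -/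
class Dec (γ : Type) [Code γ] where
  /-- the decoder -/
  ofT : T → γ
  /-- it is a left inverse of the coding -/
  ofT_toT : ∀ c : γ, ofT (Code.toT c) = c
  /-- it is in the calculus -/
  pt : PT ofT

instance : Dec T := ⟨fun t => t, fun _ => rfl, PT.id⟩

instance : Dec Bool := ⟨fun t => !t.spine.isEmpty, fun b => by cases b <;> rfl,
  (PT.isEmpty (PT.spine PT.id)).not⟩

instance instDecProd {β γ : Type} [Code β] [Code γ] [Dec β] [Dec γ] : Dec (β × γ) :=
  ⟨fun t => (Dec.ofT t.left, Dec.ofT t.right), fun c => by
    show (Dec.ofT (Code.toT c.1), Dec.ofT (Code.toT c.2)) = c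
    rw [Dec.ofT_toT, Dec.ofT_toT],
  ((Dec.pt (γ := β)).comp PT.id.left).pair ((Dec.pt (γ := γ)).comp PT.id.right)⟩

instance instDecList {γ : Type} [Code γ] [Dec γ] : Dec (List γ) :=
  ⟨fun t => t.spine.map Dec.ofT, fun l => by
    rw [T.spine_toT, List.map_map]
    conv_rhs => rw [← List.map_id l]
    exact List.map_congr_left fun c _ => Dec.ofT_toT c,
  PT.map (g := fun x : T × T => (Dec.ofT x.2 : γ)) PT.id.spine ((Dec.pt (γ := γ)).comp PT.snd)⟩

end PTime

namespace ORDist

open PTime

/-- membership in NP from structured certificates -/
theorem inNP_of (hconv : ∀ V : List Bool × List Bool → Bool, PT V →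
      PolyTime pairStr (fun b : Bool => [b]) V)
    {γ : Type} [Code γ] [Dec γ] {L : Set (List Bool)} (W : List Bool × γ → Bool) (hW : PT W)
    (P : Polynomial ℕ) (h1 : ∀ x c, W (x, c) = true → x ∈ L)
    (h2 : ∀ x ∈ L, ∃ c, W (x, c) = true ∧ sz c ≤ P.eval x.length) : InNP L := by
  refine ⟨fun z => W (z.1, Dec.ofT (parseT z.2)), P, hconv _ ?_, fun x => ⟨fun hx => ?_, ?_⟩⟩
  · exact hW.comp (PT.fst.pair ((Dec.pt (γ := γ)).comp PT.snd.parseT))
  · obtain ⟨c, hc, hsz⟩ := h2 x hx
    refine ⟨enc c, hsz, ?_⟩
    show W (x, Dec.ofT (parseT (enc c))) = true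
    rw [parse_enc, Dec.ofT_toT]
    exact hc
  · rintro ⟨y, _, hy⟩
    exact h1 x _ hy

end ORDist
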