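import Pool.Agent.Work.MP_609cce_lc.OCore
import Pool.Agent.Work.MP_609cce_lc.ODefs
import Pool.Agent.Work.MP_2f1fa1_lc.PNub

/-!
# The checker of certificates is a polynomial time function
-/

namespace PTime

variable {α β : Type} [Code α] [Code β]

theorem sz_sublist {l' l : List β} (h : l'.Sublist l) : sz l' ≤ sz l := by
  induction h with
  | slnil => exact le_rfl
  | cons b _ ih => rw [sz_cons]; omega
  | cons_cons b _ ih => rw [sz_cons, sz_cons]; omega

/-- membership, for any decidability instance -/
theorem PT.mem' [DecidableEq β] {l : α → List β} {b : α → β}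
    {inst : ∀ a, Decidable (b a ∈ l a)} (hl : PT l) (hb : PT b) :
    PT (fun a => @decide (b a ∈ l a) (inst a)) :=
  (PT.mem hl hb).congr fun _ => decide_eq_decide.2 Iff.rfl

end PTime

namespace ORDist

open PTime

section pt

variable {α γ : Type} [Code α] [Code γ] [DecidableEq γ]
  {V : α × List Bool → Bool} {E : α × List (List Bool) → γ}

theorem pt_stepOK (hE : PT E) :
    PT (fun w : α × List (List Bool) × Step => stepOK (fun A => E (w.1, A)) w.2.1 w.2.2) := by
  have hU : PT (fun w : α × List (List Bool) × Step => w.2.1) := PT.snd.fst'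
  have hA : PT (fun w : α × List (List Bool) × Step => w.2.2.1) := PT.snd.snd'.fst'
  have hB : PT (fun w : α × List (List Bool) × Step => w.2.2.2.1) := PT.snd.snd'.snd'.fst'
  have hu : PT (fun w : α × List (List Bool) × Step => w.2.2.2.2) := PT.snd.snd'.snd'.snd'
  have ha : PT (fun w : α × List (List Bool) × Step => w.1) := PT.fst
  have h1 := hB.isEmpty.not
  have h2 : PT (fun w : α × List (List Bool) × Step =>
      w.2.2.2.1.all fun v => decide (v ∈ w.2.1)) :=
    PT.all (p := fun x : (α × List (List Bool) × Step) × List Bool => decide (x.2 ∈ x.1.2.1)) hB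
      (PT.mem' (hU.comp PT.fst) PT.snd)
  have h3 : PT (fun w : α × List (List Bool) × Step => decide (w.2.2.2.2 ∈ w.2.2.1)) :=
    PT.mem' hA hu
  have h4 : PT (fun w : α × List (List Bool) × Step => !decide (w.2.2.2.2 ∈ w.2.2.2.1)) :=
    (PT.mem' hB hu).not
  have h5 : PT (fun w : α × List (List Bool) × Step =>
      decide (E (w.1, w.2.2.1) = E (w.1, w.2.2.2.1))) :=
    PT.eq (hE.comp (ha.pair hA)) (hE.comp (ha.pair hB))
  exact (((h1.and h2).and h3).and h4).and h5

theorem pt_applyStep (hE : PT E) :
    PT (fun w : α × List (List Bool) × Step => applyStep (fun A => E (w.1, A)) w.2.1 w.2.2) := by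
  have hU : PT (fun w : α × List (List Bool) × Step => w.2.1) := PT.snd.fst'
  have hu : PT (fun w : α × List (List Bool) × Step => w.2.2.2.2) := PT.snd.snd'.snd'.snd'
  have h1 : PT (fun w : α × List (List Bool) × Step =>
      w.2.1.filter fun v => !decide (v = w.2.2.2.2)) :=
    PT.filter (p := fun x : (α × List (List Bool) × Step) × List Bool =>
      !decide (x.2 = x.1.2.2.2.2)) hU (PT.eq PT.snd (hu.comp PT.fst)).not
  exact PT.cond (pt_stepOK hE) h1 hU

theorem applyStep_sublist {δ : Type} [DecidableEq δ] (E : List (List Bool) → δ)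
    (U : List (List Bool)) (s : Step) : (applyStep E U s).Sublist U := by
  unfold applyStep
  cases stepOK E U s with
  | false => exact List.Sublist.refl _
  | true => exact List.filter_sublist

theorem prune_sublist {δ : Type} [DecidableEq δ] (E : List (List Bool) → δ) (l : List Step) :
    ∀ U : List (List Bool), (prune E U l).Sublist U := by
  induction l with
  | nil => intro U; exact List.Sublist.refl _
  | cons s l ih => intro U; exact (ih _).trans (applyStep_sublist E U s)

theorem pt_prune (hE : PT E) :
    PT (fun w : α × List (List Bool) × List Step =>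
      prune (fun A => E (w.1, A)) w.2.1 w.2.2) := by
  have hl : PT (fun w : α × List (List Bool) × List Step => w.2.2) := PT.snd.snd'
  have hs : PT (fun w : α × List (List Bool) × List Step => w.2.1) := PT.snd.fst'
  have hg : PT (fun x : (α × List (List Bool) × List Step) × List (List Bool) × Step =>
      applyStep (fun A => E (x.1.1, A)) x.2.1 x.2.2) :=
    (pt_applyStep hE).comp (PT.fst.fst'.pair PT.snd)
  refine PT.foldl hl hs hg Polynomial.X fun w l' _ => ?_
  have h1 : sz (prune (fun A => E (w.1, A)) w.2.1 l') ≤ sz w.2.1 :=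
    sz_sublist (prune_sublist _ l' w.2.1)
  have h2 : sz w.2.1 ≤ sz w := by
    obtain ⟨a, b, c⟩ := w
    simp only [sz_pair]
    omega
  rw [Polynomial.eval_X]
  exact h1.trans h2

theorem pt_expand : PT (fun U : List (List Bool) => expand U) := by
  have h : PT (fun x : List (List Bool) × List Bool => [x.2 ++ [false], x.2 ++ [true]]) :=
    (PT.snd.append (PT.const [false])).cons ((PT.snd.append (PT.const [true])).cons (PT.const []))
  exact PT.flatMap (l := fun U : List (List Bool) => U)
    (g := fun x : List (List Bool) × List Bool => [x.2 ++ [false], x.2 ++ [true]]) PT.id h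

theorem sz_expand (U : List (List Bool)) : sz (expand U) ≤ 8 * sz U := by
  unfold expand
  induction U with
  | nil => simp [sz_nil]
  | cons u U ih =>
    rw [List.flatMap_cons]
    have h1 := sz_append [u ++ [false], u ++ [true]]
      (U.flatMap fun u => [u ++ [false], u ++ [true]])
    have h2 := sz_append u [false]
    have h3 := sz_append u [true]
    have h4 := sz_bool false
    have h5 := sz_bool true
    simp only [sz_cons, sz_nil] at h1 h2 h3 ⊢
    have h6 := sz_pos u
    omega

theorem pt_level (hV : PT V) (hE : PT E) :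
    PT (fun x : α × (Bool × List (List Bool)) × Lev =>
      level (fun u => V (x.1, u)) (fun A => E (x.1, A)) x.2.1 x.2.2) := by
  have ha : PT (fun x : α × (Bool × List (List Bool)) × Lev => x.1) := PT.fst
  have hb : PT (fun x : α × (Bool × List (List Bool)) × Lev => x.2.1.1) := PT.snd.fst'.fst'
  have hU : PT (fun x : α × (Bool × List (List Bool)) × Lev => x.2.1.2) := PT.snd.fst'.snd'
  have hr : PT (fun x : α × (Bool × List (List Bool)) × Lev => x.2.2) := PT.snd.snd'
  have hp : PT (fun x : α × (Bool × List (List Bool)) × Lev =>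
      prune (fun A => E (x.1, A)) x.2.2.1 x.2.2.2) := (pt_prune hE).comp (ha.pair hr)
  have h1 : PT (fun x : α × (Bool × List (List Bool)) × Lev => decide (x.2.1.2 = x.2.2.1)) :=
    PT.eq hU hr.fst'
  have h2 : PT (fun x : α × (Bool × List (List Bool)) × Lev =>
      (prune (fun A => E (x.1, A)) x.2.2.1 x.2.2.2).all fun u => !V (x.1, u)) :=
    PT.all (p := fun y : (α × (Bool × List (List Bool)) × Lev) × List Bool => !V (y.1.1, y.2)) hp
      (hV.comp ((ha.comp PT.fst).pair PT.snd)).not
  exact ((hb.and h1).and h2).pair (pt_expand.comp hp)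

/-- the checker is a polynomial time function -/
theorem pt_check (hV : PT V) (hE : PT E) :
    PT (fun z : α × List Lev => check (fun u => V (z.1, u)) (fun A => E (z.1, A)) z.2) := by
  have hg : PT (fun x : (α × List Lev) × (Bool × List (List Bool)) × Lev =>
      level (fun u => V (x.1.1, u)) (fun A => E (x.1.1, A)) x.2.1 x.2.2) :=
    (pt_level hV hE).comp (PT.fst.fst'.pair PT.snd)
  have h := PT.foldl (l := fun z : α × List Lev => z.2)
    (s := fun _ : α × List Lev => ((true, [[]]) : Bool × List (List Bool)))
    PT.snd (PT.const _) hg (8 * Polynomial.X + 40) (by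
      intro z l' hl'
      rcases List.eq_nil_or_concat l' with rfl | ⟨l'', r, rfl⟩
      · simp only [List.foldl_nil, Polynomial.eval_add, Polynomial.eval_mul,
          Polynomial.eval_ofNat, Polynomial.eval_X]
        have : sz ((true, [[]]) : Bool × List (List Bool)) = 7 := by decide
        omega
      · rw [List.concat_eq_append] at hl' ⊢
        rw [List.foldl_concat]
        have hr : r ∈ z.2 := hl'.subset (by simp)
        have h1 : sz r ≤ sz z.2 := sz_mem hr
        have h2 : sz z.2 ≤ sz z := by
          obtain ⟨a, b⟩ := z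
          simp only [sz_pair]
          omega
        have h3 : sz r.1 ≤ sz r := by
          obtain ⟨a, b⟩ := r
          simp only [sz_pair]
          omega
        have h4 : sz (prune (fun A => E (z.1, A)) r.1 r.2) ≤ sz r.1 :=
          sz_sublist (prune_sublist _ r.2 r.1)
        have h5 := sz_expand (prune (fun A => E (z.1, A)) r.1 r.2)
        simp only [level, sz_pair, Polynomial.eval_add, Polynomial.eval_mul,
          Polynomial.eval_ofNat, Polynomial.eval_X]
        refine (Nat.add_le_add_right (Nat.add_le_add (sz_bool _) h5) 1).trans ?_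
        omega)
  exact h.fst'

/-- the full checker: enough levels and correct -/
theorem pt_checker (hV : PT V) (hE : PT E) {n : α → ℕ} (hn : PT n) :
    PT (fun z : α × List Lev => decide (n z.1 < z.2.length) &&
      check (fun u => V (z.1, u)) (fun A => E (z.1, A)) z.2) :=
  (PT.lt (hn.comp PT.fst) PT.snd.length).and (pt_check hV hE)

end pt

/-! ### the pairing and the function `E` -/

theorem pt_pairStr : PT pairStr := by
  have h : PT (fun z : List Bool × List Bool => z.1.flatMap fun b => [true, b]) :=
    PT.flatMap (l := fun z : List Bool × List Bool => z.1)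
      (g := fun x : (List Bool × List Bool) × Bool => [true, x.2]) PT.fst
      ((PT.const true).cons (PT.snd.cons (PT.const [])))
  exact h.append ((PT.const false).cons PT.snd)

/-- the output of the distillation on the instances of the prefixes in `A` -/
theorem pt_E {S R : Type} [Code S] [Code R] {D : List S → R} {f : List Bool → S} (hD : PT D)
    (hf : PT f) : PT (fun z : List Bool × List (List Bool) =>
      D (z.2.map fun u => f (pairStr (z.1, u)))) := by
  have hg : PT (fun x : (List Bool × List (List Bool)) × List Bool => f (pairStr (x.1.1, x.2))) :=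
    hf.comp (pt_pairStr.comp (PT.fst.fst'.pair PT.snd))
  exact hD.comp (PT.map PT.snd hg)

/-! ### the size of the certificates -/

theorem sz_str (u : List Bool) : sz u ≤ 4 * u.length + 1 := by
  have := sz_list_le (l := u) (B := 3) fun b _ => sz_bool b
  omega

theorem sz_strs {A : List (List Bool)} {p m : ℕ} (h1 : A.length ≤ m)
    (h2 : ∀ u ∈ A, u.length ≤ p) : sz A ≤ m * (4 * p + 2) + 1 := by
  have := sz_list_le (l := A) (B := 4 * p + 1) fun u hu =>
    (sz_str u).trans (by have := h2 u hu; omega)
  have h3 : A.length * (4 * p + 1 + 1) ≤ m * (4 * p + 2) := Nat.mul_le_mul h1 le_rfl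
  omega

/-- the certificates have polynomial size -/
theorem sz_cert {p M : ℕ} {c : List Lev} (hc : c.length = p + 1) (h : ∀ r ∈ c, LevBd p M r) :
    sz c ≤ (p + 1) * ((2 * M + 1) * (4 * p + 2) + 1 +
      ((2 * M + 1) * (2 * ((2 * M + 1) * (4 * p + 2) + 1) + (4 * p + 1) + 2 + 1) + 1) + 1 + 1) +
      1 := by
  have key : ∀ r ∈ c, sz r ≤ (2 * M + 1) * (4 * p + 2) + 1 +
      ((2 * M + 1) * (2 * ((2 * M + 1) * (4 * p + 2) + 1) + (4 * p + 1) + 2 + 1) + 1) + 1 := by
    intro r hr
    obtain ⟨h1, h2, h3, h4⟩ := h r hr
    obtain ⟨U, l⟩ := r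
    simp only at h1 h2 h3 h4
    have e1 := sz_strs h1 h2
    have e2 : sz l ≤ (2 * M + 1) *
        (2 * ((2 * M + 1) * (4 * p + 2) + 1) + (4 * p + 1) + 2 + 1) + 1 := by
      have := sz_list_le (l := l)
        (B := 2 * ((2 * M + 1) * (4 * p + 2) + 1) + (4 * p + 1) + 2) fun s hs => by
        obtain ⟨a1, a2, a3, a4, a5⟩ := h4 s hs
        obtain ⟨A, B, u⟩ := s
        simp only at a1 a2 a3 a4 a5
        have f1 := sz_strs a1 a3
        have f2 := sz_strs a2 a4
        have f3 := sz_str u
        simp only [sz_pair]
        omega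
      have h5 : l.length * (2 * ((2 * M + 1) * (4 * p + 2) + 1) + (4 * p + 1) + 2 + 1) ≤
          (2 * M + 1) * (2 * ((2 * M + 1) * (4 * p + 2) + 1) + (4 * p + 1) + 2 + 1) :=
        Nat.mul_le_mul h3 le_rfl
      exact this.trans (Nat.add_le_add_right h5 1)
    rw [sz_pair]
    exact Nat.add_le_add_right (Nat.add_le_add e1 e2) 1
  have := sz_list_le (l := c) key
  rw [hc] at this
  exact this

/-- the certificates have polynomial size, polynomial version -/
theorem exists_cert_poly (p M : Polynomial ℕ) : ∃ P : Polynomial ℕ, ∀ (n : ℕ) (c : List Lev),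
    c.length = p.eval n + 1 → (∀ r ∈ c, LevBd (p.eval n) (M.eval n) r) → sz c ≤ P.eval n := by
  refine ⟨(p + 1) * ((2 * M + 1) * (4 * p + 2) + 1 +
      ((2 * M + 1) * (2 * ((2 * M + 1) * (4 * p + 2) + 1) + (4 * p + 1) + 2 + 1) + 1) + 1 + 1) +
      1, fun n c hc h => ?_⟩
  have := sz_cert hc h
  simpa only [Polynomial.eval_add, Polynomial.eval_mul, Polynomial.eval_ofNat,
    Polynomial.eval_one] using this

end ORDist
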