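import Pool.Agent.Work.MP_2f1fa1_lc.PNP
import Pool.Agent.Work.MP_609cce_lc.ODefs

/-!
# Verifiers in the calculus `PT` are polynomial time verifiers for Mathlib's machines
-/

open Turing

namespace PTime

open Function (update)

/-- state: (inside `y`, a data bit of `x` is expected), reversed `x`, reversed `y` -/
def upStep (s : (Bool × Bool) × List Bool × List Bool) (b : Bool) :
    (Bool × Bool) × List Bool × List Bool :=
  bif s.1.1 then (s.1, s.2.1, b :: s.2.2)
  else bif s.1.2 then ((false, false), b :: s.2.1, s.2.2)
  else bif b then ((false, true), s.2) else ((true, false), s.2)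

/-- the inverse of `pairStr` -/
def unpairS (l : List Bool) : List Bool × List Bool :=
  ((l.foldl upStep ((false, false), [], [])).2.1.reverse,
    (l.foldl upStep ((false, false), [], [])).2.2.reverse)

theorem unpairS_pairStr (z : List Bool × List Bool) : unpairS (ORDist.pairStr z) = z := by
  obtain ⟨x, y⟩ := z
  have h1 : ∀ (x X Y : List Bool), (x.flatMap fun b => [true, b]).foldl upStep
      ((false, false), X, Y) = ((false, false), x.reverse ++ X, Y) := by
    intro x
    induction x with
    | nil => intro X Y; rfl
    | cons b x ih =>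
      intro X Y
      show (x.flatMap fun b => [true, b]).foldl upStep ((false, false), b :: X, Y) = _
      rw [ih]
      simp
  have h2 : ∀ (y X Y : List Bool), y.foldl upStep ((true, false), X, Y) =
      ((true, false), X, y.reverse ++ Y) := by
    intro y
    induction y with
    | nil => intro X Y; rfl
    | cons b y ih =>
      intro X Y
      show y.foldl upStep ((true, false), X, b :: Y) = _
      rw [ih]
      simp
  have h3 : (ORDist.pairStr (x, y)).foldl upStep ((false, false), [], []) =
      ((true, false), x.reverse, y.reverse) := by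
    unfold ORDist.pairStr
    rw [List.foldl_append, h1]
    show y.foldl upStep ((true, false), x.reverse ++ [], []) = _
    rw [h2]
    simp
  unfold unpairS
  rw [h3]
  simp

theorem upStep_sz (s : (Bool × Bool) × List Bool × List Bool) (b : Bool) :
    sz (upStep s b).2 ≤ sz s.2 + 4 := by
  obtain ⟨⟨m, d⟩, X, Y⟩ := s
  have hb := sz_bool b
  cases m with
  | true =>
    show sz (X, b :: Y) ≤ sz (X, Y) + 4
    rw [sz_pair, sz_pair, sz_cons]
    omega
  | false =>
    cases d with
    | true =>
      show sz (b :: X, Y) ≤ sz (X, Y) + 4
      rw [sz_pair, sz_pair, sz_cons]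
      omega
    | false =>
      cases b with
      | true => show sz (X, Y) ≤ sz (X, Y) + 4; omega
      | false => show sz (X, Y) ≤ sz (X, Y) + 4; omega

theorem up_sz (l : List Bool) : ∀ s : (Bool × Bool) × List Bool × List Bool,
    sz (l.foldl upStep s).2 ≤ sz s.2 + 4 * l.length := by
  induction l with
  | nil => intro s; simp
  | cons b l ih =>
    intro s
    rw [List.foldl_cons, List.length_cons]
    have := ih (upStep s b)
    have := upStep_sz s b
    omega

theorem PT.unpairS {α : Type} [Code α] {f : α → List Bool} (hf : PT f) :
    PT (fun a => PTime.unpairS (f a)) := by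
  have a1 : PT (fun x : List Bool × ((Bool × Bool) × List Bool × List Bool) × Bool => x.2.1) :=
    PT.fst.comp PT.snd
  have ab : PT (fun x : List Bool × ((Bool × Bool) × List Bool × List Bool) × Bool => x.2.2) :=
    PT.snd.comp PT.snd
  have hstep : PT (fun x : List Bool × ((Bool × Bool) × List Bool × List Bool) × Bool =>
      upStep x.2.1 x.2.2) := by
    unfold upStep
    refine PT.cond (a1.fst'.fst') ?_ (PT.cond (a1.fst'.snd') ?_ (PT.cond ab ?_ ?_))
    · exact a1.fst'.pair (a1.snd'.fst'.pair (ab.cons a1.snd'.snd'))
    · exact (PT.const _).pair ((ab.cons a1.snd'.fst').pair a1.snd'.snd')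
    · exact (PT.const _).pair a1.snd'
    · exact (PT.const _).pair a1.snd'
  have h : PT (fun l : List Bool => l.foldl upStep ((false, false), [], [])) := by
    refine PT.foldl (l := fun l : List Bool => l) (s := fun _ => ((false, false), [], []))
      (g := fun x : List Bool × ((Bool × Bool) × List Bool × List Bool) × Bool =>
        upStep x.2.1 x.2.2) PT.id (PT.const _) hstep (4 * Polynomial.X + 11) ?_
    intro l l' hl'
    have h1 := up_sz l' ((false, false), [], [])
    have h2 := hl'.length_le
    have h3 := length_le_sz l
    set s := l'.foldl upStep ((false, false), [], []) with hs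
    have h4 : sz s = sz s.1 + sz s.2 + 1 := sz_pair s.1 s.2
    have h5 : sz s.1 = sz s.1.1 + sz s.1.2 + 1 := sz_pair s.1.1 s.1.2
    have h6 := sz_bool s.1.1
    have h7 := sz_bool s.1.2
    have h8 : sz (([], []) : List Bool × List Bool) = 3 := rfl
    simp only [Polynomial.eval_add, Polynomial.eval_mul, Polynomial.eval_X,
      Polynomial.eval_ofNat]
    have h1' : sz s.2 ≤ 3 + 4 * l'.length := h1
    show sz s ≤ _
    omega
  exact ((h.comp hf).snd'.fst'.reverse).pair ((h.comp hf).snd'.snd'.reverse)

/-- from the code of a truth value to a bit -/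
def outB : Prog := .cas 0 .skip .skip (.seq (.pop 0) (.seq (.pop 0) (.seq (.pop 0) (.push 0 true))))

theorem run_outB (b : Bool) : Run outB (mk [enc b]) (mk [[b]]) 8 := by
  cases b with
  | false =>
    exact (run_cas0 (l := []) rfl (run_skip _)).mono (by omega)
  | true =>
    have r1 : Run (.pop 0) (mk [[true, false, false]]) (mk [[false, false]]) 1 :=
      pop_mk (by simp) rfl
    have r2 : Run (.pop 0) (mk [[false, false]]) (mk [[false]]) 1 := pop_mk (by simp) rfl
    have r3 : Run (.pop 0) (mk [[false]]) (mk [[]]) 1 := pop_mk (by simp) rfl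
    have r4 : Run (.push 0 true) (mk [[]]) (mk [[true]]) 1 := push_mk (by simp) rfl
    exact (run_cas1 (l := [false, false]) rfl (r1.seq (r2.seq (r3.seq r4)))).mono (by omega)

/-- verifiers in the calculus are verifiers for Mathlib's machines -/
theorem PT.polyTime_verifier {V : List Bool × List Bool → Bool} (hV : PT V) :
    ORDist.PolyTime ORDist.pairStr (fun b : Bool => [b]) V := by
  have h : PT (fun l : List Bool => V (PTime.unpairS l)) := hV.comp (PT.unpairS PT.id)
  obtain ⟨p, q, hp⟩ := h
  refine PTime.compile _ _ V (.seq rawP (.seq p outB))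
    (18 * Polynomial.X + 20 + q.comp (4 * Polynomial.X + 1)) fun z => ?_
  rw [ini_eq, ini_eq]
  have h0 := hp (ORDist.pairStr z)
  simp only [unpairS_pairStr] at h0
  refine ((run_rawP (ORDist.pairStr z)).seq (h0.seq (run_outB (V z)))).mono ?_
  have h1 : sz (ORDist.pairStr z) ≤ 4 * (ORDist.pairStr z).length + 1 := by
    have := sz_list_le (l := ORDist.pairStr z) (B := 3) fun b _ => sz_bool b
    omega
  have h2 := eval_mono q h1
  simp only at h2
  simp only [Polynomial.eval_add, Polynomial.eval_mul, Polynomial.eval_X,
    Polynomial.eval_ofNat, Polynomial.eval_comp, Polynomial.eval_one]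
  omega

end PTime
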