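import Mathlib

/-!
# OR-distillation: pruning the witness-prefix tree

`E A` stands for the output of the distillation on the instances of the nodes in the list `A`,
`V u` for the verifier.
-/

namespace ORDist

/-- a pruning step `(A, B, u)` -/
abbrev Step := List (List Bool) × List (List Bool) × List Bool

section

variable {γ : Type} [DecidableEq γ] (V : List Bool → Bool) (E : List (List Bool) → γ)

/-- the step `(A, B, u)` is a correct pruning step for the list `U` -/
def stepOK (U : List (List Bool)) (s : Step) : Bool :=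
  !s.2.1.isEmpty && s.2.1.all (fun v => decide (v ∈ U)) && decide (s.2.2 ∈ s.1) &&
    !decide (s.2.2 ∈ s.2.1) && decide (E s.1 = E s.2.1)

/-- remove `u` if the step is correct -/
def applyStep (U : List (List Bool)) (s : Step) : List (List Bool) :=
  bif stepOK E U s then U.filter (fun v => !decide (v = s.2.2)) else U

/-- all steps -/
def prune (U : List (List Bool)) (l : List Step) : List (List Bool) :=
  l.foldl (applyStep E) U

/-- all children -/
def expand (U : List (List Bool)) : List (List Bool) :=
  U.flatMap fun u => [u ++ [false], u ++ [true]]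

/-- the certificate of one level: the list and the pruning steps -/
abbrev Lev := List (List Bool) × List Step

/-- check one level -/
def level (st : Bool × List (List Bool)) (r : Lev) : Bool × List (List Bool) :=
  (st.1 && decide (st.2 = r.1) && (prune E r.1 r.2).all (fun u => !V u),
    expand (prune E r.1 r.2))

/-- check a certificate -/
def check (c : List Lev) : Bool := (c.foldl (level V E) (true, [[]])).1

/-! ### soundness -/

/-- `u` is good for the witness length `p` -/
def Good (p : ℕ) (u : List Bool) : Prop := ∃ y : List Bool, u <+: y ∧ y.length ≤ p ∧ V y = true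

variable {V E}

theorem good_applyStep {p : ℕ} {P : γ → Prop}
    (hE : ∀ A : List (List Bool), A ≠ [] → (P (E A) ↔ ∃ u ∈ A, Good V p u))
    {U : List (List Bool)} (hU : ∃ u ∈ U, Good V p u) (s : Step) :
    ∃ u ∈ applyStep E U s, Good V p u := by
  unfold applyStep
  cases hs : stepOK E U s with
  | false => exact hU
  | true =>
    rw [cond_true]
    obtain ⟨A, B, w⟩ := s
    simp only [stepOK, Bool.and_eq_true, Bool.not_eq_true', List.isEmpty_eq_false_iff,
      List.all_eq_true, decide_eq_true_eq, decide_eq_false_iff_not] at hs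
    obtain ⟨⟨⟨⟨h1, h2⟩, h3⟩, h4⟩, h5⟩ := hs
    obtain ⟨u, hu, hg⟩ := hU
    by_cases huw : u = w
    · subst huw
      have hA : A ≠ [] := List.ne_nil_of_mem h3
      have : P (E A) := (hE A hA).2 ⟨u, h3, hg⟩
      rw [h5] at this
      obtain ⟨v, hv, hgv⟩ := (hE B h1).1 this
      refine ⟨v, List.mem_filter.2 ⟨h2 v hv, ?_⟩, hgv⟩
      simp only [Bool.not_eq_true', decide_eq_false_iff_not]
      rintro rfl
      exact h4 hv
    · exact ⟨u, List.mem_filter.2 ⟨hu, by simp [huw]⟩, hg⟩

theorem good_prune {p : ℕ} {P : γ → Prop}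
    (hE : ∀ A : List (List Bool), A ≠ [] → (P (E A) ↔ ∃ u ∈ A, Good V p u))
    {U : List (List Bool)} (hU : ∃ u ∈ U, Good V p u) (l : List Step) :
    ∃ u ∈ prune E U l, Good V p u := by
  induction l generalizing U with
  | nil => exact hU
  | cons s l ih => exact ih (good_applyStep hE hU s)

theorem good_expand {p : ℕ} {U : List (List Bool)} (hU : ∃ u ∈ U, Good V p u)
    (hV : ∀ u ∈ U, V u = false) : ∃ u ∈ expand U, Good V p u := by
  obtain ⟨u, hu, y, hy, hyp, hVy⟩ := hU
  obtain ⟨z, rfl⟩ := hy
  cases z with
  | nil =>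
    exfalso
    rw [List.append_nil, hV u hu] at hVy
    exact absurd hVy (by decide)
  | cons b z =>
    refine ⟨u ++ [b], ?_, u ++ b :: z, ⟨z, by simp⟩, hyp, hVy⟩
    refine List.mem_flatMap.2 ⟨u, hu, ?_⟩
    cases b <;> simp

theorem check_aux (c : List Lev) : ∀ st : Bool × List (List Bool),
    (c.foldl (level V E) st).1 = true → st.1 = true := by
  induction c with
  | nil => intro st h; exact h
  | cons r c ih =>
    intro st h
    have := ih _ h
    simp only [level, Bool.and_eq_true] at this
    exact this.1.1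

theorem mem_expand_length {k : ℕ} {U : List (List Bool)} (hU : ∀ u ∈ U, u.length = k) :
    ∀ u ∈ expand U, u.length = k + 1 := by
  intro u hu
  obtain ⟨v, hv, h⟩ := List.mem_flatMap.1 hu
  have := hU v hv
  simp only [List.mem_cons, List.not_mem_nil, or_false] at h
  rcases h with rfl | rfl <;> simp [this]

theorem applyStep_subset (U : List (List Bool)) (s : Step) : applyStep E U s ⊆ U := by
  unfold applyStep
  cases stepOK E U s with
  | false => exact List.Subset.refl _
  | true => exact fun _ h => List.mem_of_mem_filter h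

theorem prune_subset (l : List Step) : ∀ U : List (List Bool), prune E U l ⊆ U := by
  induction l with
  | nil => intro U; exact List.Subset.refl _
  | cons s l ih => intro U; exact List.Subset.trans (ih _) (applyStep_subset U s)

theorem sound_aux {p : ℕ} {P : γ → Prop}
    (hE : ∀ A : List (List Bool), A ≠ [] → (P (E A) ↔ ∃ u ∈ A, Good V p u))
    (c : List Lev) : ∀ (k : ℕ) (U : List (List Bool)),
    (∀ u ∈ U, u.length = k) → (∃ u ∈ U, Good V p u) → (c.foldl (level V E) (true, U)).1 = true →
    ∃ u : List Bool, u.length = k + c.length ∧ Good V p u := by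
  induction c with
  | nil =>
    rintro k U hk ⟨u, hu, hg⟩ _
    exact ⟨u, by simpa using hk u hu, hg⟩
  | cons r c ih =>
    intro k U hk hU h
    rw [List.foldl_cons] at h
    have h1 := check_aux c _ h
    simp only [level, Bool.true_and, Bool.and_eq_true, decide_eq_true_eq] at h1
    obtain ⟨rfl, h2⟩ := h1
    have h3 : level V E (true, r.1) r = (true, expand (prune E r.1 r.2)) := by
      simp only [level, Bool.true_and]
      rw [h2]
      simp
    rw [h3] at h
    have h4 : ∀ u ∈ prune E r.1 r.2, V u = false := by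
      intro u hu
      have := List.all_eq_true.1 h2 u hu
      simpa using this
    obtain ⟨u, hu, hg⟩ := ih (k + 1) _
      (mem_expand_length fun u hu => hk u (prune_subset _ _ hu))
      (good_expand (good_prune hE hU _) h4) h
    exact ⟨u, by simp only [List.length_cons]; omega, hg⟩

/-- soundness: a correct certificate with `p + 1` levels shows that there is no witness -/
theorem check_sound {p : ℕ} {P : γ → Prop}
    (hE : ∀ A : List (List Bool), A ≠ [] → (P (E A) ↔ ∃ u ∈ A, Good V p u))
    {c : List Lev} (hc : p < c.length) (h : check V E c = true) :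
    ¬ ∃ y : List Bool, y.length ≤ p ∧ V y = true := by
  rintro ⟨y, hy, hV⟩
  obtain ⟨u, hu, z, hz, hzp, _⟩ := sound_aux hE c 0 [[]] (by simp)
    ⟨[], by simp, y, List.nil_prefix, hy, hV⟩ h
  have := hz.length_le
  omega

/-! ### completeness -/

theorem expand_nodup {U : List (List Bool)} (hU : U.Nodup) : (expand U).Nodup := by
  unfold expand
  rw [List.nodup_flatMap]
  refine ⟨fun u _ => by simp, ?_⟩
  refine hU.imp_of_mem ?_
  intro u v _ _ huv
  simp only [Function.onFun, List.Disjoint]
  intro w hw hw'
  simp only [List.mem_cons, List.not_mem_nil, or_false] at hw hw'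
  apply huv
  rcases hw with rfl | rfl <;> rcases hw' with h | h <;>
    exact (List.append_inj' h rfl).1

theorem expand_length (U : List (List Bool)) : (expand U).length = 2 * U.length := by
  unfold expand
  induction U with
  | nil => rfl
  | cons u U ih => rw [List.flatMap_cons, List.length_append, ih]; simp; omega

/-- a collision exists -/
theorem exists_step {U : List (List Bool)} (hU : U.Nodup) {M : ℕ}
    (hM : ∃ F : Finset γ, F.card < 2 ^ M - 1 ∧ ∀ A : List (List Bool), A ⊆ U → E A ∈ F)
    (hl : M ≤ U.length) : ∃ s : Step, s.1 ⊆ U ∧ s.2.1 ⊆ U ∧ s.2.2 ∈ U ∧ s.1.Nodup ∧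
      s.2.1.Nodup ∧ stepOK E U s = true := by
  classical
  obtain ⟨F, hF, hF2⟩ := hM
  let Q : Finset (Finset (List Bool)) := U.toFinset.powerset.erase ∅
  have hQ : F.card < Q.card := by
    rw [Finset.card_erase_of_mem (Finset.empty_mem_powerset _), Finset.card_powerset,
      List.toFinset_card_of_nodup hU]
    have : 2 ^ M ≤ 2 ^ U.length := Nat.pow_le_pow_right (by norm_num) hl
    omega
  have hsub : ∀ S ∈ Q, S.toList ⊆ U := by
    intro S hS u hu
    have h1 := (Finset.mem_erase.1 hS).2
    have := Finset.mem_powerset.1 h1 (Finset.mem_toList.1 hu)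
    exact List.mem_toFinset.1 this
  obtain ⟨S, hS, T, hT, hne, heq⟩ := Finset.exists_ne_map_eq_of_card_lt_of_maps_to hQ
    (f := fun S : Finset (List Bool) => E S.toList) (fun S hS => hF2 _ (hsub S hS))
  have main : ∀ S ∈ Q, ∀ T ∈ Q, E S.toList = E T.toList → (∃ u ∈ S, u ∉ T) →
      ∃ s : Step, s.1 ⊆ U ∧ s.2.1 ⊆ U ∧ s.2.2 ∈ U ∧ s.1.Nodup ∧
      s.2.1.Nodup ∧ stepOK E U s = true := by
    rintro S hS T hT heq ⟨u, hu, hu'⟩
    have hTne : T.toList ≠ [] := by
      intro h
      rw [Finset.toList_eq_nil] at h
      exact (Finset.mem_erase.1 hT).1 h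
    refine ⟨(S.toList, T.toList, u), hsub S hS, hsub T hT, hsub S hS (Finset.mem_toList.2 hu),
      S.nodup_toList, T.nodup_toList, ?_⟩
    simp only [stepOK, Bool.and_eq_true, Bool.not_eq_true', List.isEmpty_eq_false_iff,
      List.all_eq_true, decide_eq_true_eq, decide_eq_false_iff_not, Finset.mem_toList]
    exact ⟨⟨⟨⟨hTne, fun v hv => hsub T hT (Finset.mem_toList.2 hv)⟩, hu⟩, hu'⟩, heq⟩
  by_cases h : ∃ u ∈ S, u ∉ T
  · exact main S hS T hT heq h
  · refine main T hT S hS heq.symm ?_
    by_contra h'
    push Not at h h'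
    exact hne (Finset.Subset.antisymm h h')

theorem filter_length_lt {U : List (List Bool)} (hU : U.Nodup) {u : List Bool} (hu : u ∈ U) :
    (U.filter (fun v => !decide (v = u))).length + 1 = U.length := by
  have h1 : U.filter (fun v => !decide (v = u)) = U.erase u := by
    rw [hU.erase_eq_filter]
    congr 1
    funext x
    by_cases h : x = u <;> simp [h]
  rw [h1, List.length_erase_of_mem hu]
  have := List.length_pos_of_mem hu
  omega

/-- pruning down to fewer than `M` members -/
theorem exists_prune {M : ℕ} : ∀ (n : ℕ) (U : List (List Bool)), U.Nodup → U.length ≤ n →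
    (∃ F : Finset γ, F.card < 2 ^ M - 1 ∧ ∀ A : List (List Bool), A ⊆ U → E A ∈ F) →
    ∃ l : List Step, (prune E U l).length ≤ M ∧ (prune E U l).Nodup ∧ l.length ≤ n ∧
      ∀ s ∈ l, s.1 ⊆ U ∧ s.2.1 ⊆ U ∧ s.2.2 ∈ U ∧ s.1.Nodup ∧ s.2.1.Nodup := by
  intro n
  induction n with
  | zero =>
    intro U hU hn _
    refine ⟨[], ?_, hU, by simp, by simp⟩
    show U.length ≤ M
    omega
  | succ n ih =>
    intro U hU hn hF
    by_cases hM : U.length ≤ M
    · exact ⟨[], hM, hU, by simp, by simp⟩
    · obtain ⟨s, h1, h2, h3, h4, h5, hs⟩ := exists_step hU hF (by omega)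
      set U' := U.filter (fun v => !decide (v = s.2.2)) with hU'
      have e : applyStep E U s = U' := by unfold applyStep; rw [hs, cond_true]
      have hlen : U'.length + 1 = U.length := filter_length_lt hU h3
      have hsub : U' ⊆ U := fun _ h => List.mem_of_mem_filter h
      obtain ⟨l, hl1, hl2, hl3, hl4⟩ := ih U' (hU.filter _) (by omega) (by
        obtain ⟨F, hF1, hF2⟩ := hF
        exact ⟨F, hF1, fun A hA => hF2 A (List.Subset.trans hA hsub)⟩)
      refine ⟨s :: l, ?_, ?_, by simpa using hl3, ?_⟩
      · show (prune E (applyStep E U s) l).length ≤ M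
        rwa [e]
      · show (prune E (applyStep E U s) l).Nodup
        rwa [e]
      · intro s' hs'
        rcases List.mem_cons.1 hs' with rfl | hs'
        · exact ⟨h1, h2, h3, h4, h5⟩
        · obtain ⟨a1, a2, a3, a4, a5⟩ := hl4 s' hs'
          exact ⟨List.Subset.trans a1 hsub, List.Subset.trans a2 hsub, hsub a3, a4, a5⟩

/-- what we know about the levels of the certificate -/
def LevBd (p M : ℕ) (r : Lev) : Prop :=
  r.1.length ≤ 2 * M + 1 ∧ (∀ u ∈ r.1, u.length ≤ p) ∧ r.2.length ≤ 2 * M + 1 ∧
    ∀ s ∈ r.2, s.1.length ≤ 2 * M + 1 ∧ s.2.1.length ≤ 2 * M + 1 ∧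
      (∀ u ∈ s.1, u.length ≤ p) ∧ (∀ u ∈ s.2.1, u.length ≤ p) ∧ s.2.2.length ≤ p

theorem complete_aux {p M : ℕ} (hV : ∀ y : List Bool, y.length ≤ p → V y = false)
    (hF : ∃ F : Finset γ, F.card < 2 ^ M - 1 ∧ ∀ A : List (List Bool),
      (∀ u ∈ A, u.length ≤ p) → E A ∈ F) :
    ∀ (j k : ℕ) (U : List (List Bool)), k + j = p + 1 → (∀ u ∈ U, u.length = k) → U.Nodup →
      U.length ≤ 2 * M + 1 → ∃ c : List Lev, c.length = j ∧
        (c.foldl (level V E) (true, U)).1 = true ∧ ∀ r ∈ c, LevBd p M r := by
  intro j
  induction j with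
  | zero => intro k U _ _ _ _; exact ⟨[], rfl, rfl, by simp⟩
  | succ j ih =>
    intro k U hk hU hnd hlen
    have hkp : k ≤ p := by omega
    have hUp : ∀ u ∈ U, u.length ≤ p := fun u hu => by rw [hU u hu]; exact hkp
    obtain ⟨l, hl1, hl2, hl3, hl4⟩ := exists_prune (E := E) (M := M) _ U hnd hlen (by
      obtain ⟨F, hF1, hF2⟩ := hF
      exact ⟨F, hF1, fun A hA => hF2 A fun u hu => hUp u (hA hu)⟩)
    have hsub := prune_subset (E := E) l U
    obtain ⟨c, hc1, hc2, hc3⟩ := ih (k + 1) (expand (prune E U l)) (by omega)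
      (mem_expand_length fun u hu => hU u (hsub hu)) (expand_nodup hl2)
      (by rw [expand_length]; omega)
    refine ⟨(U, l) :: c, by simp [hc1], ?_, ?_⟩
    · rw [List.foldl_cons]
      have h2 : (prune E U l).all (fun u => !V u) = true := by
        rw [List.all_eq_true]
        intro u hu
        rw [hV u (hUp u (hsub hu))]
        rfl
      have h3 : level V E (true, U) (U, l) = (true, expand (prune E U l)) := by
        simp only [level, Bool.true_and]
        rw [h2]
        simp
      rw [h3]
      exact hc2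
    · intro r hr
      rcases List.mem_cons.1 hr with rfl | hr
      · refine ⟨hlen, hUp, hl3, fun s hs => ?_⟩
        obtain ⟨a1, a2, a3, a4, a5⟩ := hl4 s hs
        refine ⟨?_, ?_, fun u hu => hUp u (a1 hu), fun u hu => hUp u (a2 hu), hUp _ a3⟩
        · exact ((a4.subperm a1).length_le).trans hlen
        · exact ((a5.subperm a2).length_le).trans hlen
      · exact hc3 r hr

/-- completeness: if there is no witness then there is a short certificate -/
theorem check_complete {p M : ℕ} (hV : ∀ y : List Bool, y.length ≤ p → V y = false)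
    (hF : ∃ F : Finset γ, F.card < 2 ^ M - 1 ∧ ∀ A : List (List Bool),
      (∀ u ∈ A, u.length ≤ p) → E A ∈ F) :
    ∃ c : List Lev, c.length = p + 1 ∧ check V E c = true ∧ ∀ r ∈ c, LevBd p M r :=
  complete_aux hV hF (p + 1) 0 [[]] (by omega) (by simp) (by simp) (by simp)

end

end ORDist
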