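import Pool.Agent.Work.MP_609cce_lc.OMain

/-!
# OR-compression to `O(log n)` symbols per instance implies NP = coNP

`n` is the maximal length of the instances; the number `m (n)` of instances is arbitrary between `1`
and a polynomial in `n`.
-/

namespace ORDist

open PTime Turing Pool.Agent.Work.MP_609cce_lc.Ord

attribute [local instance] finCode

/-- `D` is a polynomial time OR-compression of `R` into `R'` to `O(log n)` symbols per instance: for
some polynomially bounded `m (n) ≥ 1`, sequences of exactly `m (n)` strings of length at most `n` are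
mapped to strings of length at most `c · m (n) · (log n + 1)` -/
structure ORCompressionLog {S : Type} (R R' : Set (List S)) (D : List (List S) → List S) :
    Prop where
  /-- `D` is computed in time polynomial in the number and the lengths of the strings -/
  polyTime : PolyTime seqStr (fun x => x) D
  /-- a length bound for the output on `m (n)` strings of length at most `n` -/
  short : ∃ (c : ℕ) (m : ℕ → ℕ) (p : Polynomial ℕ), ∀ n : ℕ, 1 ≤ m n ∧ m n ≤ p.eval n ∧
    ∀ xs : List (List S), xs.length = m n → (∀ x ∈ xs, x.length ≤ n) →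
      (D xs).length ≤ c * m n * (Nat.log 2 n + 1)
  /-- the output computes the OR -/
  correct : ∀ xs : List (List S), xs ≠ [] → (D xs ∈ R' ↔ ∃ x ∈ xs, x ∈ R)

/-- number of members of a list which force a collision -/
def needT (card t m : ℕ) : ℕ := m * ((card + 1) ^ t + 1)

/-- compression of `m` instances to `t m` symbols has collisions -/
theorem exists_collision_t {β Sg : Type} [DecidableEq β] [Fintype Sg] (G : List β → List Sg)
    (t m : ℕ) (hm : 1 ≤ m) (cur : List β) (hnd : cur.Nodup)
    (hlen : needT (Fintype.card Sg) t m ≤ cur.length)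
    (hG : ∀ S : List β, S ⊆ cur → S.length = m → (G S).length ≤ t * m) :
    ∃ (S T : List β) (u : β), S ⊆ cur ∧ T ⊆ cur ∧ S.length = m ∧ T.length = m ∧ S.Nodup ∧
      T.Nodup ∧ u ∈ S ∧ u ∉ T ∧ G S = G T := by
  refine exists_collision G cur hnd m _ hG ?_
  calc (Fintype.card Sg + 1) ^ (t * m)
      = ((Fintype.card Sg + 1) ^ t) ^ m := by rw [← pow_mul]
    _ < ((Fintype.card Sg + 1) ^ t + 1) ^ m :=
        Nat.pow_lt_pow_left (Nat.lt_succ_self _) (by omega)
    _ ≤ (m * ((Fintype.card Sg + 1) ^ t + 1)).choose m := pow_le_choose_mul _ _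
    _ ≤ cur.length.choose m := Nat.choose_le_choose m hlen

/-- the bound for `t = c (log n + 1)` is polynomial in `n` -/
theorem needT_poly (card c : ℕ) (P n0 : Polynomial ℕ) : ∃ Q : Polynomial ℕ, ∀ n m : ℕ,
    m ≤ P.eval n → needT card (c * (Nat.log 2 (n0.eval n) + 1)) m ≤ Q.eval n := by
  refine ⟨P * ((2 * (n0 + 1)) ^ ((Nat.log 2 (card + 1) + 1) * c) + 1), fun n m hmn => ?_⟩
  unfold needT
  simp only [Polynomial.eval_mul, Polynomial.eval_add, Polynomial.eval_pow,
    Polynomial.eval_one, Polynomial.eval_ofNat]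
  refine Nat.mul_le_mul hmn (Nat.add_le_add_right ?_ 1)
  have h1 : card + 1 ≤ 2 ^ (Nat.log 2 (card + 1) + 1) :=
    (Nat.lt_pow_succ_log_self (by norm_num) _).le
  have h2 : 2 ^ (Nat.log 2 (n0.eval n) + 1) ≤ 2 * (n0.eval n + 1) := by
    rw [pow_succ, mul_comm]
    refine Nat.mul_le_mul_left _ ?_
    rcases Nat.eq_zero_or_pos (n0.eval n) with h0 | h0
    · rw [h0]; simp
    · exact (Nat.pow_log_le_self 2 (by omega)).trans (Nat.le_succ _)
  calc (card + 1) ^ (c * (Nat.log 2 (n0.eval n) + 1))
      ≤ (2 ^ (Nat.log 2 (card + 1) + 1)) ^ (c * (Nat.log 2 (n0.eval n) + 1)) :=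
        Nat.pow_le_pow_left h1 _
    _ = (2 ^ (Nat.log 2 (n0.eval n) + 1)) ^ ((Nat.log 2 (card + 1) + 1) * c) := by
        rw [← pow_mul, ← pow_mul]; ring_nf
    _ ≤ (2 * (n0.eval n + 1)) ^ ((Nat.log 2 (card + 1) + 1) * c) := Nat.pow_le_pow_left h2 _

/-- completeness for compressions of `m` instances to `t m` symbols -/
theorem check_complete_t {S : Type} [Fintype S] [DecidableEq S] {V : List Bool → Bool}
    {E : List (List Bool) → List S} {p t m : ℕ} (hm : 1 ≤ m)
    (hV : ∀ y : List Bool, y.length ≤ p → V y = false)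
    (hE : ∀ A : List (List Bool), (∀ u ∈ A, u.length ≤ p) → A.length = m →
      (E A).length ≤ t * m) :
    ∃ cert : List Lev, cert.length = p + 1 ∧ check V E cert = true ∧ ∀ r ∈ cert,
      LevBd p (needT (Fintype.card S) t m) r := by
  refine check_complete' hV fun U hU hp hl => ?_
  obtain ⟨A, B, u, h1, h2, h3, h4, h5, h6, h7, h8, h9⟩ :=
    exists_collision_t E t m hm U hU hl
      (fun A hA hl => hE A (fun u hu => hp u (hA hu)) hl)
  have hB : B ≠ [] := by
    intro h
    rw [h, List.length_nil] at h4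
    omega
  refine ⟨(A, B, u), h1, h2, h1 h7, h5, h6, ?_⟩
  simp only [stepOK, Bool.and_eq_true, Bool.not_eq_true', List.isEmpty_eq_false_iff,
    List.all_eq_true, decide_eq_true_eq, decide_eq_false_iff_not]
  exact ⟨⟨⟨⟨hB, fun v hv => h2 hv⟩, h7⟩, h8⟩, h9⟩

/-- an OR-compression of an NP-hard language to `O(log n)` symbols per instance implies NP = coNP -/
theorem np_eq_conp_log {S : Type} [Finite S] [Nonempty S] {R R' : Set (List S)} (hR : NPHard R)
    {D : List (List S) → List S} (hD : ORCompressionLog R R' D) : NPeqCoNP := by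
  classical
  rintro L ⟨V, p, hV0, hL⟩
  have : Inhabited S := Classical.inhabited_of_nonempty inferInstance
  have := Fintype.ofFinite S
  -- the given machines are in the calculus
  have hV : PT V := by
    have h : PT (fun z : List Bool × List Bool => [V z]) := PT.ofTM2 hV0.some pt_pairStr
    exact (h.headD (PT.const false)).congr fun z => rfl
  obtain ⟨f, hf0, hf⟩ := hR _ (prefix_inNP hV p)
  have hf1 : PT f := PT.ofTM2 (ea := fun x : List Bool => x) (eb := fun x : List S => x)
    (f := f) hf0.some PT.id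
  have hD1 : PT D := PT.ofTM2 (ea := seqStr) (eb := fun x : List S => x) (f := D)
    hD.polyTime.some pt_seqStr
  obtain ⟨c, m, pm, hm⟩ := hD.short
  obtain ⟨q, hq⟩ := hf1.size
  -- polynomials
  let n0 : Polynomial ℕ := q.comp (4 * (2 * Polynomial.X + 1 + p) + 1)
  have hn0 : ∀ x u : List Bool, u.length ≤ p.eval x.length →
      (f (pairStr (x, u))).length ≤ n0.eval x.length := by
    intro x u hu
    refine (length_le_sz _).trans ((hq _).trans ?_)
    have h1 := sz_str (pairStr (x, u))
    rw [pairStr_length] at h1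
    have h2 := eval_mono q (show sz (pairStr (x, u)) ≤
      4 * (2 * x.length + 1 + p.eval x.length) + 1 by omega)
    simp only [n0, Polynomial.eval_comp, Polynomial.eval_add, Polynomial.eval_mul,
      Polynomial.eval_ofNat, Polynomial.eval_X, Polynomial.eval_one]
    exact h2
  obtain ⟨Q, hQ⟩ := needT_poly (Fintype.card S) c (pm.comp n0) n0
  obtain ⟨P, hP⟩ := exists_cert_poly p Q
  have hgood : ∀ x u : List Bool, f (pairStr (x, u)) ∈ R ↔
      Good (fun u => V (x, u)) (p.eval x.length) u := by
    intro x u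
    rw [← hf]
    constructor
    · rintro ⟨x', u', e, y, h1, h2, h3⟩
      have := pairStr_injective e
      simp only [Prod.mk.injEq] at this
      obtain ⟨rfl, rfl⟩ := this
      exact ⟨y, h1, h2, h3⟩
    · rintro ⟨y, h1, h2, h3⟩
      exact ⟨x, u, rfl, y, h1, h2, h3⟩
  have hE : ∀ (x : List Bool) (A : List (List Bool)), A ≠ [] →
      (D (A.map fun u => f (pairStr (x, u))) ∈ R' ↔
        ∃ u ∈ A, Good (fun u => V (x, u)) (p.eval x.length) u) := by
    intro x A hA
    rw [hD.correct _ (by simpa using hA)]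
    constructor
    · rintro ⟨w, hw, hwR⟩
      obtain ⟨u, hu, rfl⟩ := List.mem_map.1 hw
      exact ⟨u, hu, (hgood x u).1 hwR⟩
    · rintro ⟨u, hu, hg⟩
      exact ⟨_, List.mem_map.2 ⟨u, hu, rfl⟩, (hgood x u).2 hg⟩
  refine inNP_of (fun V hV => PT.polyTime_verifier hV)
    (fun z : List Bool × List Lev => decide (p.eval z.1.length < z.2.length) &&
      check (fun u => V (z.1, u)) (fun A => D (A.map fun u => f (pairStr (z.1, u)))) z.2)
    (pt_checker hV (pt_E hD1 hf1) (PT.polyEval p (PT.length PT.id))) P ?_ ?_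
  · intro x cert h hx
    simp only [Bool.and_eq_true, decide_eq_true_eq] at h
    obtain ⟨h1, h2⟩ := h
    obtain ⟨y, hy, hVy⟩ := (hL x).1 hx
    exact check_sound (P := fun w => w ∈ R') (hE x) h1 h2 ⟨y, hy, hVy⟩
  · intro x hx
    have hVf : ∀ y : List Bool, y.length ≤ p.eval x.length → V (x, y) = false := by
      intro y hy
      cases hv : V (x, y) with
      | false => rfl
      | true => exact absurd ((hL x).2 ⟨y, hy, hv⟩) hx
    obtain ⟨hm1, hm2, hm3⟩ := hm (n0.eval x.length)
    obtain ⟨cert, hc1, hc2, hc3⟩ := check_complete_t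
      (E := fun A : List (List Bool) => D (A.map fun u => f (pairStr (x, u))))
      (V := fun u => V (x, u)) (p := p.eval x.length)
      (t := c * (Nat.log 2 (n0.eval x.length) + 1)) hm1 hVf (by
        intro A hA hl
        have h1 := hm3 (A.map fun u => f (pairStr (x, u))) (by rw [List.length_map, hl])
          fun w hw => by
            obtain ⟨u, hu, rfl⟩ := List.mem_map.1 hw
            exact hn0 x u (hA u hu)
        refine h1.trans (le_of_eq ?_)
        ring)
    have hM := hQ x.length (m (n0.eval x.length)) (hm2.trans_eq Polynomial.eval_comp.symm)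
    refine ⟨cert, ?_, hP _ _ hc1 fun r hr => (hc3 r hr).mono hM⟩
    simp only [Bool.and_eq_true, decide_eq_true_eq]
    exact ⟨by omega, hc2⟩

/-- a bound for logarithms of polynomials -/
theorem log_poly (p : Polynomial ℕ) : ∃ a : ℕ, ∀ n : ℕ,
    Nat.log 2 (p.eval n) + 1 ≤ a * (Nat.log 2 n + 1) := by
  refine ⟨p.natDegree + Nat.log 2 (p.eval 1) + 2, fun n => ?_⟩
  set l := Nat.log 2 n + 1 with hl
  have h1 : n + 1 ≤ 2 ^ l := Nat.lt_pow_succ_log_self (by norm_num) _
  have h2 : p.eval n ≤ p.eval 1 * (2 ^ l) ^ p.natDegree := by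
    rw [Polynomial.eval_eq_sum_range, Polynomial.eval_eq_sum_range, Finset.sum_mul]
    refine Finset.sum_le_sum fun i hi => ?_
    rw [one_pow, mul_one]
    refine Nat.mul_le_mul_left _ ?_
    rw [Finset.mem_range] at hi
    calc n ^ i ≤ (2 ^ l) ^ i := Nat.pow_le_pow_left (by omega) _
      _ ≤ (2 ^ l) ^ p.natDegree := Nat.pow_le_pow_right (by positivity) (by omega)
  have h3 : p.eval 1 < 2 ^ (Nat.log 2 (p.eval 1) + 1) := Nat.lt_pow_succ_log_self (by norm_num) _
  have h4 : p.eval n < 2 ^ (Nat.log 2 (p.eval 1) + 1 + l * p.natDegree) := by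
    rw [pow_add, pow_mul]
    exact h2.trans_lt (Nat.mul_lt_mul_of_pos_right h3 (by positivity))
  have h5 : Nat.log 2 (p.eval n) < Nat.log 2 (p.eval 1) + 1 + l * p.natDegree :=
    Nat.log_lt_of_lt_pow' (by omega) h4
  have hl1 : 1 ≤ l := by omega
  nlinarith [Nat.zero_le (Nat.log 2 (p.eval 1)), Nat.zero_le p.natDegree]

/-- a compression to `O(m log m)` symbols is a compression to `O(log n)` symbols per instance -/
theorem ORCompression.toLog {S : Type} {R R' : Set (List S)} {D : List (List S) → List S}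
    (h : ORCompression R R' D) : ORCompressionLog R R' D := by
  obtain ⟨c, m, p, hm⟩ := h.short
  obtain ⟨a, ha⟩ := log_poly p
  refine ⟨h.polyTime, ⟨c * a, m, p, fun n => ⟨(hm n).1, (hm n).2.1, fun xs hxs hx => ?_⟩⟩, h.correct⟩
  refine ((hm n).2.2 xs hxs hx).trans ?_
  have h1 : Nat.log 2 (m n) + 1 ≤ a * (Nat.log 2 n + 1) :=
    (Nat.add_le_add_right (Nat.log_mono_right (hm n).2.1) 1).trans (ha n)
  calc c * m n * (Nat.log 2 (m n) + 1) ≤ c * m n * (a * (Nat.log 2 n + 1)) :=
        Nat.mul_le_mul_left _ h1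
    _ = c * a * m n * (Nat.log 2 n + 1) := by ring

end ORDist
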