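import Pool.Agent.Work.MP_609cce_lc.OConv

/-!
# The prefix language of an NP verifier is in NP
-/

open Turing PTime

namespace ORDist

theorem length_pairStr (x y : List Bool) :
    (pairStr (x, y)).length = 2 * x.length + 1 + y.length := by
  unfold pairStr
  simp only [List.length_append, List.length_flatMap, List.length_cons, List.length_nil,
    List.map_const', List.sum_replicate, smul_eq_mul]
  ring

theorem pairStr_injective : Function.Injective pairStr := fun z z' h => by
  rw [← unpairS_pairStr z, h, unpairS_pairStr]

/-- the function `pairStr` is polynomial time -/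
theorem pt_pairStr_comp {α : Type} [Code α] {f g : α → List Bool} (hf : PT f) (hg : PT g) :
    PT (fun a => pairStr (f a, g a)) := by
  have h1 : PT (fun a => (f a).flatMap fun b => [true, b]) :=
    PT.flatMap (g := fun x : α × Bool => [true, x.2]) hf
      ((PT.const true).cons (PT.snd.cons (PT.const [])))
  exact h1.append ((PT.const false).cons hg)

/-- a language with a verifier in the calculus is in NP -/
theorem inNP_of_PT {L : Set (List Bool)} {V : List Bool × List Bool → Bool} (h : PT V)
    (p : Polynomial ℕ)
    (hL : ∀ x : List Bool, x ∈ L ↔ ∃ y : List Bool, y.length ≤ p.eval x.length ∧ V (x, y) = true) :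
    InNP L := ⟨V, p, h.polyTime_verifier, hL⟩

theorem PT_prefix {α β : Type} [Code α] [Code β] [DecidableEq β] {f g : α → List β}
    (hf : PT f) (hg : PT g) : PT (fun a => decide (f a <+: g a)) := by
  have h1 : PT (fun a => decide ((g a).length < (f a).length)) := PT.lt hg.length hf.length
  have h2 : PT (fun a => ((g a).reverse.drop ((g a).length - (f a).length)).reverse) :=
    (PT.drop hg.reverse (hg.length.sub hf.length)).reverse
  refine (h1.not.and (PT.eq h2 hf)).congr fun a => ?_
  rw [Bool.eq_iff_iff]
  simp only [Bool.and_eq_true, Bool.not_eq_true', decide_eq_false_iff_not, decide_eq_true_eq,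
    not_lt]
  constructor
  · rintro ⟨h, h'⟩
    rw [← h', List.drop_reverse, List.reverse_reverse]
    exact List.take_prefix _ _
  · intro h
    refine ⟨h.length_le, ?_⟩
    rw [List.drop_reverse, List.reverse_reverse]
    have : (g a).length - ((g a).length - (f a).length) = (f a).length := by
      have := h.length_le
      omega
    rw [this]
    exact (List.prefix_iff_eq_take.1 h).symm

/-- the prefix language is in NP -/
theorem prefix_inNP {V : List Bool × List Bool → Bool} (hV : PT V) (p : Polynomial ℕ) :
    InNP {w | ∃ x u, w = pairStr (x, u) ∧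
      ∃ y : List Bool, u <+: y ∧ y.length ≤ p.eval x.length ∧ V (x, y) = true} := by
  classical
  have hw : PT (fun z : List Bool × List Bool => z.1) := PT.fst
  have hy : PT (fun z : List Bool × List Bool => z.2) := PT.snd
  have hu : PT (fun z : List Bool × List Bool => unpairS z.1) := PT.unpairS hw
  have h1 : PT (fun z : List Bool × List Bool => decide (pairStr (unpairS z.1) = z.1)) :=
    PT.eq (pt_pairStr_comp hu.fst' hu.snd') hw
  have h2 : PT (fun z : List Bool × List Bool => decide ((unpairS z.1).2 <+: z.2)) :=
    PT_prefix hu.snd' hy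
  have h3 : PT (fun z : List Bool × List Bool =>
      decide (z.2.length ≤ p.eval (unpairS z.1).1.length)) :=
    PT.le hy.length (PT.polyEval p hu.fst'.length)
  have h4 : PT (fun z : List Bool × List Bool => V ((unpairS z.1).1, z.2)) :=
    hV.comp (hu.fst'.pair hy)
  refine inNP_of_PT (h1.and (h2.and (h3.and h4))) p fun w => ?_
  constructor
  · rintro ⟨x, u, rfl, y, hy1, hy2, hy3⟩
    refine ⟨y, hy2.trans (eval_mono p ?_), ?_⟩
    · rw [length_pairStr]; omega
    · simp only [unpairS_pairStr, decide_true, Bool.true_and, Bool.and_eq_true,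
        decide_eq_true_eq]
      exact ⟨hy1, hy2, hy3⟩
  · rintro ⟨y, _, hy⟩
    simp only [Bool.and_eq_true, decide_eq_true_eq] at hy
    obtain ⟨e, hy1, hy2, hy3⟩ := hy
    exact ⟨(unpairS w).1, (unpairS w).2, e.symm, y, hy1, hy2, hy3⟩

/-- membership in the prefix language -/
theorem mem_prefix {V : List Bool × List Bool → Bool} {p : Polynomial ℕ} {x u : List Bool} :
    pairStr (x, u) ∈ {w | ∃ x u, w = pairStr (x, u) ∧
      ∃ y : List Bool, u <+: y ∧ y.length ≤ p.eval x.length ∧ V (x, y) = true} ↔
    ∃ y : List Bool, u <+: y ∧ y.length ≤ p.eval x.length ∧ V (x, y) = true := by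
  constructor
  · rintro ⟨x', u', h, h'⟩
    have := pairStr_injective h
    rw [Prod.mk.injEq] at this
    rw [this.1, this.2]
    exact h'
  · exact fun h => ⟨x, u, rfl, h⟩

end ORDist
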