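import Mathlib

/-!
# Collisions by the pigeonhole principle
-/

set_option autoImplicit false

namespace Pool.Agent.Work.MP_609cce_lc.Ord

open Finset

/-- `a ^ m ≤ choose (m * a) m` -/
theorem pow_le_choose_mul (m a : ℕ) : a ^ m ≤ (m * a).choose m := by
  classical
  have h1 : (univ : Finset (Fin m → Fin a)).card ≤
      (powersetCard m (univ : Finset (Fin m × Fin a))).card := by
    refine card_le_card_of_injOn (fun f => univ.image fun i => (i, f i)) ?_ ?_
    · intro f _
      rw [mem_coe, mem_powersetCard]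
      refine ⟨subset_univ _, ?_⟩
      rw [card_image_of_injective _ (fun i j h => (Prod.mk.inj h).1)]
      simp
    · intro f _ g _ h
      funext i
      have h2 : (i, f i) ∈ univ.image fun i => (i, g i) := by
        have h' : (univ.image fun i => (i, f i)) = univ.image fun i => (i, g i) := h
        rw [← h']
        exact mem_image_of_mem _ (mem_univ i)
      obtain ⟨j, _, hj⟩ := mem_image.1 h2
      have h3 := Prod.mk.inj hj
      rw [← h3.2, h3.1]
  rw [card_powersetCard, card_univ, card_univ, Fintype.card_fun, Fintype.card_prod] at h1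
  simpa using h1

/-- two different `m`-subsets of `cur` with the same value -/
theorem exists_collision {β Sg : Type} [DecidableEq β] [Fintype Sg] (G : List β → List Sg)
    (cur : List β) (hnd : cur.Nodup) (m b : ℕ)
    (hG : ∀ S : List β, S ⊆ cur → S.length = m → (G S).length ≤ b)
    (hcard : (Fintype.card Sg + 1) ^ b < cur.length.choose m) :
    ∃ (S T : List β) (u : β), S ⊆ cur ∧ T ⊆ cur ∧ S.length = m ∧ T.length = m ∧ S.Nodup ∧
      T.Nodup ∧ u ∈ S ∧ u ∉ T ∧ G S = G T := by
  classical
  have h0 : (univ : Finset (Fin b → Option Sg)).card <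
      (powersetCard m cur.toFinset).card := by
    rw [card_powersetCard, List.toFinset_card_of_nodup hnd, card_univ, Fintype.card_fun]
    simpa using hcard
  obtain ⟨s, hs, t, ht, hne, he⟩ := exists_ne_map_eq_of_card_lt_of_maps_to h0
    (f := fun s : Finset β => fun i : Fin b => (G s.toList)[i.1]?) (fun _ _ => mem_univ _)
  have hsub : ∀ s ∈ powersetCard m cur.toFinset, s.toList ⊆ cur ∧ s.toList.length = m := by
    intro s hs
    rw [mem_powersetCard] at hs
    refine ⟨fun u hu => ?_, by rw [length_toList]; exact hs.2⟩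
    exact List.mem_toFinset.1 (hs.1 (mem_toList.1 hu))
  have hs' := hsub s hs
  have ht' := hsub t ht
  rw [mem_powersetCard] at hs ht
  obtain ⟨u, hu, hut⟩ : ∃ u ∈ s, u ∉ t := by
    by_contra hcon
    push Not at hcon
    exact hne (eq_of_subset_of_card_le hcon (by rw [hs.2, ht.2]))
  refine ⟨s.toList, t.toList, u, hs'.1, ht'.1, hs'.2, ht'.2, s.nodup_toList, t.nodup_toList,
    mem_toList.2 hu, fun h => hut (mem_toList.1 h), ?_⟩
  have hls := hG _ hs'.1 hs'.2
  have hlt := hG _ ht'.1 ht'.2
  refine List.ext_getElem? fun i => ?_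
  by_cases hi : i < b
  · exact congrFun he ⟨i, hi⟩
  · rw [List.getElem?_eq_none (by omega), List.getElem?_eq_none (by omega)]

/-- number of members of a list which force a collision -/
def need (card c m : ℕ) : ℕ := m * ((card + 1) ^ (c * (Nat.log 2 m + 1)) + 1)

/-- compression of `m` instances to `c m (log₂ m + 1)` symbols has collisions -/
theorem exists_collision_log {β Sg : Type} [DecidableEq β] [Fintype Sg] (G : List β → List Sg)
    (c m : ℕ) (hm : 1 ≤ m) (cur : List β) (hnd : cur.Nodup)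
    (hlen : need (Fintype.card Sg) c m ≤ cur.length)
    (hG : ∀ S : List β, S ⊆ cur → S.length = m → (G S).length ≤ c * m * (Nat.log 2 m + 1)) :
    ∃ (S T : List β) (u : β), S ⊆ cur ∧ T ⊆ cur ∧ S.length = m ∧ T.length = m ∧ S.Nodup ∧
      T.Nodup ∧ u ∈ S ∧ u ∉ T ∧ G S = G T := by
  refine exists_collision G cur hnd m _ hG ?_
  calc (Fintype.card Sg + 1) ^ (c * m * (Nat.log 2 m + 1))
      = ((Fintype.card Sg + 1) ^ (c * (Nat.log 2 m + 1))) ^ m := by
        rw [← pow_mul]; ring_nf
    _ < ((Fintype.card Sg + 1) ^ (c * (Nat.log 2 m + 1)) + 1) ^ m :=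
        Nat.pow_lt_pow_left (Nat.lt_succ_self _) (by omega)
    _ ≤ (m * ((Fintype.card Sg + 1) ^ (c * (Nat.log 2 m + 1)) + 1)).choose m :=
        pow_le_choose_mul _ _
    _ ≤ cur.length.choose m := Nat.choose_le_choose m hlen

/-- `need` is polynomially bounded -/
theorem need_le (card c m : ℕ) (hm : 1 ≤ m) :
    need card c m ≤ m * ((2 * m) ^ ((Nat.log 2 (card + 1) + 1) * c) + 1) := by
  unfold need
  refine Nat.mul_le_mul_left _ (Nat.add_le_add_right ?_ 1)
  have h1 : card + 1 ≤ 2 ^ (Nat.log 2 (card + 1) + 1) :=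
    (Nat.lt_pow_succ_log_self (by norm_num) _).le
  have h2 : 2 ^ (Nat.log 2 m + 1) ≤ 2 * m := by
    rw [pow_succ, mul_comm]
    exact Nat.mul_le_mul_left _ (Nat.pow_log_le_self 2 (by omega))
  calc (card + 1) ^ (c * (Nat.log 2 m + 1))
      ≤ (2 ^ (Nat.log 2 (card + 1) + 1)) ^ (c * (Nat.log 2 m + 1)) := Nat.pow_le_pow_left h1 _
    _ = (2 ^ (Nat.log 2 m + 1)) ^ ((Nat.log 2 (card + 1) + 1) * c) := by
        rw [← pow_mul, ← pow_mul]; ring_nf
    _ ≤ (2 * m) ^ ((Nat.log 2 (card + 1) + 1) * c) := Nat.pow_le_pow_left h2 _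

/-- the bound as a polynomial in `m` -/
theorem need_poly (card c : ℕ) (P : Polynomial ℕ) : ∃ Q : Polynomial ℕ, ∀ n m : ℕ, 1 ≤ m →
    m ≤ P.eval n → need card c m ≤ Q.eval n := by
  refine ⟨P * ((2 * P) ^ ((Nat.log 2 (card + 1) + 1) * c) + 1), fun n m hm hmn => ?_⟩
  refine (need_le card c m hm).trans ?_
  simp only [Polynomial.eval_mul, Polynomial.eval_add, Polynomial.eval_pow,
    Polynomial.eval_one, Polynomial.eval_ofNat]
  exact Nat.mul_le_mul hmn (Nat.add_le_add_right
    (Nat.pow_le_pow_left (Nat.mul_le_mul_left _ hmn) _) 1)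

end Pool.Agent.Work.MP_609cce_lc.Ord
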