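import Pool.Agent.Work.MP_609cce_lc.OCore
import Pool.Agent.Work.MP_609cce_lc.OrdColl

/-!
# Completeness of the checker from an abstract collision hypothesis
-/

namespace ORDist

section

variable {γ : Type} [DecidableEq γ] {V : List Bool → Bool} {E : List (List Bool) → γ}

/-- pruning down to at most `M` members -/
theorem exists_prune' {p M : ℕ} (hcoll : ∀ U : List (List Bool), U.Nodup →
      (∀ u ∈ U, u.length ≤ p) → M ≤ U.length → ∃ s : Step, s.1 ⊆ U ∧ s.2.1 ⊆ U ∧ s.2.2 ∈ U ∧
      s.1.Nodup ∧ s.2.1.Nodup ∧ stepOK E U s = true) :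
    ∀ (n : ℕ) (U : List (List Bool)), U.Nodup → (∀ u ∈ U, u.length ≤ p) → U.length ≤ n →
    ∃ l : List Step, (prune E U l).length ≤ M ∧ (prune E U l).Nodup ∧ l.length ≤ n ∧
      ∀ s ∈ l, s.1 ⊆ U ∧ s.2.1 ⊆ U ∧ s.2.2 ∈ U ∧ s.1.Nodup ∧ s.2.1.Nodup := by
  intro n
  induction n with
  | zero =>
    intro U hU _ hn
    refine ⟨[], ?_, hU, by simp, by simp⟩
    show U.length ≤ M
    omega
  | succ n ih =>
    intro U hU hp hn
    by_cases hM : U.length ≤ M
    · exact ⟨[], hM, hU, by simp, by simp⟩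
    · obtain ⟨s, h1, h2, h3, h4, h5, hs⟩ := hcoll U hU hp (by omega)
      set U' := U.filter (fun v => !decide (v = s.2.2)) with hU'
      have e : applyStep E U s = U' := by unfold applyStep; rw [hs, cond_true]
      have hlen : U'.length + 1 = U.length := filter_length_lt hU h3
      have hsub : U' ⊆ U := fun _ h => List.mem_of_mem_filter h
      obtain ⟨l, hl1, hl2, hl3, hl4⟩ := ih U' (hU.filter _) (fun u hu => hp u (hsub hu))
        (by omega)
      refine ⟨s :: l, ?_, ?_, by simpa using hl3, ?_⟩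
      · show (prune E (applyStep E U s) l).length ≤ M
        rwa [e]
      · show (prune E (applyStep E U s) l).Nodup
        rwa [e]
      · intro s' hs'
        rcases List.mem_cons.1 hs' with rfl | hs'
        · exact ⟨h1, h2, h3, h4, h5⟩
        · obtain ⟨a1, a2, a3, a4, a5⟩ := hl4 s' hs'
          exact ⟨List.Subset.trans a1 hsub, List.Subset.trans a2 hsub, hsub a3, a4, a5⟩

theorem complete_aux' {p M : ℕ} (hV : ∀ y : List Bool, y.length ≤ p → V y = false)
    (hcoll : ∀ U : List (List Bool), U.Nodup → (∀ u ∈ U, u.length ≤ p) → M ≤ U.length →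
      ∃ s : Step, s.1 ⊆ U ∧ s.2.1 ⊆ U ∧ s.2.2 ∈ U ∧ s.1.Nodup ∧ s.2.1.Nodup ∧
        stepOK E U s = true) :
    ∀ (j k : ℕ) (U : List (List Bool)), k + j = p + 1 → (∀ u ∈ U, u.length = k) → U.Nodup →
      U.length ≤ 2 * M + 1 → ∃ c : List Lev, c.length = j ∧
        (c.foldl (level V E) (true, U)).1 = true ∧ ∀ r ∈ c, LevBd p M r := by
  intro j
  induction j with
  | zero => intro k U _ _ _ _; exact ⟨[], rfl, rfl, by simp⟩
  | succ j ih =>
    intro k U hk hU hnd hlen
    have hkp : k ≤ p := by omega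
    have hUp : ∀ u ∈ U, u.length ≤ p := fun u hu => by rw [hU u hu]; exact hkp
    obtain ⟨l, hl1, hl2, hl3, hl4⟩ := exists_prune' hcoll _ U hnd hUp hlen
    have hsub := prune_subset (E := E) l U
    obtain ⟨c, hc1, hc2, hc3⟩ := ih (k + 1) (expand (prune E U l)) (by omega)
      (mem_expand_length fun u hu => hU u (hsub hu)) (expand_nodup hl2)
      (by rw [expand_length]; omega)
    refine ⟨(U, l) :: c, by simp [hc1], ?_, ?_⟩
    · rw [List.foldl_cons]
      have h2 : (prune E U l).all (fun u => !V u) = true := by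
        rw [List.all_eq_true]
        intro u hu
        rw [hV u (hUp u (hsub hu))]
        rfl
      have h3 : level V E (true, U) (U, l) = (true, expand (prune E U l)) := by
        simp only [level, Bool.true_and]
        rw [h2]
        simp
      rw [h3]
      exact hc2
    · intro r hr
      rcases List.mem_cons.1 hr with rfl | hr
      · refine ⟨hlen, hUp, hl3, fun s hs => ?_⟩
        obtain ⟨a1, a2, a3, a4, a5⟩ := hl4 s hs
        refine ⟨?_, ?_, fun u hu => hUp u (a1 hu), fun u hu => hUp u (a2 hu), hUp _ a3⟩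
        · exact ((a4.subperm a1).length_le).trans hlen
        · exact ((a5.subperm a2).length_le).trans hlen
      · exact hc3 r hr

/-- completeness, abstract form -/
theorem check_complete' {p M : ℕ} (hV : ∀ y : List Bool, y.length ≤ p → V y = false)
    (hcoll : ∀ U : List (List Bool), U.Nodup → (∀ u ∈ U, u.length ≤ p) → M ≤ U.length →
      ∃ s : Step, s.1 ⊆ U ∧ s.2.1 ⊆ U ∧ s.2.2 ∈ U ∧ s.1.Nodup ∧ s.2.1.Nodup ∧
        stepOK E U s = true) :
    ∃ c : List Lev, c.length = p + 1 ∧ check V E c = true ∧ ∀ r ∈ c, LevBd p M r :=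
  complete_aux' hV hcoll (p + 1) 0 [[]] (by omega) (by simp) (by simp) (by simp)

end

/-- completeness for compressions of `m` instances to `c m (log₂ m + 1)` symbols -/
theorem check_complete_log {S : Type} [Fintype S] [DecidableEq S] {V : List Bool → Bool}
    {E : List (List Bool) → List S} {p c m : ℕ} (hm : 1 ≤ m)
    (hV : ∀ y : List Bool, y.length ≤ p → V y = false)
    (hE : ∀ A : List (List Bool), (∀ u ∈ A, u.length ≤ p) → A.length = m →
      (E A).length ≤ c * m * (Nat.log 2 m + 1)) :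
    ∃ cert : List Lev, cert.length = p + 1 ∧ check V E cert = true ∧ ∀ r ∈ cert,
      LevBd p (Pool.Agent.Work.MP_609cce_lc.Ord.need (Fintype.card S) c m) r := by
  refine check_complete' hV fun U hU hp hl => ?_
  obtain ⟨A, B, u, h1, h2, h3, h4, h5, h6, h7, h8, h9⟩ :=
    Pool.Agent.Work.MP_609cce_lc.Ord.exists_collision_log E c m hm U hU hl
      (fun A hA hl => hE A (fun u hu => hp u (hA hu)) hl)
  have hB : B ≠ [] := by
    intro h
    rw [h, List.length_nil] at h4
    omega
  refine ⟨(A, B, u), h1, h2, h1 h7, h5, h6, ?_⟩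
  simp only [stepOK, Bool.and_eq_true, Bool.not_eq_true', List.isEmpty_eq_false_iff,
    List.all_eq_true, decide_eq_true_eq, decide_eq_false_iff_not]
  exact ⟨⟨⟨⟨hB, fun v hv => h2 hv⟩, h7⟩, h8⟩, h9⟩

end ORDist
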