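import Pool.Agent.Work.MP_2f1fa1_lc.PNP

/-!
# Simulation of Mathlib's polynomial time machines inside the calculus `PT`
-/

open Turing StateTransition

namespace PTime

variable {α β γ : Type} [Code α] [Code β] [Code γ]

/-! ### finite types -/

/-- the coding of a finite type by unary numbers -/
@[instance_reducible] noncomputable def finCode (F : Type) [Finite F] : Code F :=
  ⟨fun x => Code.toT ((Finite.equivFin F x).1 : ℕ), by
    intro x y h
    have h1 : ((Finite.equivFin F x).1 : ℕ) = (Finite.equivFin F y).1 := Code.inj h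
    exact (Finite.equivFin F).injective (Fin.ext h1)⟩

/-- case distinction on a finite type -/
theorem PT.finCases {F : Type} [Finite F] [Code F] {c : α → F} (hc : PT c) {h : F → α → β}
    (hh : ∀ f, PT (h f)) : PT (fun a => h (c a) a) := by
  classical
  rcases isEmpty_or_nonempty F with hF | hF
  · exact ⟨.skip, 0, fun a => (hF.false (c a)).elim⟩
  · obtain ⟨d⟩ := hF
    have := Fintype.ofFinite F
    have key : ∀ L : List F, PT (fun a => L.foldr (fun f r => if c a = f then h f a else r)
        (h d a)) := by
      intro L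
      induction L with
      | nil => exact hh d
      | cons f L ih => exact PT.ite (P := fun a => c a = f) (PT.eq hc (PT.const f)) (hh f) ih
    have e : ∀ (a : α) (L : List F), c a ∈ L →
        L.foldr (fun f r => if c a = f then h f a else r) (h d a) = h (c a) a := by
      intro a L
      induction L with
      | nil => intro h; simp at h
      | cons f L ih =>
        intro hm
        rw [List.foldr_cons]
        by_cases hf : c a = f
        · rw [if_pos hf, hf]
        · rw [if_neg hf]
          exact ih ((List.mem_cons.1 hm).resolve_left hf)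
    exact (key (Finset.univ : Finset F).toList).congr fun a => e a _ (by simp)

/-- functions on finite types -/
theorem PT.ofFinite {F : Type} [Finite F] [Code F] (g : F → β) : PT g :=
  PT.finCases (α := F) (h := fun f _ => g f) PT.id fun f => PT.const (g f)

/-! ### families of lists -/

/-- the coding of families indexed by a finite type -/
@[instance_reducible] noncomputable def famCode (K : Type) [Fintype K] (β : Type) [Code β] : Code (K → β) :=
  ⟨fun S => Code.toT ((Finset.univ : Finset K).toList.map S), by
    intro S S' h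
    have h1 : (Finset.univ : Finset K).toList.map S = (Finset.univ : Finset K).toList.map S' :=
      Code.inj h
    funext k
    exact (List.map_inj_left.1 h1) k (by simp)⟩

section fam

variable {K : Type} [Fintype K]

attribute [local instance] famCode

theorem PT.famMk {f : α → K → β} (h : ∀ k, PT (fun a => f a k)) : PT f :=
  PT.recode2 (PT.mapC (Finset.univ : Finset K).toList h) fun _ => rfl

theorem PT.famList {f : α → K → β} (h : PT f) :
    PT (fun a => (Finset.univ : Finset K).toList.map (f a)) :=
  PT.recode2 h fun _ => rfl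

theorem PT.dropC (i : ℕ) {l : α → List β} (hl : PT l) : PT (fun a => (l a).drop i) := by
  induction i with
  | zero => exact hl
  | succ i ih => exact ih.tail.congr fun a => by rw [List.tail_drop]

theorem PT.famApp {f : α → K → List β} (h : PT f) (k : K) : PT (fun a => f a k) := by
  classical
  have h1 := (PT.dropC ((Finset.univ : Finset K).toList.idxOf k) h.famList).headD
    (PT.const ([] : List β))
  refine h1.congr fun a => ?_
  rw [← List.map_drop]
  have h2 : k ∈ (Finset.univ : Finset K).toList := by simp
  have h3 := List.drop_eq_getElem_cons (List.idxOf_lt_length_iff.2 h2)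
  rw [h3, List.map_cons, List.headD_cons, List.getElem_idxOf]

theorem famSz {A : Type} [Code A] {B ℓ : ℕ} {S : K → List A} (hB : ∀ a : A, sz a ≤ B)
    (hS : ∀ k, (S k).length ≤ ℓ) : sz S ≤ Fintype.card K * (ℓ * (B + 1) + 1 + 1) + 1 := by
  have e : sz S = sz ((Finset.univ : Finset K).toList.map S) := rfl
  rw [e]
  have h := sz_list_le (l := (Finset.univ : Finset K).toList.map S) (B := ℓ * (B + 1) + 1) (by
    intro l hl
    obtain ⟨k, _, rfl⟩ := List.mem_map.1 hl
    refine (sz_list_le (B := B) fun b _ => hB b).trans ?_
    exact Nat.add_le_add_right (Nat.mul_le_mul_right _ (hS k)) 1)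
  simpa using h

theorem famLen {A : Type} [Code A] (S : K → List A) (k : K) : (S k).length ≤ sz S := by
  have e : sz S = sz ((Finset.univ : Finset K).toList.map S) := rfl
  rw [e]
  exact (length_le_sz (S k)).trans (sz_mem (List.mem_map.2 ⟨k, by simp, rfl⟩))

end fam

/-! ### machines with a finite control -/

section fm

variable {K A Q : Type} [DecidableEq K] [Fintype K]

open Function (update)

/-- relevant control states -/
abbrev FM.QT (M : FM K A Q) : Type := {q : Q // q ∈ M.Ql}

/-- relevant symbols -/
abbrev FM.AT (M : FM K A Q) : Type := {a : A // a ∈ M.Al}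

instance FM.finQT (M : FM K A Q) : Finite M.QT := by
  classical
  exact Finite.of_fintype {q : Q // q ∈ M.Ql}

instance FM.finAT (M : FM K A Q) : Finite M.AT := by
  classical
  exact Finite.of_fintype {a : A // a ∈ M.Al}

/-- the configuration of the machine -/
def FM.emb (M : FM K A Q) (c : M.QT × (K → List M.AT)) : Q × (K → List A) :=
  (c.1.1, fun k => (c.2 k).map Subtype.val)

attribute [local instance] famCode finCode

theorem emb_update (M : FM K A Q) (q : M.QT) (S : K → List M.AT) (k : K) (l : List M.AT) :
    M.emb (q, update S k l) = (q.1, update (M.emb (q, S)).2 k (l.map Subtype.val)) := by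
  unfold FM.emb
  refine Prod.ext rfl ?_
  funext k'
  by_cases h : k' = k
  · subst h; simp
  · simp [Function.update_of_ne h]

theorem PT.update {f : α → K → List β} {l : α → List β} (hf : PT f) (k : K) (hl : PT l) :
    PT (fun a => update (f a) k (l a)) := by
  refine PT.famMk fun k' => ?_
  by_cases h : k' = k
  · subst h
    exact hl.congr fun a => by simp
  · exact (hf.famApp k').congr fun a => by rw [Function.update_of_ne h]

/-- one step from a fixed control state -/
theorem FM.stepQ (M : FM K A Q) (q : M.QT) : ∃ g : (K → List M.AT) → M.QT × (K → List M.AT),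
    PT g ∧ ∀ S, M.emb (g S) = M.step (M.emb (q, S)) := by
  have hcl := M.closed q.1 q.2
  cases ha : M.act q.1 with
  | push k a q' =>
    rw [ha] at hcl
    refine ⟨fun S => (⟨q', hcl.2⟩, update S k (⟨a, hcl.1⟩ :: S k)), ?_, fun S => ?_⟩
    · exact (PT.const _).pair (PT.update PT.id k ((PT.const _).cons (PT.famApp PT.id k)))
    · rw [emb_update]
      unfold FM.step
      have : (M.emb (q, S)).1 = q.1 := rfl
      rw [this, ha]
      rfl
  | pop k f =>
    rw [ha] at hcl
    refine ⟨fun S => match S k with
      | [] => (⟨f none, hcl.1⟩, S)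
      | b :: l => (⟨f (some b.1), hcl.2 b.1 b.2⟩, update S k l), ?_, fun S => ?_⟩
    · have h1 : PT (fun S : K → List M.AT =>
          ((⟨f none, hcl.1⟩, S) : M.QT × (K → List M.AT))) := (PT.const _).pair PT.id
      have h2 : PT (fun x : (K → List M.AT) × M.AT × List M.AT =>
          ((⟨f (some x.2.1.1), hcl.2 x.2.1.1 x.2.1.2⟩, update x.1 k x.2.2) :
            M.QT × (K → List M.AT))) := by
        refine PT.pair ?_ (PT.update PT.fst k (PT.snd.comp PT.snd))
        exact (PT.ofFinite (fun b : M.AT => (⟨f (some b.1), hcl.2 b.1 b.2⟩ : M.QT))).comp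
          (PT.fst.comp PT.snd)
      refine (PT.listCases (PT.famApp PT.id k) h1 h2).congr fun S => ?_
      cases S k <;> rfl
    · have h0 : (M.emb (q, S)).1 = q.1 := rfl
      have h1 : (M.emb (q, S)).2 k = (S k).map Subtype.val := rfl
      unfold FM.step
      rw [h0, ha]
      simp only [h1]
      cases hS : S k with
      | nil =>
        simp only [List.map_nil, List.head?_nil, List.tail_nil]
        refine Prod.ext rfl ?_
        show (M.emb (q, S)).2 = update (M.emb (q, S)).2 k []
        have : (M.emb (q, S)).2 k = [] := by rw [h1, hS]; rfl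
        rw [← this, Function.update_eq_self]
      | cons b l =>
        simp only [List.map_cons, List.head?_cons, List.tail_cons]
        rw [emb_update]
        rfl
  | goto q' =>
    rw [ha] at hcl
    refine ⟨fun S => (⟨q', hcl⟩, S), (PT.const _).pair PT.id, fun S => ?_⟩
    unfold FM.step
    have : (M.emb (q, S)).1 = q.1 := rfl
    rw [this, ha]
    rfl

/-- one step -/
theorem FM.stepAll (M : FM K A Q) : ∃ g : M.QT × (K → List M.AT) → M.QT × (K → List M.AT),
    PT g ∧ ∀ c, M.emb (g c) = M.step (M.emb c) := by
  choose g hg hg' using M.stepQ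
  refine ⟨fun c => g c.1 c.2, ?_, fun c => hg' c.1 c.2⟩
  exact PT.finCases (h := fun q (c : M.QT × (K → List M.AT)) => g q c.2) PT.fst
    fun q => (hg q).comp PT.snd

/-- many steps -/
theorem FM.iterAll (M : FM K A Q) {ini : α → M.QT × (K → List M.AT)} (hini : PT ini)
    {n : α → ℕ} (hn : PT n) : ∃ g : α → M.QT × (K → List M.AT), PT g ∧
      ∀ a, M.emb (g a) = M.step^[n a] (M.emb (ini a)) := by
  obtain ⟨st, hst, hst'⟩ := M.stepAll
  have hit : ∀ (k : ℕ) (c : M.QT × (K → List M.AT)), M.emb (st^[k] c) = M.step^[k] (M.emb c) := by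
    intro k c
    induction k with
    | zero => rfl
    | succ k ih => rw [Function.iterate_succ_apply', Function.iterate_succ_apply', hst', ih]
  have hlen : ∀ (k : ℕ) (c : M.QT × (K → List M.AT)) (i : K),
      ((st^[k] c).2 i).length ≤ (c.2 i).length + k := by
    intro k c i
    have h1 := iter_length M (M.emb c) i k
    rw [← hit] at h1
    simpa [FM.emb] using h1
  obtain ⟨q, hq⟩ := hini.size
  obtain ⟨q', hq'⟩ := hn.size
  obtain ⟨B, hB⟩ : ∃ B, ∀ a : M.AT, sz a ≤ B := by
    have := Fintype.ofFinite M.AT
    exact ⟨∑ a : M.AT, sz a, fun a =>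
      Finset.single_le_sum (f := fun a : M.AT => sz a) (fun _ _ => Nat.zero_le _)
        (Finset.mem_univ a)⟩
  obtain ⟨B', hB'⟩ : ∃ B', ∀ a : M.QT, sz a ≤ B' := by
    have := Fintype.ofFinite M.QT
    exact ⟨∑ a : M.QT, sz a, fun a =>
      Finset.single_le_sum (f := fun a : M.QT => sz a) (fun _ _ => Nat.zero_le _)
        (Finset.mem_univ a)⟩
  refine ⟨fun a => st^[n a] (ini a), ?_, fun a => hit _ _⟩
  refine PT.iterate (g := fun x : α × (M.QT × (K → List M.AT)) => st x.2) hn hini
    (hst.comp PT.snd)
    ((B' : Polynomial ℕ) + ((Fintype.card K : ℕ) : Polynomial ℕ) *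
      ((q + q') * ((B : Polynomial ℕ) + 1) + 2) + 2) ?_
  intro a k hk
  show sz (st^[k] (ini a)) ≤ _
  have h1 : sz (st^[k] (ini a)) = sz (st^[k] (ini a)).1 + sz (st^[k] (ini a)).2 + 1 :=
    sz_pair _ _
  have h2 := hB' (st^[k] (ini a)).1
  have h3 : sz (ini a) = sz (ini a).1 + sz (ini a).2 + 1 := sz_pair _ _
  have h4 := hq a
  have h5 := hq' a
  rw [sz_nat] at h5
  have h6 := famSz (K := K) (S := (st^[k] (ini a)).2) (ℓ := q.eval (sz a) + q'.eval (sz a)) hB (by
    intro i
    have h7 := hlen k (ini a) i
    have h8 := famLen (ini a).2 i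
    omega)
  rw [h1]
  simp only [Polynomial.eval_add, Polynomial.eval_mul, Polynomial.eval_natCast,
    Polynomial.eval_one, Polynomial.eval_ofNat, Nat.cast_id]
  calc sz (st^[k] (ini a)).1 + sz (st^[k] (ini a)).2 + 1
      ≤ B' + (Fintype.card K * ((q.eval (sz a) + q'.eval (sz a)) * (B + 1) + 1 + 1) + 1) + 1 := by
        omega
    _ = _ := by ring

end fm

/-! ### Mathlib's machines -/

attribute [local instance] famCode finCode in
/-- every function computed by a polynomial time machine of Mathlib is in the calculus -/
theorem PT.ofTM2 {α β : Type} [Code α] {Γa Γb : Type} [Code Γa] [Finite Γa] [Code Γb]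
    [Inhabited Γb] {ea : α → List Γa} {eb : β → List Γb} {f : α → β}
    (h : TM2ComputableInPolyTime ea eb f) (hea : PT ea) : PT (fun a => eb (f a)) := by
  classical
  let tm := h.tm
  have := tm.kFin
  have := tm.ΛFin
  have := tm.σFin
  have := tm.Γk₀Fin
  let M : FM tm.K (Σ k, tm.Γ k) (Ctl tm.K tm.Γ tm.Λ tm.σ) := toFM tm.m tm.k₀
  have hM : M.act = cact tm.m := rfl
  have hq0 : Ctl.run (tm.m tm.main) tm.initialState ∈ M.Ql := by
    refine List.mem_append_left _ (List.mem_flatMap.2 ⟨_, List.mem_flatMap.2
      ⟨tm.main, by simp, self_mem_subs _⟩, List.mem_map.2 ⟨_, by simp, rfl⟩⟩)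
  have hin : ∀ o : Γa, (⟨tm.k₀, h.inputAlphabet.invFun o⟩ : Σ k, tm.Γ k) ∈ M.Al := by
    intro o
    exact List.mem_append_left _ (List.mem_map.2 ⟨_, by simp, rfl⟩)
  let D : ℕ := ∑ l : tm.Λ, dep (tm.m l)
  have hD : ∀ l, dep (tm.m l) ≤ D := fun l =>
    Finset.single_le_sum (f := fun l => dep (tm.m l)) (fun _ _ => Nat.zero_le _)
      (Finset.mem_univ l)
  -- the initial configuration
  let ini : α → M.QT × (tm.K → List M.AT) := fun a =>
    (⟨_, hq0⟩, Function.update (fun _ => []) tm.k₀
      ((ea a).map fun o => (⟨⟨tm.k₀, h.inputAlphabet.invFun o⟩, hin o⟩ : M.AT)))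
  have hini : PT ini := by
    refine (PT.const _).pair (PT.update (PT.const _) _ ?_)
    exact PT.map (g := fun x : α × Γa =>
      (⟨⟨tm.k₀, h.inputAlphabet.invFun x.2⟩, hin x.2⟩ : M.AT)) hea
      ((PT.ofFinite (fun o : Γa => (⟨⟨tm.k₀, h.inputAlphabet.invFun o⟩, hin o⟩ : M.AT))).comp
        PT.snd)
  have hn : PT (fun a => D * h.time.eval (ea a).length) :=
    (PT.const D).mul (PT.polyEval h.time hea.length)
  obtain ⟨g, hg, hg'⟩ := M.iterAll hini hn
  -- the output
  have hout : PT (fun a => ((g a).2 tm.k₁).map fun s : M.AT =>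
      match dec tm.k₁ s.1 with
      | none => (default : Γb)
      | some b => h.outputAlphabet b) := by
    have h1 : PT (fun a => (g a).2 tm.k₁) := PT.famApp (PT.snd.comp hg) tm.k₁
    exact PT.map (g := fun x : α × M.AT => match dec tm.k₁ x.2.1 with
      | none => (default : Γb)
      | some b => h.outputAlphabet b) h1 ((PT.ofFinite (fun s : M.AT =>
        match dec tm.k₁ s.1 with
        | none => (default : Γb)
        | some b => h.outputAlphabet b)).comp PT.snd)
  refine hout.congr fun a => ?_
  have E := h.outputsFun a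
  obtain ⟨j, hj, e⟩ := macro_steps tm.m M hM D hD E.steps _ _ E.evals_in_steps
  have hle : j ≤ D * h.time.eval (ea a).length :=
    hj.trans (Nat.mul_le_mul_left _ E.steps_le_m)
  have hI : M.emb (ini a) = ctlOf tm.m (initList tm (List.map h.inputAlphabet.invFun (ea a))) := by
    unfold ctlOf FM.emb
    refine Prod.ext rfl ?_
    funext k
    show (Function.update (fun _ => []) tm.k₀ ((ea a).map fun o =>
      (⟨⟨tm.k₀, h.inputAlphabet.invFun o⟩, hin o⟩ : M.AT)) k).map Subtype.val =
      ((initList tm (List.map h.inputAlphabet.invFun (ea a))).stk k).map (Sigma.mk k)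
    rw [initList_stk]
    by_cases hk : k = tm.k₀
    · subst hk
      rw [dif_pos rfl, Function.update_self]
      simp [Function.comp_def]
    · rw [dif_neg hk, Function.update_of_ne hk]
      rfl
  have hF : M.emb (g a) =
      (.halt, conv (haltList tm (List.map h.outputAlphabet.invFun (eb (f a)))).stk) := by
    rw [hg']
    have h1 : D * h.time.eval (ea a).length = (D * h.time.eval (ea a).length - j) + j := by omega
    rw [h1, Function.iterate_add_apply, hI]
    have e' : M.step^[j] (ctlOf tm.m (initList tm
        (List.map h.inputAlphabet.invFun (ea a)))) =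
        (.halt, conv (haltList tm (List.map h.outputAlphabet.invFun (eb (f a)))).stk) := e
    rw [e']
    exact halt_iter tm.m M hM _ _
  have hS : ((g a).2 tm.k₁).map Subtype.val =
      ((eb (f a)).map h.outputAlphabet.invFun).map (Sigma.mk tm.k₁) := by
    have h1 := congrFun (congrArg Prod.snd hF) tm.k₁
    have h2 : (M.emb (g a)).2 tm.k₁ = ((g a).2 tm.k₁).map Subtype.val := rfl
    rw [h2] at h1
    rw [h1]
    show ((haltList tm (List.map h.outputAlphabet.invFun (eb (f a)))).stk tm.k₁).map
      (Sigma.mk tm.k₁) = _
    rw [haltList_stk]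
  have h3 : ((g a).2 tm.k₁).map (fun s : M.AT =>
      match dec tm.k₁ s.1 with
      | none => (default : Γb)
      | some b => h.outputAlphabet b) = (((g a).2 tm.k₁).map Subtype.val).map (fun s =>
      match dec tm.k₁ s with
      | none => (default : Γb)
      | some b => h.outputAlphabet b) := by
    rw [List.map_map]
    rfl
  rw [h3, hS, List.map_map, List.map_map]
  conv_rhs => rw [← List.map_id (eb (f a))]
  refine List.map_congr_left fun b _ => ?_
  show (match dec tm.k₁ (⟨tm.k₁, h.outputAlphabet.invFun b⟩ : Σ k, tm.Γ k) with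
      | none => (default : Γb)
      | some b => h.outputAlphabet b) = b
  rw [dec_mk]
  exact h.outputAlphabet.right_inv b

end PTime
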