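import Pool.Agent.Work.MP_609cce_lc.OCore
import Pool.Agent.Work.MP_609cce_lc.OrdSim
import Pool.Agent.Work.MP_609cce_lc.OConv
import Pool.Agent.Work.MP_609cce_lc.OCert
import Pool.Agent.Work.MP_609cce_lc.OCheckPT
import Pool.Agent.Work.MP_609cce_lc.OrdColl
import Pool.Agent.Work.MP_609cce_lc.OStrong
import Pool.Agent.Work.MP_609cce_lc.OPrefix

/-!
# OR-compression of an NP-hard language implies NP = coNP: assembly
-/

namespace ORDist

open PTime Turing Pool.Agent.Work.MP_609cce_lc.Ord

attribute [local instance] finCode

theorem pt_seqStr {S : Type} [Finite S] : PT (seqStr : List (List S) → List (Option S)) := by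
  have h : PT (fun x : List (List S) × List S => x.2.map some ++ [none]) :=
    (PT.map (l := fun x : List (List S) × List S => x.2)
      (g := fun y : (List (List S) × List S) × S => some y.2) PT.snd
      ((PT.ofFinite (some : S → Option S)).comp PT.snd)).append (PT.const [none])
  exact PT.flatMap (l := fun xs : List (List S) => xs)
    (g := fun x : List (List S) × List S => x.2.map some ++ [none]) PT.id h

theorem pairStr_length (x u : List Bool) :
    (pairStr (x, u)).length = 2 * x.length + 1 + u.length := by
  have : (x.flatMap fun b => [true, b]).length = 2 * x.length := by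
    induction x with
    | nil => rfl
    | cons b x ih => rw [List.flatMap_cons, List.length_append, ih]; simp; omega
  simp only [pairStr, List.length_append, List.length_cons, this]
  omega

theorem LevBd.mono {p M M' : ℕ} {r : Lev} (h : LevBd p M r) (hM : M ≤ M') : LevBd p M' r := by
  obtain ⟨h1, h2, h3, h4⟩ := h
  refine ⟨by omega, h2, by omega, fun s hs => ?_⟩
  obtain ⟨a1, a2, a3⟩ := h4 s hs
  exact ⟨by omega, by omega, a3⟩

/-- an OR-compression of an NP-hard language implies NP = coNP -/
theorem np_eq_conp {S : Type} [Finite S] [Nonempty S] {R R' : Set (List S)} (hR : NPHard R)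
    {D : List (List S) → List S} (hD : ORCompression R R' D) : NPeqCoNP := by
  classical
  rintro L ⟨V, p, hV0, hL⟩
  have : Inhabited S := Classical.inhabited_of_nonempty inferInstance
  have := Fintype.ofFinite S
  -- the given machines are in the calculus
  have hV : PT V := by
    have h : PT (fun z : List Bool × List Bool => [V z]) := PT.ofTM2 hV0.some pt_pairStr
    exact (h.headD (PT.const false)).congr fun z => rfl
  obtain ⟨f, hf0, hf⟩ := hR _ (prefix_inNP hV p)
  have hf1 : PT f := PT.ofTM2 (ea := fun x : List Bool => x) (eb := fun x : List S => x)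
    (f := f) hf0.some PT.id
  have hD1 : PT D := PT.ofTM2 (ea := seqStr) (eb := fun x : List S => x) (f := D)
    hD.polyTime.some pt_seqStr
  obtain ⟨c, m, pm, hm⟩ := hD.short
  obtain ⟨q, hq⟩ := hf1.size
  -- polynomials
  let n0 : Polynomial ℕ := q.comp (4 * (2 * Polynomial.X + 1 + p) + 1)
  have hn0 : ∀ x u : List Bool, u.length ≤ p.eval x.length →
      (f (pairStr (x, u))).length ≤ n0.eval x.length := by
    intro x u hu
    refine (length_le_sz _).trans ((hq _).trans ?_)
    have h1 := sz_str (pairStr (x, u))
    rw [pairStr_length] at h1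
    have h2 := eval_mono q (show sz (pairStr (x, u)) ≤
      4 * (2 * x.length + 1 + p.eval x.length) + 1 by omega)
    simp only [n0, Polynomial.eval_comp, Polynomial.eval_add, Polynomial.eval_mul,
      Polynomial.eval_ofNat, Polynomial.eval_X, Polynomial.eval_one]
    exact h2
  obtain ⟨Q, hQ⟩ := need_poly (Fintype.card S) c (pm.comp n0)
  obtain ⟨P, hP⟩ := exists_cert_poly p Q
  have hgood : ∀ x u : List Bool, f (pairStr (x, u)) ∈ R ↔
      Good (fun u => V (x, u)) (p.eval x.length) u := by
    intro x u
    rw [← hf]
    constructor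
    · rintro ⟨x', u', e, y, h1, h2, h3⟩
      have := pairStr_injective e
      simp only [Prod.mk.injEq] at this
      obtain ⟨rfl, rfl⟩ := this
      exact ⟨y, h1, h2, h3⟩
    · rintro ⟨y, h1, h2, h3⟩
      exact ⟨x, u, rfl, y, h1, h2, h3⟩
  have hE : ∀ (x : List Bool) (A : List (List Bool)), A ≠ [] →
      (D (A.map fun u => f (pairStr (x, u))) ∈ R' ↔
        ∃ u ∈ A, Good (fun u => V (x, u)) (p.eval x.length) u) := by
    intro x A hA
    rw [hD.correct _ (by simpa using hA)]
    constructor
    · rintro ⟨w, hw, hwR⟩
      obtain ⟨u, hu, rfl⟩ := List.mem_map.1 hw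
      exact ⟨u, hu, (hgood x u).1 hwR⟩
    · rintro ⟨u, hu, hg⟩
      exact ⟨_, List.mem_map.2 ⟨u, hu, rfl⟩, (hgood x u).2 hg⟩
  refine inNP_of (fun V hV => PT.polyTime_verifier hV)
    (fun z : List Bool × List Lev => decide (p.eval z.1.length < z.2.length) &&
      check (fun u => V (z.1, u)) (fun A => D (A.map fun u => f (pairStr (z.1, u)))) z.2)
    (pt_checker hV (pt_E hD1 hf1) (PT.polyEval p (PT.length PT.id))) P ?_ ?_
  · intro x cert h hx
    simp only [Bool.and_eq_true, decide_eq_true_eq] at h
    obtain ⟨h1, h2⟩ := h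
    obtain ⟨y, hy, hVy⟩ := (hL x).1 hx
    exact check_sound (P := fun w => w ∈ R') (hE x) h1 h2 ⟨y, hy, hVy⟩
  · intro x hx
    have hVf : ∀ y : List Bool, y.length ≤ p.eval x.length → V (x, y) = false := by
      intro y hy
      cases hv : V (x, y) with
      | false => rfl
      | true => exact absurd ((hL x).2 ⟨y, hy, hv⟩) hx
    obtain ⟨hm1, hm2, hm3⟩ := hm (n0.eval x.length)
    obtain ⟨cert, hc1, hc2, hc3⟩ := check_complete_log
      (E := fun A : List (List Bool) => D (A.map fun u => f (pairStr (x, u))))
      (V := fun u => V (x, u)) (p := p.eval x.length) (c := c) hm1 hVf (by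
        intro A hA hl
        refine hm3 _ (by rw [List.length_map, hl]) fun w hw => ?_
        obtain ⟨u, hu, rfl⟩ := List.mem_map.1 hw
        exact hn0 x u (hA u hu))
    have hM := hQ x.length (m (n0.eval x.length)) hm1
      (hm2.trans_eq Polynomial.eval_comp.symm)
    refine ⟨cert, ?_, hP _ _ hc1 fun r hr => (hc3 r hr).mono hM⟩
    simp only [Bool.and_eq_true, decide_eq_true_eq]
    exact ⟨by omega, hc2⟩

end ORDist
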