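import Pool.Agent.Work.MP_609cce_lc.OrcDefs

/-!
# The oracles of the construction
-/

namespace ORDist

/-- bit strings -/
abbrev Str := List Bool

/-! ### strings -/

/-- a number in unary followed by the rest -/
def un (k : ℕ) (x : Str) : Str := List.replicate k true ++ false :: x

theorem un_length (k : ℕ) (x : Str) : (un k x).length = k + x.length + 1 := by
  simp [un]; omega

theorem un_inj : ∀ {k k' : ℕ} {x x' : Str}, un k x = un k' x' → k = k' ∧ x = x'
  | 0, 0, x, x', h => by simpa [un] using h
  | 0, k' + 1, x, x', h => by simp [un, List.replicate_succ] at h
  | k + 1, 0, x, x', h => by simp [un, List.replicate_succ] at h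
  | k + 1, k' + 1, x, x', h => by
    have h1 : un k x = un k' x' := by simpa [un, List.replicate_succ] using h
    obtain ⟨h2, h3⟩ := un_inj h1
    exact ⟨by rw [h2], h3⟩

theorem pairStr_cons (b : Bool) (x y : Str) : pairStr (b :: x, y) = true :: b :: pairStr (x, y) := by
  simp [pairStr]

theorem pairStr_nil (y : Str) : pairStr ([], y) = false :: y := by
  simp [pairStr]

theorem pairStr_inj' : ∀ {x x' y y' : Str}, pairStr (x, y) = pairStr (x', y') → x = x' ∧ y = y'
  | [], [], y, y', h => by simpa [pairStr_nil] using h
  | [], b :: x', y, y', h => by simp [pairStr_nil, pairStr_cons] at h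
  | b :: x, [], y, y', h => by simp [pairStr_nil, pairStr_cons] at h
  | b :: x, b' :: x', y, y', h => by
    rw [pairStr_cons, pairStr_cons] at h
    simp only [List.cons.injEq, true_and] at h
    obtain ⟨h2, h3⟩ := pairStr_inj' h.2
    exact ⟨by rw [h.1, h2], h3⟩

theorem pairStr_length' (x y : Str) : (pairStr (x, y)).length = 2 * x.length + y.length + 1 := by
  induction x with
  | nil => simp [pairStr_nil]
  | cons b x ih => rw [pairStr_cons, List.length_cons, List.length_cons, ih, List.length_cons]; omega

/-- maximal length of the members of a list of strings -/
def maxlen (T : List Str) : ℕ := T.foldr (fun x n => max x.length n) 0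

theorem le_maxlen {T : List Str} {x : Str} (h : x ∈ T) : x.length ≤ maxlen T := by
  induction T with
  | nil => simp at h
  | cons y T ih =>
    show x.length ≤ max y.length (maxlen T)
    rcases List.mem_cons.1 h with rfl | h
    · exact le_max_left _ _
    · exact (ih h).trans (le_max_right _ _)

theorem maxlen_le {T : List Str} {n : ℕ} (h : ∀ x ∈ T, x.length ≤ n) : maxlen T ≤ n := by
  induction T with
  | nil => exact Nat.zero_le _
  | cons y T ih =>
    show max y.length (maxlen T) ≤ n
    exact max_le (h y List.mem_cons_self) (ih fun x hx => h x (List.mem_cons_of_mem _ hx))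

theorem maxlen_le_seqBits (T : List Str) : maxlen T ≤ (seqBits T).length := by
  induction T with
  | nil => exact Nat.zero_le _
  | cons y T ih =>
    show max y.length (maxlen T) ≤ (pairStr (y, seqBits T)).length
    rw [pairStr_length']
    exact max_le (by omega) (by omega)

theorem seqBits_inj : ∀ {T T' : List Str}, seqBits T = seqBits T' → T = T'
  | [], [], _ => rfl
  | [], y :: T', h => by
    have := congrArg List.length h
    simp only [seqBits, pairStr_length', List.length_nil] at this
    omega
  | y :: T, [], h => by
    have := congrArg List.length h
    simp only [seqBits, pairStr_length', List.length_nil] at this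
    omega
  | y :: T, y' :: T', h => by
    obtain ⟨h1, h2⟩ := pairStr_inj' (h : pairStr (y, seqBits T) = pairStr (y', seqBits T'))
    rw [h1, seqBits_inj h2]

/-! ### the four types of queries -/

/-- plain queries -/
def plainQ (w : Str) : Str := false :: false :: w

/-- the `j`-th bit of the (self-delimiting form of the) output of the distillation -/
def hashQ (j : ℕ) (T : List Str) : Str := false :: true :: un j (seqBits T)

/-- is `w` a witness of the target string `y` -/
def wQ (y w : Str) : Str := true :: false :: pairStr (y, w)

/-- coding of computations: witness length `s`, budget `t`, procedure number `e`, input `x` -/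
def rK (s t e : ℕ) (x : Str) : Str := un s (un t (un e x))

/-- is `w` a witness of the coded computation `r` -/
def kQ (r w : Str) : Str := true :: true :: pairStr (r, w)

/-! ### clocked simulation -/

/-- the procedure `M` on the input `x` (pair `inp`), answers so far `a`, remaining budget `t`, where
a query `q` costs `|q| + 1`: does it stop with output `1` within the budget? -/
def sim (A : Str → Bool) (M : OProc) (inp : Str) (t : ℕ) (a : Str) : Bool :=
  if (M (inp, a)).1 = true then
    if _h : (M (inp, a)).2.length < t then
      sim A M inp (t - (M (inp, a)).2.length - 1) (a ++ [A (M (inp, a)).2])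
    else false
  else decide ((M (inp, a)).2 = [true])
termination_by t

/-! ### data -/

/-- the data of an oracle -/
structure Data where
  /-- the plain part -/
  A0 : Str → Bool
  /-- the exceptional values of the distillation -/
  exc : List Str → Option Str
  /-- the exceptional target strings: their sequence and their witness -/
  lab : Str → Option (List Str × Str)

/-- well-formed data -/
structure Data.WF (δ : Data) : Prop where
  exc_lab : ∀ T y, δ.exc T = some y → ∃ w, δ.lab y = some (T, w)
  len : ∀ y T w, δ.lab y = some (T, w) → y.length = maxlen T + 2 ∧ w.length = y.length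
  non : ∀ y T w, δ.lab y = some (T, w) → true ∈ y ∧ false ∈ y

/-- the value of the distillation, `R` being the (indicator of the) complete language -/
noncomputable def hT (δ : Data) (R : Str → Bool) (T : List Str) : Str :=
  match δ.exc T with
  | some y => y
  | none => List.replicate (maxlen T + 2) (@decide (∃ x ∈ T, R x = true) (Classical.propDecidable _))

/-- `y` is a yes-target with witness `w` -/
def yesW (δ : Data) (R : Str → Bool) (y w : Str) : Prop :=
  (∀ b ∈ y, b = true) ∨ ∃ T, δ.lab y = some (T, w) ∧ ∃ x ∈ T, R x = true

/-- `w` is a witness for the coded computation `r` -/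
def yesK (Mach : ℕ → OProc) (A : Str → Bool) (r w : Str) : Prop :=
  ∃ s t e x, r = rK s t e x ∧ w.length ≤ s ∧ sim A (Mach e) (pairStr (x, w)) t [] = true

/-- the oracle, one step -/
noncomputable def stepA (Mach : ℕ → OProc) (δ : Data) (A R : Str → Bool) (q : Str) : Bool :=
  @decide ((∃ w, q = plainQ w ∧ δ.A0 w = true) ∨
    (∃ j T, q = hashQ j T ∧ (pairStr (hT δ R T, [])).getD j false = true) ∨
    (∃ y w, q = wQ y w ∧ yesW δ R y w) ∨
    (∃ r w, q = kQ r w ∧ yesK Mach A r w)) (Classical.propDecidable _)

/-- the complete language, one step -/
noncomputable def stepR (Mach : ℕ → OProc) (δ : Data) (A R : Str → Bool) (x : Str) : Bool :=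
  @decide ((∃ y w, x = true :: y ∧ w.length ≤ y.length ∧ yesW δ R y w) ∨
    (∃ r w, x = false :: r ∧ w.length ≤ r.length ∧ yesK Mach A r w)) (Classical.propDecidable _)

/-- the oracle (`(false, q)`) and the complete language (`(true, x)`) -/
noncomputable def Zf (Mach : ℕ → OProc) (δ : Data) (z : Bool × Str) : Bool :=
  bif z.1 then
    stepR Mach δ (fun q => if _h : q.length < z.2.length then Zf Mach δ (false, q) else false)
      (fun x => if _h : x.length < z.2.length then Zf Mach δ (true, x) else false) z.2
  else
    stepA Mach δ (fun q => if _h : q.length < z.2.length then Zf Mach δ (false, q) else false)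
      (fun x => if _h : x.length < z.2.length then Zf Mach δ (true, x) else false) z.2
termination_by z.2.length

/-- the oracle of the data `δ` -/
noncomputable def orc (Mach : ℕ → OProc) (δ : Data) (q : Str) : Bool := Zf Mach δ (false, q)

/-- the complete language of the data `δ` -/
noncomputable def lang (Mach : ℕ → OProc) (δ : Data) (x : Str) : Bool := Zf Mach δ (true, x)

end ORDist
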