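import Pool.Agent.Work.MP_609cce_lc.ODefs

/-!
# Oracle computations: definitions

An oracle procedure is given by its behaviour on transcripts.
-/

namespace ORDist

/-- an oracle procedure: `M (x, a)` is what the procedure does on the input `x` after it has
received the answers `a` (one bit each) to its first `|a|` queries; `(true, q)` means: ask the
oracle about the string `q`; `(false, y)` means: stop with output `y` -/
abbrev OProc := List Bool × List Bool → Bool × List Bool

/-- coding of the actions -/
def actStr (z : Bool × List Bool) : List Bool := z.1 :: z.2

/-- the answers of the oracle `A` to the first `k` queries of `M` on the input `x` -/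
def answers (A : List Bool → Bool) (M : OProc) (x : List Bool) : ℕ → List Bool
  | 0 => []
  | k + 1 => answers A M x k ++ [A (M (x, answers A M x k)).2]

/-- the function `f` is computed in polynomial time with the oracle `A` (inputs coded by `ea`):
there are an oracle procedure `M` in polynomial time and a polynomial bound for the number of
queries -/
def PolyTimeO (A : List Bool → Bool) {α : Type} (ea : α → List Bool) (f : α → List Bool) : Prop :=
  ∃ M : OProc, PolyTime pairStr actStr M ∧ ∃ p : Polynomial ℕ, ∀ a : α,
    ∃ k ≤ p.eval (ea a).length, (∀ j < k, (M (ea a, answers A M (ea a) j)).1 = true) ∧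
      M (ea a, answers A M (ea a) k) = (false, f a)

/-- the class P relative to the oracle `A` -/
def InPO (A : List Bool → Bool) (L : Set (List Bool)) : Prop :=
  ∃ V : List Bool → Bool, PolyTimeO A (fun x => x) (fun x => [V x]) ∧ ∀ x, x ∈ L ↔ V x = true

/-- the class NP relative to the oracle `A` -/
def InNPO (A : List Bool → Bool) (L : Set (List Bool)) : Prop :=
  ∃ (V : List Bool × List Bool → Bool) (p : Polynomial ℕ),
    PolyTimeO A pairStr (fun z => [V z]) ∧
    ∀ x : List Bool, x ∈ L ↔ ∃ y : List Bool, y.length ≤ p.eval x.length ∧ V (x, y) = true

/-- coding of sequences of strings -/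
def seqBits : List (List Bool) → List Bool
  | [] => []
  | x :: l => pairStr (x, seqBits l)

end ORDist
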