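import Pool.Agent.Work.MP_609cce_lc.OrcData

/-!
# Equations and locality of the oracles
-/

namespace ORDist

theorem cdec (p : Prop) : (@decide p (Classical.propDecidable p) = true) = p :=
  @decide_eq_true_eq p (Classical.propDecidable p)

theorem sim_congr {A A' : Str → Bool} (M : OProc) (inp : Str) : ∀ (t : ℕ) (a : Str),
    (∀ q : Str, q.length < t → A q = A' q) → sim A M inp t a = sim A' M inp t a := by
  intro t
  induction t using Nat.strong_induction_on with
  | _ t ih =>
    intro a h
    rw [sim.eq_def A M inp t a, sim.eq_def A' M inp t a]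
    split_ifs with h1 h2
    · rw [h _ h2]
      exact ih _ (by omega) _ fun q hq => h q (by omega)
    · rfl
    · rfl

/-- the data agree below `n` -/
structure Agree (δ δ' : Data) (n : ℕ) : Prop where
  A0 : ∀ w : Str, w.length < n → δ.A0 w = δ'.A0 w
  exc : ∀ T : List Str, maxlen T < n → δ.exc T = δ'.exc T
  lab : ∀ y : Str, y.length < n → δ.lab y = δ'.lab y

theorem Agree.refl (δ : Data) (n : ℕ) : Agree δ δ n := ⟨fun _ _ => rfl, fun _ _ => rfl, fun _ _ => rfl⟩

theorem Agree.mono {δ δ' : Data} {m n : ℕ} (h : Agree δ δ' n) (hmn : m ≤ n) : Agree δ δ' m :=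
  ⟨fun w hw => h.A0 w (by omega), fun T hT => h.exc T (by omega), fun y hy => h.lab y (by omega)⟩

theorem Agree.trans {δ δ' δ'' : Data} {n : ℕ} (h : Agree δ δ' n) (h' : Agree δ' δ'' n) :
    Agree δ δ'' n :=
  ⟨fun w hw => (h.A0 w hw).trans (h'.A0 w hw), fun T hT => (h.exc T hT).trans (h'.exc T hT),
    fun y hy => (h.lab y hy).trans (h'.lab y hy)⟩

theorem Agree.symm {δ δ' : Data} {n : ℕ} (h : Agree δ δ' n) : Agree δ' δ n :=
  ⟨fun w hw => (h.A0 w hw).symm, fun T hT => (h.exc T hT).symm, fun y hy => (h.lab y hy).symm⟩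

theorem hT_congr {δ δ' : Data} {R R' : Str → Bool} {T : List Str} (h : δ.exc T = δ'.exc T)
    (hR : ∀ x ∈ T, R x = R' x) : hT δ R T = hT δ' R' T := by
  unfold hT
  rw [h]
  cases δ'.exc T with
  | some y => rfl
  | none =>
    have : (∃ x ∈ T, R x = true) ↔ ∃ x ∈ T, R' x = true := by
      constructor
      · rintro ⟨x, hx, h⟩
        exact ⟨x, hx, hR x hx ▸ h⟩
      · rintro ⟨x, hx, h⟩
        exact ⟨x, hx, (hR x hx).symm ▸ h⟩
    exact congrArg (fun b => List.replicate (maxlen T + 2) b) (decide_eq_decide.2 this)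

theorem yesW_congr {δ δ' : Data} {R R' : Str → Bool} {y w : Str} (hδ : δ.WF)
    (h : δ.lab y = δ'.lab y) (hR : ∀ x : Str, x.length < y.length → R x = R' x) :
    yesW δ R y w ↔ yesW δ' R' y w := by
  unfold yesW
  rw [← h]
  refine or_congr Iff.rfl (exists_congr fun T => and_congr_right fun hT => ?_)
  have hlen := (hδ.len y T w hT).1
  constructor
  · rintro ⟨x, hx, h⟩
    have := le_maxlen hx
    exact ⟨x, hx, (hR x (by omega)).symm.trans h⟩
  · rintro ⟨x, hx, h⟩
    have := le_maxlen hx
    exact ⟨x, hx, (hR x (by omega)).trans h⟩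

theorem rK_length (s t e : ℕ) (x : Str) : (rK s t e x).length = s + t + e + x.length + 3 := by
  simp only [rK, un_length]
  omega

theorem yesK_congr {Mach : ℕ → OProc} {A A' : Str → Bool} {r w : Str}
    (h : ∀ q : Str, q.length < r.length → A q = A' q) :
    yesK Mach A r w ↔ yesK Mach A' r w := by
  unfold yesK
  refine exists_congr fun s => exists_congr fun t => exists_congr fun e => exists_congr fun x =>
    and_congr_right fun hr => and_congr_right fun _ => ?_
  rw [sim_congr]
  intro q hq
  apply h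
  rw [hr, rK_length]
  omega

variable {Mach : ℕ → OProc}

theorem stepA_congr {δ δ' : Data} {A A' R R' : Str → Bool} {q : Str} {n : ℕ} (hδ : δ.WF)
    (h : Agree δ δ' n) (hq : q.length ≤ n) (hA : ∀ q' : Str, q'.length < q.length → A q' = A' q')
    (hR : ∀ x : Str, x.length < q.length → R x = R' x) :
    stepA Mach δ A R q = stepA Mach δ' A' R' q := by
  unfold stepA
  refine decide_eq_decide.2 (or_congr ?_ (or_congr ?_ (or_congr ?_ ?_)))
  · refine exists_congr fun w => and_congr_right fun hw => ?_
    rw [h.A0 w (by rw [hw] at hq; simp only [plainQ, List.length_cons] at hq; omega)]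
  · refine exists_congr fun j => exists_congr fun T => and_congr_right fun hT => ?_
    have h1 := maxlen_le_seqBits T
    have h2 : q.length = j + (seqBits T).length + 3 := by
      rw [hT]; simp only [hashQ, List.length_cons, un_length]
    rw [hT_congr (h.exc T (by omega)) fun x hx => hR x (by have := le_maxlen hx; omega)]
  · refine exists_congr fun y => exists_congr fun w => and_congr_right fun hw => ?_
    have h2 : q.length = 2 * y.length + w.length + 3 := by
      rw [hw]; simp only [wQ, List.length_cons, pairStr_length']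
    exact yesW_congr hδ (h.lab y (by omega)) fun x hx => hR x (by omega)
  · refine exists_congr fun r => exists_congr fun w => and_congr_right fun hw => ?_
    have h2 : q.length = 2 * r.length + w.length + 3 := by
      rw [hw]; simp only [kQ, List.length_cons, pairStr_length']
    exact yesK_congr fun q' hq' => hA q' (by omega)

theorem stepR_congr {δ δ' : Data} {A A' R R' : Str → Bool} {q : Str} {n : ℕ} (hδ : δ.WF)
    (h : Agree δ δ' n) (hq : q.length ≤ n) (hA : ∀ q' : Str, q'.length < q.length → A q' = A' q')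
    (hR : ∀ x : Str, x.length < q.length → R x = R' x) :
    stepR Mach δ A R q = stepR Mach δ' A' R' q := by
  unfold stepR
  refine decide_eq_decide.2 (or_congr ?_ ?_)
  · refine exists_congr fun y => exists_congr fun w => and_congr_right fun hw =>
      and_congr_right fun _ => ?_
    have h2 : q.length = y.length + 1 := by rw [hw, List.length_cons]
    exact yesW_congr hδ (h.lab y (by omega)) fun x hx => hR x (by omega)
  · refine exists_congr fun r => exists_congr fun w => and_congr_right fun hw =>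
      and_congr_right fun _ => ?_
    have h2 : q.length = r.length + 1 := by rw [hw, List.length_cons]
    exact yesK_congr fun q' hq' => hA q' (by omega)

theorem orc_eq {δ : Data} (hδ : δ.WF) (q : Str) :
    orc Mach δ q = stepA Mach δ (orc Mach δ) (lang Mach δ) q := by
  unfold orc
  rw [Zf, cond_false]
  refine stepA_congr hδ (Agree.refl δ q.length) le_rfl ?_ ?_
  · intro q' hq'
    show (if _h : q'.length < q.length then _ else _) = _
    rw [dif_pos hq']
  · intro q' hq'
    show (if _h : q'.length < q.length then _ else _) = _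
    rw [dif_pos hq']
    rfl

theorem lang_eq {δ : Data} (hδ : δ.WF) (x : Str) :
    lang Mach δ x = stepR Mach δ (orc Mach δ) (lang Mach δ) x := by
  unfold lang
  rw [Zf, cond_true]
  refine stepR_congr hδ (Agree.refl δ x.length) le_rfl ?_ ?_
  · intro q' hq'
    show (if _h : q'.length < x.length then _ else _) = _
    rw [dif_pos hq']
    rfl
  · intro q' hq'
    show (if _h : q'.length < x.length then _ else _) = _
    rw [dif_pos hq']

/-- locality -/
theorem local_aux {δ δ' : Data} (hδ : δ.WF) (hδ' : δ'.WF) {n : ℕ} (h : Agree δ δ' n) :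
    ∀ k ≤ n, ∀ q : Str, q.length = k →
      orc Mach δ q = orc Mach δ' q ∧ lang Mach δ q = lang Mach δ' q := by
  intro k
  induction k using Nat.strong_induction_on with
  | _ k ih =>
    intro hk q hq
    have hA : ∀ q' : Str, q'.length < q.length → orc Mach δ q' = orc Mach δ' q' :=
      fun q' hq' => (ih _ (by omega) (by omega) q' rfl).1
    have hR : ∀ q' : Str, q'.length < q.length → lang Mach δ q' = lang Mach δ' q' :=
      fun q' hq' => (ih _ (by omega) (by omega) q' rfl).2
    rw [orc_eq hδ, orc_eq hδ', lang_eq hδ, lang_eq hδ']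
    exact ⟨stepA_congr hδ h (by omega) hA hR, stepR_congr hδ h (by omega) hA hR⟩

theorem orc_local {δ δ' : Data} (hδ : δ.WF) (hδ' : δ'.WF) {n : ℕ} (h : Agree δ δ' n) {q : Str}
    (hq : q.length ≤ n) : orc Mach δ q = orc Mach δ' q :=
  (local_aux hδ hδ' h q.length hq q rfl).1

theorem lang_local {δ δ' : Data} (hδ : δ.WF) (hδ' : δ'.WF) {n : ℕ} (h : Agree δ δ' n) {q : Str}
    (hq : q.length ≤ n) : lang Mach δ q = lang Mach δ' q :=
  (local_aux hδ hδ' h q.length hq q rfl).2

/-! ### the values of the four types of queries -/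

theorem orc_plain {δ : Data} (hδ : δ.WF) (w : Str) : orc Mach δ (plainQ w) = δ.A0 w := by
  rw [orc_eq hδ, Bool.eq_iff_iff, stepA, cdec]
  constructor
  · rintro (⟨w', h1, h2⟩ | ⟨j, T, h1, h2⟩ | ⟨y, w', h1, h2⟩ | ⟨r, w', h1, h2⟩)
    · simp only [plainQ, List.cons.injEq, true_and] at h1
      rw [h1]; exact h2
    · simp [plainQ, hashQ] at h1
    · simp [plainQ, wQ] at h1
    · simp [plainQ, kQ] at h1
  · intro h
    exact Or.inl ⟨w, rfl, h⟩

theorem orc_hash {δ : Data} (hδ : δ.WF) (j : ℕ) (T : List Str) :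
    orc Mach δ (hashQ j T) = (pairStr (hT δ (lang Mach δ) T, [])).getD j false := by
  rw [orc_eq hδ, Bool.eq_iff_iff, stepA, cdec]
  constructor
  · rintro (⟨w', h1, h2⟩ | ⟨j', T', h1, h2⟩ | ⟨y, w', h1, h2⟩ | ⟨r, w', h1, h2⟩)
    · simp [plainQ, hashQ] at h1
    · simp only [hashQ, List.cons.injEq, true_and] at h1
      obtain ⟨h3, h4⟩ := un_inj h1
      have h5 := seqBits_inj h4
      subst h3 h5
      exact h2
    · simp [hashQ, wQ] at h1
    · simp [hashQ, kQ] at h1
  · intro h
    exact Or.inr (Or.inl ⟨j, T, rfl, h⟩)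

theorem orc_wQ {δ : Data} (hδ : δ.WF) (y w : Str) :
    orc Mach δ (wQ y w) = true ↔ yesW δ (lang Mach δ) y w := by
  rw [orc_eq hδ, stepA, cdec]
  constructor
  · rintro (⟨w', h1, h2⟩ | ⟨j', T', h1, h2⟩ | ⟨y', w', h1, h2⟩ | ⟨r, w', h1, h2⟩)
    · simp [plainQ, wQ] at h1
    · simp [hashQ, wQ] at h1
    · simp only [wQ, List.cons.injEq, true_and] at h1
      obtain ⟨h3, h4⟩ := pairStr_inj' h1
      subst h3 h4
      exact h2
    · simp [wQ, kQ] at h1
  · intro h
    exact Or.inr (Or.inr (Or.inl ⟨y, w, rfl, h⟩))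

theorem orc_kQ {δ : Data} (hδ : δ.WF) (r w : Str) :
    orc Mach δ (kQ r w) = true ↔ yesK Mach (orc Mach δ) r w := by
  rw [orc_eq hδ, stepA, cdec]
  constructor
  · rintro (⟨w', h1, h2⟩ | ⟨j', T', h1, h2⟩ | ⟨y', w', h1, h2⟩ | ⟨r', w', h1, h2⟩)
    · simp [plainQ, kQ] at h1
    · simp [hashQ, kQ] at h1
    · simp [wQ, kQ] at h1
    · simp only [kQ, List.cons.injEq, true_and] at h1
      obtain ⟨h3, h4⟩ := pairStr_inj' h1
      subst h3 h4
      exact h2
  · intro h
    exact Or.inr (Or.inr (Or.inr ⟨r, w, rfl, h⟩))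

theorem lang_true {δ : Data} (hδ : δ.WF) (y : Str) :
    lang Mach δ (true :: y) = true ↔ ∃ w : Str, w.length ≤ y.length ∧
      orc Mach δ (wQ y w) = true := by
  rw [lang_eq hδ, stepR, cdec]
  constructor
  · rintro (⟨y', w', h1, h2, h3⟩ | ⟨r', w', h1, h2, h3⟩)
    · simp only [List.cons.injEq, true_and] at h1
      subst h1
      exact ⟨w', h2, (orc_wQ hδ _ _).2 h3⟩
    · simp at h1
  · rintro ⟨w, h1, h2⟩
    exact Or.inl ⟨y, w, rfl, h1, (orc_wQ hδ _ _).1 h2⟩

theorem lang_false {δ : Data} (hδ : δ.WF) (r : Str) :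
    lang Mach δ (false :: r) = true ↔ ∃ w : Str, w.length ≤ r.length ∧
      orc Mach δ (kQ r w) = true := by
  rw [lang_eq hδ, stepR, cdec]
  constructor
  · rintro (⟨y', w', h1, h2, h3⟩ | ⟨r', w', h1, h2, h3⟩)
    · simp at h1
    · simp only [List.cons.injEq, true_and] at h1
      subst h1
      exact ⟨w', h2, (orc_kQ hδ _ _).2 h3⟩
  · rintro ⟨w, h1, h2⟩
    exact Or.inr ⟨r, w, rfl, h1, (orc_kQ hδ _ _).1 h2⟩

theorem lang_nil {δ : Data} (hδ : δ.WF) : lang Mach δ [] = false := by
  rw [Bool.eq_false_iff, Ne, lang_eq hδ, stepR, cdec]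
  rintro (⟨y', w', h1, h2, h3⟩ | ⟨r', w', h1, h2, h3⟩)
  · simp at h1
  · simp at h1

/-! ### the distillation -/

/-- the distillation -/
noncomputable def dist (Mach : ℕ → OProc) (δ : Data) (T : List Str) : Str :=
  true :: hT δ (lang Mach δ) T

theorem dist_length {δ : Data} (hδ : δ.WF) (T : List Str) :
    (dist Mach δ T).length = maxlen T + 3 := by
  unfold dist hT
  cases h : δ.exc T with
  | none => simp
  | some y =>
    obtain ⟨w, hw⟩ := hδ.exc_lab T y h
    have := (hδ.len y T w hw).1
    simp [this]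

theorem dist_correct {δ : Data} (hδ : δ.WF) (T : List Str) :
    lang Mach δ (dist Mach δ T) = true ↔ ∃ x ∈ T, lang Mach δ x = true := by
  unfold dist
  rw [lang_true hδ]
  simp only [orc_wQ hδ, yesW]
  cases h : δ.exc T with
  | none =>
    have e : hT δ (lang Mach δ) T = List.replicate (maxlen T + 2)
        (@decide (∃ x ∈ T, lang Mach δ x = true) (Classical.propDecidable _)) := by
      unfold hT; rw [h]
    rw [e]
    by_cases hT : ∃ x ∈ T, lang Mach δ x = true
    · simp only [hT, decide_true, iff_true]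
      refine ⟨[], by simp, Or.inl fun b hb => ?_⟩
      exact List.eq_of_mem_replicate hb
    · simp only [hT, decide_false, iff_false]
      rintro ⟨w, -, h1 | ⟨T', h1, h2⟩⟩
      · have := h1 false (by simp)
        exact absurd this (by decide)
      · have := (hδ.non _ _ _ h1).1
        simp at this
  | some y =>
    have e : hT δ (lang Mach δ) T = y := by unfold hT; rw [h]
    rw [e]
    obtain ⟨w, hw⟩ := hδ.exc_lab T y h
    constructor
    · rintro ⟨w', -, h1 | ⟨T', h1, h2⟩⟩
      · have := h1 false (hδ.non _ _ _ hw).2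
        exact absurd this (by decide)
      · rw [hw] at h1
        simp only [Option.some.injEq, Prod.mk.injEq] at h1
        rw [h1.1]
        exact h2
    · intro h1
      exact ⟨w, (hδ.len _ _ _ hw).2.le, Or.inr ⟨T, hw, h1⟩⟩

end ORDist
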