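import Pool.Agent.Work.MP_609cce_lc.OrcPT
import Pool.Agent.Work.MP_609cce_lc.OrcLoc
import Pool.Agent.Work.MP_609cce_lc.OPrefix

/-!
# The machine of the distillation
-/

open Turing

namespace ORDist

open PTime

theorem pairStr_append (y r : Str) : pairStr (y, []) ++ r = pairStr (y, r) := by
  simp [pairStr]

/-- the self-delimiting code is prefix-free -/
theorem pairStr_take {h y : Str} {j : ℕ} (e : pairStr (y, []) = (pairStr (h, [])).take j) :
    (pairStr (h, [])).length ≤ j := by
  have h1 : pairStr (y, (pairStr (h, [])).drop j) = pairStr (h, []) := by
    rw [← pairStr_append, e, List.take_append_drop]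
  have h2 := (pairStr_inj' h1).2
  exact List.drop_eq_nil_iff.1 h2

/-- the procedure of the distillation -/
def distM : OProc := fun z =>
  bif decide (pairStr ((unpairS z.2).1, []) = z.2) then (false, true :: (unpairS z.2).1)
  else (true, false :: true :: un z.2.length z.1)

theorem pt_un {α : Type} [Code α] {n : α → ℕ} {f : α → Str} (hn : PT n) (hf : PT f) :
    PT (fun a => un (n a) (f a)) := by
  have h : PT (fun a => List.replicate (n a) true) := by
    refine (PT.map (g := fun _ : α × Unit => true) hn.replicate (PT.const true)).congr fun a => ?_
    rw [List.map_replicate]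
  exact h.append ((PT.const false).cons hf)

theorem pt_distM : PT distM := by
  have hx : PT (fun z : Str × Str => z.1) := PT.fst
  have ha : PT (fun z : Str × Str => z.2) := PT.snd
  have hu : PT (fun z : Str × Str => (unpairS z.2).1) := (PT.unpairS ha).fst'
  have hc : PT (fun z : Str × Str => decide (pairStr ((unpairS z.2).1, []) = z.2)) :=
    PT.eq (pt_pairStr_comp hu (PT.const [])) ha
  have h1 : PT (fun z : Str × Str => (false, true :: (unpairS z.2).1)) :=
    (PT.const false).pair ((PT.const true).cons hu)
  have h2 : PT (fun z : Str × Str => (true, false :: true :: un z.2.length z.1)) :=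
    (PT.const true).pair ((PT.const false).cons ((PT.const true).cons (pt_un ha.length hx)))
  exact PT.cond hc h1 h2

theorem distM_end (x h : Str) : distM (x, pairStr (h, [])) = (false, true :: h) := by
  unfold distM
  simp only [unpairS_pairStr, decide_true, cond_true]

theorem distM_ask (x h : Str) {j : ℕ} (hj : j < (pairStr (h, [])).length) :
    distM (x, (pairStr (h, [])).take j) = (true, false :: true :: un j x) := by
  unfold distM
  simp only
  have h1 : ¬ pairStr ((unpairS ((pairStr (h, [])).take j)).1, []) = (pairStr (h, [])).take j := by
    intro e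
    have := pairStr_take e
    omega
  rw [decide_eq_false h1, cond_false, List.length_take, Nat.min_eq_left hj.le]

variable {Mach : ℕ → OProc}

theorem answers_distM {δ : Data} (hδ : δ.WF) (T : List Str) : ∀ j : ℕ,
    j ≤ (pairStr (hT δ (lang Mach δ) T, [])).length →
    answers (orc Mach δ) distM (seqBits T) j = (pairStr (hT δ (lang Mach δ) T, [])).take j := by
  intro j
  induction j with
  | zero => intro _; simp [answers]
  | succ j ih =>
    intro hj
    have h1 := distM_ask (seqBits T) (hT δ (lang Mach δ) T) (j := j) (by omega)
    have h2 := orc_hash (Mach := Mach) hδ j T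
    rw [answers, ih (by omega), h1]
    have h3 : orc Mach δ (false :: true :: un j (seqBits T)) =
        (pairStr (hT δ (lang Mach δ) T, [])).getD j false := h2
    rw [h3, List.getD_eq_getElem _ _ (by omega), List.take_append_getElem]

/-- the distillation is computed in polynomial time with the oracle -/
theorem dist_polyTime {δ : Data} (hδ : δ.WF) :
    PolyTimeO (orc Mach δ) seqBits (dist Mach δ) := by
  refine ⟨distM, polyTime_of_pt pt_distM, 2 * Polynomial.X + 5, fun T => ?_⟩
  have hl : (pairStr (hT δ (lang Mach δ) T, [])).length = 2 * (maxlen T + 2) + 1 := by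
    have h1 := dist_length (Mach := Mach) hδ T
    unfold dist at h1
    rw [List.length_cons] at h1
    rw [pairStr_length']
    simp only [List.length_nil]
    omega
  have hm := maxlen_le_seqBits T
  refine ⟨(pairStr (hT δ (lang Mach δ) T, [])).length, ?_, ?_, ?_⟩
  · simp only [Polynomial.eval_add, Polynomial.eval_mul, Polynomial.eval_X,
      Polynomial.eval_ofNat]
    omega
  · intro j hj
    rw [answers_distM hδ T j hj.le, distM_ask _ _ hj]
  · rw [answers_distM hδ T _ le_rfl, List.take_length, distM_end]
    rfl

end ORDist
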