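import Pool.Agent.Work.MP_609cce_lc.OrcDefs
import Pool.Agent.Work.MP_609cce_lc.OrdSim
import Pool.Agent.Work.MP_609cce_lc.OCheckPT

/-!
# Enumeration of the oracle procedures
-/

open Turing

namespace PTime

theorem Exec.det {p : Prog} {s s' : St} {t : ℕ} (h : Exec p s s' t) :
    ∀ {s'' : St} {t' : ℕ}, Exec p s s'' t' → s'' = s' := by
  induction h with
  | skip s => intro s'' t' h'; cases h'; rfl
  | push i b s => intro s'' t' h'; cases h'; rfl
  | pop i s => intro s'' t' h'; cases h'; rfl
  | seq _ _ ih1 ih2 =>
    intro s'' t' h'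
    cases h' with
    | seq h1 h2 =>
      have := ih1 h1
      subst this
      exact ih2 h2
  | casE he _ ih =>
    intro s'' t' h'
    cases h' with
    | casE _ h1 => exact ih h1
    | cas0 h0 _ => rw [he] at h0; exact absurd h0 (by simp)
    | cas1 h0 _ => rw [he] at h0; exact absurd h0 (by simp)
  | cas0 he _ ih =>
    intro s'' t' h'
    cases h' with
    | casE h0 _ => rw [he] at h0; exact absurd h0 (by simp)
    | cas0 _ h1 => exact ih h1
    | cas1 h0 _ => rw [he] at h0; exact absurd h0 (by simp)
  | cas1 he _ ih =>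
    intro s'' t' h'
    cases h' with
    | casE h0 _ => rw [he] at h0; exact absurd h0 (by simp)
    | cas0 h0 _ => rw [he] at h0; exact absurd h0 (by simp)
    | cas1 _ h1 => exact ih h1
  | loopE he =>
    intro s'' t' h'
    cases h' with
    | loopE _ => rfl
    | loopS h0 _ _ => exact absurd he h0
  | loopS he _ _ ih1 ih2 =>
    intro s'' t' h'
    cases h' with
    | loopE h0 => exact absurd h0 he
    | loopS _ h1 h2 =>
      have := ih1 h1
      subst this
      exact ih2 h2

deriving instance Encodable for Prog

theorem countable_PT {α β : Type} [Code α] [Code β] :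
    Set.Countable {f : α → β | PT f} := by
  have h : ∀ f : {f : α → β | PT f}, ∃ p : Prog, ∃ q : Polynomial ℕ, ∀ a,
    Run p (mk [enc a]) (mk [enc (f.1 a)]) (q.eval (sz a)) := fun f => f.2
  choose P hP using h
  have hinj : Function.Injective P := by
    intro f g hfg
    apply Subtype.ext
    funext a
    obtain ⟨q1, h1⟩ := hP f
    obtain ⟨q2, h2⟩ := hP g
    obtain ⟨t1, _, e1⟩ := h1 a
    obtain ⟨t2, _, e2⟩ := h2 a
    rw [hfg] at e1
    have h3 := e2.det e1
    have h4 : enc (f.1 a) = enc (g.1 a) := by
      have := congrFun h3 0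
      simpa [mk] using this
    have h5 : (Code.toT (f.1 a)).bits = (Code.toT (g.1 a)).bits := h4
    exact Code.inj (T.bits_injective h5)
  exact hinj.countable

end PTime

namespace ORDist

open PTime

/-- polynomial time procedures are in the calculus -/
theorem pt_of_polyTime {M : OProc} (h : PolyTime pairStr actStr M) : PT M := by
  obtain ⟨h⟩ := h
  have h1 : PT (fun z => actStr (M z)) := PT.ofTM2 h pt_pairStr
  have h2 : PT (fun z => ((actStr (M z)).headD false, (actStr (M z)).tail)) :=
    (h1.headD (PT.const false)).pair h1.tail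
  exact h2.congr fun z => rfl

/-- an enumeration of the polynomial time procedures -/
theorem exists_enum : ∃ Mach : ℕ → OProc, ∀ M : OProc, PolyTime pairStr actStr M →
    ∃ e, Mach e = M := by
  have h : Set.Countable {M : OProc | PT M} := countable_PT
  obtain ⟨Mach, hM⟩ := Set.countable_iff_exists_subset_range.1 h
  exact ⟨Mach, fun M hP => hM (pt_of_polyTime hP)⟩

/-- a polynomial bound for the length of the queries and outputs -/
theorem exists_act_bound {M : OProc} (h : PT M) : ∃ s : Polynomial ℕ, ∀ x a : List Bool,
    (M (x, a)).2.length + 1 ≤ s.eval (x.length + a.length) := by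
  obtain ⟨q, hq⟩ := h.size
  refine ⟨q.comp (4 * Polynomial.X + 3) + 1, fun x a => ?_⟩
  have h1 := hq (x, a)
  have h2 := length_le_sz (M (x, a)).2
  have h3 : sz (M (x, a)).2 ≤ sz (M (x, a)) := by
    have : sz ((M (x, a)).1, (M (x, a)).2) = sz (M (x, a)).1 + sz (M (x, a)).2 + 1 := sz_pair _ _
    have e : ((M (x, a)).1, (M (x, a)).2) = M (x, a) := rfl
    rw [e] at this
    omega
  have h4 : sz (x, a) ≤ 4 * (x.length + a.length) + 3 := by
    have := sz_pair x a
    have h5 := sz_str x
    have h6 := sz_str a
    omega
  have h7 := eval_mono q h4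
  simp only at h7
  simp only [Polynomial.eval_add, Polynomial.eval_mul, Polynomial.eval_X,
    Polynomial.eval_ofNat, Polynomial.eval_comp, Polynomial.eval_one]
  omega

end ORDist
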