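import Pool.Agent.Work.MP_609cce_lc.OrcPT

/-!
# The language of the oracle is hard for NP relative to the oracle
-/

namespace ORDist

open PTime

theorem sim_of_run {A : Str → Bool} {M : OProc} {inp y : Str} {B k : ℕ}
    (h1 : ∀ j < k, (M (inp, answers A M inp j)).1 = true)
    (h2 : M (inp, answers A M inp k) = (false, y))
    (hB : ∀ j < k, (M (inp, answers A M inp j)).2.length + 1 ≤ B) :
    ∀ j i, i + j = k → ∀ t, j * B ≤ t →
      sim A M inp t (answers A M inp i) = decide (y = [true]) := by
  intro j
  induction j with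
  | zero =>
    intro i hi t _
    have e : i = k := by omega
    subst e
    rw [sim.eq_def, h2]
    simp
  | succ j ih =>
    intro i hi t ht
    have h3 := hB i (by omega)
    have h4 : (j + 1) * B = j * B + B := by ring
    rw [sim.eq_def, if_pos (h1 i (by omega)), dif_pos (by omega)]
    exact ih (i + 1) (by omega) _ (by omega)

theorem Orc_pt_un {α : Type} [Code α] {k : α → ℕ} {x : α → List Bool} (hk : PT k) (hx : PT x) :
    PT (fun a => un (k a) (x a)) := by
  have h1 : PT (fun a => (List.replicate (k a) ()).map fun _ => true) :=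
    PT.map (g := fun _ : α × Unit => true) (PT.replicate hk) (PT.const true)
  have h2 : PT (fun a => ((List.replicate (k a) ()).map fun _ => true) ++ false :: x a) :=
    h1.append ((PT.const false).cons hx)
  exact h2.congr fun a => by rw [List.map_replicate]; rfl

theorem hard {Mach : ℕ → OProc} (hMach : ∀ M : OProc, PolyTime pairStr actStr M → ∃ e, Mach e = M)
    {δ : Data} (hδ : δ.WF) {L : Set Str} (hL : InNPO (orc Mach δ) L) :
    ∃ f : Str → Str, PolyTime (fun x => x) (fun x => x) f ∧
      ∀ x, x ∈ L ↔ lang Mach δ (f x) = true := by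
  obtain ⟨V, p, ⟨M, hM, p2, hp2⟩, hV⟩ := hL
  obtain ⟨e, he⟩ := hMach M hM
  obtain ⟨s, hs⟩ := exists_act_bound (pt_of_polyTime hM)
  let N0 : Polynomial ℕ := 2 * Polynomial.X + p + 1
  let tP : Polynomial ℕ := p2.comp N0 * s.comp (N0 + p2.comp N0)
  let f : Str → Str := fun x => false :: rK (p.eval x.length) (tP.eval x.length) e x
  have hf : PT f := by
    have hl : PT (fun x : Str => x.length) := PT.id.length
    exact (PT.const false).cons (Orc_pt_un (PT.polyEval p hl) (Orc_pt_un (PT.polyEval tP hl)
      (Orc_pt_un (PT.const e) PT.id)))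
  refine ⟨f, PT.polyTime_raw (ea := fun x => x) hf fun _ => rfl, fun x => ?_⟩
  have key : ∀ w : Str, w.length ≤ p.eval x.length →
      sim (orc Mach δ) (Mach e) (pairStr (x, w)) (tP.eval x.length) [] = V (x, w) := by
    intro w hw
    obtain ⟨k, hk, h1, h2⟩ := hp2 (x, w)
    have hN : (pairStr (x, w)).length ≤ N0.eval x.length := by
      rw [pairStr_length']
      simp only [N0, Polynomial.eval_add, Polynomial.eval_mul, Polynomial.eval_X,
        Polynomial.eval_ofNat, Polynomial.eval_one]
      omega
    have hk2 : k ≤ p2.eval (N0.eval x.length) := hk.trans (eval_mono p2 hN)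
    have hlen : ∀ j, (answers (orc Mach δ) M (pairStr (x, w)) j).length = j := by
      intro j
      induction j with
      | zero => rfl
      | succ j ih => rw [answers, List.length_append, ih]; rfl
    have hB : ∀ j < k, (M (pairStr (x, w),
        answers (orc Mach δ) M (pairStr (x, w)) j)).2.length + 1 ≤
        s.eval (N0.eval x.length + p2.eval (N0.eval x.length)) := by
      intro j hj
      refine (hs _ _).trans (eval_mono s ?_)
      rw [hlen]
      omega
    have h3 := sim_of_run h1 h2 hB k 0 (by omega) (tP.eval x.length) (by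
      simp only [tP, Polynomial.eval_mul, Polynomial.eval_comp, Polynomial.eval_add]
      exact Nat.mul_le_mul_right _ hk2)
    rw [he]
    refine h3.trans ?_
    cases hv : V (x, w) <;> simp [hv]
  rw [hV x]
  show _ ↔ lang Mach δ (false :: rK (p.eval x.length) (tP.eval x.length) e x) = true
  rw [lang_false hδ]
  constructor
  · rintro ⟨w, hw, hv⟩
    refine ⟨w, ?_, (orc_kQ hδ _ _).2 ⟨_, _, _, _, rfl, hw, ?_⟩⟩
    · rw [rK_length]
      omega
    · rw [key w hw]
      exact hv
  · rintro ⟨w, _, hw⟩
    obtain ⟨s', t', e', x', h1, h2, h3⟩ := (orc_kQ hδ _ _).1 hw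
    obtain ⟨h4, h5, h6, h7⟩ := rK_inj h1
    subst h4 h5 h6 h7
    exact ⟨w, h2, by rw [← key w h2]; exact h3⟩

end ORDist
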