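import Pool.Agent.Work.MP_609cce_lc.OrcStage

/-!
# The limit of the stages
-/

namespace ORDist

open Orc PTime

theorem countable_poly : Countable (Polynomial ℕ) := by
  have h : Function.Injective fun p : Polynomial ℕ => (List.range (p.natDegree + 1)).map p.coeff := by
    intro p q hpq
    have h1 := congrArg List.length hpq
    simp only [List.length_map, List.length_range] at h1
    have h2 : p.natDegree = q.natDegree := by omega
    simp only [h2] at hpq
    ext k
    by_cases hk : k < q.natDegree + 1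
    · exact List.map_inj_left.1 hpq k (List.mem_range.2 hk)
    · rw [Polynomial.coeff_eq_zero_of_natDegree_lt (by omega),
        Polynomial.coeff_eq_zero_of_natDegree_lt (by omega)]
  exact h.countable

/-- an enumeration of all pairs (procedure, polynomial) -/
theorem exists_enum_pairs : ∃ E : ℕ → OProc × Polynomial ℕ, (∀ i, PT (E i).1) ∧
    ∀ (M : OProc) (p : Polynomial ℕ), PT M → ∃ i, E i = (M, p) := by
  have h : Countable {M : OProc // PT M} := (countable_PT (α := Str × Str) (β := Bool × Str)).to_subtype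
  have hne : Nonempty {M : OProc // PT M} := ⟨⟨fun _ => (false, []), PT.const _⟩⟩
  have h2 := countable_poly
  obtain ⟨f, hf⟩ := exists_surjective_nat ({M : OProc // PT M} × Polynomial ℕ)
  refine ⟨fun i => ((f i).1.1, (f i).2), fun i => (f i).1.2, fun M p hM => ?_⟩
  obtain ⟨i, hi⟩ := hf (⟨M, hM⟩, p)
  exact ⟨i, by simp only [hi]⟩

/-- the final data -/
theorem exists_final (Mach : ℕ → OProc) : ∃ δ : Data, δ.WF ∧ ∀ M : OProc, PT M →
    ∀ p : Polynomial ℕ, ∃ n : ℕ, ¬ Works Mach M n (p.eval n) δ := by
  obtain ⟨E, hE, hE2⟩ := exists_enum_pairs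
  -- the sequence of stages
  let S := {z : Data × ℕ // GoodD z.1 z.2}
  have hstep : ∀ (i : ℕ) (z : S), ∃ z' : S, z.1.2 < z'.1.2 ∧ Agree z.1.1 z'.1.1 z.1.2 ∧
      ∃ n, ∀ δ'' : Data, δ''.WF → Agree z'.1.1 δ'' z'.1.2 →
        ¬ Works Mach (E i).1 n ((E i).2.eval n) δ'' := by
    intro i z
    obtain ⟨δ', b', n, h1, h2, h3, h4⟩ := stage Mach z.2 (hE i) (E i).2
    exact ⟨⟨(δ', b'), h1⟩, h2, h3, n, h4⟩
  choose next hn1 hn2 hn3 using hstep
  let z0 : S := ⟨(⟨fun _ => false, fun _ => none, fun _ => none⟩, 0),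
    ⟨⟨fun T y h => absurd h (by simp), fun y T w h => absurd h (by simp),
      fun y T w h => absurd h (by simp)⟩, fun _ _ => rfl, fun _ _ => rfl, fun _ _ => rfl⟩⟩
  let s : ℕ → S := fun i => Nat.rec z0 (fun i z => next i z) i
  have hs : ∀ i, s (i + 1) = next i (s i) := fun i => rfl
  have hb : ∀ i, (s i).1.2 < (s (i + 1)).1.2 := fun i => by rw [hs]; exact hn1 i (s i)
  have hbm : StrictMono fun i => (s i).1.2 := strictMono_nat_of_lt_succ hb
  have hbi : ∀ i, i ≤ (s i).1.2 := fun i => hbm.le_apply
  have hag : ∀ i j, i ≤ j → Agree (s i).1.1 (s j).1.1 (s i).1.2 := by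
    intro i j hij
    induction j, hij using Nat.le_induction with
    | base => exact Agree.refl _ _
    | succ j hij ih =>
      refine ih.trans ?_
      rw [hs]
      exact (hn2 j (s j)).mono (hbm.monotone hij)
  have hagA : ∀ i j (w : Str), w.length < (s i).1.2 → w.length < (s j).1.2 →
      (s i).1.1.A0 w = (s j).1.1.A0 w := by
    intro i j w h1 h2
    rcases le_total i j with h | h
    · exact (hag i j h).A0 w h1
    · exact ((hag j i h).A0 w h2).symm
  have hagE : ∀ i j (T : List Str), maxlen T < (s i).1.2 → maxlen T < (s j).1.2 →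
      (s i).1.1.exc T = (s j).1.1.exc T := by
    intro i j w h1 h2
    rcases le_total i j with h | h
    · exact (hag i j h).exc w h1
    · exact ((hag j i h).exc w h2).symm
  have hagL : ∀ i j (w : Str), w.length < (s i).1.2 → w.length < (s j).1.2 →
      (s i).1.1.lab w = (s j).1.1.lab w := by
    intro i j w h1 h2
    rcases le_total i j with h | h
    · exact (hag i j h).lab w h1
    · exact ((hag j i h).lab w h2).symm
  let δ : Data := ⟨fun w => (s (w.length + 1)).1.1.A0 w, fun T => (s (maxlen T + 1)).1.1.exc T,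
    fun y => (s (y.length + 1)).1.1.lab y⟩
  have hδ : ∀ i, Agree (s i).1.1 δ (s i).1.2 := by
    intro i
    refine ⟨fun w hw => ?_, fun T hT => ?_, fun y hy => ?_⟩
    · exact hagA i (w.length + 1) w hw (by have := hbi (w.length + 1); omega)
    · exact hagE i (maxlen T + 1) T hT (by have := hbi (maxlen T + 1); omega)
    · exact hagL i (y.length + 1) y hy (by have := hbi (y.length + 1); omega)
  have hwf : δ.WF := by
    refine ⟨?_, ?_, ?_⟩
    · intro T y h
      have h1 := hbi (maxlen T + y.length + 1)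
      have h2 := (hδ (maxlen T + y.length + 1)).exc T (by omega)
      rw [← h2] at h
      obtain ⟨w, hw⟩ := (s (maxlen T + y.length + 1)).2.wf.exc_lab T y h
      exact ⟨w, by rw [← (hδ (maxlen T + y.length + 1)).lab y (by omega)]; exact hw⟩
    · intro y T w h
      exact (s (y.length + 1)).2.wf.len y T w h
    · intro y T w h
      exact (s (y.length + 1)).2.wf.non y T w h
  refine ⟨δ, hwf, fun M hM p => ?_⟩
  obtain ⟨i, hi⟩ := hE2 M p hM
  obtain ⟨n, hn⟩ := hn3 i (s i)
  refine ⟨n, ?_⟩
  have := hn δ hwf (by rw [← hs]; exact hδ (i + 1))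
  rwa [hi] at this

end ORDist
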