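import Pool.Agent.Work.MP_609cce_lc.OrcPT

/-!
# Assembly
-/

namespace ORDist

open PTime

variable {Mach : ℕ → OProc}

/-- the complete language is in NP relative to the oracle -/
theorem lang_inNPO {δ : Data} (hδ : δ.WF) :
    InNPO (orc Mach δ) {x | lang Mach δ x = true} := by
  have hg : PT (fun z : Str × Str => !z.1.isEmpty) := PT.fst.isEmpty.not
  have hf : PT (fun z : Str × Str => true :: (!z.1.headD false) :: pairStr (z.1.tail, z.2)) :=
    (PT.const true).cons ((PT.fst.headD (PT.const false)).not.cons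
      (pt_pairStr.comp (PT.fst.tail.pair PT.snd)))
  refine ⟨fun z => (!z.1.isEmpty) && orc Mach δ (true :: (!z.1.headD false) ::
    pairStr (z.1.tail, z.2)), Polynomial.X, polyTimeO_one hg hf, fun x => ?_⟩
  rw [Polynomial.eval_X, Set.mem_ofPred_eq]
  cases x with
  | nil => simp [lang_nil hδ]
  | cons b x =>
    cases b with
    | true =>
      rw [lang_true hδ]
      constructor
      · rintro ⟨w, h1, h2⟩
        exact ⟨w, by rw [List.length_cons]; omega, by simpa [wQ] using h2⟩
      · rintro ⟨w, h1, h2⟩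
        have h3 : orc Mach δ (wQ x w) = true := by simpa [wQ] using h2
        rcases (orc_wQ hδ x w).1 h3 with h4 | ⟨T, h4, h5⟩
        · exact ⟨[], Nat.zero_le _, (orc_wQ hδ x []).2 (Or.inl h4)⟩
        · exact ⟨w, (hδ.len x T w h4).2.le, h3⟩
    | false =>
      rw [lang_false hδ]
      constructor
      · rintro ⟨w, h1, h2⟩
        exact ⟨w, by rw [List.length_cons]; omega, by simpa [kQ] using h2⟩
      · rintro ⟨w, h1, h2⟩
        have h3 : orc Mach δ (kQ x w) = true := by simpa [kQ] using h2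
        refine ⟨w, ?_, h3⟩
        obtain ⟨s, t, e, x', rfl, h4, _⟩ := (orc_kQ hδ x w).1 h3
        rw [rK_length]
        omega

/-- the test language -/
def test (δ : Data) : Set Str := {x | ∃ w : Str, w.length = x.length ∧ δ.A0 w = true}

theorem test_inNPO {δ : Data} (hδ : δ.WF) : InNPO (orc Mach δ) (test δ) := by
  have hg : PT (fun z : Str × Str => decide (z.2.length = z.1.length)) :=
    PT.natEq PT.snd.length PT.fst.length
  have hf : PT (fun z : Str × Str => plainQ z.2) :=
    (PT.const false).cons ((PT.const false).cons PT.snd)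
  refine ⟨fun z => decide (z.2.length = z.1.length) && orc Mach δ (plainQ z.2), Polynomial.X,
    polyTimeO_one hg hf, fun x => ?_⟩
  rw [Polynomial.eval_X]
  simp only [orc_plain hδ, test, Set.mem_ofPred_eq, Bool.and_eq_true, decide_eq_true_eq]
  constructor
  · rintro ⟨w, h1, h2⟩
    exact ⟨w, h1.le, h1, h2⟩
  · rintro ⟨w, _, h1, h2⟩
    exact ⟨w, h1, h2⟩

theorem test_not_inPO {δ : Data} (h : ∀ M : OProc, PT M →
    ∀ p : Polynomial ℕ, ∃ n : ℕ, ¬ Works Mach M n (p.eval n) δ) :
    ¬ InPO (orc Mach δ) (test δ) := by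
  rintro ⟨V, ⟨M, hM, p, hp⟩, hV⟩
  obtain ⟨n, hn⟩ := h M (pt_of_polyTime hM) p
  refine hn ?_
  obtain ⟨k, hk, h1, h2⟩ := hp (List.replicate n true)
  rw [List.length_replicate] at hk
  refine ⟨k, hk, h1, V (List.replicate n true), h2, ?_⟩
  rw [← hV]
  simp [test]

/-- the relativized separation, given the two remaining facts -/
theorem oracle_main
    (hard : ∀ (Mach : ℕ → OProc), (∀ M, PolyTime pairStr actStr M → ∃ e, Mach e = M) →
      ∀ δ : Data, δ.WF → ∀ L : Set Str, InNPO (orc Mach δ) L → ∃ f : Str → Str,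
        PolyTime (fun x => x) (fun x => x) f ∧ ∀ x, x ∈ L ↔ lang Mach δ (f x) = true)
    (hdist : ∀ (Mach : ℕ → OProc) (δ : Data), δ.WF →
      PolyTimeO (orc Mach δ) seqBits (dist Mach δ)) :
    ∃ A : Str → Bool, (∃ L, InNPO A L ∧ ¬ InPO A L) ∧
      ∃ R : Set Str, InNPO A R ∧
        (∀ L, InNPO A L → ∃ f : Str → Str, PolyTime (fun x => x) (fun x => x) f ∧
          ∀ x, x ∈ L ↔ f x ∈ R) ∧
        ∃ D : List Str → Str, PolyTimeO A seqBits D ∧
          (∀ (n : ℕ) (xs : List Str), (∀ x ∈ xs, x.length ≤ n) → (D xs).length ≤ n + 3) ∧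
          ∀ xs, D xs ∈ R ↔ ∃ x ∈ xs, x ∈ R := by
  obtain ⟨Mach, hMach⟩ := exists_enum
  obtain ⟨δ, hδ, hfin⟩ := exists_final Mach
  refine ⟨orc Mach δ, ⟨test δ, test_inNPO hδ, test_not_inPO hfin⟩,
    {x | lang Mach δ x = true}, lang_inNPO hδ, fun L hL => hard Mach hMach δ hδ L hL,
    dist Mach δ, hdist Mach δ hδ, fun n xs h => ?_, fun xs => dist_correct hδ xs⟩
  rw [dist_length hδ]
  have := maxlen_le h
  omega

end ORDist
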