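import Pool.Agent.Work.MP_609cce_lc.OConv

/-!
# Functions in the calculus `PT` with raw bit strings as output
-/

open Turing

namespace PTime

open Function (update)

/-- body of the loop: move one coded bit from the stack `0` to the stack `1` -/
def unqB : Prog :=
  .cas 0 .skip (.pop 0) (.seq (.pop 0) (.cas 0 .skip (.seq (.pop 0) (.push 1 false))
    (.seq (.pop 0) (.seq (.pop 0) (.seq (.pop 0) (.push 1 true))))))

theorem run_unqB (b : Bool) (l X : List Bool) :
    Run unqB (mk [enc (b :: l), X]) (mk [enc l, b :: X]) 12 := by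
  have r1 : Run (.pop 0) (mk [enc (b :: l), X]) (mk [enc b ++ enc l, X]) 1 :=
    pop_mk (by simp) rfl
  cases b with
  | false =>
    have r2 : Run (.pop 0) (mk [enc false ++ enc l, X]) (mk [enc l, X]) 1 :=
      pop_mk (by simp) rfl
    have r3 : Run (.push 1 false) (mk [enc l, X]) (mk [enc l, false :: X]) 1 :=
      push_mk (by simp) rfl
    exact (run_cas1 (l := enc false ++ enc l) rfl (r1.seq (run_cas0 (l := enc l) rfl
      (r2.seq r3)))).mono (by omega)
  | true =>
    have r2 : Run (.pop 0) (mk [enc true ++ enc l, X]) (mk [false :: false :: enc l, X]) 1 :=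
      pop_mk (by simp) rfl
    have r3 : Run (.pop 0) (mk [false :: false :: enc l, X]) (mk [false :: enc l, X]) 1 :=
      pop_mk (by simp) rfl
    have r4 : Run (.pop 0) (mk [false :: enc l, X]) (mk [enc l, X]) 1 :=
      pop_mk (by simp) rfl
    have r5 : Run (.push 1 true) (mk [enc l, X]) (mk [enc l, true :: X]) 1 :=
      push_mk (by simp) rfl
    exact (run_cas1 (l := enc true ++ enc l) rfl (r1.seq (run_cas1 (l := false :: false :: enc l)
      rfl (r2.seq (r3.seq (r4.seq r5)))))).mono (by omega)

theorem run_unqL (l : List Bool) : ∀ X : List Bool,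
    Run (.loop 0 unqB) (mk [enc l, X]) (mk [[], l.reverse ++ X]) (13 * l.length + 4) := by
  induction l with
  | nil =>
    intro X
    have r1 : Run (.pop 0) (mk [enc ([] : List Bool), X]) (mk [[], X]) 1 := pop_mk (by simp) rfl
    have r2 : Run unqB (mk [enc ([] : List Bool), X]) (mk [[], X]) 2 :=
      run_cas0 (l := []) rfl r1
    exact (run_loopS (by simp [mk, enc_nil]) r2 (run_loopE rfl)).cast rfl (by simp) (by simp)
  | cons b l ih =>
    intro X
    refine (run_loopS (by simp [mk, enc_cons]) (run_unqB b l X) (ih (b :: X))).cast rfl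
      (by simp) ?_
    simp only [List.length_cons]
    omega

/-- from the code of a bit string to the bit string -/
def outL : Prog := .seq (.loop 0 unqB) (mv 1 0)

theorem run_outL (l : List Bool) : Run outL (mk [enc l]) (mk [l]) (18 * l.length + 6) := by
  have r1 := run_unqL l []
  rw [List.append_nil] at r1
  have r2 : Run (mv 1 0) (mk [[], l.reverse]) (mk [l, []]) (5 * l.length + 1) :=
    mv_mk (x := l.reverse) (by decide) (by simp) (by simp) rfl (by simp [mk]) (by simp)
  refine (r1.seq r2).cast (mk_nils [enc l] 1) (mk_nils [l] 1) ?_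
  omega

/-- functions from bit strings to bit strings -/
theorem PT.polyTime_raw {α : Type} {ea : α → List Bool} {F : α → List Bool}
    {f : List Bool → List Bool} (hf : PT f) (h : ∀ a, f (ea a) = F a) :
    ORDist.PolyTime ea (fun x => x) F := by
  obtain ⟨p, q, hp⟩ := hf
  refine PTime.compile _ _ F (.seq rawP (.seq p outL))
    (18 * Polynomial.X + 14 + (q.comp (4 * Polynomial.X + 1)) +
      18 * ((4 * Polynomial.X + 1) + q.comp (4 * Polynomial.X + 1))) fun a => ?_
  rw [ini_eq, ini_eq]
  have h0 := hp (ea a)
  have h1 : sz (ea a) ≤ 4 * (ea a).length + 1 := by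
    have := sz_list_le (l := ea a) (B := 3) fun b _ => sz_bool b
    omega
  have h2 := eval_mono q h1
  simp only at h2
  have h3 : (f (ea a)).length ≤ sz (ea a) + q.eval (sz (ea a)) := by
    have h4 := h0.length_le 0
    have h5 := length_le_sz (f (ea a))
    have h6 : sz (f (ea a)) ≤ sz (ea a) + q.eval (sz (ea a)) := by simpa [mk, sz] using h4
    omega
  have h7 := run_outL (f (ea a))
  rw [h a] at h7 h3
  rw [h a] at h0
  refine ((run_rawP (ea a)).seq (h0.seq h7)).mono ?_
  simp only [Polynomial.eval_add, Polynomial.eval_mul, Polynomial.eval_X,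
    Polynomial.eval_ofNat, Polynomial.eval_comp, Polynomial.eval_one]
  omega

/-- decision procedures -/
theorem PT.polyTime_dec {d : List Bool → Bool} (hd : PT d) :
    ORDist.PolyTime (fun x => x) (fun b : Bool => [b]) d := by
  obtain ⟨p, q, hp⟩ := hd
  refine PTime.compile _ _ d (.seq rawP (.seq p outB))
    (18 * Polynomial.X + 20 + q.comp (4 * Polynomial.X + 1)) fun z => ?_
  rw [ini_eq, ini_eq]
  refine ((run_rawP z).seq ((hp z).seq (run_outB (d z)))).mono ?_
  have h1 : sz z ≤ 4 * z.length + 1 := by
    have := sz_list_le (l := z) (B := 3) fun b _ => sz_bool b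
    omega
  have h2 := eval_mono q h1
  simp only at h2
  simp only [Polynomial.eval_add, Polynomial.eval_mul, Polynomial.eval_X,
    Polynomial.eval_ofNat, Polynomial.eval_comp, Polynomial.eval_one]
  omega

end PTime
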