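import Pool.Agent.Work.MP_609cce_lc.OrcLimit
import Pool.Agent.Work.MP_609cce_lc.PwOut

/-!
# Procedures in the calculus `PT`; verifiers with one query
-/

open Turing

namespace ORDist

open PTime

theorem pt_actStr {α : Type} [Code α] {f : α → Bool × List Bool} (hf : PT f) :
    PT (fun a => actStr (f a)) := hf.fst'.cons hf.snd'

/-- procedures in the calculus are polynomial time procedures -/
theorem polyTime_of_pt {M : OProc} (h : PT M) : PolyTime pairStr actStr M := by
  have h1 : PT (fun s : Str => actStr (M (unpairS s))) := pt_actStr (h.comp (PT.unpairS PT.id))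
  obtain ⟨c⟩ := PT.polyTime_raw (ea := pairStr) (F := fun z => actStr (M z)) h1
    (fun z => by rw [unpairS_pairStr])
  exact ⟨⟨c.toTM2ComputableAux, c.time, c.outputsFun⟩⟩

/-- verifiers with one query -/
theorem polyTimeO_one {A : Str → Bool} {g : Str × Str → Bool} {f : Str × Str → Str} (hg : PT g)
    (hf : PT f) : PolyTimeO A pairStr (fun z => [g z && A (f z)]) := by
  have hu : PT (fun z : Str × Str => unpairS z.1) := PT.unpairS PT.fst
  refine ⟨fun z => bif g (unpairS z.1) then
      (bif z.2.isEmpty then (true, f (unpairS z.1)) else (false, [z.2.headD false]))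
    else (false, [false]), polyTime_of_pt ?_, 1, fun z => ?_⟩
  · exact PT.cond (hg.comp hu) (PT.cond PT.snd.isEmpty ((PT.const true).pair (hf.comp hu))
      ((PT.const false).pair ((PT.snd.headD (PT.const false)).cons (PT.const []))))
      (PT.const _)
  · simp only [unpairS_pairStr]
    cases hz : g z with
    | false =>
      refine ⟨0, Nat.zero_le _, by simp, ?_⟩
      simp
    | true =>
      refine ⟨1, by simp, ?_, ?_⟩
      · intro j hj
        have : j = 0 := by omega
        subst this
        simp [answers]
      · simp [answers, hz, unpairS_pairStr]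

end ORDist
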