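import Mathlib

/-!
# Decision trees over oracle queries and the fresh label lemma
-/

namespace Orc

/-- decision trees over the queries `Q` -/
inductive QTree (Q : Type) where
  | ret (b : Bool) : QTree Q
  | ask (q : Q) (t0 t1 : QTree Q) : QTree Q

namespace QTree

variable {Q : Type}

/-- the result of the tree for the oracle `B` -/
def eval (B : Q → Bool) : QTree Q → Bool
  | ret b => b
  | ask q t0 t1 => bif B q then t1.eval B else t0.eval B

/-- the queries asked by the tree for the oracle `B` -/
def asked (B : Q → Bool) : QTree Q → List Q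
  | ret _ => []
  | ask q t0 t1 => q :: bif B q then t1.asked B else t0.asked B

/-- the depth -/
def depth : QTree Q → ℕ
  | ret _ => 0
  | ask _ t0 t1 => max t0.depth t1.depth + 1

/-- continue with `k b` at the leaves with value `b` -/
def bind (t : QTree Q) (k0 k1 : QTree Q) : QTree Q :=
  match t with
  | ret b => bif b then k1 else k0
  | ask q t0 t1 => ask q (t0.bind k0 k1) (t1.bind k0 k1)

theorem eval_bind (B : Q → Bool) (t k0 k1 : QTree Q) :
    (t.bind k0 k1).eval B = bif t.eval B then k1.eval B else k0.eval B := by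
  induction t with
  | ret b => cases b <;> rfl
  | ask q t0 t1 ih0 ih1 =>
    simp only [bind, eval]
    cases B q with
    | false => simpa using ih0
    | true => simpa using ih1

theorem asked_bind (B : Q → Bool) (t k0 k1 : QTree Q) :
    (t.bind k0 k1).asked B = t.asked B ++ bif t.eval B then k1.asked B else k0.asked B := by
  induction t with
  | ret b => cases b <;> rfl
  | ask q t0 t1 ih0 ih1 =>
    simp only [bind, asked, eval]
    cases B q with
    | false => simpa using ih0
    | true => simpa using ih1

theorem depth_bind (t k0 k1 : QTree Q) :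
    (t.bind k0 k1).depth ≤ t.depth + max k0.depth k1.depth := by
  induction t with
  | ret b => cases b <;> simp [bind, depth]
  | ask q t0 t1 ih0 ih1 =>
    simp only [bind, depth]
    omega

theorem eval_congr {B B' : Q → Bool} {t : QTree Q} (h : ∀ q ∈ t.asked B, B' q = B q) :
    t.eval B' = t.eval B ∧ t.asked B' = t.asked B := by
  induction t with
  | ret b => exact ⟨rfl, rfl⟩
  | ask q t0 t1 ih0 ih1 =>
    simp only [asked] at h ⊢
    simp only [eval]
    have hq : B' q = B q := h q List.mem_cons_self
    rw [hq]
    cases hb : B q with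
    | false =>
      rw [hb] at h
      have := ih0 fun q' hq' => h q' (List.mem_cons_of_mem _ hq')
      simpa using this
    | true =>
      rw [hb] at h
      have := ih1 fun q' hq' => h q' (List.mem_cons_of_mem _ hq')
      simpa using this

theorem length_asked (B : Q → Bool) (t : QTree Q) : (t.asked B).length ≤ t.depth := by
  induction t with
  | ret b => exact le_rfl
  | ask q t0 t1 ih0 ih1 =>
    simp only [asked, depth, List.length_cons]
    cases B q with
    | false => simpa using ih0.trans (le_max_left _ _)
    | true => simpa using ih1.trans (le_max_right _ _)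

/-! ### fresh labels -/

section fresh

variable {K ι : Type} [DecidableEq K]

/-- the oracle which answers the bit `j` of the label of the key `T` by `code i T j`, where `i` is
the index of `T` in the list `σ`; the other queries are answered by `B0` -/
def fresh (cls : Q → Option (K × ι)) (B0 : Q → Bool) (code : ℕ → K → ι → Bool) (σ : List K)
    (q : Q) : Bool :=
  match cls q with
  | none => B0 q
  | some (T, j) => code (σ.idxOf T) T j

theorem idxOf_prefix {σ τ : List K} (h : σ <+: τ) {T : K} (hT : T ∈ σ) :
    τ.idxOf T = σ.idxOf T := by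
  obtain ⟨ρ, rfl⟩ := h
  exact List.idxOf_append_of_mem hT

/-- the fresh label lemma -/
theorem exists_fresh (cls : Q → Option (K × ι)) (B0 : Q → Bool) (code : ℕ → K → ι → Bool)
    (t : QTree Q) : ∀ σ0 : List K, σ0.Nodup → ∃ σ : List K, σ0 <+: σ ∧ σ.Nodup ∧
      σ.length ≤ σ0.length + t.depth ∧
      (∀ T ∈ σ, T ∈ σ0 ∨ ∃ q ∈ t.asked (fresh cls B0 code σ), ∃ j, cls q = some (T, j)) ∧
      ∀ q ∈ t.asked (fresh cls B0 code σ), ∀ T j, cls q = some (T, j) → T ∈ σ := by
  induction t with
  | ret b =>
    intro σ0 h0
    exact ⟨σ0, List.prefix_refl _, h0, by simp [depth], fun T hT => Or.inl hT,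
      by simp [asked]⟩
  | ask q t0 t1 ih0 ih1 =>
    intro σ0 h0
    have key : ∀ (t : QTree Q) (b : Bool) (σ1 : List K), σ1.Nodup → σ0 <+: σ1 →
        (∀ T ∈ σ1, T ∈ σ0 ∨ ∃ j, cls q = some (T, j)) →
        (∀ T j, cls q = some (T, j) → T ∈ σ1) →
        (∀ σ, σ1 <+: σ → fresh cls B0 code σ q = b) →
        t = (bif b then t1 else t0) →
        (∃ σ : List K, σ1 <+: σ ∧ σ.Nodup ∧ σ.length ≤ σ1.length + t.depth ∧
          (∀ T ∈ σ, T ∈ σ1 ∨ ∃ q ∈ t.asked (fresh cls B0 code σ), ∃ j, cls q = some (T, j)) ∧
          ∀ q ∈ t.asked (fresh cls B0 code σ), ∀ T j, cls q = some (T, j) → T ∈ σ) →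
        ∃ σ : List K, σ0 <+: σ ∧ σ.Nodup ∧ σ.length ≤ σ1.length + t.depth ∧
          (∀ T ∈ σ, T ∈ σ0 ∨ ∃ q' ∈ (ask q t0 t1).asked (fresh cls B0 code σ), ∃ j,
            cls q' = some (T, j)) ∧
          ∀ q' ∈ (ask q t0 t1).asked (fresh cls B0 code σ), ∀ T j, cls q' = some (T, j) →
            T ∈ σ := by
      rintro t b σ1 h1 h01 hc0 hc1 hb ht ⟨σ, hs, hn, hl, hd, he⟩
      have hA : (ask q t0 t1).asked (fresh cls B0 code σ) =
          q :: t.asked (fresh cls B0 code σ) := by
        simp only [asked, hb σ hs, ht]
        cases b <;> rfl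
      refine ⟨σ, h01.trans hs, hn, hl, ?_, ?_⟩
      · intro T hT
        rcases hd T hT with h | ⟨q', hq', j, hj⟩
        · rcases hc0 T h with h | ⟨j, hj⟩
          · exact Or.inl h
          · exact Or.inr ⟨q, by rw [hA]; exact List.mem_cons_self, j, hj⟩
        · exact Or.inr ⟨q', by rw [hA]; exact List.mem_cons_of_mem _ hq', j, hj⟩
      · intro q' hq' T j hj
        rw [hA] at hq'
        rcases List.mem_cons.1 hq' with rfl | hq'
        · exact hs.subset (hc1 T j hj)
        · exact he q' hq' T j hj
    cases hq : cls q with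
    | none =>
      have hb : ∀ σ, σ0 <+: σ → fresh cls B0 code σ q = B0 q := by
        intro σ _
        simp [fresh, hq]
      have h1 := key (bif B0 q then t1 else t0) (B0 q) σ0 h0 (List.prefix_refl _)
        (fun T hT => Or.inl hT) (fun T j h => by rw [hq] at h; exact absurd h (by simp)) hb rfl
        (by cases B0 q with
          | false => exact ih0 σ0 h0
          | true => exact ih1 σ0 h0)
      obtain ⟨σ, a, b, c, d, e⟩ := h1
      refine ⟨σ, a, b, c.trans ?_, d, e⟩
      have : (bif B0 q then t1 else t0).depth ≤ max t0.depth t1.depth := by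
        cases B0 q <;> simp
      simp only [depth]
      omega
    | some Tj =>
      obtain ⟨T, j⟩ := Tj
      obtain ⟨σ1, h1n, h01, hT1, hl1, hm1⟩ : ∃ σ1 : List K, σ1.Nodup ∧ σ0 <+: σ1 ∧ T ∈ σ1 ∧
          σ1.length ≤ σ0.length + 1 ∧ ∀ S ∈ σ1, S ∈ σ0 ∨ S = T := by
        by_cases h : T ∈ σ0
        · exact ⟨σ0, h0, List.prefix_refl _, h, by omega, fun S hS => Or.inl hS⟩
        · refine ⟨σ0 ++ [T], ?_, List.prefix_append _ _, by simp, by simp, by simp⟩
          rw [List.nodup_append]
          refine ⟨h0, List.nodup_singleton _, ?_⟩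
          intro a ha b hb
          rw [List.mem_singleton] at hb
          subst hb
          exact fun he => h (he ▸ ha)
      have hb : ∀ σ, σ1 <+: σ → fresh cls B0 code σ q = code (σ1.idxOf T) T j := by
        intro σ hσ
        simp only [fresh, hq]
        rw [idxOf_prefix hσ hT1]
      have h1 := key (bif code (σ1.idxOf T) T j then t1 else t0) (code (σ1.idxOf T) T j) σ1 h1n
        h01 (fun S hS => by
          rcases hm1 S hS with h | h
          · exact Or.inl h
          · exact Or.inr ⟨j, by rw [hq, h]⟩)
        (fun S i h => by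
          rw [hq] at h
          simp only [Option.some.injEq, Prod.mk.injEq] at h
          rw [← h.1]; exact hT1) hb rfl
        (by cases code (σ1.idxOf T) T j with
          | false => exact ih0 σ1 h1n
          | true => exact ih1 σ1 h1n)
      obtain ⟨σ, a, b, c, d, e⟩ := h1
      refine ⟨σ, a, b, c.trans ?_, d, e⟩
      have : (bif code (σ1.idxOf T) T j then t1 else t0).depth ≤ max t0.depth t1.depth := by
        cases code (σ1.idxOf T) T j <;> simp
      simp only [depth]
      omega

end fresh

end QTree

end Orc
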