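import Pool.Agent.Work.MP_609cce_lc.OrcLoc
import Pool.Agent.Work.MP_609cce_lc.OrcTree

/-!
# Runs of procedures as decision trees over the queries which are not of the fourth type
-/

namespace ORDist

open Orc

/-! ### parsing of the queries of the fourth type -/

theorem kQ_inj {r r' w w' : Str} (h : kQ r w = kQ r' w') : r = r' ∧ w = w' := by
  simp only [kQ, List.cons.injEq, true_and] at h
  exact pairStr_inj' h

theorem rK_inj {s s' t t' e e' : ℕ} {x x' : Str} (h : rK s t e x = rK s' t' e' x') :
    s = s' ∧ t = t' ∧ e = e' ∧ x = x' := by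
  obtain ⟨h1, h2⟩ := un_inj h
  obtain ⟨h3, h4⟩ := un_inj h2
  obtain ⟨h5, h6⟩ := un_inj h4
  exact ⟨h1, h3, h5, h6⟩

/-- `q` is the coded computation with the parameters `p = (s, t, e, x, w)` -/
def IsK (q : Str) (p : ℕ × ℕ × ℕ × Str × Str) : Prop :=
  q = kQ (rK p.1 p.2.1 p.2.2.1 p.2.2.2.1) p.2.2.2.2 ∧ p.2.2.2.2.length ≤ p.1

theorem IsK.unique {q : Str} {p p' : ℕ × ℕ × ℕ × Str × Str} (h : IsK q p) (h' : IsK q p') :
    p = p' := by
  obtain ⟨s, t, e, x, w⟩ := p
  obtain ⟨s', t', e', x', w'⟩ := p'
  obtain ⟨h1, h2⟩ := kQ_inj (h.1.symm.trans h'.1)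
  obtain ⟨h3, h4, h5, h6⟩ := rK_inj h1
  simp only at h2 h3 h4 h5 h6
  subst h2 h3 h4 h5 h6
  rfl

theorem IsK.lt {q : Str} {p : ℕ × ℕ × ℕ × Str × Str} (h : IsK q p) : p.2.1 < q.length := by
  rw [h.1]
  simp only [kQ, List.length_cons, pairStr_length', rK_length]
  omega

/-- the parser -/
noncomputable def kparse (q : Str) : Option (ℕ × ℕ × ℕ × Str × Str) :=
  @dite _ (∃ p, IsK q p) (Classical.propDecidable _) (fun h => some h.choose) fun _ => none

theorem kparse_some {q : Str} {p : ℕ × ℕ × ℕ × Str × Str} (h : kparse q = some p) : IsK q p := by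
  unfold kparse at h
  by_cases h' : ∃ p, IsK q p
  · rw [dif_pos h'] at h
    simp only [Option.some.injEq] at h
    rw [← h]
    exact h'.choose_spec
  · rw [dif_neg h'] at h
    exact absurd h (by simp)

theorem kparse_none {q : Str} (h : kparse q = none) (p : ℕ × ℕ × ℕ × Str × Str) : ¬ IsK q p := by
  intro hp
  unfold kparse at h
  rw [dif_pos ⟨p, hp⟩] at h
  exact absurd h (by simp)

/-- queries of the fourth type -/
def KType (q : Str) : Prop := ∃ r w, q = kQ r w

/-! ### the trees -/

/-- the tree of the clocked simulation, `QT` being the trees of the queries -/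
def tsim (QT : Str → QTree Str) (M : OProc) (inp : Str) (t : ℕ) (a : Str) : QTree Str :=
  if (M (inp, a)).1 = true then
    if _h : (M (inp, a)).2.length < t then
      (QT (M (inp, a)).2).bind (tsim QT M inp (t - (M (inp, a)).2.length - 1) (a ++ [false]))
        (tsim QT M inp (t - (M (inp, a)).2.length - 1) (a ++ [true]))
    else .ret false
  else .ret (decide ((M (inp, a)).2 = [true]))
termination_by t

/-- the tree of a query (correct for `|q| < n`) -/
noncomputable def qtn (Mach : ℕ → OProc) : ℕ → Str → QTree Str
  | 0, _ => .ret false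
  | n + 1, q => match kparse q with
    | some p => tsim (qtn Mach n) (Mach p.2.2.1) (pairStr (p.2.2.2.1, p.2.2.2.2)) p.2.1 []
    | none => @ite _ (KType q) (Classical.propDecidable _) (.ret false)
        (.ask q (.ret false) (.ret true))

theorem tsim_eval {QT : Str → QTree Str} {A : Str → Bool} (M : OProc) (inp : Str) :
    ∀ (t : ℕ) (a : Str), (∀ q : Str, q.length < t → (QT q).eval A = A q) →
      (tsim QT M inp t a).eval A = sim A M inp t a := by
  intro t
  induction t using Nat.strong_induction_on with
  | _ t ih =>
    intro a h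
    rw [tsim.eq_def QT M inp t a, sim.eq_def A M inp t a]
    split_ifs with h1 h2
    · rw [QTree.eval_bind, h _ h2]
      have h3 := fun b => ih (t - (M (inp, a)).2.length - 1) (by omega) (a ++ [b])
        fun q hq => h q (by omega)
      rw [h3, h3]
      cases A (M (inp, a)).2 <;> rfl
    · rfl
    · rfl

theorem tsim_depth {QT : Str → QTree Str} (M : OProc) (inp : Str) :
    ∀ (t : ℕ) (a : Str), (∀ q : Str, q.length < t → (QT q).depth ≤ q.length + 1) →
      (tsim QT M inp t a).depth ≤ t := by
  intro t
  induction t using Nat.strong_induction_on with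
  | _ t ih =>
    intro a h
    rw [tsim.eq_def QT M inp t a]
    split_ifs with h1 h2
    · have h3 := fun b => ih (t - (M (inp, a)).2.length - 1) (by omega) (a ++ [b])
        fun q hq => h q (by omega)
      refine (QTree.depth_bind _ _ _).trans ?_
      have h4 := h _ h2
      have h5 := h3 false
      have h6 := h3 true
      have h7 := max_le h5 h6
      omega
    · exact Nat.zero_le _
    · exact Nat.zero_le _

theorem tsim_asked {QT : Str → QTree Str} (B : Str → Bool) (M : OProc) (inp : Str) {P : Str → Prop} :
    ∀ (t : ℕ) (a : Str), (∀ q : Str, q.length < t → ∀ q' ∈ (QT q).asked B, P q') →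
      ∀ q' ∈ (tsim QT M inp t a).asked B, P q' := by
  intro t
  induction t using Nat.strong_induction_on with
  | _ t ih =>
    intro a h
    rw [tsim.eq_def QT M inp t a]
    split_ifs with h1 h2
    · have h3 := fun b => ih (t - (M (inp, a)).2.length - 1) (by omega) (a ++ [b])
        fun q hq => h q (by omega)
      rw [QTree.asked_bind]
      intro q' hq'
      rcases List.mem_append.1 hq' with h4 | h4
      · exact h _ h2 q' h4
      · cases h5 : (QT (M (inp, a)).2).eval B with
        | false => rw [h5] at h4; exact h3 false q' h4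
        | true => rw [h5] at h4; exact h3 true q' h4
    · simp [QTree.asked]
    · simp [QTree.asked]

variable {Mach : ℕ → OProc}

theorem qtn_eval {A : Str → Bool} (hA : ∀ r w, A (kQ r w) = true ↔ yesK Mach A r w) :
    ∀ (n : ℕ) (q : Str), q.length < n → (qtn Mach n q).eval A = A q := by
  intro n
  induction n with
  | zero => intro q hq; exact absurd hq (Nat.not_lt_zero _)
  | succ n ih =>
    intro q hq
    cases hk : kparse q with
    | some p =>
      have hp := kparse_some hk
      have h1 : (qtn Mach (n + 1) q) = tsim (qtn Mach n) (Mach p.2.2.1)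
          (pairStr (p.2.2.2.1, p.2.2.2.2)) p.2.1 [] := by
        rw [qtn, hk]
      have hlt := hp.lt
      rw [h1, tsim_eval _ _ _ _ fun q' hq' => ih q' (by omega)]
      obtain ⟨s, t, e, x, w⟩ := p
      simp only at hp hlt ⊢
      rw [Bool.eq_iff_iff, hp.1, hA]
      constructor
      · intro h
        exact ⟨s, t, e, x, rfl, hp.2, h⟩
      · rintro ⟨s', t', e', x', h2, h3, h4⟩
        obtain ⟨h5, h6, h7, h8⟩ := rK_inj h2
        simp only at h4 h5 h6 h7 h8 ⊢
        subst h5 h6 h7 h8
        exact h4
    | none =>
      have hn := kparse_none hk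
      by_cases hK : KType q
      · have h1 : (qtn Mach (n + 1) q) = .ret false := by
          rw [qtn, hk]
          simp only [if_pos hK]
        rw [h1]
        obtain ⟨r, w, rfl⟩ := hK
        show false = A (kQ r w)
        symm
        rw [Bool.eq_false_iff, Ne, hA]
        rintro ⟨s, t, e, x, h2, h3, h4⟩
        exact hn (s, t, e, x, w) ⟨by rw [h2], h3⟩
      · have h1 : (qtn Mach (n + 1) q) = .ask q (.ret false) (.ret true) := by
          rw [qtn, hk]
          simp only [if_neg hK]
        rw [h1]
        simp only [QTree.eval]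
        cases A q <;> rfl

theorem qtn_depth : ∀ (n : ℕ) (q : Str), q.length < n →
    (qtn Mach n q).depth ≤ q.length + 1 := by
  intro n
  induction n with
  | zero => intro q hq; exact absurd hq (Nat.not_lt_zero _)
  | succ n ih =>
    intro q hq
    cases hk : kparse q with
    | some p =>
      have hp := kparse_some hk
      have h1 : (qtn Mach (n + 1) q) = tsim (qtn Mach n) (Mach p.2.2.1)
          (pairStr (p.2.2.2.1, p.2.2.2.2)) p.2.1 [] := by
        rw [qtn, hk]
      have hlt := hp.lt
      rw [h1]
      have := tsim_depth (QT := qtn Mach n) (Mach p.2.2.1) (pairStr (p.2.2.2.1, p.2.2.2.2))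
        p.2.1 [] fun q' hq' => ih q' (by omega)
      omega
    | none =>
      by_cases hK : KType q
      · have h1 : (qtn Mach (n + 1) q) = .ret false := by
          rw [qtn, hk]
          simp only [if_pos hK]
        rw [h1]
        exact Nat.zero_le _
      · have h1 : (qtn Mach (n + 1) q) = .ask q (.ret false) (.ret true) := by
          rw [qtn, hk]
          simp only [if_neg hK]
        rw [h1]
        simp [QTree.depth]

theorem qtn_asked (B : Str → Bool) : ∀ (n : ℕ) (q : Str), q.length < n →
    ∀ q' ∈ (qtn Mach n q).asked B, q'.length ≤ q.length ∧ ¬ KType q' := by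
  intro n
  induction n with
  | zero => intro q hq; exact absurd hq (Nat.not_lt_zero _)
  | succ n ih =>
    intro q hq
    cases hk : kparse q with
    | some p =>
      have hp := kparse_some hk
      have h1 : (qtn Mach (n + 1) q) = tsim (qtn Mach n) (Mach p.2.2.1)
          (pairStr (p.2.2.2.1, p.2.2.2.2)) p.2.1 [] := by
        rw [qtn, hk]
      have hlt := hp.lt
      rw [h1]
      refine tsim_asked B _ _ _ _ fun q' hq' q'' hq'' => ?_
      have := ih q' (by omega) q'' hq''
      exact ⟨by omega, this.2⟩
    | none =>
      by_cases hK : KType q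
      · have h1 : (qtn Mach (n + 1) q) = .ret false := by
          rw [qtn, hk]
          simp only [if_pos hK]
        rw [h1]
        simp [QTree.asked]
      · have h1 : (qtn Mach (n + 1) q) = .ask q (.ret false) (.ret true) := by
          rw [qtn, hk]
          simp only [if_neg hK]
        rw [h1]
        intro q' hq'
        simp only [QTree.asked] at hq'
        have : q' = q := by
          cases h : B q <;> rw [h] at hq' <;> simpa [QTree.asked] using hq'
        rw [this]
        exact ⟨le_rfl, hK⟩

/-! ### runs with a bounded number of queries -/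

/-- the tree of the run of `M` on `x` with fewer than `k` further queries -/
def ptree (QT : Str → QTree Str) (M : OProc) (x : Str) : ℕ → Str → QTree Str
  | 0, _ => .ret false
  | k + 1, a =>
    if (M (x, a)).1 = true then
      (QT (M (x, a)).2).bind (ptree QT M x k (a ++ [false])) (ptree QT M x k (a ++ [true]))
    else .ret (decide ((M (x, a)).2 = [true]))

theorem ptree_eval {QT : Str → QTree Str} {A : Str → Bool} {M : OProc} {x : Str} {N K : ℕ}
    (hQT : ∀ q : Str, q.length < N → (QT q).eval A = A q)
    (hM : ∀ a : Str, a.length ≤ K → (M (x, a)).2.length < N) {k0 : ℕ} {v : Bool}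
    (h1 : ∀ j < k0, (M (x, answers A M x j)).1 = true)
    (h2 : M (x, answers A M x k0) = (false, [v])) (hk0 : k0 ≤ K) :
    ∀ (k i : ℕ), k0 = i + k → ∀ k' > k, (ptree QT M x k' (answers A M x i)).eval A = v := by
  have hlen : ∀ j, (answers A M x j).length = j := by
    intro j
    induction j with
    | zero => rfl
    | succ j ih => rw [answers, List.length_append, ih]; rfl
  intro k
  induction k with
  | zero =>
    intro i hi k' hk'
    obtain ⟨k'', rfl⟩ : ∃ k'', k' = k'' + 1 := ⟨k' - 1, by omega⟩
    rw [ptree]
    have e : i = k0 := by omega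
    rw [e, h2]
    cases v <;> simp [QTree.eval]
  | succ k ih =>
    intro i hi k' hk'
    obtain ⟨k'', rfl⟩ : ∃ k'', k' = k'' + 1 := ⟨k' - 1, by omega⟩
    rw [ptree, if_pos (h1 i (by omega)), QTree.eval_bind,
      hQT _ (hM _ (by rw [hlen]; omega))]
    have h3 := ih (i + 1) (by omega) k'' (by omega)
    rw [answers] at h3
    cases hA : A (M (x, answers A M x i)).2 with
    | false => rw [hA] at h3; exact h3
    | true => rw [hA] at h3; exact h3

theorem ptree_depth {QT : Str → QTree Str} {M : OProc} {x : Str} {S K : ℕ}
    (hM : ∀ a : Str, a.length ≤ K → (QT (M (x, a)).2).depth ≤ S) :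
    ∀ (k : ℕ) (a : Str), a.length + k ≤ K → (ptree QT M x k a).depth ≤ k * S := by
  intro k
  induction k with
  | zero => intro a _; exact Nat.zero_le _
  | succ k ih =>
    intro a ha
    rw [ptree]
    split_ifs with h
    · refine (QTree.depth_bind _ _ _).trans ?_
      have h1 := ih (a ++ [false]) (by simp; omega)
      have h2 := ih (a ++ [true]) (by simp; omega)
      have h3 := max_le h1 h2
      have h4 := hM a (by omega)
      have h5 : (k + 1) * S = k * S + S := by ring
      omega
    · exact Nat.zero_le _

theorem ptree_asked {QT : Str → QTree Str} {M : OProc} {x : Str} {K : ℕ} (B : Str → Bool)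
    {P : Str → Prop}
    (hM : ∀ a : Str, a.length ≤ K → ∀ q' ∈ (QT (M (x, a)).2).asked B, P q') :
    ∀ (k : ℕ) (a : Str), a.length + k ≤ K → ∀ q' ∈ (ptree QT M x k a).asked B, P q' := by
  intro k
  induction k with
  | zero => intro a _; simp [ptree, QTree.asked]
  | succ k ih =>
    intro a ha
    rw [ptree]
    split_ifs with h
    · rw [QTree.asked_bind]
      intro q' hq'
      rcases List.mem_append.1 hq' with h4 | h4
      · exact hM a (by omega) q' h4
      · cases h5 : (QT (M (x, a)).2).eval B with
        | false => rw [h5] at h4; exact ih _ (by simp; omega) q' h4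
        | true => rw [h5] at h4; exact ih _ (by simp; omega) q' h4
    · simp [QTree.asked]

end ORDist
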