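import Pool.Agent.Work.MP_609cce_lc.OrcSim
import Pool.Agent.Work.MP_609cce_lc.OrcEnum

/-!
# One stage of the construction
-/

namespace ORDist

open Orc PTime

/-! ### fresh strings -/

/-- the binary digits of `i` on `m` places -/
def binS (m i : ℕ) : Str := (List.range m).map fun k => i.testBit k

theorem binS_length (m i : ℕ) : (binS m i).length = m := by simp [binS]

theorem binS_inj {m i j : ℕ} (hi : i < 2 ^ m) (hj : j < 2 ^ m) (h : binS m i = binS m j) :
    i = j := by
  apply Nat.eq_of_testBit_eq
  intro k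
  by_cases hk : k < m
  · have h1 := List.map_inj_left.1 h k (List.mem_range.2 hk)
    exact h1
  · have h2 : 2 ^ m ≤ 2 ^ k := Nat.pow_le_pow_right (by norm_num) (by omega)
    rw [Nat.testBit_lt_two_pow (by omega), Nat.testBit_lt_two_pow (by omega)]

/-- the labels -/
def lbl (m i : ℕ) : Str := true :: false :: binS m i

theorem lbl_length (m i : ℕ) : (lbl m i).length = m + 2 := by simp [lbl, binS_length]

theorem lbl_inj {m m' i j : ℕ} (hi : i < 2 ^ m) (hj : j < 2 ^ m') (h : lbl m i = lbl m' j) :
    m = m' ∧ i = j := by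
  have h1 := congrArg List.length h
  rw [lbl_length, lbl_length] at h1
  have h2 : m = m' := by omega
  subst h2
  simp only [lbl, List.cons.injEq, true_and] at h
  exact ⟨rfl, binS_inj hi hj h⟩

/-- counting strings -/
theorem exists_not_asked (L : List Str) (f : Str → Str) (hf : Function.Injective f) (m : ℕ)
    (h : L.length < 2 ^ m) : ∃ w : Str, w.length = m ∧ f w ∉ L := by
  classical
  by_contra hcon
  push Not at hcon
  have h1 : (Finset.univ : Finset (Fin m → Bool)).card ≤ L.toFinset.card := by
    refine Finset.card_le_card_of_injOn (fun g => f (List.ofFn g)) ?_ ?_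
    · intro g _
      simp only [Finset.mem_coe, List.mem_toFinset]
      exact hcon _ (List.length_ofFn)
    · intro g _ g' _ hg
      exact List.ofFn_injective (hf hg)
  rw [Finset.card_univ, Fintype.card_fun, Fintype.card_bool, Fintype.card_fin] at h1
  have h2 := L.toFinset_card_le
  omega

theorem plainQ_inj : Function.Injective plainQ := by
  intro w w' h
  simpa [plainQ] using h

theorem wQ_inj (y : Str) : Function.Injective (wQ y) := by
  intro w w' h
  simp only [wQ, List.cons.injEq, true_and] at h
  exact (pairStr_inj' h).2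

/-! ### the data and one stage -/

/-- well-formed data which are empty above `b` -/
structure GoodD (δ : Data) (b : ℕ) : Prop where
  wf : δ.WF
  e1 : ∀ w : Str, b ≤ w.length → δ.A0 w = false
  e2 : ∀ T : List Str, b ≤ maxlen T → δ.exc T = none
  e3 : ∀ y : Str, b + 2 ≤ y.length → δ.lab y = none

/-- the new hash queries -/
noncomputable def hcls (n : ℕ) (q : Str) : Option (List Str × ℕ) :=
  @dite _ (∃ p : List Str × ℕ, q = hashQ p.2 p.1 ∧ n ≤ maxlen p.1) (Classical.propDecidable _)
    (fun h => some h.choose) fun _ => none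

theorem hashQ_inj {j j' : ℕ} {T T' : List Str} (h : hashQ j T = hashQ j' T') :
    j = j' ∧ T = T' := by
  simp only [hashQ, List.cons.injEq, true_and] at h
  obtain ⟨h1, h2⟩ := un_inj h
  exact ⟨h1, seqBits_inj h2⟩

theorem hcls_some {n : ℕ} {q : Str} {T : List Str} {j : ℕ} :
    hcls n q = some (T, j) ↔ q = hashQ j T ∧ n ≤ maxlen T := by
  unfold hcls
  constructor
  · intro h
    by_cases h' : ∃ p : List Str × ℕ, q = hashQ p.2 p.1 ∧ n ≤ maxlen p.1
    · rw [dif_pos h'] at h
      simp only [Option.some.injEq] at h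
      have h1 := h'.choose_spec
      rw [h] at h1
      exact h1
    · rw [dif_neg h'] at h
      exact absurd h (by simp)
  · intro h
    have h' : ∃ p : List Str × ℕ, q = hashQ p.2 p.1 ∧ n ≤ maxlen p.1 := ⟨(T, j), h⟩
    rw [dif_pos h']
    have h1 := h'.choose_spec
    obtain ⟨h2, h3⟩ := hashQ_inj (h1.1.symm.trans h.1)
    rw [Option.some.injEq]
    exact Prod.ext h3 h2

/-- the new data -/
noncomputable def newData (δ : Data) (σ : List (List Str)) (wit : Str → Str) (out : Bool)
    (ws : Str) : Data :=
  open Classical in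
  { A0 := fun w => δ.A0 w || (!out && decide (w = ws))
    exc := fun T => if T ∈ σ then some (lbl (maxlen T) (σ.idxOf T)) else δ.exc T
    lab := fun y => if h : ∃ T ∈ σ, lbl (maxlen T) (σ.idxOf T) = y then some (h.choose, wit y)
      else δ.lab y }

section

variable {δ : Data} {b n : ℕ} {σ : List (List Str)} {wit : Str → Str} {out : Bool} {ws : Str}

theorem newData_exc_pos {T : List Str} (hT : T ∈ σ) :
    (newData δ σ wit out ws).exc T = some (lbl (maxlen T) (σ.idxOf T)) := by
  simp only [newData, if_pos hT]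

theorem newData_exc_neg {T : List Str} (hT : T ∉ σ) :
    (newData δ σ wit out ws).exc T = δ.exc T := by
  simp only [newData, if_neg hT]

theorem newData_lab_neg {y : Str} (hy : ¬ ∃ T ∈ σ, lbl (maxlen T) (σ.idxOf T) = y) :
    (newData δ σ wit out ws).lab y = δ.lab y := by
  simp only [newData, dif_neg hy]

theorem newData_lab_pos (hσ : ∀ T ∈ σ, n ≤ maxlen T) (hlen : σ.length < 2 ^ n) {T : List Str}
    (hT : T ∈ σ) : (newData δ σ wit out ws).lab (lbl (maxlen T) (σ.idxOf T)) =
      some (T, wit (lbl (maxlen T) (σ.idxOf T))) := by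
  have h : ∃ T' ∈ σ, lbl (maxlen T') (σ.idxOf T') = lbl (maxlen T) (σ.idxOf T) := ⟨T, hT, rfl⟩
  simp only [newData, dif_pos h]
  obtain ⟨h1, h2⟩ := h.choose_spec
  have hb : ∀ T' ∈ σ, σ.idxOf T' < 2 ^ maxlen T' := fun T' hT' =>
    lt_of_lt_of_le ((List.idxOf_lt_length_iff.2 hT').trans hlen)
      (Nat.pow_le_pow_right (by norm_num) (hσ T' hT'))
  obtain ⟨_, h4⟩ := lbl_inj (hb _ h1) (hb _ hT) h2
  have h5 : h.choose = T := (List.idxOf_inj h1).1 h4
  rw [h5]

theorem newData_lab_some (hσ : ∀ T ∈ σ, n ≤ maxlen T) (hlen : σ.length < 2 ^ n) {T : List Str}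
    {y w : Str} (h : (newData δ σ wit out ws).lab y = some (T, w)) :
    (T ∈ σ ∧ y = lbl (maxlen T) (σ.idxOf T) ∧ w = wit y) ∨
      ((¬ ∃ T ∈ σ, lbl (maxlen T) (σ.idxOf T) = y) ∧ δ.lab y = some (T, w)) := by
  by_cases hy : ∃ T ∈ σ, lbl (maxlen T) (σ.idxOf T) = y
  · obtain ⟨T', hT', rfl⟩ := hy
    rw [newData_lab_pos hσ hlen hT'] at h
    simp only [Option.some.injEq, Prod.mk.injEq] at h
    obtain ⟨rfl, rfl⟩ := h
    exact Or.inl ⟨hT', rfl, rfl⟩
  · rw [newData_lab_neg hy] at h
    exact Or.inr ⟨hy, h⟩

theorem newData_wf (hδ : GoodD δ b) (hbn : b ≤ n) (hσ : ∀ T ∈ σ, n ≤ maxlen T)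
    (hlen : σ.length < 2 ^ n) (hwit : ∀ y : Str, n ≤ y.length → (wit y).length = y.length) :
    (newData δ σ wit out ws).WF := by
  refine ⟨?_, ?_, ?_⟩
  · intro T y h
    by_cases hT : T ∈ σ
    · rw [newData_exc_pos hT, Option.some.injEq] at h
      rw [← h]
      exact ⟨_, newData_lab_pos hσ hlen hT⟩
    · rw [newData_exc_neg hT] at h
      obtain ⟨w, hw⟩ := hδ.wf.exc_lab T y h
      refine ⟨w, ?_⟩
      rw [newData_lab_neg, hw]
      rintro ⟨T', hT', rfl⟩
      have h1 := (hδ.wf.len _ _ _ hw).1
      have h2 : ¬ b ≤ maxlen T := fun h3 => by rw [hδ.e2 T h3] at h; exact absurd h (by simp)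
      rw [lbl_length] at h1
      have := hσ T' hT'
      omega
  · intro y T w h
    rcases newData_lab_some hσ hlen h with ⟨h1, h2, h3⟩ | ⟨_, h2⟩
    · have h4 := hσ T h1
      have h5 : y.length = maxlen T + 2 := by rw [h2, lbl_length]
      exact ⟨h5, by rw [h3]; exact hwit y (by omega)⟩
    · exact hδ.wf.len y T w h2
  · intro y T w h
    rcases newData_lab_some hσ hlen h with ⟨h1, h2, h3⟩ | ⟨_, h2⟩
    · rw [h2]
      simp [lbl]
    · exact hδ.wf.non y T w h2

theorem newData_good {b' : ℕ} (hδ : GoodD δ b) (hbn : b ≤ n) (hσ : ∀ T ∈ σ, n ≤ maxlen T)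
    (hlen : σ.length < 2 ^ n) (hwit : ∀ y : Str, n ≤ y.length → (wit y).length = y.length)
    (hws : ws.length = n) (hnb : n < b') (hσ' : ∀ T ∈ σ, maxlen T < b') :
    GoodD (newData δ σ wit out ws) b' := by
  refine ⟨newData_wf hδ hbn hσ hlen hwit, ?_, ?_, ?_⟩
  · intro w hw
    have h1 : w ≠ ws := by rintro rfl; omega
    simp [newData, hδ.e1 w (by omega), h1]
  · intro T hT
    have h1 : T ∉ σ := fun h => by have := hσ' T h; omega
    rw [newData_exc_neg h1]
    exact hδ.e2 T (by omega)
  · intro y hy
    rw [newData_lab_neg]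
    · exact hδ.e3 y (by omega)
    · rintro ⟨T, hT, rfl⟩
      rw [lbl_length] at hy
      have := hσ' T hT
      omega

theorem newData_agree (hσ : ∀ T ∈ σ, n ≤ maxlen T) (hws : ws.length = n) :
    Agree δ (newData δ σ wit out ws) n := by
  refine ⟨?_, ?_, ?_⟩
  · intro w hw
    have h1 : w ≠ ws := by rintro rfl; omega
    simp [newData, h1]
  · intro T hT
    rw [newData_exc_neg]
    intro h
    have := hσ T h
    omega
  · intro y hy
    rw [newData_lab_neg]
    rintro ⟨T, hT, rfl⟩
    rw [lbl_length] at hy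
    have := hσ T hT
    omega

theorem idxOf_irrel {α : Type} (i1 i2 : BEq α) (h1 : @LawfulBEq α i1) (h2 : @LawfulBEq α i2)
    (a : α) (l : List α) : @List.idxOf α i1 a l = @List.idxOf α i2 a l := by
  have h : i1 = i2 := by
    obtain ⟨f⟩ := i1
    obtain ⟨g⟩ := i2
    congr
    funext x y
    rw [Bool.eq_iff_iff]
    exact (@beq_iff_eq α ⟨f⟩ h1 x y).trans (@beq_iff_eq α ⟨g⟩ h2 x y).symm
  subst h
  rfl

/-- the answers to the asked queries -/
theorem newData_answer {Mach : ℕ → OProc} (hδ : GoodD δ b) (hbn : b ≤ n)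
    (hσ : ∀ T ∈ σ, n ≤ maxlen T)
    (hlen : σ.length < 2 ^ n) (hwit : ∀ y : Str, n ≤ y.length → (wit y).length = y.length)
    (hws : ws.length = n) {q : Str} (hK : ¬ KType q)
    (h1 : ∀ T j, hcls n q = some (T, j) → T ∈ σ)
    (h2 : q ≠ plainQ ws) (h3 : ∀ y : Str, n ≤ y.length → q ≠ wQ y (wit y)) :
    orc Mach (newData δ σ wit out ws) q =
      QTree.fresh (hcls n) (orc Mach δ)
        (fun i T j => (pairStr (lbl (maxlen T) i, [])).getD j false) σ q := by
  have hwf := newData_wf (out := out) (ws := ws) hδ hbn hσ hlen hwit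
  have hag := newData_agree (δ := δ) (wit := wit) (out := out) hσ hws
  unfold QTree.fresh
  cases hc : hcls n q with
  | some Tj =>
    obtain ⟨T, j⟩ := Tj
    have hTs := h1 T j hc
    obtain ⟨rfl, _⟩ := hcls_some.1 hc
    rw [orc_hash hwf]
    have : hT (newData δ σ wit out ws) (lang Mach (newData δ σ wit out ws)) T =
        lbl (maxlen T) (σ.idxOf T) := by
      unfold hT
      rw [newData_exc_pos hTs]
    rw [this]
    exact congrArg (fun i => (pairStr (lbl (maxlen T) i, [])).getD j false)
      (idxOf_irrel _ _ inferInstance inferInstance T σ)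
  | none =>
    have hcn : ∀ T j, q = hashQ j T → maxlen T < n := by
      intro T j hq
      by_contra hcon
      have := hcls_some.2 ⟨hq, not_lt.1 hcon⟩
      rw [hc] at this
      exact absurd this (by simp)
    simp only
    rw [orc_eq hwf, orc_eq hδ.wf, stepA, stepA]
    refine decide_eq_decide.2 (or_congr ?_ (or_congr ?_ (or_congr ?_ ?_)))
    · refine exists_congr fun w => and_congr_right fun hw => ?_
      have h4 : w ≠ ws := by rintro rfl; exact h2 hw
      simp [newData, h4]
    · refine exists_congr fun j => exists_congr fun T => and_congr_right fun hT => ?_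
      have h4 := hcn T j hT
      rw [hT_congr (hag.exc T h4).symm fun x hx =>
        (lang_local hδ.wf hwf hag (by have := le_maxlen hx; omega)).symm]
    · refine exists_congr fun y => exists_congr fun w => and_congr_right fun hw => ?_
      unfold yesW
      refine or_congr Iff.rfl ?_
      constructor
      · rintro ⟨T, h4, x, hx, h5⟩
        rcases newData_lab_some hσ hlen h4 with ⟨h6, h7, h8⟩ | ⟨_, h7⟩
        · exfalso
          refine h3 y ?_ (by rw [hw, h8])
          have := hσ T h6
          rw [h7, lbl_length]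
          omega
        · refine ⟨T, h7, x, hx, ?_⟩
          rw [lang_local hδ.wf hwf hag]
          · exact h5
          · have h8 := (hδ.wf.len _ _ _ h7).1
            have h9 : ¬ b + 2 ≤ y.length := fun h9 => by
              rw [hδ.e3 y h9] at h7; exact absurd h7 (by simp)
            have := le_maxlen hx
            omega
      · rintro ⟨T, h7, x, hx, h5⟩
        have h8 := (hδ.wf.len _ _ _ h7).1
        have h9 : ¬ b + 2 ≤ y.length := fun h9 => by
          rw [hδ.e3 y h9] at h7; exact absurd h7 (by simp)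
        refine ⟨T, ?_, x, hx, ?_⟩
        · rw [newData_lab_neg, h7]
          rintro ⟨T', hT', rfl⟩
          rw [lbl_length] at h9
          have := hσ T' hT'
          omega
        · rw [← lang_local hδ.wf hwf hag]
          · exact h5
          · have := le_maxlen hx
            omega
    · refine exists_congr fun r => exists_congr fun w => and_congr_right fun hw => ?_
      exact absurd ⟨r, w, hw⟩ hK

end

/-! ### polynomials are smaller than exponentials -/

theorem poly_lt_two_pow (P : Polynomial ℕ) (b : ℕ) : ∃ n ≥ b, P.eval n < 2 ^ n := by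
  have h : (fun n : ℕ => ((P.eval n : ℕ) : ℝ)) =o[Filter.atTop] fun n : ℕ => (2 : ℝ) ^ n := by
    induction P using Polynomial.induction_on' with
    | add p q hp hq =>
      have := hp.add hq
      refine this.congr_left fun n => ?_
      simp
    | monomial k a =>
      have := (isLittleO_pow_const_const_pow_of_one_lt (R := ℝ) k
        (one_lt_two : (1 : ℝ) < 2)).const_mul_left (a : ℝ)
      refine this.congr_left fun n => ?_
      simp
  have h2 := h.bound (show (0 : ℝ) < 1 / 2 by norm_num)
  obtain ⟨N, hN⟩ := Filter.eventually_atTop.1 h2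
  refine ⟨max N b, le_max_right _ _, ?_⟩
  have h3 := hN (max N b) (le_max_left _ _)
  rw [Real.norm_of_nonneg (by positivity), Real.norm_of_nonneg (by positivity)] at h3
  have h4 : ((P.eval (max N b) : ℕ) : ℝ) < 2 ^ (max N b) := by
    have : (0 : ℝ) < 2 ^ (max N b) := by positivity
    linarith
  exact_mod_cast h4

/-! ### the stage lemma -/

/-- what `M` has to do in order to decide the test language at the length `n` with at most `K`
queries -/
def Works (Mach : ℕ → OProc) (M : OProc) (n K : ℕ) (δ : Data) : Prop :=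
  ∃ k ≤ K, (∀ j < k, (M (List.replicate n true,
      answers (orc Mach δ) M (List.replicate n true) j)).1 = true) ∧
    ∃ v : Bool, M (List.replicate n true, answers (orc Mach δ) M (List.replicate n true) k) =
      (false, [v]) ∧ (v = true ↔ ∃ w : Str, w.length = n ∧ δ.A0 w = true)

theorem stage (Mach : ℕ → OProc) {δ : Data} {b : ℕ} (hδ : GoodD δ b) {M : OProc} (hM : PT M)
    (p : Polynomial ℕ) : ∃ (δ' : Data) (b' n : ℕ), GoodD δ' b' ∧ b < b' ∧ Agree δ δ' b ∧
      ∀ δ'' : Data, δ''.WF → Agree δ' δ'' b' → ¬ Works Mach M n (p.eval n) δ'' := by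
  obtain ⟨s, hs⟩ := exists_act_bound hM
  obtain ⟨n, hn, hn2⟩ := poly_lt_two_pow ((p + 1) * s.comp (Polynomial.X + p + 1)) (b + 1)
  set K := p.eval n + 1 with hK
  set N := s.eval (n + K) with hN
  have hn3 : K * N < 2 ^ n := by
    have : ((p + 1) * s.comp (Polynomial.X + p + 1)).eval n = K * N := by
      simp only [Polynomial.eval_mul, Polynomial.eval_add, Polynomial.eval_one,
        Polynomial.eval_comp, Polynomial.eval_X, hK, hN, add_assoc]
    rwa [this] at hn2
  set x : Str := List.replicate n true with hx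
  have hxl : x.length = n := List.length_replicate
  have hq : ∀ a : Str, a.length ≤ K → (M (x, a)).2.length + 1 ≤ N := by
    intro a ha
    refine (hs x a).trans ?_
    rw [hxl]
    exact eval_mono s (by omega)
  set t := ptree (qtn Mach N) M x K [] with ht
  have hdep : t.depth ≤ K * N := by
    refine ptree_depth (K := K) (fun a ha => ?_) K [] (by simp)
    have h1 := hq a ha
    exact (qtn_depth N _ (by omega)).trans h1
  obtain ⟨σ, -, hnd, hσl, hσa, hσc⟩ := QTree.exists_fresh (hcls n) (orc Mach δ)
    (fun i T j => (pairStr (lbl (maxlen T) i, [])).getD j false) t [] List.nodup_nil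
  set B := QTree.fresh (hcls n) (orc Mach δ)
    (fun i T j => (pairStr (lbl (maxlen T) i, [])).getD j false) σ with hB
  have hask : ∀ q ∈ t.asked B, q.length < N ∧ ¬ KType q := by
    refine ptree_asked (K := K) (P := fun q => q.length < N ∧ ¬ KType q) B (fun a ha q' hq' => ?_)
      K [] (by simp)
    have h1 := hq a ha
    have h2 := qtn_asked B N _ (by omega) q' hq'
    exact ⟨by omega, h2.2⟩
  have hσ : ∀ T ∈ σ, n ≤ maxlen T ∧ maxlen T < N := by
    intro T hT
    rcases hσa T hT with h | ⟨q, hq1, j, hq2⟩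
    · simp at h
    · obtain ⟨h1, h2⟩ := hcls_some.1 hq2
      have h3 := (hask q hq1).1
      rw [h1] at h3
      simp only [hashQ, List.length_cons, un_length] at h3
      have h4 := maxlen_le_seqBits T
      exact ⟨h2, by omega⟩
  have hσn : ∀ T ∈ σ, n ≤ maxlen T := fun T hT => (hσ T hT).1
  have hσlen : σ.length < 2 ^ n := by
    simp only [List.length_nil, zero_add] at hσl
    omega
  have hal : (t.asked B).length < 2 ^ n := by
    have := t.length_asked B
    omega
  obtain ⟨ws, hws, hws2⟩ := exists_not_asked (t.asked B) plainQ plainQ_inj n hal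
  have hw : ∀ y : Str, ∃ w : Str, n ≤ y.length → w.length = y.length ∧ wQ y w ∉ t.asked B := by
    intro y
    by_cases hy : n ≤ y.length
    · obtain ⟨w, h1, h2⟩ := exists_not_asked (t.asked B) (wQ y) (wQ_inj y) y.length
        (lt_of_lt_of_le hal (Nat.pow_le_pow_right (by norm_num) hy))
      exact ⟨w, fun _ => ⟨h1, h2⟩⟩
    · exact ⟨[], fun h => absurd h hy⟩
  choose wit hwit using hw
  set out := t.eval B with hout
  have hwf := newData_wf (out := out) (ws := ws) hδ (by omega : b ≤ n) hσn hσlen
    fun y hy => (hwit y hy).1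
  have hag := newData_agree (δ := δ) (wit := wit) (out := out) hσn hws
  refine ⟨newData δ σ wit out ws, n + N + 1, n,
    newData_good hδ (by omega) hσn hσlen (fun y hy => (hwit y hy).1) hws (by omega)
      (fun T hT => by have := (hσ T hT).2; omega), by omega, hag.mono (by omega), ?_⟩
  intro δ'' hδ'' hag'' hworks
  have hans : ∀ q ∈ t.asked B, orc Mach δ'' q = B q := by
    intro q hq'
    have h1 := hask q hq'
    rw [← orc_local hwf hδ'' hag'' (by omega : q.length ≤ n + N + 1)]
    exact newData_answer hδ (by omega) hσn hσlen (fun y hy => (hwit y hy).1) hws h1.2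
      (fun T j h => hσc q hq' T j h) (fun h => hws2 (h ▸ hq'))
      (fun y hy h => (hwit y hy).2 (h ▸ hq'))
  have heval : t.eval (orc Mach δ'') = out := (QTree.eval_congr hans).1
  obtain ⟨k, hk, ha, v, hv, hv2⟩ := hworks
  have h5 := ptree_eval (QT := qtn Mach N) (A := orc Mach δ'') (M := M) (x := x) (N := N) (K := K)
    (fun q hq' => qtn_eval (fun r w => orc_kQ hδ'' r w) N q hq')
    (fun a ha => by have := hq a ha; omega) ha hv (by omega) k 0 (by omega) K (by omega)
  have h6 : v = out := by
    rw [← heval, ← h5]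
    rfl
  have h7 : (∃ w : Str, w.length = n ∧ δ''.A0 w = true) ↔ out = false := by
    constructor
    · rintro ⟨w, h8, h9⟩
      rw [← hag''.A0 w (by omega)] at h9
      simp only [newData, hδ.e1 w (by omega), Bool.false_or, Bool.and_eq_true,
        Bool.not_eq_true'] at h9
      exact h9.1
    · intro h8
      refine ⟨ws, hws, ?_⟩
      rw [← hag''.A0 ws (by omega)]
      simp [newData, h8]
  rw [h7, h6] at hv2
  cases hout' : out with
  | false => rw [hout'] at hv2; simp at hv2
  | true => rw [hout'] at hv2; simp at hv2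

end ORDist
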