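import Mathlib

/-!
# The proof system behind `OR-distillation implies NP = coNP` (combinatorial part)

`V u` : the verifier accepts the witness `u`; `N` : bound for the length of the witnesses;
`F S` : the output of the distillation on the list `S` of (instances attached to) prefixes.
A certificate is a list of entries `[cur, S, T]`.
-/

namespace OrdCheck

/-- bit strings -/
abbrev Str := List Bool

variable {γ : Type} [DecidableEq γ] (V : Str → Bool) (N : ℕ) (F : List Str → γ)

/-- the prefix `u` is taken care of: it is still there, or too long, or replaced by its two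
children, or deleted by a collision -/
def okU (S T nxt : List Str) (u : Str) : Bool :=
  decide (u ∈ nxt) || decide (N < u.length) ||
    (!V u && (decide (u ++ [false] ∈ nxt) && decide (u ++ [true] ∈ nxt))) ||
    (decide (u ∈ S) && (!T.isEmpty && (T.all (fun t => decide (t ∈ nxt)) && decide (F S = F T))))

/-- consecutive entries are compatible -/
def ok (a b : List (List Str)) : Bool :=
  (a.getD 0 []).all fun u => okU V N F (a.getD 1 []) (a.getD 2 []) (b.getD 0 []) u

/-- the checker -/
def acc (c : List (List (List Str))) : Bool :=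
  decide ([] ∈ (c.getD 0 []).getD 0 []) && (((c.getD (c.length - 1) []).getD 0 []).isEmpty &&
    (List.range (c.length - 1)).all fun i => ok V N F (c.getD i []) (c.getD (i + 1) []))

theorem okU_sound {P : Str → Prop} (h1 : ∀ u, P u → u.length ≤ N)
    (h2 : ∀ u, P u → V u = false → P (u ++ [false]) ∨ P (u ++ [true]))
    (hF : ∀ S T : List Str, S ≠ [] → T ≠ [] → F S = F T → (∃ u ∈ S, P u) → ∃ u ∈ T, P u)
    {S T nxt : List Str} {u : Str} (h : okU V N F S T nxt u = true) (hu : P u) :
    ∃ w ∈ nxt, P w := by
  simp only [okU, Bool.or_eq_true, Bool.and_eq_true, decide_eq_true_eq, Bool.not_eq_true',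
    List.all_eq_true, List.isEmpty_eq_false_iff] at h
  rcases h with ((h | h) | ⟨hv, h3, h4⟩) | ⟨hS, hT, hT2, he⟩
  · exact ⟨u, h, hu⟩
  · exact absurd (h1 u hu) (by omega)
  · rcases h2 u hu hv with h | h
    · exact ⟨_, h3, h⟩
    · exact ⟨_, h4, h⟩
  · obtain ⟨w, hw, hPw⟩ := hF S T (List.ne_nil_of_mem hS) hT he ⟨u, hS, hu⟩
    exact ⟨w, hT2 w hw, hPw⟩

/-- soundness of the checker -/
theorem acc_sound {P : Str → Prop} (h1 : ∀ u, P u → u.length ≤ N)
    (h2 : ∀ u, P u → V u = false → P (u ++ [false]) ∨ P (u ++ [true]))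
    (hF : ∀ S T : List Str, S ≠ [] → T ≠ [] → F S = F T → (∃ u ∈ S, P u) → ∃ u ∈ T, P u)
    {c : List (List (List Str))} (h : acc V N F c = true) : ¬ P [] := by
  intro hP
  simp only [acc, Bool.and_eq_true, decide_eq_true_eq, List.isEmpty_iff, List.all_eq_true,
    List.mem_range] at h
  obtain ⟨ha, hb, hc⟩ := h
  have key : ∀ i, i ≤ c.length - 1 → ∃ w ∈ (c.getD i []).getD 0 [], P w := by
    intro i
    induction i with
    | zero => intro _; exact ⟨[], ha, hP⟩
    | succ i ih =>
      intro hi
      obtain ⟨w, hw, hPw⟩ := ih (by omega)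
      have h3 := hc i (by omega)
      unfold ok at h3
      rw [List.all_eq_true] at h3
      exact okU_sound V N F h1 h2 hF (h3 w hw) hPw
  obtain ⟨w, hw, _⟩ := key _ le_rfl
  rw [hb] at hw
  simp at hw

/-- soundness of the checker: `P u` means that `u` is a prefix of a witness, `r` is a target
set, `F S ∈ r` iff a member of `S` is a prefix of a witness -/
theorem acc_sound' {r : γ → Prop}
    (hF : ∀ S : List Str, S ≠ [] → (r (F S) ↔ ∃ u ∈ S, ∃ z : Str, (u ++ z).length ≤ N ∧
      V (u ++ z) = true))
    {c : List (List (List Str))} (h : acc V N F c = true) :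
    ¬ ∃ y : Str, y.length ≤ N ∧ V y = true := by
  have := acc_sound V N F (P := fun u => ∃ z : Str, (u ++ z).length ≤ N ∧ V (u ++ z) = true)
    (fun u ⟨z, hz, _⟩ => by rw [List.length_append] at hz; omega)
    (fun u ⟨z, hz, hv⟩ hu => by
      cases z with
      | nil => rw [List.append_nil, hu] at hv; exact absurd hv (by decide)
      | cons b z =>
        cases b with
        | false => exact Or.inl ⟨z, by simpa using hz, by simpa using hv⟩
        | true => exact Or.inr ⟨z, by simpa using hz, by simpa using hv⟩)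
    (fun S T hS hT he hu => (hF T hT).1 (he ▸ (hF S hS).2 hu)) h
  exact this

/-! ### completeness -/

/-- one step with bounded sizes -/
def Step (B : ℕ) (l l' : List Str) : Prop :=
  ∃ S T : List Str, (l.length ≤ B ∧ S.length ≤ B ∧ T.length ≤ B) ∧
    ((∀ u ∈ l, u.length ≤ N + 1) ∧ (∀ u ∈ S, u.length ≤ N + 1) ∧ ∀ u ∈ T, u.length ≤ N + 1) ∧
    ∀ u ∈ l, okU V N F S T l' u = true

/-- paths of steps -/
inductive Path (B : ℕ) : ℕ → List Str → List Str → Prop
  | refl (l : List Str) : Path B 0 l l
  | head {n : ℕ} {l l' l'' : List Str} : Step V N F B l l' → Path B n l' l'' →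
      Path B (n + 1) l l''

/-- every long list has a collision -/
def Coll (K : ℕ) : Prop :=
  ∀ l : List Str, l.Nodup → K < l.length → (∀ u ∈ l, u.length ≤ N + 1) →
    ∃ (S T : List Str) (u : Str), S ⊆ l ∧ T ⊆ l ∧ S.length ≤ l.length ∧ T.length ≤ l.length ∧
      T ≠ [] ∧ u ∈ S ∧ u ∉ T ∧ F S = F T

variable {V N F}

theorem Path.trans {B m n : ℕ} {l l' l'' : List Str} (h : Path V N F B m l l')
    (h' : Path V N F B n l' l'') : Path V N F B (m + n) l l'' := by
  induction h with
  | refl l => simpa using h'
  | head h1 _ ih =>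
    have := Path.head h1 (ih h')
    rwa [Nat.add_right_comm] at this

/-- pruning -/
theorem prune {K B : ℕ} (hF : Coll N F K) : ∀ (k : ℕ) (l : List Str), l.Nodup →
    l.length ≤ K + k → l.length ≤ B → (∀ u ∈ l, u.length ≤ N + 1) →
    ∃ n ≤ k, ∃ l' : List Str, l'.Nodup ∧ l'.length ≤ K ∧ l' ⊆ l ∧ Path V N F B n l l' := by
  intro k
  induction k with
  | zero =>
    intro l h1 h2 _ _
    exact ⟨0, le_rfl, l, h1, by simpa using h2, List.Subset.refl _, .refl l⟩
  | succ k ih =>
    intro l h1 h2 h3 h4
    by_cases h5 : l.length ≤ K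
    · exact ⟨0, Nat.zero_le _, l, h1, h5, List.Subset.refl _, .refl l⟩
    · obtain ⟨S, T, u, hS, hT, hSl, hTl, hT0, huS, huT, he⟩ := hF l h1 (by omega) h4
      have hu := hS huS
      obtain ⟨n, hn, l', a1, a2, a3, a4⟩ := ih (l.erase u) (h1.erase u)
        (by rw [List.length_erase_of_mem hu]; omega)
        (by rw [List.length_erase_of_mem hu]; omega)
        (fun v hv => h4 v (List.erase_subset hv))
      refine ⟨n + 1, by omega, l', a1, a2, fun v hv => List.erase_subset (a3 hv), .head ?_ a4⟩
      refine ⟨S, T, ⟨h3, hSl.trans h3, hTl.trans h3⟩,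
        ⟨h4, fun v hv => h4 v (hS hv), fun v hv => h4 v (hT hv)⟩, ?_⟩
      intro v hv
      simp only [okU, Bool.or_eq_true, Bool.and_eq_true, decide_eq_true_eq, Bool.not_eq_true',
        List.all_eq_true, List.isEmpty_eq_false_iff]
      by_cases hvu : v = u
      · subst hvu
        refine Or.inr ⟨huS, hT0, fun t ht => ?_, he⟩
        have hne : t ≠ v := by
          rintro rfl
          exact huT ht
        exact (List.mem_erase_of_ne hne).2 (hT ht)
      · exact Or.inl (Or.inl (Or.inl ((List.mem_erase_of_ne hvu).2 hv)))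

/-- children -/
def children (l : List Str) : List Str := l.flatMap fun u => [u ++ [false], u ++ [true]]

theorem length_children (l : List Str) : (children l).length = 2 * l.length := by
  induction l with
  | nil => rfl
  | cons u l ih =>
    have : children (u :: l) = [u ++ [false], u ++ [true]] ++ children l := rfl
    rw [this, List.length_append, ih]
    simp only [List.length_cons, List.length_nil]
    omega

theorem mem_children {l : List Str} {v : Str} :
    v ∈ children l ↔ ∃ u ∈ l, v = u ++ [false] ∨ v = u ++ [true] := by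
  simp [children]

theorem nodup_children {l : List Str} (h : l.Nodup) : (children l).Nodup := by
  induction l with
  | nil => exact List.nodup_nil
  | cons u l ih =>
    have e : children (u :: l) = [u ++ [false], u ++ [true]] ++ children l := rfl
    rw [List.nodup_cons] at h
    rw [e, List.nodup_append]
    refine ⟨by simp, ih h.2, ?_⟩
    intro a ha b hb hab
    subst hab
    obtain ⟨w, hw, h1⟩ := mem_children.1 hb
    simp only [List.mem_cons, List.not_mem_nil, or_false] at ha
    have : u = w := by
      rcases ha with rfl | rfl <;> rcases h1 with h1 | h1 <;>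
        simpa using (List.append_inj' h1 rfl).1
    exact h.1 (this ▸ hw)

/-- completeness: a path from `[[]]` to `[]` -/
theorem exists_path {K : ℕ} (hK : 1 ≤ K) (hV : ∀ u : Str, u.length ≤ N → V u = false)
    (hF : Coll N F K) :
    ∃ n ≤ (N + 1) * (K + 1) + 1, Path V N F (2 * K) n [[]] [] := by
  have key : ∀ i ≤ N + 1, ∃ n ≤ i * (K + 1), ∃ l : List Str, l.Nodup ∧ l.length ≤ K ∧
      (∀ u ∈ l, u.length = i) ∧ Path V N F (2 * K) n [[]] l := by
    intro i
    induction i with
    | zero =>
      intro _
      exact ⟨0, Nat.zero_le _, [[]], by simp, by simpa using hK, by simp, .refl _⟩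
    | succ i ih =>
      intro hi
      obtain ⟨n, hn, l, h1, h2, h3, h4⟩ := ih (by omega)
      have e1 : Path V N F (2 * K) 1 l (children l) := by
        refine .head ⟨[], [], ⟨by omega, by simp, by simp⟩,
          ⟨fun u hu => by rw [h3 u hu]; omega, by simp, by simp⟩, ?_⟩ (.refl _)
        intro u hu
        simp only [okU, Bool.or_eq_true, Bool.and_eq_true, decide_eq_true_eq, Bool.not_eq_true',
          List.all_eq_true, List.isEmpty_eq_false_iff]
        refine Or.inl (Or.inr ⟨hV u (by rw [h3 u hu]; omega), ?_, ?_⟩)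
        · exact mem_children.2 ⟨u, hu, Or.inl rfl⟩
        · exact mem_children.2 ⟨u, hu, Or.inr rfl⟩
      have hc : ∀ u ∈ children l, u.length = i + 1 := by
        intro u hu
        obtain ⟨w, hw, h | h⟩ := mem_children.1 hu <;> rw [h, List.length_append, h3 w hw] <;> rfl
      obtain ⟨k, hk, l', a1, a2, a3, a4⟩ := prune (V := V) (B := 2 * K) hF K (children l)
        (nodup_children h1) (by rw [length_children]; omega) (by rw [length_children]; omega)
        (fun u hu => by rw [hc u hu]; exact hi)
      refine ⟨n + (1 + k), ?_, l', a1, a2, fun u hu => hc u (a3 hu), h4.trans (e1.trans a4)⟩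
      have : (i + 1) * (K + 1) = i * (K + 1) + (K + 1) := by ring
      omega
  obtain ⟨n, hn, l, h1, h2, h3, h4⟩ := key (N + 1) le_rfl
  refine ⟨n + 1, by omega, h4.trans (.head ⟨[], [], ⟨by omega, by simp, by simp⟩,
    ⟨fun u hu => by rw [h3 u hu], by simp, by simp⟩, ?_⟩ (.refl _))⟩
  intro u hu
  simp only [okU, Bool.or_eq_true, Bool.and_eq_true, decide_eq_true_eq, Bool.not_eq_true',
    List.all_eq_true, List.isEmpty_eq_false_iff]
  exact Or.inl (Or.inl (Or.inr (by rw [h3 u hu]; omega)))

/-- from paths to certificates -/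
theorem Path.cert {B n : ℕ} {l l' : List Str} (h : Path V N F B n l l')
    (hl' : l'.length ≤ B ∧ ∀ u ∈ l', u.length ≤ N + 1) :
    ∃ c : List (List (List Str)), c.length = n + 1 ∧ (c.getD 0 []).getD 0 [] = l ∧
      (c.getD n []).getD 0 [] = l' ∧ (∀ i < n, ok V N F (c.getD i []) (c.getD (i + 1) []) = true) ∧
      ∀ a ∈ c, a.length = 3 ∧ ∀ m ∈ a, m.length ≤ B ∧ ∀ u ∈ m, u.length ≤ N + 1 := by
  induction h with
  | refl l =>
    refine ⟨[[l, [], []]], rfl, rfl, rfl, by simp, ?_⟩
    intro a ha
    simp only [List.mem_cons, List.not_mem_nil, or_false] at ha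
    subst ha
    refine ⟨rfl, fun m hm => ?_⟩
    simp only [List.mem_cons, List.not_mem_nil, or_false] at hm
    rcases hm with rfl | rfl | rfl
    · exact hl'
    · simp
    · simp
  | @head n l l1 l2 h1 _ ih =>
    obtain ⟨c, c1, c2, c3, c4, c5⟩ := ih hl'
    obtain ⟨S, T, ⟨b1, b2, b3⟩, ⟨d1, d2, d3⟩, e⟩ := h1
    refine ⟨[l, S, T] :: c, by simp [c1], rfl, by simpa using c3, ?_, ?_⟩
    · intro i hi
      cases i with
      | zero =>
        unfold ok
        rw [List.all_eq_true]
        intro u hu
        have := e u hu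
        simp only [List.getD_cons_zero, List.getD_cons_succ, zero_add] at hu ⊢
        rw [c2]
        exact this
      | succ i =>
        simpa using c4 i (by omega)
    · intro a ha
      rw [List.mem_cons] at ha
      rcases ha with rfl | ha
      · refine ⟨rfl, fun m hm => ?_⟩
        simp only [List.mem_cons, List.not_mem_nil, or_false] at hm
        rcases hm with rfl | rfl | rfl
        · exact ⟨b1, d1⟩
        · exact ⟨b2, d2⟩
        · exact ⟨b3, d3⟩
      · exact c5 a ha

/-- what we know about the sizes of the certificate -/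
def CertBd (N K : ℕ) (c : List (List (List Str))) : Prop :=
  c.length ≤ (N + 1) * (K + 1) + 2 ∧
    ∀ a ∈ c, a.length ≤ 3 ∧ ∀ m ∈ a, m.length ≤ 2 * K ∧ ∀ u ∈ m, u.length ≤ N + 1

/-- completeness of the checker, with size bounds -/
theorem acc_complete {K : ℕ} (hK : 1 ≤ K) (hV : ¬ ∃ y : Str, y.length ≤ N ∧ V y = true)
    (hF : Coll N F K) : ∃ c : List (List (List Str)), acc V N F c = true ∧ CertBd N K c := by
  have hV' : ∀ u : Str, u.length ≤ N → V u = false := by
    intro u hu
    cases hv : V u with
    | false => rfl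
    | true => exact absurd ⟨u, hu, hv⟩ hV
  obtain ⟨n, hn, h⟩ := exists_path hK hV' hF
  obtain ⟨c, c1, c2, c3, c4, c5⟩ := h.cert ⟨by simp, by simp⟩
  refine ⟨c, ?_, ⟨by omega, fun a ha => ⟨(c5 a ha).1.le, (c5 a ha).2⟩⟩⟩
  simp only [acc, Bool.and_eq_true, decide_eq_true_eq, List.isEmpty_iff, List.all_eq_true,
    List.mem_range]
  refine ⟨by rw [c2]; simp, ?_, ?_⟩
  · rw [c1]; exact c3
  · intro i hi
    exact c4 i (by omega)

end OrdCheck
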