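import Pool.Agent.Work.MP_609cce_lc.OrdCheck
import Pool.Agent.Work.MP_609cce_lc.OCheckPT

/-!
# The checker `acc` is a polynomial time function, and the certificates are short
-/

namespace OrdCheck

open PTime

section pt

variable {α γ : Type} [Code α] [Code γ] [DecidableEq γ]
  {V : α × List Bool → Bool} {F : α × List (List Bool) → γ} {n : α → ℕ}

/-- argument of `okU`: `(z, S, T, nxt, u)` -/
theorem pt_okU (hV : PT V) (hF : PT F) (hn : PT n) :
    PT (fun w : α × List Str × List Str × List Str × Str =>
      okU (fun u => V (w.1, u)) (n w.1) (fun A => F (w.1, A)) w.2.1 w.2.2.1 w.2.2.2.1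
        w.2.2.2.2) := by
  have ha : PT (fun w : α × List Str × List Str × List Str × Str => w.1) := PT.fst
  have hS : PT (fun w : α × List Str × List Str × List Str × Str => w.2.1) := PT.snd.fst'
  have hT : PT (fun w : α × List Str × List Str × List Str × Str => w.2.2.1) := PT.snd.snd'.fst'
  have hX : PT (fun w : α × List Str × List Str × List Str × Str => w.2.2.2.1) :=
    PT.snd.snd'.snd'.fst'
  have hu : PT (fun w : α × List Str × List Str × List Str × Str => w.2.2.2.2) :=
    PT.snd.snd'.snd'.snd'
  have h1 : PT (fun w : α × List Str × List Str × List Str × Str =>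
      decide (w.2.2.2.2 ∈ w.2.2.2.1)) := PT.mem' hX hu
  have h2 : PT (fun w : α × List Str × List Str × List Str × Str =>
      decide (n w.1 < w.2.2.2.2.length)) := PT.lt (hn.comp ha) hu.length
  have h3 : PT (fun w : α × List Str × List Str × List Str × Str => !V (w.1, w.2.2.2.2)) :=
    (hV.comp (ha.pair hu)).not
  have h4 : PT (fun w : α × List Str × List Str × List Str × Str =>
      decide (w.2.2.2.2 ++ [false] ∈ w.2.2.2.1)) := PT.mem' hX (hu.append (PT.const [false]))
  have h5 : PT (fun w : α × List Str × List Str × List Str × Str =>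
      decide (w.2.2.2.2 ++ [true] ∈ w.2.2.2.1)) := PT.mem' hX (hu.append (PT.const [true]))
  have h6 : PT (fun w : α × List Str × List Str × List Str × Str =>
      decide (w.2.2.2.2 ∈ w.2.1)) := PT.mem' hS hu
  have h7 : PT (fun w : α × List Str × List Str × List Str × Str =>
      w.2.2.1.all fun t => decide (t ∈ w.2.2.2.1)) :=
    PT.all (p := fun x : (α × List Str × List Str × List Str × Str) × Str =>
      decide (x.2 ∈ x.1.2.2.2.1)) hT (PT.mem' (hX.comp PT.fst) PT.snd)
  have h8 : PT (fun w : α × List Str × List Str × List Str × Str =>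
      decide (F (w.1, w.2.1) = F (w.1, w.2.2.1))) :=
    PT.eq (hF.comp (ha.pair hS)) (hF.comp (ha.pair hT))
  exact ((h1.or h2).or (h3.and (h4.and h5))).or (h6.and (hT.isEmpty.not.and (h7.and h8)))

/-- argument of `ok`: `(z, a, b)` -/
theorem pt_ok (hV : PT V) (hF : PT F) (hn : PT n) :
    PT (fun w : α × List (List Str) × List (List Str) =>
      ok (fun u => V (w.1, u)) (n w.1) (fun A => F (w.1, A)) w.2.1 w.2.2) := by
  have ha : PT (fun w : α × List (List Str) × List (List Str) => w.1) := PT.fst
  have h1 : PT (fun w : α × List (List Str) × List (List Str) => w.2.1) := PT.snd.fst'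
  have h2 : PT (fun w : α × List (List Str) × List (List Str) => w.2.2) := PT.snd.snd'
  have g0 : PT (fun w : α × List (List Str) × List (List Str) => w.2.1.getD 0 []) :=
    PT.getD h1 (PT.const 0) (PT.const [])
  have g1 : PT (fun w : α × List (List Str) × List (List Str) => w.2.1.getD 1 []) :=
    PT.getD h1 (PT.const 1) (PT.const [])
  have g2 : PT (fun w : α × List (List Str) × List (List Str) => w.2.1.getD 2 []) :=
    PT.getD h1 (PT.const 2) (PT.const [])
  have g3 : PT (fun w : α × List (List Str) × List (List Str) => w.2.2.getD 0 []) :=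
    PT.getD h2 (PT.const 0) (PT.const [])
  exact PT.all (p := fun x : (α × List (List Str) × List (List Str)) × Str =>
    okU (fun u => V (x.1.1, u)) (n x.1.1) (fun A => F (x.1.1, A)) (x.1.2.1.getD 1 [])
      (x.1.2.1.getD 2 []) (x.1.2.2.getD 0 []) x.2) g0
    ((pt_okU hV hF hn).comp ((ha.comp PT.fst).pair ((g1.comp PT.fst).pair
      ((g2.comp PT.fst).pair ((g3.comp PT.fst).pair PT.snd)))))

/-- the checker is a polynomial time function -/
theorem pt_acc (hV : PT V) (hF : PT F) (hn : PT n) :
    PT (fun z : α × List (List (List Str)) =>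
      acc (fun u => V (z.1, u)) (n z.1) (fun A => F (z.1, A)) z.2) := by
  have ha : PT (fun z : α × List (List (List Str)) => z.1) := PT.fst
  have hc : PT (fun z : α × List (List (List Str)) => z.2) := PT.snd
  have hm : PT (fun z : α × List (List (List Str)) => z.2.length - 1) := hc.length.pred
  have h1 : PT (fun z : α × List (List (List Str)) =>
      decide ([] ∈ (z.2.getD 0 []).getD 0 [])) :=
    PT.mem' (PT.getD (PT.getD hc (PT.const 0) (PT.const [])) (PT.const 0) (PT.const []))
      (PT.const [])
  have h2 : PT (fun z : α × List (List (List Str)) =>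
      ((z.2.getD (z.2.length - 1) []).getD 0 []).isEmpty) :=
    (PT.getD (PT.getD hc hm (PT.const [])) (PT.const 0) (PT.const [])).isEmpty
  have h3 : PT (fun z : α × List (List (List Str)) =>
      (List.range (z.2.length - 1)).all fun i => ok (fun u => V (z.1, u)) (n z.1)
        (fun A => F (z.1, A)) (z.2.getD i []) (z.2.getD (i + 1) [])) :=
    PT.all (p := fun x : (α × List (List (List Str))) × ℕ => ok (fun u => V (x.1.1, u)) (n x.1.1)
        (fun A => F (x.1.1, A)) (x.1.2.getD x.2 []) (x.1.2.getD (x.2 + 1) [])) hm.range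
      ((pt_ok hV hF hn).comp ((ha.comp PT.fst).pair
        ((PT.getD (hc.comp PT.fst) PT.snd (PT.const [])).pair
          (PT.getD (hc.comp PT.fst) PT.snd.succ (PT.const [])))))
  exact h1.and (h2.and h3)

end pt

/-! ### the size of the certificates -/

/-- the certificates have polynomial size -/
theorem sz_cert {N K : ℕ} {c : List (List (List Str))} (h : CertBd N K c) :
    sz c ≤ ((N + 1) * (K + 1) + 2) * (3 * (2 * K * (4 * (N + 1) + 2) + 1 + 1) + 1 + 1) + 1 := by
  have key : ∀ a ∈ c, sz a ≤ 3 * (2 * K * (4 * (N + 1) + 2) + 1 + 1) + 1 := by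
    intro a ha
    obtain ⟨h1, h2⟩ := h.2 a ha
    have := sz_list_le (l := a) (B := 2 * K * (4 * (N + 1) + 2) + 1) fun m hm =>
      ORDist.sz_strs (h2 m hm).1 (h2 m hm).2
    have h3 : a.length * (2 * K * (4 * (N + 1) + 2) + 1 + 1) ≤
        3 * (2 * K * (4 * (N + 1) + 2) + 1 + 1) := Nat.mul_le_mul h1 le_rfl
    omega
  have h4 := sz_list_le (l := c) key
  exact h4.trans (Nat.add_le_add_right (Nat.mul_le_mul h.1 le_rfl) 1)

/-- the certificates have polynomial size, polynomial version -/
theorem exists_cert_poly (p Q : Polynomial ℕ) : ∃ P : Polynomial ℕ, ∀ (n K : ℕ)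
    (c : List (List (List Str))), K ≤ Q.eval n → CertBd (p.eval n) K c → sz c ≤ P.eval n := by
  refine ⟨((p + 1) * (Q + 1) + 2) * (3 * (2 * Q * (4 * (p + 1) + 2) + 1 + 1) + 1 + 1) + 1,
    fun n K c hK h => (sz_cert h).trans ?_⟩
  simp only [Polynomial.eval_add, Polynomial.eval_mul, Polynomial.eval_ofNat,
    Polynomial.eval_one]
  gcongr

end OrdCheck
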