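import Pool.Agent.Work.MP_609cce_lc.OCore

/-!
# Deleting prefixes by collisions which are found by an algorithm
-/

namespace ORDist

/-! ### halving -/

/-- one halving step -/
def half (B : List (List Bool)) (b : Bool) : List (List Bool) :=
  bif b then B.drop (B.length / 2) else B.take (B.length / 2)

/-- successive halvings -/
def halves (B : List (List Bool)) (w : List Bool) : List (List Bool) := w.foldl half B

theorem half_sub (B : List (List Bool)) (b : Bool) : (half B b).Sublist B := by
  cases b with
  | true => exact List.drop_sublist _ _
  | false => exact List.take_sublist _ _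

theorem halves_sub (w : List Bool) : ∀ B : List (List Bool), (halves B w).Sublist B := by
  induction w with
  | nil => intro B; exact List.Sublist.refl _
  | cons b w ih => intro B; exact (ih (half B b)).trans (half_sub B b)

theorem length_half (B : List (List Bool)) (b : Bool) : B.length / 2 ≤ (half B b).length := by
  cases b with
  | true =>
    show B.length / 2 ≤ (B.drop (B.length / 2)).length
    rw [List.length_drop]
    omega
  | false =>
    show B.length / 2 ≤ (B.take (B.length / 2)).length
    rw [List.length_take]
    omega

theorem halves_ne_nil (w : List Bool) : ∀ B : List (List Bool), 2 ^ w.length ≤ B.length →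
    halves B w ≠ [] := by
  induction w with
  | nil =>
    intro B hB h
    have : B = [] := h
    rw [this] at hB
    simp at hB
  | cons b w ih =>
    intro B hB
    refine ih (half B b) ?_
    have := length_half B b
    rw [List.length_cons, pow_succ] at hB
    omega

theorem halves_disjoint (w : List Bool) : ∀ (w' : List Bool) (B : List (List Bool)), B.Nodup →
    w.length = w'.length → w ≠ w' → List.Disjoint (halves B w) (halves B w') := by
  induction w with
  | nil =>
    intro w' B _ hl hne
    exact absurd (List.length_eq_zero_iff.1 hl.symm).symm hne
  | cons b w ih =>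
    intro w' B hB hl hne
    cases w' with
    | nil => simp at hl
    | cons b' w' =>
      by_cases hb : b = b'
      · subst hb
        exact ih w' (half B b) (hB.sublist (half_sub B b)) (by simpa using hl)
          (fun h => hne (by rw [h]))
      · have h1 := (halves_sub w (half B b)).subset
        have h2 := (halves_sub w' (half B b')).subset
        have h3 : List.Disjoint (half B b) (half B b') := by
          cases b <;> cases b'
          · exact absurd rfl hb
          · exact List.disjoint_take_drop hB le_rfl
          · exact (List.disjoint_take_drop hB le_rfl).symm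
          · exact absurd rfl hb
        intro v hv hv'
        exact h3 (h1 hv) (h2 hv')

/-- the chosen member -/
def pick (B : List (List Bool)) (w : List Bool) : List Bool := (halves B w).headD []

theorem pick_mem_halves {B : List (List Bool)} {w : List Bool} (h : 2 ^ w.length ≤ B.length) :
    pick B w ∈ halves B w := by
  unfold pick
  have := halves_ne_nil w B h
  revert this
  generalize halves B w = l
  intro hl
  cases l with
  | nil => exact absurd rfl hl
  | cons a l => simp

/-! ### one member from each block -/

/-- the block number `i` of `m` blocks -/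
def blk (U : List (List Bool)) (m i : ℕ) : List (List Bool) :=
  (U.drop (i * (U.length / m))).take (U.length / m)

/-- the `r` bits number `i` -/
def bits (w : List Bool) (r i : ℕ) : List Bool := (w.drop (i * r)).take r

/-- one member from each block, chosen by `w` -/
def bsel (w : List Bool) (U : List (List Bool)) (m r : ℕ) : List (List Bool) :=
  (List.range m).map fun i => pick (blk U m i) (bits w r i)

theorem length_bsel (w : List Bool) (U : List (List Bool)) (m r : ℕ) :
    (bsel w U m r).length = m := by
  simp [bsel]

theorem blk_sub (U : List (List Bool)) (m i : ℕ) : (blk U m i).Sublist U :=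
  (List.take_sublist _ _).trans (List.drop_sublist _ _)

theorem length_blk {U : List (List Bool)} {m i : ℕ} (hi : i < m) :
    (blk U m i).length = U.length / m := by
  unfold blk
  rw [List.length_take, List.length_drop]
  have h1 : (i + 1) * (U.length / m) ≤ m * (U.length / m) := Nat.mul_le_mul_right _ hi
  have h2 : m * (U.length / m) ≤ U.length := Nat.mul_div_le _ _
  have h3 : (i + 1) * (U.length / m) = i * (U.length / m) + U.length / m := by ring
  omega

theorem blk_disjoint {U : List (List Bool)} (hU : U.Nodup) {m i j : ℕ} (hij : i < j) :
    List.Disjoint (blk U m i) (blk U m j) := by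
  intro v hv hv'
  have h1 : v ∈ U.take (i * (U.length / m) + U.length / m) := by
    have e : blk U m i = (U.take (i * (U.length / m) + U.length / m)).drop
        (i * (U.length / m)) := by
      rw [List.drop_take, Nat.add_sub_cancel_left]
      rfl
    rw [e] at hv
    exact List.mem_of_mem_drop hv
  have h2 : v ∈ U.drop (j * (U.length / m)) := List.mem_of_mem_take hv'
  have h3 : i * (U.length / m) + U.length / m ≤ j * (U.length / m) := by
    have : (i + 1) * (U.length / m) ≤ j * (U.length / m) := Nat.mul_le_mul_right _ hij
    have h4 : (i + 1) * (U.length / m) = i * (U.length / m) + U.length / m := by ring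
    omega
  exact List.disjoint_take_drop hU h3 h1 h2

theorem length_bits {w : List Bool} {m r i : ℕ} (hw : m * r ≤ w.length) (hi : i < m) :
    (bits w r i).length = r := by
  unfold bits
  rw [List.length_take, List.length_drop]
  have h1 : (i + 1) * r ≤ m * r := Nat.mul_le_mul_right _ hi
  have h3 : (i + 1) * r = i * r + r := by ring
  omega


theorem bsel_subset {w : List Bool} {U : List (List Bool)} {m r : ℕ} (hw : m * r ≤ w.length)
    (hU : m * 2 ^ r ≤ U.length) : bsel w U m r ⊆ U := by
  intro v hv
  obtain ⟨i, hi, rfl⟩ := List.mem_map.1 hv
  rw [List.mem_range] at hi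
  have hs : 2 ^ r ≤ U.length / m := (Nat.le_div_iff_mul_le (by omega)).2 (by rwa [mul_comm])
  have h1 := pick_mem_halves (B := blk U m i) (w := bits w r i)
    (by rw [length_bits hw hi, length_blk hi]; exact hs)
  exact (blk_sub U m i).subset ((halves_sub _ _).subset h1)

theorem take_blocks {w w' : List Bool} {r m : ℕ} (h : ∀ i < m, bits w r i = bits w' r i) :
    ∀ k ≤ m, w.take (k * r) = w'.take (k * r) := by
  intro k
  induction k with
  | zero => intro _; simp
  | succ k ih =>
    intro hk
    have e : (k + 1) * r = k * r + r := by ring
    rw [e, List.take_add, List.take_add, ih (by omega)]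
    exact congrArg _ (h k (by omega))

/-- different bit strings give different selections -/
theorem exists_diff {w w' : List Bool} {U : List (List Bool)} (hU : U.Nodup) {m r : ℕ}
    (hm : m * 2 ^ r ≤ U.length) (hw : m * r ≤ w.length) (hw' : m * r ≤ w'.length)
    (hne : w ≠ w') (hd : w.drop (m * r) = w'.drop (m * r)) :
    ∃ u ∈ bsel w U m r, u ∉ bsel w' U m r := by
  obtain ⟨i, hi, hbi⟩ : ∃ i < m, bits w r i ≠ bits w' r i := by
    by_contra hcon
    push Not at hcon
    apply hne
    rw [← List.take_append_drop (m * r) w, ← List.take_append_drop (m * r) w', hd,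
      take_blocks hcon m le_rfl]
  have hs : 2 ^ r ≤ U.length / m := (Nat.le_div_iff_mul_le (by omega)).2 (by rwa [mul_comm])
  have hp := pick_mem_halves (B := blk U m i) (w := bits w r i)
    (by rw [length_bits hw hi, length_blk hi]; exact hs)
  refine ⟨pick (blk U m i) (bits w r i), List.mem_map.2 ⟨i, List.mem_range.2 hi, rfl⟩, ?_⟩
  intro hmem
  obtain ⟨j, hj, he⟩ := List.mem_map.1 hmem
  rw [List.mem_range] at hj
  have hp' := pick_mem_halves (B := blk U m j) (w := bits w' r j)
    (by rw [length_bits hw' hj, length_blk hj]; exact hs)
  rw [he] at hp'
  rcases lt_trichotomy i j with hij | hij | hij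
  · exact blk_disjoint hU hij ((halves_sub _ _).subset hp) ((halves_sub _ _).subset hp')
  · subst hij
    exact halves_disjoint _ _ _ (hU.sublist (blk_sub U m i))
      (by rw [length_bits hw hi, length_bits hw' hi]) hbi hp hp'
  · exact blk_disjoint hU hij ((halves_sub _ _).subset hp') ((halves_sub _ _).subset hp)

/-! ### cutting -/

section

variable {γ : Type} [DecidableEq γ] (V : List Bool → Bool) (E : List (List Bool) → γ)

/-- delete an element of `S` which is not in `T` -/
def cutS (U S T : List (List Bool)) : List (List Bool) :=
  applyStep E U (S, T, (S.filter fun v => !decide (v ∈ T)).headD [])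

variable {V E}

theorem good_cutS {p : ℕ} {P : γ → Prop}
    (hE : ∀ A : List (List Bool), A ≠ [] → (P (E A) ↔ ∃ u ∈ A, Good V p u))
    {U : List (List Bool)} (hU : ∃ u ∈ U, Good V p u) (S T : List (List Bool)) :
    ∃ u ∈ cutS E U S T, Good V p u :=
  good_applyStep hE hU _

theorem cutS_sub (U S T : List (List Bool)) : (cutS E U S T).Sublist U := by
  unfold cutS applyStep
  generalize stepOK E U (S, T, (S.filter fun v => !decide (v ∈ T)).headD []) = b
  cases b with
  | false => exact List.Sublist.refl _
  | true => exact List.filter_sublist

theorem length_cutS {U S T : List (List Bool)} (hS : S ⊆ U) (hT : T ⊆ U)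
    (hT0 : T ≠ []) (h : ∃ u ∈ S, u ∉ T) (hE : E S = E T) :
    (cutS E U S T).length < U.length := by
  have hmem : (S.filter fun v => !decide (v ∈ T)).headD [] ∈
      S.filter fun v => !decide (v ∈ T) := by
    obtain ⟨u, hu, huT⟩ := h
    have h1 : u ∈ S.filter fun v => !decide (v ∈ T) := List.mem_filter.2 ⟨hu, by simp [huT]⟩
    revert h1
    generalize S.filter (fun v => !decide (v ∈ T)) = l
    intro h1
    cases l with
    | nil => simp at h1
    | cons a l => simp
  unfold cutS
  generalize (S.filter fun v => !decide (v ∈ T)).headD [] = u at hmem
  rw [List.mem_filter] at hmem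
  obtain ⟨h1, h2⟩ := hmem
  simp only [Bool.not_eq_true', decide_eq_false_iff_not] at h2
  have hok : stepOK E U (S, T, u) = true := by
    simp only [stepOK, Bool.and_eq_true, Bool.not_eq_true', List.isEmpty_eq_false_iff,
      List.all_eq_true, decide_eq_true_eq, decide_eq_false_iff_not]
    exact ⟨⟨⟨⟨hT0, fun v hv => hT hv⟩, h1⟩, h2⟩, hE⟩
  unfold applyStep
  rw [hok, cond_true]
  refine lt_of_le_of_ne (List.length_filter_le _ _) fun he => ?_
  have h3 := List.filter_eq_self.1 (List.filter_sublist.eq_of_length he) u (hS h1)
  simp at h3

/-! ### the search -/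

/-- the children of the members of length at most `N` -/
def expandN (N : ℕ) (U : List (List Bool)) : List (List Bool) :=
  expand (U.filter fun u => decide (u.length ≤ N))

variable (V)

/-- one step of the search: `K` is the threshold, `N` the bound for the witness length, `G`
shortens long lists -/
def gstep (K N : ℕ) (G : List (List Bool) → List (List Bool))
    (s : Bool × List (List Bool)) : Bool × List (List Bool) :=
  bif decide (K ≤ s.2.length) then (s.1, G s.2)
  else (s.1 || s.2.any fun u => V u && decide (u.length ≤ N), expandN N s.2)

/-- the invariant -/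
def SInv (K N t : ℕ) (s : Bool × List (List Bool)) : Prop :=
  s.2 = [] ∨ ∃ i ≤ N + 1, (∀ u ∈ s.2, u.length = i) ∧ s.2.Nodup ∧ s.2.length ≤ 2 * K ∧
    t + s.2.length ≤ i * K + 1

variable {V}

theorem length_expand (U : List (List Bool)) : (expand U).length = 2 * U.length := by
  induction U with
  | nil => rfl
  | cons u U ih =>
    have : expand (u :: U) = [u ++ [false], u ++ [true]] ++ expand U := rfl
    rw [this, List.length_append, ih]
    simp only [List.length_cons, List.length_nil]
    omega

theorem nodup_expand {U : List (List Bool)} (h : U.Nodup) : (expand U).Nodup := by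
  induction U with
  | nil => exact List.nodup_nil
  | cons u l ih =>
    have e : expand (u :: l) = [u ++ [false], u ++ [true]] ++ expand l := rfl
    rw [List.nodup_cons] at h
    rw [e, List.nodup_append]
    refine ⟨by simp, ih h.2, ?_⟩
    intro a ha b hb hab
    subst hab
    obtain ⟨w, hw, h1⟩ := List.mem_flatMap.1 hb
    simp only [List.mem_cons, List.not_mem_nil, or_false] at ha h1
    have : u = w := by
      rcases ha with rfl | rfl <;> rcases h1 with h1 | h1 <;>
        simpa using (List.append_inj' h1 rfl).1
    exact h.1 (this ▸ hw)

theorem sinv_zero (K N : ℕ) (b : Bool) (hK : 1 ≤ K) : SInv K N 0 (b, [[]]) :=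
  Or.inr ⟨0, Nat.zero_le _, by simp, by simp, by simp only [List.length_cons, List.length_nil]; omega,
    by simp⟩

/-- `G` shortens long lists -/
def Shortens (K N : ℕ) (G : List (List Bool) → List (List Bool)) : Prop :=
  (∀ U, (G U).Sublist U) ∧ ∀ U : List (List Bool), U.Nodup → K ≤ U.length →
    (∀ u ∈ U, u.length ≤ N + 1) → (G U).length < U.length

theorem sinv_step {K N t : ℕ} {G : List (List Bool) → List (List Bool)}
    (hK : 1 ≤ K) (hG : Shortens K N G) {s : Bool × List (List Bool)} (hs : SInv K N t s) :
    SInv K N (t + 1) (gstep V K N G s) := by
  obtain ⟨f, U⟩ := s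
  rcases hs with hs | ⟨i, hi, h1, h2, h3, h4⟩
  · simp only at hs
    subst hs
    left
    simp only [gstep]
    have : ¬ K ≤ ([] : List (List Bool)).length := by simp; omega
    rw [decide_eq_false this, cond_false]
    rfl
  · simp only at h1 h2 h3 h4
    simp only [gstep]
    by_cases hKU : K ≤ U.length
    · rw [decide_eq_true hKU, cond_true]
      right
      have e := hG.2 U h2 hKU (fun u hu => by rw [h1 u hu]; exact hi)
      have hsub := hG.1 U
      refine ⟨i, hi, fun u hu => h1 u (hsub.subset hu), h2.sublist hsub, ?_, ?_⟩
      · simp only; omega
      · simp only; omega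
    · rw [decide_eq_false hKU, cond_false]
      by_cases hiN : i ≤ N
      · right
        have e : expandN N U = expand U := by
          unfold expandN
          rw [List.filter_eq_self.2 fun u hu => by rw [h1 u hu]; simpa using hiN]
        refine ⟨i + 1, by omega, ?_, ?_, ?_, ?_⟩
        · simp only
          rw [e]
          exact mem_expand_length h1
        · simp only
          rw [e]
          exact nodup_expand h2
        · simp only
          rw [e, length_expand]
          omega
        · simp only
          rw [e, length_expand]
          have : (i + 1) * K = i * K + K := by ring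
          omega
      · left
        simp only
        unfold expandN
        rw [List.filter_eq_nil_iff.2 fun u hu => by rw [h1 u hu]; simpa using hiN]
        rfl

theorem sinv_iter {K N : ℕ} {G : List (List Bool) → List (List Bool)}
    (hK : 1 ≤ K) (hG : Shortens K N G) (t : ℕ) :
    SInv K N t ((gstep V K N G)^[t] (false, [[]])) := by
  induction t with
  | zero => exact sinv_zero K N false hK
  | succ t ih =>
    rw [Function.iterate_succ_apply']
    exact sinv_step hK hG ih

/-- the flag is never wrong -/
theorem flag_sound {K N : ℕ} {G : List (List Bool) → List (List Bool)} (t : ℕ)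
    (h : ((gstep V K N G)^[t] (false, [[]])).1 = true) : ∃ y : List Bool, y.length ≤ N ∧
      V y = true := by
  induction t with
  | zero => exact absurd h (by simp)
  | succ t ih =>
    rw [Function.iterate_succ_apply'] at h
    generalize (gstep V K N G)^[t] (false, [[]]) = s at h ih
    obtain ⟨f, U⟩ := s
    simp only [gstep] at h
    by_cases hKU : K ≤ U.length
    · rw [decide_eq_true hKU, cond_true] at h
      exact ih h
    · rw [decide_eq_false hKU, cond_false] at h
      simp only [Bool.or_eq_true] at h
      rcases h with h | h
      · exact ih h
      · rw [List.any_eq_true] at h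
        obtain ⟨u, _, hu⟩ := h
        simp only [Bool.and_eq_true, decide_eq_true_eq] at hu
        exact ⟨u, hu.2, hu.1⟩

/-- `G` keeps a good element -/
def Keeps (V : List Bool → Bool) (N : ℕ) (G : List (List Bool) → List (List Bool)) : Prop :=
  ∀ U, (∃ u ∈ U, Good V N u) → ∃ u ∈ G U, Good V N u

theorem good_step {K N : ℕ} {G : List (List Bool) → List (List Bool)} (hG : Keeps V N G)
    {s : Bool × List (List Bool)} (hs : s.1 = true ∨ ∃ u ∈ s.2, Good V N u) :
    (gstep V K N G s).1 = true ∨ ∃ u ∈ (gstep V K N G s).2, Good V N u := by
  obtain ⟨f, U⟩ := s
  simp only [gstep]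
  by_cases hKU : K ≤ U.length
  · rw [decide_eq_true hKU, cond_true]
    rcases hs with hs | hs
    · exact Or.inl hs
    · exact Or.inr (hG U hs)
  · rw [decide_eq_false hKU, cond_false]
    rcases hs with hs | ⟨u, hu, hg⟩
    · left
      simp only at hs ⊢
      rw [hs, Bool.true_or]
    · obtain ⟨y, hy, hyp, hVy⟩ := hg
      have hlen : u.length ≤ N := hy.length_le.trans hyp
      cases hVu : V u with
      | true =>
        left
        simp only [Bool.or_eq_true]
        right
        rw [List.any_eq_true]
        exact ⟨u, hu, by simp [hVu, hlen]⟩
      | false =>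
        right
        obtain ⟨z, rfl⟩ := hy
        cases z with
        | nil =>
          exfalso
          rw [List.append_nil, hVu] at hVy
          exact absurd hVy (by decide)
        | cons b z =>
          refine ⟨u ++ [b], ?_, u ++ b :: z, ⟨z, by simp⟩, hyp, hVy⟩
          unfold expandN expand
          refine List.mem_flatMap.2 ⟨u, List.mem_filter.2 ⟨hu, by simpa using hlen⟩, ?_⟩
          cases b <;> simp

/-- the search is correct -/
theorem search_correct {K N : ℕ} {G : List (List Bool) → List (List Bool)}
    (hK : 1 ≤ K) (hG : Shortens K N G) (hG' : Keeps V N G) :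
    ((gstep V K N G)^[(N + 1) * K + 2] (false, [[]])).1 = true ↔
      ∃ y : List Bool, y.length ≤ N ∧ V y = true := by
  refine ⟨flag_sound _, ?_⟩
  rintro ⟨y, hy, hV⟩
  have h1 : ∀ t, ((gstep V K N G)^[t] (false, [[]])).1 = true ∨
      ∃ u ∈ ((gstep V K N G)^[t] (false, [[]])).2, Good V N u := by
    intro t
    induction t with
    | zero =>
      right
      exact ⟨[], by simp, y, List.nil_prefix, hy, hV⟩
    | succ t ih =>
      rw [Function.iterate_succ_apply']
      exact good_step hG' ih
  rcases h1 ((N + 1) * K + 2) with h | ⟨u, hu, _⟩
  · exact h
  · exfalso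
    rcases sinv_iter (V := V) hK hG ((N + 1) * K + 2) with h2 | ⟨i, hi, _, _, _, h3⟩
    · rw [h2] at hu
      simp at hu
    · have h4 := List.length_pos_of_mem hu
      have h5 : i * K ≤ (N + 1) * K := Nat.mul_le_mul_right _ hi
      omega

/-! ### several cuts -/

/-- a sequence of shortening functions shortens if one of them does -/
theorem foldl_shortens {β : Type} {g : List (List Bool) → β → List (List Bool)}
    (hg : ∀ U b, (g U b).Sublist U) (b0 : β) : ∀ (l : List β) (U : List (List Bool)), b0 ∈ l →
    (g U b0).length < U.length → (l.foldl g U).length < U.length := by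
  have hsub : ∀ (l : List β) (U : List (List Bool)), (l.foldl g U).Sublist U := by
    intro l
    induction l with
    | nil => intro U; exact List.Sublist.refl _
    | cons b l ih => intro U; exact (ih _).trans (hg U b)
  intro l
  induction l with
  | nil => intro U h; simp at h
  | cons b l ih =>
    intro U hb h
    rw [List.foldl_cons]
    have h1 := (hsub l (g U b)).length_le
    rcases Nat.lt_or_ge (g U b).length U.length with h2 | h2
    · omega
    · have h3 : g U b = U := (hg U b).eq_of_length_le h2
      rw [h3]
      rw [List.mem_cons] at hb
      rcases hb with rfl | hb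
      · rw [h3] at h
        exact absurd h (lt_irrefl _)
      · exact ih U hb h

theorem foldl_sub {β : Type} {g : List (List Bool) → β → List (List Bool)}
    (hg : ∀ U b, (g U b).Sublist U) (l : List β) : ∀ U : List (List Bool),
    (l.foldl g U).Sublist U := by
  induction l with
  | nil => intro U; exact List.Sublist.refl _
  | cons b l ih => intro U; exact (ih _).trans (hg U b)

theorem foldl_keeps {β : Type} {N : ℕ} {g : List (List Bool) → β → List (List Bool)}
    (hg : ∀ U b, (∃ u ∈ U, Good V N u) → ∃ u ∈ g U b, Good V N u) (l : List β) :
    ∀ U : List (List Bool), (∃ u ∈ U, Good V N u) → ∃ u ∈ l.foldl g U, Good V N u := by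
  induction l with
  | nil => intro U h; exact h
  | cons b l ih => intro U h; exact ih _ (hg U b h)

end

end ORDist
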