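import Pool.Agent.Work.MP_609cce_lc.ODefs

/-!
# P, and collisions of length-decreasing polynomial time maps (the class PWPP)
-/

namespace ORDist

/-- the class P of languages of bit strings -/
def InP (L : Set (List Bool)) : Prop :=
  ∃ d : List Bool → Bool, PolyTime (fun x => x) (fun b : Bool => [b]) d ∧ ∀ x, x ∈ L ↔ d x = true

/-- a polynomial time family of maps `u ↦ C (x, u)` from `{0,1}^n` to `{0,1}^(n-1)`, one for every
bit string `x` of length `n ≥ 1` -/
structure Shrinking (C : List Bool × List Bool → List Bool) : Prop where
  /-- it is computed in polynomial time -/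
  polyTime : PolyTime pairStr (fun y => y) C
  /-- strings of length `n` are mapped to strings of length `n - 1` -/
  length : ∀ x u : List Bool, x ≠ [] → u.length = x.length → (C (x, u)).length + 1 = x.length

/-- given `x`, the algorithm `A` finds in polynomial time a collision of the map
`u ↦ C (x, u)` -/
structure CollisionFinder (C : List Bool × List Bool → List Bool)
    (A : List Bool → List Bool × List Bool) : Prop where
  /-- it is computed in polynomial time -/
  polyTime : PolyTime (fun x => x) pairStr A
  /-- it finds collisions -/
  collision : ∀ x : List Bool, x ≠ [] → (A x).1.length = x.length ∧ (A x).2.length = x.length ∧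
    (A x).1 ≠ (A x).2 ∧ C (x, (A x).1) = C (x, (A x).2)

/-- collisions of polynomial time maps `{0,1}^n → {0,1}^(n-1)` can be found in polynomial time
(`PWPP ⊆ FP`) -/
def PWPPInFP : Prop :=
  ∀ C : List Bool × List Bool → List Bool, Shrinking C → ∃ A, CollisionFinder C A

end ORDist
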