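import Pool.Agent.Work.MP_609cce_lc.PwSearch
import Pool.Agent.Work.MP_609cce_lc.OMain

/-!
# OR-compression and collisions of length-decreasing polynomial time maps
-/

namespace ORDist

open PTime Turing

attribute [local instance] finCode

theorem log_lt_bits {m : ℕ} (hm : 1 ≤ m) : Nat.log 2 m + 1 ≤ m.bits.length := by
  rw [Nat.size_eq_bits_len]
  exact Nat.lt_size.2 (Nat.pow_log_le_self 2 (by omega))

theorem pow_bits_le {m : ℕ} (hm : 1 ≤ m) : 2 ^ m.bits.length ≤ 2 * m := by
  rw [Nat.size_eq_bits_len]
  have h1 : 0 < m.size := Nat.size_pos.2 hm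
  have h2 : 2 ^ (m.size - 1) ≤ m := Nat.lt_size.1 (by omega)
  have h3 : 2 ^ m.size = 2 * 2 ^ (m.size - 1) := by
    rw [← pow_succ']
    congr 1
    omega
  omega

/-- the number of bits for each block -/
def rate (c : ℕ) (m : ℕ) : ℕ := c * m.bits.length + 3

theorem pt_rate (c : ℕ) : PT (rate c) :=
  ((PT.const c).mul (PT.bits PT.id).length).succ.succ.succ

theorem mul_pow_rate_le {c m M : ℕ} (hm : 1 ≤ m) (hmM : m ≤ M) :
    m * 2 ^ rate c m ≤ M * (8 * (2 * M) ^ c) := by
  have h1 := pow_bits_le hm
  have h2 : 2 ^ rate c m = 8 * (2 ^ m.bits.length) ^ c := by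
    unfold rate
    rw [pow_add, ← pow_mul, mul_comm m.bits.length c]
    norm_num
    ring
  rw [h2]
  exact Nat.mul_le_mul hmM (Nat.mul_le_mul_left _ (Nat.pow_le_pow_left (by omega) _))

/-- if an NP-hard language has an OR-compression, then for every language `L` in NP there is a
length-decreasing polynomial time map such that `L` is in P if its collisions can be found in
polynomial time -/
theorem exists_shrinking {S : Type} [Finite S] [Nonempty S] {R R' : Set (List S)}
    (hR : NPHard R) {D : List (List S) → List S} (hD : ORCompression R R' D)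
    {L : Set (List Bool)} (hL : InNP L) :
    ∃ C : List Bool × List Bool → List Bool, Shrinking C ∧ ((∃ A, CollisionFinder C A) → InP L) := by
  classical
  obtain ⟨V, p, hV0, hL⟩ := hL
  have : Inhabited S := Classical.inhabited_of_nonempty inferInstance
  have hV : PT V := by
    have h : PT (fun z : List Bool × List Bool => [V z]) := PT.ofTM2 hV0.some pt_pairStr
    exact (h.headD (PT.const false)).congr fun z => rfl
  obtain ⟨f, hf0, hf⟩ := hR _ (prefix_inNP hV p)
  have hf1 : PT f := PT.ofTM2 (ea := fun x : List Bool => x) (eb := fun x : List S => x)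
    (f := f) hf0.some PT.id
  have hD1 : PT D := PT.ofTM2 (ea := seqStr) (eb := fun x : List S => x) (f := D)
    hD.polyTime.some pt_seqStr
  obtain ⟨c, mm, pm, hmm⟩ := hD.short
  obtain ⟨q, hq⟩ := hf1.size
  obtain ⟨B, hB⟩ : ∃ B : ℕ, ∀ s : S, sz s ≤ B := by
    have := Fintype.ofFinite S
    exact ⟨∑ s : S, sz s, fun s => Finset.single_le_sum (f := fun s : S => sz s)
      (fun _ _ => Nat.zero_le _) (Finset.mem_univ s)⟩
  let n0 : Polynomial ℕ := q.comp (4 * (2 * Polynomial.X + 1 + (p + 1)) + 1)
  have hn0 : ∀ x u : List Bool, u.length ≤ p.eval x.length + 1 →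
      (f (pairStr (x, u))).length ≤ n0.eval x.length := by
    intro x u hu
    refine (length_le_sz _).trans ((hq _).trans ?_)
    have h1 := sz_str (pairStr (x, u))
    rw [pairStr_length] at h1
    have h2 := eval_mono q (show sz (pairStr (x, u)) ≤
      4 * (2 * x.length + 1 + (p.eval x.length + 1)) + 1 by omega)
    simp only [n0, Polynomial.eval_comp, Polynomial.eval_add, Polynomial.eval_mul,
      Polynomial.eval_ofNat, Polynomial.eval_X, Polynomial.eval_one]
    exact h2
  have hgood : ∀ x u : List Bool, f (pairStr (x, u)) ∈ R ↔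
      Good (fun u => V (x, u)) (p.eval x.length) u := by
    intro x u
    rw [← hf]
    exact mem_prefix
  have hE : ∀ (x : List Bool) (A : List (List Bool)), A ≠ [] →
      (D (A.map fun u => f (pairStr (x, u))) ∈ R' ↔
        ∃ u ∈ A, Good (fun u => V (x, u)) (p.eval x.length) u) := by
    intro x A hA
    rw [hD.correct _ (by simpa using hA)]
    constructor
    · rintro ⟨w, hw, hwR⟩
      obtain ⟨u, hu, rfl⟩ := List.mem_map.1 hw
      exact ⟨u, hu, (hgood x u).1 hwR⟩
    · rintro ⟨u, hu, hg⟩
      exact ⟨_, List.mem_map.2 ⟨u, hu, rfl⟩, (hgood x u).2 hg⟩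
  have hEpt : PT (fun z : List Bool × List (List Bool) =>
      D (z.2.map fun u => f (pairStr (z.1, u)))) := pt_E hD1 hf1
  refine ⟨_, shrinking_mapC hEpt, ?_⟩
  rintro ⟨A, hA⟩
  obtain ⟨d, hd, hdL⟩ := search_main hV hEpt (pt_rate (c * (B + 1)))
    (pm.comp n0 + 1) (pm.comp n0 * (8 * (2 * pm.comp n0) ^ (c * (B + 1)))) p
    (fun _ y => y ∈ R') hE (by
      intro x
      obtain ⟨h1, h2, h3⟩ := hmm (n0.eval x.length)
      have h4 : mm (n0.eval x.length) ≤ (pm.comp n0).eval x.length :=
        h2.trans_eq Polynomial.eval_comp.symm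
      refine ⟨mm (n0.eval x.length), h1, ?_, ?_, ?_⟩
      · simp only [Polynomial.eval_add, Polynomial.eval_one]
        omega
      · simp only [Polynomial.eval_mul, Polynomial.eval_pow, Polynomial.eval_ofNat]
        exact mul_pow_rate_le h1 h4
      · intro T hT hTl
        have h5 := h3 (T.map fun u => f (pairStr (x, u))) (by rw [List.length_map, hT])
          (by
            intro w hw
            obtain ⟨u, hu, rfl⟩ := List.mem_map.1 hw
            exact hn0 x u (hTl u hu))
        have h6 := sz_list_le (l := D (T.map fun u => f (pairStr (x, u)))) (B := B)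
          fun s _ => hB s
        generalize mm (n0.eval x.length) = m at h1 h5
        have h7 := log_lt_bits h1
        have h8 : (D (T.map fun u => f (pairStr (x, u)))).length * (B + 1) ≤
            m * (c * (B + 1) * m.bits.length) := by
          calc (D (T.map fun u => f (pairStr (x, u)))).length * (B + 1)
              ≤ (c * m * (Nat.log 2 m + 1)) * (B + 1) := Nat.mul_le_mul_right _ h5
            _ ≤ (c * m * m.bits.length) * (B + 1) :=
                Nat.mul_le_mul_right _ (Nat.mul_le_mul_left _ h7)
            _ = m * (c * (B + 1) * m.bits.length) := by ring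
        have h9 : m * rate (c * (B + 1)) m = m * (c * (B + 1) * m.bits.length) + 3 * m := by
          unfold rate
          ring
        show sz (D (T.map fun u => f (pairStr (x, u)))) + 2 ≤ m * rate (c * (B + 1)) m
        omega) hA
  exact ⟨d, hd.polyTime_dec, fun x => (hL x).trans (hdL x).symm⟩

end ORDist
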