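import Pool.Agent.Work.MP_609cce_lc.PwOut
import Pool.Agent.Work.MP_609cce_lc.PwBlock
import Pool.Agent.Work.MP_609cce_lc.PwDefs
import Pool.Agent.Work.MP_609cce_lc.OCheckPT
import Pool.Agent.Work.MP_609cce_lc.OCert
import Pool.Agent.Work.MP_2f1fa1_lc.PDiv

/-!
# The length-decreasing map whose collisions are needed
-/

namespace ORDist

open PTime

/-! ### padding -/

theorem pad_aux {a b : List Bool} {j k : ℕ} (hab : a.length ≤ b.length)
    (h : a ++ [true] ++ List.replicate j false = b ++ [true] ++ List.replicate k false) :
    a = b := by
  rcases Nat.lt_or_ge a.length b.length with hlt | hge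
  · exfalso
    have h1 : (a ++ [true] ++ List.replicate j false)[b.length]? =
        (b ++ [true] ++ List.replicate k false)[b.length]? := by rw [h]
    have h2 : (b ++ [true] ++ List.replicate k false)[b.length]? = some true := by
      rw [List.append_assoc, List.getElem?_append_right (le_refl _)]
      simp
    rw [h2, List.getElem?_append_right (by simp; omega)] at h1
    rw [List.getElem?_replicate] at h1
    split_ifs at h1
    simp at h1
  · have he : a.length = b.length := by omega
    rw [List.append_assoc, List.append_assoc] at h
    exact List.append_inj_left h he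

theorem pad_inj {a b : List Bool} {j k : ℕ}
    (h : a ++ [true] ++ List.replicate j false = b ++ [true] ++ List.replicate k false) :
    a = b := by
  rcases Nat.le_total a.length b.length with h1 | h1
  · exact pad_aux h1 h
  · exact (pad_aux h1 h.symm).symm

/-- keys: the input `x`, the list of prefixes, two numbers in unary -/
abbrev Key := List Bool × List (List Bool) × (List Bool × List Bool)

/-- the data coded by a key -/
def keyOf (z : List Bool) : Key := Dec.ofT (parseT z)

theorem keyOf_enc (k : Key) : keyOf (enc k) = k := by
  unfold keyOf
  rw [parse_enc, Dec.ofT_toT]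

section

variable {γ : Type} [Code γ]

/-- the coded output for the selection -/
def outK (E : List Bool × List (List Bool) → γ) (k : Key) (w : List Bool) : List Bool :=
  enc (E (k.1, bsel w k.2.1 k.2.2.1.length k.2.2.2.length)) ++ [true]

/-- the number of bits used -/
def lenK (k : Key) : ℕ := k.2.2.1.length * k.2.2.2.length

/-- the map, key decoded -/
def mapK (E : List Bool × List (List Bool) → γ) (k : Key) (w : List Bool) : List Bool :=
  bif decide ((outK E k w).length + 1 ≤ lenK k) && decide (lenK k ≤ w.length) then
    outK E k w ++ List.replicate (lenK k - 1 - (outK E k w).length) false ++ w.drop (lenK k)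
  else w.tail

/-- the map -/
def mapC (E : List Bool × List (List Bool) → γ) (z : List Bool × List Bool) : List Bool :=
  mapK E (keyOf z.1) z.2

theorem length_mapK (E : List Bool × List (List Bool) → γ) (k : Key) {u : List Bool}
    (hu : u ≠ []) : (mapK E k u).length + 1 = u.length := by
  have hx0 : 0 < u.length := List.length_pos_iff.2 hu
  unfold mapK
  generalize outK E k u = s
  by_cases h : s.length + 1 ≤ lenK k ∧ lenK k ≤ u.length
  · rw [decide_eq_true h.1, decide_eq_true h.2, Bool.true_and, cond_true]
    rw [List.length_append, List.length_append, List.length_replicate, List.length_drop]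
    omega
  · have : (decide (s.length + 1 ≤ lenK k) && decide (lenK k ≤ u.length)) = false := by
      rw [← Bool.not_eq_true, Bool.and_eq_true, decide_eq_true_eq, decide_eq_true_eq]
      exact h
    rw [this, cond_false, List.length_tail]
    omega

/-- a collision of the map is a collision of the selections -/
theorem collision_mapC (E : List Bool × List (List Bool) → γ) {x : List Bool}
    {U : List (List Bool)} (hU : U.Nodup) {a b : List Bool}
    (hm : a.length * 2 ^ b.length ≤ U.length)
    (hQ : ∀ S : List (List Bool), S.length = a.length → S ⊆ U →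
      sz (E (x, S)) + 2 ≤ a.length * b.length)
    {w w' : List Bool} (hw : a.length * b.length ≤ w.length)
    (hw' : a.length * b.length ≤ w'.length) (hne : w ≠ w')
    (h : mapC E (enc (x, U, (a, b)), w) = mapC E (enc (x, U, (a, b)), w')) :
    (∃ u ∈ bsel w U a.length b.length, u ∉ bsel w' U a.length b.length) ∧
      E (x, bsel w U a.length b.length) = E (x, bsel w' U a.length b.length) := by
  have hb : ∀ v : List Bool, a.length * b.length ≤ v.length →
      (outK E (x, U, (a, b)) v).length + 1 ≤ a.length * b.length := by
    intro v hv
    unfold outK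
    rw [List.length_append, List.length_singleton]
    exact hQ _ (length_bsel _ _ _ _) (bsel_subset hv hm)
  have hmm : ∀ v : List Bool, a.length * b.length ≤ v.length →
      mapC E (enc (x, U, (a, b)), v) =
      outK E (x, U, (a, b)) v ++ List.replicate (a.length * b.length - 1 -
        (outK E (x, U, (a, b)) v).length) false ++ v.drop (a.length * b.length) := by
    intro v hv
    unfold mapC mapK
    rw [keyOf_enc]
    have h1 := hb v hv
    have h2 : lenK (x, U, (a, b)) = a.length * b.length := rfl
    rw [h2, decide_eq_true h1, decide_eq_true hv, Bool.true_and, cond_true]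
  rw [hmm w hw, hmm w' hw'] at h
  have hl : ∀ v : List Bool, a.length * b.length ≤ v.length →
      (outK E (x, U, (a, b)) v ++ List.replicate (a.length * b.length - 1 -
        (outK E (x, U, (a, b)) v).length) false).length = a.length * b.length - 1 := by
    intro v hv
    rw [List.length_append, List.length_replicate]
    have := hb v hv
    omega
  obtain ⟨h1, h2⟩ := List.append_inj h (by rw [hl w hw, hl w' hw'])
  have h3 : enc (E (x, bsel w U a.length b.length)) =
      enc (E (x, bsel w' U a.length b.length)) := pad_inj h1
  exact ⟨exists_diff hU hm hw hw' hne h2, enc_inj h3⟩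

/-! ### polynomial time -/

variable {α : Type} [Code α]

theorem pt_pick {B : α → List (List Bool)} {w : α → List Bool} (hB : PT B) (hw : PT w) :
    PT (fun a => pick (B a) (w a)) := by
  have hs : PT (fun x : α × List (List Bool) × Bool => x.2.1) := PT.snd.fst'
  have hl : PT (fun x : α × List (List Bool) × Bool => x.2.1.length / 2) :=
    PT.div hs.length (PT.const 2)
  have hg : PT (fun x : α × List (List Bool) × Bool => half x.2.1 x.2.2) :=
    PT.cond PT.snd.snd' (hs.drop hl) (hs.take hl)
  obtain ⟨q, hq⟩ := hB.size
  have h : PT (fun a => halves (B a) (w a)) := by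
    refine PT.foldl (g := fun x : α × List (List Bool) × Bool => half x.2.1 x.2.2) hw hB hg q ?_
    intro a l' _
    show sz (halves (B a) l') ≤ _
    exact (sz_sublist (halves_sub l' (B a))).trans (hq a)
  exact PT.headD h (PT.const [])

theorem pt_bsel {w : α → List Bool} {U : α → List (List Bool)} {m r : α → ℕ} (hw : PT w)
    (hU : PT U) (hm : PT m) (hr : PT r) : PT (fun a => bsel (w a) (U a) (m a) (r a)) := by
  have hw1 : PT (fun x : α × ℕ => w x.1) := hw.comp PT.fst
  have hU1 : PT (fun x : α × ℕ => U x.1) := hU.comp PT.fst
  have hm1 : PT (fun x : α × ℕ => m x.1) := hm.comp PT.fst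
  have hr1 : PT (fun x : α × ℕ => r x.1) := hr.comp PT.fst
  have hi : PT (fun x : α × ℕ => x.2) := PT.snd
  have hd : PT (fun x : α × ℕ => (U x.1).length / m x.1) := PT.div hU1.length hm1
  have h1 : PT (fun x : α × ℕ => blk (U x.1) (m x.1) x.2) := (hU1.drop (hi.mul hd)).take hd
  have h2 : PT (fun x : α × ℕ => bits (w x.1) (r x.1) x.2) := (hw1.drop (hi.mul hr1)).take hr1
  exact PT.map (g := fun x : α × ℕ => pick (blk (U x.1) (m x.1) x.2) (bits (w x.1) (r x.1) x.2))
    hm.range (pt_pick h1 h2)

theorem pt_mapC {E : List Bool × List (List Bool) → γ} (hE : PT E) : PT (mapC E) := by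
  have hk : PT (fun z : List Bool × List Bool => keyOf z.1) :=
    (Dec.pt (γ := Key)).comp (PT.parseT PT.fst)
  have hx : PT (fun z : List Bool × List Bool => (keyOf z.1).1) := hk.fst'
  have hU : PT (fun z : List Bool × List Bool => (keyOf z.1).2.1) := hk.snd'.fst'
  have ha : PT (fun z : List Bool × List Bool => (keyOf z.1).2.2.1.length) :=
    hk.snd'.snd'.fst'.length
  have hb : PT (fun z : List Bool × List Bool => (keyOf z.1).2.2.2.length) :=
    hk.snd'.snd'.snd'.length
  have hw : PT (fun z : List Bool × List Bool => z.2) := PT.snd
  have hL : PT (fun z : List Bool × List Bool => lenK (keyOf z.1)) := ha.mul hb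
  have hs : PT (fun z : List Bool × List Bool => bsel z.2 (keyOf z.1).2.1
    (keyOf z.1).2.2.1.length (keyOf z.1).2.2.2.length) := pt_bsel hw hU ha hb
  have ho : PT (fun z : List Bool × List Bool => outK E (keyOf z.1) z.2) :=
    (PT.quote (PT.comp (f := fun z : List Bool × List Bool => ((keyOf z.1).1,
      bsel z.2 (keyOf z.1).2.1 (keyOf z.1).2.2.1.length (keyOf z.1).2.2.2.length)) hE
      (hx.pair hs))).append (PT.const [true])
  have hr : PT (fun z : List Bool × List Bool => List.replicate (lenK (keyOf z.1) - 1 -
        (outK E (keyOf z.1) z.2).length) false) := by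
    refine (PT.map (g := fun _ : (List Bool × List Bool) × Unit => false)
      (((hL.sub (PT.const 1)).sub ho.length).replicate) (PT.const false)).congr
      fun a => ?_
    rw [List.map_replicate]
  exact PT.cond ((PT.le ho.length.succ hL).and (PT.le hL hw.length))
    ((ho.append hr).append (hw.drop hL)) hw.tail

/-- the map is a length-decreasing polynomial time family -/
theorem shrinking_mapC {E : List Bool × List (List Bool) → γ} (hE : PT E) :
    Shrinking (mapC E) := by
  refine ⟨?_, fun x u hx hu => ?_⟩
  · refine PT.polyTime_raw (f := fun l => mapC E (PTime.unpairS l))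
      ((pt_mapC hE).comp (PT.unpairS PT.id)) fun z => ?_
    rw [unpairS_pairStr]
  · have h0 : u ≠ [] := by
      rintro rfl
      exact hx (List.length_eq_zero_iff.1 hu.symm)
    have := length_mapK E (keyOf x) h0
    rw [hu] at this
    exact this

end

end ORDist
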