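import Pool.Agent.Work.MP_609cce_lc.PwMap
import Pool.Agent.Work.MP_609cce_lc.OrdSim

/-!
# From collision finding to a decision procedure
-/

open Turing

namespace ORDist

open PTime

section

variable {γ : Type} [Code γ] [DecidableEq γ]

/-- the key for the list `U` and `m` -/
def keyFor (r : ℕ → ℕ) (x : List Bool) (U : List (List Bool)) (m : ℕ) : Key :=
  (x, U, (List.replicate m true, List.replicate (r m) true))

/-- use the collision found for `m` -/
def cutM (E : List Bool × List (List Bool) → γ) (r : ℕ → ℕ)
    (A : List Bool → List Bool × List Bool) (x : List Bool) (U : List (List Bool)) (m : ℕ) :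
    List (List Bool) :=
  cutS (fun S => E (x, S)) U (bsel (A (enc (keyFor r x U m))).1 U m (r m))
    (bsel (A (enc (keyFor r x U m))).2 U m (r m))

/-- try all `m < n` -/
def cutAll (E : List Bool × List (List Bool) → γ) (r : ℕ → ℕ)
    (A : List Bool → List Bool × List Bool) (n : ℕ) (x : List Bool) (U : List (List Bool)) :
    List (List Bool) := (List.range n).foldl (fun U m => cutM E r A x U m) U

theorem pt_keyFor {r : ℕ → ℕ} (hr : PT r) :
    PT (fun z : List Bool × List (List Bool) × ℕ => keyFor r z.1 z.2.1 z.2.2) := by
  have hx : PT (fun z : List Bool × List (List Bool) × ℕ => z.1) := PT.fst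
  have hU : PT (fun z : List Bool × List (List Bool) × ℕ => z.2.1) := PT.snd.fst'
  have hm : PT (fun z : List Bool × List (List Bool) × ℕ => z.2.2) := PT.snd.snd'
  have hrm : PT (fun z : List Bool × List (List Bool) × ℕ => r z.2.2) := hr.comp hm
  have rep : ∀ {n : List Bool × List (List Bool) × ℕ → ℕ}, PT n →
      PT (fun z => List.replicate (n z) true) := by
    intro n hn
    refine (PT.map (g := fun _ : (List Bool × List (List Bool) × ℕ) × Unit => true)
      hn.replicate (PT.const true)).congr fun a => ?_
    rw [List.map_replicate]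
  exact hx.pair (hU.pair ((rep hm).pair (rep hrm)))

theorem pt_cutM {E : List Bool × List (List Bool) → γ} (hE : PT E) {r : ℕ → ℕ} (hr : PT r)
    {A : List Bool → List Bool × List Bool} (hA : PT A) :
    PT (fun z : List Bool × List (List Bool) × ℕ => cutM E r A z.1 z.2.1 z.2.2) := by
  have hx : PT (fun z : List Bool × List (List Bool) × ℕ => z.1) := PT.fst
  have hU : PT (fun z : List Bool × List (List Bool) × ℕ => z.2.1) := PT.snd.fst'
  have hm : PT (fun z : List Bool × List (List Bool) × ℕ => z.2.2) := PT.snd.snd'
  have hrm : PT (fun z : List Bool × List (List Bool) × ℕ => r z.2.2) := hr.comp hm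
  have hAk : PT (fun z : List Bool × List (List Bool) × ℕ =>
      A (enc (keyFor r z.1 z.2.1 z.2.2))) :=
    PT.comp (f := fun z : List Bool × List (List Bool) × ℕ =>
      enc (keyFor r z.1 z.2.1 z.2.2)) hA (pt_keyFor hr).quote
  have h1 := pt_bsel hAk.fst' hU hm hrm
  have h2 := pt_bsel hAk.snd' hU hm hrm
  have h3 : PT (fun z : List Bool × List (List Bool) × ℕ =>
      (bsel (A (enc (keyFor r z.1 z.2.1 z.2.2))).1 z.2.1 z.2.2 (r z.2.2)).filter fun v =>
        !decide (v ∈ bsel (A (enc (keyFor r z.1 z.2.1 z.2.2))).2 z.2.1 z.2.2 (r z.2.2))) :=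
    PT.filter (p := fun y : (List Bool × List (List Bool) × ℕ) × List Bool =>
      !decide (y.2 ∈ bsel (A (enc (keyFor r y.1.1 y.1.2.1 y.1.2.2))).2 y.1.2.1 y.1.2.2
        (r y.1.2.2))) h1 (PT.mem' (h2.comp PT.fst) PT.snd).not
  have h4 := PT.headD h3 (PT.const [])
  exact PT.comp (f := fun z : List Bool × List (List Bool) × ℕ => (z.1, z.2.1,
    (bsel (A (enc (keyFor r z.1 z.2.1 z.2.2))).1 z.2.1 z.2.2 (r z.2.2),
     bsel (A (enc (keyFor r z.1 z.2.1 z.2.2))).2 z.2.1 z.2.2 (r z.2.2),
     ((bsel (A (enc (keyFor r z.1 z.2.1 z.2.2))).1 z.2.1 z.2.2 (r z.2.2)).filter fun v =>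
        !decide (v ∈ bsel (A (enc (keyFor r z.1 z.2.1 z.2.2))).2 z.2.1 z.2.2
          (r z.2.2))).headD []))) (pt_applyStep hE)
    (hx.pair (hU.pair (h1.pair (h2.pair h4))))

omit [Code γ] in
theorem cutM_sub (E : List Bool × List (List Bool) → γ) (r : ℕ → ℕ)
    (A : List Bool → List Bool × List Bool) (x : List Bool) (U : List (List Bool)) (m : ℕ) :
    (cutM E r A x U m).Sublist U := cutS_sub _ _ _

theorem pt_cutAll {E : List Bool × List (List Bool) → γ} (hE : PT E) {r : ℕ → ℕ} (hr : PT r)
    {A : List Bool → List Bool × List Bool} (hA : PT A) {n : List Bool → ℕ} (hn : PT n) :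
    PT (fun z : List Bool × List (List Bool) => cutAll E r A (n z.1) z.1 z.2) := by
  have hg : PT (fun y : (List Bool × List (List Bool)) × List (List Bool) × ℕ =>
      cutM E r A y.1.1 y.2.1 y.2.2) :=
    PT.comp (f := fun y : (List Bool × List (List Bool)) × List (List Bool) × ℕ =>
      (y.1.1, y.2.1, y.2.2)) (pt_cutM hE hr hA)
      (PT.fst.fst'.pair (PT.snd.fst'.pair PT.snd.snd'))
  refine PT.foldl (l := fun z : List Bool × List (List Bool) => List.range (n z.1))
    (s := fun z => z.2) (g := fun y : (List Bool × List (List Bool)) × List (List Bool) × ℕ =>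
      cutM E r A y.1.1 y.2.1 y.2.2) (PT.range (hn.comp PT.fst)) PT.snd hg Polynomial.X ?_
  intro z l' _
  have h1 : sz (l'.foldl (fun U m => cutM E r A z.1 U m) z.2) ≤ sz z.2 :=
    sz_sublist (foldl_sub (fun U m => cutM_sub E r A z.1 U m) l' z.2)
  have h2 : sz z.2 ≤ sz z := by
    obtain ⟨a, b⟩ := z
    simp only [sz_pair]
    omega
  rw [Polynomial.eval_X]
  exact h1.trans h2

theorem pt_gstep {V : List Bool × List Bool → Bool} (hV : PT V)
    {G : List Bool × List (List Bool) → List (List Bool)} (hG : PT G) {K N : List Bool → ℕ}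
    (hK : PT K) (hN : PT N) :
    PT (fun z : List Bool × (Bool × List (List Bool)) =>
      gstep (fun u => V (z.1, u)) (K z.1) (N z.1) (fun U => G (z.1, U)) z.2) := by
  have hx : PT (fun z : List Bool × (Bool × List (List Bool)) => z.1) := PT.fst
  have hf : PT (fun z : List Bool × (Bool × List (List Bool)) => z.2.1) := PT.snd.fst'
  have hU : PT (fun z : List Bool × (Bool × List (List Bool)) => z.2.2) := PT.snd.snd'
  have hGG : PT (fun z : List Bool × (Bool × List (List Bool)) => G (z.1, z.2.2)) :=
    PT.comp (f := fun z : List Bool × (Bool × List (List Bool)) => (z.1, z.2.2)) hG (hx.pair hU)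
  have hV1 : PT (fun y : (List Bool × (Bool × List (List Bool))) × List Bool =>
      V (y.1.1, y.2)) :=
    PT.comp (f := fun y : (List Bool × (Bool × List (List Bool))) × List Bool => (y.1.1, y.2))
      hV ((PT.fst.fst').pair PT.snd)
  have hN1 : PT (fun y : (List Bool × (Bool × List (List Bool))) × List Bool => N y.1.1) :=
    PT.comp (f := fun y : (List Bool × (Bool × List (List Bool))) × List Bool => y.1.1)
      hN PT.fst.fst'
  have hlen : PT (fun y : (List Bool × (Bool × List (List Bool))) × List Bool =>
      decide (y.2.length ≤ N y.1.1)) := PT.le PT.snd.length hN1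
  have ha : PT (fun z : List Bool × (Bool × List (List Bool)) =>
      z.2.2.any fun u => V (z.1, u) && decide (u.length ≤ N z.1)) :=
    PT.any (p := fun y : (List Bool × (Bool × List (List Bool))) × List Bool =>
      V (y.1.1, y.2) && decide (y.2.length ≤ N y.1.1)) hU (hV1.and hlen)
  have hfil : PT (fun z : List Bool × (Bool × List (List Bool)) =>
      z.2.2.filter fun u => decide (u.length ≤ N z.1)) :=
    PT.filter (p := fun y : (List Bool × (Bool × List (List Bool))) × List Bool =>
      decide (y.2.length ≤ N y.1.1)) hU hlen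
  have he : PT (fun z : List Bool × (Bool × List (List Bool)) => expandN (N z.1) z.2.2) := by
    show PT (fun z : List Bool × (Bool × List (List Bool)) =>
      expand (z.2.2.filter fun u : List Bool => decide (u.length ≤ N z.1)))
    exact pt_expand.comp hfil
  have hKx : PT (fun z : List Bool × (Bool × List (List Bool)) => K z.1) := hK.comp hx
  have h1 : PT (fun z : List Bool × (Bool × List (List Bool)) =>
      decide (K z.1 ≤ z.2.2.length)) := PT.le hKx hU.length
  have h2 : PT (fun z : List Bool × (Bool × List (List Bool)) =>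
      (z.2.1, G (z.1, z.2.2))) := hf.pair hGG
  have h3 : PT (fun z : List Bool × (Bool × List (List Bool)) =>
      ((z.2.1 || z.2.2.any fun u => V (z.1, u) && decide (u.length ≤ N z.1)),
        expandN (N z.1) z.2.2)) := (hf.or ha).pair he
  exact PT.cond h1 h2 h3

/-- the search is a polynomial time function -/
theorem pt_search {V : List Bool × List Bool → Bool} (hV : PT V)
    {G : List Bool × List (List Bool) → List (List Bool)} (hG : PT G) (K p : Polynomial ℕ)
    (hW : ∀ x, 1 ≤ K.eval x.length ∧
      Shortens (K.eval x.length) (p.eval x.length) (fun U => G (x, U))) :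
    PT (fun x : List Bool => ((gstep (fun u => V (x, u))
      (K.eval x.length) (p.eval x.length) (fun U => G (x, U)))^[
        (p.eval x.length + 1) * K.eval x.length + 2] (false, [[]])).1) := by
  have hl : PT (fun x : List Bool => x.length) := PT.id.length
  have hK : PT (fun x : List Bool => K.eval x.length) := PT.polyEval K hl
  have hN : PT (fun x : List Bool => p.eval x.length) := PT.polyEval p hl
  have hn : PT (fun x : List Bool => (p.eval x.length + 1) * K.eval x.length + 2) :=
    (hN.succ.mul hK).succ.succ
  have h := PT.iterate (g := fun z : List Bool × (Bool × List (List Bool)) =>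
      gstep (fun u => V (z.1, u)) (K.eval z.1.length)
        (p.eval z.1.length) (fun U => G (z.1, U)) z.2) hn
    (PT.const (α := List Bool) ((false, [[]]) : Bool × List (List Bool)))
    (pt_gstep hV hG hK hN) (2 * K * (4 * (p + 1) + 2) + 5) (by
      intro x k _
      show sz ((gstep (fun u => V (x, u)) (K.eval x.length)
        (p.eval x.length) (fun U => G (x, U)))^[k] (false, [[]])) ≤ _
      have h1 := sinv_iter (V := fun u => V (x, u)) (hW x).1 (hW x).2 k
      generalize (gstep (fun u => V (x, u)) (K.eval x.length)
        (p.eval x.length) (fun U => G (x, U)))^[k] (false, [[]]) = s at h1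
      obtain ⟨b, U⟩ := s
      have h2 : sz U ≤ 2 * K.eval x.length * (4 * (p.eval x.length + 1) + 2) + 1 := by
        rcases h1 with h1 | ⟨i, hi, h3, _, h4, _⟩
        · simp only at h1
          rw [h1, sz_nil]
          omega
        · simp only at h3 h4
          exact sz_strs h4 fun u hu => by rw [h3 u hu]; exact hi
      have h3 := sz_bool b
      have h4 := length_le_sz x
      have h5 := eval_mono K h4
      have h6 := eval_mono p h4
      simp only at h5 h6
      rw [sz_pair]
      simp only [Polynomial.eval_add, Polynomial.eval_mul, Polynomial.eval_ofNat,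
        Polynomial.eval_one]
      have h7 : 2 * K.eval x.length * (4 * (p.eval x.length + 1) + 2) ≤
          2 * K.eval (sz x) * (4 * (p.eval (sz x) + 1) + 2) :=
        Nat.mul_le_mul (by omega) (by omega)
      omega)
  exact h.fst'

/-- the main lemma: collisions of the map `mapC E` suffice to decide -/
theorem search_main {V : List Bool × List Bool → Bool} (hV : PT V)
    {E : List Bool × List (List Bool) → γ} (hE : PT E) {r : ℕ → ℕ} (hr : PT r)
    (M K p : Polynomial ℕ) (P : List Bool → γ → Prop)
    (hP : ∀ (x : List Bool) (S : List (List Bool)), S ≠ [] → (P x (E (x, S)) ↔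
      ∃ u ∈ S, Good (fun y => V (x, y)) (p.eval x.length) u))
    (hQ : ∀ x : List Bool, ∃ m : ℕ, 1 ≤ m ∧ m < M.eval x.length ∧
      m * 2 ^ r m ≤ K.eval x.length ∧ ∀ S : List (List Bool), S.length = m →
      (∀ u ∈ S, u.length ≤ p.eval x.length + 1) → sz (E (x, S)) + 2 ≤ m * r m)
    {A : List Bool → List Bool × List Bool} (hA : CollisionFinder (mapC E) A) :
    ∃ d : List Bool → Bool, PT d ∧
      ∀ x, d x = true ↔ ∃ y : List Bool, y.length ≤ p.eval x.length ∧ V (x, y) = true := by
  have hA' : PT A := by
    obtain ⟨h⟩ := hA.polyTime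
    have h1 := PT.ofTM2 (β := List Bool × List Bool) h PT.id
    refine (PT.unpairS h1).congr fun x => ?_
    exact unpairS_pairStr _
  have hG : PT (fun z : List Bool × List (List Bool) =>
      cutAll E r A (M.eval z.1.length) z.1 z.2) :=
    pt_cutAll hE hr hA' (n := fun x => M.eval x.length) (PT.polyEval M PT.id.length)
  have hW : ∀ x : List Bool, 1 ≤ K.eval x.length ∧ Shortens (K.eval x.length) (p.eval x.length)
      (fun U => cutAll E r A (M.eval x.length) x U) := by
    intro x
    obtain ⟨m, hm1, hmM, hmK, hb⟩ := hQ x
    refine ⟨le_trans (Nat.mul_pos hm1 (by positivity)) hmK,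
      fun U => foldl_sub (fun U m => cutM_sub E r A x U m) _ U, ?_⟩
    intro U hU hK hlen
    refine foldl_shortens (fun U m => cutM_sub E r A x U m) m _ U (List.mem_range.2 hmM) ?_
    have hne : enc (keyFor r x U m) ≠ [] := by
      intro he
      have := sz_pos (keyFor r x U m)
      unfold sz at this
      rw [he] at this
      simp at this
    obtain ⟨h1, h2, h3, h4⟩ := hA.collision _ hne
    have h5 : U.length ≤ (enc (keyFor r x U m)).length := by
      have h6 := length_le_sz U
      have h7 := sz_pair x (U, (List.replicate m true, List.replicate (r m) true))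
      have h8 := sz_pair U (List.replicate m true, List.replicate (r m) true)
      unfold sz at h6 h7 h8
      unfold keyFor
      omega
    have h6 : m * r m ≤ m * 2 ^ r m := Nat.mul_le_mul_left _ (Nat.lt_two_pow_self).le
    have hla : (List.replicate m true).length = m := List.length_replicate
    have hlb : (List.replicate (r m) true).length = r m := List.length_replicate
    have hc := collision_mapC E (x := x) hU (a := List.replicate m true)
      (b := List.replicate (r m) true) (by rw [hla, hlb]; omega)
      (by
        intro S hS hSU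
        rw [hla] at hS
        rw [hla, hlb]
        exact hb S hS fun u hu => hlen u (hSU hu))
      (w := (A (enc (keyFor r x U m))).1) (w' := (A (enc (keyFor r x U m))).2)
      (by rw [hla, hlb, h1]; omega) (by rw [hla, hlb, h2]; omega) h3 h4
    rw [hla, hlb] at hc
    obtain ⟨hc1, hc2⟩ := hc
    refine length_cutS (bsel_subset (by rw [h1]; omega) (by omega))
      (bsel_subset (by rw [h2]; omega) (by omega)) ?_ hc1 hc2
    intro h0
    have := length_bsel (A (enc (keyFor r x U m))).2 U m (r m)
    rw [h0] at this
    simp at this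
    omega
  refine ⟨_, pt_search hV hG K p hW, fun x => ?_⟩
  refine search_correct (V := fun u => V (x, u)) (hW x).1 (hW x).2 ?_
  intro U hU
  exact foldl_keeps (g := fun U m => cutM E r A x U m)
    (fun U m h => good_cutS (P := P x) (hP x) h _ _) _ U hU

end

end ORDist
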