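import Pool.Agent.Work.MP_609cce_lc.QueryCode

/-!
# Few arbitrary gates do not help to compute an OR of many copies: averaging
-/

namespace Pool.Agent.Work.MP_609cce_lc

open Finset

theorem prod_weights {m : ℕ} {Y : Type} [DecidableEq Y] (μ : Y → ℝ) (y : Fin m → Y) (i : Fin m)
    (v : Y) : (∏ j, μ (Function.update y i v j)) * μ (y i) = (∏ j, μ (y j)) * μ v := by
  rw [← mul_prod_erase univ (fun j => μ (Function.update y i v j)) (mem_univ i),
    ← mul_prod_erase univ (fun j => μ (y j)) (mem_univ i), Function.update_self]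
  have h1 : ∏ j ∈ univ.erase i, μ (Function.update y i v j) = ∏ j ∈ univ.erase i, μ (y j) := by
    refine prod_congr rfl fun j hj => ?_
    rw [Function.update_of_ne (ne_of_mem_erase hj)]
  rw [h1]
  ring

theorem sum_weights {m : ℕ} {Y : Type} [Fintype Y] (μ : Y → ℝ) (hμ : ∑ y, μ y = 1) :
    ∑ y : Fin m → Y, ∏ j, μ (y j) = 1 := by
  classical
  have h1 := Finset.prod_univ_sum (fun _ : Fin m => (univ : Finset Y)) (fun _ y => μ y)
  rw [Fintype.piFinset_univ] at h1
  rw [← h1]
  simp [hμ]

theorem resample {m : ℕ} {Y : Type} [Fintype Y] [DecidableEq Y] (μ : Y → ℝ)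
    (hμ : ∑ y, μ y = 1) (i : Fin m)
    (g : (Fin m → Y) → Y → ℝ) (hg : ∀ y v w, g (Function.update y i v) w = g y w) :
    ∑ y : Fin m → Y, (∏ j, μ (y j)) * ∑ v, μ v * g y v =
      ∑ y : Fin m → Y, (∏ j, μ (y j)) * g y (y i) := by
  let e : (Fin m → Y) × Y ≃ (Fin m → Y) × Y :=
    { toFun := fun p => (Function.update p.1 i p.2, p.1 i)
      invFun := fun p => (Function.update p.1 i p.2, p.1 i)
      left_inv := by rintro ⟨y, v⟩; simp
      right_inv := by rintro ⟨y, v⟩; simp }
  have h1 : ∑ y : Fin m → Y, (∏ j, μ (y j)) * ∑ v, μ v * g y v =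
      ∑ p : (Fin m → Y) × Y, (∏ j, μ (p.1 j)) * (μ p.2 * g p.1 p.2) := by
    rw [Fintype.sum_prod_type]
    refine sum_congr rfl fun y _ => ?_
    rw [mul_sum]
  rw [h1, ← Equiv.sum_comp e, Fintype.sum_prod_type]
  refine sum_congr rfl fun y _ => ?_
  simp only [e, Equiv.coe_fn_mk, hg]
  have h2 : ∀ v, (∏ j, μ (Function.update y i v j)) * (μ (y i) * g y (y i)) =
      μ v * ((∏ j, μ (y j)) * g y (y i)) := by
    intro v
    rw [← mul_assoc, prod_weights]
    ring
  simp only [h2]
  rw [← sum_mul, hμ, one_mul]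

theorem sum_decrease (c : ℕ → ℕ) (hc : ∀ i, c (i + 1) ≤ c i) (m : ℕ) :
    (∑ i : Fin m, if c (i + 1) < c i then (1 : ℝ) else 0) ≤ c 0 := by
  have h1 : ∀ m : ℕ, (∑ i ∈ range m, if c (i + 1) < c i then (1 : ℝ) else 0) + c m ≤ c 0 := by
    intro m
    induction m with
    | zero => simp
    | succ m ih =>
      rw [sum_range_succ]
      split_ifs with h
      · have h2 : (c (m + 1) : ℝ) + 1 ≤ c m := by exact_mod_cast h
        linarith
      · have h2 : (c (m + 1) : ℝ) ≤ c m := by exact_mod_cast hc m
        linarith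
  have h2 := h1 m
  rw [Finset.sum_range] at h2
  have h3 : (0 : ℝ) ≤ c m := by positivity
  linarith

section Average

variable {m : ℕ} {κ Y Z Ω : Type}

/-- The first `t` instances are given by `y`, all others are trivial. -/
def ctx (base : κ → Bool) (encY : Y → κ → Bool) (y : Fin m → Y) (t : ℕ) : Fin m → κ → Bool :=
  fun j => if (j : ℕ) < t then encY (y j) else base

theorem ctx_self (base : κ → Bool) (encY : Y → κ → Bool) (y : Fin m → Y) (i : Fin m) :
    ctx base encY y i i = base := by simp [ctx]

theorem ctx_succ (base : κ → Bool) (encY : Y → κ → Bool) (y : Fin m → Y) (i : Fin m) :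
    Function.update (ctx base encY y i) i (encY (y i)) = ctx base encY y (i + 1) := by
  funext j
  by_cases hj : j = i
  · subst hj
    simp [ctx]
  · rw [Function.update_of_ne hj]
    have h1 : (j : ℕ) ≠ i := fun h => hj (Fin.ext h)
    simp only [ctx]
    by_cases h2 : (j : ℕ) < i
    · rw [if_pos h2, if_pos (by omega)]
    · rw [if_neg h2, if_neg (by omega)]

theorem ctx_update (base : κ → Bool) (encY : Y → κ → Bool) (y : Fin m → Y) (i : Fin m) (v : Y) :
    ctx base encY (Function.update y i v) i = ctx base encY y i := by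
  classical
  funext j
  simp only [ctx]
  by_cases h2 : (j : ℕ) < i
  · rw [if_pos h2, if_pos h2, Function.update_of_ne]
    intro h
    rw [h] at h2
    exact absurd h2 (lt_irrefl _)
  · rw [if_neg h2, if_neg h2]

open Classical in
/-- **Averaging.** A random circuit of weight at most `W` reads `m` instances. On no-instances of the
kinds `base` and `encY y`, it outputs `true` with probability at most `ε₀`. If one of them is
replaced by a yes-instance `encZ z`, it outputs `false` with probability at most `ε₁`. If no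
monotone circuit with the same number of AND and OR gates separates random instances `encY y` from
random instances `encZ z`, then `m` is small. -/
theorem average [Fintype Y] [Fintype Z] [Fintype Ω] [Nonempty Ω]
    (base : κ → Bool) (encY : Y → κ → Bool)
    (encZ : Z → κ → Bool) (hY : ∀ y e, base e = true → encY y e = true)
    (hZ : ∀ z e, base e = true → encZ z e = true)
    (μ : Y → ℝ) (hμ0 : ∀ y, 0 ≤ μ y) (hμ1 : ∑ y, μ y = 1)
    (ν : Z → ℝ) (hν0 : ∀ z, 0 ≤ ν z) (hν1 : ∑ z, ν z = 1)
    (gates : Ω → List (QGate (Fin m × κ))) (o : Ω → ℕ) (W : ℕ)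
    (hW : ∀ ω, ((gates ω).map QGate.weight).prod ≤ W) (η ε₀ ε₁ : ℝ)
    (hη : ∀ ω, ∀ (F : List (MonoGate κ)) (J : List ℕ),
      F.countP MonoGate.isAndOr = (gates ω).countP QGate.isAndOr → J.length ≤ W →
      1 - η ≤ ∑ y, μ y * (if ∃ j ∈ J, (gateVals (encY y) F).getD j false = true then 1 else 0) +
        ∑ z, ν z * (if ∃ j ∈ J, (gateVals (encZ z) F).getD j false = true then 0 else 1))
    (h0 : ∀ x : Fin m → κ → Bool, (∀ i, x i = base ∨ ∃ y, x i = encY y) →
      ((univ.filter fun ω => (qVals (joinBlocks x) (gates ω)).getD (o ω) false = true).card : ℝ) ≤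
        ε₀ * Fintype.card Ω)
    (h1 : ∀ (x : Fin m → κ → Bool) (i : Fin m) (z : Z),
      (∀ i, x i = base ∨ ∃ y, x i = encY y) →
      ((univ.filter fun ω => (qVals (joinBlocks (Function.update x i (encZ z)))
        (gates ω)).getD (o ω) false = false).card : ℝ) ≤ ε₁ * Fintype.card Ω) :
    m * (1 - η - ε₀ - ε₁) ≤ W - 1 := by
  have hΩpos : (0 : ℝ) < Fintype.card Ω := by exact_mod_cast Fintype.card_pos
  choose F J hF hJ hFJ using fun (ω : Ω) (x : Fin m → κ → Bool) (i : Fin m) =>
    slice (gates ω) (o ω) x i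
  let acc : Ω → (Fin m → κ → Bool) → Fin m → (κ → Bool) → Prop := fun ω x i z =>
    ∃ j ∈ J ω x i, (gateVals z (F ω x i)).getD j false = true
  let I : Prop → ℝ := fun P => if P then 1 else 0
  have hI : ∀ (α : Type) [Fintype α] (P : α → Prop) [DecidablePred P],
      ((univ.filter P).card : ℝ) = ∑ a, I (P a) := by
    intro α _ P _
    rw [Finset.card_filter]
    push_cast
    refine sum_congr rfl fun a _ => ?_
    simp only [I]
    congr
  have hImono : ∀ P Q : Prop, (P → Q) → I P ≤ I Q := by
    intro P Q h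
    simp only [I]
    by_cases hP : P
    · rw [if_pos hP, if_pos (h hP)]
    · rw [if_neg hP]
      split_ifs <;> norm_num
  have hIor : ∀ P Q R : Prop, (P → Q ∨ R) → I P ≤ I Q + I R := by
    intro P Q R h
    simp only [I]
    by_cases hP : P
    · rw [if_pos hP]
      rcases h hP with h2 | h2
      · rw [if_pos h2]
        split_ifs <;> norm_num
      · rw [if_pos h2]
        split_ifs <;> norm_num
    · rw [if_neg hP]
      split_ifs <;> norm_num
  let C : (Fin m → Y) → ℕ → Fin m → κ → Bool := fun y t => ctx base encY y t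
  let P : (Fin m → Y) → ℝ := fun y => ∏ j, μ (y j)
  have hP0 : ∀ y, 0 ≤ P y := fun y => prod_nonneg fun j _ => hμ0 _
  have hP1 : ∑ y, P y = 1 := sum_weights μ hμ1
  have hCbase : ∀ y t i, C y t i = base ∨ ∃ y', C y t i = encY y' := by
    intro y t i
    simp only [C, ctx]
    by_cases h : (i : ℕ) < t
    · rw [if_pos h]; exact Or.inr ⟨_, rfl⟩
    · rw [if_neg h]; exact Or.inl rfl
  have hle : ∀ y (i : Fin m) (z : κ → Bool), (∀ e, base e = true → z e = true) →
      ∀ e, C y i i e = true → z e = true := by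
    intro y i z hz e he
    simp only [C, ctx_self] at he
    exact hz e he
  -- the lower bound, for one circuit, one context
  have hlow : ∀ ω y (i : Fin m), 1 - η ≤
      ∑ v : Y, μ v * I (acc ω (C y i) i (encY v)) +
      ∑ z : Z, ν z * I (¬ acc ω (C y i) i (encZ z)) := by
    intro ω y i
    have h2 := hη ω (F ω (C y i) i) (J ω (C y i) i) (hF ω (C y i) i)
      ((hJ ω (C y i) i).trans (hW ω))
    refine h2.trans (add_le_add (le_of_eq ?_) (le_of_eq ?_))
    · refine sum_congr rfl fun v _ => ?_
      by_cases h3 : acc ω (C y i) i (encY v)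
      · have h4 : I (acc ω (C y i) i (encY v)) = 1 := if_pos h3
        rw [h4, if_pos h3]
      · have h4 : I (acc ω (C y i) i (encY v)) = 0 := if_neg h3
        rw [h4, if_neg h3]
    · refine sum_congr rfl fun z _ => ?_
      by_cases h3 : acc ω (C y i) i (encZ z)
      · have h4 : I (¬ acc ω (C y i) i (encZ z)) = 0 := if_neg (not_not.2 h3)
        rw [h4, if_pos h3]
      · have h4 : I (¬ acc ω (C y i) i (encZ z)) = 1 := if_pos h3
        rw [h4, if_neg h3]
  -- upper bounds
  have hup1 : ∀ ω y (i : Fin m), I (acc ω (C y i) i (encY (y i))) ≤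
      I (qCode (joinBlocks (C y (i + 1))) (gates ω) < qCode (joinBlocks (C y i)) (gates ω)) +
      I ((qVals (joinBlocks (C y (i + 1))) (gates ω)).getD (o ω) false = true) := by
    intro ω y i
    refine hIor _ _ _ fun h => ?_
    have h2 := (hFJ ω (C y i) i (encY (y i)) (hle y i _ (hY _))).2 h
    have h3 : Function.update (C y i) i (encY (y i)) = C y (i + 1) := ctx_succ _ _ _ _
    rwa [h3] at h2
  have hup2 : ∀ ω y (i : Fin m) z, I (¬ acc ω (C y i) i (encZ z)) ≤
      I ((qVals (joinBlocks (Function.update (C y i) i (encZ z))) (gates ω)).getD (o ω) false =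
        false) := by
    intro ω y i z
    refine hImono _ _ fun h => ?_
    refine (hFJ ω (C y i) i (encZ z) (hle y i _ (hZ _))).1 fun j hj => ?_
    by_contra hne
    rw [Bool.not_eq_false] at hne
    exact h ⟨j, hj, hne⟩
  -- the codes
  have hcode : ∀ ω y, ∑ i : Fin m,
      I (qCode (joinBlocks (C y (i + 1))) (gates ω) < qCode (joinBlocks (C y i)) (gates ω)) ≤
      (W : ℝ) - 1 := by
    intro ω y
    have hmono : ∀ t, qCode (joinBlocks (C y (t + 1))) (gates ω) ≤
        qCode (joinBlocks (C y t)) (gates ω) := by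
      intro t
      have h2 : ∀ e, joinBlocks (C y t) e = true → joinBlocks (C y (t + 1)) e = true := by
        rintro ⟨j, e⟩ h
        simp only [joinBlocks, C, ctx] at h ⊢
        by_cases h3 : (j : ℕ) < t
        · rw [if_pos h3] at h
          rw [if_pos (by omega)]
          exact h
        · rw [if_neg h3] at h
          split_ifs
          · exact hY _ _ h
          · exact h
      rcases qCode_mono h2 (gates ω) with h3 | h3
      · exact h3.le
      · exact h3.1.le
    have h2 := sum_decrease (fun t => qCode (joinBlocks (C y t)) (gates ω)) hmono m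
    have h5 : ∑ i : Fin m,
        I (qCode (joinBlocks (C y (i + 1))) (gates ω) < qCode (joinBlocks (C y i)) (gates ω)) =
        ∑ i : Fin m, if qCode (joinBlocks (C y (i + 1))) (gates ω) <
          qCode (joinBlocks (C y i)) (gates ω) then (1 : ℝ) else 0 := by
      refine sum_congr rfl fun i _ => ?_
      simp only [I]
      congr
    rw [h5]
    refine h2.trans ?_
    have h3 := (qCode_lt (joinBlocks (C y 0)) (gates ω)).trans_le (hW ω)
    have h4 : ((qCode (joinBlocks (C y 0)) (gates ω) : ℕ) : ℝ) + 1 ≤ W := by exact_mod_cast h3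
    linarith
  -- summation
  have hres : ∀ ω (i : Fin m), ∑ y : Fin m → Y,
      P y * (∑ v : Y, μ v * I (acc ω (C y i) i (encY v))) =
      ∑ y : Fin m → Y, P y * I (acc ω (C y i) i (encY (y i))) := by
    intro ω i
    refine resample μ hμ1 i (fun y v => I (acc ω (C y i) i (encY v))) fun y v w => ?_
    simp only [C, ctx_update]
  have key : ∑ ω : Ω, ∑ i : Fin m, ∑ y : Fin m → Y, P y * (1 - η) ≤
      ∑ ω : Ω, ∑ i : Fin m, ∑ y : Fin m → Y,
        P y * (∑ v : Y, μ v * I (acc ω (C y i) i (encY v)) +
        ∑ z : Z, ν z * I (¬ acc ω (C y i) i (encZ z))) :=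
    sum_le_sum fun ω _ => sum_le_sum fun i _ => sum_le_sum fun y _ =>
      mul_le_mul_of_nonneg_left (hlow ω y i) (hP0 y)
  have hS : ∑ ω : Ω, ∑ i : Fin m, ∑ y : Fin m → Y,
        P y * (∑ v : Y, μ v * I (acc ω (C y i) i (encY v)) +
        ∑ z : Z, ν z * I (¬ acc ω (C y i) i (encZ z))) =
      ∑ ω : Ω, ∑ i : Fin m, ∑ y : Fin m → Y, P y * I (acc ω (C y i) i (encY (y i))) +
      ∑ ω : Ω, ∑ i : Fin m, ∑ y : Fin m → Y,
        P y * ∑ z : Z, ν z * I (¬ acc ω (C y i) i (encZ z)) := by
    rw [← Finset.sum_add_distrib]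
    refine sum_congr rfl fun ω _ => ?_
    rw [← Finset.sum_add_distrib]
    refine sum_congr rfl fun i _ => ?_
    rw [← hres ω i, ← Finset.sum_add_distrib]
    refine sum_congr rfl fun y _ => ?_
    rw [mul_add]
  have hA : ∑ ω : Ω, ∑ i : Fin m, ∑ y : Fin m → Y, P y * I (acc ω (C y i) i (encY (y i))) ≤
      Fintype.card Ω * (W - 1) + m * (ε₀ * Fintype.card Ω) := by
    calc ∑ ω : Ω, ∑ i : Fin m, ∑ y : Fin m → Y, P y * I (acc ω (C y i) i (encY (y i)))
        ≤ ∑ ω : Ω, ∑ i : Fin m, ∑ y : Fin m → Y,
          (P y * I (qCode (joinBlocks (C y (i + 1))) (gates ω) <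
              qCode (joinBlocks (C y i)) (gates ω)) +
          P y * I ((qVals (joinBlocks (C y (i + 1))) (gates ω)).getD (o ω) false = true)) := by
          refine sum_le_sum fun ω _ => sum_le_sum fun i _ => sum_le_sum fun y _ => ?_
          rw [← mul_add]
          exact mul_le_mul_of_nonneg_left (hup1 ω y i) (hP0 y)
      _ = ∑ ω : Ω, ∑ y : Fin m → Y, P y * ∑ i : Fin m,
            I (qCode (joinBlocks (C y (i + 1))) (gates ω) < qCode (joinBlocks (C y i)) (gates ω)) +
          ∑ i : Fin m, ∑ y : Fin m → Y, P y * ∑ ω : Ω,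
            I ((qVals (joinBlocks (C y (i + 1))) (gates ω)).getD (o ω) false = true) := by
          simp only [sum_add_distrib, mul_sum]
          congr 1
          · refine sum_congr rfl fun ω _ => ?_
            rw [sum_comm]
          · rw [sum_comm]
            refine sum_congr rfl fun i _ => ?_
            rw [sum_comm]
      _ ≤ ∑ ω : Ω, ∑ y : Fin m → Y, P y * ((W : ℝ) - 1) +
          ∑ i : Fin m, ∑ y : Fin m → Y, P y * (ε₀ * Fintype.card Ω) := by
          refine add_le_add ?_ ?_
          · exact sum_le_sum fun ω _ => sum_le_sum fun y _ =>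
              mul_le_mul_of_nonneg_left (hcode ω y) (hP0 y)
          · refine sum_le_sum fun i _ => sum_le_sum fun y _ =>
              mul_le_mul_of_nonneg_left ?_ (hP0 y)
            have h2 := h0 (C y (i + 1)) (hCbase y (i + 1))
            rwa [hI] at h2
      _ = _ := by
          simp only [← sum_mul, hP1, sum_const, card_univ, nsmul_eq_mul, Fintype.card_fin, one_mul]
          ring
  have hB : ∑ ω : Ω, ∑ i : Fin m, ∑ y : Fin m → Y,
        P y * ∑ z : Z, ν z * I (¬ acc ω (C y i) i (encZ z)) ≤
      m * (ε₁ * Fintype.card Ω) := by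
    calc ∑ ω : Ω, ∑ i : Fin m, ∑ y : Fin m → Y,
          P y * ∑ z : Z, ν z * I (¬ acc ω (C y i) i (encZ z))
        ≤ ∑ ω : Ω, ∑ i : Fin m, ∑ y : Fin m → Y,
          P y * ∑ z : Z, ν z * I ((qVals (joinBlocks (Function.update (C y i) i (encZ z)))
            (gates ω)).getD (o ω) false = false) :=
          sum_le_sum fun ω _ => sum_le_sum fun i _ => sum_le_sum fun y _ =>
            mul_le_mul_of_nonneg_left (sum_le_sum fun z _ =>
              mul_le_mul_of_nonneg_left (hup2 ω y i z) (hν0 z)) (hP0 y)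
      _ = ∑ i : Fin m, ∑ y : Fin m → Y,
          P y * ∑ z : Z, ν z * ∑ ω : Ω, I ((qVals (joinBlocks (Function.update (C y i) i (encZ z)))
            (gates ω)).getD (o ω) false = false) := by
          rw [sum_comm]
          refine sum_congr rfl fun i _ => ?_
          rw [sum_comm]
          refine sum_congr rfl fun y _ => ?_
          rw [← mul_sum]
          congr 1
          rw [sum_comm]
          refine sum_congr rfl fun z _ => ?_
          rw [mul_sum]
      _ ≤ ∑ i : Fin m, ∑ y : Fin m → Y, P y * (ε₁ * Fintype.card Ω) := by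
          refine sum_le_sum fun i _ => sum_le_sum fun y _ =>
            mul_le_mul_of_nonneg_left ?_ (hP0 y)
          calc _ ≤ ∑ z : Z, ν z * (ε₁ * Fintype.card Ω) := by
                refine sum_le_sum fun z _ => mul_le_mul_of_nonneg_left ?_ (hν0 z)
                have h2 := h1 (C y i) i z (hCbase y i)
                rwa [hI] at h2
            _ = _ := by rw [← sum_mul, hν1, one_mul]
      _ = _ := by
          simp only [← sum_mul, hP1, sum_const, card_univ, nsmul_eq_mul, Fintype.card_fin, one_mul]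
          ring
  rw [hS] at key
  have hL : ∑ ω : Ω, ∑ i : Fin m, ∑ y : Fin m → Y, P y * (1 - η) =
      (Fintype.card Ω : ℝ) * (m * (1 - η)) := by
    simp only [← sum_mul, hP1, sum_const, card_univ, nsmul_eq_mul, Fintype.card_fin, one_mul]
    ring
  rw [hL] at key
  have hfin : (Fintype.card Ω : ℝ) * (m * (1 - η - ε₀ - ε₁)) ≤
      (Fintype.card Ω : ℝ) * (W - 1) := by
    have h2 := key.trans (add_le_add hA hB)
    nlinarith [h2]
  exact le_of_mul_le_mul_left hfin hΩpos

end Average

end Pool.Agent.Work.MP_609cce_lc
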