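import Pool.Agent.Work.MP_609cce_lc.QueryDefs

/-!
# Few arbitrary gates do not help to compute an OR of many copies: the main argument
-/

namespace Pool.Agent.Work.MP_609cce_lc

section Code

variable {ι : Type}

/-- Number of bits of a gate. -/
def QGate.len : QGate ι → ℕ
  | .query _ r _ => r
  | _ => 1

theorem QGate.vals_length (x : ι → Bool) (prev : List Bool) (g : QGate ι) :
    (g.vals x prev).length = g.len := by
  cases g <;> simp [QGate.vals, QGate.len]

theorem qVals_append_singleton (x : ι → Bool) (gates : List (QGate ι)) (g : QGate ι) :
    qVals x (gates ++ [g]) = qVals x gates ++ g.vals x (qVals x gates) := by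
  simp [qVals]

@[simp] theorem qVals_nil (x : ι → Bool) : qVals x [] = [] := rfl

theorem qVals_length (x : ι → Bool) (gates : List (QGate ι)) :
    (qVals x gates).length = (gates.map QGate.len).sum := by
  induction gates using List.reverseRecOn with
  | nil => rfl
  | append_singleton gates g ih =>
    rw [qVals_append_singleton, List.length_append, ih, QGate.vals_length]
    simp

/-- Replace a query by its values. -/
def QGate.frozen (prev : List Bool) : QGate ι → List (MonoGate ι)
  | .input i => [.input i]
  | .const b => [.const b]
  | .and j k => [.and j k]
  | .or j k => [.or j k]
  | .query js _ f => List.ofFn fun a => .const (f (js.map fun j => prev.getD j false) a)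

/-- The number of inputs of a query that are `false`. -/
def QGate.offs (prev : List Bool) : QGate ι → ℕ
  | .query js _ _ => js.countP fun j => !(prev.getD j false)
  | _ => 0

/-- The inputs of a query that are `false`. -/
def QGate.watch (prev : List Bool) : QGate ι → List ℕ
  | .query js _ _ => js.filter fun j => decide (j < prev.length) && !(prev.getD j false)
  | _ => []

theorem QGate.offs_lt (prev : List Bool) (g : QGate ι) : g.offs prev < g.weight := by
  cases g with
  | query js r f => exact Nat.lt_succ_of_le List.countP_le_length
  | input i => exact Nat.one_pos
  | const b => exact Nat.one_pos
  | and j k => exact Nat.one_pos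
  | or j k => exact Nat.one_pos

/-- One step of the evaluation of a circuit together with the additional data. -/
def stepQ (x : ι → Bool) (s : List Bool × List (MonoGate ι) × ℕ × List ℕ) (g : QGate ι) :
    List Bool × List (MonoGate ι) × ℕ × List ℕ :=
  (s.1 ++ g.vals x s.1, s.2.1 ++ g.frozen s.1, g.weight * s.2.2.1 + g.offs s.1,
    s.2.2.2 ++ g.watch s.1)

/-- The circuit with all queries replaced by their values on the input `x`. -/
def qFreeze (x : ι → Bool) (gates : List (QGate ι)) : List (MonoGate ι) :=
  (gates.foldl (stepQ x) ([], [], 0, [])).2.1

/-- The numbers of the inputs of the queries that are `false`, read as a number in mixed radix. -/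
def qCode (x : ι → Bool) (gates : List (QGate ι)) : ℕ :=
  (gates.foldl (stepQ x) ([], [], 0, [])).2.2.1

/-- The numbers of the inputs of the queries that are `false`. -/
def qWatch (x : ι → Bool) (gates : List (QGate ι)) : List ℕ :=
  (gates.foldl (stepQ x) ([], [], 0, [])).2.2.2

theorem foldl_stepQ_fst (x : ι → Bool) (gates : List (QGate ι)) :
    (gates.foldl (stepQ x) ([], [], 0, [])).1 = qVals x gates := by
  induction gates using List.reverseRecOn with
  | nil => rfl
  | append_singleton gates g ih =>
    rw [List.foldl_append, List.foldl_cons, List.foldl_nil, stepQ, ih, qVals_append_singleton]

theorem qFreeze_append_singleton (x : ι → Bool) (gates : List (QGate ι)) (g : QGate ι) :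
    qFreeze x (gates ++ [g]) = qFreeze x gates ++ g.frozen (qVals x gates) := by
  rw [qFreeze, List.foldl_append, List.foldl_cons, List.foldl_nil, stepQ, foldl_stepQ_fst]
  rfl

theorem qCode_append_singleton (x : ι → Bool) (gates : List (QGate ι)) (g : QGate ι) :
    qCode x (gates ++ [g]) = g.weight * qCode x gates + g.offs (qVals x gates) := by
  rw [qCode, List.foldl_append, List.foldl_cons, List.foldl_nil, stepQ, foldl_stepQ_fst]
  rfl

theorem qWatch_append_singleton (x : ι → Bool) (gates : List (QGate ι)) (g : QGate ι) :
    qWatch x (gates ++ [g]) = qWatch x gates ++ g.watch (qVals x gates) := by
  rw [qWatch, List.foldl_append, List.foldl_cons, List.foldl_nil, stepQ, foldl_stepQ_fst]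
  rfl

theorem qCode_lt (x : ι → Bool) (gates : List (QGate ι)) :
    qCode x gates < (gates.map QGate.weight).prod := by
  induction gates using List.reverseRecOn with
  | nil => simp [qCode]
  | append_singleton gates g ih =>
    rw [qCode_append_singleton, List.map_append, List.prod_append, List.map_singleton,
      List.prod_singleton]
    have h1 := g.offs_lt (qVals x gates)
    calc g.weight * qCode x gates + g.offs (qVals x gates)
        < g.weight * qCode x gates + g.weight := by omega
      _ = (qCode x gates + 1) * g.weight := by ring
      _ ≤ _ := Nat.mul_le_mul_right _ ih

theorem qWatch_lt (x : ι → Bool) (gates : List (QGate ι)) :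
    ∀ j ∈ qWatch x gates, j < (gates.map QGate.len).sum := by
  induction gates using List.reverseRecOn with
  | nil => simp [qWatch]
  | append_singleton gates g ih =>
    intro j hj
    rw [qWatch_append_singleton, List.mem_append] at hj
    rw [List.map_append, List.sum_append]
    rcases hj with h | h
    · exact (ih j h).trans_le (Nat.le_add_right _ _)
    · cases g with
      | query js r f =>
        simp only [QGate.watch, List.mem_filter, Bool.and_eq_true, decide_eq_true_eq,
          qVals_length] at h
        omega
      | input i => simp [QGate.watch] at h
      | const b => simp [QGate.watch] at h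
      | and j k => simp [QGate.watch] at h
      | or j k => simp [QGate.watch] at h

theorem qWatch_length (x : ι → Bool) (gates : List (QGate ι)) :
    (qWatch x gates).length + 1 ≤ (gates.map QGate.weight).prod := by
  induction gates using List.reverseRecOn with
  | nil => simp [qWatch]
  | append_singleton gates g ih =>
    rw [qWatch_append_singleton, List.length_append, List.map_append, List.prod_append,
      List.map_singleton, List.prod_singleton]
    have h1 : (g.watch (qVals x gates)).length + 1 ≤ g.weight := by
      cases g with
      | query js r f => exact Nat.succ_le_succ (List.length_filter_le _ _)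
      | input i => exact le_refl 1
      | const b => exact le_refl 1
      | and j k => exact le_refl 1
      | or j k => exact le_refl 1
    calc (qWatch x gates).length + (g.watch (qVals x gates)).length + 1
        ≤ ((qWatch x gates).length + 1) * ((g.watch (qVals x gates)).length + 1) := by
          rw [Nat.add_mul, Nat.mul_add]
          nlinarith [Nat.zero_le ((qWatch x gates).length * (g.watch (qVals x gates)).length)]
      _ ≤ _ := Nat.mul_le_mul ih h1

theorem gateVals_append (x : ι → Bool) (A B : List (MonoGate ι)) :
    gateVals x (A ++ B) = B.foldl (fun prev g => prev ++ [g.val x prev]) (gateVals x A) := by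
  simp [gateVals]

theorem gateVals_append_const (x : ι → Bool) (A : List (MonoGate ι)) (bs : List Bool) :
    gateVals x (A ++ bs.map MonoGate.const) = gateVals x A ++ bs := by
  induction bs using List.reverseRecOn with
  | nil => simp
  | append_singleton bs b ih =>
    rw [List.map_append, List.map_singleton, ← List.append_assoc, gateVals_append_singleton, ih]
    simp [MonoGate.val]

theorem QGate.frozen_query (prev : List Bool) (js : List ℕ) (r : ℕ)
    (f : List Bool → Fin r → Bool) : (QGate.query js r f : QGate ι).frozen prev =
      (List.ofFn (f (js.map fun j => prev.getD j false))).map MonoGate.const := by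
  simp only [QGate.frozen, List.map_ofFn]
  rfl

/-- On the input `x` the frozen circuit computes the same bits. -/
theorem gateVals_qFreeze (x : ι → Bool) (gates : List (QGate ι)) :
    gateVals x (qFreeze x gates) = qVals x gates := by
  induction gates using List.reverseRecOn with
  | nil => rfl
  | append_singleton gates g ih =>
    rw [qFreeze_append_singleton, qVals_append_singleton]
    cases g with
    | query js r f => rw [QGate.frozen_query, gateVals_append_const, ih]; rfl
    | input i => simp only [QGate.frozen]; rw [gateVals_append_singleton, ih]; rfl
    | const b => simp only [QGate.frozen]; rw [gateVals_append_singleton, ih]; rfl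
    | and j k => simp only [QGate.frozen]; rw [gateVals_append_singleton, ih]; rfl
    | or j k => simp only [QGate.frozen]; rw [gateVals_append_singleton, ih]; rfl

/-- If all values increase, then the number of inputs that are `false` decreases, or no input
changes. -/
theorem countP_mono {u v : ℕ → Bool} (js : List ℕ) (h : ∀ j, u j = true → v j = true) :
    (js.countP fun j => !(v j)) < (js.countP fun j => !(u j)) ∨
      ((js.countP fun j => !(v j)) = (js.countP fun j => !(u j)) ∧ ∀ j ∈ js, v j = u j) := by
  induction js with
  | nil => right; simp
  | cons j js ih =>
    simp only [List.countP_cons, List.mem_cons, forall_eq_or_imp]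
    cases hu : u j with
    | true =>
      have hv := h j hu
      rw [hv]
      simp only [Bool.not_true, Bool.false_eq_true, if_false, add_zero, true_and]
      exact ih
    | false =>
      cases hv : v j with
      | true =>
        left
        simp only [Bool.not_true, Bool.not_false, Bool.false_eq_true, if_false, if_true, add_zero]
        rcases ih with h1 | h1 <;> omega
      | false =>
        simp only [Bool.not_false, if_true, true_and]
        rcases ih with h1 | ⟨h1, h2⟩
        · left; omega
        · right; exact ⟨by omega, h2⟩

/-- When the input increases, the code decreases, or it stays the same, and then so does the frozen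
circuit, and all inputs of queries that were `false` stay `false`. -/
theorem qCode_mono {x y : ι → Bool} (hxy : ∀ i, x i = true → y i = true)
    (gates : List (QGate ι)) :
    qCode y gates < qCode x gates ∨ (qCode y gates = qCode x gates ∧
      qFreeze y gates = qFreeze x gates ∧
      ∀ j ∈ qWatch x gates, (qVals y gates).getD j false = false) := by
  induction gates using List.reverseRecOn with
  | nil => right; simp [qCode, qFreeze, qWatch]
  | append_singleton gates g ih =>
    rw [qCode_append_singleton, qCode_append_singleton]
    have hoffs := g.offs_lt (qVals x gates)
    have hoffs' := g.offs_lt (qVals y gates)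
    rcases ih with h1 | ⟨h1, h2, h3⟩
    · left
      have h4 : g.weight * (qCode y gates + 1) ≤ g.weight * qCode x gates :=
        Nat.mul_le_mul_left _ h1
      rw [mul_add, mul_one] at h4
      omega
    · rw [h1]
      -- the values of all bits increase
      have hinc : ∀ j, (qVals x gates).getD j false = true →
          (qVals y gates).getD j false = true := by
        intro j hj
        rw [← gateVals_qFreeze] at hj ⊢
        rw [h2]
        exact gateVals_mono hxy _ j hj
      have hold : ∀ j ∈ qWatch x gates, (qVals y (gates ++ [g])).getD j false = false := by
        intro j hj
        have h4 := qWatch_lt x gates j hj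
        rw [qVals_append_singleton, List.getD_append _ _ _ _ (by rwa [qVals_length])]
        exact h3 j hj
      -- the case that the gate is not a query
      have hother : (∀ u : List Bool, g.offs u = 0) → (∀ u : List Bool, g.watch u = []) →
          (∀ u v : List Bool, g.frozen u = g.frozen v) →
          (g.weight * qCode x gates + g.offs (qVals y gates) =
              g.weight * qCode x gates + g.offs (qVals x gates) ∧
            qFreeze y (gates ++ [g]) = qFreeze x (gates ++ [g]) ∧
            ∀ j ∈ qWatch x (gates ++ [g]), (qVals y (gates ++ [g])).getD j false = false) := by
        intro ha hb hc
        refine ⟨by rw [ha, ha], ?_, ?_⟩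
        · rw [qFreeze_append_singleton, qFreeze_append_singleton, h2, hc]
        · intro j hj
          rw [qWatch_append_singleton, hb, List.append_nil] at hj
          exact hold j hj
      cases g with
      | query js r f =>
        rcases countP_mono (u := fun j => (qVals x gates).getD j false)
          (v := fun j => (qVals y gates).getD j false) js hinc with h4 | ⟨h4, h5⟩
        · left
          simp only [QGate.offs]
          omega
        · right
          refine ⟨by simp only [QGate.offs]; omega, ?_, ?_⟩
          · rw [qFreeze_append_singleton, qFreeze_append_singleton, h2]
            congr 1
            simp only [QGate.frozen]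
            have h6 : (js.map fun j => (qVals y gates).getD j false) =
                js.map fun j => (qVals x gates).getD j false := List.map_congr_left h5
            rw [h6]
          · intro j hj
            rw [qWatch_append_singleton, List.mem_append] at hj
            rcases hj with hj | hj
            · exact hold j hj
            · simp only [QGate.watch, List.mem_filter, Bool.and_eq_true, decide_eq_true_eq,
                Bool.not_eq_true'] at hj
              rw [qVals_append_singleton, List.getD_append _ _ _ _
                (by rw [qVals_length]; rw [qVals_length] at hj; exact hj.2.1), h5 j hj.1]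
              exact hj.2.2
      | input i => exact Or.inr (hother (fun _ => rfl) (fun _ => rfl) fun _ _ => rfl)
      | const b => exact Or.inr (hother (fun _ => rfl) (fun _ => rfl) fun _ _ => rfl)
      | and j k => exact Or.inr (hother (fun _ => rfl) (fun _ => rfl) fun _ _ => rfl)
      | or j k => exact Or.inr (hother (fun _ => rfl) (fun _ => rfl) fun _ _ => rfl)

/-- If the input increases from `x` to `y`, and no `false` input of a query becomes `true` in the
circuit frozen at `x`, then the frozen circuit stays the same. -/
theorem qFreeze_of_watch {x y : ι → Bool} (hxy : ∀ i, x i = true → y i = true)
    (gates : List (QGate ι))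
    (h : ∀ j ∈ qWatch x gates, (gateVals y (qFreeze x gates)).getD j false = false) :
    qFreeze y gates = qFreeze x gates := by
  induction gates using List.reverseRecOn with
  | nil => rfl
  | append_singleton gates g ih =>
    have hlen : (gateVals y (qFreeze x gates)).length = (gates.map QGate.len).sum := by
      rw [← qVals_length x gates, ← gateVals_qFreeze x gates]
      simp
    have hpre : ∀ j < (gates.map QGate.len).sum,
        (gateVals y (qFreeze x (gates ++ [g]))).getD j false =
          (gateVals y (qFreeze x gates)).getD j false := by
      intro j hj
      rw [qFreeze_append_singleton]
      have h1 : ∀ (A B : List (MonoGate ι)), j < A.length →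
          (gateVals y (A ++ B)).getD j false = (gateVals y A).getD j false := by
        intro A B hA
        induction B using List.reverseRecOn with
        | nil => simp
        | append_singleton B b ihB =>
          rw [← List.append_assoc, gateVals_append_singleton,
            getD_append_singleton_of_lt _ _ _ (by simp; omega), ihB]
      exact h1 _ _ (by rw [gateVals_length] at hlen; omega)
    have ih' := ih fun j hj => by
      have h1 := h j (by rw [qWatch_append_singleton]; exact List.mem_append_left _ hj)
      rwa [hpre j (qWatch_lt x gates j hj)] at h1
    rw [qFreeze_append_singleton, qFreeze_append_singleton, ih']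
    congr 1
    have hy : gateVals y (qFreeze x gates) = qVals y gates := by
      rw [← ih', gateVals_qFreeze]
    cases g with
    | query js r f =>
      simp only [QGate.frozen]
      have h6 : (js.map fun j => (qVals y gates).getD j false) =
          js.map fun j => (qVals x gates).getD j false := by
        refine List.map_congr_left fun j hj => ?_
        by_cases hjl : j < (gates.map QGate.len).sum
        · cases hx : (qVals x gates).getD j false with
          | true =>
            rw [← gateVals_qFreeze] at hx
            have h5 := gateVals_mono hxy (qFreeze x gates) j hx
            rwa [hy] at h5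
          | false =>
            have h2 := h j (by
              rw [qWatch_append_singleton]
              refine List.mem_append_right _ ?_
              simp only [QGate.watch, List.mem_filter, Bool.and_eq_true, decide_eq_true_eq,
                Bool.not_eq_true']
              exact ⟨hj, by rwa [qVals_length], hx⟩)
            rwa [hpre j hjl, hy] at h2
        · rw [List.getD_eq_default _ _ (by rw [qVals_length]; omega),
            List.getD_eq_default _ _ (by rw [qVals_length]; omega)]
      rw [h6]
    | input i => rfl
    | const b => rfl
    | and j k => rfl
    | or j k => rfl

theorem QGate.countP_frozen (prev : List Bool) (g : QGate ι) :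
    (g.frozen prev).countP MonoGate.isAndOr = [g].countP QGate.isAndOr := by
  cases g with
  | query js r f =>
    rw [QGate.frozen_query, List.countP_eq_zero.2]
    · rfl
    · intro a ha
      obtain ⟨b, -, rfl⟩ := List.mem_map.1 ha
      simp [MonoGate.isAndOr]
  | input i => rfl
  | const b => rfl
  | and j k => rfl
  | or j k => rfl

theorem countP_qFreeze (x : ι → Bool) (gates : List (QGate ι)) :
    (qFreeze x gates).countP MonoGate.isAndOr = gates.countP QGate.isAndOr := by
  induction gates using List.reverseRecOn with
  | nil => rfl
  | append_singleton gates g ih =>
    rw [qFreeze_append_singleton, List.countP_append, List.countP_append, ih,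
      QGate.countP_frozen]

theorem countP_subst {κ : Type} (f : ι → κ ⊕ Bool) (gates : List (MonoGate ι)) :
    (gates.map (MonoGate.subst f)).countP MonoGate.isAndOr = gates.countP MonoGate.isAndOr := by
  rw [List.countP_map]
  congr 1
  funext g
  cases g with
  | input i =>
    simp only [Function.comp, MonoGate.subst]
    cases f i <;> rfl
  | const b => rfl
  | and j k => rfl
  | or j k => rfl

end Code

/-- The main argument, for one circuit and one context: the instances at all positions but `i` are
fixed, the instance `x i` at position `i` is replaced by larger instances `z`. There is a monotone
circuit, with at most as many AND and OR gates, and a set `J` of its gates, such that if all gates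
in `J` are `false` on `z`, then so is the output of the original circuit, and if one of them is
`true`, then the output is `true`, or the code has decreased. -/
theorem slice {m : ℕ} {κ : Type} (gates : List (QGate (Fin m × κ))) (o : ℕ)
    (x : Fin m → κ → Bool) (i : Fin m) :
    ∃ (F : List (MonoGate κ)) (J : List ℕ),
      F.countP MonoGate.isAndOr = gates.countP QGate.isAndOr ∧
      J.length ≤ (gates.map QGate.weight).prod ∧
      ∀ z : κ → Bool, (∀ e, x i e = true → z e = true) →
        ((∀ j ∈ J, (gateVals z F).getD j false = false) →
          (qVals (joinBlocks (Function.update x i z)) gates).getD o false = false) ∧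
        ((∃ j ∈ J, (gateVals z F).getD j false = true) →
          qCode (joinBlocks (Function.update x i z)) gates < qCode (joinBlocks x) gates ∨
          (qVals (joinBlocks (Function.update x i z)) gates).getD o false = true) := by
  classical
  let f : Fin m × κ → κ ⊕ Bool := fun e => if e.1 = i then .inl e.2 else .inr (x e.1 e.2)
  have hf : ∀ z : κ → Bool, (fun e => Sum.elim z id (f e)) = joinBlocks (Function.update x i z) := by
    intro z
    funext e
    obtain ⟨i', e⟩ := e
    simp only [f, joinBlocks]
    by_cases hi' : i' = i
    · subst hi'
      simp
    · rw [if_neg hi', Function.update_of_ne hi']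
      simp
  have hle : ∀ z : κ → Bool, (∀ e, x i e = true → z e = true) → ∀ e, joinBlocks x e = true →
      joinBlocks (Function.update x i z) e = true := by
    rintro z hz ⟨i', e⟩ h
    simp only [joinBlocks] at h ⊢
    by_cases hi' : i' = i
    · subst hi'
      rw [Function.update_self]
      exact hz e h
    · rw [Function.update_of_ne hi']
      exact h
  refine ⟨(qFreeze (joinBlocks x) gates).map (MonoGate.subst f),
    o :: qWatch (joinBlocks x) gates, ?_, ?_, fun z hz => ⟨fun h => ?_, ?_⟩⟩
  · rw [countP_subst, countP_qFreeze]
  · rw [List.length_cons]
    exact qWatch_length _ _
  · rw [gateVals_subst, hf] at h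
    have h1 := qFreeze_of_watch (hle z hz) gates fun j hj => h j (List.mem_cons_of_mem _ hj)
    have h2 := h o List.mem_cons_self
    rwa [← h1, gateVals_qFreeze] at h2
  · rintro ⟨j, hj, hjv⟩
    rw [gateVals_subst, hf] at hjv
    rcases qCode_mono (hle z hz) gates with h1 | ⟨-, h2, h3⟩
    · exact Or.inl h1
    · right
      rw [← h2, gateVals_qFreeze] at hjv
      rcases List.mem_cons.1 hj with hj | hj
      · rwa [hj] at hjv
      · rw [h3 j hj] at hjv
        exact absurd hjv (by simp)

end Pool.Agent.Work.MP_609cce_lc
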