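import Pool.Agent.Work.MP_609cce_lc.MonoDefs
import Pool.Agent.Work.MP_609cce_lc.ModDefs

/-!
# Circuits of AND gates, OR gates and few arbitrary gates

Definitions only.
-/

namespace Pool.Agent.Work.MP_609cce_lc

/-- A gate of a circuit whose inputs are indexed by `ι`: an input, a constant, the conjunction or
disjunction of two earlier bits, or a query. A query applies an arbitrary function `f` to the list
of the values of the earlier bits `js`, and outputs the `r` bits of the result. All bits (one for
every gate that is not a query, and `r` for a query) are numbered consecutively, and referred to by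
their number. -/
inductive QGate (ι : Type) : Type
  | input (i : ι) : QGate ι
  | const (b : Bool) : QGate ι
  | and (j k : ℕ) : QGate ι
  | or (j k : ℕ) : QGate ι
  | query (js : List ℕ) (r : ℕ) (f : List Bool → Fin r → Bool) : QGate ι

/-- A NOT gate is a query with one input bit and one output bit. -/
def QGate.not {ι : Type} (j : ℕ) : QGate ι := .query [j] 1 fun l _ => !(l.headD false)

/-- The bits produced by a gate, given the input and the list of all earlier bits (a reference
beyond the end of that list reads as `false`). -/
def QGate.vals {ι : Type} (x : ι → Bool) (prev : List Bool) : QGate ι → List Bool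
  | .input i => [x i]
  | .const b => [b]
  | .and j k => [prev.getD j false && prev.getD k false]
  | .or j k => [prev.getD j false || prev.getD k false]
  | .query js _ f => List.ofFn (f (js.map fun j => prev.getD j false))

/-- The list of all bits produced by the gates, in order. -/
def qVals {ι : Type} (x : ι → Bool) (gates : List (QGate ι)) : List Bool :=
  gates.foldl (fun prev g => prev ++ g.vals x prev) []

/-- A circuit with inputs indexed by `ι` and `M` output bits: a list of gates, and for each output
bit the number of the bit that it equals. -/
structure QCircuit (ι : Type) (M : ℕ) : Type where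
  /-- the gates, in order of evaluation -/
  gates : List (QGate ι)
  /-- the numbers of the output bits -/
  out : Fin M → ℕ

/-- The output bits of a circuit on the input `x`. -/
def QCircuit.eval {ι : Type} {M : ℕ} (C : QCircuit ι M) (x : ι → Bool) (j : Fin M) : Bool :=
  (qVals x C.gates).getD (C.out j) false

/-- Is the gate an AND gate or an OR gate? -/
def QGate.isAndOr {ι : Type} : QGate ι → Bool
  | .and _ _ => true
  | .or _ _ => true
  | _ => false

/-- The size of a circuit is its number of AND gates and OR gates. -/
def QCircuit.size {ι : Type} {M : ℕ} (C : QCircuit ι M) : ℕ := C.gates.countP QGate.isAndOr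

/-- The weight of a gate: for a query its number of input bits plus one (so `2` for a NOT gate), and
`1` for any other gate. -/
def QGate.weight {ι : Type} : QGate ι → ℕ
  | .query js _ _ => js.length + 1
  | _ => 1

/-- The weight of a circuit is the product of the weights of its gates. In particular, the weight
of a circuit all of whose queries are NOT gates is `2 ^ t`, where `t` is the number of its NOT
gates. -/
def QCircuit.weight {ι : Type} {M : ℕ} (C : QCircuit ι M) : ℕ := (C.gates.map QGate.weight).prod

/-- Is the gate of a monotone circuit an AND gate or an OR gate? -/
def MonoGate.isAndOr {ι : Type} : MonoGate ι → Bool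
  | .and _ _ => true
  | .or _ _ => true
  | _ => false

open Classical in
/-- The adjacency bits of a graph. -/
noncomputable def adjBits {n : ℕ} (G : SimpleGraph (Fin n)) (e : Fin n × Fin n) : Bool :=
  decide (G.Adj e.1 e.2)

/-- `R` is a language to which CLIQUE reduces by (nonuniform) monotone circuits of polynomial size:
for all `v`, such a circuit with `N v` output bits maps the adjacency bits of every graph on `v`
vertices to a string that belongs to `R` if and only if the graph has a clique of `⌊√v⌋`
vertices. -/
def CliqueReducesTo (R : Set (List Bool)) : Prop :=
  ∃ N s : Polynomial ℕ, ∀ v : ℕ, ∃ E : MonoCircuit (Fin v × Fin v) (N.eval v),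
    E.size ≤ s.eval v ∧ ∀ G : SimpleGraph (Fin v),
      List.ofFn (E.eval (adjBits G)) ∈ R ↔ ¬ G.CliqueFree (Nat.sqrt v)

/-- The input bits consisting of the codes of `m` bit strings of length at most `n`. -/
def codes {m : ℕ} (n : ℕ) (w : Fin m → List Bool) (e : Fin m × Fin (n + 1)) : Bool :=
  code n (w e.1) e.2

/-- The input bits consisting of `m` blocks. -/
def joinBlocks {m : ℕ} {ι : Type} (x : Fin m → ι → Bool) (e : Fin m × ι) : Bool := x e.1 e.2

end Pool.Agent.Work.MP_609cce_lc
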