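import Pool.Agent.Work.MP_609cce_lc.CliqueLower
import Pool.Agent.Work.MP_609cce_lc.QueryAvg

/-!
# OR-distillation by circuits with few arbitrary gates
-/

namespace Pool.Agent.Work.MP_609cce_lc

open Finset

section Target

variable {ι : Type} {M : ℕ}

open Classical in
/-- Add a last query that reads the target set off from the output bits. -/
noncomputable def withTarget (D : QCircuit ι M) (T : Set (Fin M → Bool)) : List (QGate ι) :=
  D.gates ++ [.query (List.ofFn D.out) 1 fun L _ => decide ((fun j : Fin M => L.getD j false) ∈ T)]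

/-- The number of the last bit. -/
def lastBit (D : QCircuit ι M) : ℕ := (D.gates.map QGate.len).sum

theorem withTarget_weight (D : QCircuit ι M) (T : Set (Fin M → Bool)) :
    ((withTarget D T).map QGate.weight).prod = (M + 1) * D.weight := by
  simp [withTarget, QCircuit.weight, QGate.weight, mul_comm]

theorem withTarget_size (D : QCircuit ι M) (T : Set (Fin M → Bool)) :
    (withTarget D T).countP QGate.isAndOr = D.size := by
  simp [withTarget, QCircuit.size, QGate.isAndOr]

open Classical in
theorem withTarget_val (D : QCircuit ι M) (T : Set (Fin M → Bool)) (x : ι → Bool) :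
    (qVals x (withTarget D T)).getD (lastBit D) false = decide (D.eval x ∈ T) := by
  rw [withTarget, qVals_append_singleton]
  have h1 : lastBit D = (qVals x D.gates).length := by rw [qVals_length]; rfl
  rw [h1, List.getD_append_right _ _ _ _ (le_refl _), Nat.sub_self]
  simp only [QGate.vals, List.ofFn_succ, List.ofFn_zero, List.getD_cons_zero]
  congr 1
  rw [eq_iff_iff]
  have h2 : (fun j : Fin M =>
      ((List.ofFn D.out).map fun j => (qVals x D.gates).getD j false).getD j false) =
      D.eval x := by
    funext j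
    rw [List.map_ofFn, List.getD_eq_getElem?_getD, List.getElem?_ofFn]
    simp [QCircuit.eval]
  rw [h2]

end Target

/-- The input bits of one block, as a function of the output bits of the reduction. -/
def codeMap (n N : ℕ) (e : Fin (n + 1)) : Fin N ⊕ Bool :=
  if h : (e : ℕ) < N then .inl ⟨e, h⟩ else .inr (decide ((e : ℕ) = N))

theorem blockOf_codeMap {n N : ℕ} (y : Fin N → Bool) :
    blockOf (codeMap n N) y = code n (List.ofFn y) := by
  funext e
  simp only [blockOf, codeMap, code]
  by_cases h : (e : ℕ) < N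
  · rw [dif_pos h, List.getD_append _ _ _ _ (by simpa using h), List.getD_eq_getElem?_getD,
      List.getElem?_ofFn]
    simp [h]
  · rw [dif_neg h, List.getD_append_right _ _ _ _ (by simpa using h)]
    simp only [Sum.elim_inr, id, List.length_ofFn]
    by_cases h2 : (e : ℕ) = N
    · simp [h2]
    · rw [decide_eq_false h2, List.getD_eq_default]
      simp
      omega

theorem adjBits_bot {n : ℕ} : adjBits (⊥ : SimpleGraph (Fin n)) = fun _ => false := by
  funext e
  simp [adjBits]

/-- The quantitative statement, for a fixed number of vertices. -/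
theorem core {v q l N n m M : ℕ} (hl : 2 ≤ l) (hq : 32 * l ^ 4 ≤ q) (hqv : q * q ≤ v)
    (hNn : N ≤ n) {R : Set (List Bool)} (E : MonoCircuit (Fin v × Fin v) N)
    (hE : ∀ G : SimpleGraph (Fin v), List.ofFn (E.eval (adjBits G)) ∈ R ↔ ¬ G.CliqueFree q)
    {Ω : Type} [Fintype Ω] [Nonempty Ω] (D : Ω → QCircuit (Fin m × Fin (n + 1)) M)
    (T : Ω → Set (Fin M → Bool)) {δ : ℝ} (hδ : 1 / (8 * (l : ℝ) ^ 2) ≤ δ)
    (hW : ∀ ω, ((M + 1) * (D ω).weight : ℕ) ≤ δ * m)
    (hD : ∀ w : Fin m → List Bool, (∀ i, (w i).length ≤ n) →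
      (1 / 2 + δ) * Fintype.card Ω ≤
        ({ω | (D ω).eval (codes n w) ∈ T ω ↔ ∃ i, w i ∈ R} : Set Ω).ncard) :
    ∃ ω, 2 ^ l ≤ E.size + (D ω).size := by
  classical
  by_contra hcon
  push Not at hcon
  have hl4 : 16 ≤ l ^ 4 := by
    calc 16 = 2 ^ 4 := by norm_num
      _ ≤ l ^ 4 := Nat.pow_le_pow_left hl 4
  obtain ⟨r, hr⟩ : ∃ r, q = r + 1 := ⟨q - 1, by omega⟩
  have hrpos : 0 < r := by omega
  have hlpos : (0 : ℝ) < (l : ℝ) ^ 2 := by positivity
  have hδpos : 0 < δ := lt_of_lt_of_le (by positivity) hδ
  -- the strings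
  let wY : (Fin v → Fin r) → List Bool := fun f => List.ofFn (E.eval (bN f))
  let wZ : {K : Finset (Fin v) // K ∈ powersetCard q univ} → List Bool := fun K =>
    List.ofFn (E.eval (bP K.1))
  let w0 : List Bool := List.ofFn (E.eval fun _ => false)
  have hwY : ∀ f, wY f ∉ R := by
    intro f h
    have h1 := (hE (colGraph f)).1 (by rw [adjBits_colGraph]; exact h)
    exact h1 (cliqueFree_colGraph (by omega) f)
  have hwZ : ∀ K, wZ K ∈ R := by
    intro K
    have h1 := (hE (cliqueGraph K.1)).2 (not_cliqueFree_cliqueGraph (mem_powersetCard.1 K.2).2)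
    rwa [adjBits_cliqueGraph] at h1
  have hw0 : w0 ∉ R := by
    intro h
    have h1 := (hE ⊥).1 (by rw [adjBits_bot]; exact h)
    exact h1 (SimpleGraph.cliqueFree_bot (by omega))
  have hlenY : ∀ f, (wY f).length ≤ n := by intro f; simpa [wY] using hNn
  have hlenZ : ∀ K, (wZ K).length ≤ n := by intro K; simpa [wZ] using hNn
  have hlen0 : w0.length ≤ n := by simpa [w0] using hNn
  have hle : ∀ y : Fin v × Fin v → Bool, ∀ e,
      blockOf (codeMap n N) (E.eval fun _ => false) e = true →
        blockOf (codeMap n N) (E.eval y) e = true := by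
    intro y e h
    simp only [blockOf] at h ⊢
    cases hφ : codeMap n N e with
    | inl j =>
      rw [hφ] at h
      exact E.eval_mono (fun i hi => absurd hi (by simp)) j h
    | inr b =>
      rw [hφ] at h
      exact h
  -- the number of circuits that err
  have hbad : ∀ w : Fin m → List Bool, (∀ i, (w i).length ≤ n) →
      ((univ.filter fun ω => ¬ ((D ω).eval (codes n w) ∈ T ω ↔ ∃ i, w i ∈ R)).card : ℝ) ≤
        (1 / 2 - δ) * Fintype.card Ω := by
    intro w hw
    have h1 := hD w hw
    rw [Set.ncard_eq_toFinset_card'] at h1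
    have h2 := Finset.card_filter_add_card_filter_not (s := (univ : Finset Ω))
      (fun ω => (D ω).eval (codes n w) ∈ T ω ↔ ∃ i, w i ∈ R)
    rw [card_univ] at h2
    have h3 : (((univ.filter fun ω => ((D ω).eval (codes n w) ∈ T ω ↔ ∃ i, w i ∈ R)).card : ℕ) : ℝ) +
        ((univ.filter fun ω => ¬ ((D ω).eval (codes n w) ∈ T ω ↔ ∃ i, w i ∈ R)).card : ℕ) =
        Fintype.card Ω := by exact_mod_cast h2
    have h4 : ({ω | (D ω).eval (codes n w) ∈ T ω ↔ ∃ i, w i ∈ R} : Set Ω).toFinset =
        univ.filter fun ω => ((D ω).eval (codes n w) ∈ T ω ↔ ∃ i, w i ∈ R) := by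
      ext ω
      simp
    rw [h4] at h1
    linarith
  have hjoin : ∀ w : Fin m → List Bool, joinBlocks (fun i => code n (w i)) = codes n w := by
    intro w
    rfl
  have : Nonempty {K : Finset (Fin v) // K ∈ powersetCard q (univ : Finset (Fin v))} := by
    have h1 : (powersetCard q (univ : Finset (Fin v))).Nonempty := by
      rw [powersetCard_nonempty, card_univ, Fintype.card_fin]
      exact (Nat.le_mul_self q).trans hqv
    exact h1.to_subtype
  have : Nonempty (Fin v → Fin r) := ⟨fun _ => ⟨0, hrpos⟩⟩
  have hcardY : Fintype.card (Fin v → Fin r) = r ^ v := by simp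
  have hcardZ : Fintype.card {K : Finset (Fin v) // K ∈ powersetCard q
      (univ : Finset (Fin v))} = v.choose q := by
    rw [Fintype.card_coe, card_powersetCard, card_univ, Fintype.card_fin]
  have hYpos : (0 : ℝ) < ((r ^ v : ℕ) : ℝ) := by positivity
  have hZpos : (0 : ℝ) < ((v.choose q : ℕ) : ℝ) := by
    exact_mod_cast Nat.choose_pos ((Nat.le_mul_self q).trans hqv)
  have hmain := average (m := m) (κ := Fin (n + 1)) (Y := Fin v → Fin r)
    (Z := {K : Finset (Fin v) // K ∈ powersetCard q (univ : Finset (Fin v))}) (Ω := Ω)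
    (blockOf (codeMap n N) (E.eval fun _ => false))
    (fun f => blockOf (codeMap n N) (E.eval (bN f)))
    (fun K => blockOf (codeMap n N) (E.eval (bP K.1)))
    (fun f => hle _) (fun K => hle _)
    (fun _ => 1 / ((r ^ v : ℕ) : ℝ)) (fun _ => by positivity) (by
      rw [sum_const, card_univ, nsmul_eq_mul, hcardY]
      exact mul_one_div_cancel hYpos.ne')
    (fun _ => 1 / ((v.choose q : ℕ) : ℝ)) (fun _ => by positivity) (by
      rw [sum_const, card_univ, nsmul_eq_mul, hcardZ]
      exact mul_one_div_cancel hZpos.ne')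
    (fun ω => withTarget (D ω) (T ω)) (fun ω => lastBit (D ω)) ⌊δ * m⌋₊
    (fun ω => by
      rw [withTarget_weight]
      exact Nat.le_floor (hW ω))
    (1 / (8 * (l : ℝ) ^ 2)) (1 / 2 - δ) (1 / 2 - δ)
    (fun ω F J hF _ => by
      rw [withTarget_size] at hF
      have hcount : E.gates.countP MonoGate.isAndOr + F.countP MonoGate.isAndOr < 2 ^ l := by
        have h1 : E.gates.countP MonoGate.isAndOr ≤ E.size := List.countP_le_length
        have h2 := hcon ω
        omega
      have h1 := avg_lower hr hl hq hqv E (codeMap n N) F hcount {j | j ∈ J}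
        (univ.filter fun f => ∃ j ∈ J,
          (gateVals (blockOf (codeMap n N) (E.eval (bN f))) F).getD j false = true)
        ((univ.filter fun K : {K : Finset (Fin v) // K ∈ powersetCard q
            (univ : Finset (Fin v))} => ¬ ∃ j ∈ J,
          (gateVals (blockOf (codeMap n N) (E.eval (bP K.1))) F).getD j false = true).map
            ⟨Subtype.val, Subtype.val_injective⟩)
        (fun f hf => mem_filter.2 ⟨mem_univ _, hf⟩)
        (fun K hK hKJ => mem_map.2 ⟨⟨K, hK⟩, mem_filter.2 ⟨mem_univ _, by
          rintro ⟨j, hj, hjt⟩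
          rw [hKJ j hj] at hjt
          exact absurd hjt (by simp)⟩, rfl⟩)
      rw [card_map] at h1
      have e1 : ∑ y : Fin v → Fin r, 1 / ((r ^ v : ℕ) : ℝ) * (if ∃ j ∈ J, (gateVals
          (blockOf (codeMap n N) (E.eval (bN y))) F).getD j false = true then (1 : ℝ) else 0) =
          ((univ.filter fun f : Fin v → Fin r => ∃ j ∈ J, (gateVals (blockOf (codeMap n N)
            (E.eval (bN f))) F).getD j false = true).card : ℝ) / ((r ^ v : ℕ) : ℝ) := by
        rw [← mul_sum, Finset.sum_boole]
        ring
      have e2 : ∑ z : {K : Finset (Fin v) // K ∈ powersetCard q (univ : Finset (Fin v))},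
          1 / ((v.choose q : ℕ) : ℝ) * (if ∃ j ∈ J, (gateVals
          (blockOf (codeMap n N) (E.eval (bP z.1))) F).getD j false = true then (0 : ℝ) else 1) =
          ((univ.filter fun K : {K : Finset (Fin v) // K ∈ powersetCard q
            (univ : Finset (Fin v))} => ¬ ∃ j ∈ J, (gateVals (blockOf (codeMap n N)
            (E.eval (bP K.1))) F).getD j false = true).card : ℝ) / ((v.choose q : ℕ) : ℝ) := by
        rw [← mul_sum]
        simp_rw [← ite_not (p := ∃ j ∈ J, _)]
        rw [Finset.sum_boole]
        ring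
      rw [e1, e2]
      have h4 : (0 : ℝ) < 8 * (l : ℝ) ^ 2 := by positivity
      have hgen : ∀ (a b : ℕ), 0 < (b : ℝ) → 8 * l ^ 2 * b ≤ b + 8 * l ^ 2 * a →
          1 - 1 / (8 * (l : ℝ) ^ 2) ≤ (a : ℝ) / b := by
        intro a b hb h
        rw [le_div_iff₀ hb]
        have h3 : 8 * (l : ℝ) ^ 2 * b ≤ b + 8 * (l : ℝ) ^ 2 * a := by exact_mod_cast h
        refine le_of_mul_le_mul_left ?_ h4
        have h5 : 8 * (l : ℝ) ^ 2 * ((1 - 1 / (8 * (l : ℝ) ^ 2)) * (b : ℝ)) =
            8 * (l : ℝ) ^ 2 * b - b := by
          field_simp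
        rw [h5]
        linarith
      rcases h1 with h1 | h1
      · have h2 := hgen _ _ hYpos h1
        exact h2.trans (le_add_of_nonneg_right (by positivity))
      · have h2 := hgen _ _ hZpos h1
        exact h2.trans (le_add_of_nonneg_left (by positivity)))
    (fun x hx => by
      -- all instances are no-instances
      have h1 : ∀ i, ∃ w : List Bool, w.length ≤ n ∧ w ∉ R ∧ x i = code n w := by
        intro i
        rcases hx i with h | ⟨f, h⟩
        · exact ⟨w0, hlen0, hw0, by rw [h, blockOf_codeMap]⟩
        · exact ⟨wY f, hlenY f, hwY f, by rw [h, blockOf_codeMap]⟩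
      choose w hw1 hw2 hw3 using h1
      have h2 : x = fun i => code n (w i) := funext hw3
      refine le_trans ?_ (hbad w hw1)
      norm_cast
      refine card_le_card fun ω hω => ?_
      rw [mem_filter] at hω ⊢
      refine ⟨mem_univ _, fun hiff => ?_⟩
      have h3 := hω.2
      rw [withTarget_val, decide_eq_true_eq, h2, hjoin] at h3
      obtain ⟨i, hi⟩ := hiff.1 h3
      exact hw2 i hi)
    (fun x i K hx => by
      have h1 : ∀ i, ∃ w : List Bool, w.length ≤ n ∧ w ∉ R ∧ x i = code n w := by
        intro i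
        rcases hx i with h | ⟨f, h⟩
        · exact ⟨w0, hlen0, hw0, by rw [h, blockOf_codeMap]⟩
        · exact ⟨wY f, hlenY f, hwY f, by rw [h, blockOf_codeMap]⟩
      choose w hw1 hw2 hw3 using h1
      have h2 : Function.update x i (blockOf (codeMap n N) (E.eval (bP K.1))) =
          fun j => code n (Function.update w i (wZ K) j) := by
        funext j
        by_cases hj : j = i
        · subst hj
          rw [Function.update_self, Function.update_self, blockOf_codeMap]
        · rw [Function.update_of_ne hj, Function.update_of_ne hj, hw3]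
      refine le_trans ?_ (hbad (Function.update w i (wZ K)) ?_)
      · norm_cast
        refine card_le_card fun ω hω => ?_
        rw [mem_filter] at hω ⊢
        refine ⟨mem_univ _, fun hiff => ?_⟩
        have h3 := hω.2
        rw [withTarget_val, decide_eq_false_iff_not, h2, hjoin] at h3
        apply h3
        exact hiff.2 ⟨i, by rw [Function.update_self]; exact hwZ K⟩
      · intro j
        by_cases hj : j = i
        · subst hj
          rw [Function.update_self]
          exact hlenZ K
        · rw [Function.update_of_ne hj]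
          exact hw1 j)
  have hfl : ((⌊δ * m⌋₊ : ℕ) : ℝ) ≤ δ * m := Nat.floor_le (by positivity)
  have hm0 : (0 : ℝ) ≤ m := by positivity
  have h1 : (m : ℝ) * δ ≤ m * (1 - 1 / (8 * (l : ℝ) ^ 2) - (1 / 2 - δ) - (1 / 2 - δ)) :=
    mul_le_mul_of_nonneg_left (by linarith) hm0
  linarith

end Pool.Agent.Work.MP_609cce_lc
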