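import Pool.Agent.Work.MP_609cce_lc.LowDegree

/-!
# Families of Boolean functions that are jointly approximated by low degree polynomials
-/

namespace Pool.Agent.Work.MP_609cce_lc

section BDeg

variable {p : ℕ} [hp : Fact p.Prime] {ι : Type}

/-- A Boolean value as an element of the prime field. -/
def bf (p : ℕ) (b : Bool) : ZMod p := if b = true then 1 else 0

/-- The Boolean function `g` has degree at most `D` over the prime field. -/
def BDeg (p : ℕ) [Fact p.Prime] (D : ℕ) (g : (ι → Bool) → Bool) : Prop :=
  (fun x => bf p (g x)) ∈ degLE (ZMod p) (fun _ => false) D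

theorem BDeg.weaken {D D' : ℕ} {g : (ι → Bool) → Bool} (h : BDeg p D g) (hD : D ≤ D') :
    BDeg p D' g := degLE_le hD h

theorem BDeg.const (b : Bool) (D : ℕ) : BDeg (ι := ι) p D (fun _ => b) := by
  cases b with
  | true =>
    have h1 : (fun _ : ι → Bool => bf p true) = 1 := by
      funext x
      simp [bf]
    rw [BDeg, h1]
    exact one_mem_degLE _ _
  | false =>
    have h1 : (fun _ : ι → Bool => bf p false) = 0 := by
      funext x
      simp [bf]
    rw [BDeg, h1]
    exact Submodule.zero_mem _

theorem BDeg.input (i : ι) : BDeg p 1 (fun x => x i) := by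
  have h1 : (fun x : ι → Bool => bf p (x i)) = mono (ZMod p) (fun _ => false) {i} := by
    funext x
    simp [bf, mono]
  rw [BDeg, h1]
  exact mono_mem _ _ (by simp)

theorem BDeg.xor {D : ℕ} {g : (ι → Bool) → Bool} (h : BDeg p D g) (c : Bool) :
    BDeg p D (fun x => Bool.xor c (g x)) := by
  cases c with
  | false => simpa using h
  | true =>
    have h1 : (fun x => bf p (Bool.xor true (g x))) = 1 - fun x => bf p (g x) := by
      funext x
      cases hx : g x <;> simp [bf, hx]
    rw [BDeg, h1]
    exact Submodule.sub_mem _ (one_mem_degLE _ _) h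

theorem BDeg.test {D : ℕ} {f : (ι → Bool) → ZMod p}
    (h : f ∈ degLE (ZMod p) (fun _ => false) D) :
    BDeg p ((p - 1) * D) (fun x => decide (f x ≠ 0)) := by
  have h1 : (fun x => bf p (decide (f x ≠ 0))) = f ^ (p - 1) := by
    funext x
    rw [Pi.pow_apply]
    by_cases hx : f x = 0
    · have h2 : p - 1 ≠ 0 := by have := hp.out.two_le; omega
      simp [bf, hx, h2]
    · rw [ZMod.pow_card_sub_one_eq_one hx]
      simp [bf, hx]
  rw [BDeg, h1]
  exact pow_mem_degLE h _

theorem BDeg.all {D : ℕ} {κ : Type} (s : Finset κ) {g : κ → (ι → Bool) → Bool}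
    (h : ∀ k ∈ s, BDeg p D (g k)) : BDeg p (s.card * D) (fun x => decide (∀ k ∈ s, g k x = true)) := by
  have h1 : (fun x => bf p (decide (∀ k ∈ s, g k x = true))) = fun x => ∏ k ∈ s, bf p (g k x) := by
    funext x
    by_cases hx : ∀ k ∈ s, g k x = true
    · rw [Finset.prod_eq_one fun k hk => by simp [bf, hx k hk]]
      rw [bf, if_pos]
      simpa using hx
    · have hx' := hx
      push Not at hx'
      obtain ⟨k, hk, hk'⟩ := hx'
      rw [Finset.prod_eq_zero hk (by simp [bf, hk'])]
      simp only [bf]
      rw [if_neg]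
      simpa using hx
  rw [BDeg, h1]
  exact prod_mem_degLE s h

/-- Substitution of variables. -/
theorem BDeg.comap {ι' : Type} {D : ℕ} {g : (ι → Bool) → Bool} (h : BDeg p D g) (f : ι → ι') :
    BDeg p D (fun x => g (fun i => x (f i))) := by
  classical
  let φ : ((ι → Bool) → ZMod p) →ₗ[ZMod p] ((ι' → Bool) → ZMod p) :=
    LinearMap.funLeft (ZMod p) (ZMod p) (fun (x : ι' → Bool) (i : ι) => x (f i))
  have h1 : degLE (ZMod p) (fun _ : ι => false) D ≤
      (degLE (ZMod p) (fun _ : ι' => false) D).comap φ := by
    refine Submodule.span_le.2 ?_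
    rintro _ ⟨⟨S, hS⟩, rfl⟩
    have h2 : φ (mono (ZMod p) (fun _ : ι => false) S) =
        mono (ZMod p) (fun _ : ι' => false) (S.image f) := by
      funext x
      simp [φ, mono, LinearMap.funLeft]
    change φ (mono (ZMod p) (fun _ : ι => false) S) ∈ degLE (ZMod p) (fun _ : ι' => false) D
    rw [h2]
    exact mono_mem _ _ (Finset.card_image_le.trans hS)
  exact h1 h

end BDeg

section Random

theorem two_mul_card_zero_le {F : Type} [Field F] [DecidableEq F] {κ : Type} [Fintype κ]
    [DecidableEq κ] (y : κ → F) (k₀ : κ) (h : y k₀ ≠ 0) :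
    2 * ((Finset.univ : Finset (κ → Bool)).filter fun a =>
      ∑ k, (if a k = true then y k else 0) = 0).card ≤ Fintype.card (κ → Bool) := by
  set Z := (Finset.univ : Finset (κ → Bool)).filter fun a =>
      ∑ k, (if a k = true then y k else 0) = 0 with hZ
  have h1 : Z.card ≤ Zᶜ.card := by
    refine Finset.card_le_card_of_injOn (fun a => Function.update a k₀ (!(a k₀))) ?_ ?_
    · intro a ha
      simp only [Finset.coe_compl, Set.mem_compl_iff, Finset.mem_coe]
      intro hcon
      simp only [hZ, Finset.mem_coe, Finset.mem_filter, Finset.mem_univ, true_and] at ha hcon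
      rw [← Finset.add_sum_erase _ _ (Finset.mem_univ k₀)] at ha hcon
      have h2 : ∑ k ∈ Finset.univ.erase k₀,
          (if Function.update a k₀ (!(a k₀)) k = true then y k else 0) =
          ∑ k ∈ Finset.univ.erase k₀, (if a k = true then y k else 0) := by
        refine Finset.sum_congr rfl fun k hk => ?_
        rw [Function.update_of_ne (Finset.ne_of_mem_erase hk)]
      rw [h2] at hcon
      rw [Function.update_self] at hcon
      cases ha0 : a k₀ with
      | true =>
        simp only [ha0, if_true, Bool.not_true, Bool.false_eq_true, if_false, zero_add] at ha hcon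
        rw [hcon, add_zero] at ha
        exact h ha
      | false =>
        simp only [ha0, if_true, Bool.not_false, Bool.false_eq_true, if_false, zero_add] at ha hcon
        rw [ha, add_zero] at hcon
        exact h hcon
    · intro a _ b _ hab
      simp only at hab
      funext k
      by_cases hk : k = k₀
      · have h3 := congrFun hab k₀
        rw [Function.update_self, Function.update_self] at h3
        rw [hk]
        simpa using h3
      · have h3 := congrFun hab k
        rwa [Function.update_of_ne hk, Function.update_of_ne hk] at h3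
  rw [Finset.card_compl] at h1
  have h4 := Finset.card_le_univ Z
  omega

variable {p : ℕ} [hp : Fact p.Prime] {ι : Type}

open Classical in
/-- The functions `v k` are jointly approximated by random functions of degree at most `D k`,
with error at most `s / 2 ^ ℓ`. -/
def Japprox (p : ℕ) [Fact p.Prime] {κ : Type} (v : κ → (ι → Bool) → Bool) (D : κ → ℕ)
    (s ℓ : ℕ) : Prop :=
  ∃ (Ω : Type) (_ : Fintype Ω) (_ : Nonempty Ω) (A : Ω → κ → (ι → Bool) → Bool),
    (∀ ω k, BDeg p (D k) (A ω k)) ∧
    ∀ x, 2 ^ ℓ * ((Finset.univ : Finset Ω).filter fun ω => ∃ k, A ω k x ≠ v k x).card ≤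
      s * Fintype.card Ω

theorem Japprox.exact {κ : Type} (v : κ → (ι → Bool) → Bool) (D : κ → ℕ) (ℓ : ℕ)
    (h : ∀ k, BDeg p (D k) (v k)) : Japprox p v D 0 ℓ :=
  ⟨Unit, inferInstance, inferInstance, fun _ => v, fun _ k => h k, fun x => by simp⟩

theorem Japprox.reindex {κ : Type} {v : κ → (ι → Bool) → Bool} {D : κ → ℕ} {s ℓ : ℕ}
    (h : Japprox p v D s ℓ) {κ' : Type} (v' : κ' → (ι → Bool) → Bool) (D' : κ' → ℕ)
    (f : κ' → κ) (c : κ' → Bool) (hv : ∀ k x, v' k x = Bool.xor (c k) (v (f k) x))
    (hD : ∀ k, D (f k) ≤ D' k) {s' : ℕ} (hs : s ≤ s') : Japprox p v' D' s' ℓ := by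
  classical
  obtain ⟨Ω, _, _, A, h1, h2⟩ := h
  refine ⟨Ω, inferInstance, inferInstance, fun ω k x => Bool.xor (c k) (A ω (f k) x), ?_, ?_⟩
  · intro ω k
    exact ((h1 ω (f k)).xor (c k)).weaken (hD k)
  · intro x
    refine le_trans (Nat.mul_le_mul_left _ (Finset.card_le_card ?_))
      ((h2 x).trans (Nat.mul_le_mul_right _ hs))
    intro ω
    simp only [Finset.mem_filter, Finset.mem_univ, true_and]
    rintro ⟨k, hk⟩
    refine ⟨f k, fun hcon => hk ?_⟩
    rw [hv, hcon]

theorem Japprox.ext_det {κ : Type} {v : κ → (ι → Bool) → Bool} {D : κ → ℕ} {s ℓ : ℕ}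
    (h : Japprox p v D s ℓ) (Φ : (κ → Bool) → Bool) (E : ℕ)
    (hΦ : ∀ B : κ → (ι → Bool) → Bool, (∀ k, BDeg p (D k) (B k)) →
      BDeg p E (fun x => Φ fun k => B k x)) :
    Japprox p (fun o : Option κ => o.elim (fun x => Φ fun k => v k x) v)
      (fun o => o.elim E D) s ℓ := by
  classical
  obtain ⟨Ω, _, _, A, h1, h2⟩ := h
  refine ⟨Ω, inferInstance, inferInstance,
    fun ω o => o.elim (fun x => Φ fun k => A ω k x) (A ω), ?_, ?_⟩
  · intro ω o
    cases o with
    | none => exact hΦ _ (h1 ω)
    | some k => exact h1 ω k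
  · intro x
    refine le_trans (Nat.mul_le_mul_left _ (Finset.card_le_card ?_)) (h2 x)
    intro ω
    simp only [Finset.mem_filter, Finset.mem_univ, true_and]
    rintro ⟨o, ho⟩
    cases o with
    | none =>
      by_contra hcon
      push Not at hcon
      apply ho
      change (Φ fun k => A ω k x) = Φ fun k => v k x
      congr 1
      funext k
      exact hcon k
    | some k => exact ⟨k, ho⟩

theorem Japprox.ext_or {κ : Type} {v : κ → (ι → Bool) → Bool} {D : κ → ℕ} {s ℓ : ℕ}
    (h : Japprox p v D s ℓ) {κ' : Type} [Fintype κ'] (g : κ' → κ) (z : κ' → Bool) (E : ℕ)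
    (hE : ∀ k, D (g k) ≤ E) :
    Japprox p (fun o : Option κ => o.elim (fun x => decide (∃ k, v (g k) x ≠ z k)) v)
      (fun o => o.elim (ℓ * ((p - 1) * E)) D) (s + 1) ℓ := by
  classical
  obtain ⟨Ω, _, _, A, h1, h2⟩ := h
  let W : Ω → (Fin ℓ → κ' → Bool) → (ι → Bool) → Bool := fun ω a x =>
    decide (∃ l, ∑ k, (if a l k = true then bf p (Bool.xor (z k) (A ω (g k) x)) else 0) ≠ 0)
  refine ⟨Ω × (Fin ℓ → κ' → Bool), inferInstance, inferInstance,
    fun ωa o => o.elim (W ωa.1 ωa.2) (A ωa.1), ?_, ?_⟩
  · rintro ⟨ω, a⟩ o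
    cases o with
    | some k => exact h1 ω k
    | none =>
      change BDeg p (ℓ * ((p - 1) * E)) (W ω a)
      have h3 : ∀ l : Fin ℓ, BDeg p ((p - 1) * E) (fun x => Bool.xor true
          (decide (∑ k, (if a l k = true then bf p (Bool.xor (z k) (A ω (g k) x)) else 0) ≠ 0))) := by
        intro l
        refine BDeg.xor (BDeg.test ?_) true
        have h4 : (fun x => ∑ k, (if a l k = true then bf p (Bool.xor (z k) (A ω (g k) x)) else 0)) =
            ∑ k, (if a l k = true then fun x => bf p (Bool.xor (z k) (A ω (g k) x)) else 0) := by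
          funext x
          rw [Finset.sum_apply]
          refine Finset.sum_congr rfl fun k _ => ?_
          by_cases hk : a l k = true
          · simp [hk]
          · simp [hk]
        rw [h4]
        refine Submodule.sum_mem _ fun k _ => ?_
        by_cases hk : a l k = true
        · rw [if_pos hk]
          exact ((h1 ω (g k)).weaken (hE k)).xor (z k)
        · rw [if_neg hk]
          exact Submodule.zero_mem _
      have h5 := (BDeg.all (Finset.univ : Finset (Fin ℓ)) fun l _ => h3 l).xor true
      rw [Finset.card_univ, Fintype.card_fin] at h5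
      convert h5 using 2 with x
      simp only [W]
      rw [Bool.eq_iff_iff]
      simp
  · intro x
    -- the new gate errs rarely
    have hnew : ∀ ω, (∀ k, A ω k x = v k x) →
        2 ^ ℓ * ((Finset.univ : Finset (Fin ℓ → κ' → Bool)).filter fun a =>
          W ω a x ≠ decide (∃ k, v (g k) x ≠ z k)).card ≤ Fintype.card (Fin ℓ → κ' → Bool) := by
      intro ω hω
      by_cases hw : ∃ k, v (g k) x ≠ z k
      · obtain ⟨k₀, hk₀⟩ := hw
        have h3 : ((Finset.univ : Finset (Fin ℓ → κ' → Bool)).filter fun a =>
            W ω a x ≠ decide (∃ k, v (g k) x ≠ z k)) ⊆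
            Fintype.piFinset fun _ : Fin ℓ => ((Finset.univ : Finset (κ' → Bool)).filter fun a =>
              ∑ k, (if a k = true then bf p (Bool.xor (z k) (v (g k) x)) else 0) = 0) := by
          intro a ha
          simp only [Finset.mem_filter, Finset.mem_univ, true_and] at ha
          rw [Fintype.mem_piFinset]
          intro l
          rw [Finset.mem_filter]
          refine ⟨Finset.mem_univ _, ?_⟩
          by_contra hcon
          apply ha
          have h4 : W ω a x = true := by
            simp only [W, decide_eq_true_eq]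
            refine ⟨l, ?_⟩
            simp only [hω]
            exact hcon
          rw [h4]
          symm
          rw [decide_eq_true_eq]
          exact ⟨k₀, hk₀⟩
        have h5 := two_mul_card_zero_le (F := ZMod p)
          (fun k => bf p (Bool.xor (z k) (v (g k) x))) k₀ (by
            have : Bool.xor (z k₀) (v (g k₀) x) = true := by
              cases h6 : z k₀ <;> cases h7 : v (g k₀) x <;> simp_all
            rw [this]
            simp [bf])
        calc 2 ^ ℓ * _ ≤ 2 ^ ℓ * _ := Nat.mul_le_mul_left _ (Finset.card_le_card h3)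
          _ ≤ Fintype.card (Fin ℓ → κ' → Bool) := by
            rw [Fintype.card_piFinset, Finset.prod_const, Finset.card_univ, Fintype.card_fin,
              ← mul_pow]
            rw [Fintype.card_fun (α := Fin ℓ), Fintype.card_fin]
            exact Nat.pow_le_pow_left h5 _
      · have h3 : ((Finset.univ : Finset (Fin ℓ → κ' → Bool)).filter fun a =>
            W ω a x ≠ decide (∃ k, v (g k) x ≠ z k)) = ∅ := by
          rw [Finset.filter_eq_empty_iff]
          intro a _
          rw [not_not]
          have h4 : decide (∃ k, v (g k) x ≠ z k) = false := by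
            rw [decide_eq_false_iff_not]
            exact hw
          rw [h4]
          simp only [W, decide_eq_false_iff_not]
          push Not
          intro l
          refine Finset.sum_eq_zero fun k _ => ?_
          have h5 : v (g k) x = z k := by
            by_contra hcon
            exact hw ⟨k, hcon⟩
          rw [hω, h5]
          simp [bf]
        rw [h3]
        simp
    set B := (Finset.univ : Finset Ω).filter fun ω => ∃ k, A ω k x ≠ v k x with hB
    have hsub : ((Finset.univ : Finset (Ω × (Fin ℓ → κ' → Bool))).filter fun ωa =>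
        ∃ o : Option κ, (o.elim (W ωa.1 ωa.2) (A ωa.1) : (ι → Bool) → Bool) x ≠
          (o.elim (fun x => decide (∃ k, v (g k) x ≠ z k)) v : (ι → Bool) → Bool) x) ⊆
        B ×ˢ Finset.univ ∪ Finset.univ.biUnion fun ω =>
          (if ω ∈ B then ∅ else ({ω} : Finset Ω) ×ˢ ((Finset.univ.filter fun a =>
            W ω a x ≠ decide (∃ k, v (g k) x ≠ z k)))) := by
      rintro ⟨ω, a⟩ ha
      simp only [Finset.mem_filter, Finset.mem_univ, true_and] at ha
      rw [Finset.mem_union]
      by_cases hω : ω ∈ B
      · left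
        rw [Finset.mem_product]
        exact ⟨hω, Finset.mem_univ _⟩
      · right
        rw [Finset.mem_biUnion]
        refine ⟨ω, Finset.mem_univ _, ?_⟩
        rw [if_neg hω, Finset.mem_product, Finset.mem_filter]
        refine ⟨Finset.mem_singleton_self _, Finset.mem_univ _, ?_⟩
        obtain ⟨o, ho⟩ := ha
        cases o with
        | none => exact ho
        | some k =>
          exfalso
          apply hω
          rw [hB, Finset.mem_filter]
          exact ⟨Finset.mem_univ _, k, ho⟩
    have h3 := Finset.card_le_card hsub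
    have h4 : (Finset.univ.biUnion fun ω =>
          (if ω ∈ B then ∅ else ({ω} : Finset Ω) ×ˢ ((Finset.univ.filter fun a =>
            W ω a x ≠ decide (∃ k, v (g k) x ≠ z k))))).card * 2 ^ ℓ ≤
        Fintype.card Ω * Fintype.card (Fin ℓ → κ' → Bool) := by
      refine (Nat.mul_le_mul_right _ Finset.card_biUnion_le).trans ?_
      rw [Finset.sum_mul, ← smul_eq_mul (Fintype.card Ω), ← Finset.card_univ (α := Ω)]
      refine Finset.sum_le_card_nsmul _ _ _ fun ω _ => ?_
      by_cases hω : ω ∈ B
      · rw [if_pos hω]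
        simp
      · rw [if_neg hω, Finset.card_product, Finset.card_singleton, one_mul, mul_comm]
        refine hnew ω fun k => ?_
        by_contra hcon
        exact hω (by rw [hB, Finset.mem_filter]; exact ⟨Finset.mem_univ _, k, hcon⟩)
    have h5 := h2 x
    rw [Fintype.card_prod]
    calc 2 ^ ℓ * _ ≤ 2 ^ ℓ * _ := Nat.mul_le_mul_left _ (h3.trans (Finset.card_union_le _ _))
      _ = (2 ^ ℓ * B.card) * Fintype.card (Fin ℓ → κ' → Bool) + _ * 2 ^ ℓ := by
        rw [Finset.card_product, Finset.card_univ]; ring
      _ ≤ (s * Fintype.card Ω) * Fintype.card (Fin ℓ → κ' → Bool) +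
          Fintype.card Ω * Fintype.card (Fin ℓ → κ' → Bool) :=
        Nat.add_le_add (Nat.mul_le_mul_right _ h5) h4
      _ = (s + 1) * (Fintype.card Ω * Fintype.card (Fin ℓ → κ' → Bool)) := by ring

/-- Finitely many families can be approximated jointly. -/
theorem Japprox.pi {κ : Type} {m : ℕ} {v : Fin m → κ → (ι → Bool) → Bool} {D : κ → ℕ} {s ℓ : ℕ}
    (h : ∀ i, Japprox p (v i) D s ℓ) :
    Japprox p (fun (ik : Fin m × κ) => v ik.1 ik.2) (fun ik => D ik.2) (m * s) ℓ := by
  classical
  choose Ω i1 i2 A h1 h2 using h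
  refine ⟨∀ i, Ω i, inferInstance, inferInstance, fun ω ik => A ik.1 (ω ik.1) ik.2, ?_, ?_⟩
  · intro ω ik
    exact h1 ik.1 (ω ik.1) ik.2
  · intro x
    have hsub : ((Finset.univ : Finset (∀ i, Ω i)).filter fun ω =>
        ∃ ik : Fin m × κ, A ik.1 (ω ik.1) ik.2 x ≠ v ik.1 ik.2 x) ⊆
        (Finset.univ : Finset (Fin m)).biUnion fun i =>
          Fintype.piFinset fun j => if j = i then
            ((Finset.univ : Finset (Ω j)).filter fun ω => ∃ k, A j ω k x ≠ v j k x)
            else Finset.univ := by
      intro ω hω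
      simp only [Finset.mem_filter, Finset.mem_univ, true_and] at hω
      obtain ⟨⟨i, k⟩, hik⟩ := hω
      rw [Finset.mem_biUnion]
      refine ⟨i, Finset.mem_univ _, ?_⟩
      rw [Fintype.mem_piFinset]
      intro j
      by_cases hj : j = i
      · subst hj
        rw [if_pos rfl, Finset.mem_filter]
        exact ⟨Finset.mem_univ _, k, hik⟩
      · rw [if_neg hj]
        exact Finset.mem_univ _
    refine (Nat.mul_le_mul_left _ ((Finset.card_le_card hsub).trans
      Finset.card_biUnion_le)).trans ?_
    have h0 : m * s * Fintype.card (∀ i, Ω i) =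
        (Finset.univ : Finset (Fin m)).card • (s * Fintype.card (∀ i, Ω i)) := by
      rw [Finset.card_univ, Fintype.card_fin, smul_eq_mul, mul_assoc]
    rw [Finset.mul_sum, h0]
    refine Finset.sum_le_card_nsmul _ _ _ fun i _ => ?_
    rw [Fintype.card_piFinset, ← Finset.mul_prod_erase _ _ (Finset.mem_univ i), if_pos rfl]
    have h3 : ∏ j ∈ Finset.univ.erase i, (if j = i then
            ((Finset.univ : Finset (Ω j)).filter fun ω => ∃ k, A j ω k x ≠ v j k x)
            else Finset.univ).card = ∏ j ∈ Finset.univ.erase i, Fintype.card (Ω j) := by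
      refine Finset.prod_congr rfl fun j hj => ?_
      rw [if_neg (Finset.ne_of_mem_erase hj), Finset.card_univ]
    rw [h3, ← mul_assoc, Fintype.card_pi,
      ← Finset.mul_prod_erase _ (fun j => Fintype.card (Ω j)) (Finset.mem_univ i), ← mul_assoc]
    exact Nat.mul_le_mul_right _ (h2 i x)

/-- Substitution of variables. -/
theorem Japprox.comap {κ ι' : Type} {v : κ → (ι → Bool) → Bool} {D : κ → ℕ} {s ℓ : ℕ}
    (h : Japprox p v D s ℓ) (f : ι → ι') :
    Japprox p (fun k (x : ι' → Bool) => v k fun i => x (f i)) D s ℓ := by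
  classical
  obtain ⟨Ω, _, _, A, h1, h2⟩ := h
  exact ⟨Ω, inferInstance, inferInstance, fun ω k x => A ω k fun i => x (f i),
    fun ω k => (h1 ω k).comap f, fun x => h2 fun i => x (f i)⟩

theorem Japprox.copies {κ : Type} {v : κ → (ι → Bool) → Bool} {D : κ → ℕ} {s ℓ : ℕ}
    (h : Japprox p v D s ℓ) {ι' : Type} (m : ℕ) (f : Fin m → ι → ι') :
    Japprox p (fun (ik : Fin m × κ) x => v ik.2 fun i => x (f ik.1 i)) (fun ik => D ik.2)
      (m * s) ℓ :=
  Japprox.pi fun i => h.comap (f i)

end Random

end Pool.Agent.Work.MP_609cce_lc
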