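import Pool.Agent.Work.MP_609cce_lc.Sunflower
import Pool.Agent.Work.MP_609cce_lc.QueryCode

/-!
# Razborov's method of approximations for monotone circuits and the clique function
-/

namespace Pool.Agent.Work.MP_609cce_lc

open Finset

variable {n : ℕ}

/-- Acceptance of the complete graph on `K` by the approximator `F`. -/
def accP (F : Finset (Finset (Fin n))) (K : Finset (Fin n)) : Prop := ∃ X ∈ F, X ⊆ K

/-- Acceptance of the complete multipartite graph with colouring `f` by the approximator `F`. -/
def accN {r : ℕ} (F : Finset (Finset (Fin n))) (f : Fin n → Fin r) : Prop :=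
  ∃ X ∈ F, Set.InjOn f (X : Set (Fin n))

/-- Adjacency bits of the complete graph on `K`. -/
def bP (K : Finset (Fin n)) (e : Fin n × Fin n) : Bool := decide (e.1 ≠ e.2 ∧ e.1 ∈ K ∧ e.2 ∈ K)

/-- Adjacency bits of the complete multipartite graph with colouring `f`. -/
def bN {r : ℕ} (f : Fin n → Fin r) (e : Fin n × Fin n) : Bool := decide (f e.1 ≠ f e.2)

open Classical in
theorem card_noninj {r l : ℕ} {P : Finset (Finset (Fin n))} {Z : Finset (Fin n)}
    (hP : IsSunflower P Z) (hl : ∀ X ∈ P, X.card ≤ l) :
    (univ.filter fun f : Fin n → Fin r => Set.InjOn f (Z : Set (Fin n)) ∧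
      ∀ X ∈ P, ¬ Set.InjOn f (X : Set (Fin n))).card ≤ (l * l) ^ P.card * r ^ (n - P.card) := by
  let Ch : Finset (P → Fin n × Fin n) := Fintype.piFinset fun X : P => X.1 ×ˢ X.1
  let val : (P → Fin n × Fin n) → Prop := fun c =>
    ∀ X : P, (c X).1 ∉ Z ∧ (c X).1 ∈ X.1 ∧ (c X).2 ∈ X.1 ∧ (c X).1 ≠ (c X).2
  let Sc : (P → Fin n × Fin n) → Finset (Fin n → Fin r) := fun c =>
    univ.filter fun f => ∀ X : P, f (c X).1 = f (c X).2
  have hsub : (univ.filter fun f : Fin n → Fin r => Set.InjOn f (Z : Set (Fin n)) ∧
      ∀ X ∈ P, ¬ Set.InjOn f (X : Set (Fin n))) ⊆ (Ch.filter val).biUnion Sc := by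
    intro f hf
    simp only [mem_filter, mem_univ, true_and] at hf
    obtain ⟨hZ, hX⟩ := hf
    have h1 : ∀ X : P, ∃ ab : Fin n × Fin n, (ab.1 ∉ Z ∧ ab.1 ∈ X.1 ∧ ab.2 ∈ X.1 ∧
        ab.1 ≠ ab.2) ∧ f ab.1 = f ab.2 := by
      intro X
      have h2 := hX X.1 X.2
      unfold Set.InjOn at h2
      push Not at h2
      obtain ⟨a, ha, b, hb, hab, hne⟩ := h2
      by_cases haZ : a ∈ Z
      · have hbZ : b ∉ Z := fun hbZ => hne (hZ haZ hbZ hab)
        exact ⟨(b, a), ⟨hbZ, hb, ha, hne.symm⟩, hab.symm⟩
      · exact ⟨(a, b), ⟨haZ, ha, hb, hne⟩, hab⟩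
    choose c hc1 hc2 using h1
    refine mem_biUnion.2 ⟨c, ?_, ?_⟩
    · refine mem_filter.2 ⟨?_, hc1⟩
      rw [Fintype.mem_piFinset]
      intro X
      exact mem_product.2 ⟨(hc1 X).2.1, (hc1 X).2.2.1⟩
    · exact mem_filter.2 ⟨mem_univ _, hc2⟩
  have hSc : ∀ c ∈ Ch.filter val, (Sc c).card ≤ r ^ (n - P.card) := by
    intro c hc
    have hval : val c := (mem_filter.1 hc).2
    let A : Finset (Fin n) := univ.image fun X : P => (c X).1
    have hAc : A.card = P.card := by
      have hinj : Function.Injective fun X : P => (c X).1 := by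
        intro X Y hXY
        by_contra hne
        have hne' : X.1 ≠ Y.1 := fun h => hne (Subtype.ext h)
        have h1 := hP X.1 X.2 Y.1 Y.2 hne'
        apply (hval X).1
        rw [← h1, mem_inter]
        refine ⟨(hval X).2.1, ?_⟩
        simp only at hXY
        rw [hXY]
        exact (hval Y).2.1
      rw [card_image_of_injective _ hinj]
      simp
    have hbA : ∀ X : P, (c X).2 ∉ A := by
      intro X hX
      simp only [A, mem_image, mem_univ, true_and] at hX
      obtain ⟨Y, hY⟩ := hX
      by_cases hYX : Y = X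
      · subst hYX
        exact (hval Y).2.2.2 hY
      · have hne' : Y.1 ≠ X.1 := fun h => hYX (Subtype.ext h)
        have h1 := hP Y.1 Y.2 X.1 X.2 hne'
        apply (hval Y).1
        rw [← h1, mem_inter]
        refine ⟨(hval Y).2.1, ?_⟩
        rw [hY]
        exact (hval X).2.2.1
    have hcard : (Sc c).card ≤ (univ : Finset ({v : Fin n // v ∉ A} → Fin r)).card := by
      refine card_le_card_of_injOn (fun f v => f v.1) (fun _ _ => mem_univ _) ?_
      intro f hf g hg hfg
      have hf' : ∀ X : P, f (c X).1 = f (c X).2 := (mem_filter.1 hf).2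
      have hg' : ∀ X : P, g (c X).1 = g (c X).2 := (mem_filter.1 hg).2
      have hoff : ∀ v, v ∉ A → f v = g v := fun v hv => congrFun hfg ⟨v, hv⟩
      funext v
      by_cases hv : v ∈ A
      · simp only [A, mem_image, mem_univ, true_and] at hv
        obtain ⟨X, rfl⟩ := hv
        rw [hf' X, hg' X]
        exact hoff _ (hbA X)
      · exact hoff v hv
    refine hcard.trans (le_of_eq ?_)
    rw [card_univ, Fintype.card_fun, Fintype.card_fin, Fintype.card_subtype_compl,
      Fintype.card_fin]
    simp [hAc]
  have hCh : (Ch.filter val).card ≤ (l * l) ^ P.card := by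
    refine (card_filter_le _ _).trans ?_
    rw [Fintype.card_piFinset]
    calc ∏ X : P, (X.1 ×ˢ X.1).card ≤ ∏ _X : P, l * l := by
          refine prod_le_prod' fun X _ => ?_
          rw [card_product]
          exact Nat.mul_le_mul (hl _ X.2) (hl _ X.2)
      _ = (l * l) ^ P.card := by simp
  calc _ ≤ ((Ch.filter val).biUnion Sc).card := card_le_card hsub
    _ ≤ (Ch.filter val).card * r ^ (n - P.card) := card_biUnion_le_card_mul _ _ _ hSc
    _ ≤ _ := Nat.mul_le_mul_right _ hCh

/-- Error made by one plucking. -/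
def errN (n p l r : ℕ) : ℕ := (l * l) ^ p * r ^ (n - p)

theorem pluck {p l r : ℕ} (hp : 2 ≤ p) : ∀ (N : ℕ) (F : Finset (Finset (Fin n))), F.card = N →
    (∀ X ∈ F, X.card ≤ l) →
    ∃ F' : Finset (Finset (Fin n)), F'.card ≤ sun p l ∧ (∀ X ∈ F', X.card ≤ l) ∧
      (∀ K, accP F K → accP F' K) ∧
      ∃ B : Finset (Fin n → Fin r), B.card ≤ F.card * errN n p l r ∧
        ∀ f, f ∉ B → accN F' f → accN F f := by
  classical
  intro N
  induction N using Nat.strong_induction_on with
  | _ N ih =>
    intro F hFN hl
    by_cases hsmall : F.card ≤ sun p l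
    · exact ⟨F, hsmall, hl, fun _ h => h, ∅, by simp, fun _ _ h => h⟩
    · push Not at hsmall
      obtain ⟨P, hPF, hPc, Z, hZ⟩ := exists_sunflower hp l F hl hsmall
      have hPne : P.Nonempty := by
        rw [← Finset.card_pos]; omega
      have hZP : ∀ X ∈ P, Z ⊆ X := fun X hX => hZ.core_subset (by omega) hX
      set F1 : Finset (Finset (Fin n)) := insert Z (F \ P) with hF1
      have hcard1 : F1.card < F.card := by
        have h1 : F1.card ≤ (F \ P).card + 1 := card_insert_le _ _
        have h2 : (F \ P).card = F.card - P.card := card_sdiff_of_subset hPF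
        have h3 : P.card ≤ F.card := card_le_card hPF
        omega
      have hl1 : ∀ X ∈ F1, X.card ≤ l := by
        intro X hX
        rcases mem_insert.1 hX with h | h
        · obtain ⟨Y, hY⟩ := hPne
          rw [h]
          exact (card_le_card (hZP Y hY)).trans (hl Y (hPF hY))
        · exact hl X (mem_sdiff.1 h).1
      obtain ⟨F', h1, h2, h3, B', h4, h5⟩ := ih F1.card (by omega) F1 rfl hl1
      let B1 : Finset (Fin n → Fin r) := univ.filter fun f => Set.InjOn f (Z : Set (Fin n)) ∧
        ∀ X ∈ P, ¬ Set.InjOn f (X : Set (Fin n))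
      have hB1 : B1.card ≤ errN n p l r := by
        have := card_noninj (r := r) hZ (l := l) fun X hX => hl X (hPF hX)
        rw [hPc] at this
        exact this
      refine ⟨F', h1, h2, ?_, B1 ∪ B', ?_, ?_⟩
      · rintro K ⟨X, hX, hXK⟩
        apply h3
        by_cases hXP : X ∈ P
        · exact ⟨Z, mem_insert_self _ _, (hZP X hXP).trans hXK⟩
        · exact ⟨X, mem_insert_of_mem (mem_sdiff.2 ⟨hX, hXP⟩), hXK⟩
      · calc (B1 ∪ B').card ≤ B1.card + B'.card := card_union_le _ _
          _ ≤ errN n p l r + F1.card * errN n p l r := Nat.add_le_add hB1 h4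
          _ = (F1.card + 1) * errN n p l r := by ring
          _ ≤ F.card * errN n p l r := Nat.mul_le_mul_right _ hcard1
      · intro f hf hacc
        rw [mem_union, not_or] at hf
        obtain ⟨X, hX, hXf⟩ := h5 f hf.2 hacc
        rcases mem_insert.1 hX with h | h
        · subst h
          by_contra hcon
          apply hf.1
          simp only [B1, mem_filter, mem_univ, true_and]
          refine ⟨hXf, fun Y hY hYf => hcon ⟨Y, hPF hY, hYf⟩⟩
        · exact ⟨X, (mem_sdiff.1 h).1, hXf⟩

theorem card_superset (k j : ℕ) (Z : Finset (Fin n)) (hj : j ≤ Z.card) :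
    ((powersetCard k univ).filter fun K => Z ⊆ K).card ≤ (n - j).choose (k - j) := by
  classical
  obtain ⟨Z', hZ', hZ'c⟩ := exists_subset_card_eq hj
  have h1 : ((powersetCard k univ).filter fun K => Z ⊆ K).card ≤
      (powersetCard (k - j) (univ \ Z')).card := by
    refine card_le_card_of_injOn (fun K => K \ Z') ?_ ?_
    · intro K hK
      have hK' := mem_filter.1 hK
      have hKc : K.card = k := (mem_powersetCard.1 hK'.1).2
      have hZK : Z' ⊆ K := hZ'.trans hK'.2
      rw [mem_coe, mem_powersetCard]
      refine ⟨sdiff_subset_sdiff (subset_univ _) (le_refl _), ?_⟩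
      rw [card_sdiff_of_subset hZK, hKc, hZ'c]
    · intro K hK L hL hKL
      have hK' : Z' ⊆ K := hZ'.trans (mem_filter.1 hK).2
      have hL' : Z' ⊆ L := hZ'.trans (mem_filter.1 hL).2
      simp only at hKL
      rw [← sdiff_union_of_subset hK', hKL, sdiff_union_of_subset hL']
  refine h1.trans (le_of_eq ?_)
  rw [card_powersetCard, card_sdiff_of_subset (subset_univ _), card_univ, Fintype.card_fin, hZ'c]

/-- The approximation of all gates of a monotone circuit, whose inputs are functions that have
already been approximated, by `A0`, correctly for the cliques in `GP` and the colourings in `GN`. -/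
theorem approx {p l r k : ℕ} (hp : 2 ≤ p) {κ : Type}
    (xP : Finset (Fin n) → κ → Bool) (xN : (Fin n → Fin r) → κ → Bool)
    (A0 : κ → Finset (Finset (Fin n)))
    (hA0 : ∀ i, (A0 i).card ≤ sun p l ∧ ∀ X ∈ A0 i, X.card ≤ l)
    (GP : Set (Finset (Fin n))) (GN : Set (Fin n → Fin r))
    (h0P : ∀ K ∈ GP, ∀ i, xP K i = true → accP (A0 i) K)
    (h0N : ∀ f ∈ GN, ∀ i, accN (A0 i) f → xN f i = true) (gates : List (MonoGate κ)) :
    ∃ A : List (Finset (Finset (Fin n))), A.length = gates.length ∧
      (∀ i, (A.getD i ∅).card ≤ sun p l ∧ ∀ X ∈ A.getD i ∅, X.card ≤ l) ∧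
      ∃ (BP : Finset (Finset (Fin n))) (BN : Finset (Fin n → Fin r)),
        BP.card ≤ gates.countP MonoGate.isAndOr *
          (sun p l * sun p l * (n - (l + 1)).choose (k - (l + 1))) ∧
        BN.card ≤ gates.countP MonoGate.isAndOr *
          ((sun p l * sun p l + 2 * sun p l) * errN n p l r) ∧
        (∀ K ∈ powersetCard k univ, K ∈ GP → K ∉ BP →
          ∀ i, (gateVals (xP K) gates).getD i false = true → accP (A.getD i ∅) K) ∧
        (∀ f ∈ GN, f ∉ BN →
          ∀ i, accN (A.getD i ∅) f → (gateVals (xN f) gates).getD i false = true) := by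
  classical
  induction gates using List.reverseRecOn with
  | nil =>
    refine ⟨[], rfl, by simp, ∅, ∅, by simp, by simp, by simp, ?_⟩
    rintro f - - i ⟨X, hX, -⟩
    simp at hX
  | append_singleton gates g ih =>
    obtain ⟨A, hAlen, hA, BP, BN, hBP, hBN, hPos, hNeg⟩ := ih
    -- it suffices to approximate the last gate
    suffices hlast : ∃ F : Finset (Finset (Fin n)), F.card ≤ sun p l ∧ (∀ X ∈ F, X.card ≤ l) ∧
        ∃ (BP' : Finset (Finset (Fin n))) (BN' : Finset (Fin n → Fin r)),
          BP'.card ≤ [g].countP MonoGate.isAndOr *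
            (sun p l * sun p l * (n - (l + 1)).choose (k - (l + 1))) ∧
          BN'.card ≤ [g].countP MonoGate.isAndOr *
            ((sun p l * sun p l + 2 * sun p l) * errN n p l r) ∧
          (∀ K ∈ powersetCard k univ, K ∈ GP → K ∉ BP → K ∉ BP' →
            g.val (xP K) (gateVals (xP K) gates) = true → accP F K) ∧
          (∀ f ∈ GN, f ∉ BN → f ∉ BN' → accN F f →
            g.val (xN f) (gateVals (xN f) gates) = true) by
      obtain ⟨F, hF1, hF2, BP', BN', hBP', hBN', hPos', hNeg'⟩ := hlast
      refine ⟨A ++ [F], by simp [hAlen], ?_, BP ∪ BP', BN ∪ BN', ?_, ?_, ?_, ?_⟩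
      · intro i
        rcases lt_trichotomy i A.length with hlt | heq | hgt
        · rw [getD_append_singleton_of_lt _ _ _ hlt]
          exact hA i
        · rw [heq, getD_append_singleton_length]
          exact ⟨hF1, hF2⟩
        · rw [List.getD_eq_default _ _ (by simp; omega)]
          simp
      · refine (card_union_le _ _).trans ?_
        rw [List.countP_append, Nat.add_mul]
        exact Nat.add_le_add hBP hBP'
      · refine (card_union_le _ _).trans ?_
        rw [List.countP_append, Nat.add_mul]
        exact Nat.add_le_add hBN hBN'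
      · intro K hK hKG hKB i hi
        rw [mem_union, not_or] at hKB
        rw [gateVals_append_singleton] at hi
        rcases lt_trichotomy i gates.length with hlt | heq | hgt
        · rw [getD_append_singleton_of_lt _ _ _ (by simpa using hlt)] at hi
          rw [getD_append_singleton_of_lt _ _ _ (by rw [hAlen]; exact hlt)]
          exact hPos K hK hKG hKB.1 i hi
        · have e1 : i = (gateVals (xP K) gates).length := by simpa using heq
          have e2 : i = A.length := by rw [hAlen]; exact heq
          rw [e1, getD_append_singleton_length] at hi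
          rw [e2, getD_append_singleton_length]
          exact hPos' K hK hKG hKB.1 hKB.2 hi
        · rw [List.getD_eq_default _ _ (by simp; omega)] at hi
          exact absurd hi (by simp)
      · intro f hfG hf i hi
        rw [mem_union, not_or] at hf
        rw [gateVals_append_singleton]
        rcases lt_trichotomy i gates.length with hlt | heq | hgt
        · rw [getD_append_singleton_of_lt _ _ _ (by simpa using hlt)]
          rw [getD_append_singleton_of_lt _ _ _ (by rw [hAlen]; exact hlt)] at hi
          exact hNeg f hfG hf.1 i hi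
        · have e1 : i = (gateVals (xN f) gates).length := by simpa using heq
          have e2 : i = A.length := by rw [hAlen]; exact heq
          rw [e2, getD_append_singleton_length] at hi
          rw [e1, getD_append_singleton_length]
          exact hNeg' f hfG hf.1 hf.2 hi
        · rw [List.getD_eq_default _ _ (by simp; omega)] at hi
          obtain ⟨X, hX, -⟩ := hi
          simp at hX
    cases g with
    | input e =>
      exact ⟨A0 e, (hA0 e).1, (hA0 e).2, ∅, ∅, by simp, by simp,
        fun K _ hKG _ _ h => h0P K hKG e h, fun f hfG _ _ h => h0N f hfG e h⟩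
    | const b =>
      cases b with
      | false =>
        refine ⟨∅, by simp, by simp, ∅, ∅, by simp, by simp, ?_, ?_⟩
        · intro K _ _ _ _ h
          simp [MonoGate.val] at h
        · rintro f - - - ⟨X, hX, -⟩
          simp at hX
      | true =>
        refine ⟨{∅}, ?_, ?_, ∅, ∅, by simp, by simp, ?_, ?_⟩
        · rw [card_singleton]; exact sun_pos p l
        · intro X hX
          rw [mem_singleton.1 hX]; simp
        · intro K _ _ _ _ _
          exact ⟨∅, mem_singleton_self _, empty_subset _⟩
        · intro f _ _ _ _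
          rfl
    | or i j =>
      have hl' : ∀ X ∈ A.getD i ∅ ∪ A.getD j ∅, X.card ≤ l := by
        intro X hX
        rcases mem_union.1 hX with h | h
        · exact (hA i).2 X h
        · exact (hA j).2 X h
      obtain ⟨F', h1, h2, h3, B, h4, h5⟩ := pluck (r := r) hp _ (A.getD i ∅ ∪ A.getD j ∅) rfl hl'
      have hone : [(MonoGate.or i j : MonoGate κ)].countP MonoGate.isAndOr = 1 := rfl
      rw [hone, one_mul, one_mul]
      refine ⟨F', h1, h2, ∅, B, by simp, ?_, ?_, ?_⟩
      · refine h4.trans (Nat.mul_le_mul_right _ ?_)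
        refine (card_union_le _ _).trans ?_
        have := (hA i).1
        have := (hA j).1
        omega
      · intro K hK hKG hKB _ h
        simp only [MonoGate.val, Bool.or_eq_true] at h
        apply h3
        rcases h with h | h
        · obtain ⟨X, hX, hXK⟩ := hPos K hK hKG hKB i h
          exact ⟨X, mem_union_left _ hX, hXK⟩
        · obtain ⟨X, hX, hXK⟩ := hPos K hK hKG hKB j h
          exact ⟨X, mem_union_right _ hX, hXK⟩
      · intro f hfG hf hfB hacc
        simp only [MonoGate.val, Bool.or_eq_true]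
        obtain ⟨X, hX, hXf⟩ := h5 f hfB hacc
        rcases mem_union.1 hX with h | h
        · exact Or.inl (hNeg f hfG hf i ⟨X, h, hXf⟩)
        · exact Or.inr (hNeg f hfG hf j ⟨X, h, hXf⟩)
    | and i j =>
      let F0 : Finset (Finset (Fin n)) :=
        ((A.getD i ∅ ×ˢ A.getD j ∅).image fun q => q.1 ∪ q.2).filter fun X => X.card ≤ l
      have hF0c : F0.card ≤ sun p l * sun p l := by
        refine (card_filter_le _ _).trans (card_image_le.trans ?_)
        rw [card_product]
        exact Nat.mul_le_mul (hA i).1 (hA j).1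
      have hl' : ∀ X ∈ F0, X.card ≤ l := fun X hX => (mem_filter.1 hX).2
      obtain ⟨F', h1, h2, h3, B, h4, h5⟩ := pluck (r := r) hp _ F0 rfl hl'
      let BP' : Finset (Finset (Fin n)) :=
        (A.getD i ∅ ×ˢ A.getD j ∅).biUnion fun q =>
          if l < (q.1 ∪ q.2).card then
            (powersetCard k univ).filter fun K => q.1 ∪ q.2 ⊆ K else ∅
      have hone : [(MonoGate.and i j : MonoGate κ)].countP MonoGate.isAndOr = 1 := rfl
      rw [hone, one_mul, one_mul]
      refine ⟨F', h1, h2, BP', B, ?_, ?_, ?_, ?_⟩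
      · have hb : BP'.card ≤ (A.getD i ∅ ×ˢ A.getD j ∅).card *
            (n - (l + 1)).choose (k - (l + 1)) := by
          refine card_biUnion_le_card_mul _ _ _ fun q _ => ?_
          split_ifs with hq
          · exact card_superset k (l + 1) _ hq
          · simp
        refine hb.trans (Nat.mul_le_mul_right _ ?_)
        rw [card_product]
        exact Nat.mul_le_mul (hA i).1 (hA j).1
      · exact h4.trans (Nat.mul_le_mul_right _ (hF0c.trans (Nat.le_add_right _ _)))
      · intro K hK hKG hKB hKB' h
        simp only [MonoGate.val, Bool.and_eq_true] at h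
        obtain ⟨X, hX, hXK⟩ := hPos K hK hKG hKB i h.1
        obtain ⟨Y, hY, hYK⟩ := hPos K hK hKG hKB j h.2
        apply h3
        have hXY : X ∪ Y ⊆ K := union_subset hXK hYK
        by_cases hc : (X ∪ Y).card ≤ l
        · refine ⟨X ∪ Y, mem_filter.2 ⟨mem_image.2 ⟨(X, Y), mem_product.2 ⟨hX, hY⟩, rfl⟩, hc⟩, hXY⟩
        · exfalso
          apply hKB'
          refine mem_biUnion.2 ⟨(X, Y), mem_product.2 ⟨hX, hY⟩, ?_⟩
          rw [if_pos (by push Not at hc; exact hc)]
          exact mem_filter.2 ⟨hK, hXY⟩
      · intro f hfG hf hfB hacc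
        simp only [MonoGate.val, Bool.and_eq_true]
        obtain ⟨X, hX, hXf⟩ := h5 f hfB hacc
        obtain ⟨⟨X1, X2⟩, hX12, rfl⟩ := mem_image.1 (mem_filter.1 hX).1
        obtain ⟨hX1, hX2⟩ := mem_product.1 hX12
        refine ⟨hNeg f hfG hf i ⟨X1, hX1, hXf.mono ?_⟩, hNeg f hfG hf j ⟨X2, hX2, hXf.mono ?_⟩⟩
        · exact mod_cast subset_union_left
        · exact mod_cast subset_union_right

end Pool.Agent.Work.MP_609cce_lc
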