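import Pool.Agent.Work.MP_609cce_lc.ModFinal

/-!
# No OR-distillation by bounded depth circuits with counting gates
-/

namespace Pool.Agent.Results.MP_609cce_lc.BoundedDepth

open Pool.Agent.Work.MP_609cce_lc

/-- Let `p` be a prime and let `R` be a language to which MAJORITY reduces by polynomial size
constant depth circuits with NOT gates and unbounded fan-in AND, OR and MOD `p` gates (for example,
a language that is hard for NP under such many-one reductions). Let Alice hold `m` strings of
length at most `n` and some random bits, and let her compute each of the `M` bits that she sends,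
from all this and from everything that a computationally unbounded partner has replied so far, by a
circuit of this kind of depth at most `d` and of size at most `s`. If the protocol decides, with
one-sided error at most `1 - 2 ^ (-g)`, whether one of the strings is in `R`, and `n` is large, then
`2 ^ (n ^ ε) ≤ m + s` or `m * n ^ ε ≤ M + g`, where `ε > 0` depends only on `p`, `R` and `d`. In
particular, `R` has no OR-distillation computed by such circuits (where `M` is bounded in terms of
`n` alone, `s` is polynomial in `m + n`, and `Alice` sends the `M` bits at once). -/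
theorem result (p : ℕ) [Fact p.Prime] (R : Set (List Bool)) (hR : ReducesTo p majority R)
    (d : ℕ) : ∃ ε > (0 : ℝ), ∃ n₀ : ℕ, ∀ n ≥ n₀, ∀ (m k M g s : ℕ)
      (next : List Bool → PCircuit ((Fin m × Fin (n + 1)) ⊕ Fin k) 1) (A : Set (List Bool)),
      1 ≤ m → (∀ a, (next a).depth ≤ d ∧ (next a).size ≤ s) → Decides p R next M g A →
      (2 : ℝ) ^ ((n : ℝ) ^ ε) ≤ m + s ∨ m * (n : ℝ) ^ ε ≤ M + g := by
  obtain ⟨c, n₀, h⟩ := quantitative hR d
  rcases Nat.eq_zero_or_pos c with hc | hc
  · refine ⟨1, one_pos, n₀ + 2, fun n hn m k M g s next A hm hnext hD => ?_⟩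
    rcases h n (by omega) m k M g s next A hm hnext hD with h1 | h1
    · rw [hc, pow_zero] at h1
      omega
    · rw [hc, pow_zero, pow_zero] at h1
      omega
  · have hc' : (0 : ℝ) < c := by exact_mod_cast hc
    refine ⟨1 / (c : ℝ), by positivity, n₀, fun n hn m k M g s next A hm hnext hD => ?_⟩
    have hroot : ((n : ℝ) ^ (1 / (c : ℝ))) ^ c = n := by
      rw [← Real.rpow_natCast, ← Real.rpow_mul (by positivity), one_div_mul_cancel hc'.ne',
        Real.rpow_one]
    have hroot0 : (0 : ℝ) ≤ (n : ℝ) ^ (1 / (c : ℝ)) := by positivity
    rcases h n hn m k M g s next A hm hnext hD with h1 | h1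
    · left
      have h2 : ((n : ℝ) ^ (1 / (c : ℝ))) ≤ Nat.log 2 (m + s) := by
        refine le_of_pow_le_pow_left₀ hc.ne' (by positivity) ?_
        rw [hroot]
        exact_mod_cast h1
      have h3 : 2 ^ Nat.log 2 (m + s) ≤ m + s := Nat.pow_log_le_self 2 (by omega)
      calc (2 : ℝ) ^ ((n : ℝ) ^ (1 / (c : ℝ))) ≤ (2 : ℝ) ^ (Nat.log 2 (m + s) : ℝ) :=
            Real.rpow_le_rpow_of_exponent_le (by norm_num) h2
        _ = ((2 ^ Nat.log 2 (m + s) : ℕ) : ℝ) := by
            rw [Real.rpow_natCast]
            push_cast
            rfl
        _ ≤ m + s := by exact_mod_cast h3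
    · right
      refine le_of_pow_le_pow_left₀ hc.ne' (by positivity) ?_
      rw [mul_pow, hroot]
      exact_mod_cast h1

end Pool.Agent.Results.MP_609cce_lc.BoundedDepth
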