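import Pool.Agent.Work.MP_609cce_lc.FormMain

/-!
# No OR-distillation by formulas with few negations
-/

namespace Pool.Agent.Results.MP_609cce_lc.FewNegationsFormula

open Pool.Agent.Work.MP_609cce_lc

/-- Let `R` be a language to which CLIQUE reduces by polynomial size monotone circuits. There is
`ε > 0` such that the following holds for all large `n`. Let `D ω`, for a random `ω`, be a list of
`M` formulas in the bits of `m` strings of length at most `n`, and let `T ω` be a set of output
strings, such that for all inputs, with probability at least `1 / 2 + δ`, the list of the `M` values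
is in `T ω` if and only if at least one of the `m` strings is in `R`. Here `δ ≥ n ^ (-ε)`. If
`M + 6 * wires + 1 ≤ δ * m` for all `ω`, where `wires` is the number of NOT gates, or more generally
the total number of inputs of the queries, of the `M` formulas, then for some `ω` the formulas have
at least `2 ^ (n ^ ε)` AND and OR gates. -/
theorem result (R : Set (List Bool)) (hR : CliqueReducesTo R) :
    ∃ ε > (0 : ℝ), ∃ n₀ : ℕ, ∀ n ≥ n₀, ∀ (m M : ℕ) (Ω : Type) [Fintype Ω] [Nonempty Ω]
      (D : Ω → Fin M → QForm (Fin m × Fin (n + 1))) (T : Ω → Set (Fin M → Bool)) (δ : ℝ),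
      (n : ℝ) ^ (-ε) ≤ δ →
      (∀ ω, (M : ℝ) + 6 * (∑ j, (D ω j).wires : ℕ) + 1 ≤ δ * m) →
      (∀ w : Fin m → List Bool, (∀ i, (w i).length ≤ n) → (1 / 2 + δ) * Fintype.card Ω ≤
        ({ω | (fun j => (D ω j).eval (codes n w)) ∈ T ω ↔ ∃ i, w i ∈ R} : Set Ω).ncard) →
      ∃ ω, (2 : ℝ) ^ ((n : ℝ) ^ ε) ≤ (∑ j, (D ω j).size : ℕ) :=
  few_queries_form hR

end Pool.Agent.Results.MP_609cce_lc.FewNegationsFormula
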