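import Mathlib

/-!
# The sunflower lemma (with an explicit but unoptimised bound)
-/

namespace Pool.Agent.Work.MP_609cce_lc

variable {V : Type*} [DecidableEq V]

/-- Any two distinct members of `P` have intersection exactly `Z`. -/
def IsSunflower (P : Finset (Finset V)) (Z : Finset V) : Prop :=
  ∀ X ∈ P, ∀ Y ∈ P, X ≠ Y → X ∩ Y = Z

/-- The bound in the sunflower lemma. -/
def sun (p : ℕ) : ℕ → ℕ
  | 0 => 1
  | l + 1 => 1 + (p - 1) * (l + 1) * sun p l

theorem sun_pos (p l : ℕ) : 1 ≤ sun p l := by
  cases l with
  | zero => exact le_refl 1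
  | succ l => exact Nat.le_add_right 1 _

theorem IsSunflower.core_subset {P : Finset (Finset V)} {Z : Finset V} (h : IsSunflower P Z)
    (hP : 2 ≤ P.card) {X : Finset V} (hX : X ∈ P) : Z ⊆ X := by
  obtain ⟨Y, hY, hne⟩ := Finset.exists_mem_ne (by omega : 1 < P.card) X
  rw [← h X hX Y hY hne.symm]
  exact Finset.inter_subset_left

theorem exists_sunflower {p : ℕ} (hp : 2 ≤ p) : ∀ (l : ℕ) (F : Finset (Finset V)),
    (∀ X ∈ F, X.card ≤ l) → sun p l < F.card →
      ∃ P ⊆ F, P.card = p ∧ ∃ Z, IsSunflower P Z := by
  intro l
  induction l with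
  | zero =>
    intro F hF hcard
    exfalso
    have h1 : F ⊆ {∅} := by
      intro X hX
      have := hF X hX
      rw [Finset.mem_singleton]
      exact Finset.card_eq_zero.1 (by omega)
    have h2 := Finset.card_le_card h1
    simp only [Finset.card_singleton, sun] at h2 hcard
    omega
  | succ l ih =>
    intro F hF hcard
    -- the nonempty members
    have hF' : (p - 1) * (l + 1) * sun p l < (F.erase ∅).card := by
      have h1 := Finset.pred_card_le_card_erase (s := F) (a := ∅)
      simp only [sun] at hcard
      omega
    -- a maximal pairwise disjoint subfamily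
    let S : Finset (Finset (Finset V)) := (F.erase ∅).powerset.filter fun M =>
      ∀ X ∈ M, ∀ Y ∈ M, X ≠ Y → Disjoint X Y
    have hS : S.Nonempty := ⟨∅, by simp [S]⟩
    obtain ⟨M, hM, hmax⟩ := Finset.exists_max_image S Finset.card hS
    have hM' : M ⊆ F.erase ∅ ∧ ∀ X ∈ M, ∀ Y ∈ M, X ≠ Y → Disjoint X Y := by
      simpa [S] using hM
    by_cases hMp : p ≤ M.card
    · obtain ⟨P, hP, hPc⟩ := Finset.exists_subset_card_eq hMp
      refine ⟨P, hP.trans (hM'.1.trans (Finset.erase_subset _ _)), hPc, ∅, ?_⟩
      intro X hX Y hY hXY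
      exact Finset.disjoint_iff_inter_eq_empty.1 (hM'.2 X (hP hX) Y (hP hY) hXY)
    · push Not at hMp
      let U : Finset V := M.biUnion id
      have hU : U.card ≤ (p - 1) * (l + 1) := by
        have h1 : U.card ≤ M.card * (l + 1) :=
          Finset.card_biUnion_le_card_mul _ _ _ fun X hX =>
            hF X (Finset.mem_of_mem_erase (hM'.1 hX))
        refine h1.trans (Nat.mul_le_mul_right _ (by omega))
      have hcov : ∀ X ∈ F.erase ∅, ∃ v ∈ U, v ∈ X := by
        intro X hX
        by_contra hcon
        push Not at hcon
        have hXne : X ≠ ∅ := (Finset.mem_erase.1 hX).1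
        have hdisj : ∀ Y ∈ M, Disjoint X Y := by
          intro Y hY
          rw [Finset.disjoint_right]
          intro v hv
          exact hcon v (Finset.mem_biUnion.2 ⟨Y, hY, hv⟩)
        have hXM : X ∉ M := by
          intro hXM
          obtain ⟨v, hv⟩ := Finset.nonempty_iff_ne_empty.2 hXne
          exact hcon v (Finset.mem_biUnion.2 ⟨X, hXM, hv⟩) hv
        have hins : insert X M ∈ S := by
          simp only [S, Finset.mem_filter, Finset.mem_powerset]
          refine ⟨Finset.insert_subset hX hM'.1, ?_⟩
          intro Y hY Y' hY' hne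
          rcases Finset.mem_insert.1 hY with h1 | h1
          · rcases Finset.mem_insert.1 hY' with h2 | h2
            · exact absurd (h1.trans h2.symm) hne
            · rw [h1]; exact hdisj Y' h2
          · rcases Finset.mem_insert.1 hY' with h2 | h2
            · rw [h2]; exact (hdisj Y h1).symm
            · exact hM'.2 Y h1 Y' h2 hne
        have h2 := hmax _ hins
        rw [Finset.card_insert_of_notMem hXM] at h2
        omega
      -- some vertex lies in many members
      have hv : ∃ v ∈ U, sun p l < ((F.erase ∅).filter fun X => v ∈ X).card := by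
        by_contra hcon
        push Not at hcon
        have h1 : F.erase ∅ ⊆ U.biUnion fun v => (F.erase ∅).filter fun X => v ∈ X := by
          intro X hX
          obtain ⟨v, hv, hvX⟩ := hcov X hX
          exact Finset.mem_biUnion.2 ⟨v, hv, Finset.mem_filter.2 ⟨hX, hvX⟩⟩
        have h2 := Finset.card_le_card h1
        have h3 := Finset.card_biUnion_le_card_mul U
          (fun v => (F.erase ∅).filter fun X => v ∈ X) (sun p l) hcon
        have h4 : U.card * sun p l ≤ (p - 1) * (l + 1) * sun p l := Nat.mul_le_mul_right _ hU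
        omega
      obtain ⟨v, -, hv⟩ := hv
      set Fv := (F.erase ∅).filter fun X => v ∈ X with hFv
      have hinj : Set.InjOn (fun X : Finset V => X.erase v) (Fv : Set (Finset V)) := by
        intro X hX Y hY hXY
        have hX' : v ∈ X := (Finset.mem_filter.1 hX).2
        have hY' : v ∈ Y := (Finset.mem_filter.1 hY).2
        simp only at hXY
        rw [← Finset.insert_erase hX', hXY, Finset.insert_erase hY']
      have hG : sun p l < (Fv.image fun X => X.erase v).card := by
        rw [Finset.card_image_of_injOn hinj]
        exact hv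
      have hGl : ∀ X ∈ Fv.image (fun X => X.erase v), X.card ≤ l := by
        intro X hX
        obtain ⟨Y, hY, rfl⟩ := Finset.mem_image.1 hX
        have hvY : v ∈ Y := (Finset.mem_filter.1 hY).2
        have hYF : Y ∈ F := Finset.mem_of_mem_erase (Finset.mem_filter.1 hY).1
        have := hF Y hYF
        rw [Finset.card_erase_of_mem hvY]
        omega
      obtain ⟨P, hP, hPc, Z, hZ⟩ := ih _ hGl hG
      have hvP : ∀ X ∈ P, v ∉ X := by
        intro X hX
        obtain ⟨Y, _, rfl⟩ := Finset.mem_image.1 (hP hX)
        exact Finset.notMem_erase _ _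
      refine ⟨P.image (insert v), ?_, ?_, insert v Z, ?_⟩
      · intro X hX
        obtain ⟨X', hX', rfl⟩ := Finset.mem_image.1 hX
        obtain ⟨Y, hY, rfl⟩ := Finset.mem_image.1 (hP hX')
        have hvY : v ∈ Y := (Finset.mem_filter.1 hY).2
        rw [Finset.insert_erase hvY]
        exact Finset.mem_of_mem_erase (Finset.mem_filter.1 hY).1
      · rw [Finset.card_image_of_injOn, hPc]
        intro X hX Y hY hXY
        have h1 : (insert v X).erase v = (insert v Y).erase v := congrArg (fun W => W.erase v) hXY
        rwa [Finset.erase_insert (hvP X hX), Finset.erase_insert (hvP Y hY)] at h1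
      · intro X hX Y hY hXY
        obtain ⟨X', hX', rfl⟩ := Finset.mem_image.1 hX
        obtain ⟨Y', hY', rfl⟩ := Finset.mem_image.1 hY
        rw [← Finset.insert_inter_distrib, hZ X' hX' Y' hY' fun h => hXY (by rw [h])]

end Pool.Agent.Work.MP_609cce_lc
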