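import Pool.Agent.Work.MP_609cce_lc.SymRep

/-!
# Definable OR-distillation: several blocks
-/

set_option autoImplicit false

open Finset Classical

namespace Pool.MP_609cce_lc.Sym

variable {I G : Type} [AddCommGroup G] {σ : Voc}

/-- A locally represented family of structures as a family of 1-tuples. -/
def Rep1.toRep {C : Ctx I G} {Y : Type} [Sys C Y] (R : Rep1 C Y σ) : Rep C Y σ 1 where
  B b _ := R.B b
  dom := R.dom
  π b y := ⟨0, R.π b y⟩
  surj b v := by
    obtain ⟨i, v⟩ := v
    obtain ⟨y, hy⟩ := R.surj b v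
    refine ⟨y, ?_⟩
    have hi : i = 0 := Subsingleton.elim _ _
    subst hi
    simp only [hy]
  dom_loc := R.dom_loc
  rel_loc i r := by
    have hi : i = 0 := Subsingleton.elim _ _
    subst hi
    have e : (fun b (s : Fin (σ.ar r) → Y) => ∃ h : ∀ j, R.dom b (s j),
        Sat (fun _ : Fin 1 => R.B b) (.rel 0 r id) (fun j => ⟨0, R.π b ⟨s j, h j⟩⟩)) =
        fun b s => ∃ h : ∀ j, R.dom b (s j), (R.B b).rel r (fun j => R.π b ⟨s j, h j⟩) := by
      funext b s
      apply propext
      constructor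
      · rintro ⟨h, v, hv, h'⟩
        refine ⟨h, ?_⟩
        have e2 : v = fun j => R.π b ⟨s j, h j⟩ := by
          funext j
          have := hv j
          simp only [id, Sigma.mk.injEq, heq_eq_eq, true_and] at this
          exact this.symm
        rw [← e2]
        exact h'
      · rintro ⟨h, h'⟩
        exact ⟨h, _, fun _ => rfl, h'⟩
    rw [e]
    exact R.rel_loc r
  eq_loc := by
    have e : (fun b (s : Y × Y) => ∃ (h : R.dom b s.1) (h' : R.dom b s.2),
        (⟨0, R.π b ⟨s.1, h⟩⟩ : Univ (fun _ : Fin 1 => R.B b)) = ⟨0, R.π b ⟨s.2, h'⟩⟩) =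
        fun b s => ∃ (h : R.dom b s.1) (h' : R.dom b s.2),
          R.π b ⟨s.1, h⟩ = R.π b ⟨s.2, h'⟩ := by
      funext b s
      simp only [Sigma.mk.injEq, heq_eq_eq, true_and]
    rw [e]
    exact R.eq_loc
  blk_loc i := by
    have e : (fun b (y : Y) => ∃ h : R.dom b y,
        (⟨0, R.π b ⟨y, h⟩⟩ : Univ (fun _ : Fin 1 => R.B b)).1 = i) = fun b y => R.dom b y := by
      funext b y
      apply propext
      exact ⟨fun ⟨h, _⟩ => h, fun h => ⟨h, Subsingleton.elim _ _⟩⟩
    rw [e]
    exact R.dom_loc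

/-! ### Blocks -/

/-- The context of `m` independent copies. -/
noncomputable def Ctx.multi (C : Ctx I G) (m : ℕ) : Ctx (Fin m × I) (Fin m → G) where
  bd :=
    { toFun := fun x p => C.bd (x p.1) p.2
      map_zero' := by
        funext p
        simp
      map_add' := by
        intro x y
        funext p
        simp }
  van x p := C.van (x p.1) p.2
  van_zero p := C.van_zero p.2
  N := C.N
  move := by
    rintro ⟨i, r⟩ S hS
    obtain ⟨r', x, h1, h2, h3, h4⟩ := C.move r (S.image Prod.snd)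
      (lt_of_le_of_lt (Nat.add_le_add_right card_image_le 1) hS)
    refine ⟨(i, r'), Pi.single i x, ?_, ?_, ?_, ?_⟩
    · intro h
      exact h1 (mem_image.2 ⟨(i, r'), h, rfl⟩)
    · intro h
      exact h2 (congrArg Prod.snd h)
    · funext p
      obtain ⟨i', q⟩ := p
      rw [Pi.add_apply, one_apply, one_apply]
      show C.bd ((Pi.single i x : Fin m → G) i') q = _
      by_cases hi : i' = i
      · subst hi
        rw [Pi.single_eq_same, h3, Pi.add_apply, one_apply, one_apply]
        simp only [Prod.mk.injEq, true_and]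
      · rw [Pi.single_eq_of_ne hi]
        simp [Prod.mk.injEq, hi]
    · rintro ⟨i', q⟩ hq1 hq2
      show C.van ((Pi.single i x : Fin m → G) i') q
      by_cases hi : i' = i
      · subst hi
        rw [Pi.single_eq_same]
        exact h4 q (fun h => hq1 (by rw [h])) (fun h => hq2 (by rw [h]))
      · rw [Pi.single_eq_of_ne hi]
        exact C.van_zero q

/-- An object in one of `m` blocks. -/
structure Blk (m : ℕ) (Y : Type) where
  i : Fin m
  y : Y

lemma Blk.ext' {m : ℕ} {Y : Type} {a b : Blk m Y} (h1 : a.i = b.i) (h2 : a.y = b.y) : a = b := by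
  cases a; cases b; cases h1; cases h2; rfl

noncomputable instance {m : ℕ} {Y : Type} [Fintype Y] : Fintype (Blk m Y) :=
  Fintype.ofEquiv (Fin m × Y) ⟨fun p => ⟨p.1, p.2⟩, fun b => (b.i, b.y), fun _ => rfl, fun _ => rfl⟩

noncomputable instance instBlk (C : Ctx I G) (m : ℕ) (Y : Type) [Sys C Y] :
    Sys (C.multi m) (Blk m Y) where
  vadd x a := ⟨a.i, x a.i +ᵥ a.y⟩
  zero_vadd a := by
    refine Blk.ext' rfl ?_
    show (0 : G) +ᵥ a.y = a.y
    rw [zero_vadd]
  add_vadd x y a := by
    refine Blk.ext' rfl ?_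
    show (x a.i + y a.i) +ᵥ a.y = x a.i +ᵥ (y a.i +ᵥ a.y)
    rw [add_vadd]
  supp a := (Sys.supp C a.y).image (fun p => (a.i, p))
  supp_vadd x a := by
    show (Sys.supp C (x a.i +ᵥ a.y)).image _ = _
    rw [Sys.supp_vadd]
    rfl
  vadd_eq x a h := by
    refine Blk.ext' rfl ?_
    show x a.i +ᵥ a.y = a.y
    exact Sys.vadd_eq _ _ fun p hp => h (a.i, p) (mem_image.2 ⟨p, hp, rfl⟩)

section blk

variable {C : Ctx I G} {m : ℕ} {Y : Type} [Sys C Y]

lemma blk_vadd_i (x : Fin m → G) (a : Blk m Y) : (x +ᵥ a).i = a.i := rfl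

lemma blk_vadd_y (x : Fin m → G) (a : Blk m Y) : (x +ᵥ a).y = x a.i +ᵥ a.y := rfl

lemma blk_supp (a : Blk m Y) :
    Sys.supp (C.multi m) a = (Sys.supp C a.y).image (fun p => (a.i, p)) := rfl

lemma blk_fst (a : Blk m Y) {p : Fin m × I} (h : p ∈ Sys.supp (C.multi m) a) : p.1 = a.i := by
  rw [blk_supp, mem_image] at h
  obtain ⟨r, _, hr⟩ := h
  rw [← hr]

lemma blk_card (a : Blk m Y) :
    (Sys.supp (C.multi m) a).card ≤ (Sys.supp C a.y).card := by
  rw [blk_supp]
  exact card_image_le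

lemma multi_bd (x : Fin m → G) (i : Fin m) (p : I) : (C.multi m).bd x (i, p) = C.bd (x i) p := rfl

/-- A local predicate of tuples in one block. -/
lemma IsLoc.blkPi {X : Type} [Fintype X] {f : (I → ZMod 2) → (X → Y) → Prop} (hf : IsLoc C f)
    (i : Fin m) : IsLoc (C.multi m) (fun b (s : X → Blk m Y) =>
      (∀ j, (s j).i = i) ∧ f (fun p => b (i, p)) (fun j => (s j).y)) := by
  constructor
  · intro b b' s h
    apply propext
    refine and_congr_right fun hi => ?_
    rw [hf.loc _ (fun p => b' (i, p))]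
    intro p hp
    rw [mem_supp_pi] at hp
    obtain ⟨j, hj⟩ := hp
    refine h (i, p) ?_
    rw [mem_supp_pi]
    refine ⟨j, ?_⟩
    rw [blk_supp]
    exact mem_image.2 ⟨p, hj, by rw [hi j]⟩
  · intro x b s
    apply propext
    refine and_congr_right fun hi => ?_
    have hi' : ∀ j, (s j).i = i := hi
    have e1 : (fun p => (b + (C.multi m).bd x) (i, p)) = (fun p => b (i, p)) + C.bd (x i) := by
      funext p
      rfl
    have e2 : (fun j => ((x +ᵥ s) j).y) = x i +ᵥ (fun j => (s j).y) := by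
      funext j
      show x (s j).i +ᵥ (s j).y = x i +ᵥ (s j).y
      rw [hi' j]
    rw [e1, e2, hf.inv]

/-- A local predicate of pairs in one block. -/
lemma IsLoc.blkProd {f : (I → ZMod 2) → Y × Y → Prop} (hf : IsLoc C f)
    (i : Fin m) : IsLoc (C.multi m) (fun b (s : Blk m Y × Blk m Y) =>
      (s.1.i = i ∧ s.2.i = i) ∧ f (fun p => b (i, p)) (s.1.y, s.2.y)) := by
  constructor
  · intro b b' s h
    apply propext
    refine and_congr_right fun hi => ?_
    rw [hf.loc _ (fun p => b' (i, p))]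
    intro p hp
    refine h (i, p) ?_
    rw [mem_supp_prod] at hp ⊢
    rcases hp with hp | hp
    · exact Or.inl (mem_image.2 ⟨p, hp, by rw [hi.1]⟩)
    · exact Or.inr (mem_image.2 ⟨p, hp, by rw [hi.2]⟩)
  · intro x b s
    apply propext
    refine and_congr_right fun hi => ?_
    have hi' : s.1.i = i ∧ s.2.i = i := hi
    have e1 : (fun p => (b + (C.multi m).bd x) (i, p)) = (fun p => b (i, p)) + C.bd (x i) := by
      funext p
      rfl
    have e2 : ((x +ᵥ s).1.y, (x +ᵥ s).2.y) = x i +ᵥ (s.1.y, s.2.y) := by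
      show (x s.1.i +ᵥ s.1.y, x s.2.i +ᵥ s.2.y) = (x i +ᵥ s.1.y, x i +ᵥ s.2.y)
      rw [hi'.1, hi'.2]
    rw [e1, e2, hf.inv]

/-- A local predicate of a single object in one block. -/
lemma IsLoc.blk1 {f : (I → ZMod 2) → Y → Prop} (hf : IsLoc C f)
    (i : Fin m) : IsLoc (C.multi m) (fun b (s : Blk m Y) =>
      s.i = i ∧ f (fun p => b (i, p)) s.y) := by
  constructor
  · intro b b' s h
    apply propext
    refine and_congr_right fun hi => ?_
    rw [hf.loc _ (fun p => b' (i, p))]
    intro p hp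
    exact h (i, p) (mem_image.2 ⟨p, hp, by rw [hi]⟩)
  · intro x b s
    apply propext
    refine and_congr_right fun hi => ?_
    have hi' : s.i = i := hi
    have e1 : (fun p => (b + (C.multi m).bd x) (i, p)) = (fun p => b (i, p)) + C.bd (x i) := by
      funext p
      rfl
    have e2 : (x +ᵥ s).y = x i +ᵥ s.y := by
      show x s.i +ᵥ s.y = x i +ᵥ s.y
      rw [hi']
    rw [e1, e2, hf.inv]

lemma sigma_aux {m : ℕ} {F : Fin m → Type} {Z : Type} {dm : Fin m → Z → Prop}
    (q : ∀ i, {y // dm i y} → F i) {i i' : Fin m} (hi : i' = i) (y : Z) (h : dm i' y)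
    (h2 : dm i y) : (⟨i', q i' ⟨y, h⟩⟩ : Σ i, F i) = ⟨i, q i ⟨y, h2⟩⟩ := by
  subst hi
  rfl

/-- `m` independent copies of a locally represented family of structures. -/
def Rep1.multi (R : Rep1 C Y σ) (m : ℕ) : Rep (C.multi m) (Blk m Y) σ m where
  B b i := R.B (fun p => b (i, p))
  dom b a := R.dom (fun p => b (a.i, p)) a.y
  π b a := ⟨a.1.i, R.π (fun p => b (a.1.i, p)) ⟨a.1.y, a.2⟩⟩
  surj b v := by
    obtain ⟨i, v⟩ := v
    obtain ⟨y, hy⟩ := R.surj (fun p => b (i, p)) v
    exact ⟨⟨⟨i, y.1⟩, y.2⟩, by rw [← hy]⟩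
  dom_loc := by
    have e : (fun (b : Fin m × I → ZMod 2) (a : Blk m Y) => R.dom (fun p => b (a.i, p)) a.y) = fun (b : Fin m × I → ZMod 2) (a : Blk m Y) =>
        ∃ i, a.i = i ∧ R.dom (fun p => b (i, p)) a.y := by
      funext b a
      apply propext
      exact ⟨fun h => ⟨a.i, rfl, h⟩, fun ⟨i, hi, h⟩ => by subst hi; exact h⟩
    rw [e]
    have h : ∀ i : Fin m, IsLoc (C.multi m) (fun (b : Fin m × I → ZMod 2) (a : Blk m Y) =>
        a.i = i ∧ R.dom (fun p => b (i, p)) a.y) := fun i => R.dom_loc.blk1 i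
    exact ⟨fun b b' y hy => by simp only [(h _).loc b b' y hy],
      fun x b y => by simp only [(h _).inv x b y]⟩
  rel_loc i r := by
    have e : (fun (b : Fin m × I → ZMod 2) (s : Fin (σ.ar r) → Blk m Y) =>
        ∃ h : ∀ j, R.dom (fun p => b ((s j).i, p)) (s j).y,
          Sat (fun i => R.B (fun p => b (i, p))) (.rel i r id)
            (fun j => ⟨(s j).i, R.π (fun p => b ((s j).i, p)) ⟨(s j).y, h j⟩⟩)) =
        fun (b : Fin m × I → ZMod 2) (s : Fin (σ.ar r) → Blk m Y) => (∀ j, (s j).i = i) ∧ ∃ h : ∀ j, R.dom (fun p => b (i, p)) (s j).y,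
          (R.B (fun p => b (i, p))).rel r (fun j => R.π (fun p => b (i, p)) ⟨(s j).y, h j⟩) := by
      funext b s
      apply propext
      constructor
      · rintro ⟨h, v, hv, h'⟩
        have hi : ∀ j, (s j).i = i := fun j => congrArg Sigma.fst (hv j)
        refine ⟨hi, fun j => by rw [← hi j]; exact h j, ?_⟩
        have e2 : v = fun j => R.π (fun p => b (i, p)) ⟨(s j).y, by rw [← hi j]; exact h j⟩ := by
          funext j
          have h1 := hv j
          have h3 := sigma_aux (F := fun i => (R.B (fun p => b (i, p))).V)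
            (dm := fun i y => R.dom (fun p => b (i, p)) y) (fun i => R.π (fun p => b (i, p)))
            (hi j) (s j).y (h j) (by rw [← hi j]; exact h j)
          exact (eq_of_heq (Sigma.mk.inj (h3.symm.trans h1)).2).symm
        rw [← e2]
        exact h'
      · rintro ⟨hi, h, h'⟩
        refine ⟨fun j => by rw [hi j]; exact h j, _, fun j => ?_, h'⟩
        exact sigma_aux (F := fun i => (R.B (fun p => b (i, p))).V)
          (dm := fun i y => R.dom (fun p => b (i, p)) y) (fun i => R.π (fun p => b (i, p)))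
          (hi j) (s j).y (by rw [hi j]; exact h j) (h j)
    rw [e]
    exact (R.rel_loc r).blkPi i
  eq_loc := by
    have e : (fun (b : Fin m × I → ZMod 2) (s : Blk m Y × Blk m Y) => ∃ (h : R.dom (fun p => b (s.1.i, p)) s.1.y)
        (h' : R.dom (fun p => b (s.2.i, p)) s.2.y),
        (⟨s.1.i, R.π (fun p => b (s.1.i, p)) ⟨s.1.y, h⟩⟩ :
          Univ (fun i => R.B (fun p => b (i, p)))) =
          ⟨s.2.i, R.π (fun p => b (s.2.i, p)) ⟨s.2.y, h'⟩⟩) =
        fun (b : Fin m × I → ZMod 2) (s : Blk m Y × Blk m Y) => ∃ i, (s.1.i = i ∧ s.2.i = i) ∧ ∃ (h : R.dom (fun p => b (i, p)) s.1.y)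
          (h' : R.dom (fun p => b (i, p)) s.2.y),
          R.π (fun p => b (i, p)) ⟨s.1.y, h⟩ = R.π (fun p => b (i, p)) ⟨s.2.y, h'⟩ := by
      funext b s
      obtain ⟨⟨i1, y1⟩, ⟨i2, y2⟩⟩ := s
      apply propext
      constructor
      · rintro ⟨h, h', h2⟩
        have hi : i1 = i2 := congrArg Sigma.fst h2
        subst hi
        exact ⟨i1, ⟨rfl, rfl⟩, h, h', eq_of_heq (Sigma.mk.inj h2).2⟩
      · rintro ⟨i, ⟨h1, h1'⟩, h, h', h2⟩
        simp only at h1 h1'
        subst h1
        subst h1'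
        exact ⟨h, h', by rw [h2]⟩
    rw [e]
    have h : ∀ i : Fin m, IsLoc (C.multi m) (fun (b : Fin m × I → ZMod 2) (s : Blk m Y × Blk m Y) =>
        (s.1.i = i ∧ s.2.i = i) ∧ ∃ (h : R.dom (fun p => b (i, p)) s.1.y)
          (h' : R.dom (fun p => b (i, p)) s.2.y),
          R.π (fun p => b (i, p)) ⟨s.1.y, h⟩ = R.π (fun p => b (i, p)) ⟨s.2.y, h'⟩) :=
      fun i => R.eq_loc.blkProd i
    exact ⟨fun b b' y hy => by simp only [(h _).loc b b' y hy],
      fun x b y => by simp only [(h _).inv x b y]⟩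
  blk_loc i := by
    have e : (fun (b : Fin m × I → ZMod 2) (a : Blk m Y) => ∃ h : R.dom (fun p => b (a.i, p)) a.y,
        (⟨a.i, R.π (fun p => b (a.i, p)) ⟨a.y, h⟩⟩ :
          Univ (fun i => R.B (fun p => b (i, p)))).1 = i) =
        fun (b : Fin m × I → ZMod 2) (a : Blk m Y) => a.i = i ∧ R.dom (fun p => b (i, p)) a.y := by
      funext b a
      obtain ⟨i1, y1⟩ := a
      apply propext
      constructor
      · rintro ⟨h, h2⟩
        simp only at h2
        subst h2
        exact ⟨rfl, h⟩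
      · rintro ⟨h1, h2⟩
        simp only at h1
        subst h1
        exact ⟨h2, rfl⟩
    rw [e]
    exact R.dom_loc.blk1 i

end blk

end Pool.MP_609cce_lc.Sym
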