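import Pool.Agent.Work.MP_609cce_lc.SymBlk

/-!
# Definable OR-distillation: the structures encoding systems of equations over the complete graph
-/

set_option autoImplicit false

open Finset Classical

namespace Pool.MP_609cce_lc.Sym

/-- Symmetric matrices over `ZMod 2` with zero diagonal. -/
def Sy (N : ℕ) : AddSubgroup (Fin N → Fin N → ZMod 2) where
  carrier := {x | (∀ i j, x i j = x j i) ∧ ∀ i, x i i = 0}
  zero_mem' := ⟨fun _ _ => rfl, fun _ => rfl⟩
  add_mem' := by
    rintro x y ⟨h1, h2⟩ ⟨h3, h4⟩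
    exact ⟨fun i j => by rw [Pi.add_apply, Pi.add_apply, h1 i j, h3 i j]; rfl,
      fun i => by rw [Pi.add_apply, Pi.add_apply, h2 i, h4 i, add_zero]⟩
  neg_mem' := by
    rintro x ⟨h1, h2⟩
    exact ⟨fun i j => by rw [Pi.neg_apply, Pi.neg_apply, h1 i j]; rfl,
      fun i => by rw [Pi.neg_apply, Pi.neg_apply, h2 i, neg_zero]⟩

/-- The edge between `a` and `c`. -/
def edge {N : ℕ} (a c : Fin N) : Sy N :=
  ⟨fun i j => if i ≠ j ∧ ((i = a ∧ j = c) ∨ (i = c ∧ j = a)) then 1 else 0, by
    constructor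
    · intro i j
      have h : (i ≠ j ∧ ((i = a ∧ j = c) ∨ (i = c ∧ j = a))) ↔
          (j ≠ i ∧ ((j = a ∧ i = c) ∨ (j = c ∧ i = a))) := by
        constructor
        · rintro ⟨h1, h2 | h2⟩
          · exact ⟨h1.symm, Or.inr ⟨h2.2, h2.1⟩⟩
          · exact ⟨h1.symm, Or.inl ⟨h2.2, h2.1⟩⟩
        · rintro ⟨h1, h2 | h2⟩
          · exact ⟨h1.symm, Or.inr ⟨h2.2, h2.1⟩⟩
          · exact ⟨h1.symm, Or.inl ⟨h2.2, h2.1⟩⟩
      show (if i ≠ j ∧ ((i = a ∧ j = c) ∨ (i = c ∧ j = a)) then (1 : ZMod 2) else 0) =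
        if j ≠ i ∧ ((j = a ∧ i = c) ∨ (j = c ∧ i = a)) then 1 else 0
      by_cases h3 : i ≠ j ∧ ((i = a ∧ j = c) ∨ (i = c ∧ j = a))
      · rw [if_pos h3, if_pos (h.1 h3)]
      · rw [if_neg h3, if_neg (fun h4 => h3 (h.2 h4))]
    · intro i
      simp⟩

lemma edge_apply {N : ℕ} (a c i j : Fin N) : (edge a c).1 i j =
    if i ≠ j ∧ ((i = a ∧ j = c) ∨ (i = c ∧ j = a)) then 1 else 0 := rfl

lemma zmod2_add_self (a : ZMod 2) : a + a = 0 := by
  revert a
  decide

lemma edge_sum {N : ℕ} (a c i : Fin N) : ∑ j, (edge a c).1 i j =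
    (one a + one c) i := by
  rw [Pi.add_apply, one_apply, one_apply]
  simp only [edge_apply]
  by_cases hac : a = c
  · subst hac
    rw [zmod2_add_self]
    refine Finset.sum_eq_zero fun j _ => ?_
    rw [if_neg]
    rintro ⟨h1, h2 | h2⟩
    · exact h1 (h2.1.trans h2.2.symm)
    · exact h1 (h2.1.trans h2.2.symm)
  · by_cases hia : i = a
    · subst hia
      rw [if_pos rfl, if_neg hac, add_zero, Finset.sum_eq_single c]
      · rw [if_pos ⟨hac, Or.inl ⟨rfl, rfl⟩⟩]
      · intro j _ hj
        rw [if_neg]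
        rintro ⟨h1, h2 | h2⟩
        · exact hj h2.2
        · exact hac h2.1
      · intro h; exact absurd (mem_univ _) h
    · by_cases hic : i = c
      · subst hic
        rw [if_neg hia, if_pos rfl, zero_add, Finset.sum_eq_single a]
        · rw [if_pos ⟨hia, Or.inr ⟨rfl, rfl⟩⟩]
        · intro j _ hj
          rw [if_neg]
          rintro ⟨h1, h2 | h2⟩
          · exact hia h2.1
          · exact hj h2.2
        · intro h; exact absurd (mem_univ _) h
      · rw [if_neg hia, if_neg hic, add_zero]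
        refine Finset.sum_eq_zero fun j _ => ?_
        rw [if_neg]
        rintro ⟨h1, h2 | h2⟩
        · exact hia h2.1
        · exact hic h2.1

/-- The context of the complete graph with `N` vertices. -/
noncomputable def ctx (N : ℕ) : Ctx (Fin N) (Sy N) where
  bd :=
    { toFun := fun x i => ∑ j, x.1 i j
      map_zero' := by
        funext i
        show ∑ j, (0 : ZMod 2) = 0
        rw [Finset.sum_const_zero]
      map_add' := by
        intro x y
        funext i
        show ∑ j, (x.1 i j + y.1 i j) = ∑ j, x.1 i j + ∑ j, y.1 i j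
        rw [Finset.sum_add_distrib] }
  van x p := ∀ j, x.1 p j = 0
  van_zero _ _ := rfl
  N := N
  move := by
    intro p S hS
    have h1 : ∃ p' : Fin N, p' ∉ insert p S := by
      by_contra h
      push Not at h
      have h2 : (insert p S) = univ := Finset.eq_univ_iff_forall.2 h
      have h3 := congrArg Finset.card h2
      rw [Finset.card_univ, Fintype.card_fin] at h3
      have h4 := Finset.card_insert_le p S
      omega
    obtain ⟨p', hp'⟩ := h1
    rw [mem_insert, not_or] at hp'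
    refine ⟨p', edge p p', hp'.2, hp'.1, ?_, ?_⟩
    · funext i
      exact edge_sum p p' i
    · intro q h1 h2 j
      rw [edge_apply, if_neg]
      rintro ⟨_, h3 | h3⟩
      · exact h1 h3.1
      · exact h2 h3.1

lemma ctx_bd {N : ℕ} (x : Sy N) (i : Fin N) : (ctx N).bd x i = ∑ j, x.1 i j := rfl

lemma ctx_van {N : ℕ} (x : Sy N) (i : Fin N) : (ctx N).van x i ↔ ∀ j, x.1 i j = 0 := Iff.rfl

lemma ctx_edge {N : ℕ} (a c : Fin N) : (ctx N).bd (edge a c) =
    one a + one c := by
  funext i
  exact edge_sum a c i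

/-- The elements of the structures: for each row `i` the values of the variables `x_ij` and of
the partial sums of the row. -/
structure El (N : ℕ) where
  row : Fin N
  var : Fin N ⊕ Fin (N + 1)
  val : ZMod 2

lemma El.ext' {N : ℕ} {a b : El N} (h1 : a.row = b.row) (h2 : a.var = b.var)
    (h3 : a.val = b.val) : a = b := by
  cases a; cases b; cases h1; cases h2; cases h3; rfl

def elEquiv (N : ℕ) : (Fin N × (Fin N ⊕ Fin (N + 1)) × ZMod 2) ≃ El N where
  toFun p := ⟨p.1, p.2.1, p.2.2⟩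
  invFun e := (e.row, e.var, e.val)
  left_inv _ := rfl
  right_inv _ := rfl

instance (N : ℕ) : Fintype (El N) := Fintype.ofEquiv _ (elEquiv N)

lemma card_El (N : ℕ) : Nat.card (El N) = N * ((N + (N + 1)) * 2) := by
  rw [← Nat.card_congr (elEquiv N)]
  simp [Nat.card_eq_fintype_card, ZMod.card]

/-- The change of the value of a variable of row `i` by a move. -/
def chg {N : ℕ} (x : Sy N) (i : Fin N) : Fin N ⊕ Fin (N + 1) → ZMod 2
  | .inl j => x.1 i j
  | .inr j => ∑ l : Fin N, if l.1 < j.1 then x.1 i l else 0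

lemma chg_zero {N : ℕ} (i : Fin N) (v) : chg (0 : Sy N) i v = 0 := by
  cases v with
  | inl j => rfl
  | inr j =>
    show (∑ l : Fin N, if l.1 < j.1 then (0 : ZMod 2) else 0) = 0
    simp

lemma chg_add {N : ℕ} (x y : Sy N) (i : Fin N) (v) : chg (x + y) i v = chg x i v + chg y i v := by
  cases v with
  | inl j => rfl
  | inr j =>
    show (∑ l : Fin N, if l.1 < j.1 then (x.1 i l + y.1 i l) else 0) =
      (∑ l : Fin N, if l.1 < j.1 then x.1 i l else 0) +
        (∑ l : Fin N, if l.1 < j.1 then y.1 i l else 0)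
    rw [← Finset.sum_add_distrib]
    refine Finset.sum_congr rfl fun l _ => ?_
    split_ifs <;> simp

lemma chg_van {N : ℕ} (x : Sy N) (i : Fin N) (h : ∀ j, x.1 i j = 0) (v) : chg x i v = 0 := by
  cases v with
  | inl j => exact h j
  | inr j =>
    show (∑ l : Fin N, if l.1 < j.1 then x.1 i l else 0) = 0
    refine Finset.sum_eq_zero fun l _ => ?_
    rw [h l]
    simp

noncomputable instance instEl (N : ℕ) : Sys (ctx N) (El N) where
  vadd x e := ⟨e.row, e.var, e.val + chg x e.row e.var⟩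
  zero_vadd e := by
    refine El.ext' rfl rfl ?_
    show e.val + chg (0 : Sy N) e.row e.var = e.val
    rw [chg_zero, add_zero]
  add_vadd x y e := by
    refine El.ext' rfl rfl ?_
    show e.val + chg (x + y) e.row e.var = e.val + chg y e.row e.var + chg x e.row e.var
    rw [chg_add]
    ring
  supp e := {e.row}
  supp_vadd _ _ := rfl
  vadd_eq x e h := by
    refine El.ext' rfl rfl ?_
    show e.val + chg x e.row e.var = e.val
    rw [chg_van x e.row (h e.row (mem_singleton_self _)), add_zero]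

lemma el_row {N : ℕ} (x : Sy N) (e : El N) : (x +ᵥ e).row = e.row := rfl
lemma el_var {N : ℕ} (x : Sy N) (e : El N) : (x +ᵥ e).var = e.var := rfl
lemma el_val {N : ℕ} (x : Sy N) (e : El N) : (x +ᵥ e).val = e.val + chg x e.row e.var := rfl
lemma el_supp {N : ℕ} (e : El N) : Sys.supp (ctx N) e = {e.row} := rfl

/-- The vocabulary: a binary symbol (`true`) and a ternary symbol (`false`). -/
def voc : Voc where
  Rel := Bool
  fin := inferInstance
  ar
    | true => 2
    | false => 3

/-- The local constraints violated by three elements. -/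
def Bad {N : ℕ} (b : Fin N → ZMod 2) (u v w : El N) : Prop :=
  (∃ i j : Fin N, (u.row = i ∧ u.var = .inl j) ∧ (v.row = j ∧ v.var = .inl i) ∧ u.val ≠ v.val) ∨
  (u.var = .inl u.row ∧ u.val ≠ 0) ∨
  (u.var = .inr 0 ∧ u.val ≠ 0) ∨
  (∃ j : Fin N, (u.var = .inr j.succ) ∧ (v.row = u.row ∧ v.var = .inr j.castSucc) ∧
    (w.row = u.row ∧ w.var = .inl j) ∧ u.val ≠ v.val + w.val) ∨
  (u.var = .inr (Fin.last N) ∧ u.val ≠ b u.row)

/-- The structure with twist `b`. -/
def struc {N : ℕ} [NeZero N] (b : Fin N → ZMod 2) : FinStr voc where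
  V := El N
  fin := inferInstance
  nonempty := ⟨⟨0, .inr 0, 0⟩⟩
  rel
    | true => fun x : Fin 2 → El N => (x 0).row = (x 1).row ∧ (x 0).var = (x 1).var
    | false => fun x : Fin 3 → El N => Bad b (x 0) (x 1) (x 2)

/-- The class of structures that have a section without a bad triple. -/
def cls : Set (FinStr voc) :=
  {A | ∃ S : A.V → Prop, (∀ v, ∃ w, A.rel true ![v, w] ∧ S w) ∧
    (∀ v w, S v → S w → A.rel true ![v, w] → v = w) ∧
    ∀ u v w, S u → S v → S w → ¬ A.rel false ![u, v, w]}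

lemma chg_succ {N : ℕ} (x : Sy N) (i : Fin N) (j : Fin N) :
    chg x i (.inr j.succ) = chg x i (.inr j.castSucc) + chg x i (.inl j) := by
  show (∑ l : Fin N, if l.1 < j.1 + 1 then x.1 i l else 0) =
    (∑ l : Fin N, if l.1 < j.1 then x.1 i l else 0) + x.1 i j
  have h : ∀ l : Fin N, (if l.1 < j.1 + 1 then x.1 i l else 0) =
      (if l.1 < j.1 then x.1 i l else 0) + (if l = j then x.1 i l else 0) := by
    intro l
    by_cases h1 : l.1 < j.1
    · have h2 : l ≠ j := fun h => by rw [h] at h1; omega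
      rw [if_pos (by omega), if_pos h1, if_neg h2, add_zero]
    · by_cases h2 : l = j
      · subst h2
        rw [if_pos (by omega), if_neg h1, if_pos rfl, zero_add]
      · have h3 : ¬ l.1 < j.1 + 1 := by
          intro h4
          exact h2 (Fin.ext (by omega))
        rw [if_neg h3, if_neg h1, if_neg h2, add_zero]
  simp only [h, Finset.sum_add_distrib]
  simp

lemma chg_last {N : ℕ} (x : Sy N) (i : Fin N) : chg x i (.inr (Fin.last N)) = (ctx N).bd x i := by
  show (∑ l : Fin N, if l.1 < N then x.1 i l else 0) = ∑ l : Fin N, x.1 i l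
  exact Finset.sum_congr rfl fun l _ => if_pos l.2

lemma Bad_inv {N : ℕ} (x : Sy N) (b : Fin N → ZMod 2) (u v w : El N) :
    Bad (b + (ctx N).bd x) (x +ᵥ u) (x +ᵥ v) (x +ᵥ w) ↔ Bad b u v w := by
  unfold Bad
  simp only [el_row, el_var, el_val]
  refine or_congr ?_ (or_congr ?_ (or_congr ?_ (or_congr ?_ ?_)))
  · refine exists_congr fun i => exists_congr fun j => ?_
    refine and_congr_right fun h1 => and_congr_right fun h2 => ?_
    have e : chg x v.row v.var = chg x u.row u.var := by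
      rw [h1.1, h1.2, h2.1, h2.2]
      exact (x.2.1 i j).symm
    rw [e, Ne, Ne, add_left_inj]
  · refine and_congr_right fun h1 => ?_
    have e : chg x u.row u.var = 0 := by
      rw [h1]
      exact x.2.2 _
    rw [e, add_zero]
  · refine and_congr_right fun h1 => ?_
    have e : chg x u.row u.var = 0 := by
      rw [h1]
      show (∑ l : Fin N, if l.1 < 0 then x.1 u.row l else 0) = 0
      simp
    rw [e, add_zero]
  · refine exists_congr fun j => and_congr_right fun h1 => and_congr_right fun h2 =>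
      and_congr_right fun h3 => ?_
    have e : chg x u.row u.var = chg x v.row v.var + chg x w.row w.var := by
      rw [h1, h2.1, h2.2, h3.1, h3.2]
      exact chg_succ x u.row j
    rw [e, Ne, Ne, show v.val + chg x v.row v.var + (w.val + chg x w.row w.var) =
      v.val + w.val + (chg x v.row v.var + chg x w.row w.var) by ring, add_left_inj]
  · refine and_congr_right fun h1 => ?_
    have e : chg x u.row u.var = (ctx N).bd x u.row := by
      rw [h1]
      exact chg_last x _
    rw [e, Pi.add_apply, Ne, Ne, add_left_inj]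

/-- The base family is locally represented by its own elements. -/
noncomputable def base (N : ℕ) [NeZero N] : Rep1 (ctx N) (El N) voc where
  B b := struc b
  dom _ _ := True
  π _ y := y.1
  surj _ v := ⟨⟨v, trivial⟩, rfl⟩
  dom_loc := IsLoc.const True
  rel_loc r := by
    cases r with
    | true =>
      constructor
      · intro b b' s _
        rfl
      · intro x b s
        rfl
    | false =>
      constructor
      · intro b b' (s : Fin 3 → El N) h
        have h0 : b (s 0).row = b' (s 0).row := by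
          exact h _ ((mem_supp_pi (C := ctx N) (X := Fin 3) s _).2 ⟨0, mem_singleton_self _⟩)
        show (∃ _ : ∀ _ : Fin 3, True, Bad b (s 0) (s 1) (s 2)) =
          (∃ _ : ∀ _ : Fin 3, True, Bad b' (s 0) (s 1) (s 2))
        unfold Bad
        rw [h0]
      · intro x b (s : Fin 3 → El N)
        show (∃ _ : ∀ _ : Fin 3, True, Bad (b + (ctx N).bd x) (x +ᵥ s 0) (x +ᵥ s 1) (x +ᵥ s 2)) =
          (∃ _ : ∀ _ : Fin 3, True, Bad b (s 0) (s 1) (s 2))
        rw [Bad_inv]
  eq_loc := by
    constructor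
    · intro b b' s _
      rfl
    · intro x b s
      apply propext
      constructor
      · rintro ⟨_, _, h⟩
        have h' : x +ᵥ s.1 = x +ᵥ s.2 := h
        exact ⟨trivial, trivial, (AddAction.injective x h' : s.1 = s.2)⟩
      · rintro ⟨_, _, h⟩
        exact ⟨trivial, trivial, congrArg (x +ᵥ ·) h⟩

/-! ### Membership in the class -/

lemma sum_symm {N : ℕ} (x : Fin N → Fin N → ZMod 2) (h1 : ∀ i j, x i j = x j i)
    (h2 : ∀ i, x i i = 0) : ∑ i, ∑ j, x i j = 0 := by
  rw [← Finset.sum_product']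
  refine Finset.sum_involution (fun p _ => (p.2, p.1)) ?_ ?_ ?_ ?_
  · rintro ⟨i, j⟩ _
    show x i j + x j i = 0
    rw [h1 j i]
    exact zmod2_add_self _
  · rintro ⟨i, j⟩ _ h
    intro h3
    have h4 : j = i := congrArg Prod.fst h3
    subst h4
    exact h (h2 _)
  · intro p _
    exact mem_univ _
  · intro p _
    rfl

theorem struc_zero_mem (N : ℕ) [NeZero N] : struc (0 : Fin N → ZMod 2) ∈ cls := by
  refine ⟨fun e : El N => e.val = 0, ?_, ?_, ?_⟩
  · intro (v : El N)
    exact ⟨(⟨v.row, v.var, 0⟩ : El N), ⟨rfl, rfl⟩, rfl⟩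
  · intro (v : El N) (w : El N) (h1 : v.val = 0) (h2 : w.val = 0) h3
    exact El.ext' h3.1 h3.2 (h1.trans h2.symm)
  · intro (u : El N) (v : El N) (w : El N) (h1 : u.val = 0) (h2 : v.val = 0) (h3 : w.val = 0)
    show ¬ Bad 0 u v w
    rintro (⟨_, _, _, _, h⟩ | ⟨_, h⟩ | ⟨_, h⟩ | ⟨_, _, _, _, h⟩ | ⟨_, h⟩)
    · exact h (h1.trans h2.symm)
    · exact h h1
    · exact h h1
    · exact h (by rw [h1, h2, h3, add_zero])
    · exact h h1

theorem sum_of_mem {N : ℕ} [NeZero N] (b : Fin N → ZMod 2) (h : struc b ∈ cls) : ∑ i, b i = 0 := by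
  obtain ⟨S, hS1, hS2, hS3⟩ := h
  change (El N → Prop) at S
  have h1 : ∀ (i : Fin N) (v : Fin N ⊕ Fin (N + 1)), ∃ a : ZMod 2, S ⟨i, v, a⟩ := by
    intro i v
    obtain ⟨w, hw1, hw2⟩ := hS1 (⟨i, v, 0⟩ : El N)
    change El N at w
    have e : w = ⟨i, v, w.val⟩ := El.ext' hw1.1.symm hw1.2.symm rfl
    exact ⟨w.val, by rw [← e]; exact hw2⟩
  choose f hf using h1
  have hbad : ∀ u v w : El N, S u → S v → S w → ¬ Bad b u v w := hS3
  have hsym : ∀ i j, f i (.inl j) = f j (.inl i) := by
    intro i j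
    by_contra hne
    exact hbad _ _ _ (hf i (.inl j)) (hf j (.inl i)) (hf i (.inl j))
      (Or.inl ⟨i, j, ⟨rfl, rfl⟩, ⟨rfl, rfl⟩, hne⟩)
  have hdiag : ∀ i, f i (.inl i) = 0 := by
    intro i
    by_contra hne
    exact hbad _ _ _ (hf i (.inl i)) (hf i (.inl i)) (hf i (.inl i))
      (Or.inr (Or.inl ⟨rfl, hne⟩))
  have hzero : ∀ i, f i (.inr 0) = 0 := by
    intro i
    by_contra hne
    exact hbad _ _ _ (hf i (.inr 0)) (hf i (.inr 0)) (hf i (.inr 0))
      (Or.inr (Or.inr (Or.inl ⟨rfl, hne⟩)))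
  have hstep : ∀ i (j : Fin N), f i (.inr j.succ) = f i (.inr j.castSucc) + f i (.inl j) := by
    intro i j
    by_contra hne
    exact hbad _ _ _ (hf i (.inr j.succ)) (hf i (.inr j.castSucc)) (hf i (.inl j))
      (Or.inr (Or.inr (Or.inr (Or.inl ⟨j, rfl, ⟨rfl, rfl⟩, ⟨rfl, rfl⟩, hne⟩))))
  have hlast : ∀ i, f i (.inr (Fin.last N)) = b i := by
    intro i
    by_contra hne
    exact hbad _ _ _ (hf i (.inr (Fin.last N))) (hf i (.inr (Fin.last N)))
      (hf i (.inr (Fin.last N))) (Or.inr (Or.inr (Or.inr (Or.inr ⟨rfl, hne⟩))))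
  have hpre : ∀ i (k : ℕ) (hk : k < N + 1), f i (.inr ⟨k, hk⟩) =
      ∑ l : Fin N, if l.1 < k then f i (.inl l) else 0 := by
    intro i k
    induction k with
    | zero =>
      intro hk
      rw [show (⟨0, hk⟩ : Fin (N + 1)) = 0 from rfl, hzero]
      simp
    | succ k ih =>
      intro hk
      have h2 := hstep i ⟨k, by omega⟩
      have h3 := ih (by omega)
      have e1 : (⟨k + 1, hk⟩ : Fin (N + 1)) = (⟨k, by omega⟩ : Fin N).succ := rfl
      have e2 : (⟨k, by omega⟩ : Fin (N + 1)) = (⟨k, by omega⟩ : Fin N).castSucc := rfl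
      rw [e1, h2, ← e2, h3]
      have h : ∀ l : Fin N, (if l.1 < k + 1 then f i (.inl l) else 0) =
          (if l.1 < k then f i (.inl l) else 0) +
            (if l = ⟨k, by omega⟩ then f i (.inl l) else 0) := by
        intro l
        by_cases h1 : l.1 < k
        · have h2 : l ≠ ⟨k, by omega⟩ := fun h => by rw [h] at h1; simp at h1
          rw [if_pos (by omega), if_pos h1, if_neg h2, add_zero]
        · by_cases h2 : l = ⟨k, by omega⟩
          · have h2' : l.1 = k := congrArg Fin.val h2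
            rw [if_pos (by omega), if_neg h1, if_pos h2, zero_add]
          · have h3 : ¬ l.1 < k + 1 := by
              intro h4
              exact h2 (Fin.ext (by simp; omega))
            rw [if_neg h3, if_neg h1, if_neg h2, add_zero]
      simp only [h, Finset.sum_add_distrib]
      simp
  have hrow : ∀ i, b i = ∑ l : Fin N, f i (.inl l) := by
    intro i
    rw [← hlast i, show (Fin.last N) = ⟨N, by omega⟩ from rfl, hpre]
    exact Finset.sum_congr rfl fun l _ => if_pos l.2
  simp only [hrow]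
  exact sum_symm (fun i l => f i (.inl l)) hsym hdiag

/-- The class is existential second-order definable. -/
theorem cls_eso : IsESO cls := by
  let v1 : Voc := ⟨Unit, inferInstance, fun _ => 1⟩
  let S : {n : ℕ} → Fin n → FO (voc.sum v1) n := fun {n} x =>
    FO.rel (σ := voc.sum v1) (Sum.inr ()) (fun _ : Fin 1 => x)
  let P : {n : ℕ} → Fin n → Fin n → FO (voc.sum v1) n := fun {n} x y =>
    FO.rel (σ := voc.sum v1) (Sum.inl true) (![x, y] : Fin 2 → Fin n)
  let F : {n : ℕ} → Fin n → Fin n → Fin n → FO (voc.sum v1) n := fun {n} x y z =>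
    FO.rel (σ := voc.sum v1) (Sum.inl false) (![x, y, z] : Fin 3 → Fin n)
  have hS : ∀ (A : FinStr voc) (R : (r : v1.Rel) → (Fin (v1.ar r) → A.V) → Prop) {n : ℕ}
      (x : Fin n) (s : Fin n → A.V), (S x).Sat (A.expand R) s ↔ R () (fun _ => s x) :=
    fun _ _ _ _ _ => Iff.rfl
  have hP : ∀ (A : FinStr voc) (R : (r : v1.Rel) → (Fin (v1.ar r) → A.V) → Prop) {n : ℕ}
      (x y : Fin n) (s : Fin n → A.V), (P x y).Sat (A.expand R) s ↔
        A.rel true (![s x, s y] : Fin 2 → A.V) := by
    intro A R n x y s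
    have e : (fun j : Fin 2 => s ((![x, y] : Fin 2 → Fin n) j)) = ![s x, s y] := by
      funext j
      fin_cases j <;> rfl
    show A.rel true (fun j : Fin 2 => s ((![x, y] : Fin 2 → Fin n) j)) ↔ _
    rw [e]
  have hF : ∀ (A : FinStr voc) (R : (r : v1.Rel) → (Fin (v1.ar r) → A.V) → Prop) {n : ℕ}
      (x y z : Fin n) (s : Fin n → A.V), (F x y z).Sat (A.expand R) s ↔
        A.rel false (![s x, s y, s z] : Fin 3 → A.V) := by
    intro A R n x y z s
    have e : (fun j : Fin 3 => s ((![x, y, z] : Fin 3 → Fin n) j)) = ![s x, s y, s z] := by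
      funext j
      fin_cases j <;> rfl
    show A.rel false (fun j : Fin 3 => s ((![x, y, z] : Fin 3 → Fin n) j)) ↔ _
    rw [e]
  refine ⟨v1, .and (.neg (.ex (.neg (.ex (.and (P 0 1) (S 1))))))
    (.and (.neg (.ex (.ex (.and (.and (S 0) (S 1)) (.and (P 0 1) (.neg (.eq 0 1)))))))
      (.neg (.ex (.ex (.ex (.and (.and (S 0) (S 1)) (.and (S 2) (F 0 1 2)))))))), fun A => ?_⟩
  have key : ∀ R : (r : v1.Rel) → (Fin (v1.ar r) → A.V) → Prop,
      (FO.Sat (A.expand R) (.and (.neg (.ex (.neg (.ex (.and (P 0 1) (S 1))))))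
        (.and (.neg (.ex (.ex (.and (.and (S 0) (S 1)) (.and (P 0 1) (.neg (.eq 0 1)))))))
        (.neg (.ex (.ex (.ex (.and (.and (S 0) (S 1)) (.and (S 2) (F 0 1 2)))))))))
        (fun i : Fin 0 => i.elim0)) ↔
      (∀ v, ∃ w, A.rel true (![v, w] : Fin 2 → A.V) ∧ R () (fun _ => w)) ∧
        (∀ v w, R () (fun _ => v) → R () (fun _ => w) → A.rel true (![v, w] : Fin 2 → A.V) →
          v = w) ∧
        ∀ u v w, R () (fun _ => u) → R () (fun _ => v) → R () (fun _ => w) →
          ¬ A.rel false (![u, v, w] : Fin 3 → A.V) := by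
    intro R
    show (¬ (∃ v : A.V, ¬ ∃ w : A.V, (P 0 1).Sat (A.expand R)
        (Fin.snoc (α := fun _ => A.V) (Fin.snoc (α := fun _ => A.V) _ v) w) ∧
        (S 1).Sat (A.expand R) (Fin.snoc (α := fun _ => A.V) (Fin.snoc (α := fun _ => A.V) _ v) w))
        ∧ (¬ ∃ v : A.V, ∃ w : A.V,
          ((S 0).Sat (A.expand R) (Fin.snoc (α := fun _ => A.V) (Fin.snoc (α := fun _ => A.V) _ v) w)
          ∧ (S 1).Sat (A.expand R)
            (Fin.snoc (α := fun _ => A.V) (Fin.snoc (α := fun _ => A.V) _ v) w)) ∧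
          ((P 0 1).Sat (A.expand R)
            (Fin.snoc (α := fun _ => A.V) (Fin.snoc (α := fun _ => A.V) _ v) w) ∧
          ¬ ((Fin.snoc (α := fun _ => A.V) (Fin.snoc (α := fun _ => A.V) _ v) w : Fin 2 → A.V) 0 =
            (Fin.snoc (α := fun _ => A.V) (Fin.snoc (α := fun _ => A.V) _ v) w : Fin 2 → A.V) 1)))
        ∧ ¬ ∃ u : A.V, ∃ v : A.V, ∃ w : A.V,
          ((S 0).Sat (A.expand R) (Fin.snoc (α := fun _ => A.V)
            (Fin.snoc (α := fun _ => A.V) (Fin.snoc (α := fun _ => A.V) _ u) v) w) ∧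
          (S 1).Sat (A.expand R) (Fin.snoc (α := fun _ => A.V)
            (Fin.snoc (α := fun _ => A.V) (Fin.snoc (α := fun _ => A.V) _ u) v) w)) ∧
          ((S 2).Sat (A.expand R) (Fin.snoc (α := fun _ => A.V)
            (Fin.snoc (α := fun _ => A.V) (Fin.snoc (α := fun _ => A.V) _ u) v) w) ∧
          (F 0 1 2).Sat (A.expand R) (Fin.snoc (α := fun _ => A.V)
            (Fin.snoc (α := fun _ => A.V) (Fin.snoc (α := fun _ => A.V) _ u) v) w))) ↔ _
    simp only [hS, hP, hF]
    refine and_congr ?_ (and_congr ?_ ?_)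
    · push Not
      exact Iff.rfl
    · push Not
      exact ⟨fun h v w h1 h2 h3 => h v w ⟨h1, h2⟩ h3, fun h v w h1 h3 => h v w h1.1 h1.2 h3⟩
    · push Not
      exact ⟨fun h u v w h1 h2 h3 => h u v w ⟨h1, h2⟩ h3, fun h u v w h1 h3 => h u v w h1.1 h1.2 h3⟩
  constructor
  · rintro ⟨T, h1, h2, h3⟩
    exact ⟨fun _ x => T (x (0 : Fin 1)), (key _).2 ⟨h1, h2, h3⟩⟩
  · rintro ⟨R, hR⟩
    obtain ⟨h1, h2, h3⟩ := (key R).1 hR
    exact ⟨fun v => R () (fun _ => v), h1, h2, h3⟩

end Pool.MP_609cce_lc.Sym
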