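import Pool.Agent.Work.MP_609cce_lc.SymCFI

/-!
# Definable OR-distillation: the output depends on few blocks only
-/

set_option autoImplicit false

open Finset Classical

namespace Pool.MP_609cce_lc.Sym

variable {I G : Type} [AddCommGroup G] {τ : Voc}

/-- Equality of represented elements. -/
def Rep1.E {C : Ctx I G} {Y : Type} [Sys C Y] (R : Rep1 C Y τ) (b : I → ZMod 2)
    (s : Y × Y) : Prop :=
  ∃ (h : R.dom b s.1) (h' : R.dom b s.2), R.π b ⟨s.1, h⟩ = R.π b ⟨s.2, h'⟩

/-- The number of elements of a locally represented structure does not depend on the twist. -/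
theorem Rep1.card_eq {C : Ctx I G} {Y : Type} [Sys C Y] [Finite I] [Fintype Y] (R : Rep1 C Y τ)
    {K : ℕ} (hK : ∀ y : Y, (Sys.supp C y).card ≤ K) (hN : K + K + 1 < C.N)
    (b b' : I → ZMod 2) : Nat.card (R.B b).V = Nat.card (R.B b').V := by
  have hE : IsLoc C (fun b (s : Y × Y) => R.E b s) := R.eq_loc
  have hcl : IsLoc C (fun b (y : Y) => ∑ y' : Y, (if R.E b (y, y') then (1 : ℚ) else 0)) :=
    IsLoc.sum (C := C) hK hK hN (f := fun b p => if R.E b p then (1 : ℚ) else 0)
      (hE.map (fun a => if a then (1 : ℚ) else 0))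
  have hw : IsLoc C (fun b (p : (Fin 0 → Y) × Y) => if R.dom b p.2 then
      1 / (∑ y' : Y, (if R.E b (p.2, y') then (1 : ℚ) else 0)) else 0) := by
    refine ((R.dom_loc.map₂ hcl (fun a q => if a then 1 / q else 0)).comp
      (fun p : (Fin 0 → Y) × Y => p.2) (fun _ _ => rfl) fun p => ?_)
    rw [supp_prod]
    exact subset_union_right
  have h0 : ∀ s : Fin 0 → Y, (Sys.supp C s).card ≤ 0 := by
    intro s
    have := card_supp_pi hK s
    simpa using this
  have hsum := IsLoc.sum (C := C) hK h0 (by omega) hw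
  have key : ∀ b : I → ZMod 2, (Nat.card (R.B b).V : ℚ) = ∑ y : Y, if R.dom b y then
      1 / (∑ y' : Y, (if R.E b (y, y') then (1 : ℚ) else 0)) else 0 := by
    intro b
    have := (R.B b).fin
    have := Fintype.ofFinite (R.B b).V
    have h1 := count_classes (R.π b) (R.surj b) (fun _ => True)
    have h2 : Nat.card {v : (R.B b).V // True} = Nat.card (R.B b).V :=
      Nat.card_congr (Equiv.subtypeUnivEquiv fun _ => trivial)
    rw [h2] at h1
    rw [h1]
    rw [← Finset.sum_filter, Finset.sum_subtype (univ.filter fun y => R.dom b y)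
      (p := fun y => R.dom b y) (fun y => by simp)]
    refine Finset.sum_congr rfl fun d _ => ?_
    rw [if_pos trivial]
    congr 1
    rw [← Finset.sum_filter, Finset.sum_const, nsmul_eq_mul, mul_one]
    congr 1
    rw [← Fintype.card_subtype, ← Nat.card_eq_fintype_card]
    exact Nat.card_congr ⟨fun d' => ⟨d'.1.1, ⟨d.2, d'.1.2, d'.2⟩⟩,
      fun y => ⟨⟨y.1, y.2.2.1⟩, y.2.2.2⟩, fun _ => rfl, fun _ => rfl⟩
  have h3 := hsum.loc b b' (fun i => i.elim0) (fun p hp => by
    rw [mem_supp_pi] at hp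
    obtain ⟨a, _⟩ := hp
    exact a.elim0)
  have h4 : (Nat.card (R.B b).V : ℚ) = Nat.card (R.B b').V := by
    rw [key b, key b']
    exact h3
  exact_mod_cast h4

/-- A structure with at most `q` elements that is locally represented by objects touching at most
`d` blocks each does not change, up to isomorphism, if the twists are changed outside some set of
at most `q * d` blocks. -/
theorem Rep1.certificate {C : Ctx I G} {m : ℕ} {Y : Type} [Sys (C.multi m) Y] [Finite I]
    [Fintype Y] (R : Rep1 (C.multi m) Y τ) {K q d : ℕ}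
    (hK : ∀ y : Y, (Sys.supp (C.multi m) y).card ≤ K) (hN : K + K + 1 < C.N)
    (hd : ∀ y : Y, ((Sys.supp (C.multi m) y).image Prod.fst).card ≤ d)
    (b₀ : Fin m × I → ZMod 2) (hq : Nat.card (R.B b₀).V ≤ q) :
    ∃ S : Finset (Fin m), S.card ≤ q * d ∧ ∀ b : Fin m × I → ZMod 2,
      (∀ i ∈ S, ∀ p, b (i, p) = b₀ (i, p)) → Iso (R.B b₀) (R.B b) := by
  have := (R.B b₀).fin
  have := Fintype.ofFinite (R.B b₀).V
  choose y hy using R.surj b₀
  refine ⟨univ.biUnion fun v => (Sys.supp (C.multi m) (y v).1).image Prod.fst, ?_, ?_⟩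
  · refine (card_biUnion_le_card_mul _ _ d fun v _ => hd _).trans ?_
    rw [card_univ, ← Nat.card_eq_fintype_card]
    exact Nat.mul_le_mul_right _ hq
  · intro b hb
    have hag : ∀ v, ∀ p ∈ Sys.supp (C.multi m) (y v).1, b₀ p = b p := by
      intro v p hp
      exact (hb p.1 (mem_biUnion.2 ⟨v, mem_univ _, mem_image.2 ⟨p, hp, rfl⟩⟩) p.2).symm
    have hdom : ∀ v, R.dom b (y v).1 := by
      intro v
      rw [← R.dom_loc.loc b₀ b _ (hag v)]
      exact (y v).2
    let e : (R.B b₀).V → (R.B b).V := fun v => R.π b ⟨(y v).1, hdom v⟩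
    have hinj : Function.Injective e := by
      intro v v' h
      have h1 := R.eq_loc.loc b₀ b ((y v).1, (y v').1) (by
        intro p hp
        rw [mem_supp_prod] at hp
        exact hp.elim (hag v p) (hag v' p))
      have h2 : ∃ (h : R.dom b (y v).1) (h' : R.dom b (y v').1),
          R.π b ⟨(y v).1, h⟩ = R.π b ⟨(y v').1, h'⟩ := ⟨_, _, h⟩
      have h3 : ∃ (h : R.dom b₀ (y v).1) (h' : R.dom b₀ (y v').1),
          R.π b₀ ⟨(y v).1, h⟩ = R.π b₀ ⟨(y v').1, h'⟩ := by
        have h4 := h1.symm ▸ h2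
        exact h4
      obtain ⟨_, _, h5⟩ := h3
      rw [← hy v, ← hy v']
      exact h5
    have hfin := (R.B b).fin
    have := Fintype.ofFinite (R.B b).V
    have hcard : Fintype.card (R.B b₀).V = Fintype.card (R.B b).V := by
      rw [← Nat.card_eq_fintype_card, ← Nat.card_eq_fintype_card]
      exact R.card_eq hK hN b₀ b
    have hbij : Function.Bijective e :=
      (Fintype.bijective_iff_injective_and_card e).2 ⟨hinj, hcard⟩
    refine ⟨Equiv.ofBijective e hbij, fun r x => ?_⟩
    have h1 := R.rel_loc r |>.loc b₀ b (fun j => (y (x j)).1) (by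
      intro p hp
      rw [mem_supp_pi] at hp
      obtain ⟨j, hj⟩ := hp
      exact hag (x j) p hj)
    have h2 := iff_of_eq h1
    have hx : x = fun j => R.π b₀ (y (x j)) := funext fun j => (hy (x j)).symm
    constructor
    · intro h
      rw [hx] at h
      obtain ⟨_, h5⟩ := h2.1 ⟨fun j => (y (x j)).2, h⟩
      exact h5
    · intro h
      obtain ⟨_, h5⟩ := h2.2 ⟨fun j => hdom (x j), h⟩
      rw [hx]
      exact h5

end Pool.MP_609cce_lc.Sym
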