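import Pool.Agent.Work.MP_609cce_lc.SymDefs

/-!
# Definable OR-distillation: local functions

`I` is a finite set of rows, a twist is a function `b : I → ZMod 2`, and `G` is a group acting on
objects that have a support (a set of rows). A function of a twist and an object is local if it
only depends on the twist at the rows of the support, and is invariant under the action.
-/

set_option autoImplicit false

open Finset Classical

namespace Pool.MP_609cce_lc.Sym

/-- The twist that is nonzero exactly at `p`. -/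
noncomputable def one {J : Type} (p : J) : J → ZMod 2 := fun q => if q = p then 1 else 0

lemma one_apply {J : Type} (p q : J) : one p q = if q = p then 1 else 0 := rfl

lemma one_same {J : Type} (p : J) : one p p = 1 := if_pos rfl

lemma one_ne {J : Type} {p q : J} (h : q ≠ p) : one p q = 0 := if_neg h

/-- The group of moves `G`, its effect `bd` on the twists and the rows `van x` that a move `x`
leaves alone. -/
structure Ctx (I G : Type) [AddCommGroup G] where
  /-- effect on the twists -/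
  bd : G →+ (I → ZMod 2)
  /-- `van x p`: the move `x` does nothing at row `p` -/
  van : G → I → Prop
  van_zero : ∀ p, van 0 p
  /-- the bound for supports -/
  N : ℕ
  /-- a twist at row `p` can be moved to a row outside a small set -/
  move : ∀ (p : I) (S : Finset I), S.card + 1 < N → ∃ (p' : I) (x : G), p' ∉ S ∧ p' ≠ p ∧
    bd x = one p + one p' ∧ ∀ q, q ≠ p → q ≠ p' → van x q

variable {I G : Type} [AddCommGroup G]

/-- Objects with a support and an action of the moves. -/
class Sys (C : Ctx I G) (Y : Type) extends AddAction G Y where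
  /-- the support -/
  supp : Y → Finset I
  supp_vadd : ∀ (x : G) (y : Y), supp (x +ᵥ y) = supp y
  vadd_eq : ∀ (x : G) (y : Y), (∀ p ∈ supp y, C.van x p) → x +ᵥ y = y

/-- Local functions. -/
structure IsLoc (C : Ctx I G) {Y : Type} [Sys C Y] {α : Type*} (f : (I → ZMod 2) → Y → α) :
    Prop where
  loc : ∀ (b b' : I → ZMod 2) (y : Y), (∀ p ∈ Sys.supp C y, b p = b' p) → f b y = f b' y
  inv : ∀ (x : G) (b : I → ZMod 2) (y : Y), f (b + C.bd x) (x +ᵥ y) = f b y

/-- Objects with a label. -/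
structure Lab (L Y : Type) where
  l : L
  y : Y

lemma Lab.ext' {L Y : Type} {a b : Lab L Y} (h1 : a.l = b.l) (h2 : a.y = b.y) : a = b := by
  cases a; cases b; cases h1; cases h2; rfl

/-- Labelled objects are pairs. -/
def labEquiv (L Y : Type) : L × Y ≃ Lab L Y :=
  ⟨fun p => ⟨p.1, p.2⟩, fun a => (a.l, a.y), fun _ => rfl, fun _ => rfl⟩

noncomputable instance {L Y : Type} [Fintype L] [Fintype Y] : Fintype (Lab L Y) :=
  Fintype.ofEquiv _ (labEquiv L Y)

lemma card_Lab (L Y : Type) : Nat.card (Lab L Y) = Nat.card L * Nat.card Y := by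
  rw [← Nat.card_congr (labEquiv L Y), Nat.card_prod]

section inst

variable (C : Ctx I G)

noncomputable instance instLab {L Y : Type} [Sys C Y] : Sys C (Lab L Y) where
  vadd x a := ⟨a.l, x +ᵥ a.y⟩
  zero_vadd a := Lab.ext' rfl (zero_vadd G a.y)
  add_vadd x y a := Lab.ext' rfl (add_vadd x y a.y)
  supp a := Sys.supp C a.y
  supp_vadd x a := Sys.supp_vadd x a.y
  vadd_eq x a h := Lab.ext' rfl (Sys.vadd_eq x a.y h)

noncomputable instance instProd {Y Z : Type} [Sys C Y] [Sys C Z] : Sys C (Y × Z) where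
  toAddAction := inferInstance
  supp p := Sys.supp C p.1 ∪ Sys.supp C p.2
  supp_vadd x p := by
    show Sys.supp C (x +ᵥ p.1) ∪ Sys.supp C (x +ᵥ p.2) = _
    rw [Sys.supp_vadd, Sys.supp_vadd]
  vadd_eq x p h := by
    show (x +ᵥ p.1, x +ᵥ p.2) = p
    rw [Sys.vadd_eq x p.1 (fun q hq => h q (mem_union_left _ hq)),
      Sys.vadd_eq x p.2 (fun q hq => h q (mem_union_right _ hq))]

noncomputable instance instPi {X Y : Type} [Fintype X] [Sys C Y] : Sys C (X → Y) where
  toAddAction := inferInstance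
  supp s := univ.biUnion fun a => Sys.supp C (s a)
  supp_vadd x s := by
    show (univ.biUnion fun a => Sys.supp C (x +ᵥ s a)) = _
    simp only [Sys.supp_vadd]
  vadd_eq x s h := by
    funext a
    show x +ᵥ s a = s a
    exact Sys.vadd_eq x (s a) fun q hq => h q (mem_biUnion.2 ⟨a, mem_univ _, hq⟩)

end inst

variable {C : Ctx I G}

lemma vadd_prod {Y Z : Type} [Sys C Y] [Sys C Z] (x : G) (p : Y × Z) :
    x +ᵥ p = (x +ᵥ p.1, x +ᵥ p.2) := rfl

lemma vadd_pi {X Y : Type} [Fintype X] [Sys C Y] (x : G) (s : X → Y) (a : X) :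
    (x +ᵥ s) a = x +ᵥ s a := rfl

lemma supp_prod {Y Z : Type} [Sys C Y] [Sys C Z] (p : Y × Z) :
    Sys.supp C p = Sys.supp C p.1 ∪ Sys.supp C p.2 := rfl

lemma supp_pi {X Y : Type} [Fintype X] [Sys C Y] (s : X → Y) :
    Sys.supp C s = univ.biUnion fun a => Sys.supp C (s a) := rfl

lemma mem_supp_prod {Y Z : Type} [Sys C Y] [Sys C Z] (p : Y × Z) (q : I) :
    q ∈ Sys.supp C p ↔ q ∈ Sys.supp C p.1 ∨ q ∈ Sys.supp C p.2 := by
  rw [supp_prod, mem_union]

lemma mem_supp_pi {X Y : Type} [Fintype X] [Sys C Y] (s : X → Y) (q : I) :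
    q ∈ Sys.supp C s ↔ ∃ a, q ∈ Sys.supp C (s a) := by
  rw [supp_pi, mem_biUnion]
  simp

lemma lab_vadd_l {L Y : Type} [Sys C Y] (x : G) (a : Lab L Y) : (x +ᵥ a).l = a.l := rfl

lemma lab_vadd_y {L Y : Type} [Sys C Y] (x : G) (a : Lab L Y) : (x +ᵥ a).y = x +ᵥ a.y := rfl

lemma lab_supp {L Y : Type} [Sys C Y] (a : Lab L Y) : Sys.supp C a = Sys.supp C a.y := rfl

lemma card_supp_pi {X Y : Type} [Fintype X] [Sys C Y] {K : ℕ}
    (hK : ∀ y : Y, (Sys.supp C y).card ≤ K) (s : X → Y) :
    (Sys.supp C s).card ≤ Fintype.card X * K := by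
  rw [supp_pi]
  exact (card_biUnion_le_card_mul _ _ _ fun a _ => hK (s a)).trans (by simp)

/-- The transfer lemma: far twists can be changed after a permutation of the objects. -/
theorem transfer {W Y : Type} [Sys C W] [Sys C Y] [Finite I] (K : ℕ)
    (hK : ∀ y : Y, (Sys.supp C y).card ≤ K) (w : W) (hN : (Sys.supp C w).card + K + 1 < C.N)
    (b b' : I → ZMod 2) (hb : ∀ p ∈ Sys.supp C w, b p = b' p) :
    ∃ σ : Y ≃ Y, ∀ (α : Type) (f : (I → ZMod 2) → W × Y → α), IsLoc C f →
      ∀ y, f b (w, y) = f b' (w, σ y) := by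
  have := Fintype.ofFinite I
  -- single step
  have step : ∀ (b : I → ZMod 2) (p : I), p ∉ Sys.supp C w → ∃ σ : Y ≃ Y,
      ∀ (α : Type) (f : (I → ZMod 2) → W × Y → α), IsLoc C f →
        ∀ y, f b (w, y) = f (b + one p) (w, σ y) := by
    intro b p hp
    have hm : ∀ S : Finset I, S.card ≤ K → ∃ (p' : I) (x : G), p' ∉ Sys.supp C w ∪ S ∧ p' ≠ p ∧
        C.bd x = one p + one p' ∧ ∀ q, q ≠ p → q ≠ p' → C.van x q := by
      intro S hS
      refine C.move p _ ?_
      have := card_union_le (Sys.supp C w) S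
      omega
    choose p' x h1 h2 h3 h4 using hm
    let ξ : Y → G := fun y => x (Sys.supp C y) (hK y)
    have hξ : ∀ (g : G) (y : Y), ξ (g +ᵥ y) = ξ y := by
      intro g y
      simp only [ξ, Sys.supp_vadd]
    refine ⟨⟨fun y => ξ y +ᵥ y, fun y => -ξ y +ᵥ y, fun y => ?_, fun y => ?_⟩, ?_⟩
    · show -ξ (ξ y +ᵥ y) +ᵥ (ξ y +ᵥ y) = y
      rw [hξ, ← add_vadd, neg_add_cancel, zero_vadd]
    · show ξ (-ξ y +ᵥ y) +ᵥ (-ξ y +ᵥ y) = y
      rw [hξ, ← add_vadd, add_neg_cancel, zero_vadd]
    · intro α f hf y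
      have hw : ξ y +ᵥ w = w := by
        refine Sys.vadd_eq _ _ fun q hq => h4 _ (hK y) q ?_ ?_
        · rintro rfl; exact hp hq
        · rintro rfl; exact h1 _ (hK y) (mem_union_left _ hq)
      have e1 := hf.inv (ξ y) b (w, y)
      rw [vadd_prod] at e1
      simp only [hw] at e1
      rw [← e1]
      refine hf.loc _ _ _ fun q hq => ?_
      have hq' : q ≠ p' _ (hK y) := by
        rintro rfl
        refine h1 _ (hK y) ?_
        rw [supp_prod] at hq
        simp only [Sys.supp_vadd] at hq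
        exact hq
      show (b + C.bd (ξ y)) q = _
      rw [show C.bd (ξ y) = _ from h3 _ (hK y)]
      simp only [Pi.add_apply, one_ne hq', add_zero]
  -- finitely many steps
  have many : ∀ (D : Finset I), (∀ p ∈ D, p ∉ Sys.supp C w) → ∀ b : I → ZMod 2, ∃ σ : Y ≃ Y,
      ∀ (α : Type) (f : (I → ZMod 2) → W × Y → α), IsLoc C f →
        ∀ y, f b (w, y) = f (b + ∑ p ∈ D, one p) (w, σ y) := by
    intro D
    induction D using Finset.induction_on with
    | empty =>
      intro _ b
      refine ⟨Equiv.refl _, fun α f _ y => ?_⟩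
      simp
    | insert p D hp ih =>
      intro hD b
      obtain ⟨σ, hσ⟩ := ih (fun q hq => hD q (mem_insert_of_mem hq)) b
      obtain ⟨σ', hσ'⟩ := step (b + ∑ p ∈ D, one p) p (hD p (mem_insert_self _ _))
      refine ⟨σ.trans σ', fun α f hf y => ?_⟩
      rw [hσ α f hf y, hσ' α f hf (σ y), sum_insert hp, add_assoc, add_comm (one p)]
      rfl
  obtain ⟨σ, hσ⟩ := many (univ.filter fun p => b p ≠ b' p) (fun p hp h => by
    exact (mem_filter.1 hp).2 (hb p h)) b
  refine ⟨σ, fun α f hf y => ?_⟩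
  rw [hσ α f hf y]
  congr 1
  funext p
  rw [Pi.add_apply, Finset.sum_apply]
  simp only [one_apply]
  rw [Finset.sum_ite_eq]
  by_cases h : b p = b' p
  · simp [h]
  · have h2 : ∀ u v : ZMod 2, u ≠ v → u + 1 = v := by decide
    simp only [mem_filter, mem_univ, true_and, ne_eq, h, not_false_eq_true, if_true]
    exact h2 _ _ h

/-! ### Closure properties of local functions -/

section closure

variable {Y Z W : Type} [Sys C Y] [Sys C Z] [Sys C W]

lemma IsLoc.const {α : Type*} (a : α) : IsLoc C (fun (_ : I → ZMod 2) (_ : Y) => a) :=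
  ⟨fun _ _ _ _ => rfl, fun _ _ _ => rfl⟩

lemma IsLoc.map {α β : Type*} {f : (I → ZMod 2) → Y → α} (hf : IsLoc C f) (g : α → β) :
    IsLoc C (fun b y => g (f b y)) :=
  ⟨fun b b' y h => by rw [hf.loc b b' y h], fun x b y => by rw [hf.inv x b y]⟩

lemma IsLoc.map₂ {α β γ : Type*} {f : (I → ZMod 2) → Y → α} {f' : (I → ZMod 2) → Y → β}
    (hf : IsLoc C f) (hf' : IsLoc C f') (g : α → β → γ) :
    IsLoc C (fun b y => g (f b y) (f' b y)) :=
  ⟨fun b b' y h => by rw [hf.loc b b' y h, hf'.loc b b' y h],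
    fun x b y => by rw [hf.inv x b y, hf'.inv x b y]⟩

lemma IsLoc.and {f f' : (I → ZMod 2) → Y → Prop} (hf : IsLoc C f) (hf' : IsLoc C f') :
    IsLoc C (fun b y => f b y ∧ f' b y) := hf.map₂ hf' (fun a b => a ∧ b)

lemma IsLoc.not {f : (I → ZMod 2) → Y → Prop} (hf : IsLoc C f) :
    IsLoc C (fun b y => ¬ f b y) := hf.map (fun a => ¬ a)

lemma IsLoc.all {ι : Sort*} {f : ι → (I → ZMod 2) → Y → Prop} (hf : ∀ i, IsLoc C (f i)) :
    IsLoc C (fun b y => ∀ i, f i b y) :=
  ⟨fun b b' y h => by simp only [(hf _).loc b b' y h],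
    fun x b y => by simp only [(hf _).inv x b y]⟩

/-- A family of local functions, indexed by an invariant of the objects. -/
lemma IsLoc.dep {Λ : Type*} {α : Type*} {f : Λ → (I → ZMod 2) → Y → α}
    (hf : ∀ l, IsLoc C (f l)) (lab : Y → Λ) (h : ∀ (x : G) (y : Y), lab (x +ᵥ y) = lab y) :
    IsLoc C (fun b y => f (lab y) b y) :=
  ⟨fun b b' y hy => (hf (lab y)).loc b b' y hy,
    fun x b y => by rw [h, (hf (lab y)).inv x b y]⟩

lemma IsLoc.comp {α : Type*} {f : (I → ZMod 2) → Y → α} (hf : IsLoc C f) (e : Z → Y)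
    (h1 : ∀ (x : G) (z : Z), e (x +ᵥ z) = x +ᵥ e z)
    (h2 : ∀ z, Sys.supp C (e z) ⊆ Sys.supp C z) :
    IsLoc C (fun b z => f b (e z)) :=
  ⟨fun b b' z h => hf.loc b b' (e z) fun p hp => h p (h2 z hp),
    fun x b z => by rw [h1, hf.inv]⟩

/-- Sums of local functions over all objects of bounded support are local. -/
theorem IsLoc.sum [Finite I] [Fintype Y] {K K' : ℕ} (hK : ∀ y : Y, (Sys.supp C y).card ≤ K)
    (hK' : ∀ w : W, (Sys.supp C w).card ≤ K') (hN : K' + K + 1 < C.N)
    {f : (I → ZMod 2) → W × Y → ℚ} (hf : IsLoc C f) :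
    IsLoc C (fun b w => ∑ y : Y, f b (w, y)) := by
  constructor
  · intro b b' w h
    obtain ⟨σ, hσ⟩ := transfer (C := C) K hK w (by have := hK' w; omega) b b' h
    rw [← Equiv.sum_comp σ (fun y => f b' (w, y))]
    exact Finset.sum_congr rfl fun y _ => hσ ℚ f hf y
  · intro x b w
    rw [← Equiv.sum_comp (AddAction.toPerm x : Equiv.Perm Y)]
    refine Finset.sum_congr rfl fun y _ => ?_
    exact hf.inv x b (w, y)

/-- Existential quantification over all objects of bounded support preserves locality. -/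
theorem IsLoc.ex [Finite I] {K K' : ℕ} (hK : ∀ y : Y, (Sys.supp C y).card ≤ K)
    (hK' : ∀ w : W, (Sys.supp C w).card ≤ K') (hN : K' + K + 1 < C.N)
    {f : (I → ZMod 2) → W × Y → Prop} (hf : IsLoc C f) :
    IsLoc C (fun b w => ∃ y : Y, f b (w, y)) := by
  constructor
  · intro b b' w h
    obtain ⟨σ, hσ⟩ := transfer (C := C) K hK w (by have := hK' w; omega) b b' h
    apply propext
    constructor
    · rintro ⟨y, hy⟩
      exact ⟨σ y, by rw [← hσ Prop f hf y]; exact hy⟩
    · rintro ⟨y, hy⟩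
      refine ⟨σ.symm y, ?_⟩
      rw [hσ Prop f hf (σ.symm y), Equiv.apply_symm_apply]
      exact hy
  · intro x b w
    apply propext
    constructor
    · rintro ⟨y, hy⟩
      refine ⟨-x +ᵥ y, ?_⟩
      rw [← hf.inv x b (w, -x +ᵥ y)]
      show f (b + C.bd x) (x +ᵥ w, x +ᵥ (-x +ᵥ y))
      rw [vadd_neg_vadd]
      exact hy
    · rintro ⟨y, hy⟩
      refine ⟨x +ᵥ y, ?_⟩
      rw [← hf.inv x b (w, y)] at hy
      exact hy

end closure

end Pool.MP_609cce_lc.Sym
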