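import Mathlib

/-!
# Definable OR-distillation: definitions

Finite relational structures, infinitary counting logic with finitely many variables,
interpretations, first-order formulas, existential second-order definability and hardness.
-/

set_option autoImplicit false

namespace Pool.MP_609cce_lc.Sym

/-- A finite relational vocabulary: finitely many relation symbols with arities. -/
structure Voc where
  /-- the relation symbols -/
  Rel : Type
  /-- there are finitely many of them -/
  fin : Finite Rel
  /-- the arity of a relation symbol -/
  ar : Rel → ℕ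

/-- A finite structure (with a nonempty universe) over the vocabulary `σ`. -/
structure FinStr (σ : Voc) where
  /-- the universe -/
  V : Type
  /-- the universe is finite -/
  fin : Finite V
  /-- the universe is not empty -/
  nonempty : Nonempty V
  /-- the relations -/
  rel : (r : σ.Rel) → (Fin (σ.ar r) → V) → Prop

/-- The number of elements of a structure. -/
noncomputable def FinStr.size {σ : Voc} (A : FinStr σ) : ℕ := Nat.card A.V

/-- Isomorphism of structures. -/
def Iso {σ : Voc} (A B : FinStr σ) : Prop :=
  ∃ e : A.V ≃ B.V, ∀ (r : σ.Rel) (x : Fin (σ.ar r) → A.V), A.rel r x ↔ B.rel r (fun j => e (x j))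

/-- A class of structures closed under isomorphism. -/
def IsoClosed {σ : Voc} (R : Set (FinStr σ)) : Prop :=
  ∀ A B : FinStr σ, Iso A B → (A ∈ R ↔ B ∈ R)

/-! ### Infinitary logic with counting quantifiers -/

/-- The universe of an `m`-tuple of structures: the disjoint union of the universes. -/
abbrev Univ {σ : Voc} {m : ℕ} (A : Fin m → FinStr σ) : Type := Σ i : Fin m, (A i).V

/-- Formulas of infinitary logic with counting quantifiers, with variables from `X`, about an
`m`-tuple of `σ`-structures: atomic formulas `rel i r x` (the tuple of variables `x` lies in the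
`i`-th structure and in its relation `r`), `eq x y` and `blk i x` (the element `x` lies in the
`i`-th structure), negation, arbitrary (also infinite) conjunctions, and the counting quantifier
`cnt l x φ`: there are at least `l` values of the variable `x` for which `φ` holds. -/
inductive CFml (σ : Voc) (m : ℕ) (X : Type) : Type 1
  | rel (i : Fin m) (r : σ.Rel) (x : Fin (σ.ar r) → X) : CFml σ m X
  | eq (x y : X) : CFml σ m X
  | blk (i : Fin m) (x : X) : CFml σ m X
  | neg (φ : CFml σ m X) : CFml σ m X
  | conj {ι : Type} (φ : ι → CFml σ m X) : CFml σ m X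
  | cnt (l : ℕ) (x : X) (φ : CFml σ m X) : CFml σ m X

open Classical in
/-- The assignment `s` with the value of the variable `x` changed to `v`. -/
noncomputable def upd {X U : Type} (s : X → U) (x : X) (v : U) : X → U :=
  fun y => if y = x then v else s y

/-- Satisfaction of a formula by an assignment in an `m`-tuple of structures. -/
def Sat {σ : Voc} {m : ℕ} {X : Type} (A : Fin m → FinStr σ) : CFml σ m X → (X → Univ A) → Prop
  | .rel i r x, s => ∃ v : Fin (σ.ar r) → (A i).V, (∀ j, s (x j) = ⟨i, v j⟩) ∧ (A i).rel r v
  | .eq x y, s => s x = s y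
  | .blk i x, s => (s x).1 = i
  | .neg φ, s => ¬ Sat A φ s
  | .conj φ, s => ∀ i, Sat A (φ i) s
  | .cnt l x φ, s => l ≤ Nat.card {v : Univ A // Sat A φ (upd s x v)}

/-- A formula whose variables are free variables `Y` and `k` auxiliary (bound) variables holds
for the values `a` of the free variables. -/
def Holds {σ : Voc} {m k : ℕ} {Y : Type} (A : Fin m → FinStr σ) (φ : CFml σ m (Y ⊕ Fin k))
    (a : Y → Univ A) : Prop :=
  ∃ z : Fin k → Univ A, Sat A φ (Sum.elim a z)

/-- An interpretation of `τ`-structures in `m`-tuples of `σ`-structures, given by formulas of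
infinitary counting logic with at most `w` variables. The elements of the defined structure are
the pairs of a label `l` and a `d`-tuple of elements that satisfies `dom l`, up to the equivalence
relation given by `eqv`; the relations are given by `rel`. The labels can serve, for example, as
the elements of a number sort. -/
structure Interp (σ τ : Voc) (m w : ℕ) : Type 1 where
  /-- the labels -/
  L : Type
  /-- there are finitely many labels -/
  fin : Finite L
  /-- the dimension -/
  d : ℕ
  /-- the number of auxiliary variables -/
  k : ℕ
  /-- the domain formulas -/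
  dom : L → CFml σ m (Fin d ⊕ Fin k)
  /-- the equality formulas -/
  eqv : (Fin 2 → L) → CFml σ m ((Fin 2 × Fin d) ⊕ Fin k)
  /-- the formulas for the relations -/
  rel : (r : τ.Rel) → (Fin (τ.ar r) → L) → CFml σ m ((Fin (τ.ar r) × Fin d) ⊕ Fin k)
  /-- all formulas have at most `w` variables -/
  le_w : 2 * d + k ≤ w ∧ ∀ r : τ.Rel, τ.ar r * d + k ≤ w

/-- The pairs of a label and a tuple that satisfies the domain formula. -/
def Interp.Dom {σ τ : Voc} {m w : ℕ} (D : Interp σ τ m w) (A : Fin m → FinStr σ) : Type :=
  {a : D.L × (Fin D.d → Univ A) // Holds A (D.dom a.1) a.2}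

/-- `B` is (up to isomorphism) the structure defined by the interpretation `D` in the tuple `A` of
structures: there is a map `π` from the labelled tuples satisfying the domain formulas onto the
universe of `B` that identifies exactly the pairs identified by the equality formulas and that
carries the relations defined by the formulas to those of `B`. -/
def Interp.Out {σ τ : Voc} {m w : ℕ} (D : Interp σ τ m w) (A : Fin m → FinStr σ)
    (B : FinStr τ) : Prop :=
  ∃ π : D.Dom A → B.V, Function.Surjective π ∧
    (∀ a : Fin 2 → D.Dom A, π (a 0) = π (a 1) ↔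
      Holds A (D.eqv fun j => (a j).1.1) (fun p => (a p.1).1.2 p.2)) ∧
    ∀ (r : τ.Rel) (a : Fin (τ.ar r) → D.Dom A), B.rel r (fun j => π (a j)) ↔
      Holds A (D.rel r fun j => (a j).1.1) (fun p => (a p.1).1.2 p.2)

/-! ### First-order and existential second-order definability, hardness -/

/-- First-order formulas with `n` free variables. -/
inductive FO (σ : Voc) : ℕ → Type
  | rel {n : ℕ} (r : σ.Rel) (x : Fin (σ.ar r) → Fin n) : FO σ n
  | eq {n : ℕ} (x y : Fin n) : FO σ n
  | neg {n : ℕ} (φ : FO σ n) : FO σ n
  | and {n : ℕ} (φ ψ : FO σ n) : FO σ n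
  | ex {n : ℕ} (φ : FO σ (n + 1)) : FO σ n

/-- Satisfaction of a first-order formula. -/
def FO.Sat {σ : Voc} (A : FinStr σ) : {n : ℕ} → FO σ n → (Fin n → A.V) → Prop
  | _, .rel r x, s => A.rel r (fun j => s (x j))
  | _, .eq x y, s => s x = s y
  | _, .neg φ, s => ¬ φ.Sat A s
  | _, .and φ ψ, s => φ.Sat A s ∧ ψ.Sat A s
  | _, .ex φ, s => ∃ a : A.V, φ.Sat A (Fin.snoc (α := fun _ => A.V) s a)

/-- The disjoint union of two vocabularies. -/
abbrev Voc.sum (ρ ρ' : Voc) : Voc where
  Rel := ρ.Rel ⊕ ρ'.Rel
  fin := by
    have := ρ.fin
    have := ρ'.fin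
    infer_instance
  ar := Sum.elim ρ.ar ρ'.ar

/-- The expansion of a structure by additional relations. -/
def FinStr.expand {ρ ρ' : Voc} (A : FinStr ρ)
    (P : (r : ρ'.Rel) → (Fin (ρ'.ar r) → A.V) → Prop) : FinStr (ρ.sum ρ') where
  V := A.V
  fin := A.fin
  nonempty := A.nonempty
  rel r := match r with
    | .inl r => A.rel r
    | .inr r => P r

/-- Existential second-order definable classes of finite structures. By Fagin's theorem these are
exactly the classes of finite structures that are in NP. -/
def IsESO {ρ : Voc} (K : Set (FinStr ρ)) : Prop :=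
  ∃ (ρ' : Voc) (ψ : FO (ρ.sum ρ') 0), ∀ A : FinStr ρ,
    A ∈ K ↔ ∃ P : (r : ρ'.Rel) → (Fin (ρ'.ar r) → A.V) → Prop,
      ψ.Sat (A.expand P) (fun i => i.elim0)

/-- `R` is hard for NP: every class `K` of finite structures in NP (i.e. existential second-order
definable) reduces to `R` by interpretations with a bounded number `w` of variables and
polynomially many labels (one interpretation for each sufficiently large size `n` of the instances
of `K`). First-order reductions and reductions definable in fixed-point logic with counting are of
this kind. -/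
def NPHard {σ : Voc} (R : Set (FinStr σ)) : Prop :=
  ∀ (ρ : Voc) (K : Set (FinStr ρ)), IsESO K → ∃ w : ℕ, ∀ n : ℕ, w ≤ n →
    ∃ J : Interp ρ σ 1 w, Nat.card J.L ≤ n ^ w ∧ ∀ A : FinStr ρ, A.size = n →
      ∃ B : FinStr σ, J.Out (fun _ => A) B ∧ (B ∈ R ↔ A ∈ K)

end Pool.MP_609cce_lc.Sym
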