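import Pool.Agent.Work.MP_609cce_lc.SymCore

/-!
# Definable OR-distillation: the final theorem
-/

set_option autoImplicit false

open Finset Classical

namespace Pool.MP_609cce_lc.Sym

/-- The random interpretation `D ω` (with `ω` uniform on the finite set `Ω`), with the target
classes `T ω`, compresses the property `g` of `m` instances of `R` with at most `n` elements each
to structures with at most `q` elements on average, with advantage `δ`: for every `m`-tuple `A` of
such instances let `B ω` be the structure defined by `D ω`; the average number of elements of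
`B ω` is at most `q`, and with probability at least `1 / 2 + δ` it is true that `B ω` belongs to
`T ω` if and only if `g` holds for the sequence of truth values of `A i ∈ R`. -/
def Compresses {σ τ : Voc} {m w : ℕ} {Ω : Type} [Fintype Ω] (R : Set (FinStr σ)) (n : ℕ)
    (q δ : ℝ) (D : Ω → Interp σ τ m w) (T : Ω → Set (FinStr τ))
    (g : (Fin m → Prop) → Prop) : Prop :=
  ∀ A : Fin m → FinStr σ, (∀ i, (A i).size ≤ n) → ∃ B : Ω → FinStr τ,
    (∀ ω, (D ω).Out A (B ω)) ∧
    ∑ ω, ((B ω).size : ℝ) ≤ q * Fintype.card Ω ∧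
    (1 / 2 + δ) * Fintype.card Ω ≤ Nat.card {ω // B ω ∈ T ω ↔ g (fun i => A i ∈ R)}

/-- The sequence of truth values `u`, changed at the positions in `P`. -/
def change {m : ℕ} (u : Fin m → Prop) (P : Set (Fin m)) : Fin m → Prop :=
  fun i => (i ∈ P ∧ ¬ u i) ∨ (i ∉ P ∧ u i)

lemma arith (w₀ : ℕ) : ∃ C : ℕ, ∀ w n : ℕ, C * (w + 1) ^ C ≤ n →
    (6 * (((w + 3) * (w₀ + 1) + 3) * ((w + 3) * (w₀ + 1) + 3))) ^ (2 * w₀ + 1) ≤ n := by
  have hA1 : 1 ≤ 54 * (w₀ + 2) ^ 2 := Nat.succ_le_of_lt (by positivity)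
  have hC1 : 54 * (w₀ + 2) ^ 2 ≤ (54 * (w₀ + 2) ^ 2) ^ (2 * w₀ + 1) := by
    calc 54 * (w₀ + 2) ^ 2 = (54 * (w₀ + 2) ^ 2) ^ 1 := (pow_one _).symm
      _ ≤ (54 * (w₀ + 2) ^ 2) ^ (2 * w₀ + 1) := Nat.pow_le_pow_right hA1 (by omega)
  refine ⟨(54 * (w₀ + 2) ^ 2) ^ (2 * w₀ + 1), fun w n hn => ?_⟩
  set N := (w + 3) * (w₀ + 1) + 3 with hN
  have hN1 : N ≤ 3 * (w + 1) * (w₀ + 2) := by
    rw [hN]; nlinarith
  have h6 : 6 * (N * N) ≤ 54 * (w₀ + 2) ^ 2 * (w + 1) ^ 2 := by
    calc 6 * (N * N) ≤ 6 * ((3 * (w + 1) * (w₀ + 2)) * (3 * (w + 1) * (w₀ + 2))) :=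
          Nat.mul_le_mul_left _ (Nat.mul_le_mul hN1 hN1)
      _ = 54 * (w₀ + 2) ^ 2 * (w + 1) ^ 2 := by ring
  calc (6 * (N * N)) ^ (2 * w₀ + 1) ≤ (54 * (w₀ + 2) ^ 2 * (w + 1) ^ 2) ^ (2 * w₀ + 1) :=
        Nat.pow_le_pow_left h6 _
    _ = (54 * (w₀ + 2) ^ 2) ^ (2 * w₀ + 1) * (w + 1) ^ (2 * (2 * w₀ + 1)) := by
        rw [mul_pow, ← pow_mul]
    _ ≤ (54 * (w₀ + 2) ^ 2) ^ (2 * w₀ + 1) * (w + 1) ^ ((54 * (w₀ + 2) ^ 2) ^ (2 * w₀ + 1)) := by
        refine Nat.mul_le_mul_left _ (Nat.pow_le_pow_right (by omega) (le_trans ?_ hC1))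
        nlinarith
    _ ≤ n := hn

/-- The counting argument. -/
lemma count_main {Ω : Type} [Fintype Ω] [Nonempty Ω] {m k w : ℕ} {q δ : ℝ}
    (P : Fin k → Set (Fin m)) (hP : Pairwise (Function.onFun Disjoint P))
    (S : Ω → Finset (Fin m)) (sz : Ω → ℕ) (hS : ∀ ω, 2 * (S ω).card ≤ sz ω * w)
    (hsz : ∑ ω, (sz ω : ℝ) ≤ q * Fintype.card Ω)
    (G : Set Ω) (G' : Fin k → Set Ω)
    (hG : (1 / 2 + δ) * Fintype.card Ω ≤ Nat.card {ω // ω ∈ G})
    (hG' : ∀ j, (1 / 2 + δ) * Fintype.card Ω ≤ Nat.card {ω // ω ∈ G' j})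
    (h : ∀ j ω, ω ∈ G → ω ∈ G' j → ∃ i ∈ S ω, i ∈ P j) : 4 * δ * k ≤ w * q := by
  have hpos : (0 : ℝ) < Fintype.card Ω := by exact_mod_cast Fintype.card_pos
  have h1 : ∀ j, 2 * δ * Fintype.card Ω ≤ ((univ.filter fun ω => ∃ i ∈ S ω, i ∈ P j).card : ℝ) := by
    intro j
    have e1 : (Nat.card {ω // ω ∈ G} : ℝ) = (univ.filter fun ω => ω ∈ G).card := by
      rw [Nat.card_eq_fintype_card, Fintype.card_subtype]
    have e2 : (Nat.card {ω // ω ∈ G' j} : ℝ) = (univ.filter fun ω => ω ∈ G' j).card := by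
      rw [Nat.card_eq_fintype_card, Fintype.card_subtype]
    have h2 := Finset.card_union_add_card_inter (univ.filter fun ω => ω ∈ G)
      (univ.filter fun ω => ω ∈ G' j)
    have h3 : ((univ.filter fun ω => ω ∈ G) ∪ (univ.filter fun ω => ω ∈ G' j)).card ≤
        Fintype.card Ω := Finset.card_le_univ _
    have h4 : ((univ.filter fun ω => ω ∈ G) ∩ (univ.filter fun ω => ω ∈ G' j)).card ≤
        (univ.filter fun ω => ∃ i ∈ S ω, i ∈ P j).card := by
      refine Finset.card_le_card fun ω hω => ?_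
      rw [mem_inter, mem_filter, mem_filter] at hω
      exact mem_filter.2 ⟨mem_univ _, h j ω hω.1.2 hω.2.2⟩
    have h5 : (univ.filter fun ω => ω ∈ G).card + (univ.filter fun ω => ω ∈ G' j).card ≤
        Fintype.card Ω + (univ.filter fun ω => ∃ i ∈ S ω, i ∈ P j).card := by omega
    have h6 : ((univ.filter fun ω => ω ∈ G).card : ℝ) + (univ.filter fun ω => ω ∈ G' j).card ≤
        Fintype.card Ω + (univ.filter fun ω => ∃ i ∈ S ω, i ∈ P j).card := by exact_mod_cast h5
    have h7 := hG' j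
    rw [e2] at h7
    rw [e1] at hG
    nlinarith
  have h2 : ∑ j : Fin k, ((univ.filter fun ω => ∃ i ∈ S ω, i ∈ P j).card : ℝ) =
      ∑ ω : Ω, ((univ.filter fun j : Fin k => ∃ i ∈ S ω, i ∈ P j).card : ℝ) := by
    simp only [Finset.card_filter, Nat.cast_sum]
    exact Finset.sum_comm
  have h3 : ∀ ω, ((univ.filter fun j : Fin k => ∃ i ∈ S ω, i ∈ P j).card : ℝ) ≤ (S ω).card := by
    intro ω
    have h4 : (univ.filter fun j : Fin k => ∃ i ∈ S ω, i ∈ P j).card ≤ (S ω).card := by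
      refine Finset.card_le_card_of_forall_subsingleton (fun j i => i ∈ P j) ?_ ?_
      · intro j hj
        obtain ⟨i, hi, hi'⟩ := (mem_filter.1 hj).2
        exact ⟨i, hi, hi'⟩
      · rintro i _ j ⟨_, hj⟩ j' ⟨_, hj'⟩
        by_contra hne
        exact Set.disjoint_left.1 (hP hne) hj hj'
    exact_mod_cast h4
  have h4 : ∀ ω, ((S ω).card : ℝ) ≤ w / 2 * sz ω := by
    intro ω
    have h5 : (2 : ℝ) * (S ω).card ≤ sz ω * w := by exact_mod_cast hS ω
    linarith
  have h5 : (k : ℝ) * (2 * δ * Fintype.card Ω) ≤ w / 2 * (q * Fintype.card Ω) := by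
    calc (k : ℝ) * (2 * δ * Fintype.card Ω) = ∑ j : Fin k, 2 * δ * Fintype.card Ω := by
          rw [Finset.sum_const, nsmul_eq_mul, Finset.card_univ, Fintype.card_fin]
      _ ≤ ∑ j : Fin k, ((univ.filter fun ω => ∃ i ∈ S ω, i ∈ P j).card : ℝ) :=
          Finset.sum_le_sum fun j _ => h1 j
      _ = ∑ ω : Ω, ((univ.filter fun j : Fin k => ∃ i ∈ S ω, i ∈ P j).card : ℝ) := h2
      _ ≤ ∑ ω : Ω, w / 2 * (sz ω : ℝ) :=
          Finset.sum_le_sum fun ω _ => (h3 ω).trans (h4 ω)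
      _ = w / 2 * ∑ ω : Ω, (sz ω : ℝ) := by rw [Finset.mul_sum]
      _ ≤ w / 2 * (q * Fintype.card Ω) := by
          refine mul_le_mul_of_nonneg_left hsz (by positivity)
  have h6 : (4 * δ * k - w * q) * Fintype.card Ω ≤ 0 := by nlinarith
  have h7 : 4 * δ * k - w * q ≤ 0 := by
    by_contra h8
    push Not at h8
    have := mul_pos h8 hpos
    linarith
  linarith

/-- Compressions of instances of an NP-hard class: the general bound. -/
theorem main {σ : Voc} (R : Set (FinStr σ)) (hR : NPHard R) :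
    ∃ C : ℕ, ∀ w n : ℕ, C * (w + 1) ^ C ≤ n → ∀ (m : ℕ) (q δ : ℝ) (τ : Voc) (Ω : Type)
      [Fintype Ω] [Nonempty Ω] (D : Ω → Interp σ τ m w) (T : Ω → Set (FinStr τ)),
      (∀ ω, IsoClosed (T ω)) → ∀ g : (Fin m → Prop) → Prop, Compresses R n q δ D T g →
        ∀ (u : Fin m → Prop) (k : ℕ) (P : Fin k → Set (Fin m)),
          Pairwise (Function.onFun Disjoint P) → (∀ j, ¬ (g (change u (P j)) ↔ g u)) →
          4 * δ * k ≤ w * q := by
  obtain ⟨w₀, hw₀⟩ := hR voc cls cls_eso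
  obtain ⟨C, hC⟩ := arith w₀
  refine ⟨C, fun w n hn m q δ τ Ω _ _ D T hT g hg u k P hP hgP => ?_⟩
  have hX := hC w n hn
  set N := (w + 3) * (w₀ + 1) + 3 with hN
  have hN3 : 3 ≤ N := by rw [hN]; omega
  have hne : NeZero N := ⟨by omega⟩
  have hcard : Nat.card (El N) ≤ 6 * (N * N) := by
    rw [card_El]
    nlinarith
  have hcard2 : 2 ≤ Nat.card (El N) := by
    rw [card_El]
    nlinarith
  have hcard3 : w₀ ≤ Nat.card (El N) := by
    have h1 : w₀ ≤ N := by rw [hN]; nlinarith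
    rw [card_El]
    nlinarith
  obtain ⟨J, hJL, hJ⟩ := hw₀ (Nat.card (El N)) hcard3
  choose B hB hBR using fun b : Fin N → ZMod 2 => hJ (struc b) rfl
  choose q1 hs1 he1 hr1 using hB
  have := J.fin
  have := Fintype.ofFinite J.L
  -- first level
  have hK0 : ∀ y : El N, (Sys.supp (ctx N) y).card ≤ 1 := fun y => by
    rw [el_supp, card_singleton]
  have hJd : 2 * J.d ≤ w₀ := le_trans (Nat.le_add_right _ _) J.le_w.1
  let R1 : Rep1 (ctx N) (Lab J.L (Fin J.d → El N)) σ :=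
    (base N).toRep.interp hK0 J (by
      show (w₀ + 1) * 1 + 1 < N
      rw [hN]; nlinarith) B q1 hs1 he1 hr1
  have hK1 : ∀ y : Lab J.L (Fin J.d → El N), (Sys.supp (ctx N) y).card ≤ w₀ := by
    intro y
    have := card_supp_pi hK0 y.y
    rw [Fintype.card_fin] at this
    rw [lab_supp]
    omega
  have hsize : ∀ b : Fin N → ZMod 2, (B b).size ≤ n := by
    intro b
    have h1 : Nat.card (B b).V ≤ Nat.card {y : Lab J.L (Fin J.d → El N) // R1.dom b y} := by
      have := (B b).fin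
      exact Nat.card_le_card_of_surjective (R1.π b) (R1.surj b)
    have h2 : Nat.card {y : Lab J.L (Fin J.d → El N) // R1.dom b y} ≤
        Nat.card (Lab J.L (Fin J.d → El N)) :=
      Nat.card_le_card_of_injective Subtype.val Subtype.val_injective
    have h3 : Nat.card (Lab J.L (Fin J.d → El N)) = Nat.card J.L * Nat.card (El N) ^ J.d := by
      rw [card_Lab, Nat.card_fun, Nat.card_fin]
    have h4 : Nat.card J.L * Nat.card (El N) ^ J.d ≤ n := by
      calc Nat.card J.L * Nat.card (El N) ^ J.d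
          ≤ Nat.card (El N) ^ w₀ * Nat.card (El N) ^ (w₀ + 1) :=
            Nat.mul_le_mul hJL (Nat.pow_le_pow_right (by omega) (by omega))
        _ = Nat.card (El N) ^ (2 * w₀ + 1) := by rw [← pow_add]; congr 1; ring
        _ ≤ (6 * (N * N)) ^ (2 * w₀ + 1) := Nat.pow_le_pow_left hcard _
        _ ≤ n := hX
    show Nat.card (B b).V ≤ n
    omega
  -- second level
  have hK2 : ∀ y : Blk m (Lab J.L (Fin J.d → El N)),
      (Sys.supp ((ctx N).multi m) y).card ≤ w₀ := by
    intro y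
    exact (blk_card y).trans (hK1 y.y)
  choose B' hB' hsz hT' using fun b : Fin m × Fin N → ZMod 2 =>
    hg (fun i => B (fun p => b (i, p))) (fun i => hsize _)
  -- the twists
  let r0 : Fin N := ⟨0, by omega⟩
  let bu : (Fin m → Prop) → Fin m × Fin N → ZMod 2 := fun u p =>
    if ¬ u p.1 ∧ p.2 = r0 then 1 else 0
  have hbu : ∀ (u : Fin m → Prop) (i : Fin m), (B (fun p => bu u (i, p)) ∈ R) = u i := by
    intro u i
    apply propext
    rw [hBR]
    constructor
    · intro h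
      by_contra hu
      have h2 := sum_of_mem _ h
      have h3 : ∑ p : Fin N, bu u (i, p) = 1 := by
        simp only [bu, hu, not_false_eq_true, true_and]
        rw [Finset.sum_ite_eq']
        simp
      exact absurd (h3.symm.trans h2) (by decide)
    · intro hu
      have e : (fun p => bu u (i, p)) = 0 := by
        funext p
        simp [bu, hu]
      rw [e]
      exact struc_zero_mem N
  have hG : ∀ u : Fin m → Prop, (1 / 2 + δ) * Fintype.card Ω ≤
      Nat.card {ω // ω ∈ {ω | B' (bu u) ω ∈ T ω ↔ g u}} := by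
    intro u
    have h1 := hT' (bu u)
    simp only [hbu u] at h1
    exact h1
  have hcert : ∀ ω, ∃ S : Finset (Fin m), 2 * S.card ≤ (B' (bu u) ω).size * w ∧
      ∀ b : Fin m × Fin N → ZMod 2, (∀ i ∈ S, ∀ p, b (i, p) = bu u (i, p)) →
        Iso (B' (bu u) ω) (B' b ω) := by
    intro ω
    have := (D ω).fin
    have := Fintype.ofFinite (D ω).L
    have hDd : 2 * (D ω).d ≤ w := le_trans (Nat.le_add_right _ _) (D ω).le_w.1
    choose q2 hs2 he2 hr2 using fun b => hB' b ω
    let R3 : Rep1 ((ctx N).multi m) (Lab (D ω).L (Fin (D ω).d → Blk m (Lab J.L (Fin J.d → El N))))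
        τ := (R1.multi m).interp hK2 (D ω) (by
        show (w + 1) * w₀ + 1 < N
        rw [hN]; nlinarith) (fun b => B' b ω) q2 hs2 he2 hr2
    have hK3 : ∀ y : Lab (D ω).L (Fin (D ω).d → Blk m (Lab J.L (Fin J.d → El N))),
        (Sys.supp ((ctx N).multi m) y).card ≤ (D ω).d * w₀ := by
      intro y
      have := card_supp_pi hK2 y.y
      rw [Fintype.card_fin] at this
      rwa [lab_supp]
    have hblk : ∀ y : Lab (D ω).L (Fin (D ω).d → Blk m (Lab J.L (Fin J.d → El N))),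
        ((Sys.supp ((ctx N).multi m) y).image Prod.fst).card ≤ (D ω).d := by
      intro y
      have h1 : (Sys.supp ((ctx N).multi m) y).image Prod.fst ⊆
          univ.image (fun j : Fin (D ω).d => (y.y j).i) := by
        intro i hi
        obtain ⟨p, hp, rfl⟩ := mem_image.1 hi
        rw [lab_supp, mem_supp_pi] at hp
        obtain ⟨j, hj⟩ := hp
        rw [blk_fst _ hj]
        exact mem_image.2 ⟨j, mem_univ _, rfl⟩
      calc _ ≤ _ := card_le_card h1
        _ ≤ (univ : Finset (Fin (D ω).d)).card := card_image_le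
        _ = (D ω).d := by rw [card_univ, Fintype.card_fin]
    obtain ⟨S, hS, hS'⟩ := R3.certificate (K := (D ω).d * w₀) (q := (B' (bu u) ω).size)
      (d := (D ω).d) hK3 (by
        show (D ω).d * w₀ + (D ω).d * w₀ + 1 < N
        have h1 : (D ω).d * w₀ + (D ω).d * w₀ = 2 * (D ω).d * w₀ := by ring
        have h2 := Nat.mul_le_mul_right w₀ hDd
        rw [h1, hN]
        nlinarith) hblk (bu u) le_rfl
    refine ⟨S, ?_, hS'⟩
    calc 2 * S.card ≤ 2 * ((B' (bu u) ω).size * (D ω).d) := Nat.mul_le_mul_left _ hS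
      _ = (B' (bu u) ω).size * (2 * (D ω).d) := by ring
      _ ≤ (B' (bu u) ω).size * w := Nat.mul_le_mul_left _ hDd
  choose S hS hS' using hcert
  refine count_main P hP S (fun ω => (B' (bu u) ω).size) hS (hsz (bu u))
    {ω | B' (bu u) ω ∈ T ω ↔ g u}
    (fun j => {ω | B' (bu (change u (P j))) ω ∈ T ω ↔ g (change u (P j))})
    (hG u) (fun j => hG _) fun j ω h1 h2 => ?_
  by_contra hno
  push Not at hno
  have hiso := hS' ω (bu (change u (P j))) (by
    intro i hi p
    have hiP := hno i hi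
    have e : change u (P j) i = u i := by
      apply propext
      simp [change, hiP]
    show (if ¬ change u (P j) i ∧ p = r0 then (1 : ZMod 2) else 0) =
      if ¬ u i ∧ p = r0 then 1 else 0
    rw [e])
  have h3 := hT ω _ _ hiso
  apply hgP j
  have h1' : B' (bu u) ω ∈ T ω ↔ g u := h1
  have h2' : B' (bu (change u (P j))) ω ∈ T ω ↔ g (change u (P j)) := h2
  rw [← h1', ← h2', h3]

end Pool.MP_609cce_lc.Sym
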