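import Pool.Agent.Work.MP_609cce_lc.SymCtx

/-!
# Definable OR-distillation: formulas are local
-/

set_option autoImplicit false

open Finset Classical

namespace Pool.MP_609cce_lc.Sym

variable {I G : Type} [AddCommGroup G]

/-- Families of `m`-tuples of structures, indexed by twists, whose elements are represented by
objects with a support, in a local way. -/
structure Rep (C : Ctx I G) (Y : Type) [Sys C Y] (σ : Voc) (m : ℕ) where
  B : (I → ZMod 2) → Fin m → FinStr σ
  dom : (I → ZMod 2) → Y → Prop
  π : (b : I → ZMod 2) → {y : Y // dom b y} → Univ (B b)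
  surj : ∀ b, Function.Surjective (π b)
  dom_loc : IsLoc C dom
  rel_loc : ∀ (i : Fin m) (r : σ.Rel), IsLoc C (fun b (s : Fin (σ.ar r) → Y) =>
    ∃ h : ∀ j, dom b (s j), Sat (B b) (.rel i r id) (fun j => π b ⟨s j, h j⟩))
  eq_loc : IsLoc C (fun b (s : Y × Y) =>
    ∃ (h : dom b s.1) (h' : dom b s.2), π b ⟨s.1, h⟩ = π b ⟨s.2, h'⟩)
  blk_loc : ∀ i : Fin m, IsLoc C (fun b (y : Y) => ∃ h : dom b y, (π b ⟨y, h⟩).1 = i)

/-- Families of structures, indexed by twists, whose elements are represented by objects with a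
support, in a local way. -/
structure Rep1 (C : Ctx I G) (Y : Type) [Sys C Y] (σ : Voc) where
  B : (I → ZMod 2) → FinStr σ
  dom : (I → ZMod 2) → Y → Prop
  π : (b : I → ZMod 2) → {y : Y // dom b y} → (B b).V
  surj : ∀ b, Function.Surjective (π b)
  dom_loc : IsLoc C dom
  rel_loc : ∀ r : σ.Rel, IsLoc C (fun b (s : Fin (σ.ar r) → Y) =>
    ∃ h : ∀ j, dom b (s j), (B b).rel r (fun j => π b ⟨s j, h j⟩))
  eq_loc : IsLoc C (fun b (s : Y × Y) =>
    ∃ (h : dom b s.1) (h' : dom b s.2), π b ⟨s.1, h⟩ = π b ⟨s.2, h'⟩)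

variable {C : Ctx I G} {Y : Type} [Sys C Y] {σ τ : Voc} {m : ℕ}

/-- Truth of a formula for represented elements. -/
def Rep.T (R : Rep C Y σ m) {X : Type} (φ : CFml σ m X) (b : I → ZMod 2) (s : X → Y) : Prop :=
  ∃ h : ∀ x, R.dom b (s x), Sat (R.B b) φ (fun x => R.π b ⟨s x, h x⟩)

/-- Equality of represented elements. -/
def Rep.E (R : Rep C Y σ m) (b : I → ZMod 2) (s : Y × Y) : Prop :=
  ∃ (h : R.dom b s.1) (h' : R.dom b s.2), R.π b ⟨s.1, h⟩ = R.π b ⟨s.2, h'⟩

/-- Counting with weights. -/
lemma count_classes {D U : Type} [Fintype D] [Fintype U] (π : D → U)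
    (hπ : Function.Surjective π) (P : U → Prop) :
    (Nat.card {v // P v} : ℚ) =
      ∑ d : D, if P (π d) then (1 / (Nat.card {d' // π d = π d'} : ℚ)) else 0 := by
  rw [← Finset.sum_fiberwise univ π, Nat.card_eq_fintype_card, Fintype.card_subtype,
    Finset.card_eq_sum_ones, Nat.cast_sum, Finset.sum_filter]
  refine Finset.sum_congr rfl fun u _ => ?_
  by_cases hu : P u
  · rw [if_pos hu]
    have h1 : ∀ d ∈ univ.filter (fun d => π d = u),
        (if P (π d) then (1 / (Nat.card {d' // π d = π d'} : ℚ)) else 0) =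
          1 / ((univ.filter (fun d => π d = u)).card : ℚ) := by
      intro d hd
      have hd' := (mem_filter.1 hd).2
      rw [hd', if_pos hu, Nat.card_eq_fintype_card, Fintype.card_subtype]
      congr 3
      ext d'
      simp only [mem_filter, mem_univ, true_and]
      exact eq_comm
    rw [Finset.sum_congr rfl h1, Finset.sum_const, nsmul_eq_mul]
    have h2 : ((univ.filter (fun d => π d = u)).card : ℚ) ≠ 0 := by
      obtain ⟨d, hd⟩ := hπ u
      have : (univ.filter (fun d => π d = u)).Nonempty := ⟨d, by simp [hd]⟩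
      exact_mod_cast (Finset.card_pos.2 this).ne'
    rw [mul_one_div_cancel h2]
    norm_num
  · rw [if_neg hu]
    symm
    refine Finset.sum_eq_zero fun d hd => ?_
    rw [(mem_filter.1 hd).2, if_neg hu]

lemma upd_apply {X U U' : Type} (f : U → U') (s : X → U) (x : X) (v : U) :
    (fun y => f (upd s x v y)) = upd (fun y => f (s y)) x (f v) := by
  funext y
  by_cases h : y = x <;> simp [upd, h]

variable [Finite I] [Fintype Y]

/-- Truth of formulas with few variables is local. -/
theorem Rep.T_loc (R : Rep C Y σ m) {K : ℕ} (hK : ∀ y : Y, (Sys.supp C y).card ≤ K)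
    {X : Type} [Fintype X] (hN : (Fintype.card X + 1) * K + 1 < C.N) (φ : CFml σ m X) :
    IsLoc C (fun b (s : X → Y) => R.T φ b s) := by
  have hdom : IsLoc C (fun b (s : X → Y) => ∀ x, R.dom b (s x)) := by
    refine IsLoc.all fun x => R.dom_loc.comp (fun s : X → Y => s x) (fun _ _ => rfl) fun s => ?_
    exact subset_biUnion_of_mem (fun a => Sys.supp C (s a)) (mem_univ x)
  have hKX : ∀ s : X → Y, (Sys.supp C s).card ≤ Fintype.card X * K := by
    intro s
    rw [supp_pi]
    exact (card_biUnion_le_card_mul _ _ _ fun a _ => hK (s a)).trans (by simp)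
  induction φ with
  | rel i r x =>
    have h := (R.rel_loc i r).comp (fun s : X → Y => fun j => s (x j)) (fun _ _ => rfl)
      (fun s => by
        rw [supp_pi]
        exact biUnion_subset.2 fun j _ =>
          subset_biUnion_of_mem (fun a => Sys.supp C (s a)) (mem_univ (x j)))
    have e : (fun b (s : X → Y) => R.T (.rel i r x) b s) = fun b s =>
        ((∀ x, R.dom b (s x)) ∧ ∃ h : ∀ j, R.dom b (s (x j)),
          Sat (R.B b) (.rel i r id) (fun j => R.π b ⟨s (x j), h j⟩)) := by
      funext b s
      apply propext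
      constructor
      · rintro ⟨h, h'⟩
        exact ⟨h, fun j => h (x j), h'⟩
      · rintro ⟨h, _, h'⟩
        exact ⟨h, h'⟩
    rw [e]
    exact hdom.and h
  | eq x y =>
    have h := R.eq_loc.comp (fun s : X → Y => (s x, s y)) (fun _ _ => rfl)
      (fun s => by
        rw [supp_prod, supp_pi]
        exact union_subset (subset_biUnion_of_mem (fun a => Sys.supp C (s a)) (mem_univ x))
          (subset_biUnion_of_mem (fun a => Sys.supp C (s a)) (mem_univ y)))
    have e : (fun b (s : X → Y) => R.T (.eq x y) b s) = fun b s =>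
        ((∀ x, R.dom b (s x)) ∧ ∃ (h : R.dom b (s x)) (h' : R.dom b (s y)),
          R.π b ⟨s x, h⟩ = R.π b ⟨s y, h'⟩) := by
      funext b s
      apply propext
      constructor
      · rintro ⟨h, h'⟩
        exact ⟨h, h x, h y, h'⟩
      · rintro ⟨h, _, _, h'⟩
        exact ⟨h, h'⟩
    rw [e]
    exact hdom.and h
  | blk i x =>
    have h := (R.blk_loc i).comp (fun s : X → Y => s x) (fun _ _ => rfl)
      (fun s => subset_biUnion_of_mem (fun a => Sys.supp C (s a)) (mem_univ x))
    have e : (fun b (s : X → Y) => R.T (.blk i x) b s) = fun b s =>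
        ((∀ x, R.dom b (s x)) ∧ ∃ h : R.dom b (s x), (R.π b ⟨s x, h⟩).1 = i) := by
      funext b s
      apply propext
      constructor
      · rintro ⟨h, h'⟩
        exact ⟨h, h x, h'⟩
      · rintro ⟨h, _, h'⟩
        exact ⟨h, h'⟩
    rw [e]
    exact hdom.and h
  | neg φ ih =>
    have e : (fun b (s : X → Y) => R.T (.neg φ) b s) = fun b s =>
        ((∀ x, R.dom b (s x)) ∧ ¬ R.T φ b s) := by
      funext b s
      apply propext
      constructor
      · rintro ⟨h, h'⟩
        exact ⟨h, fun ⟨_, h2⟩ => h' h2⟩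
      · rintro ⟨h, h'⟩
        exact ⟨h, fun h2 => h' ⟨h, h2⟩⟩
    rw [e]
    exact hdom.and ih.not
  | conj φ ih =>
    have e : (fun b (s : X → Y) => R.T (.conj φ) b s) = fun b s =>
        ((∀ x, R.dom b (s x)) ∧ ∀ i, R.T (φ i) b s) := by
      funext b s
      apply propext
      constructor
      · rintro ⟨h, h'⟩
        exact ⟨h, fun i => ⟨h, h' i⟩⟩
      · rintro ⟨h, h'⟩
        exact ⟨h, fun i => (h' i).2⟩
    rw [e]
    exact hdom.and (IsLoc.all ih)
  | cnt l x φ ih =>
    have hX : 1 ≤ Fintype.card X := Fintype.card_pos_iff.2 ⟨x⟩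
    have hN2 : Fintype.card X * K + K + 1 < C.N := by
      have : (Fintype.card X + 1) * K = Fintype.card X * K + K := by ring
      omega
    have hN3 : K + K + 1 < C.N := by
      have : K ≤ Fintype.card X * K := Nat.le_mul_of_pos_left K hX
      omega
    -- the size of a class
    have hcl : IsLoc C (fun b (y : Y) =>
        ∑ y' : Y, (if R.E b (y, y') then (1 : ℚ) else 0)) :=
      IsLoc.sum (C := C) hK hK hN3 (f := fun b p => if R.E b p then (1 : ℚ) else 0)
        (R.eq_loc.map (fun a => if a then (1 : ℚ) else 0))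
    have hT : IsLoc C (fun b (p : (X → Y) × Y) => R.T φ b (upd p.1 x p.2)) := by
      refine ih.comp (fun p : (X → Y) × Y => upd p.1 x p.2) (fun g p => ?_) fun p => ?_
      · funext y
        by_cases h : y = x <;> simp [upd, h, vadd_prod]
      · rw [supp_pi, supp_prod, supp_pi]
        refine biUnion_subset.2 fun y _ => ?_
        by_cases h : y = x
        · simp only [upd, h, if_true]
          exact subset_union_right
        · simp only [upd, h, if_false]
          exact (subset_biUnion_of_mem (fun a => Sys.supp C (p.1 a)) (mem_univ y)).trans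
            subset_union_left
    have hcl' : IsLoc C (fun b (p : (X → Y) × Y) =>
        ∑ y' : Y, (if R.E b (p.2, y') then (1 : ℚ) else 0)) :=
      hcl.comp (fun p : (X → Y) × Y => p.2) (fun _ _ => rfl) (fun p => by
        rw [supp_prod]; exact subset_union_right)
    have hsum := IsLoc.sum (C := C) hK hKX hN2 (hT.map₂ hcl' (fun a q => if a then 1 / q else 0))
    have e : (fun b (s : X → Y) => R.T (.cnt l x φ) b s) = fun b s =>
        ((∀ x, R.dom b (s x)) ∧ (l : ℚ) ≤ ∑ y : Y, (if R.T φ b (upd s x y) then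
          1 / (∑ y' : Y, (if R.E b (y, y') then (1 : ℚ) else 0)) else 0)) := by
      funext b s
      apply propext
      have key : ∀ h : ∀ x, R.dom b (s x),
          (Nat.card {v : Univ (R.B b) // Sat (R.B b) φ (upd (fun x => R.π b ⟨s x, h x⟩) x v)} : ℚ)
            = ∑ y : Y, (if R.T φ b (upd s x y) then
              1 / (∑ y' : Y, (if R.E b (y, y') then (1 : ℚ) else 0)) else 0) := by
        intro h
        have hfin : Finite (Univ (R.B b)) := by
          have := fun i => (R.B b i).fin
          infer_instance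
        have := Fintype.ofFinite (Univ (R.B b))
        rw [count_classes (R.π b) (R.surj b)]
        have h1 : ∀ y : Y, (if R.T φ b (upd s x y) then
              1 / (∑ y' : Y, (if R.E b (y, y') then (1 : ℚ) else 0)) else 0) ≠ 0 → R.dom b y := by
          intro y hy
          by_contra hd
          apply hy
          rw [if_neg]
          rintro ⟨h2, _⟩
          have := h2 x
          simp only [upd, if_true] at this
          exact hd this
        rw [← Finset.sum_filter_of_ne (p := fun y => R.dom b y) (fun y _ hy => h1 y hy)]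
        rw [Finset.sum_subtype (univ.filter fun y => R.dom b y) (p := fun y => R.dom b y)
          (fun y => by simp)]
        refine Finset.sum_congr rfl fun d _ => ?_
        have h2 : (Sat (R.B b) φ (upd (fun x => R.π b ⟨s x, h x⟩) x (R.π b d))) ↔
            R.T φ b (upd s x d.1) := by
          have hd : ∀ z, R.dom b (upd s x d.1 z) := by
            intro z
            by_cases hz : z = x
            · simp only [upd, hz, if_true]; exact d.2
            · simp only [upd, hz, if_false]; exact h z
          have e2 : (fun z => R.π b ⟨upd s x d.1 z, hd z⟩) =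
              upd (fun x => R.π b ⟨s x, h x⟩) x (R.π b d) := by
            funext z
            by_cases hz : z = x
            · subst hz
              simp only [upd, if_true]
            · simp only [upd, hz, if_false]
          rw [← e2]
          exact ⟨fun h3 => ⟨hd, h3⟩, fun ⟨_, h3⟩ => h3⟩
        have h3 : (Nat.card {d' // R.π b d = R.π b d'} : ℚ) =
            ∑ y' : Y, (if R.E b (d.1, y') then (1 : ℚ) else 0) := by
          rw [← Finset.sum_filter, Finset.sum_const, nsmul_eq_mul, mul_one]
          congr 1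
          rw [← Fintype.card_subtype, ← Nat.card_eq_fintype_card]
          refine Nat.card_congr ⟨fun d' => ⟨d'.1.1, ⟨d.2, d'.1.2, d'.2⟩⟩,
            fun y => ⟨⟨y.1, y.2.2.1⟩, y.2.2.2⟩, fun _ => rfl, fun _ => rfl⟩
        simp only [h2, h3]
      constructor
      · rintro ⟨h, h'⟩
        refine ⟨h, ?_⟩
        rw [← key h]
        exact_mod_cast h'
      · rintro ⟨h, h'⟩
        refine ⟨h, ?_⟩
        rw [← key h] at h'
        show l ≤ Nat.card _
        exact_mod_cast h'
    rw [e]
    exact hdom.and (hsum.map (fun q => (l : ℚ) ≤ q))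

/-- Truth of formulas with auxiliary variables, for represented elements. -/
def Rep.H (R : Rep C Y σ m) {X : Type} {k : ℕ} (φ : CFml σ m (X ⊕ Fin k)) (b : I → ZMod 2)
    (s : X → Y) : Prop :=
  ∃ h : ∀ x, R.dom b (s x), Holds (R.B b) φ (fun x => R.π b ⟨s x, h x⟩)

/-- Truth of formulas with few free and auxiliary variables is local. -/
theorem Rep.H_loc (R : Rep C Y σ m) {K : ℕ} (hK : ∀ y : Y, (Sys.supp C y).card ≤ K)
    {X : Type} [Fintype X] {k : ℕ} (hN : (Fintype.card X + k + 1) * K + 1 < C.N)
    (φ : CFml σ m (X ⊕ Fin k)) : IsLoc C (fun b (s : X → Y) => R.H φ b s) := by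
  have hT := R.T_loc hK (X := X ⊕ Fin k) (by simpa using hN) φ
  have hK1 : ∀ s : X → Y, (Sys.supp C s).card ≤ Fintype.card X * K := by
    intro s
    rw [supp_pi]
    exact (card_biUnion_le_card_mul _ _ _ fun a _ => hK (s a)).trans (by simp)
  have hK2 : ∀ s : Fin k → Y, (Sys.supp C s).card ≤ k * K := by
    intro s
    rw [supp_pi]
    exact (card_biUnion_le_card_mul _ _ _ fun a _ => hK (s a)).trans (by simp)
  have h1 : IsLoc C (fun b (p : (X → Y) × (Fin k → Y)) => R.T φ b (Sum.elim p.1 p.2)) := by
    refine hT.comp (fun p : (X → Y) × (Fin k → Y) => (Sum.elim p.1 p.2 : X ⊕ Fin k → Y))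
      (fun g p => ?_) fun p => ?_
    · funext z
      cases z <;> rfl
    · rw [supp_pi, supp_prod, supp_pi, supp_pi]
      refine biUnion_subset.2 fun z _ => ?_
      cases z with
      | inl z =>
        exact (subset_biUnion_of_mem (fun a => Sys.supp C (p.1 a)) (mem_univ z)).trans
          subset_union_left
      | inr z =>
        exact (subset_biUnion_of_mem (fun a => Sys.supp C (p.2 a)) (mem_univ z)).trans
          subset_union_right
  have h2 := IsLoc.ex (C := C) hK2 hK1 (by
    have : (Fintype.card X + k + 1) * K = Fintype.card X * K + k * K + K := by ring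
    omega) h1
  have e : (fun b (s : X → Y) => R.H φ b s) = fun b s =>
      ∃ z : Fin k → Y, R.T φ b (Sum.elim s z) := by
    funext b s
    apply propext
    constructor
    · rintro ⟨h, z, hz⟩
      choose y hy using fun j => R.surj b (z j)
      refine ⟨fun j => (y j).1, ⟨fun x => ?_, ?_⟩⟩
      · cases x with
        | inl x => exact h x
        | inr j => exact (y j).2
      · have e2 : (fun x : X ⊕ Fin k => R.π b ⟨(Sum.elim s (fun j => (y j).1) : X ⊕ Fin k → Y) x,
            by cases x with
              | inl x => exact h x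
              | inr j => exact (y j).2⟩) =
            Sum.elim (fun x => R.π b ⟨s x, h x⟩) z := by
          funext x
          cases x with
          | inl x => rfl
          | inr j => exact hy j
        rw [e2]
        exact hz
    · rintro ⟨z, h, hz⟩
      refine ⟨fun x => h (Sum.inl x), fun j => R.π b ⟨z j, h (Sum.inr j)⟩, ?_⟩
      have e2 : (Sum.elim (fun x => R.π b ⟨s x, h (Sum.inl x)⟩)
          (fun j => R.π b ⟨z j, h (Sum.inr j)⟩) : X ⊕ Fin k → Univ (R.B b)) =
          fun x => R.π b ⟨(Sum.elim s z : X ⊕ Fin k → Y) x, h x⟩ := by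
        funext x
        cases x <;> rfl
      rw [e2]
      exact hz
  rw [e]
  exact h2

/-- The structures defined by an interpretation in a locally represented family are locally
represented, by labelled tuples. -/
noncomputable def Rep.interp (R : Rep C Y σ m) {K : ℕ}
    (hK : ∀ y : Y, (Sys.supp C y).card ≤ K) {w : ℕ} (D : Interp σ τ m w)
    (hN : (w + 1) * K + 1 < C.N) (B' : (I → ZMod 2) → FinStr τ)
    (q : ∀ b, D.Dom (R.B b) → (B' b).V)
    (hs : ∀ b, Function.Surjective (q b))
    (he : ∀ b, ∀ a : Fin 2 → D.Dom (R.B b), q b (a 0) = q b (a 1) ↔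
      Holds (R.B b) (D.eqv fun j => (a j).1.1) (fun p => (a p.1).1.2 p.2))
    (hr : ∀ b, ∀ (r : τ.Rel) (a : Fin (τ.ar r) → D.Dom (R.B b)),
      (B' b).rel r (fun j => q b (a j)) ↔
        Holds (R.B b) (D.rel r fun j => (a j).1.1) (fun p => (a p.1).1.2 p.2)) :
    Rep1 C (Lab D.L (Fin D.d → Y)) τ where
  B := B'
  dom b c := R.H (D.dom c.l) b c.y
  π b c := q b ⟨(c.1.l, fun j => R.π b ⟨c.1.y j, c.2.choose j⟩), c.2.choose_spec⟩
  surj b v := by
    obtain ⟨a, ha⟩ := hs b v
    choose y hy using fun j => R.surj b (a.1.2 j)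
    have e : (fun j => R.π b ⟨(y j).1, (y j).2⟩) = a.1.2 := by
      funext j
      exact hy j
    refine ⟨⟨⟨a.1.1, fun j => (y j).1⟩, ⟨fun j => (y j).2, ?_⟩⟩, ?_⟩
    · show Holds (R.B b) (D.dom a.1.1) (fun j => R.π b ⟨(y j).1, (y j).2⟩)
      rw [e]; exact a.2
    · rw [← ha]
      exact congrArg (q b) (Subtype.ext (Prod.ext rfl e))
  dom_loc := by
    have h0 : ∀ l : D.L, IsLoc C (fun b (s : Fin D.d → Y) => R.H (D.dom l) b s) := fun l =>
      R.H_loc hK (by
        have h1 : Fintype.card (Fin D.d) + D.k + 1 ≤ w + 1 := by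
          have := D.le_w.1
          simp only [Fintype.card_fin]
          omega
        have := Nat.mul_le_mul_right K h1
        omega) (D.dom l)
    exact IsLoc.dep (f := fun (l : D.L) b (c : Lab D.L (Fin D.d → Y)) => R.H (D.dom l) b c.y)
      (fun l => (h0 l).comp (fun c : Lab D.L (Fin D.d → Y) => c.y) (fun _ _ => rfl)
        (fun _ => subset_rfl)) (fun c : Lab D.L (Fin D.d → Y) => c.l) (fun _ _ => rfl)
  rel_loc r := by
    have h1 := fun l => R.H_loc hK (X := Fin (τ.ar r) × Fin D.d) (k := D.k) (by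
      have h1 : Fintype.card (Fin (τ.ar r) × Fin D.d) + D.k + 1 ≤ w + 1 := by
        have := D.le_w.2 r
        simp only [Fintype.card_prod, Fintype.card_fin]
        omega
      have := Nat.mul_le_mul_right K h1
      omega) (D.rel r l)
    have h0 : ∀ l : D.L, IsLoc C (fun b (s : Fin D.d → Y) => R.H (D.dom l) b s) := fun l =>
      R.H_loc hK (X := Fin D.d) (k := D.k) (by
      have h1 : Fintype.card (Fin D.d) + D.k + 1 ≤ w + 1 := by
        have := D.le_w.1
        simp only [Fintype.card_fin]
        omega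
      have := Nat.mul_le_mul_right K h1
      omega) (D.dom l)
    have h2 : IsLoc C (fun b (s : Fin (τ.ar r) → Lab D.L (Fin D.d → Y)) =>
        R.H (D.rel r fun j => (s j).l) b (fun p => (s p.1).y p.2)) := by
      refine IsLoc.dep (f := fun (l : Fin (τ.ar r) → D.L) b
        (s : Fin (τ.ar r) → Lab D.L (Fin D.d → Y)) =>
          R.H (D.rel r l) b (fun p => (s p.1).y p.2)) (fun l => ?_)
        (fun (s : Fin (τ.ar r) → Lab D.L (Fin D.d → Y)) j => (s j).l) (fun _ _ => rfl)
      refine (h1 l).comp (fun s : Fin (τ.ar r) → Lab D.L (Fin D.d → Y) =>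
        (fun p => (s p.1).y p.2 : Fin (τ.ar r) × Fin D.d → Y)) (fun _ _ => rfl) fun s => ?_
      rw [supp_pi, supp_pi]
      refine biUnion_subset.2 fun p _ => ?_
      refine subset_trans ?_ (subset_biUnion_of_mem (fun a => Sys.supp C (s a)) (mem_univ p.1))
      rw [lab_supp, supp_pi]
      exact subset_biUnion_of_mem (fun a => Sys.supp C ((s p.1).y a)) (mem_univ p.2)
    have h3 : IsLoc C (fun b (s : Fin (τ.ar r) → Lab D.L (Fin D.d → Y)) =>
        ∀ j, R.H (D.dom (s j).l) b (s j).y) := by
      refine IsLoc.all fun j => ?_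
      refine IsLoc.dep (f := fun (l : D.L) b (s : Fin (τ.ar r) → Lab D.L (Fin D.d → Y)) =>
        R.H (D.dom l) b (s j).y) (fun l => ?_)
        (fun (s : Fin (τ.ar r) → Lab D.L (Fin D.d → Y)) => (s j).l) (fun _ _ => rfl)
      exact (h0 l).comp (fun s : Fin (τ.ar r) → Lab D.L (Fin D.d → Y) => (s j).y)
        (fun _ _ => rfl)
        (fun s => subset_biUnion_of_mem (fun a => Sys.supp C (s a)) (mem_univ j))
    have e : (fun b (s : Fin (τ.ar r) → Lab D.L (Fin D.d → Y)) =>
        ∃ h : ∀ j, R.H (D.dom (s j).l) b (s j).y,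
        (B' b).rel r (fun j => q b ⟨((s j).l, fun i => R.π b ⟨(s j).y i, (h j).choose i⟩),
          (h j).choose_spec⟩)) =
        fun b s => (∀ j, R.H (D.dom (s j).l) b (s j).y) ∧
          R.H (D.rel r fun j => (s j).l) b (fun p => (s p.1).y p.2) := by
      funext b s
      apply propext
      constructor
      · rintro ⟨h, h'⟩
        exact ⟨h, fun p => (h p.1).choose p.2, (hr b r _).1 h'⟩
      · rintro ⟨h, h2, h'⟩
        exact ⟨h, (hr b r _).2 h'⟩
    rw [e]
    exact h3.and h2
  eq_loc := by
    have h1 := fun l => R.H_loc hK (X := Fin 2 × Fin D.d) (k := D.k) (by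
      have h1 : Fintype.card (Fin 2 × Fin D.d) + D.k + 1 ≤ w + 1 := by
        have := D.le_w.1
        simp only [Fintype.card_prod, Fintype.card_fin]
        omega
      have := Nat.mul_le_mul_right K h1
      omega) (D.eqv l)
    have h0 : ∀ l : D.L, IsLoc C (fun b (s : Fin D.d → Y) => R.H (D.dom l) b s) := fun l =>
      R.H_loc hK (X := Fin D.d) (k := D.k) (by
      have h1 : Fintype.card (Fin D.d) + D.k + 1 ≤ w + 1 := by
        have := D.le_w.1
        simp only [Fintype.card_fin]
        omega
      have := Nat.mul_le_mul_right K h1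
      omega) (D.dom l)
    let Z := Lab D.L (Fin D.d → Y)
    have h2 : IsLoc C (fun b (s : Z × Z) =>
        R.H (D.eqv fun j => (![s.1, s.2] j : Z).l) b (fun p => (![s.1, s.2] p.1 : Z).y p.2)) := by
      refine IsLoc.dep (f := fun (l : Fin 2 → D.L) b (s : Z × Z) =>
          R.H (D.eqv l) b (fun p => (![s.1, s.2] p.1 : Z).y p.2)) (fun l => ?_)
        (fun (s : Z × Z) j => (![s.1, s.2] j : Z).l) (fun x s => ?_)
      · refine (h1 l).comp (fun s : Z × Z =>
          (fun p => (![s.1, s.2] p.1 : Z).y p.2 : Fin 2 × Fin D.d → Y)) (fun g s => ?_)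
          fun s => ?_
        · funext p
          obtain ⟨i, j⟩ := p
          fin_cases i <;> rfl
        · rw [supp_pi, supp_prod, lab_supp, lab_supp, supp_pi, supp_pi]
          refine biUnion_subset.2 fun p _ => ?_
          obtain ⟨i, j⟩ := p
          fin_cases i
          · exact (subset_biUnion_of_mem (fun a => Sys.supp C (s.1.y a)) (mem_univ j)).trans
              subset_union_left
          · exact (subset_biUnion_of_mem (fun a => Sys.supp C (s.2.y a)) (mem_univ j)).trans
              subset_union_right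
      · funext j
        fin_cases j <;> rfl
    have h3 : IsLoc C (fun b (s : Z × Z) =>
        R.H (D.dom s.1.l) b s.1.y ∧ R.H (D.dom s.2.l) b s.2.y) := by
      refine IsLoc.and ?_ ?_
      · exact IsLoc.dep (f := fun (l : D.L) b (s : Z × Z) => R.H (D.dom l) b s.1.y)
          (fun l => (h0 l).comp (fun s : Z × Z => s.1.y) (fun _ _ => rfl)
            (fun s => subset_union_left)) (fun s : Z × Z => s.1.l) (fun _ _ => rfl)
      · exact IsLoc.dep (f := fun (l : D.L) b (s : Z × Z) => R.H (D.dom l) b s.2.y)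
          (fun l => (h0 l).comp (fun s : Z × Z => s.2.y) (fun _ _ => rfl)
            (fun s => subset_union_right)) (fun s : Z × Z => s.2.l) (fun _ _ => rfl)
    have hd : ∀ (b : I → ZMod 2) (s : Z × Z), R.H (D.dom s.1.l) b s.1.y →
        R.H (D.dom s.2.l) b s.2.y → ∀ p : Fin 2 × Fin D.d,
          R.dom b ((![s.1, s.2] p.1 : Z).y p.2) := by
      intro b s h h' p
      obtain ⟨i, j⟩ := p
      fin_cases i
      · exact h.choose j
      · exact h'.choose j
    have key : ∀ (b : I → ZMod 2) (s : Z × Z) (h : R.H (D.dom s.1.l) b s.1.y)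
        (h' : R.H (D.dom s.2.l) b s.2.y)
        (h2 : ∀ p : Fin 2 × Fin D.d, R.dom b ((![s.1, s.2] p.1 : Z).y p.2)),
        q b ⟨(s.1.l, fun j => R.π b ⟨s.1.y j, h.choose j⟩), h.choose_spec⟩ =
          q b ⟨(s.2.l, fun j => R.π b ⟨s.2.y j, h'.choose j⟩), h'.choose_spec⟩ ↔
        Holds (R.B b) (D.eqv fun j => (![s.1, s.2] j : Z).l)
          (fun p => R.π b ⟨(![s.1, s.2] p.1 : Z).y p.2, h2 p⟩) := by
      intro b s h h' h2
      have h4 := he b (![⟨(s.1.l, fun j => R.π b ⟨s.1.y j, h.choose j⟩), h.choose_spec⟩,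
          ⟨(s.2.l, fun j => R.π b ⟨s.2.y j, h'.choose j⟩), h'.choose_spec⟩] :
            Fin 2 → D.Dom (R.B b))
      refine h4.trans ?_
      have e3 : (fun p : Fin 2 × Fin D.d =>
          ((![⟨(s.1.l, fun j => R.π b ⟨s.1.y j, h.choose j⟩), h.choose_spec⟩,
          ⟨(s.2.l, fun j => R.π b ⟨s.2.y j, h'.choose j⟩), h'.choose_spec⟩] :
            Fin 2 → D.Dom (R.B b)) p.1).1.2 p.2) =
          (fun p => R.π b ⟨(![s.1, s.2] p.1 : Z).y p.2, h2 p⟩) := by
        funext p
        obtain ⟨i, j⟩ := p
        fin_cases i <;> rfl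
      have e4 : (fun j : Fin 2 =>
          ((![⟨(s.1.l, fun j => R.π b ⟨s.1.y j, h.choose j⟩), h.choose_spec⟩,
          ⟨(s.2.l, fun j => R.π b ⟨s.2.y j, h'.choose j⟩), h'.choose_spec⟩] :
            Fin 2 → D.Dom (R.B b)) j).1.1) =
          (fun j => (![s.1, s.2] j : Z).l) := by
        funext j
        fin_cases j <;> rfl
      rw [e3, e4]
    have e : (fun b (s : Z × Z) => ∃ (h : R.H (D.dom s.1.l) b s.1.y)
        (h' : R.H (D.dom s.2.l) b s.2.y),
        q b ⟨(s.1.l, fun j => R.π b ⟨s.1.y j, h.choose j⟩), h.choose_spec⟩ =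
          q b ⟨(s.2.l, fun j => R.π b ⟨s.2.y j, h'.choose j⟩), h'.choose_spec⟩) = fun b s =>
        ((R.H (D.dom s.1.l) b s.1.y ∧ R.H (D.dom s.2.l) b s.2.y) ∧
          R.H (D.eqv fun j => (![s.1, s.2] j : Z).l) b
            (fun p => (![s.1, s.2] p.1 : Z).y p.2)) := by
      funext b s
      apply propext
      constructor
      · rintro ⟨h, h', h2⟩
        exact ⟨⟨h, h'⟩, hd b s h h', (key b s h h' (hd b s h h')).1 h2⟩
      · rintro ⟨⟨h, h'⟩, h2, h3⟩
        exact ⟨h, h', (key b s h h' h2).2 h3⟩
    show IsLoc C (fun b (s : Z × Z) => ∃ (h : R.H (D.dom s.1.l) b s.1.y)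
        (h' : R.H (D.dom s.2.l) b s.2.y),
        q b ⟨(s.1.l, fun j => R.π b ⟨s.1.y j, h.choose j⟩), h.choose_spec⟩ =
          q b ⟨(s.2.l, fun j => R.π b ⟨s.2.y j, h'.choose j⟩), h'.choose_spec⟩)
    rw [e]
    exact h3.and h2

end Pool.MP_609cce_lc.Sym
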